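import Pool.Agent.H36.SZ.Bas

/-!
# The area theorem for the square of a function of class Sigma

`F ^ 2 = z ^ 2 + 2 b_1 + 2 b_2 / z + (2 b_3 + b_1 ^ 2) / z ^ 2 + (2 b_4 + 2 b_1 b_2) / z ^ 3 + ...`
(`b_0 = 0`). The area principle for the polynomial `w ^ 2` gives
`4 |b_2|^2 + 2 |2 b_3 + b_1^2|^2 + 12 |b_4 + b_1 b_2|^2 <= 2` (`IsSig.p2s`, `Sg.p2s`), and hence a
bound for `Re b_3`: `IsSig.p2`, `Sg.p2`; for real `b_1 = 1 - m` this is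
`Re b_3 <= m - m^2 / 2 - |b_2|^2 / 2 - (3 / 2) |b_4 + b_1 b_2|^2` (`Sg.p2r`).
`Sg.p2u`: the same after a rotation, `b_n` being replaced by `b_n u^(n+1)`, `|u| = 1`.
-/

open Complex MeasureTheory Set Filter Topology
open scoped ComplexConjugate Real

namespace Pool.Agent.H36.SZ

open Pool.Agent.H15.Sig

variable {F : ℂ → ℂ} {b : ℕ → ℂ} {q : ℝ}

/-- the area principle for `w ^ 2`, the first terms -/
theorem isSig_p2s (h : IsSig F b) :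
    2 * ‖b 2‖ ^ 2 + ‖2 * b 3 + b 1 ^ 2‖ ^ 2 + 6 * ‖b 4 + b 1 * b 2‖ ^ 2 ≤ 1 := by
  have h1 := h.area_pow (N := 2) (M := 5) (by norm_num)
  simp only [Finset.sum_range_succ, Finset.sum_range_zero, sps_sq_0, sps_sq_1 h.b0,
    sps_sq_2 h.b0, sps_sq_3 h.b0, sps_sq_4 h.b0, sps_sq_5 h.b0] at h1
  have e2 : ‖2 * b 2‖ ^ 2 = 4 * ‖b 2‖ ^ 2 := by rw [norm_mul, mul_pow]; norm_num
  have e5 : ‖2 * b 4 + 2 * b 1 * b 2‖ ^ 2 = 4 * ‖b 4 + b 1 * b 2‖ ^ 2 := by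
    rw [show 2 * b 4 + 2 * b 1 * b 2 = 2 * (b 4 + b 1 * b 2) by ring, norm_mul, mul_pow]
    norm_num
  rw [e2, e5] at h1
  norm_num at h1
  linarith

/-- a bound for `Re (u b_3)`, `|u| = 1` -/
theorem isSig_p2c (h : IsSig F b) {u : ℂ} (hu : ‖u‖ ≤ 1) :
    (u * (2 * b 3 + b 1 ^ 2)).re ≤ 1 - ‖b 2‖ ^ 2 - 3 * ‖b 4 + b 1 * b 2‖ ^ 2 := by
  have h1 := isSig_p2s h
  have h2 : (u * (2 * b 3 + b 1 ^ 2)).re ≤ ‖2 * b 3 + b 1 ^ 2‖ := by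
    refine (re_le_norm _).trans ?_
    rw [norm_mul]
    exact mul_le_of_le_one_left (norm_nonneg _) hu
  have h3 := sq_nonneg (‖2 * b 3 + b 1 ^ 2‖ - 1)
  nlinarith

/-- a bound for `Re b_3` -/
theorem isSig_p2 (h : IsSig F b) :
    (b 3).re ≤ (1 - (b 1 ^ 2).re - ‖b 2‖ ^ 2 - 3 * ‖b 4 + b 1 * b 2‖ ^ 2) / 2 := by
  have h1 := isSig_p2c h (u := 1) (by simp)
  rw [one_mul, add_re, mul_re, re_ofNat, im_ofNat, zero_mul, sub_zero] at h1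
  linarith

/-- the area principle for `w ^ 2`, the first terms -/
theorem Sg.p2s (h : Sg F b q) :
    2 * ‖b 2‖ ^ 2 + ‖2 * b 3 + b 1 ^ 2‖ ^ 2 + 6 * ‖b 4 + b 1 * b 2‖ ^ 2 ≤ 1 :=
  isSig_p2s h.isSig

/-- the area principle for `w ^ 2`, all terms: `c k` is the coefficient of `z^(2-k)` in `F^2` -/
theorem Sg.p2all (h : Sg F b q) {M : ℕ} (hM : 2 ≤ M) :
    ∑ k ∈ Finset.range (M + 1), ((k : ℝ) - 2) * ‖PowerSeries.coeff k (sps b ^ 2)‖ ^ 2 ≤ 0 := by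
  have h1 := h.isSig.area_pow (N := 2) (M := M) hM
  exact_mod_cast h1

theorem Sg.p2 (h : Sg F b q) :
    (b 3).re ≤ (1 - (b 1 ^ 2).re - ‖b 2‖ ^ 2 - 3 * ‖b 4 + b 1 * b 2‖ ^ 2) / 2 :=
  isSig_p2 h.isSig

/-- the form for real `b_1 = 1 - m` -/
theorem Sg.p2r (h : Sg F b q) {m : ℝ} (hm : b 1 = ((1 - m : ℝ) : ℂ)) :
    (b 3).re ≤ m - m ^ 2 / 2 - ‖b 2‖ ^ 2 / 2 - 3 / 2 * ‖b 4 + b 1 * b 2‖ ^ 2 := by
  have h1 := h.p2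
  have e : (b 1 ^ 2).re = (1 - m) ^ 2 := by
    rw [hm, ← ofReal_pow, ofReal_re]
  rw [e] at h1
  nlinarith

/-- the form for general `b_1` with `b_1 = (1 - m) v`, `|v| = 1`:
`Re (conj v ^ 2 b_3) <= m - m^2 / 2 - |b_2|^2 / 2 - (3 / 2) |b_4 + b_1 b_2|^2` -/
theorem Sg.p2v (h : Sg F b q) {m : ℝ} {v : ℂ} (hv : ‖v‖ = 1)
    (hm : b 1 = ((1 - m : ℝ) : ℂ) * v) :
    (conj v ^ 2 * b 3).re ≤ m - m ^ 2 / 2 - ‖b 2‖ ^ 2 / 2 - 3 / 2 * ‖b 4 + b 1 * b 2‖ ^ 2 := by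
  have h1 := isSig_p2c h.isSig (u := conj v ^ 2) (by simp [hv])
  have e : conj v ^ 2 * b 1 ^ 2 = (((1 - m) ^ 2 : ℝ) : ℂ) := by
    have h2 : conj v * v = 1 := by rw [Complex.conj_mul', hv]; simp
    rw [hm]
    push_cast
    linear_combination ((1 - (m : ℂ)) ^ 2 * (conj v * v + 1)) * h2
  have e2 : conj v ^ 2 * (2 * b 3 + b 1 ^ 2) =
      2 * (conj v ^ 2 * b 3) + (((1 - m) ^ 2 : ℝ) : ℂ) := by
    rw [← e]; ring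
  rw [e2, add_re, mul_re, re_ofNat, im_ofNat, zero_mul, sub_zero, ofReal_re] at h1
  nlinarith

end Pool.Agent.H36.SZ
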