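import Pool.Agent.H36.SZ.Defs

/-!
# The kernel `Ph`

PROOFS. Write `m = max x y >= x`. `Ph_of_le`: `m = x`, `x - x - x log (x / x) = 0`
(`x = 0`: `0 * log (0/0) = 0`). `Ph_of_ge`: `m = y`. `Ph_zero`: `0 * log _ = 0`.
`Ph_nonneg`: `log (m/x) <= m/x - 1` for `x > 0`; `x = 0`: `m >= 0`.
`Ph_le_sq`: `log (m/x) >= 1 - x/m`, so `Ph <= (m-x) - x (m-x)/m = (m-x)^2/m <= (m-x)^2/x`.
`Ph_le_sub`: `Ph <= m - x`. `Ph_le_self`: `Ph x y <= y` for `0 <= x`, `0 <= y`.
`Ph_tilde`: for `x > 0`, `z > 0`, `y <= z`: `k z := z - x - x log (z/x)` is `>= 0` for all `z > 0`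
(`log w <= w - 1`), so the claim holds if `y <= x`; if `x < y <= z` then `k` is increasing on
`[x, oo)`: `k z - k y = (z - y) - x log (z/y) >= (z - y) - x (z/y - 1) = (z-y)(1 - x/y) >= 0`.
`Ph_mono`: `y <= z` gives `Ph x y <= Ph x z` (same computation, or `Ph_of_le` and `Ph_nonneg`).
`Ph_cont`: continuity of `(x, y) -> Ph |x| |y|`: at points with `x ≠ 0` it is a composition of
continuous functions (`max |x| |y| / |x| > 0`); at `(0, y0)`: `0 <= |x| log (m/|x|) ` and, if
`y0 ≠ 0`, `|x| log (m / |x|) = |x| log m - |x| log |x| -> 0` (`Real.continuous_mul_log`); if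
`y0 = 0`, `0 <= |x| log (m/|x|) <= m - |x| -> 0` (also true for `x = 0`).
`Ph_hasDerivAt`: three cases. `y s > x s`: near `s` the function is `y - x - x log (y/x)`, whose
derivative is `y' - x' - x' log (y/x) - x (y'/y - x'/x) = (1 - x/y) y' - x' log (y/x)`.
`y s < x s`: near `s` it is `0`, and `1 - x/max = 0`, `log (x/x) = 0`.
`y s = x s`: the claimed derivative is `0`, and `0 <= Ph (x r) (y r) <= (max (x r) (y r) - x r)^2 /
x r <= (|y r - x r|)^2 / x r = O((r-s)^2)`; so the difference quotient tends to `0`.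
-/

open MeasureTheory Set Filter Topology
open scoped Real

namespace Pool.Agent.H36.SZ

theorem Ph_of_le {x y : ℝ} (h : y ≤ x) : Ph x y = 0 := by
  unfold Ph
  rw [max_eq_left h, sub_self]
  rcases eq_or_ne x 0 with h0 | h0
  · rw [h0]
    simp
  · rw [div_self h0]
    simp

theorem Ph_of_ge {x y : ℝ} (h : x ≤ y) : Ph x y = y - x - x * Real.log (y / x) := by
  unfold Ph
  rw [max_eq_right h]

theorem Ph_zero {y : ℝ} (hy : 0 ≤ y) : Ph 0 y = y := by
  unfold Ph
  rw [max_eq_right hy]
  simp

theorem Ph_nonneg {x : ℝ} (hx : 0 ≤ x) (y : ℝ) : 0 ≤ Ph x y := by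
  rcases hx.eq_or_lt with h0 | h0
  · rw [← h0]
    rcases le_total y 0 with h1 | h1
    · rw [Ph_of_le h1]
    · rw [Ph_zero h1]
      exact h1
  · unfold Ph
    have hm := le_max_left x y
    have h1 := Real.log_le_sub_one_of_pos (div_pos (h0.trans_le hm) h0)
    have h2 : x * Real.log (max x y / x) ≤ x * (max x y / x - 1) :=
      mul_le_mul_of_nonneg_left h1 h0.le
    have h3 : x * (max x y / x - 1) = max x y - x := by
      field_simp
    linarith

theorem Ph_le_sq {x : ℝ} (hx : 0 < x) (y : ℝ) : Ph x y ≤ (max x y - x) ^ 2 / x := by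
  unfold Ph
  have hm := le_max_left x y
  set m := max x y with hmd
  have m0 : 0 < m := hx.trans_le hm
  have h1 := Real.one_sub_inv_le_log_of_pos (div_pos m0 hx)
  have h2 : x * (1 - (m / x)⁻¹) ≤ x * Real.log (m / x) := mul_le_mul_of_nonneg_left h1 hx.le
  have h3 : x * (1 - (m / x)⁻¹) = x - x * x / m := by
    rw [inv_div]
    ring
  have h4 : (m - x) - (x - x * x / m) = (m - x) ^ 2 / m := by
    field_simp
  have h5 : (m - x) ^ 2 / m ≤ (m - x) ^ 2 / x := div_le_div_of_nonneg_left (sq_nonneg _) hx hm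
  linarith

theorem Ph_le_self {x y : ℝ} (hx : 0 ≤ x) (hy : 0 ≤ y) : Ph x y ≤ y := by
  rcases le_total y x with h | h
  · rw [Ph_of_le h]
    exact hy
  · rw [Ph_of_ge h]
    rcases hx.eq_or_lt with h0 | h0
    · rw [← h0]
      simp
    · have h1 : 0 ≤ Real.log (y / x) := Real.log_nonneg (by rwa [le_div_iff₀ h0, one_mul])
      have h2 := mul_nonneg h0.le h1
      linarith

theorem Ph_tilde {x y z : ℝ} (hx : 0 < x) (hz : 0 < z) (hyz : y ≤ z) :
    Ph x y ≤ z - x - x * Real.log (z / x) := by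
  rcases le_total y x with h | h
  · rw [Ph_of_le h]
    have h1 := Real.log_le_sub_one_of_pos (div_pos hz hx)
    have h2 : x * Real.log (z / x) ≤ x * (z / x - 1) := mul_le_mul_of_nonneg_left h1 hx.le
    have h3 : x * (z / x - 1) = z - x := by
      field_simp
    linarith
  · rw [Ph_of_ge h]
    have y0 : 0 < y := hx.trans_le h
    have h1 := Real.log_le_sub_one_of_pos (div_pos hz y0)
    have h2 : Real.log (z / x) = Real.log (z / y) + Real.log (y / x) := by
      rw [← Real.log_mul (by positivity) (by positivity)]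
      congr 1
      field_simp
    have h3 : x * Real.log (z / y) ≤ x * (z / y - 1) := mul_le_mul_of_nonneg_left h1 hx.le
    have h5 : 0 ≤ z / y - 1 := by
      rw [sub_nonneg, le_div_iff₀ y0, one_mul]
      exact hyz
    have h4 : x * (z / y - 1) ≤ y * (z / y - 1) := mul_le_mul_of_nonneg_right h h5
    have h6 : y * (z / y - 1) = z - y := by
      field_simp
    rw [h2]
    linarith

theorem Ph_mono {x y z : ℝ} (hx : 0 ≤ x) (hyz : y ≤ z) : Ph x y ≤ Ph x z := by
  rcases le_total z x with h | h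
  · rw [Ph_of_le h, Ph_of_le (hyz.trans h)]
  · rcases hx.eq_or_lt with h0 | h0
    · rw [← h0] at h ⊢
      rw [Ph_zero h]
      rcases le_total y 0 with h1 | h1
      · rw [Ph_of_le h1]
        exact h
      · rw [Ph_zero h1]
        exact hyz
    · rw [Ph_of_ge h]
      exact Ph_tilde h0 (h0.trans_le h) hyz

theorem Ph_cont : Continuous (fun p : ℝ × ℝ => Ph |p.1| |p.2|) := by
  have e : (fun p : ℝ × ℝ => Ph |p.1| |p.2|) = fun p : ℝ × ℝ =>
      max |p.1| |p.2| - |p.1| - (|p.1| * Real.log (max |p.1| |p.2|) - |p.1| * Real.log |p.1|) := by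
    funext p
    unfold Ph
    rcases eq_or_ne (|p.1|) 0 with h | h
    · rw [h]
      simp
    · have h0 : 0 < |p.1| := lt_of_le_of_ne (abs_nonneg _) (Ne.symm h)
      rw [Real.log_div (h0.trans_le (le_max_left _ _)).ne' h]
      ring
  rw [e]
  have c1 : Continuous fun p : ℝ × ℝ => |p.1| := continuous_fst.abs
  have c2 : Continuous fun p : ℝ × ℝ => max |p.1| |p.2| := c1.max continuous_snd.abs
  have c3 : Continuous fun p : ℝ × ℝ => |p.1| * Real.log |p.1| :=
    Real.continuous_mul_log.comp c1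
  have c5 : Continuous fun p : ℝ × ℝ => max |p.1| |p.2| * Real.log (max |p.1| |p.2|) :=
    Real.continuous_mul_log.comp c2
  have c4 : Continuous fun p : ℝ × ℝ => |p.1| * Real.log (max |p.1| |p.2|) := by
    rw [continuous_iff_continuousAt]
    intro p
    rcases eq_or_ne (max |p.1| |p.2|) 0 with h | h
    · have h1 : |p.1| = 0 := le_antisymm (h ▸ le_max_left _ _) (abs_nonneg _)
      have h2 := c5.tendsto p
      simp only [h, zero_mul] at h2
      unfold ContinuousAt
      simp only [h1, zero_mul]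
      refine squeeze_zero_norm (fun r => ?_) (by simpa using h2.norm)
      rw [norm_mul, Real.norm_eq_abs, Real.norm_eq_abs]
      refine mul_le_mul_of_nonneg_right ?_ (abs_nonneg _)
      rw [abs_abs, abs_of_nonneg ((abs_nonneg r.1).trans (le_max_left _ _))]
      exact le_max_left _ _
    · exact c1.continuousAt.mul (c2.continuousAt.log h)
  exact (c2.sub c1).sub (c4.sub c3)

theorem Ph_hasDerivAt {x y : ℝ → ℝ} {x' y' s : ℝ} (hx : HasDerivAt x x' s)
    (hy : HasDerivAt y y' s) (h0 : 0 < x s) :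
    HasDerivAt (fun r => Ph (x r) (y r))
      ((1 - x s / max (x s) (y s)) * y' - x' * Real.log (max (x s) (y s) / x s)) s := by
  have ex : ∀ᶠ r in 𝓝 s, 0 < x r := hx.continuousAt.eventually (lt_mem_nhds h0)
  rcases lt_trichotomy (y s) (x s) with h | h | h
  · rw [max_eq_left h.le, div_self h0.ne', sub_self, Real.log_one, zero_mul, mul_zero, sub_zero]
    have e1 : ∀ᶠ r in 𝓝 s, y r < x r := hy.continuousAt.eventually_lt hx.continuousAt h
    refine (hasDerivAt_const s (0 : ℝ)).congr_of_eventuallyEq ?_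
    filter_upwards [e1] with r hr
    exact Ph_of_le hr.le
  · rw [h, max_self, div_self h0.ne', sub_self, Real.log_one, zero_mul, mul_zero, sub_zero]
    have hd : HasDerivAt (fun r => (y r - x r) ^ 2 / x r)
        ((2 * (y s - x s) * (y' - x') * x s - (y s - x s) ^ 2 * x') / x s ^ 2) s := by
      have h1 := ((hy.sub hx).pow 2).div hx h0.ne'
      refine h1.congr_deriv ?_
      simp only [Pi.sub_apply, Pi.pow_apply]
      norm_num
    have hd0 : HasDerivAt (fun r => (y r - x r) ^ 2 / x r) 0 s := by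
      refine hd.congr_deriv ?_
      rw [h]
      simp
    rw [hasDerivAt_iff_isLittleO] at hd0 ⊢
    have e2 : Ph (x s) (x s) = 0 := Ph_of_le le_rfl
    refine Asymptotics.IsBigO.trans_isLittleO (Asymptotics.IsBigO.of_bound 1 ?_) hd0
    filter_upwards [ex] with r hr
    simp only [e2, h, sub_self, smul_zero, sub_zero]
    rw [Real.norm_eq_abs, Real.norm_eq_abs, one_mul, abs_of_nonneg (Ph_nonneg hr.le _)]
    have h3 := Ph_le_sq hr (y r)
    have h4 : (max (x r) (y r) - x r) ^ 2 / x r ≤ (y r - x r) ^ 2 / x r := by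
      refine div_le_div_of_nonneg_right ?_ hr.le
      rcases le_total (x r) (y r) with h5 | h5
      · rw [max_eq_right h5]
      · rw [max_eq_left h5, sub_self, zero_pow two_ne_zero]
        exact sq_nonneg _
    have h6 : (0 : ℝ) ^ 2 / x s = 0 := by simp
    rw [h6, sub_zero]
    exact (h3.trans h4).trans (le_abs_self _)
  · have y0 : 0 < y s := h0.trans h
    have e1 : ∀ᶠ r in 𝓝 s, x r < y r := hx.continuousAt.eventually_lt hy.continuousAt h
    rw [max_eq_right h.le]
    have h1 := (hy.sub hx).sub (hx.mul ((hy.div hx h0.ne').log (div_pos y0 h0).ne'))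
    refine (h1.congr_of_eventuallyEq ?_).congr_deriv ?_
    · filter_upwards [e1] with r hr
      exact Ph_of_ge hr.le
    · simp only [Pi.div_apply]
      field_simp
      ring

end Pool.Agent.H36.SZ
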