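import Pool.Agent.H36.SZ.Co
import Pool.Agent.H36.SZ.Phl

/-!
# High levels and large radii

PROOFS. `hi`: `yy F t θ = ‖G‖^2 <= 4 cosh^2 t <= x` (`Sg.nrm`), `Ph_of_le`.
`infz`: for `t > 0`, `4 sinh^2 t <= x`: `Ph x y <= (max x y - x)^2 / x <= 16 / (4 sinh^2 t)` since
`y <= 4 cosh^2 t = 4 sinh^2 t + 4 <= x + 4` (`Ph_le_sq`), so `Zf F t x <= 8 π / sinh^2 t -> 0`.
`Zf_cont`: `(p, θ) -> Ph |p.2| (yy F |p.1| θ)` is continuous on `(ℝ × ℝ) × ℝ`: `Ph_cont` composed
with the continuous functions `p.2` and `(p, θ) -> yy F |p.1| θ >= 0` (`An.cG`, `q < 1 <= exp |t|`);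
then `intervalIntegral.continuous_parametric_intervalIntegral_of_continuous'`.
-/

open Complex MeasureTheory Set Filter Topology
open scoped ComplexConjugate Real

namespace Pool.Agent.H36.SZ

variable {F : ℂ → ℂ} {b : ℕ → ℂ} {q : ℝ}

private theorem yy_le_aux (h : Sg F b q) {t : ℝ} (ht : 0 ≤ t) (θ : ℝ) :
    yy F t θ ≤ 4 * Real.cosh t ^ 2 := by
  unfold yy
  have h1 := h.nrm ht θ
  have h2 := norm_nonneg (G F t θ)
  nlinarith

theorem Sg.hi (h : Sg F b q) {t x : ℝ} (ht : 0 ≤ t) (hx : 4 * Real.cosh t ^ 2 ≤ x) :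
    Zf F t x = 0 := by
  unfold Zf
  have h1 : ∀ θ, Ph x (yy F t θ) = 0 := fun θ => Ph_of_le ((yy_le_aux h ht θ).trans hx)
  simp [h1]

theorem Sg.infz (h : Sg F b q) {ε : ℝ} (hε : 0 < ε) :
    ∃ T : ℝ, 0 ≤ T ∧ ∀ t x : ℝ, T ≤ t → 4 * Real.sinh t ^ 2 ≤ x → Zf F t x < ε := by
  have hpi := Real.pi_pos
  have hq0 : 0 < 8 * π / ε := by positivity
  refine ⟨1 + 8 * π / ε, by linarith, fun t x ht hx => ?_⟩
  have ht1 : 1 ≤ t := by linarith
  have ht0 : 0 ≤ t := by linarith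
  have hs : t ≤ Real.sinh t := Real.self_le_sinh_iff.2 ht0
  have hs0 : 0 < Real.sinh t := by linarith
  have hx0 : 0 < x := lt_of_lt_of_le (by positivity) hx
  have hcs : Real.cosh t ^ 2 = Real.sinh t ^ 2 + 1 := Real.cosh_sq t
  have hb : ∀ θ ∈ Set.uIoc (-π) π, ‖Ph x (yy F t θ)‖ ≤ 4 / Real.sinh t ^ 2 := by
    intro θ _
    rw [Real.norm_eq_abs, abs_of_nonneg (Ph_nonneg hx0.le _)]
    refine (Ph_le_sq hx0 _).trans ?_
    have h1 : max x (yy F t θ) - x ≤ 4 := by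
      have h2 := yy_le_aux h ht0 θ
      have h3 : max x (yy F t θ) ≤ x + 4 := max_le (by linarith) (by linarith)
      linarith
    have h0 : 0 ≤ max x (yy F t θ) - x := by
      have := le_max_left x (yy F t θ)
      linarith
    rw [div_le_div_iff₀ hx0 (by positivity)]
    have h4 : (max x (yy F t θ) - x) ^ 2 ≤ 16 := by nlinarith
    have h5 : 0 ≤ Real.sinh t ^ 2 := by positivity
    nlinarith
  have h6 := intervalIntegral.norm_integral_le_of_norm_le_const hb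
  have h7 : Zf F t x ≤ 4 / Real.sinh t ^ 2 * |π - -π| := (le_abs_self _).trans h6
  have h8 : |π - -π| = 2 * π := by
    rw [abs_of_nonneg (by linarith)]
    ring
  rw [h8] at h7
  refine lt_of_le_of_lt h7 ?_
  rw [div_mul_eq_mul_div, div_lt_iff₀ (by positivity)]
  have h9 : t ≤ Real.sinh t ^ 2 := by nlinarith
  have h10 : ε * (8 * π / ε) = 8 * π := by field_simp
  have h11 : ε * (1 + 8 * π / ε) ≤ ε * Real.sinh t ^ 2 := by
    apply mul_le_mul_of_nonneg_left _ hε.le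
    linarith
  have h12 : ε * (1 + 8 * π / ε) = ε + 8 * π := by rw [mul_add, h10, mul_one]
  linarith

theorem An.Zf_cont (h : An F q) (hq : q < 1) :
    Continuous (fun p : ℝ × ℝ => Zf F |p.1| |p.2|) := by
  have hG : Continuous (fun x : (ℝ × ℝ) × ℝ => G F |x.1.1| x.2) := by
    have hc : Continuous (fun x : (ℝ × ℝ) × ℝ => ((|x.1.1|, x.2) : ℝ × ℝ)) := by fun_prop
    refine h.cG.comp_continuous hc (fun x => ?_)
    show q < Real.exp |x.1.1|
    exact lt_of_lt_of_le hq (Real.one_le_exp (abs_nonneg _))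
  have hy : Continuous (fun x : (ℝ × ℝ) × ℝ => yy F |x.1.1| x.2) := by
    unfold yy
    exact (continuous_norm.comp hG).pow 2
  have hP : Continuous (fun x : (ℝ × ℝ) × ℝ => Ph |x.1.2| |yy F |x.1.1| x.2|) := by
    have hc : Continuous (fun x : (ℝ × ℝ) × ℝ => ((x.1.2, yy F |x.1.1| x.2) : ℝ × ℝ)) :=
      (continuous_snd.comp continuous_fst).prodMk hy
    exact Ph_cont.comp hc
  have hP2 : Continuous (Function.uncurry
      (fun (p : ℝ × ℝ) (θ : ℝ) => Ph |p.2| (yy F |p.1| θ))) := by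
    refine hP.congr (fun x => ?_)
    have h1 : |yy F |x.1.1| x.2| = yy F |x.1.1| x.2 := by
      apply abs_of_nonneg
      unfold yy
      positivity
    rw [h1]
    rfl
  exact intervalIntegral.continuous_parametric_intervalIntegral_of_continuous' hP2 (-π) π

end Pool.Agent.H36.SZ
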