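import Pool.Agent.H36.SZ.HiI

/-!
# High levels: the numerical inequality

`e = 1 - c ∈ [7/20, 1]`, `Q = Qe t = e^(-2t) <= e^(-3) < 0.0498`, `Kb t <= 0.1752`, `Ka t <= 0.46`,
`I = Ic c >= (8/3) e sqrt (e/2) >= 1.11 e`, `U = Uc c >= (3/4) e I`,
`ρ = (2 cosh 2t + 2c) / (2 cosh 2t + 2) >= 10/11`, `λ = max 0 (p-c) / (1-c)`.
If `p <= c`, then `λ = 0` and `2 ρ U >= 0.185 >= Kb`. If `p >= c`, then `p = c + eλ`,
`1 - p^2 = e (1-λ) (2 - e + eλ)`, and after division by `e (1-λ)` the claim follows from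
`2 λ Ka I + (2 e λ π Q^2 + Kb) (2 - e + eλ) <= 0.92 λ I + 0.382 <= (15/11) (1+λ) I`.
-/

open Complex MeasureTheory Set Filter Topology
open scoped ComplexConjugate Real

namespace Pool.Agent.H36.SZ

/-- `κ'` -/
noncomputable def Kb (t : ℝ) : ℝ :=
  (2 * Jm t ^ 2 + 4 * Jm t * Real.sqrt (La t) + La t) * (π * Qe t ^ 2) / 2

theorem HiN_exp3 : (20.081 : ℝ) < Real.exp 3 := by
  have h1 := Real.exp_one_gt_d9
  have h2 : Real.exp 3 = Real.exp 1 ^ 3 := by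
    rw [← Real.exp_nat_mul]
    norm_num
  rw [h2]
  calc (20.081 : ℝ) < 2.7182818283 ^ 3 := by norm_num
    _ < Real.exp 1 ^ 3 := pow_lt_pow_left₀ h1 (by norm_num) (by norm_num)

theorem HiN_Qpos (t : ℝ) : 0 < Qe t := Real.exp_pos _

theorem HiN_Q {t : ℝ} (ht : 3 / 2 ≤ t) : Qe t ≤ 498 / 10000 := by
  have h1 : Qe t ≤ Real.exp (-3) := Real.exp_le_exp.2 (by linarith)
  refine h1.trans ?_
  rw [Real.exp_neg]
  have h2 := HiN_exp3
  have h3 : (Real.exp 3)⁻¹ ≤ (20.081 : ℝ)⁻¹ := inv_anti₀ (by norm_num) h2.le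
  refine h3.trans ?_
  norm_num

theorem HiN_La {t : ℝ} (ht : 3 / 2 ≤ t) : 0 ≤ La t ∧ La t ≤ 12887 / 10000000 := by
  have hQ := HiN_Q ht
  have hQ0 := HiN_Qpos t
  unfold La
  have h1 : (0 : ℝ) < 3 * (1 - Qe t) := by linarith
  have h2 : (2.8506 : ℝ) ≤ 3 * (1 - Qe t) := by linarith
  have h3 : Qe t ^ 2 ≤ (498 / 10000) ^ 2 := pow_le_pow_left₀ hQ0.le hQ 2
  have h4 : Qe t ^ 3 ≤ (498 / 10000) ^ 3 := pow_le_pow_left₀ hQ0.le hQ 3
  have h5 : Qe t ^ 3 / (3 * (1 - Qe t)) ≤ (498 / 10000) ^ 3 / 2.8506 :=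
    div_le_div₀ (by norm_num) h4 (by norm_num) h2
  refine ⟨by positivity, ?_⟩
  calc Qe t ^ 2 / 2 + Qe t ^ 3 / (3 * (1 - Qe t)) ≤ (498 / 10000) ^ 2 / 2 +
      (498 / 10000) ^ 3 / 2.8506 := by linarith
    _ ≤ 12887 / 10000000 := by norm_num

theorem Kb_le {t : ℝ} (ht : 3 / 2 ≤ t) : Kb t ≤ 1752 / 10000 := by
  have hQ := HiN_Q ht
  have hQ0 := HiN_Qpos t
  obtain ⟨hL0, hL⟩ := HiN_La ht
  set x := Real.exp (-t) with hx
  have hx0 : 0 < x := Real.exp_pos _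
  have hQx : Qe t = x ^ 2 := by
    rw [hx, ← Real.exp_nat_mul]
    unfold Qe
    congr 1
    push_cast
    ring
  have hJ : Jm t = x⁻¹ * (1 + x ^ 2) := by
    unfold Jm
    rw [← hQx, hx, Real.exp_neg, inv_inv]
  have hx1 : x ≤ 2232 / 10000 := by
    rw [hQx] at hQ
    nlinarith
  have hs0 : 0 ≤ Real.sqrt (La t) := Real.sqrt_nonneg _
  have hs : Real.sqrt (La t) ≤ 359 / 10000 := by
    rw [Real.sqrt_le_left (by norm_num)]
    refine hL.trans ?_
    norm_num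
  have hKb : Kb t = (2 * (1 + x ^ 2) ^ 2 * x ^ 2 + 4 * (1 + x ^ 2) * x ^ 3 * Real.sqrt (La t) +
      La t * x ^ 4) * (π / 2) := by
    unfold Kb
    rw [hJ, hQx]
    field_simp
  rw [hKb]
  have hx2 : x ^ 2 ≤ 498 / 10000 := by rw [← hQx]; exact hQ
  have hx3 : x ^ 3 ≤ 1112 / 100000 := by
    have : x ^ 3 = x ^ 2 * x := by ring
    rw [this]
    calc x ^ 2 * x ≤ 498 / 10000 * (2232 / 10000) :=
          mul_le_mul hx2 hx1 hx0.le (by norm_num)
      _ ≤ 1112 / 100000 := by norm_num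
  have hx4 : x ^ 4 ≤ (498 / 10000) ^ 2 := by
    have : x ^ 4 = (x ^ 2) ^ 2 := by ring
    rw [this]
    exact pow_le_pow_left₀ (by positivity) hx2 2
  have e1 : 2 * (1 + x ^ 2) ^ 2 * x ^ 2 ≤ 2 * (1 + 498 / 10000) ^ 2 * (498 / 10000) := by
    gcongr
  have e2 : 4 * (1 + x ^ 2) * x ^ 3 * Real.sqrt (La t) ≤
      4 * (1 + 498 / 10000) * (1112 / 100000) * (359 / 10000) := by
    gcongr
  have e3 : La t * x ^ 4 ≤ 12887 / 10000000 * (498 / 10000) ^ 2 := by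
    gcongr
  have hpi := Real.pi_lt_d4
  have hpi0 := Real.pi_pos
  have h9 : (2 * (1 + x ^ 2) ^ 2 * x ^ 2 + 4 * (1 + x ^ 2) * x ^ 3 * Real.sqrt (La t) +
      La t * x ^ 4) * (π / 2) ≤ (2 * (1 + 498 / 10000) ^ 2 * (498 / 10000) +
        4 * (1 + 498 / 10000) * (1112 / 100000) * (359 / 10000) +
        12887 / 10000000 * (498 / 10000) ^ 2) * (3.1416 / 2) :=
    mul_le_mul (by linarith) (by linarith) (by positivity) (by norm_num)
  refine h9.trans ?_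
  norm_num

theorem Ka_le {t : ℝ} (ht : 3 / 2 ≤ t) : Ka t ≤ 46 / 100 := by
  have hQ := HiN_Q ht
  have hQ0 := HiN_Qpos t
  have h1 : (0.917 : ℝ) ≤ 1 - 5 / 3 * Qe t := by linarith
  have h2 : Qe t ^ 2 ≤ (498 / 10000) ^ 2 := pow_le_pow_left₀ hQ0.le hQ 2
  have h3 : Qe t ^ 3 ≤ (498 / 10000) ^ 3 := pow_le_pow_left₀ hQ0.le hQ 3
  have h4 : 49 * Qe t ^ 3 / (1 - 5 / 3 * Qe t) ≤ 49 * (498 / 10000) ^ 3 / 0.917 :=
    div_le_div₀ (by norm_num) (by linarith) (by norm_num) h1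
  have h5 : 0 ≤ 49 * Qe t ^ 3 / (1 - 5 / 3 * Qe t) := by
    have : (0 : ℝ) < 1 - 5 / 3 * Qe t := by linarith
    positivity
  unfold Ka
  calc (1 + Qe t) * (6 * Qe t + 2 * (25 * Qe t ^ 2 + 49 * Qe t ^ 3 / (1 - 5 / 3 * Qe t)))
      ≤ (1 + 498 / 10000) * (6 * (498 / 10000) + 2 * (25 * (498 / 10000) ^ 2 +
        49 * (498 / 10000) ^ 3 / 0.917)) := by
        refine mul_le_mul (by linarith) (by linarith) (by positivity) (by norm_num)
    _ ≤ 46 / 100 := by norm_num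

theorem HiN_Ic {c : ℝ} (hc : 0 ≤ c) (hc1 : c ≤ 13 / 20) : 111 / 100 * (1 - c) ≤ Ic c := by
  refine le_trans ?_ (Ic_ge hc (by linarith))
  have h1 : (4175 / 10000 : ℝ) ≤ Real.sqrt ((1 - c) / 2) := by
    refine Real.le_sqrt_of_sq_le ?_
    norm_num
    linarith
  have h2 : (0 : ℝ) ≤ 8 / 3 * (1 - c) := by linarith
  have h3 := mul_le_mul_of_nonneg_left h1 h2
  linarith

theorem HiN_rho {t c : ℝ} (ht : 3 / 2 ≤ t) (hc : 0 ≤ c) :
    10 / 11 ≤ (2 * Real.cosh (2 * t) + 2 * c) / (2 * Real.cosh (2 * t) + 2) := by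
  have h1 : 20 ≤ 2 * Real.cosh (2 * t) := by
    rw [Real.cosh_eq]
    have h2 : Real.exp 3 ≤ Real.exp (2 * t) := Real.exp_le_exp.2 (by linarith)
    have h3 := HiN_exp3
    have h4 := Real.exp_pos (-(2 * t))
    linarith
  rw [div_le_div_iff₀ (by norm_num) (by linarith)]
  linarith

theorem num_hi {t c p : ℝ} (ht : 3 / 2 ≤ t) (hc : 0 ≤ c) (hc1 : c ≤ 13 / 20) (hp : 0 ≤ p)
    (hp1 : p ≤ 1) :
    (1 - p) * Ka t * (2 * (max 0 (p - c) / (1 - c)) * Ic c) +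
        2 * max 0 (p - c) * (π * Qe t ^ 2 * (1 - p ^ 2)) + Kb t * (1 - p ^ 2) ≤
      (2 * Real.cosh (2 * t) + 2 * c) *
        (2 / (2 * Real.cosh (2 * t) + 2) * (1 - (max 0 (p - c) / (1 - c)) ^ 2) * Uc c) := by
  have hKb := Kb_le ht
  have hKa := Ka_le ht
  have hQ := HiN_Q ht
  have hQ0 := HiN_Qpos t
  have hρ := HiN_rho (c := c) ht hc
  have hI := HiN_Ic hc hc1
  have hU := Uc_ge hc (by linarith : c ≤ 1)
  set I := Ic c
  set U := Uc c
  set ρ := (2 * Real.cosh (2 * t) + 2 * c) / (2 * Real.cosh (2 * t) + 2) with hρd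
  obtain ⟨e, he⟩ : ∃ e, e = 1 - c := ⟨_, rfl⟩
  rw [← he] at hI hU ⊢
  have he0 : 7 / 20 ≤ e := by linarith
  have he1 : e ≤ 1 := by linarith
  have hepos : 0 < e := by linarith
  have hI' : 3885 / 10000 ≤ I := by linarith
  have hU' : 0 ≤ U := le_trans (by positivity) hU
  have hR : ∀ l : ℝ, (2 * Real.cosh (2 * t) + 2 * c) *
        (2 / (2 * Real.cosh (2 * t) + 2) * (1 - l ^ 2) * U) = 2 * ρ * (1 - l ^ 2) * U := by
    intro l
    rw [hρd]
    ring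
  rw [hR]
  have hp2 : p ^ 2 ≤ 1 := by nlinarith
  rcases le_total p c with h | h
  · have h0 : max 0 (p - c) = 0 := max_eq_left (by linarith)
    rw [h0]
    have h1 : Kb t * (1 - p ^ 2) ≤ 1752 / 10000 := by
      calc Kb t * (1 - p ^ 2) ≤ 1752 / 10000 * (1 - p ^ 2) :=
            mul_le_mul_of_nonneg_right hKb (by linarith)
        _ ≤ 1752 / 10000 := by nlinarith [sq_nonneg p]
    have h2 : 3 / 4 * (7 / 20) * (3885 / 10000) ≤ U := by
      refine le_trans ?_ hU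
      have h3 : 7 / 20 * (3885 / 10000) ≤ e * I := mul_le_mul he0 hI' (by norm_num) hepos.le
      linarith
    have h3 : 10 / 11 * (3 / 4 * (7 / 20) * (3885 / 10000)) ≤ ρ * U :=
      mul_le_mul hρ h2 (by norm_num) (by linarith)
    have h4 : 2 * ρ * (1 - (0 / e) ^ 2) * U = 2 * (ρ * U) := by
      rw [zero_div]
      ring
    rw [h4]
    have h5 : (1 - p) * Ka t * (2 * (0 / e) * I) + 2 * 0 * (π * Qe t ^ 2 * (1 - p ^ 2)) +
        Kb t * (1 - p ^ 2) = Kb t * (1 - p ^ 2) := by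
      rw [zero_div]
      ring
    rw [h5]
    linarith
  · have h0 : max 0 (p - c) = p - c := max_eq_right (by linarith)
    rw [h0]
    obtain ⟨l, hl⟩ : ∃ l, l = (p - c) / e := ⟨_, rfl⟩
    rw [← hl]
    have hpc : p - c = e * l := by
      rw [hl, mul_div_cancel₀ _ hepos.ne']
    have hl0 : 0 ≤ l := by
      rw [hl]
      exact div_nonneg (by linarith) hepos.le
    have hl1 : l ≤ 1 := by
      rw [hl, div_le_one hepos]
      linarith
    have hpe : p = 1 - e * (1 - l) := by linarith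
    have h1p : 1 - p = e * (1 - l) := by linarith
    have h1p2 : 1 - p ^ 2 = e * (1 - l) * (2 - e + e * l) := by
      rw [hpe]
      ring
    rw [hpc, h1p, h1p2]
    have hw : 0 ≤ e * (1 - l) := mul_nonneg hepos.le (by linarith)
    have hpi := Real.pi_lt_d4
    have hpi0 := Real.pi_pos
    have hq2 : π * Qe t ^ 2 ≤ 3.1416 * (498 / 10000) ^ 2 :=
      mul_le_mul hpi.le (pow_le_pow_left₀ hQ0.le hQ 2) (by positivity) (by norm_num)
    have hel : e * l ≤ 1 := mul_le_one₀ he1 hl0 hl1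
    have hel0 : 0 ≤ e * l := mul_nonneg hepos.le hl0
    have hg : 0 ≤ 2 - e + e * l := by linarith
    have hg2 : 2 - e + e * l ≤ 2 := by nlinarith
    -- the bracket
    have hb1 : 2 * (e * l) * (π * Qe t ^ 2) + Kb t ≤ 191 / 1000 := by
      have h1 : (e * l) * (π * Qe t ^ 2) ≤ 1 * (3.1416 * (498 / 10000) ^ 2) :=
        mul_le_mul hel hq2 (by positivity) (by norm_num)
      norm_num at h1
      linarith
    have hb2 : (2 * (e * l) * (π * Qe t ^ 2) + Kb t) * (2 - e + e * l) ≤ 382 / 1000 := by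
      calc (2 * (e * l) * (π * Qe t ^ 2) + Kb t) * (2 - e + e * l)
          ≤ 191 / 1000 * (2 - e + e * l) := mul_le_mul_of_nonneg_right hb1 hg
        _ ≤ 382 / 1000 := by linarith
    have hb3 : 2 * l * (Ka t * I) ≤ 92 / 100 * (l * I) := by
      have h1 : Ka t * (l * I) ≤ 46 / 100 * (l * I) :=
        mul_le_mul_of_nonneg_right hKa (mul_nonneg hl0 (by linarith))
      linarith
    have hb4 : 2 * l * (Ka t * I) + (2 * (e * l) * (π * Qe t ^ 2) + Kb t) * (2 - e + e * l) ≤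
        3 / 2 * ρ * (1 + l) * I := by
      have h1 : 15 / 11 * ((1 + l) * I) ≤ 3 / 2 * ρ * ((1 + l) * I) :=
        mul_le_mul_of_nonneg_right (by linarith) (mul_nonneg (by linarith) (by linarith))
      have h2 : 0 ≤ l * I := mul_nonneg hl0 (by linarith)
      linarith
    have hlhs : e * (1 - l) * Ka t * (2 * l * I) +
        2 * (e * l) * (π * Qe t ^ 2 * (e * (1 - l) * (2 - e + e * l))) +
        Kb t * (e * (1 - l) * (2 - e + e * l)) =
        e * (1 - l) * (2 * l * (Ka t * I) +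
          (2 * (e * l) * (π * Qe t ^ 2) + Kb t) * (2 - e + e * l)) := by ring
    rw [hlhs]
    have h1 := mul_le_mul_of_nonneg_left hb4 hw
    refine h1.trans ?_
    have h2 : 0 ≤ 2 * ρ * (1 - l ^ 2) := by
      have : 0 ≤ 1 - l ^ 2 := by nlinarith
      have h3 : 0 ≤ ρ := by linarith
      positivity
    have h3 := mul_le_mul_of_nonneg_left hU h2
    refine le_trans (le_of_eq ?_) h3
    ring

end Pool.Agent.H36.SZ
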