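import Pool.Agent.H36.SZ.HiT
import Pool.Agent.H36.SZ.HiN

/-!
# High levels, `t >= 3/2`, `2 cosh 2t <= x <= 2 cosh 2t + 13/10`

PROOF of `high_real`. `x = 2K + 2c`. `Ph_quad` with `u = yb p t φ`, `y = yy F t φ = u + (2 Af + |H|^2)`
(`yy_split`), integrated: `Zf F - int Ph x (yb) <= int w 2 Af + int w |H|^2 +
(1/(2x)) int (2 Af + |H|^2)^2`. Multiply by `x`: `x int w 2 Af <= (1-p) Ka (x int w)` (`H_T1`)
`<= (1-p) Ka 2λ Ic` (`wint`; `Ka >= 0`); `x int w |H|^2 <= 2 max 0 (p-c) π Q^2 (1-p^2)` (`wsup`,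
`H_two`); the last one is `<= Kb (1-p^2)` (`H_T3`). Then `gain` and `num_hi`.
PROOF of `high`: rotate as in `Sg.low` (`Lo.lean`): `b 1 = ‖b 1‖`, `‖b 1‖ < 1` (`Sg.b1`).
-/

open Complex MeasureTheory Set Filter Topology
open scoped ComplexConjugate Real

namespace Pool.Agent.H36.SZ

variable {F : ℂ → ℂ} {b : ℕ → ℂ} {q : ℝ}

theorem Sg.high_real (h : Sg F b q) {p : ℝ} (hp : 0 ≤ p) (hp1 : p ≤ 1) (hb : b 1 = (p : ℂ))
    {t c : ℝ} (ht : 3 / 2 ≤ t) (hc : 0 ≤ c) (hc1 : c ≤ 13 / 20) :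
    Zf F t (2 * Real.cosh (2 * t) + 2 * c) ≤ Zf J t (2 * Real.cosh (2 * t) + 2 * c) := by
  have ht0 : 0 < t := by linarith
  have hc2 : c < 1 := by linarith
  have hpi : (-π : ℝ) ≤ π := by linarith [Real.pi_pos]
  have hK : 1 ≤ Real.cosh (2 * t) := Real.one_le_cosh _
  set x : ℝ := 2 * Real.cosh (2 * t) + 2 * c with hxdef
  have hx : 0 < x := by rw [hxdef]; linarith
  have cF : Continuous (yy F t) := by
    unfold yy
    exact (h.G_cont ht0).norm.pow 2
  have cU := yb_cont p t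
  have cA := h.Af_cont ht0 p
  have cN : Continuous fun φ => ‖Hf F p t φ‖ ^ 2 := (h.Hf_cont ht0 p).norm.pow 2
  have cW : Continuous fun φ => wP x (yb p t φ) := (wP_cont hx).comp cU
  have cPh : ∀ (f : ℝ → ℝ), Continuous f → (∀ θ, 0 ≤ f θ) → Continuous fun θ => Ph x (f θ) := by
    intro f hf hf0
    have h1 : Continuous fun θ => Ph |x| |f θ| := Ph_cont.comp (continuous_const.prodMk hf)
    have e : (fun θ => Ph |x| |f θ|) = fun θ => Ph x (f θ) := by
      funext θ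
      rw [abs_of_pos hx, abs_of_nonneg (hf0 θ)]
    rwa [e] at h1
  have u0 : ∀ φ, 0 ≤ yb p t φ := fun φ => by rw [← norm_Jb]; positivity
  have cPF := cPh _ cF (fun θ => by unfold yy; positivity)
  have cPU := cPh _ cU u0
  have i0 : IntervalIntegrable (fun φ => Ph x (yb p t φ)) volume (-π) π := cPU.intervalIntegrable _ _
  have i1 : IntervalIntegrable (fun φ => wP x (yb p t φ) * (2 * Af F p t φ)) volume (-π) π :=
    (cW.mul (continuous_const.mul cA)).intervalIntegrable _ _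
  have i2 : IntervalIntegrable (fun φ => wP x (yb p t φ) * ‖Hf F p t φ‖ ^ 2) volume (-π) π :=
    (cW.mul cN).intervalIntegrable _ _
  have i3 : IntervalIntegrable (fun φ => (2 * Af F p t φ + ‖Hf F p t φ‖ ^ 2) ^ 2) volume (-π) π :=
    (((continuous_const.mul cA).add cN).pow 2).intervalIntegrable _ _
  have i4 : IntervalIntegrable (fun φ => (2 * Af F p t φ + ‖Hf F p t φ‖ ^ 2) ^ 2 * (1 / (2 * x)))
      volume (-π) π := i3.mul_const _
  -- the pointwise bound, integrated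
  have a1 : Zf F t x ≤ (∫ φ in (-π)..π, Ph x (yb p t φ)) +
      (∫ φ in (-π)..π, wP x (yb p t φ) * (2 * Af F p t φ)) +
      (∫ φ in (-π)..π, wP x (yb p t φ) * ‖Hf F p t φ‖ ^ 2) +
      (∫ φ in (-π)..π, (2 * Af F p t φ + ‖Hf F p t φ‖ ^ 2) ^ 2) * (1 / (2 * x)) := by
    rw [← intervalIntegral.integral_mul_const, ← intervalIntegral.integral_add i0 i1,
      ← intervalIntegral.integral_add (i0.add i1) i2,
      ← intervalIntegral.integral_add ((i0.add i1).add i2) i4]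
    unfold Zf
    refine intervalIntegral.integral_mono_on hpi (cPF.intervalIntegrable _ _)
      (((i0.add i1).add i2).add i4) fun φ _ => ?_
    have h1 := Ph_quad hx (yy F t φ) (yb p t φ)
    have h2 : yy F t φ - yb p t φ = 2 * Af F p t φ + ‖Hf F p t φ‖ ^ 2 := by
      rw [yy_split F p t φ]
      ring
    rw [h2] at h1
    refine h1.trans (le_of_eq ?_)
    ring
  -- the three terms
  have hKa : 0 ≤ Ka t := by
    have hQ0 : 0 < Qe t := by unfold Qe; positivity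
    have hQ1 : Qe t ≤ 1 / 3 := by
      unfold Qe
      have h1 : Real.exp (-(2 * t)) ≤ Real.exp (-(3 : ℝ)) := Real.exp_le_exp.2 (by linarith)
      have h2 : Real.exp (-(3 : ℝ)) ≤ 1 / 3 := by
        rw [Real.exp_neg, inv_le_comm₀ (Real.exp_pos _) (by norm_num)]
        have := Real.add_one_le_exp (3 : ℝ)
        linarith
      exact h1.trans h2
    unfold Ka
    have h3 : 0 < 1 - 5 / 3 * Qe t := by linarith
    positivity
  have hq : 0 ≤ 1 - p := by linarith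
  have t1 : x * (∫ φ in (-π)..π, wP x (yb p t φ) * (2 * Af F p t φ)) ≤
      (1 - p) * Ka t * (2 * (max 0 (p - c) / (1 - c)) * Ic c) := by
    have h1 := h.H_T1 hp hp1 hb (t := t) (c := c) (by linarith) hc
    have h2 := wint (t := t) hc hc2 hp hp1
    rw [← hxdef] at h1 h2
    have h3 := mul_le_mul_of_nonneg_left h1 hx.le
    have h4 := mul_le_mul_of_nonneg_left h2 (mul_nonneg hq hKa)
    linarith
  have t2 : x * (∫ φ in (-π)..π, wP x (yb p t φ) * ‖Hf F p t φ‖ ^ 2) ≤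
      2 * max 0 (p - c) * (π * Qe t ^ 2 * (1 - p ^ 2)) := by
    rw [← intervalIntegral.integral_const_mul]
    have h1 : ∫ φ in (-π)..π, x * (wP x (yb p t φ) * ‖Hf F p t φ‖ ^ 2) ≤
        ∫ φ in (-π)..π, 2 * max 0 (p - c) * ‖Hf F p t φ‖ ^ 2 := by
      refine intervalIntegral.integral_mono_on hpi (i2.const_mul _)
        ((continuous_const.mul cN).intervalIntegrable _ _) fun φ _ => ?_
      have h2 := wsup (t := t) hc hc2 hp hp1 φ
      rw [← hxdef] at h2
      have h3 := mul_le_mul_of_nonneg_right h2 (sq_nonneg ‖Hf F p t φ‖)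
      linarith
    have e2 : ∫ φ in (-π)..π, 2 * max 0 (p - c) * ‖Hf F p t φ‖ ^ 2 =
        2 * max 0 (p - c) * ∫ φ in (-π)..π, ‖Hf F p t φ‖ ^ 2 := intervalIntegral.integral_const_mul _ _
    rw [e2] at h1
    have h4 := mul_le_mul_of_nonneg_left (h.H_two hb ht0)
      (show 0 ≤ 2 * max 0 (p - c) from mul_nonneg (by norm_num) (le_max_left _ _))
    exact h1.trans h4
  have t3 : x * ((∫ φ in (-π)..π, (2 * Af F p t φ + ‖Hf F p t φ‖ ^ 2) ^ 2) * (1 / (2 * x))) ≤
      Kb t * (1 - p ^ 2) := by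
    have h1 := h.H_T3 hp hp1 hb ht0
    have e1 : x * ((∫ φ in (-π)..π, (2 * Af F p t φ + ‖Hf F p t φ‖ ^ 2) ^ 2) * (1 / (2 * x))) =
        (∫ φ in (-π)..π, (2 * Af F p t φ + ‖Hf F p t φ‖ ^ 2) ^ 2) / 2 := by
      field_simp
    rw [e1]
    unfold Kb
    linarith
  have hn := num_hi (p := p) ht hc hc1 hp hp1
  rw [← hxdef] at hn
  have hg := gain (t := t) hc hc2 hp hp1
  rw [← hxdef] at hg
  have hg' := mul_le_mul_of_nonneg_left hg hx.le
  have ha := mul_le_mul_of_nonneg_left a1 hx.le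
  have hfin : x * Zf F t x ≤ x * Zf J t x := by
    linarith
  exact le_of_mul_le_mul_left hfin hx

/-- the rotation, for every level -/
theorem Sg.of_real (h : Sg F b q) {t x : ℝ}
    (H : ∀ (F' : ℂ → ℂ) (b' : ℕ → ℂ), Sg F' b' q → b' 1 = ((‖b 1‖ : ℝ) : ℂ) →
      Zf F' t x ≤ Zf J t x) :
    Zf F t x ≤ Zf J t x := by
  have h2 := h.rot ((b 1).arg / 2)
  have h3 : (fun n : ℕ => b n * exp (-(((n : ℂ) + 1) * (((b 1).arg / 2 : ℝ) : ℂ) * I))) 1 =
      ((‖b 1‖ : ℝ) : ℂ) := by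
    beta_reduce
    have e1 : -((((1 : ℕ) : ℂ) + 1) * (((b 1).arg / 2 : ℝ) : ℂ) * I) = -((b 1).arg * I) := by
      push_cast
      ring
    rw [e1]
    have e2 := Complex.norm_mul_exp_arg_mul_I (b 1)
    calc b 1 * exp (-((b 1).arg * I)) =
        (‖b 1‖ * exp ((b 1).arg * I)) * exp (-((b 1).arg * I)) := by rw [e2]
      _ = ‖b 1‖ := by
        rw [mul_assoc, ← Complex.exp_add, add_neg_cancel, Complex.exp_zero, mul_one]
  have h4 := H _ _ h2 h3
  rw [Zf_rot] at h4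
  exact h4

theorem Sg.high (h : Sg F b q) {t x : ℝ} (ht : 3 / 2 ≤ t) (hx : 2 * Real.cosh (2 * t) ≤ x)
    (hx1 : x ≤ 2 * Real.cosh (2 * t) + 13 / 10) :
    Zf F t x ≤ Zf J t x := by
  have e : x = 2 * Real.cosh (2 * t) + 2 * (x / 2 - Real.cosh (2 * t)) := by ring
  refine h.of_real fun F' b' h' hb' => ?_
  rw [e]
  exact h'.high_real (norm_nonneg _) h.b1.le hb' ht (by linarith) (by linarith)

end Pool.Agent.H36.SZ
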