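import Pool.Agent.H36.SZ.TiR
import Pool.Agent.H36.SZ.Hi

/-!
# Tip levels, `t >= 3/2`, `2 cosh 2t + 13/10 <= x < 2 cosh 2t + 2`

`e = 1 - c ∈ (0, 7/20]`, `μ = 1 - p`, `M = 2 cosh 2t + 2 >= 22.13`, `a = sqrt (2e/3)`.
PROOF of `num_ti`. If `μ <= 0.355^(-1) e`, take `κ = 0.355 μ/e`, else `κ = 1`. Left side
`(x/M) κ 4 (16/15) e^2 sqrt (e/2)`, `x/M >= 1 - 2e/M >= 0.9683`, i.e. `>= 2.9213 κ e^(5/2)`. Right
side: `8 m e a + 1.98 μ (2/3) a^3 + 2 m sqrt (1.98 μ) a^2 + 2 m^2 a`, `m = 0.00257 μ`; with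
`a = 0.8165 e^(1/2)` it is `<= μ e^(3/2) (0.0168 + 0.7186 + 0.0090 + 0.0001) <= 0.7446 μ e^(3/2)`
for `μ <= 3.48 e`. `κ = 0.355 μ/e`: `2.9213 * 0.355 = 1.037 >= 0.7446`; `κ = 1`:
`2.9213 >= 0.7446 * 3.48 = 2.5912`.
PROOF of `half`. `I := int_(-π/2)^(π/2)`. If `348/100 e <= μ`: `yy F <= x` on `|φ| <= π/2`
(`in_le2`, `out_le`), so `Ph x (yy F) = 0`. Otherwise choose `κ` as in `num_ti` and integrate
`pt_far` (`|φ| > 9/20`: `out_le`; `φ^2 >= 2e/3`: `in_le`) and `pt_near` (`φ^2 < 2e/3`,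
`|φ| <= 9/20`) over `|φ| <= π/2`: `2 I (Ph J) - 2 I (Ph F) >= (4κ/M) I X^2 - (1/x) int_(-a)^a (...)`,
`I X^2 >= int_(|φ|<=sqrt(e/2)) (e - 2φ^2)^2 = (16/15) e^2 sqrt (e/2)`.
(If `a > 9/20` the integral of the loss only over `|φ| <= 9/20` is smaller, the loss is `>= 0`.)
PROOF of `tip_real`. `F1 z = - F (-z)` satisfies `Sg F1 ((-1)^(n+1) b_n) q`, with the same `b 1`, and
`yy F1 t φ = yy F t (φ + π)`; `half` for `F` and `F1`, period `2π` (`yy J t (φ + π) = yy J t φ`).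
-/

open Complex MeasureTheory Set Filter Topology
open scoped ComplexConjugate Real

namespace Pool.Agent.H36.SZ

variable {F : ℂ → ℂ} {b : ℕ → ℂ} {q : ℝ}

theorem num_ti {t c p : ℝ} (ht : 3 / 2 ≤ t) (hc : 13 / 20 ≤ c) (hc1 : c < 1) (hp1 : p ≤ 1)
    (hμ : 1 - p ≤ 348 / 100 * (1 - c)) :
    ∃ κ : ℝ, 0 ≤ κ ∧ κ ≤ 1 ∧ κ * (1 - c) ≤ 355 / 1000 * (1 - p) ∧
      (8 * (257 / 100000 * (1 - p)) * (1 - c) * Real.sqrt (2 / 3 * (1 - c)) +
          198 / 100 * (1 - p) * (2 / 3 * Real.sqrt (2 / 3 * (1 - c)) ^ 3) +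
          2 * (257 / 100000 * (1 - p)) * Real.sqrt (198 / 100 * (1 - p)) * (2 / 3 * (1 - c)) +
          2 * (257 / 100000 * (1 - p)) ^ 2 * Real.sqrt (2 / 3 * (1 - c))) ≤
        (2 * Real.cosh (2 * t) + 2 * c) * (4 / (2 * Real.cosh (2 * t) + 2) * κ *
          (16 / 15 * (1 - c) ^ 2 * Real.sqrt ((1 - c) / 2))) := by
  have hμ0 : 0 ≤ 1 - p := by linarith
  have he : 0 < 1 - c := by linarith
  have he1 : 1 - c ≤ 7 / 20 := by linarith
  have hK : 3 ≤ Real.cosh (2 * t) := by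
    have h1 : 2 * t ≤ Real.sinh (2 * t) := Real.self_le_sinh_iff.2 (by linarith)
    have h2 := Real.sinh_lt_cosh (2 * t)
    linarith
  set e : ℝ := 1 - c with hedef
  set μ : ℝ := 1 - p with hμdef
  set s : ℝ := Real.sqrt e with hsdef
  have hs : 0 < s := Real.sqrt_pos.2 he
  have hs2 : s ^ 2 = e := Real.sq_sqrt he.le
  have ha : Real.sqrt (2 / 3 * e) ≤ 8165 / 10000 * s := by
    apply Real.sqrt_le_iff.2
    refine ⟨by positivity, ?_⟩
    rw [mul_pow, hs2]
    nlinarith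
  have ha0 : 0 ≤ Real.sqrt (2 / 3 * e) := Real.sqrt_nonneg _
  have ha2 : Real.sqrt (2 / 3 * e) ^ 2 = 2 / 3 * e := Real.sq_sqrt (by positivity)
  have hr : 7071 / 10000 * s ≤ Real.sqrt (e / 2) := by
    apply Real.le_sqrt_of_sq_le
    rw [mul_pow, hs2]
    nlinarith
  have hm : Real.sqrt (198 / 100 * μ) ≤ 2625 / 1000 * s := by
    apply Real.sqrt_le_iff.2
    refine ⟨by positivity, ?_⟩
    rw [mul_pow, hs2]
    nlinarith
  have hm0 : 0 ≤ Real.sqrt (198 / 100 * μ) := Real.sqrt_nonneg _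
  set a : ℝ := Real.sqrt (2 / 3 * e) with hadef
  set r : ℝ := Real.sqrt (e / 2) with hrdef
  set w : ℝ := Real.sqrt (198 / 100 * μ) with hwdef
  -- the left side
  have hes : 0 ≤ e * s := by positivity
  have hL : 8 * (257 / 100000 * μ) * e * a + 198 / 100 * μ * (2 / 3 * a ^ 3) +
      2 * (257 / 100000 * μ) * w * (2 / 3 * e) + 2 * (257 / 100000 * μ) ^ 2 * a ≤
      7446 / 10000 * (μ * (e * s)) := by
    have h1 : 8 * (257 / 100000 * μ) * e * a ≤ 8 * (257 / 100000 * μ) * e * (8165 / 10000 * s) :=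
      mul_le_mul_of_nonneg_left ha (by positivity)
    have h2 : 198 / 100 * μ * (2 / 3 * a ^ 3) ≤
        198 / 100 * μ * (2 / 3 * (2 / 3 * e * (8165 / 10000 * s))) := by
      have h3 : a ^ 3 ≤ 2 / 3 * e * (8165 / 10000 * s) := by
        calc a ^ 3 = a ^ 2 * a := by ring
          _ = 2 / 3 * e * a := by rw [ha2]
          _ ≤ 2 / 3 * e * (8165 / 10000 * s) := mul_le_mul_of_nonneg_left ha (by positivity)
      exact mul_le_mul_of_nonneg_left (mul_le_mul_of_nonneg_left h3 (by norm_num)) (by positivity)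
    have h4 : 2 * (257 / 100000 * μ) * w * (2 / 3 * e) ≤
        2 * (257 / 100000 * μ) * (2625 / 1000 * s) * (2 / 3 * e) :=
      mul_le_mul_of_nonneg_right (mul_le_mul_of_nonneg_left hm (by positivity)) (by positivity)
    have h5 : 2 * (257 / 100000 * μ) ^ 2 * a ≤
        2 * (257 / 100000) ^ 2 * (348 / 100) * (8165 / 10000) * (μ * (e * s)) := by
      have h6 : 2 * (257 / 100000 * μ) ^ 2 * a ≤
          2 * (257 / 100000 * μ) ^ 2 * (8165 / 10000 * s) :=
        mul_le_mul_of_nonneg_left ha (by positivity)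
      have h7 : μ * (μ * s) ≤ μ * (348 / 100 * e * s) :=
        mul_le_mul_of_nonneg_left (mul_le_mul_of_nonneg_right hμ hs.le) hμ0
      nlinarith
    have h8 : 0 ≤ μ * (e * s) := by positivity
    nlinarith
  -- the right side
  have hx : 9 / 10 ≤ (2 * Real.cosh (2 * t) + 2 * c) / (2 * Real.cosh (2 * t) + 2) := by
    rw [le_div_iff₀ (by linarith)]
    linarith
  have hR : ∀ κ : ℝ, 0 ≤ κ → 2715 / 1000 * κ * (e * (e * s)) ≤
      (2 * Real.cosh (2 * t) + 2 * c) * (4 / (2 * Real.cosh (2 * t) + 2) * κ *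
          (16 / 15 * e ^ 2 * r)) := by
    intro κ hκ
    have e1 : (2 * Real.cosh (2 * t) + 2 * c) * (4 / (2 * Real.cosh (2 * t) + 2) * κ *
          (16 / 15 * e ^ 2 * r)) =
        (2 * Real.cosh (2 * t) + 2 * c) / (2 * Real.cosh (2 * t) + 2) *
          (4 * κ * (16 / 15 * e ^ 2 * r)) := by
      ring
    rw [e1]
    have h1 : 9 / 10 * (4 * κ * (16 / 15 * e ^ 2 * r)) ≤
        (2 * Real.cosh (2 * t) + 2 * c) / (2 * Real.cosh (2 * t) + 2) *
          (4 * κ * (16 / 15 * e ^ 2 * r)) :=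
      mul_le_mul_of_nonneg_right hx (by positivity)
    have h2 : 4 * κ * (16 / 15 * e ^ 2) * (7071 / 10000 * s) ≤ 4 * κ * (16 / 15 * e ^ 2) * r :=
      mul_le_mul_of_nonneg_left hr (by positivity)
    have h3 : 0 ≤ κ * (e * (e * s)) := by positivity
    nlinarith
  rcases le_total (355 / 1000 * μ) e with h1 | h1
  · refine ⟨355 / 1000 * μ / e, by positivity, (div_le_one he).2 h1, ?_, ?_⟩
    · rw [div_mul_cancel₀ _ he.ne']
    · refine hL.trans (le_trans ?_ (hR _ (by positivity)))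
      have e2 : 2715 / 1000 * (355 / 1000 * μ / e) * (e * (e * s)) =
          2715 / 1000 * (355 / 1000) * (μ * (e * s)) := by
        field_simp
      rw [e2]
      have h8 : 0 ≤ μ * (e * s) := by positivity
      nlinarith
  · refine ⟨1, by norm_num, le_rfl, by linarith, ?_⟩
    refine hL.trans (le_trans ?_ (hR _ (by norm_num)))
    have h2 : μ * (e * s) ≤ 348 / 100 * e * (e * s) := mul_le_mul_of_nonneg_right hμ hes
    have h8 : 0 ≤ e * (e * s) := by positivity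
    nlinarith

private theorem ti_cont {x : ℝ} (hx : 0 < x) {f : ℝ → ℝ} (hf : Continuous f)
    (h0 : ∀ θ, 0 ≤ f θ) : Continuous fun θ => Ph x (f θ) := by
  have h1 : Continuous fun θ => Ph |x| |f θ| := Ph_cont.comp (continuous_const.prodMk hf)
  have e : (fun θ => Ph |x| |f θ|) = fun θ => Ph x (f θ) := by
    funext θ
    rw [abs_of_pos hx, abs_of_nonneg (h0 θ)]
  rwa [e] at h1

private theorem ti_fold {f : ℝ → ℝ} (hf : Continuous f) (c : ℝ) :
    ∫ φ in (-c)..c, f φ = ∫ φ in (0 : ℝ)..c, (f φ + f (-φ)) := by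
  have h1 : ∫ φ in (0 : ℝ)..c, f (-φ) = ∫ φ in (-c)..0, f φ := by
    rw [intervalIntegral.integral_comp_neg, neg_zero]
  have h2 := intervalIntegral.integral_add_adjacent_intervals
    (hf.intervalIntegrable (μ := volume) (-c) 0) (hf.intervalIntegrable (μ := volume) 0 c)
  have i1 : IntervalIntegrable (fun φ => f (-φ)) volume 0 c :=
    (hf.comp continuous_neg).intervalIntegrable _ _
  rw [← h2, intervalIntegral.integral_add (hf.intervalIntegrable _ _) i1, h1]
  ring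

private theorem ti_p1 (A B C D b : ℝ) :
    ∫ φ in (0 : ℝ)..b, (A + B * φ ^ 2 + C * φ + D) = (A + D) * b + B * b ^ 3 / 3 + C * b ^ 2 / 2 := by
  have h : ∀ φ ∈ uIcc 0 b, HasDerivAt (fun φ : ℝ => (A + D) * φ + B * φ ^ 3 / 3 + C * φ ^ 2 / 2)
      (A + B * φ ^ 2 + C * φ + D) φ := by
    intro φ _
    have h1 : HasDerivAt (fun φ : ℝ => (A + D) * φ) ((A + D) * 1) φ :=
      (hasDerivAt_id φ).const_mul _
    have h2 : HasDerivAt (fun φ : ℝ => B * φ ^ 3 / 3) (B * ((3 : ℕ) * φ ^ 2) / 3) φ :=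
      ((hasDerivAt_pow 3 φ).const_mul B).div_const 3
    have h3 : HasDerivAt (fun φ : ℝ => C * φ ^ 2 / 2) (C * ((2 : ℕ) * φ ^ 1) / 2) φ :=
      ((hasDerivAt_pow 2 φ).const_mul C).div_const 2
    refine ((h1.add h2).add h3).congr_deriv ?_
    push_cast
    ring
  rw [intervalIntegral.integral_eq_sub_of_hasDerivAt h
    ((by fun_prop : Continuous fun φ : ℝ => A + B * φ ^ 2 + C * φ + D).intervalIntegrable _ _)]
  ring

private theorem ti_p2 (e r : ℝ) :
    ∫ φ in (0 : ℝ)..r, (e - 2 * φ ^ 2) ^ 2 = e ^ 2 * r - 4 / 3 * e * r ^ 3 + 4 / 5 * r ^ 5 := by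
  have h : ∀ φ ∈ uIcc 0 r, HasDerivAt
      (fun φ : ℝ => e ^ 2 * φ - 4 / 3 * e * φ ^ 3 + 4 / 5 * φ ^ 5) ((e - 2 * φ ^ 2) ^ 2) φ := by
    intro φ _
    have h1 : HasDerivAt (fun φ : ℝ => e ^ 2 * φ) (e ^ 2 * 1) φ :=
      (hasDerivAt_id φ).const_mul _
    have h2 : HasDerivAt (fun φ : ℝ => 4 / 3 * e * φ ^ 3) (4 / 3 * e * ((3 : ℕ) * φ ^ 2)) φ :=
      (hasDerivAt_pow 3 φ).const_mul _
    have h3 : HasDerivAt (fun φ : ℝ => 4 / 5 * φ ^ 5) (4 / 5 * ((5 : ℕ) * φ ^ 4)) φ :=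
      (hasDerivAt_pow 5 φ).const_mul _
    refine ((h1.sub h2).add h3).congr_deriv ?_
    push_cast
    ring
  rw [intervalIntegral.integral_eq_sub_of_hasDerivAt h
    ((by fun_prop : Continuous fun φ : ℝ => (e - 2 * φ ^ 2) ^ 2).intervalIntegrable _ _)]
  ring

private theorem ti_X {c : ℝ} (hc : 13 / 20 ≤ c) (hc1 : c < 1) :
    8 / 15 * (1 - c) ^ 2 * Real.sqrt ((1 - c) / 2) ≤
      ∫ φ in (0 : ℝ)..(π / 2), max 0 (Real.cos (2 * φ) - c) ^ 2 := by
  have he : 0 < 1 - c := by linarith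
  set e : ℝ := 1 - c with hedef
  set r : ℝ := Real.sqrt (e / 2) with hrdef
  have hr0 : 0 ≤ r := Real.sqrt_nonneg _
  have hr2 : r ^ 2 = e / 2 := Real.sq_sqrt (by positivity)
  have hr1 : r ≤ π / 2 := by
    have h1 := Real.pi_gt_three
    have h2 : r ^ 2 ≤ 1 := by rw [hr2]; linarith
    nlinarith
  have hX : Continuous fun φ : ℝ => max 0 (Real.cos (2 * φ) - c) ^ 2 := by fun_prop
  have h1 : ∫ φ in (0 : ℝ)..r, (e - 2 * φ ^ 2) ^ 2 ≤
      ∫ φ in (0 : ℝ)..r, max 0 (Real.cos (2 * φ) - c) ^ 2 := by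
    refine intervalIntegral.integral_mono_on hr0
      ((by fun_prop : Continuous fun φ : ℝ => (e - 2 * φ ^ 2) ^ 2).intervalIntegrable _ _)
      (hX.intervalIntegrable _ _) fun φ hφ => ?_
    have h2 : φ ^ 2 ≤ e / 2 := by
      rw [← hr2]
      exact pow_le_pow_left₀ hφ.1 hφ.2 2
    have h3 := Real.one_sub_sq_div_two_le_cos (x := 2 * φ)
    refine pow_le_pow_left₀ (by linarith) ?_ 2
    refine le_trans ?_ (le_max_right _ _)
    have h4 : (2 * φ) ^ 2 / 2 = 2 * φ ^ 2 := by ring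
    linarith
  have h2 : 0 ≤ ∫ φ in r..(π / 2), max 0 (Real.cos (2 * φ) - c) ^ 2 :=
    intervalIntegral.integral_nonneg hr1 fun φ _ => sq_nonneg _
  have h3 := intervalIntegral.integral_add_adjacent_intervals
    (hX.intervalIntegrable (μ := volume) 0 r) (hX.intervalIntegrable (μ := volume) r (π / 2))
  rw [← h3]
  rw [ti_p2] at h1
  have e1 : e ^ 2 * r - 4 / 3 * e * r ^ 3 + 4 / 5 * r ^ 5 = 8 / 15 * e ^ 2 * r := by
    have e2 : r ^ 3 = e / 2 * r := by rw [← hr2]; ring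
    have e3 : r ^ 5 = (e / 2) ^ 2 * r := by rw [← hr2]; ring
    rw [e2, e3]
    ring
  linarith

private theorem ti_far (h : Sg F b q) {p : ℝ} (hp : 0 ≤ p) (hp1 : p ≤ 1) (hb : b 1 = (p : ℂ))
    {t c φ : ℝ} (ht : 3 / 2 ≤ t) (hc : 13 / 20 ≤ c) (hφ0 : 0 ≤ φ)
    (hφ : min (Real.sqrt (2 / 3 * (1 - c))) (9 / 20) ≤ φ) (hφ1 : φ ≤ π / 2) (hc1 : c < 1) :
    yy F t φ ≤ 2 * Real.cosh (2 * t) + 2 * c ∧ yy F t (-φ) ≤ 2 * Real.cosh (2 * t) + 2 * c := by
  have ha : |φ| = φ := abs_of_nonneg hφ0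
  have ha' : |(-φ)| = φ := by rw [abs_neg, ha]
  rcases le_total (9 / 20) φ with h1 | h1
  · exact ⟨h.out_le hp hp1 hb ht hc (by rw [ha]; exact h1) (by rw [ha]; exact hφ1),
      h.out_le hp hp1 hb ht hc (by rw [ha']; exact h1) (by rw [ha']; exact hφ1)⟩
  · have h2 : Real.sqrt (2 / 3 * (1 - c)) ≤ φ ∨ φ = 9 / 20 := by
      rcases min_le_iff.1 hφ with h3 | h3
      · exact Or.inl h3
      · exact Or.inr (le_antisymm h1 h3)
    rcases h2 with h2 | h2
    · have h3 : 2 / 3 * (1 - c) ≤ φ ^ 2 := by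
        rw [← Real.sq_sqrt (show 0 ≤ 2 / 3 * (1 - c) by
          have : 0 ≤ 1 - c := by linarith
          positivity)]
        exact pow_le_pow_left₀ (Real.sqrt_nonneg _) h2 2
      refine ⟨h.in_le hp hp1 hb ht (by rw [ha]; exact h1) h3,
        h.in_le hp hp1 hb ht (by rw [ha']; exact h1) ?_⟩
      rw [neg_sq]
      exact h3
    · exact ⟨h.out_le hp hp1 hb ht hc (by rw [ha, h2]) (by rw [ha]; exact hφ1),
        h.out_le hp hp1 hb ht hc (by rw [ha', h2]) (by rw [ha']; exact hφ1)⟩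

theorem Sg.half (h : Sg F b q) {p : ℝ} (hp : 0 ≤ p) (hp1 : p ≤ 1) (hb : b 1 = (p : ℂ))
    {t c : ℝ} (ht : 3 / 2 ≤ t) (hc : 13 / 20 ≤ c) (hc1 : c < 1) :
    ∫ φ in (-(π / 2))..(π / 2), Ph (2 * Real.cosh (2 * t) + 2 * c) (yy F t φ) ≤
      ∫ φ in (-(π / 2))..(π / 2), Ph (2 * Real.cosh (2 * t) + 2 * c) (yy J t φ) := by
  have hK : 1 ≤ Real.cosh (2 * t) := Real.one_le_cosh _
  have hx : 0 < 2 * Real.cosh (2 * t) + 2 * c := by linarith
  have hM : 0 < 2 * Real.cosh (2 * t) + 2 := by linarith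
  have ht0 : 0 < t := by linarith
  have hμ : 0 ≤ 1 - p := by linarith
  have he : 0 < 1 - c := by linarith
  have hpi : 0 < π / 2 := by have := Real.pi_pos; linarith
  have cF : Continuous (yy F t) := by
    unfold yy
    exact (h.G_cont ht0).norm.pow 2
  have cJ : Continuous (yy J t) := by
    have e : yy J t = fun φ => 2 * Real.cosh (2 * t) + 2 * Real.cos (2 * φ) := funext (yy_J' t)
    rw [e]
    fun_prop
  have cPF := ti_cont hx cF (fun θ => by unfold yy; positivity)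
  have cPJ := ti_cont hx cJ (fun θ => by unfold yy; positivity)
  have eJ : ∀ φ, yy J t (-φ) = yy J t φ := by
    intro φ
    rw [yy_J', yy_J', mul_neg, Real.cos_neg]
  rcases le_total (348 / 100 * (1 - c)) (1 - p) with hA | hB
  · -- no part of the circle lies above the level
    have h0 : ∫ φ in (-(π / 2))..(π / 2), Ph (2 * Real.cosh (2 * t) + 2 * c) (yy F t φ) = 0 := by
      have h1 : ∫ φ in (-(π / 2))..(π / 2), Ph (2 * Real.cosh (2 * t) + 2 * c) (yy F t φ) =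
          ∫ φ in (-(π / 2))..(π / 2), (0 : ℝ) := by
        refine intervalIntegral.integral_congr fun φ hφ => ?_
        rw [uIcc_of_le (by linarith)] at hφ
        have h2 : |φ| ≤ π / 2 := abs_le.2 hφ
        apply Ph_of_le
        rcases le_total (|φ|) (9 / 20) with h3 | h3
        · exact h.in_le2 hp hp1 hb ht h3 hA
        · exact h.out_le hp hp1 hb ht hc h3 h2
      rw [h1, intervalIntegral.integral_zero]
    rw [h0]
    exact intervalIntegral.integral_nonneg (by linarith) fun φ _ => Ph_nonneg hx.le _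
  · obtain ⟨κ, hκ0, hκ1, hκe, hnum⟩ := num_ti ht hc hc1 hp1 hB
    rw [ti_fold cPF, ti_fold cPJ]
    have hXi := ti_X hc hc1
    set x : ℝ := 2 * Real.cosh (2 * t) + 2 * c with hxdef
    set M : ℝ := 2 * Real.cosh (2 * t) + 2 with hMdef
    set m : ℝ := 257 / 100000 * (1 - p) with hmdef
    set e : ℝ := 1 - c with hedef
    set μ : ℝ := 1 - p with hμdef
    set a : ℝ := Real.sqrt (2 / 3 * e) with hadef
    set w : ℝ := Real.sqrt (198 / 100 * μ) with hwdef
    set B : ℝ := min a (9 / 20) with hBdef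
    have hm : 0 ≤ m := by rw [hmdef]; positivity
    have hw : 0 ≤ w := Real.sqrt_nonneg _
    have ha0 : 0 ≤ a := Real.sqrt_nonneg _
    have ha2 : a ^ 2 = 2 / 3 * e := Real.sq_sqrt (by positivity)
    have hB0 : 0 ≤ B := le_min ha0 (by norm_num)
    have hBa : B ≤ a := min_le_left _ _
    have hB9 : B ≤ 9 / 20 := min_le_right _ _
    have hBpi : B ≤ π / 2 := by
      have := Real.pi_gt_three
      linarith
    set E : ℝ → ℝ := fun φ => Ph x (yy F t φ) + Ph x (yy F t (-φ)) with hEdef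
    set K : ℝ → ℝ := fun φ => Ph x (yy J t φ) + Ph x (yy J t (-φ)) with hKdef
    set X : ℝ → ℝ := fun φ => max 0 (Real.cos (2 * φ) - c) ^ 2 with hXdef
    have cE : Continuous E := cPF.add (cPF.comp continuous_neg)
    have cK : Continuous K := cPJ.add (cPJ.comp continuous_neg)
    have cX : Continuous X := by
      rw [hXdef]
      fun_prop
    have eK : ∀ φ, K φ = 2 * Ph x (yy J t φ) := by
      intro φ
      rw [hKdef]
      beta_reduce
      rw [eJ]
      ring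
    have cL : Continuous fun φ : ℝ => 4 * m * e + 198 / 100 * μ * φ ^ 2 + 2 * m * w * φ + m ^ 2 := by
      fun_prop
    -- the two parts
    have h1 : ∫ φ in (0 : ℝ)..B, E φ ≤ ∫ φ in (0 : ℝ)..B,
        (K φ - 4 / M * κ * X φ +
          (4 * m * e + 198 / 100 * μ * φ ^ 2 + 2 * m * w * φ + m ^ 2) * (1 / x)) := by
      refine intervalIntegral.integral_mono_on hB0 (cE.intervalIntegrable _ _)
        (((cK.sub (continuous_const.mul cX)).add (cL.mul continuous_const)).intervalIntegrable _ _)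
        fun φ hφ => ?_
      have ha : |φ| = φ := abs_of_nonneg hφ.1
      have h2 := h.pt_near hp hp1 hb ht (c := c) (κ := κ) (φ := φ) (by linarith) hc1 hκ1 hκe
        (by rw [ha]; linarith [hφ.2])
      rw [ha] at h2
      rw [eK]
      have e1 : (4 * m * e + 198 / 100 * μ * φ ^ 2 + 2 * m * (w * φ) + m ^ 2) / x =
          (4 * m * e + 198 / 100 * μ * φ ^ 2 + 2 * m * w * φ + m ^ 2) * (1 / x) := by
        rw [div_eq_mul_one_div]
        ring
      have h3 : 4 / M * κ * X φ -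
          (4 * m * e + 198 / 100 * μ * φ ^ 2 + 2 * m * (w * φ) + m ^ 2) / x ≤
          2 * Ph x (yy J t φ) - E φ := h2
      rw [e1] at h3
      linarith
    have h2 : ∫ φ in B..(π / 2), E φ ≤ ∫ φ in B..(π / 2), (K φ - 4 / M * κ * X φ) := by
      refine intervalIntegral.integral_mono_on hBpi (cE.intervalIntegrable _ _)
        ((cK.sub (continuous_const.mul cX)).intervalIntegrable _ _) fun φ hφ => ?_
      have h3 := ti_far h hp hp1 hb ht hc (hB0.trans hφ.1) hφ.1 hφ.2 hc1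
      have h4 := pt_far (t := t) (c := c) (κ := κ) (φ := φ) (by linarith) hc1 hκ1 h3.1 h3.2
      have h5 : 4 / M * κ * X φ ≤ 2 * Ph x (yy J t φ) - E φ := h4
      rw [eK]
      linarith
    -- the sum
    have s1 : ∫ φ in (0 : ℝ)..(π / 2), E φ = (∫ φ in (0 : ℝ)..B, E φ) + ∫ φ in B..(π / 2), E φ :=
      (intervalIntegral.integral_add_adjacent_intervals (cE.intervalIntegrable _ _)
        (cE.intervalIntegrable _ _)).symm
    have i1 : ∀ u v : ℝ, IntervalIntegrable (fun φ => K φ - 4 / M * κ * X φ) volume u v :=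
      fun u v => (cK.sub (continuous_const.mul cX)).intervalIntegrable _ _
    have s2 : ∫ φ in (0 : ℝ)..B, (K φ - 4 / M * κ * X φ +
          (4 * m * e + 198 / 100 * μ * φ ^ 2 + 2 * m * w * φ + m ^ 2) * (1 / x)) =
        (∫ φ in (0 : ℝ)..B, (K φ - 4 / M * κ * X φ)) +
          ((4 * m * e + m ^ 2) * B + 198 / 100 * μ * B ^ 3 / 3 + 2 * m * w * B ^ 2 / 2) *
            (1 / x) := by
      have i2 : IntervalIntegrable (fun φ : ℝ => (4 * m * e + 198 / 100 * μ * φ ^ 2 +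
          2 * m * w * φ + m ^ 2) * (1 / x)) volume 0 B :=
        (cL.mul continuous_const).intervalIntegrable _ _
      rw [intervalIntegral.integral_add (i1 _ _) i2, intervalIntegral.integral_mul_const, ti_p1]
    have s3 : (∫ φ in (0 : ℝ)..B, (K φ - 4 / M * κ * X φ)) +
        ∫ φ in B..(π / 2), (K φ - 4 / M * κ * X φ) =
        ∫ φ in (0 : ℝ)..(π / 2), (K φ - 4 / M * κ * X φ) :=
      intervalIntegral.integral_add_adjacent_intervals (i1 _ _) (i1 _ _)
    have s4 : ∫ φ in (0 : ℝ)..(π / 2), (K φ - 4 / M * κ * X φ) =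
        (∫ φ in (0 : ℝ)..(π / 2), K φ) - 4 / M * κ * ∫ φ in (0 : ℝ)..(π / 2), X φ := by
      have i2 : IntervalIntegrable (fun φ : ℝ => 4 / M * κ * X φ) volume 0 (π / 2) :=
        (continuous_const.mul cX).intervalIntegrable _ _
      rw [intervalIntegral.integral_sub (cK.intervalIntegrable _ _) i2,
        intervalIntegral.integral_const_mul]
    -- the numbers
    have n1 : (4 * m * e + m ^ 2) * B + 198 / 100 * μ * B ^ 3 / 3 + 2 * m * w * B ^ 2 / 2 ≤
        (4 * m * e + m ^ 2) * a + 198 / 100 * μ * a ^ 3 / 3 + 2 * m * w * a ^ 2 / 2 := by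
      have g1 : (4 * m * e + m ^ 2) * B ≤ (4 * m * e + m ^ 2) * a :=
        mul_le_mul_of_nonneg_left hBa (by positivity)
      have g2 : 198 / 100 * μ * B ^ 3 / 3 ≤ 198 / 100 * μ * a ^ 3 / 3 := by
        have := mul_le_mul_of_nonneg_left (pow_le_pow_left₀ hB0 hBa 3)
          (show 0 ≤ 198 / 100 * μ by positivity)
        linarith
      have g3 : 2 * m * w * B ^ 2 / 2 ≤ 2 * m * w * a ^ 2 / 2 := by
        have := mul_le_mul_of_nonneg_left (pow_le_pow_left₀ hB0 hBa 2)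
          (show 0 ≤ 2 * m * w by positivity)
        linarith
      linarith
    have n2 : (4 * m * e + m ^ 2) * a + 198 / 100 * μ * a ^ 3 / 3 + 2 * m * w * a ^ 2 / 2 =
        1 / 2 * (8 * m * e * a + 198 / 100 * μ * (2 / 3 * a ^ 3) + 2 * m * w * (2 / 3 * e) +
          2 * m ^ 2 * a) := by
      rw [ha2]
      ring
    have n3 : ((4 * m * e + m ^ 2) * B + 198 / 100 * μ * B ^ 3 / 3 + 2 * m * w * B ^ 2 / 2) *
        (1 / x) ≤ 4 / M * κ * (8 / 15 * e ^ 2 * Real.sqrt (e / 2)) := by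
      rw [mul_one_div, div_le_iff₀ hx]
      refine (n1.trans (le_of_eq n2)).trans ?_
      have g1 := mul_le_mul_of_nonneg_left hnum (show (0 : ℝ) ≤ 1 / 2 by norm_num)
      refine g1.trans (le_of_eq ?_)
      ring
    have n4 : 4 / M * κ * (8 / 15 * e ^ 2 * Real.sqrt (e / 2)) ≤
        4 / M * κ * ∫ φ in (0 : ℝ)..(π / 2), X φ :=
      mul_le_mul_of_nonneg_left hXi (by positivity)
    linarith

theorem Sg.tip_real (h : Sg F b q) {p : ℝ} (hp : 0 ≤ p) (hp1 : p ≤ 1) (hb : b 1 = (p : ℂ))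
    {t c : ℝ} (ht : 3 / 2 ≤ t) (hc : 13 / 20 ≤ c) (hc1 : c < 1) :
    Zf F t (2 * Real.cosh (2 * t) + 2 * c) ≤ Zf J t (2 * Real.cosh (2 * t) + 2 * c) := by
  have hK : 1 ≤ Real.cosh (2 * t) := Real.one_le_cosh _
  have hx : 0 < 2 * Real.cosh (2 * t) + 2 * c := by linarith
  have ht0 : 0 < t := by linarith
  -- the function `- F (-z)`
  have hr := h.rot π
  have hb' : (fun n : ℕ => b n * exp (-(((n : ℂ) + 1) * π * I))) 1 = (p : ℂ) := by
    beta_reduce
    have e1 : -((((1 : ℕ) : ℂ) + 1) * π * I) = -(2 * π * I) := by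
      push_cast
      ring
    rw [e1, Complex.exp_neg, Complex.exp_two_pi_mul_I, inv_one, mul_one, hb]
  have hyF : ∀ (f : ℂ → ℂ) (φ : ℝ),
      yy (fun z => exp (-(π * I)) * f (exp (π * I) * z)) t φ = yy f t (φ + π) := by
    intro f φ
    have e : exp (π * I) * exp (t + φ * I) = exp ((t : ℂ) + ((φ + π : ℝ) : ℂ) * I) := by
      rw [← Complex.exp_add]
      congr 1
      push_cast
      ring
    have e2 : ‖exp (-(π * I))‖ = 1 := by
      have := Complex.norm_exp_ofReal_mul_I (-π)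
      rw [← this]
      congr 2
      push_cast
      ring
    unfold yy G
    beta_reduce
    rw [e, norm_mul, e2, one_mul]
  have hper : ∀ (f : ℂ → ℂ) (φ : ℝ), yy f t (φ + 2 * π) = yy f t φ := by
    intro f φ
    unfold yy G
    have e : (t : ℂ) + ((φ + 2 * π : ℝ) : ℂ) * I = (t + φ * I) + 2 * π * I := by
      push_cast
      ring
    rw [e, Complex.exp_periodic]
  have hJpi : ∀ φ, yy J t (φ + π) = yy J t φ := by
    intro φ
    rw [yy_J', yy_J', mul_add, Real.cos_add_two_pi]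
  have cF : Continuous (yy F t) := by
    unfold yy
    exact (h.G_cont ht0).norm.pow 2
  have cJ : Continuous (yy J t) := by
    have e : yy J t = fun φ => 2 * Real.cosh (2 * t) + 2 * Real.cos (2 * φ) := funext (yy_J' t)
    rw [e]
    fun_prop
  have key : ∀ f : ℂ → ℂ, Continuous (yy f t) →
      Zf f t (2 * Real.cosh (2 * t) + 2 * c) =
        (∫ φ in (-(π / 2))..(π / 2), Ph (2 * Real.cosh (2 * t) + 2 * c) (yy f t φ)) +
        ∫ φ in (-(π / 2))..(π / 2), Ph (2 * Real.cosh (2 * t) + 2 * c) (yy f t (φ + π)) := by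
    intro f hf
    have cP := ti_cont hx hf (fun θ => by unfold yy; positivity)
    have hp : Function.Periodic
        (fun θ => Ph (2 * Real.cosh (2 * t) + 2 * c) (yy f t θ)) (2 * π) := by
      intro θ
      beta_reduce
      rw [hper]
    have h1 := hp.intervalIntegral_add_eq (-π) (-(π / 2))
    have e1 : -π + 2 * π = π := by ring
    have e2 : -(π / 2) + 2 * π = π / 2 + π := by ring
    rw [e1, e2] at h1
    unfold Zf
    rw [h1, intervalIntegral.integral_comp_add_right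
      (fun θ => Ph (2 * Real.cosh (2 * t) + 2 * c) (yy f t θ)) π]
    have e3 : -(π / 2) + π = π / 2 := by ring
    rw [e3]
    exact (intervalIntegral.integral_add_adjacent_intervals (cP.intervalIntegrable _ _)
      (cP.intervalIntegrable _ _)).symm
  rw [key F cF, key J cJ]
  have a1 := h.half hp hp1 hb ht hc hc1
  have a2 := hr.half hp hp1 hb' ht hc hc1
  simp_rw [hyF] at a2
  simp_rw [hJpi]
  exact add_le_add a1 a2

theorem Sg.tip (h : Sg F b q) {t x : ℝ} (ht : 3 / 2 ≤ t) (hx : 2 * Real.cosh (2 * t) + 13 / 10 ≤ x)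
    (hx1 : x < 2 * Real.cosh (2 * t) + 2) :
    Zf F t x ≤ Zf J t x := by
  have e : x = 2 * Real.cosh (2 * t) + 2 * (x / 2 - Real.cosh (2 * t)) := by ring
  refine h.of_real fun F' b' h' hb' => ?_
  rw [e]
  exact h'.tip_real (norm_nonneg _) h.b1.le hb' ht (by linarith) (by linarith)

end Pool.Agent.H36.SZ
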