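import Pool.Agent.H36.SZ.Lp
import Pool.Agent.H36.SZ.Ti
import Pool.Agent.H36.SZ.Bd

/-!
# All levels, `t >= 3/2`
-/

open Complex MeasureTheory Set Filter Topology
open scoped ComplexConjugate Real

namespace Pool.Agent.H36.SZ

variable {F : ℂ → ℂ} {b : ℕ → ℂ} {q : ℝ}

/-- **Static theorem**: for `t >= 3/2` the inequality holds at every level -/
theorem Sg.static (h : Sg F b q) {t x : ℝ} (ht : 3 / 2 ≤ t) (hx : 0 ≤ x) :
    Zf F t x ≤ Zf J t x := by
  rcases le_or_gt x (2 * Real.cosh (2 * t)) with h1 | h1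
  · exact h.low2 ht hx h1
  rcases le_or_gt x (2 * Real.cosh (2 * t) + 13 / 10) with h2 | h2
  · exact h.high ht h1.le h2
  rcases lt_or_ge x (2 * Real.cosh (2 * t) + 2) with h3 | h3
  · exact h.tip ht h2.le h3
  · have e : 4 * Real.cosh t ^ 2 = 2 * Real.cosh (2 * t) + 2 := by
      rw [Real.cosh_two_mul, Real.sinh_sq]
      ring
    rw [h.hi (by linarith) (by rw [e]; exact h3)]
    have hx0 : 0 < x := by
      have := Real.cosh_pos (2 * t)
      linarith
    exact intervalIntegral.integral_nonneg (by linarith [Real.pi_pos]) fun θ _ => Ph_nonneg' hx0 _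

end Pool.Agent.H36.SZ
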