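import Pool.Agent.H36.SZ.Defs

/-!
# The classes `An`, `Sg`

PROOFS. `Sg.an`: for `z` with `q < |z|` the series `sum b_n w^n` converges at every `w` with
`|w| < 1/q` (take `w = z^-1`), so it is the analytic function `pw b` on `|w| < 1/q`
(`hasFPowerSeriesOnBall_pw`, `pw_diffOn` in `H15/Sig/Basic.lean` have radius `1`; apply them to the
dilated function, i.e. prove `Sg.sig` first: `F z = q * Fq (z / q)`, `Fq = fun z => F (q z) / q`,
and use `IsSig.differentiableAt` for `Fq` at `z / q`).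
`Sg.sig`: injectivity and the series are immediate from `q < ‖p z‖` for `1 < ‖z‖`, `q <= p`:
`F (p z) / p - z = (F (p z) - p z) / p = sum b_n (p z)^(-n) / p`.
`Sg.isSig`: `Sg.sig` with `p = 1`. `dil`: the same computation with `1 < ‖p z‖` for `p^-1 < ‖z‖`.
`Sg.b1`: the area theorem `IsSig.area` (`H15/Sig/Even.lean`; or `IsSig.bounds` in `Even2.lean`)
for the dilated function `Sg.sig` with `p = q`, whose first coefficient is `b_1 / q^2`, gives
`‖b 1‖ <= q^2 < 1`. `Sg.area_sum`: `IsSig.area` / `IsSig.bounds` for `F` itself, in the form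
`sum_(n<M) n |b_n|^2 <= 1`.
`Sg.asy`: for `t >= 0`: `G F t θ - exp (t+iθ) = sum_(n>=1) b_n exp (-n (t+iθ))`, norm
`<= e^(-t) sum_(n>=1) |b_n|`, and the last sum is finite (the series converges absolutely at
`|z| = 1 > q`: `HasSum` in `ℂ` is absolute convergence, `Summable.norm`).
-/

open Complex MeasureTheory Set Filter Topology
open scoped ComplexConjugate Real

namespace Pool.Agent.H36.SZ

open Pool.Agent.H15.Sig

variable {F : ℂ → ℂ} {b : ℕ → ℂ} {q : ℝ}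

private theorem nrm {p : ℝ} (hp : 0 < p) (z : ℂ) : ‖(p : ℂ) * z‖ = p * ‖z‖ := by
  rw [norm_mul, Complex.norm_real, Real.norm_of_nonneg hp.le]

private theorem inj_scale {F : ℂ → ℂ} {p r s : ℝ} (hp : 0 < p) (hrs : r ≤ p * s)
    (hi : Set.InjOn F {z : ℂ | r < ‖z‖}) :
    Set.InjOn (fun z => F (p * z) / p) {z : ℂ | s < ‖z‖} := by
  have hpc : (p : ℂ) ≠ 0 := by exact_mod_cast hp.ne'
  have hm : ∀ z : ℂ, s < ‖z‖ → r < ‖(p : ℂ) * z‖ := by
    intro z hz
    rw [nrm hp]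
    exact lt_of_le_of_lt hrs (mul_lt_mul_of_pos_left hz hp)
  intro z hz w hw hzw
  have h1 : F (p * z) = F (p * w) := by
    have h2 : F (p * z) / p = F (p * w) / p := hzw
    exact (div_left_inj' hpc).1 h2
  have h3 := hi (hm z hz) (hm w hw) h1
  exact mul_left_cancel₀ hpc h3

private theorem ser_scale {F : ℂ → ℂ} {b : ℕ → ℂ} {p r s : ℝ} (hp : 0 < p) (hrs : r ≤ p * s)
    (hs : ∀ z : ℂ, r < ‖z‖ → HasSum (fun n : ℕ => b n * z⁻¹ ^ n) (F z - z)) (z : ℂ)
    (hz : s < ‖z‖) :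
    HasSum (fun n : ℕ => b n * ((p : ℂ)⁻¹) ^ (n + 1) * z⁻¹ ^ n) (F (p * z) / p - z) := by
  have hpc : (p : ℂ) ≠ 0 := by exact_mod_cast hp.ne'
  have hm : r < ‖(p : ℂ) * z‖ := by
    rw [nrm hp]
    exact lt_of_le_of_lt hrs (mul_lt_mul_of_pos_left hz hp)
  have h1 := (hs _ hm).mul_left ((p : ℂ)⁻¹)
  have e1 : (p : ℂ)⁻¹ * (F (p * z) - p * z) = F (p * z) / p - z := by
    field_simp
  have e2 : (fun n : ℕ => (p : ℂ)⁻¹ * (b n * ((p : ℂ) * z)⁻¹ ^ n)) =
      fun n : ℕ => b n * ((p : ℂ)⁻¹) ^ (n + 1) * z⁻¹ ^ n := by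
    funext n
    rw [mul_inv, mul_pow, pow_succ]
    ring
  rw [e1, e2] at h1
  exact h1

theorem dil (h : IsSig F b) {p : ℝ} (hp : 1 < p) :
    Sg (fun z => F (p * z) / p) (fun n => b n * ((p : ℂ)⁻¹) ^ (n + 1)) p⁻¹ := by
  have hp0 : 0 < p := by linarith
  have hrs : (1 : ℝ) ≤ p * p⁻¹ := by rw [mul_inv_cancel₀ hp0.ne']
  refine ⟨by positivity, inv_lt_one_of_one_lt₀ hp, inj_scale hp0 hrs h.inj, ?_, ?_⟩
  · intro z hz
    exact ser_scale hp0 hrs h.ser z hz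
  · simp [h.b0]

theorem Sg.sig (h : Sg F b q) {p : ℝ} (hp : q ≤ p) :
    IsSig (fun z => F (p * z) / p) (fun n => b n * ((p : ℂ)⁻¹) ^ (n + 1)) := by
  have hp0 : 0 < p := lt_of_lt_of_le h.q0 hp
  have hrs : q ≤ p * 1 := by rw [mul_one]; exact hp
  refine ⟨inj_scale hp0 hrs h.inj, ?_, ?_⟩
  · intro z hz
    exact ser_scale hp0 hrs h.hasSum z hz
  · simp [h.b0]

theorem Sg.isSig (h : Sg F b q) : IsSig F b :=
  ⟨h.inj.mono fun _ hz => lt_trans h.q1 hz, fun z hz => h.hasSum z (lt_trans h.q1 hz), h.b0⟩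

theorem Sg.an (h : Sg F b q) : An F q := by
  refine ⟨h.q0.le, ?_⟩
  have hqc : (q : ℂ) ≠ 0 := by exact_mod_cast h.q0.ne'
  have hs := h.sig (p := q) le_rfl
  intro z hz
  have hz' : q < ‖z‖ := hz
  have h1 : 1 < ‖(q : ℂ)⁻¹ * z‖ := by
    rw [norm_mul, norm_inv, Complex.norm_real, Real.norm_of_nonneg h.q0.le, inv_mul_eq_div,
      lt_div_iff₀ h.q0, one_mul]
    exact hz'
  have h2 := hs.differentiableAt h1
  have h3 : DifferentiableAt ℂ (fun w : ℂ => (q : ℂ)⁻¹ * w) z :=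
    (differentiableAt_id).const_mul _
  have h4 : DifferentiableAt ℂ (fun w : ℂ => (q : ℂ) *
      (F (q * ((q : ℂ)⁻¹ * w)) / q)) z :=
    (DifferentiableAt.comp z (g := fun z => F (q * z) / q) h2 h3).const_mul _
  have e : (fun w : ℂ => (q : ℂ) * (F (q * ((q : ℂ)⁻¹ * w)) / q)) = F := by
    funext w
    rw [mul_inv_cancel_left₀ hqc, mul_div_cancel₀ _ hqc]
  rw [e] at h4
  exact h4.differentiableWithinAt

theorem an_J : An J 0 := by
  refine ⟨le_rfl, ?_⟩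
  intro z hz
  have hz' : (0 : ℝ) < ‖z‖ := hz
  have hz0 : z ≠ 0 := norm_pos_iff.1 hz'
  have : DifferentiableAt ℂ (fun w : ℂ => w + w⁻¹) z :=
    differentiableAt_id.add (differentiableAt_inv hz0)
  exact this.differentiableWithinAt

theorem Sg.b1 (h : Sg F b q) : ‖b 1‖ < 1 := by
  have hs := h.sig (p := q) le_rfl
  have h1 := hs.area 2
  simp only [Finset.sum_range_succ, Finset.sum_range_zero] at h1
  norm_num at h1
  have hq := h.q0
  have hq1 := h.q1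
  have h3 : ‖b 1‖ ≤ q ^ 2 := by
    rw [← div_eq_mul_inv, div_le_one (by positivity)] at h1
    exact h1
  nlinarith

theorem Sg.area_sum (h : Sg F b q) (M : ℕ) : ∑ n ∈ Finset.range M, (n : ℝ) * ‖b n‖ ^ 2 ≤ 1 :=
  h.isSig.area M

theorem Sg.asy (h : Sg F b q) : ∃ C : ℝ, 0 ≤ C ∧ ∀ t θ : ℝ, 0 ≤ t →
    ‖G F t θ - exp (t + θ * I)‖ ≤ C * Real.exp (-t) := by
  have hs : Summable fun n : ℕ => ‖b n‖ := by
    have h1 := (h.hasSum 1 (by simpa using h.q1)).summable.norm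
    simpa using h1
  refine ⟨∑' n, ‖b n‖, tsum_nonneg fun _ => norm_nonneg _, ?_⟩
  intro t θ ht
  set z : ℂ := exp (t + θ * I) with hz
  have hnz : ‖z‖ = Real.exp t := by
    rw [hz, Complex.norm_exp]; simp
  have hq : q < ‖z‖ := by
    rw [hnz]
    have := Real.add_one_le_exp t
    have := h.q1
    linarith
  have h1 := h.hasSum z hq
  have h2 : G F t θ - z = F z - z := rfl
  have h3 : ∀ n : ℕ, ‖b n * z⁻¹ ^ n‖ ≤ ‖b n‖ * Real.exp (-t) := by
    intro n
    rw [norm_mul, norm_pow, norm_inv, hnz, ← Real.exp_neg]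
    rcases Nat.eq_zero_or_pos n with rfl | hn
    · simp [h.b0]
    · apply mul_le_mul_of_nonneg_left _ (norm_nonneg _)
      calc Real.exp (-t) ^ n ≤ Real.exp (-t) ^ 1 :=
            pow_le_pow_of_le_one (Real.exp_pos _).le (Real.exp_le_one_iff.2 (by linarith)) hn
        _ = Real.exp (-t) := pow_one _
  rw [h2, ← h1.tsum_eq, ← tsum_mul_right]
  exact tsum_of_norm_bounded (hs.mul_right (Real.exp (-t))).hasSum h3

end Pool.Agent.H36.SZ
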