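import Pool.Agent.H36.SZ.CoZ

/-!
# The comparison theorem `|int_B F| <= 4 cosh t sin (|B| / 2)`

PROOF of `co1`. Suppose `η := int_B1 uk k F t1 - 4 cosh t1 sin b1 > 0`, `b1 = |B1| / 2 ∈ [0, π]`,
`t1 >= 0`. `co_inf` with `ε = η/2`: `T > t1` (enlarge) such that the bound holds for `t >= T`.
`m >= e^T` and `m >= |uk k F t θ|` for `0 <= t <= T` (`Sg.asy`: `|uk| <= e^t + C`). By `int_le_Kf`,
`le_us`: `us t1 b1 >= int_B1 uk k F t1`. Put `lam = η / (4 (1 + π^2))`. `Pf` is continuous on the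
compact `Icc 0 T ×ˢ Icc 0 π` (`Sg.us_cont`), so it has a maximum at some `(t0, b0)`, and there
`Pf >= Pf t1 b1 >= η - lam (1 + π^2) = 3η/4` (`-exp (-t) + β^2 - π β >= -1 - π^2/4`).
`-exp (-t) + β^2 - π β <= 0`.
`b0 ≠ 0`: `Pf t 0 <= us t 0 <= 0` (`us_zero`). `b0 ≠ π`: `us_pi`. `t0 ≠ T`: `us T b0 <= Kf c + 2 b0 c
<= 4 cosh T sin b0 + η/2` with the `c` of `co_inf` (`|c| <= e^T <= m`, `us_le`), so
`Pf T b0 <= η/2 < 3η/4`. So `0 < b0 < π`, `t0 < T`; `t0 = 0` contradicts `co_zero`, `t0 > 0`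
contradicts `co_int`.
`co`: choose `k` with `‖k‖ = 1`, `k * int_B G = ‖int_B G‖`.
`nrm`: for `a <= b` in `[-π, π]`, `co` gives `‖int_a^b G‖ <= 4 cosh t sin ((b-a)/2)
<= 2 cosh t (b - a)`, so the derivative `G F t θ0` of the primitive has norm at most `2 cosh t`.
-/

open Complex MeasureTheory Set Filter Topology
open scoped ComplexConjugate Real

namespace Pool.Agent.H36.SZ

variable {F : ℂ → ℂ} {b : ℕ → ℂ} {q : ℝ}

private theorem co_qexp (h : Sg F b q) {t : ℝ} (ht : 0 ≤ t) : q < Real.exp t :=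
  lt_of_lt_of_le h.q1 (Real.one_le_exp ht)

private theorem co_cuk (h : Sg F b q) (k : ℂ) {t : ℝ} (ht : 0 ≤ t) : Continuous (uk k F t) := by
  have hc : Continuous (G F t) := h.an.cGt (co_qexp h ht)
  unfold uk
  exact Complex.continuous_re.comp (continuous_const.mul hc)

private theorem co_vol {B : Set ℝ} (hB : B ⊆ Ioc (-π) π) :
    0 ≤ volume.real B / 2 ∧ volume.real B / 2 ≤ π := by
  have h1 : volume.real B ≤ volume.real (Ioc (-π) π) :=
    measureReal_mono hB (by rw [Real.volume_Ioc]; exact ENNReal.ofReal_ne_top)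
  have h2 : volume.real (Ioc (-π) π) = 2 * π := by
    rw [Real.volume_real_Ioc_of_le (by linarith [Real.pi_pos])]
    ring
  have h3 : 0 ≤ volume.real B := measureReal_nonneg
  constructor
  · linarith
  · linarith

private theorem co_bound (h : Sg F b q) {k : ℂ} (hk : ‖k‖ = 1) : ∃ C : ℝ, 0 ≤ C ∧
    ∀ T t θ : ℝ, 0 ≤ t → t ≤ T → |uk k F t θ| ≤ Real.exp T + C := by
  obtain ⟨C, hC, hb⟩ := h.asy
  refine ⟨C, hC, fun T t θ ht htT => ?_⟩
  have h1 : |uk k F t θ| ≤ ‖G F t θ‖ := by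
    unfold uk
    calc |(k * G F t θ).re| ≤ ‖k * G F t θ‖ := Complex.abs_re_le_norm _
      _ = ‖G F t θ‖ := by rw [norm_mul, hk, one_mul]
  have h2 : ‖exp ((t : ℂ) + θ * I)‖ = Real.exp t := by
    rw [Complex.norm_exp]
    congr 1
    simp
  have h3 : ‖G F t θ‖ ≤ ‖G F t θ - exp (t + θ * I)‖ + ‖exp ((t : ℂ) + θ * I)‖ := by
    have := norm_add_le (G F t θ - exp ((t : ℂ) + θ * I)) (exp ((t : ℂ) + θ * I))
    rwa [sub_add_cancel] at this
  have h4 := hb t θ ht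
  have h5 : C * Real.exp (-t) ≤ C := by
    have : Real.exp (-t) ≤ 1 := Real.exp_le_one_iff.mpr (by linarith)
    nlinarith
  have h6 : Real.exp t ≤ Real.exp T := Real.exp_le_exp.mpr htT
  linarith

theorem Sg.co1 (h : Sg F b q) {k : ℂ} (hk : ‖k‖ = 1) {t : ℝ} (ht : 0 ≤ t) {B : Set ℝ}
    (mB : MeasurableSet B) (hB : B ⊆ Ioc (-π) π) :
    ∫ θ in B, uk k F t θ ≤ 4 * Real.cosh t * Real.sin (volume.real B / 2) := by
  by_contra hcon
  rw [not_le] at hcon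
  obtain ⟨hb0, hb1⟩ := co_vol hB
  set b1 : ℝ := volume.real B / 2 with hb1def
  set X : ℝ := ∫ θ in B, uk k F t θ with hX
  set η : ℝ := X - 4 * Real.cosh t * Real.sin b1 with hη
  have hηpos : 0 < η := by linarith
  obtain ⟨T0, hT0, hinf⟩ := h.co_inf hk (half_pos hηpos)
  obtain ⟨C, hC, hbd⟩ := co_bound h hk
  obtain ⟨T, hTT0, htT⟩ : ∃ T : ℝ, T0 ≤ T ∧ t < T :=
    ⟨max T0 (t + 1), le_max_left _ _, lt_of_lt_of_le (by linarith) (le_max_right T0 (t + 1))⟩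
  have hTpos : 0 < T := lt_of_lt_of_le hT0 hTT0
  obtain ⟨m, hm⟩ : ∃ m : ℝ, m = Real.exp T + C := ⟨_, rfl⟩
  have hm0 : 0 ≤ m := by rw [hm]; positivity
  have hmb : ∀ t θ, 0 ≤ t → t ≤ T → |uk k F t θ| ≤ m := fun t θ h1 h2 => by
    rw [hm]; exact hbd T t θ h1 h2
  obtain ⟨lam, hlampos, hlam2⟩ : ∃ lam : ℝ, 0 < lam ∧ lam * (1 + π ^ 2) = η / 4 :=
    ⟨η / (4 * (1 + π ^ 2)), by positivity, by field_simp⟩
  -- lower bound at (t, b1)
  have hus : X ≤ us k F m t b1 := by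
    refine le_us k F hm0 fun c _ => ?_
    have := int_le_Kf (co_cuk h k ht) mB hB c
    have e : c * volume.real B = 2 * b1 * c := by rw [hb1def]; ring
    rw [e] at this
    exact this
  have hP1 : 3 * η / 4 ≤ Pf k F m lam t b1 := by
    unfold Pf
    have e1 : Real.exp (-t) ≤ 1 := Real.exp_le_one_iff.mpr (by linarith)
    have e2 : -(1 + π ^ 2) ≤ -Real.exp (-t) + b1 ^ 2 - π * b1 := by
      nlinarith [sq_nonneg b1, Real.pi_pos]
    have e3 : lam * (-(1 + π ^ 2)) ≤ lam * (-Real.exp (-t) + b1 ^ 2 - π * b1) :=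
      mul_le_mul_of_nonneg_left e2 hlampos.le
    have e4 : lam * (-(1 + π ^ 2)) = -(η / 4) := by rw [mul_neg, hlam2]
    linarith
  -- upper bound
  have hPle : ∀ t' β : ℝ, 0 ≤ β → β ≤ π →
      Pf k F m lam t' β ≤ us k F m t' β - 4 * Real.cosh t' * Real.sin β := by
    intro t' β h1 h2
    unfold Pf
    have e1 : 0 < Real.exp (-t') := Real.exp_pos _
    have e2 : -Real.exp (-t') + β ^ 2 - π * β ≤ 0 := by nlinarith
    have e3 : lam * (-Real.exp (-t') + β ^ 2 - π * β) ≤ 0 :=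
      mul_nonpos_of_nonneg_of_nonpos hlampos.le e2
    linarith
  -- the maximum
  have hcont : ContinuousOn (fun p : ℝ × ℝ => Pf k F m lam p.1 p.2) (Icc 0 T ×ˢ Icc 0 π) := by
    unfold Pf
    refine ContinuousOn.add (ContinuousOn.sub ?_ ?_) ?_
    · refine (h.us_cont k m).mono ?_
      rintro ⟨x, y⟩ hp
      exact ⟨(mem_prod.1 hp).1.1, mem_univ _⟩
    · exact Continuous.continuousOn (by fun_prop)
    · exact Continuous.continuousOn (by fun_prop)
  have hne : ((Icc 0 T : Set ℝ) ×ˢ (Icc 0 π : Set ℝ)).Nonempty :=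
    ⟨(t, b1), ⟨⟨ht, htT.le⟩, ⟨hb0, hb1⟩⟩⟩
  obtain ⟨p0, hmem, hmax⟩ := (isCompact_Icc.prod isCompact_Icc).exists_isMaxOn hne hcont
  obtain ⟨t0, ht0def⟩ : ∃ t0 : ℝ, t0 = p0.1 := ⟨_, rfl⟩
  obtain ⟨b0, hb0def⟩ : ∃ b0 : ℝ, b0 = p0.2 := ⟨_, rfl⟩
  have hmax' : ∀ t' β, 0 ≤ t' → t' ≤ T → 0 ≤ β → β ≤ π →
      Pf k F m lam t' β ≤ Pf k F m lam t0 b0 := by
    intro t' β h1 h2 h3 h4
    have hp : ((t', β) : ℝ × ℝ) ∈ ((Icc 0 T : Set ℝ) ×ˢ (Icc 0 π : Set ℝ)) :=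
      ⟨⟨h1, h2⟩, ⟨h3, h4⟩⟩
    have hq := isMaxOn_iff.1 hmax _ hp
    rw [ht0def, hb0def]
    exact hq
  have ht0 : 0 ≤ t0 := by rw [ht0def]; exact hmem.1.1
  have ht0T : t0 ≤ T := by rw [ht0def]; exact hmem.1.2
  have hb00 : 0 ≤ b0 := by rw [hb0def]; exact hmem.2.1
  have hb0π : b0 ≤ π := by rw [hb0def]; exact hmem.2.2
  have hval : 3 * η / 4 ≤ Pf k F m lam t0 b0 :=
    le_trans hP1 (hmax' t b1 ht htT.le hb0 hb1)
  have hu0 := hPle t0 b0 hb00 hb0π
  have hbpos : 0 < b0 := by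
    rcases hb00.lt_or_eq with h1 | h1
    · exact h1
    · exfalso
      rw [← h1] at hu0 hval
      have := h.us_zero k (m := m) ht0 (fun θ => hmb t0 θ ht0 ht0T)
      rw [Real.sin_zero] at hu0
      linarith
  have hbπ : b0 < π := by
    rcases hb0π.lt_or_eq with h1 | h1
    · exact h1
    · exfalso
      rw [h1] at hu0 hval
      have := h.us_pi k (m := m) ht0 (fun θ => hmb t0 θ ht0 ht0T)
      rw [Real.sin_pi] at hu0
      linarith
  have htlt : t0 < T := by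
    rcases ht0T.lt_or_eq with h1 | h1
    · exact h1
    · exfalso
      rw [h1] at hu0 hval
      obtain ⟨c, hc1, hc2⟩ := hinf T hTT0 b0 hb00 hb0π
      have hcm : c ∈ Icc (-m) m := by
        have : |c| ≤ m := by linarith
        exact abs_le.1 this
      have := h.us_le k (β := b0) hTpos.le hcm
      linarith
  rcases ht0.lt_or_eq with h1 | h1
  · exact h.co_int hk hlampos h1 htlt hbpos hbπ hmb hmax'
  · rw [← h1] at hmax'
    exact h.co_zero hk hlampos hTpos hbpos hbπ hmb hmax'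

theorem Sg.co (h : Sg F b q) {t : ℝ} (ht : 0 ≤ t) {B : Set ℝ}
    (mB : MeasurableSet B) (hB : B ⊆ Ioc (-π) π) :
    ‖∫ θ in B, G F t θ‖ ≤ 4 * Real.cosh t * Real.sin (volume.real B / 2) := by
  have hcG : Continuous (G F t) := h.an.cGt (co_qexp h ht)
  have hi : IntegrableOn (G F t) B :=
    (hcG.integrableOn_Icc (a := -π) (b := π)).mono_set (hB.trans Ioc_subset_Icc_self)
  obtain ⟨k, hk, hkw⟩ : ∃ k : ℂ, ‖k‖ = 1 ∧
      k * (∫ θ in B, G F t θ) = ((‖∫ θ in B, G F t θ‖ : ℝ) : ℂ) := by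
    set w : ℂ := ∫ θ in B, G F t θ with hw
    by_cases hw0 : w = 0
    · exact ⟨1, by simp, by simp [hw0]⟩
    · have hn : ‖w‖ ≠ 0 := norm_ne_zero_iff.mpr hw0
      refine ⟨conj w / (‖w‖ : ℂ), ?_, ?_⟩
      · rw [norm_div, RCLike.norm_conj, Complex.norm_real, norm_norm]
        exact div_self hn
      · have hn' : ((‖w‖ : ℝ) : ℂ) ≠ 0 := Complex.ofReal_ne_zero.mpr hn
        rw [div_mul_eq_mul_div, Complex.conj_mul', div_eq_iff hn']
        ring
  have h1 := h.co1 hk ht mB hB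
  have h2 : ∫ θ in B, uk k F t θ = (k * ∫ θ in B, G F t θ).re := by
    unfold uk
    rw [← integral_const_mul]
    exact integral_re (𝕜 := ℂ) (hi.const_mul k)
  rw [h2, hkw, Complex.ofReal_re] at h1
  exact h1

theorem Sg.nrm (h : Sg F b q) {t : ℝ} (ht : 0 ≤ t) (θ : ℝ) : ‖G F t θ‖ ≤ 2 * Real.cosh t := by
  have hcG : Continuous (G F t) := h.an.cGt (co_qexp h ht)
  have hch : 0 < Real.cosh t := Real.cosh_pos t
  have key : ∀ x y : ℝ, -π ≤ x → x ≤ y → y ≤ π →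
      ‖∫ θ in x..y, G F t θ‖ ≤ 2 * Real.cosh t * (y - x) := by
    intro x y h1 h2 h3
    rw [intervalIntegral.integral_of_le h2]
    have hs : Ioc x y ⊆ Ioc (-π) π := Ioc_subset_Ioc h1 h3
    have h4 := h.co ht measurableSet_Ioc hs
    rw [Real.volume_real_Ioc_of_le h2] at h4
    have h5 : Real.sin ((y - x) / 2) ≤ (y - x) / 2 := Real.sin_le (by linarith)
    have h6 : 4 * Real.cosh t * Real.sin ((y - x) / 2) ≤ 4 * Real.cosh t * ((y - x) / 2) :=
      mul_le_mul_of_nonneg_left h5 (by positivity)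
    linarith
  have hopen : ∀ θ0 ∈ Ioo (-π) π, ‖G F t θ0‖ ≤ 2 * Real.cosh t := by
    intro θ0 hθ
    have hd : HasDerivAt (fun x => ∫ θ in θ0..x, G F t θ) (G F t θ0) θ0 :=
      intervalIntegral.integral_hasDerivAt_right (hcG.intervalIntegrable _ _)
        (hcG.stronglyMeasurableAtFilter _ _) hcG.continuousAt
    refine hd.le_of_lip' (by positivity) ?_
    have hnb : Ioo (-π) π ∈ 𝓝 θ0 := Ioo_mem_nhds hθ.1 hθ.2
    filter_upwards [hnb] with x hx
    rw [intervalIntegral.integral_same, sub_zero, Real.norm_eq_abs]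
    rcases le_total θ0 x with h1 | h1
    · rw [abs_of_nonneg (by linarith)]
      exact key θ0 x hθ.1.le h1 hx.2.le
    · rw [abs_of_nonpos (by linarith), intervalIntegral.integral_symm, norm_neg, neg_sub]
      exact key x θ0 hx.1.le h1 hθ.2.le
  have hclosed : IsClosed {θ0 : ℝ | ‖G F t θ0‖ ≤ 2 * Real.cosh t} :=
    isClosed_le hcG.norm continuous_const
  have hIcc : Icc (-π) π ⊆ {θ0 : ℝ | ‖G F t θ0‖ ≤ 2 * Real.cosh t} := by
    rw [← closure_Ioo (show (-π : ℝ) ≠ π by linarith [Real.pi_pos])]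
    exact closure_minimal hopen hclosed
  obtain ⟨y, hy, hy2⟩ := (G_per F t).exists_mem_Ioc (by linarith [Real.pi_pos]) θ (-π)
  have hyI : y ∈ Icc (-π) π := ⟨hy.1.le, by linarith [hy.2]⟩
  rw [hy2]
  exact hIcc hyI

end Pool.Agent.H36.SZ
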