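import Pool.Agent.H36.SZ.CoK

/-!
# Moving the level set and adding an interval at an upward crossing

PROOF. Let `0 < |s| < min (e/2) (π/2)` (`s = 0`: `int_lev`-type inequality `int_le_Kf`). Write
`P θ = 1` if `c < f θ` and `0` otherwise (a `2π`-periodic measurable function). By periodicity
`int_A f(θ + s) dθ = int over a period of P(θ) f(θ+s) = int over [α-π, α+π] of P(θ - s) f θ dθ`
(substitution and `Function.Periodic.intervalIntegral_add_eq`), and
`int_(α-s)^(α+s) f = sgn s * int over [α-π, α+π] of 1_(|θ-α|<|s|) f θ dθ`. Hence the left side is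
`int over [α-π, α+π] of n(θ) f(θ) dθ`, `n θ = P(θ - s) + sgn(s) 1_(|θ-α|<|s|)`.
`0 <= n <= 1`: if `s > 0` and `|θ-α| < s` then `θ - s ∈ (α - 2s, α)`, so `f (θ-s) < c` and
`P (θ-s) = 0`; if `s < 0` and `|θ-α| < |s|` then `θ - s ∈ (α, α + 2|s|)`, so `P (θ - s) = 1`.
`int n = |A| + 2 s`. So `int n f = int n (f - c') + c' (|A| + 2s) <= int (f-c')_+ + c' (|A| + 2s)`,
and the integral of `(f - c')_+` over the period `[α-π, α+π]` is `Kf f c'`.
-/

open MeasureTheory Set Filter Topology
open scoped Real

namespace Pool.Agent.H36.SZ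

/-- the indicator of the level set -/
private noncomputable def codP (f : ℝ → ℝ) (c : ℝ) (θ : ℝ) : ℝ := if c < f θ then 1 else 0

/-- the signed indicator of the interval from `α - s` to `α + s` -/
private noncomputable def codX (α s : ℝ) (θ : ℝ) : ℝ :=
  (Ioc (α - s) (α + s)).indicator (fun _ => (1 : ℝ)) θ -
    (Ioc (α + s) (α - s)).indicator (fun _ => (1 : ℝ)) θ

private theorem codP_meas {f : ℝ → ℝ} (cf : Continuous f) (c : ℝ) : Measurable (codP f c) :=
  Measurable.ite (measurableSet_lt measurable_const cf.measurable) measurable_const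
    measurable_const

private theorem codP_nonneg (f : ℝ → ℝ) (c θ : ℝ) : 0 ≤ codP f c θ := by
  unfold codP
  split_ifs <;> norm_num

private theorem codP_le (f : ℝ → ℝ) (c θ : ℝ) : codP f c θ ≤ 1 := by
  unfold codP
  split_ifs <;> norm_num

private theorem codP_per {f : ℝ → ℝ} (per : Function.Periodic f (2 * π)) (c : ℝ) :
    Function.Periodic (codP f c) (2 * π) := by
  intro θ
  unfold codP
  rw [per θ]

private theorem codX_meas (α s : ℝ) : Measurable (codX α s) :=
  (measurable_const.indicator measurableSet_Ioc).sub (measurable_const.indicator measurableSet_Ioc)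

private theorem codX_abs (α s θ : ℝ) : |codX α s θ| ≤ 1 := by
  unfold codX
  by_cases h1 : θ ∈ Ioc (α - s) (α + s)
  · by_cases h2 : θ ∈ Ioc (α + s) (α - s)
    · rw [indicator_of_mem h1, indicator_of_mem h2]; norm_num
    · rw [indicator_of_mem h1, indicator_of_notMem h2]; norm_num
  · by_cases h2 : θ ∈ Ioc (α + s) (α - s)
    · rw [indicator_of_notMem h1, indicator_of_mem h2]; norm_num
    · rw [indicator_of_notMem h1, indicator_of_notMem h2]; norm_num

/-- a bounded measurable function times a continuous function is interval integrable -/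
private theorem cod_int {g F : ℝ → ℝ} (mg : Measurable g) (hg : ∀ θ, |g θ| ≤ 1)
    (cF : Continuous F) (a b : ℝ) :
    IntervalIntegrable (fun θ => g θ * F θ) volume a b := by
  have h := cF.intervalIntegrable (μ := volume) a b
  refine h.mono_fun (mg.mul cF.measurable).aestronglyMeasurable ?_
  refine Eventually.of_forall fun θ => ?_
  simp only [Real.norm_eq_abs, abs_mul]
  calc |g θ| * |F θ| ≤ 1 * |F θ| := mul_le_mul_of_nonneg_right (hg θ) (abs_nonneg _)
    _ = |F θ| := one_mul _

private theorem codX_int {F : ℝ → ℝ} (cF : Continuous F) {α s : ℝ} (h1 : -π < s) (h2 : s < π) :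
    ∫ θ in (α - s)..(α + s), F θ = ∫ θ in (α - π)..(α + π), codX α s θ * F θ := by
  have hp := Real.pi_pos
  have e1 : ∀ u v : ℝ, α - π ≤ u → v ≤ α + π →
      ∫ θ in (α - π)..(α + π), (Ioc u v).indicator (fun _ => (1 : ℝ)) θ * F θ =
        ∫ θ in Ioc u v, F θ := by
    intro u v hu hv
    have h3 : (fun θ => (Ioc u v).indicator (fun _ => (1 : ℝ)) θ * F θ) =
        (Ioc u v).indicator F := by
      funext θ
      by_cases h : θ ∈ Ioc u v
      · rw [indicator_of_mem h, indicator_of_mem h, one_mul]
      · rw [indicator_of_notMem h, indicator_of_notMem h, zero_mul]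
    rw [h3, intervalIntegral.integral_of_le (by linarith), setIntegral_indicator measurableSet_Ioc]
    congr 2
    exact inter_eq_right.2 (Ioc_subset_Ioc hu hv)
  have i1 : ∀ u v : ℝ,
      IntervalIntegrable (fun θ => (Ioc u v).indicator (fun _ => (1 : ℝ)) θ * F θ) volume
        (α - π) (α + π) := by
    intro u v
    refine cod_int (measurable_const.indicator measurableSet_Ioc) (fun θ => ?_) cF _ _
    by_cases h : θ ∈ Ioc u v
    · rw [indicator_of_mem h]; norm_num
    · rw [indicator_of_notMem h]; norm_num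
  have h4 : (fun θ => codX α s θ * F θ) = fun θ =>
      (Ioc (α - s) (α + s)).indicator (fun _ => (1 : ℝ)) θ * F θ -
        (Ioc (α + s) (α - s)).indicator (fun _ => (1 : ℝ)) θ * F θ := by
    funext θ
    unfold codX
    ring
  rw [h4, intervalIntegral.integral_sub (i1 _ _) (i1 _ _), e1 _ _ (by linarith) (by linarith),
    e1 _ _ (by linarith) (by linarith)]
  rfl

private theorem cod_core {f n : ℝ → ℝ} (cf : Continuous f) (mn : Measurable n)
    (n0 : ∀ θ, 0 ≤ n θ) (n1 : ∀ θ, n θ ≤ 1) (c' : ℝ) {a b : ℝ} (hab : a ≤ b) :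
    ∫ θ in a..b, n θ * f θ ≤
      (∫ θ in a..b, max (f θ - c') 0) + c' * ∫ θ in a..b, n θ := by
  have hn : ∀ θ, |n θ| ≤ 1 := fun θ => abs_le.2 ⟨by linarith [n0 θ], n1 θ⟩
  have i1 : IntervalIntegrable (fun θ => n θ * f θ) volume a b := cod_int mn hn cf a b
  have i2 : IntervalIntegrable n volume a b := by
    have h := cod_int mn hn (continuous_const (y := (1 : ℝ))) a b
    simpa using h
  have cm : Continuous fun θ => max (f θ - c') 0 := (cf.sub continuous_const).max continuous_const
  have i3 : IntervalIntegrable (fun θ => max (f θ - c') 0) volume a b := cm.intervalIntegrable a b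
  rw [← intervalIntegral.integral_const_mul, ← intervalIntegral.integral_add i3 (i2.const_mul c')]
  refine intervalIntegral.integral_mono_on hab i1 (i3.add (i2.const_mul c')) fun θ _ => ?_
  have h1 : n θ * (f θ - c') ≤ max (f θ - c') 0 := by
    rcases le_total 0 (f θ - c') with h | h
    · rw [max_eq_left h]
      calc n θ * (f θ - c') ≤ 1 * (f θ - c') := mul_le_mul_of_nonneg_right (n1 θ) h
        _ = f θ - c' := one_mul _
    · rw [max_eq_right h]
      exact mul_nonpos_of_nonneg_of_nonpos (n0 θ) h
  have h2 : n θ * f θ = n θ * (f θ - c') + c' * n θ := by ring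
  linarith

theorem var_s {f : ℝ → ℝ} (cf : Continuous f) (per : Function.Periodic f (2 * π))
    {c α e : ℝ} (he : 0 < e) (hl : ∀ θ ∈ Ioo (α - e) α, f θ < c)
    (hr : ∀ θ ∈ Ioo α (α + e), c < f θ) :
    ∀ᶠ s in 𝓝 (0:ℝ), ∀ c' : ℝ,
      (∫ θ in {θ : ℝ | θ ∈ Ioc (-π) π ∧ c < f θ}, f (θ + s)) + (∫ θ in (α - s)..(α + s), f θ) ≤
        Kf f c' + c' * (volume.real {θ : ℝ | θ ∈ Ioc (-π) π ∧ c < f θ} + 2 * s) := by
  have hp := Real.pi_pos
  have hα : f α ≤ c := by
    have h1 : ∀ᶠ θ in 𝓝[<] α, f θ ≤ c := by
      filter_upwards [Ioo_mem_nhdsLT (show α - e < α by linarith)] with θ h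
      exact (hl θ h).le
    exact le_of_tendsto (cf.continuousAt.tendsto.mono_left nhdsWithin_le_nhds) h1
  have hd : (0:ℝ) < min (e / 2) (π / 2) := lt_min (by linarith) (by linarith)
  filter_upwards [Ioo_mem_nhds (neg_lt_zero.2 hd) hd] with s hs c'
  have s1 : -(e / 2) < s := lt_of_le_of_lt (neg_le_neg (min_le_left _ _)) hs.1
  have s2 : s < e / 2 := lt_of_lt_of_le hs.2 (min_le_left _ _)
  have s3 : -(π / 2) < s := lt_of_le_of_lt (neg_le_neg (min_le_right _ _)) hs.1
  have s4 : s < π / 2 := lt_of_lt_of_le hs.2 (min_le_right _ _)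
  have mA : MeasurableSet {θ : ℝ | c < f θ} := measurableSet_lt measurable_const cf.measurable
  have absP : ∀ θ, |codP f c θ| ≤ 1 := fun θ =>
    abs_le.2 ⟨by linarith [codP_nonneg f c θ], codP_le f c θ⟩
  -- integrals over the level set
  have lev : ∀ F : ℝ → ℝ, ∫ θ in {θ : ℝ | θ ∈ Ioc (-π) π ∧ c < f θ}, F θ =
      ∫ θ in (-π)..π, codP f c θ * F θ := by
    intro F
    have h3 : (fun θ => codP f c θ * F θ) = {θ : ℝ | c < f θ}.indicator F := by
      funext θ
      unfold codP
      by_cases h : c < f θ
      · rw [if_pos h, indicator_of_mem (show θ ∈ {θ : ℝ | c < f θ} from h), one_mul]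
      · rw [if_neg h, indicator_of_notMem (show θ ∉ {θ : ℝ | c < f θ} from h), zero_mul]
    rw [h3, intervalIntegral.integral_of_le (by linarith), setIntegral_indicator mA]
    rfl
  have vol : volume.real {θ : ℝ | θ ∈ Ioc (-π) π ∧ c < f θ} = ∫ θ in (-π)..π, codP f c θ := by
    have h := lev fun _ => 1
    rw [setIntegral_const, smul_eq_mul, mul_one] at h
    rw [h]
    simp
  -- shift
  have shift : ∀ G : ℝ → ℝ, Function.Periodic G (2 * π) →
      ∫ θ in (-π)..π, G (θ + s) = ∫ θ in (α - π)..(α + π), G θ := by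
    intro G pG
    rw [intervalIntegral.integral_comp_add_right]
    have h := pG.intervalIntegral_add_eq (-π + s) (α - π)
    rw [show -π + s + 2 * π = π + s by ring, show α - π + 2 * π = α + π by ring] at h
    exact h
  have shift0 : ∀ G : ℝ → ℝ, Function.Periodic G (2 * π) →
      ∫ θ in (-π)..π, G θ = ∫ θ in (α - π)..(α + π), G θ := by
    intro G pG
    have h := pG.intervalIntegral_add_eq (-π) (α - π)
    rw [show -π + 2 * π = π by ring, show α - π + 2 * π = α + π by ring] at h
    exact h
  have pS : Function.Periodic (fun θ => codP f c (θ - s)) (2 * π) := by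
    intro θ
    have h := codP_per per c (θ - s)
    simp only
    rw [← h]
    congr 1
    ring
  have t1 : ∫ θ in {θ : ℝ | θ ∈ Ioc (-π) π ∧ c < f θ}, f (θ + s) =
      ∫ θ in (α - π)..(α + π), codP f c (θ - s) * f θ := by
    rw [lev fun θ => f (θ + s)]
    have h := shift (fun θ => codP f c (θ - s) * f θ) (pS.mul per)
    rw [← h]
    refine intervalIntegral.integral_congr fun θ _ => ?_
    rw [add_sub_cancel_right]
  have t2 : volume.real {θ : ℝ | θ ∈ Ioc (-π) π ∧ c < f θ} =
      ∫ θ in (α - π)..(α + π), codP f c (θ - s) := by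
    rw [vol]
    have h := shift (fun θ => codP f c (θ - s)) pS
    rw [← h]
    refine intervalIntegral.integral_congr fun θ _ => ?_
    rw [add_sub_cancel_right]
  have t3 : ∫ θ in (α - s)..(α + s), f θ = ∫ θ in (α - π)..(α + π), codX α s θ * f θ :=
    codX_int cf (by linarith) (by linarith)
  have t4 : 2 * s = ∫ θ in (α - π)..(α + π), codX α s θ := by
    have h := codX_int (F := fun _ => (1 : ℝ)) continuous_const (α := α) (s := s) (by linarith)
      (by linarith)
    rw [intervalIntegral.integral_const, smul_eq_mul, mul_one] at h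
    rw [show 2 * s = α + s - (α - s) by ring, h]
    simp
  have mP : Measurable fun θ => codP f c (θ - s) :=
    (codP_meas cf c).comp (measurable_id.sub_const s)
  have mX := codX_meas α s
  have j1 : IntervalIntegrable (fun θ => codP f c (θ - s) * f θ) volume (α - π) (α + π) :=
    cod_int mP (fun θ => absP _) cf _ _
  have j2 : IntervalIntegrable (fun θ => codX α s θ * f θ) volume (α - π) (α + π) :=
    cod_int mX (codX_abs α s) cf _ _
  have j3 : IntervalIntegrable (fun θ => codP f c (θ - s)) volume (α - π) (α + π) := by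
    have h := cod_int mP (fun θ => absP _) (continuous_const (y := (1 : ℝ))) (α - π) (α + π)
    simpa using h
  have j4 : IntervalIntegrable (fun θ => codX α s θ) volume (α - π) (α + π) := by
    have h := cod_int mX (codX_abs α s) (continuous_const (y := (1 : ℝ))) (α - π) (α + π)
    simpa using h
  have t5 : (∫ θ in {θ : ℝ | θ ∈ Ioc (-π) π ∧ c < f θ}, f (θ + s)) +
      (∫ θ in (α - s)..(α + s), f θ) =
      ∫ θ in (α - π)..(α + π), (codP f c (θ - s) + codX α s θ) * f θ := by
    rw [t1, t3, ← intervalIntegral.integral_add j1 j2]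
    refine intervalIntegral.integral_congr fun θ _ => ?_
    ring
  have t6 : volume.real {θ : ℝ | θ ∈ Ioc (-π) π ∧ c < f θ} + 2 * s =
      ∫ θ in (α - π)..(α + π), (codP f c (θ - s) + codX α s θ) := by
    rw [t2, t4, ← intervalIntegral.integral_add j3 j4]
  have t7 : Kf f c' = ∫ θ in (α - π)..(α + π), max (f θ - c') 0 := by
    unfold Kf
    refine shift0 (fun θ => max (f θ - c') 0) fun θ => ?_
    simp only
    rw [per θ]
  have bd : ∀ θ, 0 ≤ codP f c (θ - s) + codX α s θ ∧ codP f c (θ - s) + codX α s θ ≤ 1 := by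
    intro θ
    have p0 := codP_nonneg f c (θ - s)
    have p1 := codP_le f c (θ - s)
    by_cases h1 : θ ∈ Ioc (α - s) (α + s)
    · have h2 : θ ∉ Ioc (α + s) (α - s) := fun h => by
        have := h1.2
        have := h.1
        linarith
      have h3 : f (θ - s) ≤ c := by
        have h4 := h1.1
        have h5 := h1.2
        rcases eq_or_lt_of_le (show θ - s ≤ α by linarith) with h6 | h6
        · rw [h6]; exact hα
        · refine (hl (θ - s) ⟨?_, h6⟩).le
          linarith
      have h4 : codP f c (θ - s) = 0 := by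
        unfold codP
        rw [if_neg (not_lt.2 h3)]
      unfold codX
      rw [h4, indicator_of_mem h1, indicator_of_notMem h2]
      norm_num
    · by_cases h2 : θ ∈ Ioc (α + s) (α - s)
      · have h3 : c < f (θ - s) := by
          have h4 := h2.1
          have h5 := h2.2
          exact hr (θ - s) ⟨by linarith, by linarith⟩
        have h4 : codP f c (θ - s) = 1 := by
          unfold codP
          rw [if_pos h3]
        unfold codX
        rw [h4, indicator_of_notMem h1, indicator_of_mem h2]
        norm_num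
      · unfold codX
        rw [indicator_of_notMem h1, indicator_of_notMem h2, sub_zero, add_zero]
        exact ⟨p0, p1⟩
  rw [t5, t6, t7]
  exact cod_core cf (mP.add mX) (fun θ => (bd θ).1) (fun θ => (bd θ).2) c' (by linarith)

end Pool.Agent.H36.SZ
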