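import Pool.Agent.H36.SZ.Reg

/-!
# Second derivatives of the two variations

PROOFS. `A ⊆ Ioc (-π) π` is a fixed measurable set. `dt1`, `dt2`: differentiation under the
integral (`hasDerivAt_integral_of_dominated_loc_of_deriv_le`, all functions continuous, hence
bounded on compact sets `[-δ, δ] × [-π, π]`), derivatives `An.hG`, `An.hG1`.
`ds1`, `ds2`: `d/ds uk k F t (θ+s) = Re (k I G1 F t (θ+s))` (`An.hGq`) and
`d/ds Re (k I G1 F t (θ+s)) = Re (k I I G2) = - Re (k G2 F t (θ+s))` (`An.hG1q`); the derivative of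
`int_(α-s)^(α+s) f` is `f (α+s) + f (α-s)` (fundamental theorem of calculus; write it as
`int_0^(α+s) - int_0^(α-s)`), and the derivative of `f (α+s) + f (α-s)` at `s = 0` is
`f' α - f' α = 0`.
-/

open Complex MeasureTheory Set Filter Topology
open scoped ComplexConjugate Real

namespace Pool.Agent.H36.SZ

variable {F : ℂ → ℂ} {q : ℝ}

private theorem cot_dom {f f' : ℝ → ℝ → ℝ} {U : Set ℝ} (hU : IsOpen U)
    (cf : ∀ s ∈ U, Continuous (f s))
    (cf' : ContinuousOn (fun p : ℝ × ℝ => f' p.1 p.2) {p | p.1 ∈ U})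
    (hd : ∀ s ∈ U, ∀ θ, HasDerivAt (fun r => f r θ) (f' s θ) s)
    {A : Set ℝ} (mA : MeasurableSet A) (hA : A ⊆ Ioc (-π) π) {s : ℝ} (hs : s ∈ U) :
    HasDerivAt (fun r => ∫ θ in A, f r θ) (∫ θ in A, f' s θ) s := by
  obtain ⟨ε, hε, hb⟩ := Metric.isOpen_iff.1 hU s hs
  have hK : Icc (s - ε / 2) (s + ε / 2) ⊆ U := by
    intro x hx
    apply hb
    rw [Metric.mem_ball, Real.dist_eq, abs_lt]
    constructor
    · linarith [hx.1]
    · linarith [hx.2]
  have hKc : IsCompact (Icc (s - ε / 2) (s + ε / 2) ×ˢ Icc (-π) π) :=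
    isCompact_Icc.prod isCompact_Icc
  obtain ⟨C, hC⟩ := hKc.exists_bound_of_continuousOn
    (cf'.mono (fun p hp => show p.1 ∈ U from hK hp.1))
  have cfs : Continuous (f' s) := by
    have h1 : Continuous (fun θ : ℝ => ((s, θ) : ℝ × ℝ)) := by fun_prop
    exact cf'.comp_continuous h1 (fun θ => hs)
  have hA2 : A ⊆ Icc (-π) π := hA.trans Ioc_subset_Icc_self
  refine (hasDerivAt_integral_of_dominated_loc_of_deriv_le
    (s := Ioo (s - ε / 2) (s + ε / 2)) (bound := fun _ => C) ?_ ?_ ?_ ?_ ?_ ?_ ?_).2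
  · exact Ioo_mem_nhds (by linarith) (by linarith)
  · filter_upwards [hU.mem_nhds hs] with r hr
    exact (cf r hr).aestronglyMeasurable
  · exact ((cf s hs).integrableOn_Icc (a := -π) (b := π)).mono_set hA2
  · exact cfs.aestronglyMeasurable
  · rw [ae_restrict_iff' mA]
    refine Eventually.of_forall fun θ hθ x hx => ?_
    exact hC (x, θ) ⟨Ioo_subset_Icc_self hx, hA2 hθ⟩
  · exact (continuous_const.integrableOn_Icc (a := -π) (b := π)).mono_set hA2
  · refine Eventually.of_forall fun θ x hx => ?_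
    exact hd x (hK (Ioo_subset_Icc_self hx)) θ

private theorem cot_re {g : ℝ → ℂ} {g' : ℂ} {s : ℝ} (h : HasDerivAt g g' s) (k : ℂ) :
    HasDerivAt (fun r => (k * g r).re) ((k * g').re) s :=
  Complex.reCLM.hasFDerivAt.comp_hasDerivAt s (h.const_mul k)

private theorem cot_add {g : ℝ → ℂ} {g' : ℂ} {t s : ℝ} (h : HasDerivAt g g' (t + s)) :
    HasDerivAt (fun r => g (t + r)) g' s := by
  have h1 : HasDerivAt (fun r : ℝ => t + r) 1 s := (hasDerivAt_id s).const_add t
  have h2 := h.scomp s h1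
  rw [one_smul] at h2
  exact h2

private theorem cot_open (q t : ℝ) : IsOpen {r : ℝ | q < Real.exp (t + r)} :=
  isOpen_lt continuous_const (by fun_prop)

theorem An.dt1 (h : An F q) (k : ℂ) {t : ℝ} (ht : q < Real.exp t) {A : Set ℝ}
    (mA : MeasurableSet A) (hA : A ⊆ Ioc (-π) π) :
    ∀ᶠ s in 𝓝 (0:ℝ), HasDerivAt (fun r => ∫ θ in A, uk k F (t + r) θ)
      (∫ θ in A, (k * G1 F (t + s) θ).re) s := by
  have hU := cot_open q t
  have h0 : (0:ℝ) ∈ {r : ℝ | q < Real.exp (t + r)} := by
    show q < Real.exp (t + 0)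
    rw [add_zero]
    exact ht
  filter_upwards [hU.mem_nhds h0] with s hs
  have hmap : ContinuousOn (fun p : ℝ × ℝ => G1 F (t + p.1) p.2)
      {p : ℝ × ℝ | p.1 ∈ {r : ℝ | q < Real.exp (t + r)}} := by
    have h1 : Continuous (fun p : ℝ × ℝ => ((t + p.1, p.2) : ℝ × ℝ)) := by fun_prop
    exact h.cG1.comp h1.continuousOn (fun p hp => hp)
  refine cot_dom (f := fun r θ => uk k F (t + r) θ) (f' := fun r θ => (k * G1 F (t + r) θ).re)
    hU ?_ ?_ ?_ mA hA hs
  · intro r hr
    unfold uk
    exact Complex.continuous_re.comp (continuous_const.mul (h.cGt hr))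
  · exact Complex.continuous_re.comp_continuousOn (continuousOn_const.mul hmap)
  · intro r hr θ
    exact cot_re (cot_add (h.hG θ hr)) k

theorem An.dt2 (h : An F q) (k : ℂ) {t : ℝ} (ht : q < Real.exp t) {A : Set ℝ}
    (mA : MeasurableSet A) (hA : A ⊆ Ioc (-π) π) :
    HasDerivAt (fun s => ∫ θ in A, (k * G1 F (t + s) θ).re) (∫ θ in A, (k * G2 F t θ).re) 0 := by
  have hU := cot_open q t
  have h0 : (0:ℝ) ∈ {r : ℝ | q < Real.exp (t + r)} := by
    show q < Real.exp (t + 0)
    rw [add_zero]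
    exact ht
  have hmap : ContinuousOn (fun p : ℝ × ℝ => G2 F (t + p.1) p.2)
      {p : ℝ × ℝ | p.1 ∈ {r : ℝ | q < Real.exp (t + r)}} := by
    have h1 : Continuous (fun p : ℝ × ℝ => ((t + p.1, p.2) : ℝ × ℝ)) := by fun_prop
    exact h.cG2.comp h1.continuousOn (fun p hp => hp)
  have h3 := cot_dom (f := fun r θ => (k * G1 F (t + r) θ).re)
    (f' := fun r θ => (k * G2 F (t + r) θ).re) hU ?_ ?_ ?_ mA hA h0
  · rw [add_zero] at h3
    exact h3
  · intro r hr
    exact Complex.continuous_re.comp (continuous_const.mul (h.cG1t hr))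
  · exact Complex.continuous_re.comp_continuousOn (continuousOn_const.mul hmap)
  · intro r hr θ
    exact cot_re (cot_add (h.hG1 θ hr)) k

theorem An.ds1 (h : An F q) (k : ℂ) {t : ℝ} (ht : q < Real.exp t) (α : ℝ) {A : Set ℝ}
    (mA : MeasurableSet A) (hA : A ⊆ Ioc (-π) π) (s : ℝ) :
    HasDerivAt (fun r => (∫ θ in A, uk k F t (θ + r)) + ∫ θ in (α - r)..(α + r), uk k F t θ)
      ((∫ θ in A, (k * I * G1 F t (θ + s)).re) + (uk k F t (α + s) + uk k F t (α - s))) s := by
  have cu : Continuous (uk k F t) := by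
    unfold uk
    exact Complex.continuous_re.comp (continuous_const.mul (h.cGt ht))
  refine HasDerivAt.add ?_ ?_
  · refine cot_dom (f := fun r θ => uk k F t (θ + r))
      (f' := fun r θ => (k * I * G1 F t (θ + r)).re) isOpen_univ ?_ ?_ ?_ mA hA (mem_univ s)
    · intro r _
      exact cu.comp (by fun_prop)
    · refine Continuous.continuousOn ?_
      have h1 : Continuous (fun p : ℝ × ℝ => G1 F t (p.2 + p.1)) :=
        (h.cG1t ht).comp (by fun_prop)
      exact Complex.continuous_re.comp (continuous_const.mul h1)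
    · intro r _ θ
      have h1 := cot_re (cot_add (h.hGq (θ + r) ht)) k
      rw [← mul_assoc] at h1
      exact h1
  · have e1 : (fun r : ℝ => ∫ θ in (α - r)..(α + r), uk k F t θ) =
        fun r : ℝ => (∫ θ in (0:ℝ)..(α + r), uk k F t θ) - ∫ θ in (0:ℝ)..(α - r), uk k F t θ := by
      funext r
      rw [intervalIntegral.integral_interval_sub_left (cu.intervalIntegrable _ _)
        (cu.intervalIntegrable _ _)]
    rw [e1]
    have h1 : HasDerivAt (fun r : ℝ => ∫ θ in (0:ℝ)..(α + r), uk k F t θ)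
        (uk k F t (α + s)) s := by
      have h2 : HasDerivAt (fun r : ℝ => α + r) 1 s := (hasDerivAt_id s).const_add α
      have h3 := (cu.integral_hasStrictDerivAt 0 (α + s)).hasDerivAt.comp s h2
      rw [mul_one] at h3
      exact h3
    have h4 : HasDerivAt (fun r : ℝ => ∫ θ in (0:ℝ)..(α - r), uk k F t θ)
        (uk k F t (α - s) * (-1)) s := by
      have h2 : HasDerivAt (fun r : ℝ => α - r) (-1) s := (hasDerivAt_id s).const_sub α
      exact (cu.integral_hasStrictDerivAt 0 (α - s)).hasDerivAt.comp s h2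
    have h5 := h1.sub h4
    have e2 : uk k F t (α + s) + uk k F t (α - s) =
        uk k F t (α + s) - uk k F t (α - s) * (-1) := by ring
    rw [e2]
    exact h5

theorem An.ds2 (h : An F q) (k : ℂ) {t : ℝ} (ht : q < Real.exp t) (α : ℝ) {A : Set ℝ}
    (mA : MeasurableSet A) (hA : A ⊆ Ioc (-π) π) :
    HasDerivAt (fun s => (∫ θ in A, (k * I * G1 F t (θ + s)).re) +
      (uk k F t (α + s) + uk k F t (α - s))) (-∫ θ in A, (k * G2 F t θ).re) 0 := by
  have h1 := cot_dom (f := fun r θ => (k * I * G1 F t (θ + r)).re)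
    (f' := fun r θ => (k * I * (I * G2 F t (θ + r))).re) isOpen_univ ?_ ?_ ?_ mA hA
    (mem_univ (0:ℝ))
  · have e1 : (∫ θ in A, (k * I * (I * G2 F t (θ + 0))).re) = -∫ θ in A, (k * G2 F t θ).re := by
      rw [← integral_neg]
      congr 1
      funext θ
      rw [add_zero]
      have e2 : k * I * (I * G2 F t θ) = -(k * G2 F t θ) := by
        have e3 : k * I * (I * G2 F t θ) = (I * I) * (k * G2 F t θ) := by ring
        rw [e3, Complex.I_mul_I]
        ring
      rw [e2, Complex.neg_re]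
    rw [e1] at h1
    have h2 : HasDerivAt (fun s : ℝ => uk k F t (α + s)) ((k * (I * G1 F t α)).re) 0 := by
      have h3 : HasDerivAt (G F t) (I * G1 F t α) (α + 0) := by
        rw [add_zero]
        exact h.hGq α ht
      exact cot_re (cot_add h3) k
    have h4 : HasDerivAt (fun s : ℝ => uk k F t (α - s)) (-(k * (I * G1 F t α)).re) 0 := by
      have h5 : HasDerivAt (uk k F t) ((k * (I * G1 F t α)).re) (α - 0) := by
        rw [sub_zero]
        exact cot_re (h.hGq α ht) k
      have h6 : HasDerivAt (fun r : ℝ => α - r) (-1) 0 := (hasDerivAt_id (0:ℝ)).const_sub α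
      have h7 := h5.comp 0 h6
      rw [mul_neg, mul_one] at h7
      exact h7
    have h8 := h1.add (h2.add h4)
    have e4 : -∫ θ in A, (k * G2 F t θ).re =
        (-∫ θ in A, (k * G2 F t θ).re) + ((k * (I * G1 F t α)).re + -(k * (I * G1 F t α)).re) := by
      ring
    rw [e4]
    exact h8
  · intro r _
    have h2 : Continuous (fun θ : ℝ => G1 F t (θ + r)) := (h.cG1t ht).comp (by fun_prop)
    exact Complex.continuous_re.comp (continuous_const.mul h2)
  · refine Continuous.continuousOn ?_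
    have h2 : Continuous (fun p : ℝ × ℝ => G2 F t (p.2 + p.1)) := (h.cG2t ht).comp (by fun_prop)
    exact Complex.continuous_re.comp (continuous_const.mul (continuous_const.mul h2))
  · intro r _ θ
    exact cot_re (cot_add (h.hG1q (θ + r) ht)) (k * I)

end Pool.Agent.H36.SZ
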