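import Pool.Agent.H36.SZ.Defs

/-!
# Rearrangement: sets of given measure and `Kf f c = int (f - c)_+`

PROOFS. `int_le_Kf`: `int_B f = int_B (f - c) + c |B| <= int_B (f-c)_+ + c |B| <= Kf f c + c |B|`.
`int_lev`: on `{f > c}` one has `(f-c)_+ = f - c`, off it `(f - c)_+ = 0`.
`lev_ex`: `φ c = volume.real {θ ∈ Ioc (-π) π | c < f θ}` is nonincreasing; it is `2π` for
`c < min f` and `0` for `c >= max f` (on the compact interval), and it is continuous: continuity of
measures along decreasing / increasing sequences of sets and `volume {f = c} = 0`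
(from the right: `{f > c} = ⋃ {f > c + 1/n}`; from the left: `⋂ {f > c - 1/n} = {f >= c}`).
Alternatively: `c0 = inf {c | φ c <= 2b}`; then `φ c0 <= 2b` (continuity from the right) and
`volume {f >= c0} >= 2b` (intersection of `{f > c}`, `c < c0`), and the null level set gives
equality. `0 < b < π` guarantees that the set of `c` is nonempty and bounded below.
`lev_in`: if `|f| <= m` then `c <= m` (otherwise the set is empty) and `-m <= c` (otherwise the set
is all of `Ioc (-π) π`, of measure `2π > 2b`).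
-/

open MeasureTheory Set Filter Topology
open scoped Real

namespace Pool.Agent.H36.SZ

private theorem cok_Kf (f : ℝ → ℝ) (c : ℝ) :
    Kf f c = ∫ θ in Ioc (-π) π, max (f θ - c) 0 := by
  unfold Kf
  rw [intervalIntegral.integral_of_le (by linarith [Real.pi_pos])]

private theorem cok_split {f : ℝ → ℝ} (cf : Continuous f) {B : Set ℝ}
    (hB : B ⊆ Ioc (-π) π) (c : ℝ) :
    ∫ θ in B, f θ = (∫ θ in B, (f θ - c)) + c * volume.real B := by
  have hfi : IntegrableOn f B :=
    (cf.integrableOn_Icc (a := -π) (b := π)).mono_set (hB.trans Ioc_subset_Icc_self)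
  have hci : IntegrableOn (fun _ : ℝ => c) B :=
    (continuous_const.integrableOn_Icc (a := -π) (b := π)).mono_set (hB.trans Ioc_subset_Icc_self)
  rw [integral_sub hfi hci, setIntegral_const, smul_eq_mul]
  ring

theorem int_le_Kf {f : ℝ → ℝ} (cf : Continuous f) {B : Set ℝ} (mB : MeasurableSet B)
    (hB : B ⊆ Ioc (-π) π) (c : ℝ) : ∫ θ in B, f θ ≤ Kf f c + c * volume.real B := by
  rw [cok_split cf hB c, cok_Kf]
  have hg : Continuous fun θ => max (f θ - c) 0 := (cf.sub continuous_const).max continuous_const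
  have hgi : IntegrableOn (fun θ => max (f θ - c) 0) (Ioc (-π) π) :=
    (hg.integrableOn_Icc (a := -π) (b := π)).mono_set Ioc_subset_Icc_self
  have hfi : IntegrableOn (fun θ => f θ - c) B :=
    ((cf.sub continuous_const).integrableOn_Icc (a := -π) (b := π)).mono_set
      (hB.trans Ioc_subset_Icc_self)
  have h1 : ∫ θ in B, (f θ - c) ≤ ∫ θ in B, max (f θ - c) 0 :=
    setIntegral_mono hfi (hgi.mono_set hB) fun θ => le_max_left _ _
  have h2 : ∫ θ in B, max (f θ - c) 0 ≤ ∫ θ in Ioc (-π) π, max (f θ - c) 0 :=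
    setIntegral_mono_set hgi (Eventually.of_forall fun θ => le_max_right _ _)
      (Eventually.of_forall hB)
  linarith

theorem int_lev {f : ℝ → ℝ} (cf : Continuous f) (c : ℝ) :
    ∫ θ in {θ : ℝ | θ ∈ Ioc (-π) π ∧ c < f θ}, f θ =
      Kf f c + c * volume.real {θ : ℝ | θ ∈ Ioc (-π) π ∧ c < f θ} := by
  have hB : {θ : ℝ | θ ∈ Ioc (-π) π ∧ c < f θ} ⊆ Ioc (-π) π := fun θ h => h.1
  have mB : MeasurableSet {θ : ℝ | θ ∈ Ioc (-π) π ∧ c < f θ} :=
    measurableSet_Ioc.inter (measurableSet_lt measurable_const cf.measurable)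
  rw [cok_split cf hB c, cok_Kf]
  congr 1
  have h1 : ∫ θ in {θ : ℝ | θ ∈ Ioc (-π) π ∧ c < f θ}, (f θ - c) =
      ∫ θ in {θ : ℝ | θ ∈ Ioc (-π) π ∧ c < f θ}, max (f θ - c) 0 := by
    refine setIntegral_congr_fun mB fun θ h => ?_
    have h2 : c < f θ := h.2
    exact (max_eq_left (by linarith)).symm
  rw [h1]
  refine (setIntegral_eq_of_subset_of_forall_sdiff_eq_zero measurableSet_Ioc hB ?_).symm
  intro θ h
  have h2 : ¬ c < f θ := fun h3 => h.2 ⟨h.1, h3⟩
  exact max_eq_right (by linarith)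

private theorem cok_phi {f : ℝ → ℝ} (cf : Continuous f) (c : ℝ) :
    volume.real {θ : ℝ | θ ∈ Ioc (-π) π ∧ c < f θ} =
      ∫ θ in Ioc (-π) π, (if c < f θ then (1 : ℝ) else 0) := by
  have mA : MeasurableSet {θ : ℝ | c < f θ} := measurableSet_lt measurable_const cf.measurable
  have h1 : (fun θ => if c < f θ then (1 : ℝ) else 0) =
      Set.indicator {θ : ℝ | c < f θ} (fun _ => (1 : ℝ)) := by
    funext θ
    by_cases h : c < f θ
    · rw [if_pos h, Set.indicator_of_mem (show θ ∈ {θ : ℝ | c < f θ} from h)]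
    · rw [if_neg h, Set.indicator_of_notMem (show θ ∉ {θ : ℝ | c < f θ} from h)]
  rw [h1, integral_indicator mA, setIntegral_const, smul_eq_mul, mul_one]
  rw [measureReal_restrict_apply mA, Set.inter_comm]
  rfl

private theorem cok_cont {f : ℝ → ℝ} (cf : Continuous f)
    (nul : ∀ c, volume {θ : ℝ | θ ∈ Ioc (-π) π ∧ f θ = c} = 0) :
    Continuous fun c : ℝ => volume.real {θ : ℝ | θ ∈ Ioc (-π) π ∧ c < f θ} := by
  have h0 : (fun c : ℝ => volume.real {θ : ℝ | θ ∈ Ioc (-π) π ∧ c < f θ}) =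
      fun c : ℝ => ∫ θ in Ioc (-π) π, (if c < f θ then (1 : ℝ) else 0) := by
    funext c
    exact cok_phi cf c
  rw [h0, continuous_iff_continuousAt]
  intro c0
  refine continuousAt_of_dominated (bound := fun _ => (1 : ℝ)) ?_ ?_ ?_ ?_
  · refine Eventually.of_forall fun c => ?_
    exact (Measurable.ite (measurableSet_lt measurable_const cf.measurable) measurable_const
      measurable_const).aestronglyMeasurable
  · refine Eventually.of_forall fun c => Eventually.of_forall fun θ => ?_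
    by_cases h : c < f θ
    · rw [if_pos h]; simp
    · rw [if_neg h]; simp
  · exact (continuous_const.integrableOn_Icc (a := -π) (b := π)).mono_set Ioc_subset_Icc_self
  · rw [ae_restrict_iff' measurableSet_Ioc]
    have h1 : ∀ᵐ θ ∂volume, ¬ (θ ∈ Ioc (-π) π ∧ f θ = c0) := by
      rw [ae_iff]
      simp only [not_not]
      exact nul c0
    filter_upwards [h1] with θ h2 h3
    have h4 : f θ ≠ c0 := fun h => h2 ⟨h3, h⟩
    rcases lt_or_gt_of_ne h4 with h5 | h5
    · -- f θ < c0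
      have h6 : ∀ᶠ c in 𝓝 c0, f θ < c := lt_mem_nhds h5
      have h7 : (fun c : ℝ => if c < f θ then (1 : ℝ) else 0) =ᶠ[𝓝 c0] fun _ => (0 : ℝ) := by
        filter_upwards [h6] with c h8
        rw [if_neg (not_lt.2 h8.le)]
      exact (continuousAt_const (y := (0 : ℝ))).congr h7.symm
    · have h6 : ∀ᶠ c in 𝓝 c0, c < f θ := gt_mem_nhds h5
      have h7 : (fun c : ℝ => if c < f θ then (1 : ℝ) else 0) =ᶠ[𝓝 c0] fun _ => (1 : ℝ) := by
        filter_upwards [h6] with c h8
        rw [if_pos h8]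
      exact (continuousAt_const (y := (1 : ℝ))).congr h7.symm

theorem lev_ex {f : ℝ → ℝ} (cf : Continuous f)
    (nul : ∀ c, volume {θ : ℝ | θ ∈ Ioc (-π) π ∧ f θ = c} = 0) {b : ℝ} (hb : 0 < b) (hb1 : b < π) :
    ∃ c, volume.real {θ : ℝ | θ ∈ Ioc (-π) π ∧ c < f θ} = 2 * b := by
  obtain ⟨m, hm⟩ := (isCompact_Icc (a := -π) (b := π)).exists_bound_of_continuousOn cf.continuousOn
  have hm' : ∀ θ ∈ Ioc (-π) π, |f θ| ≤ m := fun θ h => hm θ (Ioc_subset_Icc_self h)
  have hm0 : 0 ≤ m := by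
    have h1 := hm' π ⟨by linarith [Real.pi_pos], le_refl π⟩
    exact le_trans (abs_nonneg _) h1
  have hc := cok_cont cf nul
  have e1 : volume.real {θ : ℝ | θ ∈ Ioc (-π) π ∧ m + 1 < f θ} = 0 := by
    have h1 : {θ : ℝ | θ ∈ Ioc (-π) π ∧ m + 1 < f θ} = ∅ := by
      refine Set.eq_empty_iff_forall_notMem.2 fun θ h => ?_
      have h2 := abs_le.1 (hm' θ h.1)
      have h3 : m + 1 < f θ := h.2
      linarith [h2.2]
    rw [h1]
    simp
  have e2 : volume.real {θ : ℝ | θ ∈ Ioc (-π) π ∧ -(m + 1) < f θ} = 2 * π := by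
    have h1 : {θ : ℝ | θ ∈ Ioc (-π) π ∧ -(m + 1) < f θ} = Ioc (-π) π := by
      refine Set.Subset.antisymm (fun θ h => h.1) fun θ h => ⟨h, ?_⟩
      have h2 := abs_le.1 (hm' θ h)
      linarith [h2.1]
    rw [h1, Real.volume_real_Ioc_of_le (by linarith [Real.pi_pos])]
    ring
  have h3 := intermediate_value_Icc' (a := -(m + 1)) (b := m + 1) (by linarith) hc.continuousOn
  have h4 : 2 * b ∈ Icc (volume.real {θ : ℝ | θ ∈ Ioc (-π) π ∧ m + 1 < f θ})
      (volume.real {θ : ℝ | θ ∈ Ioc (-π) π ∧ -(m + 1) < f θ}) := by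
    rw [e1, e2]
    exact ⟨by linarith, by linarith⟩
  obtain ⟨c, _, hc2⟩ := h3 h4
  exact ⟨c, hc2⟩

theorem lev_in {f : ℝ → ℝ} {b c m : ℝ} (hb : 0 < b) (hb1 : b < π) (hm : ∀ θ, |f θ| ≤ m)
    (hc : volume.real {θ : ℝ | θ ∈ Ioc (-π) π ∧ c < f θ} = 2 * b) : c ∈ Icc (-m) m := by
  constructor
  · by_contra h
    push Not at h
    have h1 : {θ : ℝ | θ ∈ Ioc (-π) π ∧ c < f θ} = Ioc (-π) π := by
      refine Set.Subset.antisymm (fun θ h => h.1) fun θ h3 => ⟨h3, ?_⟩
      have h2 := abs_le.1 (hm θ)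
      linarith [h2.1]
    rw [h1, Real.volume_real_Ioc_of_le (by linarith [Real.pi_pos])] at hc
    linarith
  · by_contra h
    push Not at h
    have h1 : {θ : ℝ | θ ∈ Ioc (-π) π ∧ c < f θ} = ∅ := by
      refine Set.eq_empty_iff_forall_notMem.2 fun θ h3 => ?_
      have h2 := abs_le.1 (hm θ)
      have h4 : c < f θ := h3.2
      linarith [h2.2]
    rw [h1] at hc
    simp at hc
    linarith

end Pool.Agent.H36.SZ
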