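import Pool.Agent.H36.SZ.Reg
import Pool.Agent.H36.SZ.Bas
import Pool.Agent.H36.SZ.CoK

/-!
# The star function `us`

PROOFS. The set `(fun c => Kf (uk k F t) c + 2 b c) '' Icc (-m) m` is nonempty (`0 <= m`) and, the
function of `c` being continuous, compact, hence bounded below: `csInf_le`, `le_csInf`.
`us_cont`: the function `(p, c) -> Kf (uk k F |p.1|) c + 2 p.2 c` is continuous on `(ℝ × ℝ) × ℝ`:
`(p, c, θ) -> max (uk k F |p.1| θ - c) 0` is continuous (`An.cG` on `{q < exp t}`, which contains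
all `|t|` because `q < 1 <= exp |t|`), then
`intervalIntegral.continuous_parametric_intervalIntegral_of_continuous'`; now
`IsCompact.continuous_sInf` for the compact `Icc (-m) m`, and restrict to `p.1 >= 0`, where
`|p.1| = p.1`.
`us_zero`: for `c = m >= uk`: `Kf = 0`, so `us m t 0 <= 0`. `us_pi`: for `c = -m`:
`Kf (uk) (-m) = int (uk + m) = 2π m` since `int uk = 0` (`int_uk`: mean value: `F = z + sum_(n>=1)
b_n z^-n`, uniformly convergent on the circle `‖z‖ = e^t > q`, every term has mean zero,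
`b_0 = 0`; or Cauchy's theorem), and `2 π (-m)` cancels it.
-/

open Complex MeasureTheory Set Filter Topology
open scoped ComplexConjugate Real

namespace Pool.Agent.H36.SZ

variable {F : ℂ → ℂ} {b : ℕ → ℂ} {q : ℝ}

private lemma CoU_Kf_nonneg (f : ℝ → ℝ) (c : ℝ) : 0 ≤ Kf f c := by
  unfold Kf
  exact intervalIntegral.integral_nonneg (by linarith [Real.pi_pos]) fun θ _ => le_max_right _ _

theorem Sg.us_le (h : Sg F b q) (k : ℂ) {m t β c : ℝ} (ht : 0 ≤ t) (hc : c ∈ Icc (-m) m) :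
    us k F m t β ≤ Kf (uk k F t) c + 2 * β * c := by
  unfold us
  refine csInf_le ?_ ⟨c, hc, rfl⟩
  refine ⟨-(2 * |β| * m), ?_⟩
  rintro y ⟨d, hd, rfl⟩
  have h1 := CoU_Kf_nonneg (uk k F t) d
  have h2 : |d| ≤ m := abs_le.2 ⟨hd.1, hd.2⟩
  have h3 : -(|β| * |d|) ≤ β * d := by
    rw [← abs_mul]
    exact neg_abs_le _
  have h4 : |β| * |d| ≤ |β| * m := mul_le_mul_of_nonneg_left h2 (abs_nonneg _)
  change -(2 * |β| * m) ≤ Kf (uk k F t) d + 2 * β * d
  nlinarith

theorem le_us (k : ℂ) (F : ℂ → ℂ) {m t β X : ℝ} (hm : 0 ≤ m)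
    (hX : ∀ c ∈ Icc (-m) m, X ≤ Kf (uk k F t) c + 2 * β * c) : X ≤ us k F m t β := by
  unfold us
  refine le_csInf ((nonempty_Icc.2 (by linarith)).image _) ?_
  rintro y ⟨c, hc, rfl⟩
  exact hX c hc

private lemma CoU_exp (h : Sg F b q) {t : ℝ} (ht : 0 ≤ t) : q < Real.exp t :=
  lt_of_lt_of_le h.q1 (Real.one_le_exp ht)

private lemma CoU_cu (h : Sg F b q) (k : ℂ) {t : ℝ} (ht : 0 ≤ t) : Continuous (uk k F t) := by
  have h1 : Continuous (G F t) := h.an.cGt (CoU_exp h ht)
  unfold uk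
  exact Complex.continuous_re.comp (continuous_const.mul h1)

theorem Sg.us_cont (h : Sg F b q) (k : ℂ) (m : ℝ) :
    ContinuousOn (fun p : ℝ × ℝ => us k F m p.1 p.2) (Ici 0 ×ˢ univ) := by
  have h1 : Continuous fun x : ((ℝ × ℝ) × ℝ) × ℝ => G F |x.1.1.1| x.2 := by
    have h2 : Continuous fun x : ((ℝ × ℝ) × ℝ) × ℝ => (|x.1.1.1|, x.2) := by
      refine Continuous.prodMk ?_ continuous_snd
      exact (continuous_fst.comp (continuous_fst.comp continuous_fst)).abs
    exact h.an.cG.comp_continuous h2 fun x => CoU_exp h (abs_nonneg _)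
  have h3 : Continuous fun x : ((ℝ × ℝ) × ℝ) × ℝ => max (uk k F |x.1.1.1| x.2 - x.1.2) 0 := by
    unfold uk
    exact ((Complex.continuous_re.comp (continuous_const.mul h1)).sub
      (continuous_snd.comp continuous_fst)).max continuous_const
  have h4 : Continuous fun x : (ℝ × ℝ) × ℝ => Kf (uk k F |x.1.1|) x.2 := by
    unfold Kf
    exact intervalIntegral.continuous_parametric_intervalIntegral_of_continuous' h3 _ _
  have h5 : Continuous
      ↿(fun (p : ℝ × ℝ) (c : ℝ) => Kf (uk k F |p.1|) c + 2 * p.2 * c) := by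
    refine h4.add ?_
    exact (continuous_const.mul (continuous_snd.comp continuous_fst)).mul continuous_snd
  have h6 := IsCompact.continuous_sInf (isCompact_Icc (a := -m) (b := m)) h5
  refine h6.continuousOn.congr ?_
  rintro ⟨t, β⟩ ⟨ht, -⟩
  have ht' : (0 : ℝ) ≤ t := ht
  change us k F m t β = sInf ((fun c : ℝ => Kf (uk k F |t|) c + 2 * β * c) '' Icc (-m) m)
  rw [abs_of_nonneg ht']
  rfl

private lemma CoU_int_exp (t : ℝ) {n : ℕ} (hn : n ≠ 0) :
    ∫ θ in (-π)..π, (exp (t + θ * I))⁻¹ ^ n = 0 := by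
  have hc : (-(n : ℂ) * I) ≠ 0 :=
    mul_ne_zero (neg_ne_zero.2 (Nat.cast_ne_zero.2 hn)) I_ne_zero
  have h1 : (fun θ : ℝ => (exp ((t : ℂ) + θ * I))⁻¹ ^ n) =
      fun θ : ℝ => exp (-(n : ℂ) * t) * exp ((-(n : ℂ) * I) * θ) := by
    funext θ
    rw [← Complex.exp_neg, ← Complex.exp_nat_mul, ← Complex.exp_add]
    congr 1
    ring
  rw [h1, intervalIntegral.integral_const_mul, integral_exp_mul_complex hc]
  have h2 : exp ((-(n : ℂ) * I) * (π : ℝ)) = exp ((-(n : ℂ) * I) * ((-π : ℝ) : ℂ)) := by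
    rw [Complex.exp_eq_exp_iff_exists_int]
    refine ⟨-(n : ℤ), ?_⟩
    push_cast
    ring
  rw [h2, sub_self, zero_div, mul_zero]

private lemma CoU_int_exp1 (t : ℝ) : ∫ θ in (-π)..π, exp ((t : ℂ) + (θ : ℝ) * I) = 0 := by
  have h1 : (fun θ : ℝ => exp ((t : ℂ) + θ * I)) =
      fun θ : ℝ => exp (t : ℂ) * exp (I * θ) := by
    funext θ
    rw [← Complex.exp_add]
    congr 1
    ring
  rw [h1, intervalIntegral.integral_const_mul, integral_exp_mul_complex I_ne_zero]
  have h2 : exp (I * (π : ℝ)) = exp (I * ((-π : ℝ) : ℂ)) := by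
    rw [Complex.exp_eq_exp_iff_exists_int]
    refine ⟨1, ?_⟩
    push_cast
    ring
  rw [h2, sub_self, zero_div, mul_zero]

private lemma CoU_int_G (h : Sg F b q) {t : ℝ} (ht : 0 ≤ t) :
    ∫ θ in (-π)..π, G F t θ = 0 := by
  have hq := CoU_exp h ht
  have hnz : ∀ θ : ℝ, ‖exp ((t : ℂ) + θ * I)‖ = Real.exp t := by
    intro θ
    rw [Complex.norm_exp]
    simp
  have hs : Summable fun n : ℕ => ‖b n‖ := by
    have h1 := (h.hasSum 1 (by rw [norm_one]; exact h.q1)).summable.norm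
    simpa using h1
  have h2 : HasSum (fun n : ℕ => ∫ θ in (-π)..π, b n * (exp ((t : ℂ) + (θ : ℝ) * I))⁻¹ ^ n)
      (∫ θ in (-π)..π, (G F t θ - exp ((t : ℂ) + (θ : ℝ) * I))) := by
    refine intervalIntegral.hasSum_integral_of_dominated_convergence
      (fun n _ => ‖b n‖) ?_ ?_ ?_ ?_ ?_
    · intro n
      have h3 : Continuous fun θ : ℝ => b n * (exp ((t : ℂ) + θ * I))⁻¹ ^ n := by
        refine continuous_const.mul (Continuous.pow (Continuous.inv₀ ?_ ?_) n)
        · fun_prop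
        · intro θ
          exact Complex.exp_ne_zero _
      exact h3.aestronglyMeasurable
    · intro n
      refine Eventually.of_forall fun θ _ => ?_
      rw [norm_mul, norm_pow, norm_inv, hnz]
      have h4 : (Real.exp t)⁻¹ ≤ 1 := inv_le_one_of_one_le₀ (Real.one_le_exp ht)
      have h5 : ((Real.exp t)⁻¹) ^ n ≤ 1 := pow_le_one₀ (by positivity) h4
      exact mul_le_of_le_one_right (norm_nonneg _) h5
    · exact Eventually.of_forall fun θ _ => hs
    · exact intervalIntegrable_const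
    · refine Eventually.of_forall fun θ _ => ?_
      exact h.hasSum _ (by rw [hnz]; exact hq)
  have h6 : (fun n : ℕ => ∫ θ in (-π)..π, b n * (exp ((t : ℂ) + (θ : ℝ) * I))⁻¹ ^ n) =
      fun _ => 0 := by
    funext n
    rw [intervalIntegral.integral_const_mul]
    rcases Nat.eq_zero_or_pos n with h7 | h7
    · subst h7
      rw [h.b0, zero_mul]
    · rw [CoU_int_exp t h7.ne', mul_zero]
  rw [h6] at h2
  have h8 := h2.unique hasSum_zero
  have hcG : Continuous (G F t) := h.an.cGt hq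
  have hcE : Continuous fun θ : ℝ => exp ((t : ℂ) + θ * I) := by fun_prop
  rw [intervalIntegral.integral_sub (hcG.intervalIntegrable _ _) (hcE.intervalIntegrable _ _),
    CoU_int_exp1, sub_zero] at h8
  exact h8

theorem Sg.int_uk (h : Sg F b q) (k : ℂ) {t : ℝ} (ht : 0 ≤ t) :
    ∫ θ in (-π)..π, uk k F t θ = 0 := by
  have hcG : Continuous (G F t) := h.an.cGt (CoU_exp h ht)
  have hc2 : Continuous fun θ => k * G F t θ := continuous_const.mul hcG
  have h1 := Complex.reCLM.intervalIntegral_comp_comm (μ := volume) (a := -π) (b := π)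
    (f := fun θ => k * G F t θ) (hc2.intervalIntegrable _ _)
  have h2 : ∫ θ in (-π)..π, k * G F t θ = 0 := by
    rw [intervalIntegral.integral_const_mul, CoU_int_G h ht, mul_zero]
  rw [h2, map_zero] at h1
  exact h1

theorem Sg.us_zero (h : Sg F b q) (k : ℂ) {m t : ℝ} (ht : 0 ≤ t) (hm : ∀ θ, |uk k F t θ| ≤ m) :
    us k F m t 0 ≤ 0 := by
  have hm0 : 0 ≤ m := le_trans (abs_nonneg _) (hm 0)
  have h1 := h.us_le k (β := 0) ht (c := m) ⟨by linarith, le_refl m⟩
  have h2 : Kf (uk k F t) m = 0 := by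
    unfold Kf
    have h3 : (fun θ => max (uk k F t θ - m) 0) = fun _ => (0 : ℝ) := by
      funext θ
      have h4 := (abs_le.1 (hm θ)).2
      exact max_eq_right (by linarith)
    rw [h3, intervalIntegral.integral_zero]
  rw [h2] at h1
  linarith

theorem Sg.us_pi (h : Sg F b q) (k : ℂ) {m t : ℝ} (ht : 0 ≤ t) (hm : ∀ θ, |uk k F t θ| ≤ m) :
    us k F m t π ≤ 0 := by
  have hm0 : 0 ≤ m := le_trans (abs_nonneg _) (hm 0)
  have h1 := h.us_le k (β := π) ht (c := -m) ⟨le_refl _, by linarith⟩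
  have h2 : Kf (uk k F t) (-m) = 2 * π * m := by
    unfold Kf
    have h3 : (fun θ => max (uk k F t θ - -m) 0) = fun θ => uk k F t θ + m := by
      funext θ
      have h4 := (abs_le.1 (hm θ)).1
      rw [sub_neg_eq_add]
      exact max_eq_left (by linarith)
    rw [h3, intervalIntegral.integral_add ((CoU_cu h k ht).intervalIntegrable _ _)
      intervalIntegrable_const, h.int_uk k ht, intervalIntegral.integral_const, smul_eq_mul]
    ring
  rw [h2] at h1
  linarith

end Pool.Agent.H36.SZ
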