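import Pool.Agent.H36.SZ.Defs

/-!
# An upward crossing of a level

PROOF. Adding a multiple of `2π` to `θ2` we may assume `θ1 < θ2`. Let
`α = sSup {θ ∈ Icc θ1 θ2 | f θ < c}`. By continuity `f α <= c`, so `α < θ2`, and `f >= c` on
`(α, θ2]`, so `f α = c`. `f - c` is analytic at `α` and not locally zero (otherwise `f = c`
everywhere by the identity theorem `AnalyticOnNhd.eqOn_of_preconnected_of_eventuallyEq`, against
`f θ1 < c`); so `f ≠ c` on `(α-e, α) ∪ (α, α+e)` for some `e > 0` with `α + e <= θ2`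
(`AnalyticAt.eventually_eq_zero_or_eventually_ne_zero`). On `(α, α+e)`: `f >= c`, `f ≠ c`. On
`(α-e, α)`: there is a point with `f < c` (definition of `α`, and `f α = c` shows that `α` itself is
not in the set), and `f` does not take the value `c` there: by the intermediate value theorem
`f < c` on the whole interval.
-/

open MeasureTheory Set Filter Topology
open scoped Real

namespace Pool.Agent.H36.SZ

theorem cross {f : ℝ → ℝ} (af : AnalyticOnNhd ℝ f univ) (per : Function.Periodic f (2 * π))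
    {c θ1 θ2 : ℝ} (h1 : f θ1 < c) (h2 : c < f θ2) :
    ∃ α e : ℝ, 0 < e ∧ (∀ θ ∈ Ioo (α - e) α, f θ < c) ∧ (∀ θ ∈ Ioo α (α + e), c < f θ) := by
  have hcont : Continuous f := continuousOn_univ.mp af.continuousOn
  -- move `θ2` to the right of `θ1`
  obtain ⟨b, hb1, hb2⟩ : ∃ b : ℝ, θ1 < b ∧ c < f b := by
    obtain ⟨k, hk⟩ := exists_nat_gt ((θ1 - θ2) / (2 * π))
    refine ⟨θ2 + k * (2 * π), ?_, ?_⟩
    · rw [div_lt_iff₀ Real.two_pi_pos] at hk
      linarith
    · rw [(per.nat_mul k) θ2]
      exact h2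
  set A : Set ℝ := {θ | θ ∈ Icc θ1 b ∧ f θ < c} with hA
  have hA1 : θ1 ∈ A := ⟨⟨le_refl _, hb1.le⟩, h1⟩
  have hAb : BddAbove A := ⟨b, fun θ hθ => hθ.1.2⟩
  have hAne : A.Nonempty := ⟨θ1, hA1⟩
  obtain ⟨α, hα⟩ : ∃ α, α = sSup A := ⟨_, rfl⟩
  have hle : f α ≤ c := by
    have h3 : α ∈ closure A := by
      rw [hα]
      exact csSup_mem_closure hAne hAb
    have h4 : closure A ⊆ {θ | f θ ≤ c} := by
      apply closure_minimal
      · intro θ hθ
        exact hθ.2.le
      · exact isClosed_le hcont continuous_const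
    exact h4 h3
  have hα1 : θ1 ≤ α := by
    rw [hα]
    exact le_csSup hAb hA1
  have hα2' : α ≤ b := by
    rw [hα]
    exact csSup_le hAne (fun θ hθ => hθ.1.2)
  have hα2 : α < b := by
    rcases lt_or_eq_of_le hα2' with h | h
    · exact h
    · rw [h] at hle
      exact absurd hb2 (not_lt.mpr hle)
  have hge : ∀ θ, α < θ → θ ≤ b → c ≤ f θ := by
    intro θ hθ1 hθ2
    by_contra hh
    have h3 : θ ∈ A := ⟨⟨hα1.trans hθ1.le, hθ2⟩, not_le.mp hh⟩
    have h4 : θ ≤ α := by
      rw [hα]
      exact le_csSup hAb h3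
    linarith
  have hfα : f α = c := by
    apply le_antisymm hle
    have h3 : α ∈ closure (Ioc α b) := by
      rw [closure_Ioc (ne_of_lt hα2)]
      exact ⟨le_refl _, hα2.le⟩
    have h4 : closure (Ioc α b) ⊆ {θ | c ≤ f θ} := by
      apply closure_minimal
      · intro θ hθ
        exact hge θ hθ.1 hθ.2
      · exact isClosed_le continuous_const hcont
    exact h4 h3
  have han : AnalyticOnNhd ℝ (fun θ => f θ - c) univ := af.sub analyticOnNhd_const
  have hne : ∀ᶠ z in 𝓝[≠] α, f z - c ≠ 0 := by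
    rcases (han α (mem_univ _)).eventually_eq_zero_or_eventually_ne_zero with h | h
    · exfalso
      have h3 : EqOn (fun θ => f θ - c) (fun _ => (0 : ℝ)) univ :=
        han.eqOn_of_preconnected_of_eventuallyEq analyticOnNhd_const isPreconnected_univ
          (mem_univ α) h
      have h4 : f θ1 - c = 0 := h3 (mem_univ θ1)
      linarith
    · exact h
  rw [eventually_nhdsWithin_iff, Metric.eventually_nhds_iff] at hne
  obtain ⟨ε, hε, hεn⟩ := hne
  have hn : ∀ z, α - min ε (b - α) < z → z < α + min ε (b - α) → z ≠ α → f z ≠ c := by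
    intro z hz1 hz2 hz3 hz4
    have h3 : dist z α < ε := by
      rw [Real.dist_eq, abs_lt]
      constructor
      · linarith [min_le_left ε (b - α)]
      · linarith [min_le_left ε (b - α)]
    exact hεn h3 hz3 (by rw [hz4]; ring)
  have hepos : 0 < min ε (b - α) := lt_min hε (by linarith)
  refine ⟨α, min ε (b - α), hepos, ?_, ?_⟩
  · intro z hz
    obtain ⟨β, hβA, hβ⟩ := exists_lt_of_lt_csSup hAne
      (show α - min ε (b - α) < sSup A by rw [← hα]; linarith)
    have hβ2 : β ≤ α := by
      rw [hα]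
      exact le_csSup hAb hβA
    have hβ3 : β < α := by
      rcases lt_or_eq_of_le hβ2 with h | h
      · exact h
      · have := hβA.2
        rw [h, hfα] at this
        exact absurd this (lt_irrefl _)
    by_contra hh
    have h3 : c ∈ uIcc (f β) (f z) := by
      rw [uIcc_of_le (hβA.2.le.trans (not_lt.mp hh))]
      exact ⟨hβA.2.le, not_lt.mp hh⟩
    obtain ⟨w, hw, hwc⟩ := intermediate_value_uIcc (hcont.continuousOn) h3
    rw [mem_uIcc] at hw
    have h4 : α - min ε (b - α) < w ∧ w < α := by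
      rcases hw with h | h
      · exact ⟨by linarith [h.1], by linarith [h.2, hz.2]⟩
      · exact ⟨by linarith [h.1, hz.1], by linarith [h.2]⟩
    exact hn w h4.1 (by linarith) (ne_of_lt h4.2) hwc
  · intro z hz
    have h3 : c ≤ f z := hge z hz.1 (by linarith [hz.2, min_le_right ε (b - α)])
    exact lt_of_le_of_ne h3 (Ne.symm (hn z (by linarith [hz.1]) hz.2 (ne_of_gt hz.1)))

end Pool.Agent.H36.SZ
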