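import Pool.Agent.H36.SZ.Reg
import Pool.Agent.H36.SZ.Bas

/-!
# Level sets

PROOFS. For fixed `t` with `q < e^t` the function `θ -> G F t θ = F (exp (t + iθ))` is real
analytic on `ℝ` (composition of the complex analytic `F ∘ exp` near the line with
`θ -> t + iθ`; `AnalyticAt.restrictScalars`, `AnalyticAt.comp`), so its real and imaginary part,
`yy F t`, `uk k F t` are real analytic (`AnalyticOnNhd ℝ _ univ`).
`ana_lv`: if the level set `{f = c}` in `Ioc (-π) π` has positive measure it is infinite, so has an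
accumulation point in the compact `Icc (-π) π`, where `f - c` vanishes frequently; by
`AnalyticAt.frequently_zero_iff_eventually_zero` and the identity theorem
(`AnalyticOnNhd.eqOn_of_preconnected_of_frequently_eq`), `f = c` everywhere.
`J_lv`: `yy J t 0 = 4 cosh^2 t`, `yy J t (π/2) = 4 sinh^2 t` are different, so `yy J t` is not
constant.
`Sg.ulv`: if `Re (k F (exp (t+iθ))) = c` for all `θ`: integrate against `exp (-iθ)`: with the
uniformly convergent expansion `F = z + sum b_n z^(-n)` (`t >= 0`, `q < 1`), the coefficient of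
`exp (iθ)` of `Re (k F)` is `(k e^t + conj (k b_1) e^(-t)) / 2`, which must be `0`, so
`|b_1| = e^(2t) >= 1`, contradicting `Sg.b1`. (Alternative without series: `k F ∘ exp` has constant
real part on a vertical line, so `G1 = 0`... is not enough; use the series.)
-/

open Complex MeasureTheory Set Filter Topology
open scoped ComplexConjugate Real

namespace Pool.Agent.H36.SZ

variable {F : ℂ → ℂ} {b : ℕ → ℂ} {q : ℝ}

private theorem lv_norm (t θ : ℝ) : ‖exp ((t : ℂ) + θ * I)‖ = Real.exp t := by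
  rw [Complex.norm_exp]
  simp

private theorem lv_line (t : ℝ) (θ : ℝ) :
    AnalyticAt ℝ (fun θ : ℝ => (t : ℂ) + θ * I) θ := by
  have h1 : AnalyticAt ℝ (fun θ : ℝ => (θ : ℂ)) θ := Complex.ofRealCLM.analyticAt θ
  exact analyticAt_const.add (h1.mul analyticAt_const)

theorem An.ana_G (h : An F q) {t : ℝ} (ht : q < Real.exp t) :
    AnalyticOnNhd ℝ (fun θ => G F t θ) univ := by
  intro θ _
  have hopen : IsOpen {z : ℂ | q < ‖z‖} := isOpen_lt continuous_const continuous_norm
  have hz : exp ((t : ℂ) + θ * I) ∈ {z : ℂ | q < ‖z‖} := by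
    show q < ‖exp ((t : ℂ) + θ * I)‖
    rw [lv_norm]
    exact ht
  have h1 : AnalyticAt ℂ F (exp ((t : ℂ) + θ * I)) :=
    h.diff.analyticAt (hopen.mem_nhds hz)
  have h2 : AnalyticAt ℂ (fun w : ℂ => F (exp w)) ((t : ℂ) + θ * I) :=
    AnalyticAt.fun_comp h1 analyticAt_cexp
  have h3 : AnalyticAt ℝ (fun w : ℂ => F (exp w)) ((t : ℂ) + θ * I) := h2.restrictScalars
  exact AnalyticAt.fun_comp (f := fun θ : ℝ => (t : ℂ) + θ * I) h3 (lv_line t θ)

theorem An.ana_uk (h : An F q) {t : ℝ} (ht : q < Real.exp t) (k : ℂ) :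
    AnalyticOnNhd ℝ (uk k F t) univ := by
  intro θ _
  have h1 : AnalyticAt ℝ (fun θ : ℝ => k * G F t θ) θ :=
    analyticAt_const.mul (h.ana_G ht θ (mem_univ _))
  exact AnalyticAt.fun_comp (f := fun θ : ℝ => k * G F t θ) (Complex.reCLM.analyticAt _) h1

theorem ana_lv {f : ℝ → ℝ} (hf : AnalyticOnNhd ℝ f univ) (c : ℝ) :
    volume {θ : ℝ | θ ∈ Ioc (-π) π ∧ f θ = c} = 0 ∨ ∀ θ, f θ = c := by
  by_cases hfin : {θ : ℝ | θ ∈ Ioc (-π) π ∧ f θ = c}.Finite
  · left
    exact hfin.measure_zero _
  · right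
    have hinf : {θ : ℝ | θ ∈ Ioc (-π) π ∧ f θ = c}.Infinite := hfin
    obtain ⟨x, -, hx⟩ := hinf.exists_accPt_of_subset_isCompact (K := Icc (-π) π) isCompact_Icc
      (fun θ hθ => Ioc_subset_Icc_self hθ.1)
    rw [accPt_iff_frequently] at hx
    have hx' : ∃ᶠ y in 𝓝[≠] x, f y = (fun _ => c) y := by
      rw [frequently_nhdsWithin_iff]
      refine hx.mono ?_
      rintro y ⟨hy1, hy2⟩
      exact ⟨hy2.2, hy1⟩
    have := hf.eqOn_of_preconnected_of_frequently_eq (g := fun _ => c)
      (fun _ _ => analyticAt_const) isPreconnected_univ (mem_univ x) hx'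
    intro θ
    exact this (mem_univ θ)

theorem An.lv (h : An F q) {t : ℝ} (ht : q < Real.exp t) (x : ℝ) :
    volume {θ : ℝ | θ ∈ Ioc (-π) π ∧ yy F t θ = x} = 0 ∨ ∀ θ, yy F t θ = x := by
  apply ana_lv
  intro θ _
  have h1 := h.ana_G ht θ (mem_univ _)
  have hre : AnalyticAt ℝ (fun θ : ℝ => (G F t θ).re) θ :=
    AnalyticAt.fun_comp (f := fun θ : ℝ => G F t θ) (Complex.reCLM.analyticAt _) h1
  have him : AnalyticAt ℝ (fun θ : ℝ => (G F t θ).im) θ :=
    AnalyticAt.fun_comp (f := fun θ : ℝ => G F t θ) (Complex.imCLM.analyticAt _) h1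
  have h2 : AnalyticAt ℝ (fun θ : ℝ => (G F t θ).re * (G F t θ).re +
      (G F t θ).im * (G F t θ).im) θ := (hre.mul hre).add (him.mul him)
  refine h2.congr (Filter.Eventually.of_forall fun s => ?_)
  show _ = ‖G F t s‖ ^ 2
  rw [Complex.sq_norm, Complex.normSq_apply]

theorem J_lv (t x : ℝ) : volume {θ : ℝ | θ ∈ Ioc (-π) π ∧ yy J t θ = x} = 0 := by
  rcases an_J.lv (Real.exp_pos t) x with h | h
  · exact h
  · exfalso
    have h0 := h 0
    have h1 := h (π / 2)
    have e0 : yy J t 0 = 4 * Real.cosh t ^ 2 := by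
      have : G J t 0 = ((2 * Real.cosh t : ℝ) : ℂ) := by
        unfold G J
        rw [Real.cosh_eq]
        push_cast
        rw [← Complex.exp_neg]
        simp
        ring
      unfold yy
      rw [this, Complex.norm_real, Real.norm_eq_abs, sq_abs]
      ring
    have e1 : yy J t (π / 2) = 4 * Real.sinh t ^ 2 := by
      have : G J t (π / 2) = ((2 * Real.sinh t : ℝ) : ℂ) * I := by
        unfold G J
        rw [Real.sinh_eq]
        push_cast
        rw [← Complex.exp_neg]
        have h3 : -((t : ℂ) + (π / 2 : ℂ) * I) = -t + (-(π / 2) * I) := by ring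
        have h5 : exp (-((π : ℂ) / 2) * I) = -I := by
          rw [neg_mul, Complex.exp_neg, Complex.exp_pi_div_two_mul_I]
          simp
        rw [h3, Complex.exp_add, Complex.exp_add, Complex.exp_pi_div_two_mul_I, h5]
        ring
      unfold yy
      rw [this, norm_mul, Complex.norm_I, mul_one, Complex.norm_real, Real.norm_eq_abs, sq_abs]
      ring
    have := Real.cosh_sq t
    rw [e0] at h0
    rw [e1] at h1
    nlinarith

private theorem lv_int (j : ℤ) :
    ∫ θ in (-π)..π, exp ((j : ℂ) * I * θ) = if j = 0 then 2 * (π : ℂ) else 0 := by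
  split_ifs with hj
  · subst hj
    simp
    ring
  · have hc : (j : ℂ) * I ≠ 0 := mul_ne_zero (by exact_mod_cast hj) I_ne_zero
    rw [integral_exp_mul_complex hc, div_eq_zero_iff]
    left
    rw [sub_eq_zero, Complex.exp_eq_exp_iff_exists_int]
    refine ⟨j, ?_⟩
    push_cast
    ring

private theorem lv_cn (t θ : ℝ) (n : ℕ) :
    (exp ((t : ℂ) + θ * I))⁻¹ ^ n = (Real.exp (-t) : ℂ) ^ n * exp (((-(n : ℤ) : ℤ) : ℂ) * I * θ) := by
  rw [← Complex.exp_neg, ← Complex.exp_nat_mul]
  push_cast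
  rw [← Complex.exp_nat_mul, ← Complex.exp_add]
  congr 1
  ring

private theorem lv_coef (h : Sg F b q) {t : ℝ} (ht : 0 ≤ t) (m : ℤ) :
    ∫ θ in (-π)..π, G F t θ * exp ((m : ℂ) * I * θ) =
      (if m = -1 then 2 * (π : ℂ) * Real.exp t else 0) +
      ∑' n : ℕ, if m = n then 2 * (π : ℂ) * (b n * (Real.exp (-t) : ℂ) ^ n) else 0 := by
  have hq : q < Real.exp t := lt_of_lt_of_le h.q1 (Real.one_le_exp ht)
  have hsum : Summable (fun n : ℕ => ‖b n‖ * Real.exp (-t) ^ n) := by
    have h1 := (h.hasSum (exp ((t : ℂ) + (0 : ℝ) * I)) (by rw [lv_norm]; exact hq)).summable.norm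
    refine h1.congr fun n => ?_
    rw [norm_mul, norm_pow, norm_inv, lv_norm, Real.exp_neg]
  have hmain : HasSum (fun n : ℕ => ∫ θ in (-π)..π,
      (b n * (exp ((t : ℂ) + θ * I))⁻¹ ^ n) * exp ((m : ℂ) * I * θ))
      (∫ θ in (-π)..π, (G F t θ - exp ((t : ℂ) + θ * I)) * exp ((m : ℂ) * I * θ)) := by
    apply intervalIntegral.hasSum_integral_of_dominated_convergence
      (fun n _ => ‖b n‖ * Real.exp (-t) ^ n)
    · intro n
      apply Continuous.aestronglyMeasurable
      apply Continuous.mul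
      · apply continuous_const.mul
        apply Continuous.pow
        apply Continuous.inv₀
        · fun_prop
        · intro θ
          exact Complex.exp_ne_zero _
      · fun_prop
    · intro n
      refine Filter.Eventually.of_forall fun θ _ => ?_
      rw [norm_mul, norm_mul, norm_pow, norm_inv, lv_norm]
      have : ‖exp ((m : ℂ) * I * θ)‖ = 1 := by
        have : (m : ℂ) * I * θ = ((m * θ : ℝ) : ℂ) * I := by push_cast; ring
        rw [this, Complex.norm_exp_ofReal_mul_I]
      rw [this, mul_one, Real.exp_neg]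
    · exact Filter.Eventually.of_forall fun θ _ => hsum
    · exact intervalIntegrable_const
    · refine Filter.Eventually.of_forall fun θ _ => ?_
      apply HasSum.mul_right
      exact h.hasSum _ (by rw [lv_norm]; exact hq)
  have hterm : ∀ n : ℕ, (∫ θ in (-π)..π,
      (b n * (exp ((t : ℂ) + θ * I))⁻¹ ^ n) * exp ((m : ℂ) * I * θ)) =
      if m = n then 2 * (π : ℂ) * (b n * (Real.exp (-t) : ℂ) ^ n) else 0 := by
    intro n
    have h1 : (fun θ : ℝ => (b n * (exp ((t : ℂ) + θ * I))⁻¹ ^ n) * exp ((m : ℂ) * I * θ)) =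
        fun θ : ℝ => (b n * (Real.exp (-t) : ℂ) ^ n) * exp (((m - n : ℤ) : ℂ) * I * θ) := by
      funext θ
      rw [lv_cn]
      have h2 : exp (((m - n : ℤ) : ℂ) * I * θ) =
          exp (((-(n : ℤ) : ℤ) : ℂ) * I * θ) * exp ((m : ℂ) * I * θ) := by
        rw [← Complex.exp_add]
        congr 1
        push_cast
        ring
      rw [h2]
      ring
    rw [h1, intervalIntegral.integral_const_mul, lv_int]
    by_cases hm : m = n
    · simp [hm]
      ring
    · rw [if_neg hm, if_neg (by omega), mul_zero]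
  have hlead : ∫ θ in (-π)..π, exp ((t : ℂ) + θ * I) * exp ((m : ℂ) * I * θ) =
      if m = -1 then 2 * (π : ℂ) * Real.exp t else 0 := by
    have h1 : (fun θ : ℝ => exp ((t : ℂ) + θ * I) * exp ((m : ℂ) * I * θ)) =
        fun θ : ℝ => (Real.exp t : ℂ) * exp (((m + 1 : ℤ) : ℂ) * I * θ) := by
      funext θ
      push_cast
      rw [← Complex.exp_add, ← Complex.exp_add]
      congr 1
      ring
    rw [h1, intervalIntegral.integral_const_mul, lv_int]
    by_cases hm : m = -1
    · rw [if_pos hm, if_pos (by omega)]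
      ring
    · rw [if_neg hm, if_neg (by omega), mul_zero]
  have hcG : Continuous (G F t) := h.an.cGt hq
  have hsub : (∫ θ in (-π)..π, (G F t θ - exp ((t : ℂ) + θ * I)) * exp ((m : ℂ) * I * θ)) =
      (∫ θ in (-π)..π, G F t θ * exp ((m : ℂ) * I * θ)) -
      ∫ θ in (-π)..π, exp ((t : ℂ) + θ * I) * exp ((m : ℂ) * I * θ) := by
    rw [← intervalIntegral.integral_sub]
    · congr 1
      funext θ
      ring
    · apply Continuous.intervalIntegrable
      exact hcG.mul (by fun_prop)
    · apply Continuous.intervalIntegrable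
      fun_prop
  have h3 := hmain.tsum_eq
  rw [hsub, hlead] at h3
  simp_rw [hterm] at h3
  rw [h3]
  ring

theorem Sg.ulv (h : Sg F b q) {t : ℝ} (ht : 0 ≤ t) {k : ℂ} (hk : ‖k‖ = 1) (c : ℝ) :
    volume {θ : ℝ | θ ∈ Ioc (-π) π ∧ uk k F t θ = c} = 0 := by
  have hq : q < Real.exp t := lt_of_lt_of_le h.q1 (Real.one_le_exp ht)
  rcases ana_lv (h.an.ana_uk hq k) c with h1 | h1
  · exact h1
  exfalso
  have hcG : Continuous (G F t) := h.an.cGt hq
  have hA := lv_coef h ht (-1)
  have hB := lv_coef h ht 1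
  rw [if_pos rfl] at hA
  rw [if_neg (by norm_num)] at hB
  have hA0 : (∑' n : ℕ, if ((-1 : ℤ)) = n then 2 * (π : ℂ) * (b n * (Real.exp (-t) : ℂ) ^ n)
      else 0) = 0 := by
    rw [tsum_congr (g := fun _ : ℕ => (0 : ℂ)) (fun n => if_neg (by omega)), tsum_zero]
  have hB0 : (∑' n : ℕ, if ((1 : ℤ)) = n then 2 * (π : ℂ) * (b n * (Real.exp (-t) : ℂ) ^ n)
      else 0) = 2 * (π : ℂ) * (b 1 * (Real.exp (-t) : ℂ) ^ 1) := by
    rw [tsum_eq_single 1]
    · simp
    · intro n hn
      rw [if_neg (by omega)]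
  rw [hA0, add_zero] at hA
  rw [hB0, zero_add, pow_one] at hB
  -- the relation k G + conj (k G) = 2 c
  have hrel : ∀ θ : ℝ, k * G F t θ + conj (k * G F t θ) = 2 * (c : ℂ) := by
    intro θ
    rw [Complex.add_conj]
    have := h1 θ
    unfold uk at this
    rw [this]
    push_cast
    ring
  have hI : ∫ θ in (-π)..π, (k * G F t θ + conj (k * G F t θ)) * exp (((-1 : ℤ) : ℂ) * I * θ) = 0 := by
    simp_rw [hrel]
    rw [intervalIntegral.integral_const_mul, lv_int]
    simp
  have hI2 : (∫ θ in (-π)..π, (k * G F t θ + conj (k * G F t θ)) * exp (((-1 : ℤ) : ℂ) * I * θ)) =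
      k * (∫ θ in (-π)..π, G F t θ * exp (((-1 : ℤ) : ℂ) * I * θ)) +
      conj (k * ∫ θ in (-π)..π, G F t θ * exp (((1 : ℤ) : ℂ) * I * θ)) := by
    rw [← intervalIntegral.integral_const_mul, ← intervalIntegral.integral_const_mul]
    have hconj : conj (∫ θ in (-π)..π, k * (G F t θ * exp (((1 : ℤ) : ℂ) * I * θ))) =
        ∫ θ in (-π)..π, conj (k * (G F t θ * exp (((1 : ℤ) : ℂ) * I * θ))) := by
      rw [intervalIntegral.integral_of_le (by linarith [Real.pi_pos]),
        intervalIntegral.integral_of_le (by linarith [Real.pi_pos]), integral_conj]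
    rw [hconj, ← intervalIntegral.integral_add]
    · congr 1
      funext θ
      have : conj (exp (((1 : ℤ) : ℂ) * I * θ)) = exp (((-1 : ℤ) : ℂ) * I * θ) := by
        rw [← Complex.exp_conj]
        congr 1
        simp
      rw [map_mul, map_mul, map_mul, this]
      ring
    · apply Continuous.intervalIntegrable
      exact continuous_const.mul (hcG.mul (by fun_prop))
    · apply Continuous.intervalIntegrable
      exact Complex.continuous_conj.comp (continuous_const.mul (hcG.mul (by fun_prop)))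
  rw [hI2, hA, hB] at hI
  have h4 : k * (2 * (π : ℂ) * Real.exp t) = -conj (k * (2 * (π : ℂ) * (b 1 * Real.exp (-t)))) := by
    linear_combination hI
  have h5 := congrArg (fun z : ℂ => ‖z‖) h4
  simp only [norm_neg, RCLike.norm_conj, norm_mul, hk, one_mul, Complex.norm_real,
    Complex.norm_ofNat, Real.norm_eq_abs, abs_of_pos Real.pi_pos, Real.abs_exp] at h5
  have h6 : Real.exp t = ‖b 1‖ * Real.exp (-t) := by
    have := Real.pi_pos
    apply mul_left_cancel₀ (a := 2 * π) (by positivity)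
    linarith
  have h7 : Real.exp (-t) ≤ 1 := Real.exp_le_one_iff.mpr (by linarith)
  have h8 : 1 ≤ Real.exp t := Real.one_le_exp ht
  have h9 := h.b1
  have h10 : 0 < Real.exp (-t) := Real.exp_pos _
  nlinarith [norm_nonneg (b 1)]

end Pool.Agent.H36.SZ
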