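import Pool.Agent.H36.SZ.Tst
import Pool.Agent.H36.SZ.Lv
import Pool.Agent.H36.SZ.CoU
import Pool.Agent.H36.SZ.CoX
import Pool.Agent.H36.SZ.CoD
import Pool.Agent.H36.SZ.CoT

/-!
# No interior maximum

PROOF. `f = uk k F t0` is continuous, analytic (`An.ana_uk`), periodic (`G_per`), with null level
sets (`Sg.ulv`). `lev_ex`: a level `c0` with `|A| = 2 b0`, `A = {θ ∈ Ioc (-π) π | c0 < f θ}`;
`c0 ∈ Icc (-m) m` by `lev_in`. `X0 := int_A f = Kf f c0 + 2 b0 c0` (`int_lev`), so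
`us t0 b0 <= X0` (`Sg.us_le`) and `X0 <= us t0 b0` (`le_us`, `int_le_Kf`): equality.
(a) `g1 s = int_A uk k F (t0+s) - 4 cosh (t0+s) sin b0 + lam (-exp (-(t0+s)) + b0^2 - π b0)`:
for small `s` (`0 <= t0 + s <= T`), `int_A uk k F (t0+s) <= us (t0+s) b0` (`le_us`, `int_le_Kf`), so
`g1 s <= Pf (t0+s) b0 <= Pf t0 b0 = g1 0`: local maximum. `An.dt1`, `An.dt2`, `snd_test`:
`int_A Re (k G2) - 4 cosh t0 sin b0 - lam exp (-t0) <= 0`.
(b) there are `θ1`, `θ2` with `f θ1 < c0 < f θ2`: `A` has measure `2 b0 > 0`; if `f >= c0`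
everywhere on `Ioc` then, the level set being null, `|A| = 2π > 2 b0`. `cross` gives `α`, `e`,
`var_s` the inequality. `g2 s = [int_A f(θ+s) + int_(α-s)^(α+s) f] - 4 cosh t0 sin (b0+s)
+ lam (-exp (-t0) + (b0+s)^2 - π (b0+s))`; for small `s`, `le_us` and `var_s` give
`g2 s <= Pf t0 (b0+s) <= Pf t0 b0 = g2 0`. `An.ds1`, `An.ds2`, `snd_test`:
`- int_A Re (k G2) + 4 cosh t0 sin b0 + 2 lam <= 0`.
Sum: `lam (2 - exp (-t0)) <= 0`, false.
-/

open Complex MeasureTheory Set Filter Topology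
open scoped ComplexConjugate Real

namespace Pool.Agent.H36.SZ

variable {F : ℂ → ℂ} {b : ℕ → ℂ} {q : ℝ}

/-- the perturbed difference of the star functions -/
noncomputable def Pf (k : ℂ) (F : ℂ → ℂ) (m lam t β : ℝ) : ℝ :=
  us k F m t β - 4 * Real.cosh t * Real.sin β + lam * (-Real.exp (-t) + β ^ 2 - π * β)

theorem Sg.co_int (h : Sg F b q) {k : ℂ} (hk : ‖k‖ = 1) {m lam T t0 b0 : ℝ} (hl : 0 < lam)
    (ht0 : 0 < t0) (htT : t0 < T) (hb0 : 0 < b0) (hb1 : b0 < π)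
    (hm : ∀ t θ, 0 ≤ t → t ≤ T → |uk k F t θ| ≤ m)
    (hmax : ∀ t β, 0 ≤ t → t ≤ T → 0 ≤ β → β ≤ π → Pf k F m lam t β ≤ Pf k F m lam t0 b0) :
    False := by
  have ha : An F q := h.an
  have hq0 : ∀ t : ℝ, 0 ≤ t → q < Real.exp t := fun t ht =>
    lt_of_lt_of_le h.q1 (Real.one_le_exp ht)
  have hq : q < Real.exp t0 := hq0 t0 ht0.le
  have cfk : ∀ t : ℝ, q < Real.exp t → Continuous (uk k F t) := fun t ht =>
    Complex.continuous_re.comp (continuous_const.mul (ha.cGt ht))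
  have cf : Continuous (uk k F t0) := cfk t0 hq
  have af : AnalyticOnNhd ℝ (uk k F t0) univ := ha.ana_uk hq k
  have per : Function.Periodic (uk k F t0) (2 * π) := fun θ => by
    simp only [uk, G_per F t0 θ]
  have nul : ∀ c, volume {θ : ℝ | θ ∈ Ioc (-π) π ∧ uk k F t0 θ = c} = 0 :=
    fun c => h.ulv ht0.le hk c
  have hm0 : ∀ θ, |uk k F t0 θ| ≤ m := fun θ => hm t0 θ ht0.le htT.le
  have hm' : 0 ≤ m := (abs_nonneg _).trans (hm0 0)
  obtain ⟨c0, hc0⟩ := lev_ex cf nul hb0 hb1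
  have hcin : c0 ∈ Icc (-m) m := lev_in hb0 hb1 hm0 hc0
  have mA : MeasurableSet {θ : ℝ | θ ∈ Ioc (-π) π ∧ c0 < uk k F t0 θ} :=
    measurableSet_Ioc.inter (measurableSet_lt measurable_const cf.measurable)
  have hAs : {θ : ℝ | θ ∈ Ioc (-π) π ∧ c0 < uk k F t0 θ} ⊆ Ioc (-π) π := fun θ h => h.1
  have hlev := int_lev cf c0
  rw [hc0] at hlev
  have hus : us k F m t0 b0 = ∫ θ in {θ : ℝ | θ ∈ Ioc (-π) π ∧ c0 < uk k F t0 θ}, uk k F t0 θ := by
    apply le_antisymm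
    · have h1 := h.us_le k (β := b0) ht0.le hcin
      linarith
    · refine le_us k F hm' fun c _ => ?_
      have h1 := int_le_Kf cf mA hAs c
      rw [hc0] at h1
      linarith
  -- part (a)
  have hloc : IsLocalMax (fun s : ℝ =>
      (∫ θ in {θ : ℝ | θ ∈ Ioc (-π) π ∧ c0 < uk k F t0 θ}, uk k F (t0 + s) θ) -
        4 * Real.cosh (t0 + s) * Real.sin b0 +
        lam * (-Real.exp (-(t0 + s)) + b0 ^ 2 - π * b0)) 0 := by
    have e1 : ∀ᶠ s in 𝓝 (0:ℝ), -t0 < s := lt_mem_nhds (by linarith)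
    have e2 : ∀ᶠ s in 𝓝 (0:ℝ), s < T - t0 := gt_mem_nhds (by linarith)
    filter_upwards [e1, e2] with s h1 h2
    have h3 : 0 ≤ t0 + s := by linarith
    have h4 : t0 + s ≤ T := by linarith
    have h5 : (∫ θ in {θ : ℝ | θ ∈ Ioc (-π) π ∧ c0 < uk k F t0 θ}, uk k F (t0 + s) θ) ≤
        us k F m (t0 + s) b0 := by
      refine le_us k F hm' fun c _ => ?_
      have h6 := int_le_Kf (cfk (t0 + s) (hq0 _ h3)) mA hAs c
      rw [hc0] at h6
      linarith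
    have h7 := hmax (t0 + s) b0 h3 h4 hb0.le hb1.le
    simp only [Pf] at h7
    rw [hus] at h7
    simp only [add_zero]
    linarith
  have hd1 : ∀ᶠ s in 𝓝 (0:ℝ), HasDerivAt (fun s : ℝ =>
      (∫ θ in {θ : ℝ | θ ∈ Ioc (-π) π ∧ c0 < uk k F t0 θ}, uk k F (t0 + s) θ) -
        4 * Real.cosh (t0 + s) * Real.sin b0 +
        lam * (-Real.exp (-(t0 + s)) + b0 ^ 2 - π * b0))
      ((∫ θ in {θ : ℝ | θ ∈ Ioc (-π) π ∧ c0 < uk k F t0 θ}, (k * G1 F (t0 + s) θ).re) -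
        4 * Real.sinh (t0 + s) * Real.sin b0 + lam * Real.exp (-(t0 + s))) s := by
    filter_upwards [ha.dt1 k hq mA hAs] with s hs
    have u1 : HasDerivAt (fun s : ℝ => t0 + s) 1 s := by
      simpa using (hasDerivAt_id s).const_add t0
    have u2 : HasDerivAt (fun s : ℝ => Real.cosh (t0 + s)) (Real.sinh (t0 + s) * 1) s :=
      (Real.hasDerivAt_cosh (t0 + s)).comp s u1
    have u3 : HasDerivAt (fun s : ℝ => Real.exp (-(t0 + s))) (Real.exp (-(t0 + s)) * (-1)) s :=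
      u1.fun_neg.exp
    have u4 := (hs.sub ((u2.const_mul 4).mul_const (Real.sin b0))).add
      (((u3.neg.add_const (b0 ^ 2)).sub_const (π * b0)).const_mul lam)
    refine u4.congr_deriv ?_
    ring
  have hd2 : HasDerivAt (fun s : ℝ =>
      (∫ θ in {θ : ℝ | θ ∈ Ioc (-π) π ∧ c0 < uk k F t0 θ}, (k * G1 F (t0 + s) θ).re) -
        4 * Real.sinh (t0 + s) * Real.sin b0 + lam * Real.exp (-(t0 + s)))
      ((∫ θ in {θ : ℝ | θ ∈ Ioc (-π) π ∧ c0 < uk k F t0 θ}, (k * G2 F t0 θ).re) -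
        4 * Real.cosh t0 * Real.sin b0 - lam * Real.exp (-t0)) 0 := by
    have hs := ha.dt2 k hq mA hAs
    have u1 : HasDerivAt (fun s : ℝ => t0 + s) 1 (0:ℝ) := by
      simpa using (hasDerivAt_id (0:ℝ)).const_add t0
    have u2 : HasDerivAt (fun s : ℝ => Real.sinh (t0 + s)) (Real.cosh (t0 + 0) * 1) 0 :=
      (Real.hasDerivAt_sinh (t0 + 0)).comp 0 u1
    have u3 : HasDerivAt (fun s : ℝ => Real.exp (-(t0 + s))) (Real.exp (-(t0 + 0)) * (-1)) 0 :=
      u1.fun_neg.exp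
    have u4 := (hs.sub ((u2.const_mul 4).mul_const (Real.sin b0))).add (u3.const_mul lam)
    refine u4.congr_deriv ?_
    rw [add_zero]
    ring
  have ra := (snd_test hloc hd1 hd2).2
  -- part (b)
  obtain ⟨θ2, hθ2⟩ : ∃ θ2, c0 < uk k F t0 θ2 := by
    by_contra hc
    push Not at hc
    have h1 : {θ : ℝ | θ ∈ Ioc (-π) π ∧ c0 < uk k F t0 θ} = ∅ :=
      Set.eq_empty_iff_forall_notMem.2 fun θ h2 => absurd h2.2 (not_lt.2 (hc θ))
    rw [h1] at hc0
    simp at hc0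
    linarith
  obtain ⟨θ1, hθ1⟩ : ∃ θ1, uk k F t0 θ1 < c0 := by
    by_contra hc
    push Not at hc
    have h1 : Ioc (-π) π ⊆ {θ : ℝ | θ ∈ Ioc (-π) π ∧ c0 < uk k F t0 θ} ∪
        {θ : ℝ | θ ∈ Ioc (-π) π ∧ uk k F t0 θ = c0} := by
      intro θ h2
      rcases lt_or_eq_of_le (hc θ) with h3 | h3
      · exact Or.inl ⟨h2, h3⟩
      · exact Or.inr ⟨h2, h3.symm⟩
    have h2 : volume (Ioc (-π) π) ≤
        volume {θ : ℝ | θ ∈ Ioc (-π) π ∧ c0 < uk k F t0 θ} := by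
      refine (measure_mono h1).trans ((measure_union_le _ _).trans ?_)
      rw [nul c0, add_zero]
    have h3 : volume {θ : ℝ | θ ∈ Ioc (-π) π ∧ c0 < uk k F t0 θ} ≠ ⊤ :=
      ne_top_of_le_ne_top (by simp) (measure_mono hAs)
    have h4 : volume.real (Ioc (-π) π) ≤
        volume.real {θ : ℝ | θ ∈ Ioc (-π) π ∧ c0 < uk k F t0 θ} :=
      ENNReal.toReal_mono h3 h2
    rw [hc0, Real.volume_real_Ioc_of_le (by linarith [Real.pi_pos])] at h4
    linarith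
  obtain ⟨α, e, he, hal, har⟩ := cross af per hθ1 hθ2
  have hlocb : IsLocalMax (fun s : ℝ =>
      ((∫ θ in {θ : ℝ | θ ∈ Ioc (-π) π ∧ c0 < uk k F t0 θ}, uk k F t0 (θ + s)) +
        ∫ θ in (α - s)..(α + s), uk k F t0 θ) -
        4 * Real.cosh t0 * Real.sin (b0 + s) +
        lam * (-Real.exp (-t0) + (b0 + s) ^ 2 - π * (b0 + s))) 0 := by
    have e1 : ∀ᶠ s in 𝓝 (0:ℝ), -b0 < s := lt_mem_nhds (by linarith)
    have e2 : ∀ᶠ s in 𝓝 (0:ℝ), s < π - b0 := gt_mem_nhds (by linarith)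
    filter_upwards [e1, e2, var_s cf per he hal har] with s h1 h2 h3
    have h5 : (∫ θ in {θ : ℝ | θ ∈ Ioc (-π) π ∧ c0 < uk k F t0 θ}, uk k F t0 (θ + s)) +
        (∫ θ in (α - s)..(α + s), uk k F t0 θ) ≤ us k F m t0 (b0 + s) := by
      refine le_us k F hm' fun c _ => ?_
      have h6 := h3 c
      rw [hc0] at h6
      linarith
    have h7 := hmax t0 (b0 + s) ht0.le htT.le (by linarith) (by linarith)
    simp only [Pf] at h7
    rw [hus] at h7
    simp only [add_zero, sub_zero, intervalIntegral.integral_same]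
    linarith
  have hb1' : ∀ᶠ s in 𝓝 (0:ℝ), HasDerivAt (fun s : ℝ =>
      ((∫ θ in {θ : ℝ | θ ∈ Ioc (-π) π ∧ c0 < uk k F t0 θ}, uk k F t0 (θ + s)) +
        ∫ θ in (α - s)..(α + s), uk k F t0 θ) -
        4 * Real.cosh t0 * Real.sin (b0 + s) +
        lam * (-Real.exp (-t0) + (b0 + s) ^ 2 - π * (b0 + s)))
      (((∫ θ in {θ : ℝ | θ ∈ Ioc (-π) π ∧ c0 < uk k F t0 θ}, (k * I * G1 F t0 (θ + s)).re) +
        (uk k F t0 (α + s) + uk k F t0 (α - s))) -
        4 * Real.cosh t0 * Real.cos (b0 + s) + lam * (2 * (b0 + s) - π)) s := by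
    refine Eventually.of_forall fun s => ?_
    have hs := ha.ds1 k hq α mA hAs s
    have u1 : HasDerivAt (fun s : ℝ => b0 + s) 1 s := by
      simpa using (hasDerivAt_id s).const_add b0
    have u2 : HasDerivAt (fun s : ℝ => Real.sin (b0 + s)) (Real.cos (b0 + s) * 1) s :=
      (Real.hasDerivAt_sin (b0 + s)).comp s u1
    have u4 := (hs.sub (u2.const_mul (4 * Real.cosh t0))).add
      ((((u1.pow 2).const_add (-Real.exp (-t0))).sub (u1.const_mul π)).const_mul lam)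
    refine u4.congr_deriv ?_
    push_cast
    ring
  have hb2' : HasDerivAt (fun s : ℝ =>
      ((∫ θ in {θ : ℝ | θ ∈ Ioc (-π) π ∧ c0 < uk k F t0 θ}, (k * I * G1 F t0 (θ + s)).re) +
        (uk k F t0 (α + s) + uk k F t0 (α - s))) -
        4 * Real.cosh t0 * Real.cos (b0 + s) + lam * (2 * (b0 + s) - π))
      (-(∫ θ in {θ : ℝ | θ ∈ Ioc (-π) π ∧ c0 < uk k F t0 θ}, (k * G2 F t0 θ).re) +
        4 * Real.cosh t0 * Real.sin b0 + 2 * lam) 0 := by
    have hs := ha.ds2 k hq α mA hAs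
    have u1 : HasDerivAt (fun s : ℝ => b0 + s) 1 (0:ℝ) := by
      simpa using (hasDerivAt_id (0:ℝ)).const_add b0
    have u2 : HasDerivAt (fun s : ℝ => Real.cos (b0 + s)) (-Real.sin (b0 + 0) * 1) 0 :=
      (Real.hasDerivAt_cos (b0 + 0)).comp 0 u1
    have u4 := (hs.sub (u2.const_mul (4 * Real.cosh t0))).add
      (((u1.const_mul 2).sub_const π).const_mul lam)
    refine u4.congr_deriv ?_
    rw [add_zero]
    ring
  have rb := (snd_test hlocb hb1' hb2').2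
  have h1 : Real.exp (-t0) < 1 := by
    rw [Real.exp_lt_one_iff]
    linarith
  nlinarith

end Pool.Agent.H36.SZ
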