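import Pool.Agent.H36.SZ.GAr

/-!
# Weighted area principle for half planes

PROOF. For `ε > 0` let `r = max (y - c) 0`, `f y = r^2 / (ε + r^2)`, `f' y = 2 ε r / (ε + r^2)^2`,
continuous and `>= 0`. By `garea_re`, `0 <= int f_ε (uk) Re (k G1)`; as `ε -> 0` the function
`f_ε` tends pointwise to the indicator of `{y > c}`, `0 <= f_ε <= 1`: dominated convergence.
-/

open Complex MeasureTheory Set Filter Topology
open scoped ComplexConjugate Real

namespace Pool.Agent.H36.SZ

variable {F : ℂ → ℂ} {b : ℕ → ℂ} {q : ℝ}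

private theorem wh_lim (c y : ℝ) :
    Tendsto (fun n : ℕ => Real.smoothTransition ((n : ℝ) * (y - c))) atTop
      (𝓝 (if c < y then 1 else 0)) := by
  split_ifs with hy
  · obtain ⟨N, hN⟩ := exists_nat_gt (1 / (y - c))
    have hyc : 0 < y - c := sub_pos.2 hy
    refine tendsto_const_nhds.congr' ?_
    filter_upwards [eventually_ge_atTop N] with n hn
    symm
    apply Real.smoothTransition.one_of_one_le
    have h1 : 1 / (y - c) < (n : ℝ) := lt_of_lt_of_le hN (by exact_mod_cast hn)
    rw [div_lt_iff₀ hyc] at h1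
    exact h1.le
  · have hyc : y - c ≤ 0 := sub_nonpos.2 (not_lt.1 hy)
    refine tendsto_const_nhds.congr' ?_
    filter_upwards with n
    symm
    apply Real.smoothTransition.zero_of_nonpos
    exact mul_nonpos_of_nonneg_of_nonpos (Nat.cast_nonneg n) hyc

private theorem wh_diff (c : ℝ) (n : ℕ) :
    ContDiff ℝ 1 (fun y : ℝ => Real.smoothTransition ((n : ℝ) * (y - c))) :=
  Real.smoothTransition.contDiff.comp (contDiff_const.mul (contDiff_id.sub contDiff_const))

private theorem wh_mono (c : ℝ) (n : ℕ) :
    Monotone (fun y : ℝ => Real.smoothTransition ((n : ℝ) * (y - c))) := by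
  intro x y hxy
  apply Real.smoothTransition.monotone
  exact mul_le_mul_of_nonneg_left (by linarith) (Nat.cast_nonneg n)

theorem Sg.wh (h : Sg F b q) {t : ℝ} (ht : q < Real.exp t) {k : ℂ} (hk : ‖k‖ = 1) (c : ℝ) :
    0 ≤ ∫ θ in {θ : ℝ | θ ∈ Ioc (-π) π ∧ c < uk k F t θ}, (k * G1 F t θ).re := by
  have cG : Continuous (G F t) := h.an.cGt ht
  have cG1 : Continuous (G1 F t) := h.an.cG1t ht
  have cu : Continuous (uk k F t) := Complex.continuous_re.comp (continuous_const.mul cG)
  have cg : Continuous (fun θ : ℝ => (k * G1 F t θ).re) :=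
    Complex.continuous_re.comp (continuous_const.mul cG1)
  have hpi : -π ≤ π := by linarith [Real.pi_pos]
  have hn : ∀ n : ℕ, 0 ≤ ∫ θ in (-π)..π,
      Real.smoothTransition ((n : ℝ) * (uk k F t θ - c)) * (k * G1 F t θ).re := by
    intro n
    have hd := wh_diff c n
    exact garea_re h hk (f := fun y : ℝ => Real.smoothTransition ((n : ℝ) * (y - c)))
      (f' := deriv (fun y : ℝ => Real.smoothTransition ((n : ℝ) * (y - c))))
      (fun y => (hd.differentiable one_ne_zero y).hasDerivAt)
      (hd.continuous_deriv le_rfl) (fun y => (wh_mono c n).deriv_nonneg) ht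
  have hlim : Tendsto (fun n : ℕ => ∫ θ in (-π)..π,
      Real.smoothTransition ((n : ℝ) * (uk k F t θ - c)) * (k * G1 F t θ).re) atTop
      (𝓝 (∫ θ in (-π)..π, (if c < uk k F t θ then 1 else 0) * (k * G1 F t θ).re)) := by
    apply intervalIntegral.tendsto_integral_filter_of_dominated_convergence
      (fun θ => ‖(k * G1 F t θ).re‖)
    · filter_upwards with n
      exact (((wh_diff c n).continuous.comp cu).mul cg).aestronglyMeasurable
    · filter_upwards with n
      filter_upwards with θ _
      rw [norm_mul]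
      apply mul_le_of_le_one_left (norm_nonneg _)
      rw [Real.norm_eq_abs, abs_of_nonneg (Real.smoothTransition.nonneg _)]
      exact Real.smoothTransition.le_one _
    · exact cg.norm.intervalIntegrable _ _
    · filter_upwards with θ _
      exact (wh_lim c (uk k F t θ)).mul_const _
  have h0 := ge_of_tendsto' hlim hn
  rw [intervalIntegral.integral_of_le hpi] at h0
  have hm : MeasurableSet {θ : ℝ | c < uk k F t θ} := (isOpen_lt continuous_const cu).measurableSet
  have hs : {θ : ℝ | θ ∈ Ioc (-π) π ∧ c < uk k F t θ} =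
      Ioc (-π) π ∩ {θ : ℝ | c < uk k F t θ} := rfl
  rw [hs, ← MeasureTheory.setIntegral_indicator hm]
  refine h0.trans_eq (integral_congr_ae ?_)
  filter_upwards with θ
  by_cases hθ : c < uk k F t θ
  · rw [if_pos hθ, one_mul, Set.indicator_of_mem (by exact hθ)]
  · rw [if_neg hθ, zero_mul, Set.indicator_of_notMem (by exact hθ)]

end Pool.Agent.H36.SZ
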