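import Pool.Agent.H36.SZ.CoI
import Pool.Agent.H36.SZ.WH

/-!
# No maximum on the boundary `t = 0`; the behaviour for large `t`

PROOF of `co_zero`: as part (a) of `Sg.co_int` at `t0 = 0`: level `c0`, set `A`, `|A| = 2 b0`,
`us 0 b0 = int_A uk k F 0`. For `0 <= s <= T`:
`g s = int_A uk k F s - 4 cosh s sin b0 + lam (-exp (-s) + b0^2 - π b0) <= Pf s b0 <= Pf 0 b0 = g 0`.
But `g` has the derivative `int_A Re (k G1 F 0) - 0 + lam >= lam > 0` at `0` (`An.dt1` at `s = 0`
with `q < 1 = exp 0`, and `Sg.wh` with the level `c0`), so `g s > g 0` for small `s > 0`.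
PROOF of `co_inf`: `C` from `Sg.asy`, `k = exp (iω)`. `uk k F t θ <= e^t cos (θ + ω) + C e^(-t)`.
Put `c = e^t cos β`. `(uk - c)_+ <= e^t (cos (θ+ω) - cos β)_+ + C e^(-t)`, and over a period
`int (cos (θ + ω) - cos β)_+ dθ = int_(-β)^β (cos θ - cos β) dθ = 2 sin β - 2 β cos β` for
`0 <= β <= π`. So `Kf + 2 β c <= 2 e^t sin β + 2 π C e^(-t) <= 4 cosh t sin β + 2 π C e^(-t)`;
take `T` with `2 π C e^(-T) <= ε`.
-/

open Complex MeasureTheory Set Filter Topology
open scoped ComplexConjugate Real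

namespace Pool.Agent.H36.SZ

variable {F : ℂ → ℂ} {b : ℕ → ℂ} {q : ℝ}

theorem Sg.co_zero (h : Sg F b q) {k : ℂ} (hk : ‖k‖ = 1) {m lam T b0 : ℝ} (hl : 0 < lam)
    (hT : 0 < T) (hb0 : 0 < b0) (hb1 : b0 < π)
    (hm : ∀ t θ, 0 ≤ t → t ≤ T → |uk k F t θ| ≤ m)
    (hmax : ∀ t β, 0 ≤ t → t ≤ T → 0 ≤ β → β ≤ π → Pf k F m lam t β ≤ Pf k F m lam 0 b0) :
    False := by
  have hq0 : q < Real.exp 0 := by
    rw [Real.exp_zero]
    exact h.q1
  have hqs : ∀ s : ℝ, 0 ≤ s → q < Real.exp s := fun s hs =>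
    lt_of_lt_of_le hq0 (Real.exp_le_exp.2 hs)
  have cu : ∀ s : ℝ, 0 ≤ s → Continuous (uk k F s) := by
    intro s hs
    unfold uk
    exact Complex.continuous_re.comp (continuous_const.mul (h.an.cGt (hqs s hs)))
  have cf := cu 0 le_rfl
  have hm0 : 0 ≤ m := le_trans (abs_nonneg _) (hm 0 0 le_rfl hT.le)
  obtain ⟨c0, hc0⟩ := lev_ex cf (h.ulv le_rfl hk) hb0 hb1
  have hc0m : c0 ∈ Icc (-m) m := lev_in hb0 hb1 (fun θ => hm 0 θ le_rfl hT.le) hc0
  obtain ⟨A, rfl⟩ : ∃ A : Set ℝ, A = {θ : ℝ | θ ∈ Ioc (-π) π ∧ c0 < uk k F 0 θ} := ⟨_, rfl⟩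
  have mA : MeasurableSet {θ : ℝ | θ ∈ Ioc (-π) π ∧ c0 < uk k F 0 θ} :=
    measurableSet_Ioc.inter (measurableSet_lt measurable_const cf.measurable)
  have hA : {θ : ℝ | θ ∈ Ioc (-π) π ∧ c0 < uk k F 0 θ} ⊆ Ioc (-π) π := fun θ hθ => hθ.1
  have hX := int_lev cf c0
  rw [hc0] at hX
  have hu0 : us k F m 0 b0 ≤ ∫ θ in {θ : ℝ | θ ∈ Ioc (-π) π ∧ c0 < uk k F 0 θ}, uk k F 0 θ := by
    have h1 := h.us_le k (β := b0) le_rfl hc0m
    linarith
  have hus : ∀ s : ℝ, 0 ≤ s →
      ∫ θ in {θ : ℝ | θ ∈ Ioc (-π) π ∧ c0 < uk k F 0 θ}, uk k F s θ ≤ us k F m s b0 := by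
    intro s hs
    refine le_us k F hm0 fun c _ => ?_
    have h1 := int_le_Kf (cu s hs) mA hA c
    rw [hc0] at h1
    linarith
  have hg : ∀ s : ℝ, 0 ≤ s → s ≤ T →
      (∫ θ in {θ : ℝ | θ ∈ Ioc (-π) π ∧ c0 < uk k F 0 θ}, uk k F (0 + s) θ) -
        4 * Real.cosh s * Real.sin b0 + lam * (-Real.exp (-s) + b0 ^ 2 - π * b0) ≤
      (∫ θ in {θ : ℝ | θ ∈ Ioc (-π) π ∧ c0 < uk k F 0 θ}, uk k F (0 + 0) θ) -
        4 * Real.cosh 0 * Real.sin b0 + lam * (-Real.exp (-0) + b0 ^ 2 - π * b0) := by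
    intro s hs hsT
    have h1 := hmax s b0 hs hsT hb0.le hb1.le
    unfold Pf at h1
    have h2 := hus s hs
    rw [zero_add, zero_add]
    linarith
  have hd1 : HasDerivAt (fun r : ℝ => ∫ θ in {θ : ℝ | θ ∈ Ioc (-π) π ∧ c0 < uk k F 0 θ},
      uk k F (0 + r) θ) (∫ θ in {θ : ℝ | θ ∈ Ioc (-π) π ∧ c0 < uk k F 0 θ},
      (k * G1 F (0 + 0) θ).re) 0 := (h.an.dt1 k hq0 mA hA).self_of_nhds
  have hd2 : HasDerivAt (fun r : ℝ => 4 * Real.cosh r * Real.sin b0)
      (4 * Real.sinh 0 * Real.sin b0) 0 :=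
    ((Real.hasDerivAt_cosh 0).const_mul 4).mul_const (Real.sin b0)
  have hd3 : HasDerivAt (fun r : ℝ => lam * (-Real.exp (-r) + b0 ^ 2 - π * b0))
      (lam * (-(Real.exp (-0) * (-1)))) 0 := by
    have h1 : HasDerivAt (fun r : ℝ => Real.exp (-r)) (Real.exp (-0) * (-1)) 0 :=
      (hasDerivAt_neg (0:ℝ)).exp
    exact ((h1.neg.add_const (b0 ^ 2)).sub_const (π * b0)).const_mul lam
  have hd := (hd1.sub hd2).add hd3
  have hpos : 0 < (∫ θ in {θ : ℝ | θ ∈ Ioc (-π) π ∧ c0 < uk k F 0 θ},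
      (k * G1 F (0 + 0) θ).re) - 4 * Real.sinh 0 * Real.sin b0 +
      lam * (-(Real.exp (-0) * (-1))) := by
    have h1 := h.wh hq0 hk c0
    rw [Real.sinh_zero, neg_zero, Real.exp_zero, add_zero]
    linarith
  rw [hasDerivAt_iff_tendsto_slope] at hd
  have he := hd.eventually (lt_mem_nhds hpos)
  have he2 : ∀ᶠ s in 𝓝[>] (0:ℝ), 0 < slope ((fun r : ℝ => (fun r : ℝ =>
      ∫ θ in {θ : ℝ | θ ∈ Ioc (-π) π ∧ c0 < uk k F 0 θ}, uk k F (0 + r) θ) r -
      (fun r : ℝ => 4 * Real.cosh r * Real.sin b0) r +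
      (fun r : ℝ => lam * (-Real.exp (-r) + b0 ^ 2 - π * b0)) r)) 0 s :=
    he.filter_mono (nhdsWithin_mono 0 (fun x (hx : (0:ℝ) < x) => hx.ne'))
  have he3 : ∀ᶠ s in 𝓝[>] (0:ℝ), s ∈ Ioo 0 T := Ioo_mem_nhdsGT hT
  obtain ⟨s, hs1, hs2⟩ := (he2.and he3).exists
  rw [slope_def_field] at hs1
  have h5 := hg s hs2.1.le hs2.2.le
  have h6 : 0 < s - 0 := by linarith [hs2.1]
  have h7 := (div_pos_iff_of_pos_right h6).1 hs1
  simp only [] at h7
  linarith

theorem int_cos_pos (ω : ℝ) {β : ℝ} (h0 : 0 ≤ β) (h1 : β ≤ π) :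
    ∫ θ in (-π)..π, max (Real.cos (θ + ω) - Real.cos β) 0 =
      2 * Real.sin β - 2 * β * Real.cos β := by
  have per : Function.Periodic (fun θ : ℝ => max (Real.cos θ - Real.cos β) 0) (2 * π) := by
    intro θ
    show max (Real.cos (θ + 2 * π) - Real.cos β) 0 = max (Real.cos θ - Real.cos β) 0
    rw [Real.cos_add_two_pi]
  have cg : Continuous (fun θ : ℝ => max (Real.cos θ - Real.cos β) 0) := by fun_prop
  have e1 : ∫ θ in (-π)..π, max (Real.cos (θ + ω) - Real.cos β) 0 =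
      ∫ θ in (-π)..π, max (Real.cos θ - Real.cos β) 0 := by
    rw [intervalIntegral.integral_comp_add_right
      (fun θ : ℝ => max (Real.cos θ - Real.cos β) 0) ω]
    have h2 := per.intervalIntegral_add_eq (-π + ω) (-π)
    have e2 : -π + ω + 2 * π = π + ω := by ring
    have e3 : -π + 2 * π = π := by ring
    rw [e2, e3] at h2
    exact h2
  rw [e1]
  have hpi := Real.pi_pos
  have i1 : ∫ θ in (-π)..(-β), max (Real.cos θ - Real.cos β) 0 = 0 := by
    have h2 : ∫ θ in (-π)..(-β), max (Real.cos θ - Real.cos β) 0 =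
        ∫ θ in (-π)..(-β), (0:ℝ) := by
      refine intervalIntegral.integral_congr fun θ hθ => ?_
      rw [Set.uIcc_of_le (by linarith)] at hθ
      have h3 : Real.cos θ ≤ Real.cos β := by
        rw [← Real.cos_neg θ]
        exact Real.cos_le_cos_of_nonneg_of_le_pi h0 (by linarith [hθ.1]) (by linarith [hθ.2])
      exact max_eq_right (by linarith)
    rw [h2]
    simp
  have i3 : ∫ θ in β..π, max (Real.cos θ - Real.cos β) 0 = 0 := by
    have h2 : ∫ θ in β..π, max (Real.cos θ - Real.cos β) 0 = ∫ θ in β..π, (0:ℝ) := by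
      refine intervalIntegral.integral_congr fun θ hθ => ?_
      rw [Set.uIcc_of_le h1] at hθ
      have h3 : Real.cos θ ≤ Real.cos β :=
        Real.cos_le_cos_of_nonneg_of_le_pi h0 hθ.2 hθ.1
      exact max_eq_right (by linarith)
    rw [h2]
    simp
  have i2 : ∫ θ in (-β)..β, max (Real.cos θ - Real.cos β) 0 =
      2 * Real.sin β - 2 * β * Real.cos β := by
    have h2 : ∫ θ in (-β)..β, max (Real.cos θ - Real.cos β) 0 =
        ∫ θ in (-β)..β, (Real.cos θ - Real.cos β) := by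
      refine intervalIntegral.integral_congr fun θ hθ => ?_
      rw [Set.uIcc_of_le (by linarith)] at hθ
      have h3 : Real.cos β ≤ Real.cos θ := by
        rw [← Real.cos_abs θ]
        exact Real.cos_le_cos_of_nonneg_of_le_pi (abs_nonneg _) h1 (abs_le.2 ⟨hθ.1, hθ.2⟩)
      exact max_eq_left (by linarith)
    rw [h2, intervalIntegral.integral_sub (Real.continuous_cos.intervalIntegrable _ _)
      (continuous_const.intervalIntegrable _ _), integral_cos, intervalIntegral.integral_const,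
      Real.sin_neg, smul_eq_mul]
    ring
  have j1 := intervalIntegral.integral_add_adjacent_intervals
    (cg.intervalIntegrable (-π) (-β) (μ := volume)) (cg.intervalIntegrable (-β) β (μ := volume))
  have j2 := intervalIntegral.integral_add_adjacent_intervals
    (cg.intervalIntegrable (-π) β (μ := volume)) (cg.intervalIntegrable β π (μ := volume))
  rw [← j2, ← j1, i1, i2, i3]
  ring

theorem Sg.co_inf (h : Sg F b q) {k : ℂ} (hk : ‖k‖ = 1) {ε : ℝ} (hε : 0 < ε) :
    ∃ T : ℝ, 0 < T ∧ ∀ t, T ≤ t → ∀ β, 0 ≤ β → β ≤ π → ∃ c, |c| ≤ Real.exp t ∧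
      Kf (uk k F t) c + 2 * β * c ≤ 4 * Real.cosh t * Real.sin β + ε := by
  obtain ⟨C, hC0, hC⟩ := h.asy
  have hkω : k = exp (k.arg * I) := by
    have h1 := Complex.norm_mul_exp_arg_mul_I k
    rw [hk, Complex.ofReal_one, one_mul] at h1
    exact h1.symm
  obtain ⟨T, hT⟩ : ∃ T : ℝ, ∀ t, T ≤ t → 2 * π * C * Real.exp (-t) < ε := by
    have h1 : Tendsto (fun t : ℝ => 2 * π * C * Real.exp (-t)) atTop (𝓝 (2 * π * C * 0)) :=
      Real.tendsto_exp_neg_atTop_nhds_zero.const_mul (2 * π * C)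
    rw [mul_zero] at h1
    exact eventually_atTop.1 (h1.eventually (gt_mem_nhds hε))
  refine ⟨max T 1, lt_of_lt_of_le one_pos (le_max_right _ _), fun t ht β h0 h1 => ?_⟩
  have htT : T ≤ t := le_trans (le_max_left _ _) ht
  have ht0 : 0 ≤ t := le_trans zero_le_one (le_trans (le_max_right _ _) ht)
  have hεt := hT t htT
  refine ⟨Real.exp t * Real.cos β, ?_, ?_⟩
  · rw [abs_mul, abs_of_pos (Real.exp_pos t)]
    have h2 := Real.abs_cos_le_one β
    nlinarith [Real.exp_pos t]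
  have hqt : q < Real.exp t := lt_of_lt_of_le h.q1 (Real.one_le_exp ht0)
  have cu : Continuous (uk k F t) := by
    unfold uk
    exact Complex.continuous_re.comp (continuous_const.mul (h.an.cGt hqt))
  have hu : ∀ θ : ℝ, uk k F t θ ≤ Real.exp t * Real.cos (θ + k.arg) + C * Real.exp (-t) := by
    intro θ
    have h2 := hC t θ ht0
    have h3 : uk k F t θ = (k * exp (t + θ * I)).re + (k * (G F t θ - exp (t + θ * I))).re := by
      unfold uk
      rw [← Complex.add_re]
      congr 1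
      ring
    have h4 : (k * exp (t + θ * I)).re = Real.exp t * Real.cos (θ + k.arg) := by
      have h5 : k * exp (t + θ * I) = exp ((t : ℂ) + ((θ + k.arg : ℝ) : ℂ) * I) := by
        conv_lhs => rw [hkω]
        rw [← Complex.exp_add]
        congr 1
        push_cast
        ring
      rw [h5, Complex.exp_re]
      simp
    have h6 : (k * (G F t θ - exp (t + θ * I))).re ≤ C * Real.exp (-t) := by
      refine le_trans (Complex.re_le_norm _) ?_
      rw [norm_mul, hk, one_mul]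
      exact h2
    rw [h3, h4]
    linarith
  have hK : Kf (uk k F t) (Real.exp t * Real.cos β) ≤
      Real.exp t * (2 * Real.sin β - 2 * β * Real.cos β) + 2 * π * C * Real.exp (-t) := by
    unfold Kf
    have hpi := Real.pi_pos
    have cg : Continuous (fun θ : ℝ => max (Real.cos (θ + k.arg) - Real.cos β) 0) := by fun_prop
    have h2 : ∫ θ in (-π)..π, max (uk k F t θ - Real.exp t * Real.cos β) 0 ≤
        ∫ θ in (-π)..π, (Real.exp t * max (Real.cos (θ + k.arg) - Real.cos β) 0 +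
          C * Real.exp (-t)) := by
      refine intervalIntegral.integral_mono_on (by linarith) ?_ ?_ ?_
      · exact ((cu.sub continuous_const).max continuous_const).intervalIntegrable _ _
      · exact ((continuous_const.mul cg).add continuous_const).intervalIntegrable _ _
      · intro θ _
        have h3 := hu θ
        have h4 := le_max_left (Real.cos (θ + k.arg) - Real.cos β) 0
        have h5 := le_max_right (Real.cos (θ + k.arg) - Real.cos β) 0
        have h6 := Real.exp_pos t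
        have h7 : 0 ≤ C * Real.exp (-t) := mul_nonneg hC0 (Real.exp_pos _).le
        refine max_le ?_ ?_
        · nlinarith
        · have h8 := mul_nonneg h6.le h5
          linarith
    refine h2.trans (le_of_eq ?_)
    have ii1 : IntervalIntegrable (fun θ : ℝ => Real.exp t *
        max (Real.cos (θ + k.arg) - Real.cos β) 0) volume (-π) π :=
      (continuous_const.mul cg).intervalIntegrable _ _
    have ii2 : IntervalIntegrable (fun _ : ℝ => C * Real.exp (-t)) volume (-π) π :=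
      continuous_const.intervalIntegrable _ _
    rw [intervalIntegral.integral_add ii1 ii2, intervalIntegral.integral_const_mul,
      int_cos_pos k.arg h0 h1, intervalIntegral.integral_const, smul_eq_mul]
    ring
  have hs : 0 ≤ Real.sin β := Real.sin_nonneg_of_nonneg_of_le_pi h0 h1
  have hch : 2 * Real.exp t ≤ 4 * Real.cosh t := by
    rw [Real.cosh_eq]
    linarith [Real.exp_pos (-t)]
  have h9 := mul_le_mul_of_nonneg_right hch hs
  nlinarith

end Pool.Agent.H36.SZ
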