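import Pool.Agent.H36.SZ.Phl

/-!
# The first derivative of `int Ph (x s) (y s θ) dθ`

PROOF. `intervalIntegral.hasDerivAt_integral_of_dominated_loc_of_deriv_le` on a ball
`ball s ε` whose closure is contained in `Ioo (-δ) δ`: on the compact set
`closedBall s ε ×ˢ Icc (-π) π` the functions `y`, `y1` and (on `closedBall s ε`) `x`, `x1`, `1 / x`
are bounded, `x >= x_min > 0`, so the derivative
`(1 - x/max x y) y1 - x1 log (max x y / x)` (given pointwise by `Ph_hasDerivAt`) is bounded there by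
a constant: `0 <= 1 - x/max <= 1` and `0 <= log (max/x) <= max/x - 1`. Measurability: for fixed `r`
the integrands are continuous in `θ` (`x r > 0`), since `y r`, `y1 r` are continuous (restriction of
the joint continuity to `{r} × univ`).
-/

open MeasureTheory Set Filter Topology
open scoped Real

namespace Pool.Agent.H36.SZ

theorem dZ1 {y y1 : ℝ → ℝ → ℝ} {x x1 : ℝ → ℝ} {δ : ℝ}
    (hy : ∀ s ∈ Ioo (-δ) δ, ∀ θ, HasDerivAt (fun r => y r θ) (y1 s θ) s)
    (cy : ContinuousOn (fun p : ℝ × ℝ => y p.1 p.2) (Ioo (-δ) δ ×ˢ univ))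
    (cy1 : ContinuousOn (fun p : ℝ × ℝ => y1 p.1 p.2) (Ioo (-δ) δ ×ˢ univ))
    (hx : ∀ s ∈ Ioo (-δ) δ, HasDerivAt x (x1 s) s)
    (cx1 : ContinuousOn x1 (Ioo (-δ) δ))
    (px : ∀ s ∈ Ioo (-δ) δ, 0 < x s) {s : ℝ} (hs : s ∈ Ioo (-δ) δ) :
    HasDerivAt (fun r => ∫ θ in (-π)..π, Ph (x r) (y r θ))
      (∫ θ in (-π)..π, ((1 - x s / max (x s) (y s θ)) * y1 s θ -
        x1 s * Real.log (max (x s) (y s θ) / x s))) s := by
  obtain ⟨ε, hε, hb⟩ : ∃ ε > 0, Metric.closedBall s ε ⊆ Ioo (-δ) δ := by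
    obtain ⟨ε, hε, hb⟩ := Metric.isOpen_iff.1 isOpen_Ioo s hs
    exact ⟨ε / 2, by linarith, (Metric.closedBall_subset_ball (by linarith)).trans hb⟩
  have hmax : ∀ r ∈ Ioo (-δ) δ, ∀ θ, 0 < max (x r) (y r θ) := fun r hr θ =>
    (px r hr).trans_le (le_max_left _ _)
  have cx : ContinuousOn x (Ioo (-δ) δ) := fun r hr => (hx r hr).continuousAt.continuousWithinAt
  -- continuity in θ
  have cyt : ∀ r ∈ Ioo (-δ) δ, Continuous (y r) := by
    intro r hr
    have h1 : ContinuousOn (fun θ : ℝ => y (r, θ).1 (r, θ).2) univ :=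
      cy.comp (f := fun θ : ℝ => (r, θ)) (by fun_prop) (fun θ _ => ⟨hr, mem_univ _⟩)
    simpa [continuousOn_univ] using h1
  have cy1t : ∀ r ∈ Ioo (-δ) δ, Continuous (y1 r) := by
    intro r hr
    have h1 : ContinuousOn (fun θ : ℝ => y1 (r, θ).1 (r, θ).2) univ :=
      cy1.comp (f := fun θ : ℝ => (r, θ)) (by fun_prop) (fun θ _ => ⟨hr, mem_univ _⟩)
    simpa [continuousOn_univ] using h1
  have cPh : ∀ r ∈ Ioo (-δ) δ, Continuous fun θ => Ph (x r) (y r θ) := by
    intro r hr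
    unfold Ph
    have c1 : Continuous fun θ => max (x r) (y r θ) := continuous_const.max (cyt r hr)
    have c2 : Continuous fun θ => Real.log (max (x r) (y r θ) / x r) :=
      (c1.div_const _).log fun θ => (div_pos (hmax r hr θ) (px r hr)).ne'
    exact (c1.sub continuous_const).sub (continuous_const.mul c2)
  have cD : ∀ r ∈ Ioo (-δ) δ, Continuous fun θ => (1 - x r / max (x r) (y r θ)) * y1 r θ -
      x1 r * Real.log (max (x r) (y r θ) / x r) := by
    intro r hr
    have c1 : Continuous fun θ => max (x r) (y r θ) := continuous_const.max (cyt r hr)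
    have c2 : Continuous fun θ => Real.log (max (x r) (y r θ) / x r) :=
      (c1.div_const _).log fun θ => (div_pos (hmax r hr θ) (px r hr)).ne'
    have c3 : Continuous fun θ => x r / max (x r) (y r θ) :=
      continuous_const.div c1 fun θ => (hmax r hr θ).ne'
    exact ((continuous_const.sub c3).mul (cy1t r hr)).sub (continuous_const.mul c2)
  -- bounds on the compact set
  have hK : IsCompact (Metric.closedBall s ε ×ˢ Icc (-π) π) :=
    (isCompact_closedBall s ε).prod isCompact_Icc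
  have hKs : Metric.closedBall s ε ×ˢ Icc (-π) π ⊆ Ioo (-δ) δ ×ˢ (univ : Set ℝ) :=
    prod_mono hb (subset_univ _)
  have cF : ContinuousOn (fun p : ℝ × ℝ => (1 - x p.1 / max (x p.1) (y p.1 p.2)) * y1 p.1 p.2 -
      x1 p.1 * Real.log (max (x p.1) (y p.1 p.2) / x p.1)) (Ioo (-δ) δ ×ˢ (univ : Set ℝ)) := by
    have ex : ContinuousOn (fun p : ℝ × ℝ => x p.1) (Ioo (-δ) δ ×ˢ (univ : Set ℝ)) :=
      cx.comp continuousOn_fst fun p hp => hp.1
    have ex1 : ContinuousOn (fun p : ℝ × ℝ => x1 p.1) (Ioo (-δ) δ ×ˢ (univ : Set ℝ)) :=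
      cx1.comp continuousOn_fst fun p hp => hp.1
    have em : ContinuousOn (fun p : ℝ × ℝ => max (x p.1) (y p.1 p.2))
        (Ioo (-δ) δ ×ˢ (univ : Set ℝ)) := ex.sup cy
    have eL : ContinuousOn (fun p : ℝ × ℝ => Real.log (max (x p.1) (y p.1 p.2) / x p.1))
        (Ioo (-δ) δ ×ˢ (univ : Set ℝ)) :=
      (em.div ex fun p hp => (px _ hp.1).ne').log fun p hp =>
        (div_pos (hmax _ hp.1 _) (px _ hp.1)).ne'
    have eq : ContinuousOn (fun p : ℝ × ℝ => x p.1 / max (x p.1) (y p.1 p.2))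
        (Ioo (-δ) δ ×ˢ (univ : Set ℝ)) := ex.div em fun p hp => (hmax _ hp.1 _).ne'
    exact ((continuousOn_const.sub eq).mul cy1).sub (ex1.mul eL)
  obtain ⟨B, hB⟩ := (hK.image_of_continuousOn (cF.mono hKs)).isBounded.exists_norm_le
  have hpi : (-π : ℝ) ≤ π := by linarith [Real.pi_pos]
  have hres := intervalIntegral.hasDerivAt_integral_of_dominated_loc_of_deriv_le
    (μ := volume) (a := -π) (b := π) (x₀ := s) (s := Metric.ball s ε)
    (F := fun r θ => Ph (x r) (y r θ))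
    (F' := fun r θ => (1 - x r / max (x r) (y r θ)) * y1 r θ -
      x1 r * Real.log (max (x r) (y r θ) / x r)) (bound := fun _ => B)
    (Metric.ball_mem_nhds s hε) ?_ ?_ ?_ ?_ ?_ ?_
  · exact hres.2
  · filter_upwards [Ioo_mem_nhds hs.1 hs.2] with r hr
    exact (cPh r hr).aestronglyMeasurable
  · exact (cPh s hs).intervalIntegrable _ _
  · exact (cD s hs).aestronglyMeasurable
  · refine Filter.Eventually.of_forall fun θ hθ r hr => ?_
    rw [uIoc_of_le hpi] at hθ
    exact hB _ ⟨(r, θ), ⟨Metric.ball_subset_closedBall hr, ⟨hθ.1.le, hθ.2⟩⟩, rfl⟩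
  · exact intervalIntegrable_const
  · refine Filter.Eventually.of_forall fun θ _ r hr => ?_
    have hr' := hb (Metric.ball_subset_closedBall hr)
    exact Ph_hasDerivAt (hx r hr') (hy r hr' θ) (px r hr')

end Pool.Agent.H36.SZ
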