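import Pool.Agent.H36.SZ.Phl

/-!
# The second derivative of `int Ph (x s) (y s θ) dθ`

PROOF. `hasDerivAt_integral_of_dominated_loc_of_lip` (interval version
`intervalIntegral.hasDerivAt_integral_of_dominated_loc_of_lip`) at the point `0` for
`k s θ = (1 - x s / m s θ) y1 s θ - x1 s log (m s θ / x s)`, `m = max (x s) (y s θ)`.
LIPSCHITZ: on the convex compact `[-δ/2, δ/2] × [-π, π]` all of `x, x1, x2, y, y1, y2` are bounded
by some `B` and `x >= a > 0`. So `x`, `x1` are `B`-Lipschitz in `s`, and so are `y`, `y1` for every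
`θ` (`Convex.lipschitzOnWith_of_nnnorm_hasDerivWithin_le` / mean value theorem); `m` is
`B`-Lipschitz (max of Lipschitz functions), `a <= m <= B`; `x/m`, `log m`, `log x` are Lipschitz
(`|log u - log v| <= |u - v| / a`), products of bounded Lipschitz functions are Lipschitz. The
constant does not depend on `θ`.
POINTWISE DERIVATIVE at `s = 0` for `θ` with `y 0 θ ≠ x 0` (almost every `θ` of `Ioc (-π) π`):
if `y 0 θ > x 0` then `m = y` near `0` and the derivative is
`(1 - x/y) y2 - (x1/y - x y1/y^2) y1 - x2 log (y/x) - x1 (y1/y - x1/x)`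
`= (1 - x/y) y2 + x y1^2/y^2 - 2 x1 y1/y + x1^2/x - x2 log (y/x)`;
if `y 0 θ < x 0` then `k = 0` near `0` and the derivative is `0`.
So the derivative is the integral over `Ioc (-π) π` of the indicator of `{x 0 < y 0 θ}` times the
expression, i.e. the set integral (`integral_indicator`, `setIntegral_indicator`; the set is
measurable since `y 0` is continuous). Measurability of the derivative in `θ`: indicator of a
measurable set times a function continuous on the set where `y 0 θ > 0`; or use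
`aestronglyMeasurable` of a set-restricted `ContinuousOn` function. Measurability of `k s` for `s`
near `0`: continuous in `θ`.
-/

open MeasureTheory Set Filter Topology
open scoped Real

namespace Pool.Agent.H36.SZ

private theorem d2b_lipF {a B x x' y y' x1 x1' y1 y1' e : ℝ} (ha : 0 < a) (he : 0 ≤ e)
    (hx : a ≤ x) (hx' : a ≤ x') (hyB : y ≤ B) (hyB' : y' ≤ B)
    (hxB : x ≤ B) (hxB' : x' ≤ B) (hx1 : |x1| ≤ B) (hy1' : |y1'| ≤ B)
    (dx : |x - x'| ≤ B * e) (dy : |y - y'| ≤ B * e) (dx1 : |x1 - x1'| ≤ B * e)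
    (dy1 : |y1 - y1'| ≤ B * e) :
    |((1 - x / max x y) * y1 - x1 * Real.log (max x y / x)) -
      ((1 - x' / max x' y') * y1' - x1' * Real.log (max x' y' / x'))| ≤
      (B + B * (2 * B / a) + B * (B / a * (2 * B / a)) + B / a * B) * e := by
  have hB : 0 < B := lt_of_lt_of_le ha (hx.trans hxB)
  have x0 : 0 < x := lt_of_lt_of_le ha hx
  have x0' : 0 < x' := lt_of_lt_of_le ha hx'
  set m := max x y with hm
  set m' := max x' y' with hm'
  have hxm : x ≤ m := le_max_left _ _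
  have hxm' : x' ≤ m' := le_max_left _ _
  have m0 : 0 < m := lt_of_lt_of_le x0 hxm
  have m0' : 0 < m' := lt_of_lt_of_le x0' hxm'
  have mB : m ≤ B := max_le hxB hyB
  have mB' : m' ≤ B := max_le hxB' hyB'
  have dm : |m - m'| ≤ B * e := by
    rw [hm, hm']
    exact (abs_max_sub_max_le_max x y x' y').trans (max_le dx dy)
  set p := x / m with hp
  set p' := x' / m' with hp'
  have p0 : 0 < p := div_pos x0 m0
  have p0' : 0 < p' := div_pos x0' m0'
  have p1 : p ≤ 1 := (div_le_one m0).2 hxm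
  have p1' : p' ≤ 1 := (div_le_one m0').2 hxm'
  have pa : a / B ≤ p := by
    rw [hp]
    exact div_le_div₀ x0.le hx m0 mB
  have pa' : a / B ≤ p' := by
    rw [hp']
    exact div_le_div₀ x0'.le hx' m0' mB'
  have aB : 0 < a / B := div_pos ha hB
  -- the difference of the quotients
  have dp : |p - p'| ≤ 2 * B / a * e := by
    have h1 : p - p' = (x - x') / m + p' * ((m' - m) / m) := by
      rw [hp, hp']
      field_simp
      ring
    have h2 : |(x - x') / m| ≤ B * e / a := by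
      rw [abs_div, abs_of_pos m0]
      exact div_le_div₀ (by positivity) dx ha (hx.trans hxm)
    have h3 : |p' * ((m' - m) / m)| ≤ B * e / a := by
      rw [abs_mul, abs_of_pos p0', abs_div, abs_of_pos m0, abs_sub_comm]
      have h4 : |m - m'| / m ≤ B * e / a := div_le_div₀ (by positivity) dm ha (hx.trans hxm)
      calc p' * (|m - m'| / m) ≤ 1 * (|m - m'| / m) :=
            mul_le_mul_of_nonneg_right p1' (by positivity)
        _ ≤ B * e / a := by rw [one_mul]; exact h4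
    calc |p - p'| ≤ |(x - x') / m| + |p' * ((m' - m) / m)| := by rw [h1]; exact abs_add_le _ _
      _ ≤ B * e / a + B * e / a := add_le_add h2 h3
      _ = 2 * B / a * e := by ring
  have lg : ∀ u v : ℝ, a / B ≤ u → a / B ≤ v → Real.log u - Real.log v ≤ B / a * |u - v| := by
    intro u v hu hv
    have u0 : 0 < u := lt_of_lt_of_le aB hu
    have v0 : 0 < v := lt_of_lt_of_le aB hv
    rw [← Real.log_div u0.ne' v0.ne']
    have h1 : Real.log (u / v) ≤ u / v - 1 := Real.log_le_sub_one_of_pos (div_pos u0 v0)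
    have h2 : u / v - 1 = (u - v) / v := by field_simp
    have h3 : (u - v) / v ≤ |u - v| / v := div_le_div_of_nonneg_right (le_abs_self _) v0.le
    have h4 : |u - v| / v ≤ |u - v| / (a / B) :=
      div_le_div_of_nonneg_left (abs_nonneg _) aB hv
    have h5 : |u - v| / (a / B) = B / a * |u - v| := by field_simp
    linarith
  have dl : |Real.log p - Real.log p'| ≤ B / a * (2 * B / a) * e := by
    have h1 := lg p p' pa pa'
    have h2 := lg p' p pa' pa
    rw [abs_sub_comm p' p] at h2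
    have h3 : B / a * |p - p'| ≤ B / a * (2 * B / a * e) :=
      mul_le_mul_of_nonneg_left dp (by positivity)
    rw [abs_le]
    constructor <;> nlinarith
  have l1 : |Real.log p'| ≤ B / a := by
    have h1 : Real.log p' ≤ 0 := Real.log_nonpos p0'.le p1'
    rw [abs_of_nonpos h1, ← Real.log_inv]
    have h2 : Real.log p'⁻¹ ≤ p'⁻¹ := (Real.log_le_self (by positivity))
    have h3 : p'⁻¹ ≤ (a / B)⁻¹ := inv_anti₀ aB pa'
    exact h2.trans (h3.trans (inv_div a B).le)
  have e1 : Real.log (m / x) = -Real.log p := by rw [← Real.log_inv, hp, inv_div]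
  have e2 : Real.log (m' / x') = -Real.log p' := by rw [← Real.log_inv, hp', inv_div]
  rw [e1, e2]
  have key : ((1 - p) * y1 - x1 * -Real.log p) - ((1 - p') * y1' - x1' * -Real.log p') =
      (1 - p) * (y1 - y1') + (p' - p) * y1' + x1 * (Real.log p - Real.log p') +
        (x1 - x1') * Real.log p' := by ring
  rw [key]
  have t1 : |(1 - p) * (y1 - y1')| ≤ B * e := by
    rw [abs_mul, abs_of_nonneg (by linarith : (0 : ℝ) ≤ 1 - p)]
    calc (1 - p) * |y1 - y1'| ≤ 1 * |y1 - y1'| :=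
          mul_le_mul_of_nonneg_right (by linarith) (abs_nonneg _)
      _ ≤ B * e := by rw [one_mul]; exact dy1
  have t2 : |(p' - p) * y1'| ≤ 2 * B / a * e * B := by
    rw [abs_mul, abs_sub_comm]
    exact mul_le_mul dp hy1' (abs_nonneg _) (by positivity)
  have t3 : |x1 * (Real.log p - Real.log p')| ≤ B * (B / a * (2 * B / a) * e) := by
    rw [abs_mul]
    exact mul_le_mul hx1 dl (abs_nonneg _) hB.le
  have t4 : |(x1 - x1') * Real.log p'| ≤ B * e * (B / a) := by
    rw [abs_mul]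
    exact mul_le_mul dx1 l1 (abs_nonneg _) (by positivity)
  calc _ ≤ |(1 - p) * (y1 - y1')| + |(p' - p) * y1'| + |x1 * (Real.log p - Real.log p')| +
        |(x1 - x1') * Real.log p'| := by
        refine (abs_add_le _ _).trans (add_le_add_left ?_ _)
        refine (abs_add_le _ _).trans (add_le_add_left ?_ _)
        exact abs_add_le _ _
    _ ≤ B * e + 2 * B / a * e * B + B * (B / a * (2 * B / a) * e) + B * e * (B / a) := by
        linarith
    _ = _ := by ring

private theorem d2b_mvt {f f' : ℝ → ℝ} {S : Set ℝ} {B s s' : ℝ} (hS : Convex ℝ S)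
    (hf : ∀ r ∈ S, HasDerivAt f (f' r) r) (hB : ∀ r ∈ S, |f' r| ≤ B) (hs : s ∈ S)
    (hs' : s' ∈ S) : |f s - f s'| ≤ B * |s - s'| := by
  have := Convex.norm_image_sub_le_of_norm_hasDerivWithin_le (f := f) (f' := f') (s := S)
    (C := B) (fun r hr => (hf r hr).hasDerivWithinAt) (fun r hr => hB r hr) hS hs' hs
  simpa [Real.norm_eq_abs] using this

private theorem d2b_diff {y y1 y2 : ℝ → ℝ} {x x1 x2 : ℝ → ℝ} (hy : HasDerivAt y (y1 0) 0)
    (hy1 : HasDerivAt y1 (y2 0) 0) (hx : HasDerivAt x (x1 0) 0) (hx1 : HasDerivAt x1 (x2 0) 0)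
    (px : 0 < x 0) (hne : y 0 ≠ x 0) :
    HasDerivAt (fun s => (1 - x s / max (x s) (y s)) * y1 s -
        x1 s * Real.log (max (x s) (y s) / x s))
      (if x 0 < y 0 then ((1 - x 0 / y 0) * y2 0 + x 0 * y1 0 ^ 2 / y 0 ^ 2 -
          2 * x1 0 * y1 0 / y 0 + x1 0 ^ 2 / x 0 - x2 0 * Real.log (y 0 / x 0)) else 0) 0 := by
  have cx : ContinuousAt x 0 := hx.continuousAt
  have cy : ContinuousAt y 0 := hy.continuousAt
  rcases lt_or_gt_of_ne hne with h | h
  · rw [if_neg (not_lt.2 h.le)]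
    have e1 : ∀ᶠ s in 𝓝 (0 : ℝ), y s < x s := (cy.eventually_lt cx h)
    have e2 : ∀ᶠ s in 𝓝 (0 : ℝ), 0 < x s := cx.eventually (lt_mem_nhds px)
    refine (hasDerivAt_const (0 : ℝ) (0 : ℝ)).congr_of_eventuallyEq ?_
    filter_upwards [e1, e2] with s h1 h2
    rw [max_eq_left h1.le, div_self h2.ne', sub_self, Real.log_one, zero_mul, mul_zero, sub_zero]
  · rw [if_pos h]
    have e1 : ∀ᶠ s in 𝓝 (0 : ℝ), x s < y s := (cx.eventually_lt cy h)
    have y0 : 0 < y 0 := px.trans h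
    have d1 : HasDerivAt (fun s => (1 - x s / y s) * y1 s - x1 s * Real.log (y s / x s))
        ((0 - (x1 0 * y 0 - x 0 * y1 0) / y 0 ^ 2) * y1 0 + (1 - x 0 / y 0) * y2 0 -
          (x2 0 * Real.log (y 0 / x 0) +
            x1 0 * (((y1 0 * x 0 - y 0 * x1 0) / x 0 ^ 2) / (y 0 / x 0)))) 0 :=
      (((hasDerivAt_const (0 : ℝ) (1 : ℝ)).sub (hx.div hy y0.ne')).mul hy1).sub
        (hx1.mul ((hy.div hx px.ne').log (div_pos y0 px).ne'))
    refine (d1.congr_of_eventuallyEq ?_).congr_deriv ?_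
    · filter_upwards [e1] with s h1
      rw [max_eq_right h1.le]
    · field_simp
      ring

theorem dZ2 {y y1 y2 : ℝ → ℝ → ℝ} {x x1 x2 : ℝ → ℝ} {δ : ℝ} (hδ : 0 < δ)
    (hy : ∀ s ∈ Ioo (-δ) δ, ∀ θ, HasDerivAt (fun r => y r θ) (y1 s θ) s)
    (hy1 : ∀ s ∈ Ioo (-δ) δ, ∀ θ, HasDerivAt (fun r => y1 r θ) (y2 s θ) s)
    (cy : ContinuousOn (fun p : ℝ × ℝ => y p.1 p.2) (Ioo (-δ) δ ×ˢ univ))
    (cy1 : ContinuousOn (fun p : ℝ × ℝ => y1 p.1 p.2) (Ioo (-δ) δ ×ˢ univ))
    (cy2 : ContinuousOn (fun p : ℝ × ℝ => y2 p.1 p.2) (Ioo (-δ) δ ×ˢ univ))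
    (hx : ∀ s ∈ Ioo (-δ) δ, HasDerivAt x (x1 s) s)
    (hx1 : ∀ s ∈ Ioo (-δ) δ, HasDerivAt x1 (x2 s) s)
    (cx2 : ContinuousOn x2 (Ioo (-δ) δ))
    (px : ∀ s ∈ Ioo (-δ) δ, 0 < x s)
    (nul : volume {θ : ℝ | θ ∈ Ioc (-π) π ∧ y 0 θ = x 0} = 0) :
    HasDerivAt (fun s => ∫ θ in (-π)..π, ((1 - x s / max (x s) (y s θ)) * y1 s θ -
        x1 s * Real.log (max (x s) (y s θ) / x s)))
      (∫ θ in {θ : ℝ | θ ∈ Ioc (-π) π ∧ x 0 < y 0 θ},
        ((1 - x 0 / y 0 θ) * y2 0 θ + x 0 * y1 0 θ ^ 2 / y 0 θ ^ 2 -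
          2 * x1 0 * y1 0 θ / y 0 θ + x1 0 ^ 2 / x 0 - x2 0 * Real.log (y 0 θ / x 0))) 0 := by
  have h0 : (0 : ℝ) ∈ Ioo (-δ) δ := ⟨by linarith, hδ⟩
  set S : Set ℝ := Icc (-(δ / 2)) (δ / 2) with hS
  have hSI : S ⊆ Ioo (-δ) δ := by
    intro s hs
    exact ⟨by linarith [hs.1], by linarith [hs.2]⟩
  have hSc : Convex ℝ S := convex_Icc _ _
  have hSn : S ∈ 𝓝 (0 : ℝ) := Icc_mem_nhds (by linarith) (by linarith)
  have h0S : (0 : ℝ) ∈ S := ⟨by linarith, by linarith⟩
  -- continuity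
  have cx : ContinuousOn x S := fun s hs => (hx s (hSI hs)).continuousAt.continuousWithinAt
  have cx1 : ContinuousOn x1 S := fun s hs => (hx1 s (hSI hs)).continuousAt.continuousWithinAt
  have cx2' : ContinuousOn x2 S := cx2.mono hSI
  have sl : ∀ {g : ℝ → ℝ → ℝ}, ContinuousOn (fun p : ℝ × ℝ => g p.1 p.2)
      (Ioo (-δ) δ ×ˢ univ) → ∀ s ∈ Ioo (-δ) δ, Continuous (g s) := by
    intro g hg s hs
    have h1 : ContinuousOn (fun θ : ℝ => (s, θ)) univ := by fun_prop
    have h2 := hg.comp h1 (fun θ _ => ⟨hs, mem_univ _⟩)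
    exact continuousOn_univ.1 h2
  -- bounds
  have bdg : ∀ {g : ℝ → ℝ → ℝ}, ContinuousOn (fun p : ℝ × ℝ => g p.1 p.2)
      (Ioo (-δ) δ ×ˢ univ) → ∃ B, ∀ s ∈ S, ∀ θ ∈ Icc (-π) π, |g s θ| ≤ B := by
    intro g hg
    have hK : IsCompact (S ×ˢ Icc (-π) π) := isCompact_Icc.prod isCompact_Icc
    obtain ⟨B, hB⟩ := hK.exists_bound_of_continuousOn
      (hg.mono (prod_mono hSI (subset_univ _)))
    exact ⟨B, fun s hs θ hθ => hB (s, θ) ⟨hs, hθ⟩⟩
  have bdx : ∀ {g : ℝ → ℝ}, ContinuousOn g S → ∃ B, ∀ s ∈ S, |g s| ≤ B := by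
    intro g hg
    obtain ⟨B, hB⟩ := (isCompact_Icc (a := -(δ / 2)) (b := δ / 2)).exists_bound_of_continuousOn hg
    exact ⟨B, fun s hs => hB s hs⟩
  obtain ⟨B1, hB1⟩ := bdg cy
  obtain ⟨B2, hB2⟩ := bdg cy1
  obtain ⟨B3, hB3⟩ := bdg cy2
  obtain ⟨B4, hB4⟩ := bdx cx
  obtain ⟨B5, hB5⟩ := bdx cx1
  obtain ⟨B6, hB6⟩ := bdx cx2'
  obtain ⟨B, b1, b2, b3, b4, b5, b6⟩ : ∃ B, B1 ≤ B ∧ B2 ≤ B ∧ B3 ≤ B ∧ B4 ≤ B ∧ B5 ≤ B ∧
      B6 ≤ B := by
    refine ⟨max B1 (max B2 (max B3 (max B4 (max B5 B6)))), ?_, ?_, ?_, ?_, ?_, ?_⟩ <;> simp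
  obtain ⟨s0, hs0, hmin⟩ := (isCompact_Icc (a := -(δ / 2)) (b := δ / 2)).exists_isMinOn
    ⟨0, h0S⟩ cx
  set a := x s0 with ha
  have a0 : 0 < a := px s0 (hSI hs0)
  have xa : ∀ s ∈ S, a ≤ x s := fun s hs => hmin hs
  set K : ℝ := B + B * (2 * B / a) + B * (B / a * (2 * B / a)) + B / a * B with hK
  have B0 : 0 < B := by
    have h1 := hB4 0 h0S
    have h2 : x 0 ≤ |x 0| := le_abs_self _
    linarith [xa 0 h0S]
  have K0 : 0 ≤ K := by rw [hK]; positivity
  -- the set
  set T : Set ℝ := {θ | x 0 < y 0 θ} with hT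
  have hTm : MeasurableSet T := measurableSet_lt measurable_const (sl cy 0 h0).measurable
  set G : ℝ → ℝ := fun θ => ((1 - x 0 / y 0 θ) * y2 0 θ + x 0 * y1 0 θ ^ 2 / y 0 θ ^ 2 -
          2 * x1 0 * y1 0 θ / y 0 θ + x1 0 ^ 2 / x 0 - x2 0 * Real.log (y 0 θ / x 0)) with hG
  have hGm : Measurable G := by
    have m0 : Measurable (y 0) := (sl cy 0 h0).measurable
    have m1 : Measurable (y1 0) := (sl cy1 0 h0).measurable
    have m2 : Measurable (y2 0) := (sl cy2 0 h0).measurable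
    have ml : Measurable (fun θ => Real.log (y 0 θ / x 0)) :=
      Real.measurable_log.comp (m0.div_const _)
    exact (((((measurable_const.sub (measurable_const.div m0)).mul m2).add
      ((measurable_const.mul (m1.pow_const 2)).div (m0.pow_const 2))).sub
      ((measurable_const.mul m1).div m0)).add_const _).sub (measurable_const.mul ml)
  have hπ : -π ≤ π := by linarith [Real.pi_pos]
  have hset : {θ : ℝ | θ ∈ Ioc (-π) π ∧ x 0 < y 0 θ} = Ioc (-π) π ∩ T := rfl
  have main := (intervalIntegral.hasDerivAt_integral_of_dominated_loc_of_lip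
    (μ := volume) (a := -π) (b := π) (x₀ := (0 : ℝ)) (s := S) (bound := fun _ => K)
    (F := fun s θ => ((1 - x s / max (x s) (y s θ)) * y1 s θ -
        x1 s * Real.log (max (x s) (y s θ) / x s)))
    (F' := T.indicator G) hSn ?_ ?_ ?_ ?_ ?_ ?_).2
  · have e : (∫ θ in (-π)..π, T.indicator G θ) = ∫ θ in {θ : ℝ | θ ∈ Ioc (-π) π ∧ x 0 < y 0 θ},
        G θ := by
      rw [intervalIntegral.integral_of_le hπ, hset, setIntegral_indicator hTm]
    rw [e] at main
    exact main
  · filter_upwards [hSn] with s hs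
    have m0 : Measurable (y s) := (sl cy s (hSI hs)).measurable
    have m1 : Measurable (y1 s) := (sl cy1 s (hSI hs)).measurable
    have mm : Measurable (fun θ => max (x s) (y s θ)) := measurable_const.max m0
    have : Measurable (fun θ => ((1 - x s / max (x s) (y s θ)) * y1 s θ -
        x1 s * Real.log (max (x s) (y s θ) / x s))) :=
      ((measurable_const.sub (measurable_const.div mm)).mul m1).sub
        (measurable_const.mul (Real.measurable_log.comp (mm.div_const _)))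
    exact this.aestronglyMeasurable
  · apply Continuous.intervalIntegrable
    have c0 : Continuous (y 0) := sl cy 0 h0
    have c1 : Continuous (y1 0) := sl cy1 0 h0
    have cm : Continuous (fun θ => max (x 0) (y 0 θ)) := continuous_const.max c0
    have x0 : 0 < x 0 := px 0 h0
    have mp : ∀ θ, 0 < max (x 0) (y 0 θ) := fun θ => lt_max_of_lt_left x0
    exact ((continuous_const.sub (continuous_const.div cm fun θ => (mp θ).ne')).mul c1).sub
      (continuous_const.mul ((cm.div_const _).log fun θ => (div_pos (mp θ) x0).ne'))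
  · exact (hGm.indicator hTm).aestronglyMeasurable
  · refine Eventually.of_forall fun θ hθ => ?_
    rw [uIoc_of_le hπ] at hθ
    have hθ' : θ ∈ Icc (-π) π := Ioc_subset_Icc_self hθ
    refine LipschitzOnWith.of_dist_le_mul fun s hs s' hs' => ?_
    rw [Real.dist_eq, Real.dist_eq, Real.coe_nnabs, abs_of_nonneg K0]
    refine d2b_lipF a0 (abs_nonneg _) (xa s hs) (xa s' hs')
      ((le_abs_self _).trans ((hB1 s hs θ hθ').trans b1))
      ((le_abs_self _).trans ((hB1 s' hs' θ hθ').trans b1))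
      ((le_abs_self _).trans ((hB4 s hs).trans b4))
      ((le_abs_self _).trans ((hB4 s' hs').trans b4))
      ((hB5 s hs).trans b5) ((hB2 s' hs' θ hθ').trans b2) ?_ ?_ ?_ ?_
    · exact d2b_mvt hSc (fun r hr => hx r (hSI hr)) (fun r hr => (hB5 r hr).trans b5) hs hs'
    · exact d2b_mvt (f := fun r => y r θ) (f' := fun r => y1 r θ) hSc
        (fun r hr => hy r (hSI hr) θ) (fun r hr => (hB2 r hr θ hθ').trans b2) hs hs'
    · exact d2b_mvt hSc (fun r hr => hx1 r (hSI hr)) (fun r hr => (hB6 r hr).trans b6) hs hs'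
    · exact d2b_mvt (f := fun r => y1 r θ) (f' := fun r => y2 r θ) hSc
        (fun r hr => hy1 r (hSI hr) θ) (fun r hr => (hB3 r hr θ hθ').trans b3) hs hs'
  · exact intervalIntegrable_const
  · have hn := measure_eq_zero_iff_ae_notMem.1 nul
    filter_upwards [hn] with θ h1 h2
    rw [uIoc_of_le hπ] at h2
    have hne : y 0 θ ≠ x 0 := fun h => h1 ⟨h2, h⟩
    have := d2b_diff (y := fun r => y r θ) (y1 := fun r => y1 r θ) (y2 := fun r => y2 r θ)
      (hy 0 h0 θ) (hy1 0 h0 θ) (hx 0 h0) (hx1 0 h0) (px 0 h0) hne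
    exact this

end Pool.Agent.H36.SZ
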