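import Pool.Agent.H15.Sig.EvenJ
import Pool.Agent.H15.Sig.Final

/-!
# Sharp integral means for the class Sigma, all orders `lambda >= 2`: definitions

Notation: `G F t θ = F (exp (t + i θ))`, `G1 = z F' (z)`, `G2 = z (z F')'`, so that
`d/dt G = G1`, `d/dθ G = i G1`, `d/dt G1 = G2`, `d/dθ G1 = i G2`;
`yy = |G|^2`, `yt`, `yq` its derivatives in `t` and `θ`, `ytt`, `yqq` the second derivatives.
`Ph x y = y - x - x log (y / x)` for `y > x`, `0` for `y <= x` (`x > 0`), `Ph 0 y = y`.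
`Zf F t x` is the integral of `Ph x |F|^2` over the circle `|z| = e^t`.
`Ax F t x` is the set of angles with `|F|^2 > x`; over this set
`EA = int |z F'|^2`, `MA = int |F|^2`, `OA = int phi'`, `ZA = int (|F|^2 - x) phi'`,
`LA = int log (|F|^2 / x)`, `VA = int (|F|^2 - x)`, `CA = measure`; here
`phi' = Re (z F' / F) = d/dθ arg F`.
`Sg F b q`: `F` is univalent in `|z| > q`, `0 < q < 1`, `F z = z + sum b_n z^(-n)` there, `b_0 = 0`.
`An F q`: `F` is analytic in `|z| > q`.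
`Ct F t x`: `(t, x)` is an interior point at which `D = Zf F - Zf J` has its positive maximum over
`t >= 0`, `x >= 0`, with the first and second order conditions.
-/

open Complex MeasureTheory Set Filter Topology
open scoped ComplexConjugate Real

namespace Pool.Agent.H36.SZ

/-- the extremal function `z + 1/z` -/
noncomputable def J (z : ℂ) : ℂ := z + z⁻¹

/-- `F` is analytic in `|z| > q` -/
structure An (F : ℂ → ℂ) (q : ℝ) : Prop where
  q0 : 0 ≤ q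
  diff : DifferentiableOn ℂ F {z : ℂ | q < ‖z‖}

/-- `F` is univalent in `|z| > q`, `0 < q < 1`, and `F z = z + b_1 / z + b_2 / z^2 + ...` there -/
structure Sg (F : ℂ → ℂ) (b : ℕ → ℂ) (q : ℝ) : Prop where
  q0 : 0 < q
  q1 : q < 1
  inj : Set.InjOn F {z : ℂ | q < ‖z‖}
  hasSum : ∀ z : ℂ, q < ‖z‖ → HasSum (fun n : ℕ => b n * z⁻¹ ^ n) (F z - z)
  b0 : b 0 = 0

/-- `F (exp (t + i θ))` -/
noncomputable def G (F : ℂ → ℂ) (t θ : ℝ) : ℂ := F (exp (t + θ * I))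

/-- `z F' (z)` at `z = exp (t + i θ)` -/
noncomputable def G1 (F : ℂ → ℂ) (t θ : ℝ) : ℂ := exp (t + θ * I) * deriv F (exp (t + θ * I))

/-- `z (z F' (z))'` at `z = exp (t + i θ)` -/
noncomputable def G2 (F : ℂ → ℂ) (t θ : ℝ) : ℂ :=
  exp (t + θ * I) * (deriv F (exp (t + θ * I)) +
    exp (t + θ * I) * deriv (deriv F) (exp (t + θ * I)))

/-- `|F|^2` -/
noncomputable def yy (F : ℂ → ℂ) (t θ : ℝ) : ℝ := ‖G F t θ‖ ^ 2

/-- `Re (conj F * z F')`, half of the `t`-derivative of `|F|^2` -/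
noncomputable def jr (F : ℂ → ℂ) (t θ : ℝ) : ℝ := (conj (G F t θ) * G1 F t θ).re

/-- `Im (conj F * z F')`, minus half of the `θ`-derivative of `|F|^2` -/
noncomputable def ji (F : ℂ → ℂ) (t θ : ℝ) : ℝ := (conj (G F t θ) * G1 F t θ).im

/-- half of the second `t`-derivative of `|F|^2` -/
noncomputable def ytt (F : ℂ → ℂ) (t θ : ℝ) : ℝ :=
  ‖G1 F t θ‖ ^ 2 + (conj (G F t θ) * G2 F t θ).re

/-- half of the second `θ`-derivative of `|F|^2` -/
noncomputable def yqq (F : ℂ → ℂ) (t θ : ℝ) : ℝ :=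
  ‖G1 F t θ‖ ^ 2 - (conj (G F t θ) * G2 F t θ).re

/-- the kernel: `y - x - x log (y / x)` for `y > x`, `0` for `y <= x` -/
noncomputable def Ph (x y : ℝ) : ℝ := max x y - x - x * Real.log (max x y / x)

/-- the integral of the kernel over the circle -/
noncomputable def Zf (F : ℂ → ℂ) (t x : ℝ) : ℝ := ∫ θ in (-π)..π, Ph x (yy F t θ)

/-- the set of angles where `|F|^2 > x` -/
def Ax (F : ℂ → ℂ) (t x : ℝ) : Set ℝ := {θ | θ ∈ Ioc (-π) π ∧ x < yy F t θ}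

noncomputable def EA (F : ℂ → ℂ) (t x : ℝ) : ℝ := ∫ θ in Ax F t x, ‖G1 F t θ‖ ^ 2
noncomputable def MA (F : ℂ → ℂ) (t x : ℝ) : ℝ := ∫ θ in Ax F t x, yy F t θ
noncomputable def OA (F : ℂ → ℂ) (t x : ℝ) : ℝ := ∫ θ in Ax F t x, jr F t θ / yy F t θ
noncomputable def ZA (F : ℂ → ℂ) (t x : ℝ) : ℝ :=
  ∫ θ in Ax F t x, (1 - x / yy F t θ) * jr F t θ
noncomputable def LA (F : ℂ → ℂ) (t x : ℝ) : ℝ := ∫ θ in Ax F t x, Real.log (yy F t θ / x)
noncomputable def VA (F : ℂ → ℂ) (t x : ℝ) : ℝ := ∫ θ in Ax F t x, (yy F t θ - x)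
noncomputable def CA (F : ℂ → ℂ) (t x : ℝ) : ℝ := ∫ _θ in Ax F t x, (1 : ℝ)

/-- the energy `int (R'^2 + R^2 psi^2 + ...)`:
`Q = E - M - 4 sinh 2t * Omega + 4 cosh 2t * |A|` -/
noncomputable def QA (F : ℂ → ℂ) (t x : ℝ) : ℝ :=
  EA F t x - MA F t x - 4 * Real.sinh (2 * t) * OA F t x + 4 * Real.cosh (2 * t) * CA F t x

/-- `N = int (|F|^2 - x) (1 - tanh t * phi')` -/
noncomputable def NA (F : ℂ → ℂ) (t x : ℝ) : ℝ := VA F t x - Real.tanh t * ZA F t x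

/-- the conditions at an interior point of positive maximum of `Zf F - Zf J` -/
structure Ct (F : ℂ → ℂ) (t x : ℝ) : Prop where
  t0 : 0 < t
  lo : 4 * Real.sinh t ^ 2 < x
  hi : x < 4 * Real.cosh t ^ 2
  pos : Zf J t x < Zf F t x
  gl : ∀ t' x' : ℝ, 0 ≤ t' → 0 ≤ x' → Zf F t' x' - Zf J t' x' ≤ Zf F t x - Zf J t x
  eL : LA F t x = LA J t x
  eZ : ZA F t x = ZA J t x
  leC : CA F t x ≤ CA J t x
  q2 : ∀ v : ℝ, 4 * (EA F t x - EA J t x) - 4 * v * (OA F t x - OA J t x) +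
    v ^ 2 * (CA F t x - CA J t x) / x ≤ 0

/-- `Re (k F)` -/
noncomputable def uk (k : ℂ) (F : ℂ → ℂ) (t θ : ℝ) : ℝ := (k * G F t θ).re

/-- the integral of `(f - c)_+` over the circle -/
noncomputable def Kf (f : ℝ → ℝ) (c : ℝ) : ℝ := ∫ θ in (-π)..π, max (f θ - c) 0

/-- the star function as an infimum over `|c| <= m`: `inf (Kf (Re (k F)) c + 2 b c)` -/
noncomputable def us (k : ℂ) (F : ℂ → ℂ) (m t b : ℝ) : ℝ :=
  sInf ((fun c : ℝ => Kf (uk k F t) c + 2 * b * c) '' Icc (-m) m)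

end Pool.Agent.H36.SZ
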