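import Pool.Agent.H36.SZ.Lap

/-!
# First and second derivative of `Zf` along the line `(t + a s, x + v s)`

PROOF. Choose `δ > 0` with `q < exp (t + a s)` and `0 < x + v s` for `|s| < δ` (continuity). Apply
`dZ1` and `dZ2` with `y s θ = yy F (t + a s) θ`, `y1 s θ = 2 a jr F (t + a s) θ`,
`y2 s θ = 2 a^2 ytt F (t + a s) θ`, `x s = x + v s`, `x1 = v`, `x2 = 0`; the hypotheses follow
from `An.hyy`, `An.hjr` (chain rule) and `An.cG`, `An.cG1`, `An.cG2`.
`Zf_d1`: the integrand `(1 - x/max) 2 a jr - v log (max/x)` is integrated with `An.ZA_eq`,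
`An.LA_eq`: `2 a ZA - v LA` at `(t + a s, x + v s)`.
`Zf_d2`: the function is, near `0`, the one of `dZ2` (again `ZA_eq`, `LA_eq`); the derivative is
`int over Ax of [(1 - x/y) 2 a^2 ytt + x (2 a jr)^2/y^2 - 2 v 2 a jr / y + v^2/x]
 = a^2 * 2 * (int [(1 - x/y) ytt + 2 x jr^2/y^2]) - 4 a v OA + v^2 CA / x
 = 4 a^2 EA - 4 a v OA + v^2 CA / x` by `An.lap` (integrability: `An.iT`, `An.iO`).
-/

open Complex MeasureTheory Set Filter Topology
open scoped ComplexConjugate Real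

namespace Pool.Agent.H36.SZ

variable {F : ℂ → ℂ} {q : ℝ}

private theorem dir_nbhd {t x : ℝ} (a v : ℝ) (ht : q < Real.exp t) (hx : 0 < x) :
    ∃ δ : ℝ, 0 < δ ∧ ∀ s ∈ Ioo (-δ) δ, q < Real.exp (t + a * s) ∧ 0 < x + v * s := by
  have h1 : ∀ᶠ s in 𝓝 (0:ℝ), q < Real.exp (t + a * s) := by
    have hc : ContinuousAt (fun s : ℝ => Real.exp (t + a * s)) 0 := by fun_prop
    refine hc.eventually (lt_mem_nhds ?_)
    simpa using ht
  have h2 : ∀ᶠ s in 𝓝 (0:ℝ), 0 < x + v * s := by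
    have hc : ContinuousAt (fun s : ℝ => x + v * s) 0 := by fun_prop
    refine hc.eventually (lt_mem_nhds ?_)
    simpa using hx
  obtain ⟨δ, hδ, hb⟩ := Metric.eventually_nhds_iff_ball.1 (h1.and h2)
  refine ⟨δ, hδ, fun s hs => hb s ?_⟩
  rw [Real.ball_eq_Ioo, zero_sub, zero_add]
  exact hs

private theorem dir_hT (t a s : ℝ) : HasDerivAt (fun r : ℝ => t + a * r) a s := by
  have h1 : HasDerivAt (fun r : ℝ => a * r) (a * 1) s := (hasDerivAt_id s).const_mul a
  rw [mul_one] at h1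
  exact h1.const_add t

private theorem dir_hy (h : An F q) {t : ℝ} (a : ℝ) {s : ℝ} (hs : q < Real.exp (t + a * s))
    (θ : ℝ) : HasDerivAt (fun r => yy F (t + a * r) θ) (2 * a * jr F (t + a * s) θ) s := by
  have h1 := HasDerivAt.comp s (h.hyy θ hs) (dir_hT t a s)
  have h2 : 2 * jr F (t + a * s) θ * a = 2 * a * jr F (t + a * s) θ := by ring
  rw [h2] at h1
  exact h1

private theorem dir_hy1 (h : An F q) {t : ℝ} (a : ℝ) {s : ℝ} (hs : q < Real.exp (t + a * s))
    (θ : ℝ) : HasDerivAt (fun r => 2 * a * jr F (t + a * r) θ)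
      (2 * a ^ 2 * ytt F (t + a * s) θ) s := by
  have h1 := (HasDerivAt.comp s (h.hjr θ hs) (dir_hT t a s)).const_mul (2 * a)
  have h2 : 2 * a * (ytt F (t + a * s) θ * a) = 2 * a ^ 2 * ytt F (t + a * s) θ := by ring
  rw [h2] at h1
  exact h1

private theorem dir_map {t a δ : ℝ} (hb : ∀ s ∈ Ioo (-δ) δ, q < Real.exp (t + a * s)) :
    MapsTo (fun p : ℝ × ℝ => (t + a * p.1, p.2)) (Ioo (-δ) δ ×ˢ univ)
      {p : ℝ × ℝ | q < Real.exp p.1} := by
  intro p hp
  exact hb p.1 hp.1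

private theorem dir_cG (h : An F q) {t a δ : ℝ}
    (hb : ∀ s ∈ Ioo (-δ) δ, q < Real.exp (t + a * s)) :
    ContinuousOn (fun p : ℝ × ℝ => G F (t + a * p.1) p.2) (Ioo (-δ) δ ×ˢ univ) := by
  have h1 : ContinuousOn (fun p : ℝ × ℝ => (t + a * p.1, p.2)) (Ioo (-δ) δ ×ˢ (univ : Set ℝ)) :=
    Continuous.continuousOn (by fun_prop)
  exact h.cG.comp h1 (dir_map hb)

private theorem dir_cG1 (h : An F q) {t a δ : ℝ}
    (hb : ∀ s ∈ Ioo (-δ) δ, q < Real.exp (t + a * s)) :
    ContinuousOn (fun p : ℝ × ℝ => G1 F (t + a * p.1) p.2) (Ioo (-δ) δ ×ˢ univ) := by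
  have h1 : ContinuousOn (fun p : ℝ × ℝ => (t + a * p.1, p.2)) (Ioo (-δ) δ ×ˢ (univ : Set ℝ)) :=
    Continuous.continuousOn (by fun_prop)
  exact h.cG1.comp h1 (dir_map hb)

private theorem dir_cG2 (h : An F q) {t a δ : ℝ}
    (hb : ∀ s ∈ Ioo (-δ) δ, q < Real.exp (t + a * s)) :
    ContinuousOn (fun p : ℝ × ℝ => G2 F (t + a * p.1) p.2) (Ioo (-δ) δ ×ˢ univ) := by
  have h1 : ContinuousOn (fun p : ℝ × ℝ => (t + a * p.1, p.2)) (Ioo (-δ) δ ×ˢ (univ : Set ℝ)) :=
    Continuous.continuousOn (by fun_prop)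
  exact h.cG2.comp h1 (dir_map hb)

private theorem dir_cy (h : An F q) {t a δ : ℝ}
    (hb : ∀ s ∈ Ioo (-δ) δ, q < Real.exp (t + a * s)) :
    ContinuousOn (fun p : ℝ × ℝ => yy F (t + a * p.1) p.2) (Ioo (-δ) δ ×ˢ univ) := by
  unfold yy
  exact (dir_cG h hb).norm.pow 2

private theorem dir_cjr (h : An F q) {t a δ : ℝ}
    (hb : ∀ s ∈ Ioo (-δ) δ, q < Real.exp (t + a * s)) :
    ContinuousOn (fun p : ℝ × ℝ => jr F (t + a * p.1) p.2) (Ioo (-δ) δ ×ˢ univ) := by
  unfold jr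
  exact Complex.continuous_re.comp_continuousOn
    ((Complex.continuous_conj.comp_continuousOn (dir_cG h hb)).mul (dir_cG1 h hb))

private theorem dir_cytt (h : An F q) {t a δ : ℝ}
    (hb : ∀ s ∈ Ioo (-δ) δ, q < Real.exp (t + a * s)) :
    ContinuousOn (fun p : ℝ × ℝ => ytt F (t + a * p.1) p.2) (Ioo (-δ) δ ×ˢ univ) := by
  unfold ytt
  exact ((dir_cG1 h hb).norm.pow 2).add (Complex.continuous_re.comp_continuousOn
    ((Complex.continuous_conj.comp_continuousOn (dir_cG h hb)).mul (dir_cG2 h hb)))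

/-- the integral of the first derivative -/
private theorem dir_int (h : An F q) {t x : ℝ} (a v : ℝ) (ht : q < Real.exp t) (hx : 0 < x) :
    ∫ θ in (-π)..π, ((1 - x / max x (yy F t θ)) * (2 * a * jr F t θ) -
        v * Real.log (max x (yy F t θ) / x)) = 2 * a * ZA F t x - v * LA F t x := by
  have cG := h.cGt ht
  have cG1 := h.cG1t ht
  have cy : Continuous (fun θ => yy F t θ) := by
    unfold yy
    exact cG.norm.pow 2
  have cj : Continuous (fun θ => jr F t θ) := by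
    unfold jr
    exact Complex.continuous_re.comp ((Complex.continuous_conj.comp cG).mul cG1)
  have cm : Continuous (fun θ => max x (yy F t θ)) := continuous_const.max cy
  have hm : ∀ θ, max x (yy F t θ) ≠ 0 := fun θ => (lt_of_lt_of_le hx (le_max_left _ _)).ne'
  have c1 : Continuous (fun θ => (1 - x / max x (yy F t θ)) * jr F t θ) :=
    (continuous_const.sub (continuous_const.div cm hm)).mul cj
  have c2 : Continuous (fun θ => Real.log (max x (yy F t θ) / x)) :=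
    (cm.div_const x).log (fun θ => div_ne_zero (hm θ) hx.ne')
  rw [← h.ZA_eq ht hx, ← h.LA_eq ht hx, ← intervalIntegral.integral_const_mul,
    ← intervalIntegral.integral_const_mul, ← intervalIntegral.integral_sub]
  · refine intervalIntegral.integral_congr fun θ _ => ?_
    ring
  · exact (continuous_const.mul c1).intervalIntegrable _ _
  · exact (continuous_const.mul c2).intervalIntegrable _ _

theorem An.Zf_d1 (h : An F q) {t x : ℝ} (a v : ℝ) (ht : q < Real.exp t) (hx : 0 < x) :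
    ∀ᶠ s in 𝓝 (0:ℝ), HasDerivAt (fun r => Zf F (t + a * r) (x + v * r))
      (2 * a * ZA F (t + a * s) (x + v * s) - v * LA F (t + a * s) (x + v * s)) s := by
  obtain ⟨δ, hδ, hb⟩ := dir_nbhd (q := q) a v ht hx
  filter_upwards [Ioo_mem_nhds (neg_lt_zero.2 hδ) hδ] with s hs
  have hb1 : ∀ s ∈ Ioo (-δ) δ, q < Real.exp (t + a * s) := fun s hs => (hb s hs).1
  have h1 := dZ1 (y := fun r θ => yy F (t + a * r) θ)
    (y1 := fun r θ => 2 * a * jr F (t + a * r) θ) (x := fun r => x + v * r) (x1 := fun _ => v)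
    (δ := δ) (fun s hs θ => dir_hy h a (hb1 s hs) θ) (dir_cy h hb1)
    ((dir_cjr h hb1).const_mul (2 * a)) (fun s _ => dir_hT x v s) continuousOn_const
    (fun s hs => (hb s hs).2) hs
  rw [← dir_int h a v (hb s hs).1 (hb s hs).2]
  exact h1

theorem An.Zf_d2 (h : An F q) {t x : ℝ} (a v : ℝ) (ht : q < Real.exp t) (hx : 0 < x)
    (nul : volume {θ : ℝ | θ ∈ Ioc (-π) π ∧ yy F t θ = x} = 0) :
    HasDerivAt (fun s => 2 * a * ZA F (t + a * s) (x + v * s) - v * LA F (t + a * s) (x + v * s))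
      (4 * a ^ 2 * EA F t x - 4 * a * v * OA F t x + v ^ 2 * CA F t x / x) 0 := by
  obtain ⟨δ, hδ, hb⟩ := dir_nbhd (q := q) a v ht hx
  have hb1 : ∀ s ∈ Ioo (-δ) δ, q < Real.exp (t + a * s) := fun s hs => (hb s hs).1
  have h1 := dZ2 (y := fun r θ => yy F (t + a * r) θ)
    (y1 := fun r θ => 2 * a * jr F (t + a * r) θ)
    (y2 := fun r θ => 2 * a ^ 2 * ytt F (t + a * r) θ)
    (x := fun r => x + v * r) (x1 := fun _ => v) (x2 := fun _ => 0)
    (δ := δ) hδ (fun s hs θ => dir_hy h a (hb1 s hs) θ) (fun s hs θ => dir_hy1 h a (hb1 s hs) θ)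
    (dir_cy h hb1) ((dir_cjr h hb1).const_mul (2 * a)) ((dir_cytt h hb1).const_mul (2 * a ^ 2))
    (fun s _ => dir_hT x v s) (fun s _ => hasDerivAt_const s v) continuousOn_const
    (fun s hs => (hb s hs).2) (by simpa using nul)
  simp only [mul_zero, add_zero] at h1
  have hval : ∫ θ in {θ : ℝ | θ ∈ Ioc (-π) π ∧ x < yy F t θ},
        ((1 - x / yy F t θ) * (2 * a ^ 2 * ytt F t θ) + x * (2 * a * jr F t θ) ^ 2 / yy F t θ ^ 2 -
          2 * v * (2 * a * jr F t θ) / yy F t θ + v ^ 2 / x - 0 * Real.log (yy F t θ / x)) =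
      4 * a ^ 2 * EA F t x - 4 * a * v * OA F t x + v ^ 2 * CA F t x / x := by
    change ∫ θ in Ax F t x, _ = _
    have i3 : IntegrableOn (fun _ : ℝ => (1:ℝ)) (Ax F t x) :=
      int_bdd (h.mAx ht x) (Ax_sub F t x) aestronglyMeasurable_const (M := 1) (by simp)
    have i1 := h.iT ht hx
    have i2 := h.iO ht hx
    have e1 : ∀ θ, ((1 - x / yy F t θ) * (2 * a ^ 2 * ytt F t θ) +
        x * (2 * a * jr F t θ) ^ 2 / yy F t θ ^ 2 -
          2 * v * (2 * a * jr F t θ) / yy F t θ + v ^ 2 / x - 0 * Real.log (yy F t θ / x)) =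
        2 * a ^ 2 * ((1 - x / yy F t θ) * ytt F t θ + 2 * x * jr F t θ ^ 2 / yy F t θ ^ 2) -
          4 * a * v * (jr F t θ / yy F t θ) + v ^ 2 / x * 1 := by
      intro θ
      ring
    simp only [e1]
    rw [integral_add, integral_sub, integral_const_mul, integral_const_mul, integral_const_mul,
      h.lap ht hx nul]
    · unfold OA CA
      ring
    · exact i1.const_mul _
    · exact i2.const_mul _
    · exact (i1.const_mul _).sub (i2.const_mul _)
    · exact i3.const_mul _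
  rw [hval] at h1
  refine h1.congr_of_eventuallyEq ?_
  filter_upwards [Ioo_mem_nhds (neg_lt_zero.2 hδ) hδ] with s hs
  exact (dir_int h a v (hb s hs).1 (hb s hs).2).symm

end Pool.Agent.H36.SZ
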