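import Pool.Agent.H36.SZ.Rel
import Pool.Agent.H36.SZ.Bas

/-!
# The energy inequality excludes a contact point

PROOF of `en`. At a contact point let `D = Zf F - Zf J > 0`. `Zf = VA - x LA` (`An.Zf_eq`) and `eL`:
`VA F - VA J = D`; `NA = VA - tanh t ZA` and `eZ`: `NA F - NA J = D`; `VA = MA - x CA`
(`An.VA_eq`): `MA F - MA J = D + x (CA F - CA J)`. `q2` with `v = 4 sinh 2t`:
`4 ΔE - 16 sinh 2t ΔΩ + 16 sinh^2 2t ΔC / x <= 0`. So
`ΔQ = ΔE - ΔM - 4 sinh 2t ΔΩ + 4 cosh 2t ΔC <= - D - x ΔC + 4 cosh 2t ΔC - 4 sinh^2 2t ΔC / x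
= - D + ((x - 4 sinh^2 t)(4 cosh^2 t - x) / x) ΔC` (identity
`(x - 4S^2)(4C^2 - x) = 4 cosh 2t x - x^2 - 4 sinh^2 2t`, `C^2 - S^2 = 1`, `cosh 2t = C^2 + S^2`,
`sinh 2t = 2SC`). With the hypothesis: `m D <= ΔQ - W0 ΔC <= - D`, so `(m + 1) D <= 0`: false.
-/

open Complex MeasureTheory Set Filter Topology
open scoped ComplexConjugate Real

namespace Pool.Agent.H36.SZ

variable {F : ℂ → ℂ} {b : ℕ → ℂ} {q : ℝ}

/-- `(x - 4 sinh^2 t) (4 cosh^2 t - x) / x` -/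
noncomputable def W0 (t x : ℝ) : ℝ :=
  (x - 4 * Real.sinh t ^ 2) * (4 * Real.cosh t ^ 2 - x) / x

theorem en (h : Sg F b q) {t x m : ℝ} (c : Ct F t x) (hm : 0 ≤ m)
    (hQ : m * (NA F t x - NA J t x) ≤ QA F t x - QA J t x + W0 t x * (CA J t x - CA F t x)) :
    False := by
  have hx : 0 < x := lt_of_le_of_lt (by positivity) c.lo
  have hqt : q < Real.exp t := h.q1.trans (by
    have := Real.add_one_lt_exp (ne_of_gt c.t0)
    have := c.t0
    linarith)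
  have h0t : (0 : ℝ) < Real.exp t := Real.exp_pos t
  have zF := h.an.Zf_eq hqt hx
  have zJ := an_J.Zf_eq h0t hx
  have vF := h.an.VA_eq (x := x) hqt
  have vJ := an_J.VA_eq (x := x) h0t
  have hpos := c.pos
  have hq2 := c.q2 (4 * Real.sinh (2 * t))
  have hW : W0 t x = 4 * Real.cosh (2 * t) - x - 4 * Real.sinh (2 * t) ^ 2 / x := by
    unfold W0
    rw [Real.cosh_two_mul, Real.sinh_two_mul]
    field_simp
    ring
  have eL := c.eL
  have eZ := c.eZ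
  unfold NA QA at hQ
  rw [hW] at hQ
  have e1 : (4 * Real.sinh (2 * t)) ^ 2 * (CA F t x - CA J t x) / x =
      4 * (4 * Real.sinh (2 * t) ^ 2 / x * (CA F t x - CA J t x)) := by
    ring
  rw [e1] at hq2
  rw [zF, zJ, eL] at hpos
  rw [eZ] at hQ
  have hD : 0 < VA F t x - VA J t x := by linarith
  have hmD : 0 ≤ m * (VA F t x - VA J t x) := mul_nonneg hm hD.le
  have e2 : m * (VA F t x - Real.tanh t * ZA J t x - (VA J t x - Real.tanh t * ZA J t x)) =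
      m * (VA F t x - VA J t x) := by
    ring
  rw [e2] at hQ
  nlinarith [hq2, hQ, hD, hmD, vF, vJ]

end Pool.Agent.H36.SZ
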