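import Pool.Agent.H36.SZ.No
import Pool.Agent.H12.PR.As

/-!
# All orders `lambda >= 2`, all radii
-/

open Complex MeasureTheory Set Filter Topology
open scoped ComplexConjugate Real
open Pool.Agent.H15.Sig

namespace Pool.Agent.H36.SZ

theorem dyn_all : Dyn := fun _ _ _ ht h0 h1 hT hL hs =>
  Pool.Agent.H12.PR.dyn ht h0 h1 hT hL hs

/-- for every order `lam >= 2` and every radius `r > 1` the maximum over the class Sigma is the
value for `z + 1/z`, attained exactly by the `z + c / z`, `|c| = 1` -/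
theorem fin_two {lam r : ℝ} (h2 : 2 ≤ lam) (hr : 1 < r) :
    IsGreatest {x : ℝ | ∃ F : ℂ → ℂ, ClassSigma F ∧ x = integralMean lam r F}
      (integralMean lam r (fun z => z + z⁻¹)) ∧
    ∀ F : ℂ → ℂ, ClassSigma F →
      (integralMean lam r F = integralMean lam r (fun z => z + z⁻¹) ↔
        ∃ c : ℂ, ‖c‖ = 1 ∧ ∀ z : ℂ, 1 < ‖z‖ → F z = z + c / z) :=
  fin2 dyn_all h2 hr

end Pool.Agent.H36.SZ
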