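import Pool.Agent.H36.SZ.Bd

/-!
# From the functions univalent in `|z| > q`, `q < 1`, to all functions of the class Sigma

PROOF of `fz`. Let `0 < s < t`, `p = e^s > 1`, `F_p z = F (p z) / p`, which is in the class `Sg` with
`q = 1/p` (`dil`). `G F_p (t-s) θ = G F t θ / p` and `Ph (x / p^2) (y / p^2) = Ph x y / p^2`
(`Ph_scale`), so the hypothesis for `F_p` at `(t-s, x/p^2)` is
`Zf F t x <= p^2 Zf J (t-s) (x/p^2)`; let `s -> 0` (`An.Zf_cont` for `J`).
-/

open Complex MeasureTheory Set Filter Topology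
open scoped ComplexConjugate Real

namespace Pool.Agent.H36.SZ

open Pool.Agent.H15.Sig

theorem Ph_scale {c : ℝ} (hc : 0 < c) (x y : ℝ) : Ph (c * x) (c * y) = c * Ph x y := by
  unfold Ph
  rw [← mul_max_of_nonneg _ _ hc.le, mul_div_mul_left _ _ hc.ne']
  ring

theorem fz (H : ∀ (F : ℂ → ℂ) (b : ℕ → ℂ) (q : ℝ), Sg F b q → ∀ t x : ℝ, 0 < t → 0 ≤ x →
    Zf F t x ≤ Zf J t x) {F : ℂ → ℂ} {b : ℕ → ℂ} (h : IsSig F b) {t x : ℝ} (ht : 0 < t)
    (hx : 0 ≤ x) : Zf F t x ≤ Zf J t x := by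
  have hJc : Continuous (fun s : ℝ => Real.exp (2 * s) *
      Zf J |t - s| |x / Real.exp (2 * s)|) := by
    have h1 : Continuous (fun s : ℝ => ((t - s, x / Real.exp (2 * s)) : ℝ × ℝ)) := by
      refine Continuous.prodMk (by fun_prop) ?_
      exact continuous_const.div (by fun_prop) (fun s => (Real.exp_pos _).ne')
    exact (by fun_prop : Continuous fun s : ℝ => Real.exp (2 * s)).mul
      ((an_J.Zf_cont one_pos).comp h1)
  have hlim : Tendsto (fun s : ℝ => Real.exp (2 * s) * Zf J |t - s| |x / Real.exp (2 * s)|)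
      (𝓝[>] 0) (𝓝 (Zf J t x)) := by
    have h1 := (hJc.tendsto 0).mono_left (nhdsWithin_le_nhds (s := Ioi (0:ℝ)))
    simpa [abs_of_pos ht, abs_of_nonneg hx] using h1
  refine ge_of_tendsto hlim ?_
  filter_upwards [Ioo_mem_nhdsGT ht] with s hs
  obtain ⟨hs0, hst⟩ := hs
  have hp : 1 < Real.exp s := Real.one_lt_exp_iff.2 hs0
  have hp2 : Real.exp (2 * s) = Real.exp s ^ 2 := by
    rw [← Real.exp_nat_mul]; norm_num
  have hpp : 0 < Real.exp (2 * s) := Real.exp_pos _
  have hd := dil h hp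
  have h1 := H _ _ _ hd (t - s) (x / Real.exp (2 * s)) (by linarith) (by positivity)
  have hG : ∀ θ : ℝ, yy (fun z => F ((Real.exp s : ℝ) * z) / (Real.exp s : ℝ)) (t - s) θ =
      (Real.exp (2 * s))⁻¹ * yy F t θ := by
    intro θ
    unfold yy G
    have e1 : ((Real.exp s : ℝ) : ℂ) * Complex.exp (((t - s : ℝ) : ℂ) + θ * I) =
        Complex.exp (t + θ * I) := by
      rw [Complex.ofReal_exp, ← Complex.exp_add]
      congr 1
      push_cast
      ring
    simp only
    rw [e1, norm_div, div_pow, Complex.norm_real, Real.norm_of_nonneg (Real.exp_pos s).le, hp2]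
    ring
  have hZ : Zf (fun z => F ((Real.exp s : ℝ) * z) / (Real.exp s : ℝ)) (t - s)
      (x / Real.exp (2 * s)) = (Real.exp (2 * s))⁻¹ * Zf F t x := by
    unfold Zf
    rw [← intervalIntegral.integral_const_mul]
    apply intervalIntegral.integral_congr
    intro θ _
    simp only
    rw [hG, div_eq_inv_mul, Ph_scale (inv_pos.2 hpp)]
  rw [hZ] at h1
  rw [abs_of_pos (by linarith : 0 < t - s), abs_of_nonneg (by positivity :
    0 ≤ x / Real.exp (2 * s))]
  have h2 := mul_le_mul_of_nonneg_left h1 hpp.le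
  rwa [← mul_assoc, mul_inv_cancel₀ hpp.ne', one_mul] at h2

end Pool.Agent.H36.SZ
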