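import Pool.Agent.H36.SZ.Defs

/-!
# Derivatives and continuity of `G`, `G1`, `G2`, `yy`, `jr`, `ji`

PROOFS. With `z = exp (t + i θ)`, `‖z‖ = e^t > q`; `F`, `deriv F`, `deriv (deriv F)` are analytic on
the open set `{q < ‖z‖}` (`DifferentiableOn.deriv`), chain rule with
`d/dt exp (t + iθ) = exp (t + iθ)`, `d/dθ exp (t + iθ) = I exp (t + iθ)`.
`‖G‖^2` has derivative `2 Re (conj G * G')` (`HasDerivAt.norm_sq`, see `hnsq` in
`H97/SIM/WStokes.lean`). `yt = 2 jr`, `yq = -2 ji`; `d/dt jr = |G1|^2 + Re (conj G G2) = ytt`,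
`d/dθ ji = Im (conj (I G1) G1 + conj G (I G2)) = -|G1|^2 + Re (conj G G2) = -yqq`.
Periodicity: `exp (t + (θ + 2π) i) = exp (t + iθ)`.
Continuity on the open set `{p | q < exp p.1}`: composition of `ContinuousOn` functions.
`jr_sq`: `|conj G * G1|^2 = Re^2 + Im^2`.
-/

open Complex MeasureTheory Set Filter Topology
open scoped ComplexConjugate Real

namespace Pool.Agent.H36.SZ

variable {F : ℂ → ℂ} {q : ℝ}

private lemma nexp (t θ : ℝ) : ‖exp (t + θ * I)‖ = Real.exp t := by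
  rw [Complex.norm_exp]; simp

private lemma isOp (q : ℝ) : IsOpen {z : ℂ | q < ‖z‖} :=
  isOpen_lt continuous_const continuous_norm

private lemma memq {q t : ℝ} (θ : ℝ) (ht : q < Real.exp t) :
    exp (t + θ * I) ∈ {z : ℂ | q < ‖z‖} := by
  change q < ‖exp (t + θ * I)‖
  rw [nexp]; exact ht

private lemma d0 (h : An F q) {t : ℝ} (θ : ℝ) (ht : q < Real.exp t) :
    HasDerivAt F (deriv F (exp (t + θ * I))) (exp (t + θ * I)) :=
  ((h.diff _ (memq θ ht)).differentiableAt ((isOp q).mem_nhds (memq θ ht))).hasDerivAt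

private lemma dd1 (h : An F q) : DifferentiableOn ℂ (deriv F) {z : ℂ | q < ‖z‖} :=
  h.diff.deriv (isOp q)

private lemma dd2 (h : An F q) : DifferentiableOn ℂ (deriv (deriv F)) {z : ℂ | q < ‖z‖} :=
  (dd1 h).deriv (isOp q)

private lemma d1 (h : An F q) {t : ℝ} (θ : ℝ) (ht : q < Real.exp t) :
    HasDerivAt (deriv F) (deriv (deriv F) (exp (t + θ * I))) (exp (t + θ * I)) :=
  (((dd1 h) _ (memq θ ht)).differentiableAt ((isOp q).mem_nhds (memq θ ht))).hasDerivAt

private lemma et (t θ : ℝ) :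
    HasDerivAt (fun s : ℝ => exp ((s : ℂ) + θ * I)) (exp (t + θ * I)) t := by
  have h1 : HasDerivAt (fun s : ℝ => ((s : ℂ) + θ * I)) 1 t :=
    (Complex.ofRealCLM.hasDerivAt (x := t)).add_const _
  have h2 := h1.cexp
  rwa [mul_one] at h2

private lemma eq' (t θ : ℝ) :
    HasDerivAt (fun s : ℝ => exp ((t : ℂ) + s * I)) (I * exp (t + θ * I)) θ := by
  have h0 : HasDerivAt (fun s : ℝ => ((s : ℂ) * I)) (1 * I) θ :=
    (Complex.ofRealCLM.hasDerivAt (x := θ)).mul_const I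
  have h1 : HasDerivAt (fun s : ℝ => ((t : ℂ) + s * I)) (1 * I) θ := h0.const_add _
  have h2 := h1.cexp
  rw [one_mul, mul_comm] at h2
  exact h2

private lemma dre {f : ℝ → ℂ} {f' : ℂ} {x : ℝ} (h : HasDerivAt f f' x) :
    HasDerivAt (fun s => (f s).re) f'.re x :=
  Complex.reCLM.hasFDerivAt.comp_hasDerivAt x h

private lemma dim' {f : ℝ → ℂ} {f' : ℂ} {x : ℝ} (h : HasDerivAt f f' x) :
    HasDerivAt (fun s => (f s).im) f'.im x :=
  Complex.imCLM.hasFDerivAt.comp_hasDerivAt x h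

private lemma dcj {f : ℝ → ℂ} {f' : ℂ} {x : ℝ} (h : HasDerivAt f f' x) :
    HasDerivAt (fun s => conj (f s)) (conj f') x :=
  h.star

private lemma dnsq {f : ℝ → ℂ} {f' : ℂ} {x : ℝ} (h : HasDerivAt f f' x) :
    HasDerivAt (fun s => ‖f s‖ ^ 2) (2 * (conj (f x) * f').re) x := by
  have := h.norm_sq
  have e : inner ℝ (f x) f' = (conj (f x) * f').re := by
    rw [Complex.inner, mul_comm]
  rwa [e] at this

private lemma cexp2 : Continuous (fun p : ℝ × ℝ => exp ((p.1 : ℂ) + p.2 * I)) := by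
  fun_prop

private lemma cW {W : ℂ → ℂ} (hW : ContinuousOn W {z : ℂ | q < ‖z‖}) :
    ContinuousOn (fun p : ℝ × ℝ => W (exp ((p.1 : ℂ) + p.2 * I))) {p | q < Real.exp p.1} :=
  hW.comp cexp2.continuousOn (fun p hp => memq p.2 hp)

private lemma cRow {W : ℝ × ℝ → ℂ} (hW : ContinuousOn W {p | q < Real.exp p.1}) {t : ℝ}
    (ht : q < Real.exp t) : Continuous (fun θ : ℝ => W (t, θ)) :=
  hW.comp_continuous (by fun_prop) (fun _ => ht)

private lemma eper (t θ : ℝ) : exp ((t : ℂ) + (θ + 2 * π : ℝ) * I) = exp (t + θ * I) := by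
  have : ((t : ℂ) + (θ + 2 * π : ℝ) * I) = (t + θ * I) + 2 * π * I := by
    push_cast; ring
  rw [this, Complex.exp_periodic]


theorem An.hG (h : An F q) {t : ℝ} (θ : ℝ) (ht : q < Real.exp t) :
    HasDerivAt (fun s => G F s θ) (G1 F t θ) t := by
  have h1 := (d0 h θ ht).comp t (et t θ)
  have e : deriv F (exp (t + θ * I)) * exp (t + θ * I) = G1 F t θ := by
    unfold G1; ring
  rw [e] at h1
  exact h1

theorem An.hGq (h : An F q) {t : ℝ} (θ : ℝ) (ht : q < Real.exp t) :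
    HasDerivAt (fun s => G F t s) (I * G1 F t θ) θ := by
  have h1 := (d0 h θ ht).comp θ (eq' t θ)
  have e : deriv F (exp (t + θ * I)) * (I * exp (t + θ * I)) = I * G1 F t θ := by
    unfold G1; ring
  rw [e] at h1
  exact h1

theorem An.hG1 (h : An F q) {t : ℝ} (θ : ℝ) (ht : q < Real.exp t) :
    HasDerivAt (fun s => G1 F s θ) (G2 F t θ) t := by
  have h1 := (et t θ).mul ((d1 h θ ht).comp t (et t θ))
  have e : exp (t + θ * I) * (deriv F ∘ fun s : ℝ => exp ((s : ℂ) + θ * I)) t +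
      exp (t + θ * I) * (deriv (deriv F) (exp (t + θ * I)) * exp (t + θ * I)) = G2 F t θ := by
    unfold G2; simp only [Function.comp]; ring
  rw [e] at h1
  exact h1

theorem An.hG1q (h : An F q) {t : ℝ} (θ : ℝ) (ht : q < Real.exp t) :
    HasDerivAt (fun s => G1 F t s) (I * G2 F t θ) θ := by
  have h1 := (eq' t θ).mul ((d1 h θ ht).comp θ (eq' t θ))
  have e : I * exp (t + θ * I) * (deriv F ∘ fun s : ℝ => exp ((t : ℂ) + s * I)) θ +
      exp (t + θ * I) * (deriv (deriv F) (exp (t + θ * I)) * (I * exp (t + θ * I))) =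
      I * G2 F t θ := by
    unfold G2; simp only [Function.comp]; ring
  rw [e] at h1
  exact h1

theorem G_per (F : ℂ → ℂ) (t : ℝ) : Function.Periodic (G F t) (2 * π) := by
  intro θ
  simp only [G, eper]

theorem G1_per (F : ℂ → ℂ) (t : ℝ) : Function.Periodic (G1 F t) (2 * π) := by
  intro θ
  simp only [G1, eper]

theorem G2_per (F : ℂ → ℂ) (t : ℝ) : Function.Periodic (G2 F t) (2 * π) := by
  intro θ
  simp only [G2, eper]

theorem An.cG (h : An F q) :
    ContinuousOn (fun p : ℝ × ℝ => G F p.1 p.2) {p | q < Real.exp p.1} :=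
  cW h.diff.continuousOn

theorem An.cG1 (h : An F q) :
    ContinuousOn (fun p : ℝ × ℝ => G1 F p.1 p.2) {p | q < Real.exp p.1} :=
  cexp2.continuousOn.mul (cW (dd1 h).continuousOn)

theorem An.cG2 (h : An F q) :
    ContinuousOn (fun p : ℝ × ℝ => G2 F p.1 p.2) {p | q < Real.exp p.1} :=
  cexp2.continuousOn.mul ((cW (dd1 h).continuousOn).add
    (cexp2.continuousOn.mul (cW (dd2 h).continuousOn)))

theorem An.cGt (h : An F q) {t : ℝ} (ht : q < Real.exp t) : Continuous (G F t) :=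
  cRow h.cG ht

theorem An.cG1t (h : An F q) {t : ℝ} (ht : q < Real.exp t) : Continuous (G1 F t) :=
  cRow h.cG1 ht

theorem An.cG2t (h : An F q) {t : ℝ} (ht : q < Real.exp t) : Continuous (G2 F t) :=
  cRow h.cG2 ht

theorem An.hyy (h : An F q) {t : ℝ} (θ : ℝ) (ht : q < Real.exp t) :
    HasDerivAt (fun s => yy F s θ) (2 * jr F t θ) t :=
  dnsq (h.hG θ ht)

theorem An.hyyq (h : An F q) {t : ℝ} (θ : ℝ) (ht : q < Real.exp t) :
    HasDerivAt (fun s => yy F t s) (-2 * ji F t θ) θ := by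
  have h1 := dnsq (h.hGq θ ht)
  have e : 2 * (conj (G F t θ) * (I * G1 F t θ)).re = -2 * ji F t θ := by
    unfold ji
    simp only [Complex.mul_re, Complex.mul_im, Complex.I_re, Complex.I_im, Complex.conj_re,
      Complex.conj_im]
    ring
  rw [e] at h1
  exact h1

theorem An.hjr (h : An F q) {t : ℝ} (θ : ℝ) (ht : q < Real.exp t) :
    HasDerivAt (fun s => jr F s θ) (ytt F t θ) t := by
  have h1 := dre ((dcj (h.hG θ ht)).mul (h.hG1 θ ht))
  have e : (conj (G1 F t θ) * G1 F t θ + conj (G F t θ) * G2 F t θ).re = ytt F t θ := by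
    unfold ytt
    rw [Complex.add_re, Complex.sq_norm, Complex.normSq_apply]
    simp only [Complex.mul_re, Complex.conj_re, Complex.conj_im]
    ring
  rw [e] at h1
  exact h1

theorem An.hji (h : An F q) {t : ℝ} (θ : ℝ) (ht : q < Real.exp t) :
    HasDerivAt (fun s => ji F t s) (-yqq F t θ) θ := by
  have h1 := dim' ((dcj (h.hGq θ ht)).mul (h.hG1q θ ht))
  have e : (conj (I * G1 F t θ) * G1 F t θ + conj (G F t θ) * (I * G2 F t θ)).im =
      -yqq F t θ := by
    unfold yqq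
    rw [Complex.add_im, Complex.sq_norm, Complex.normSq_apply]
    simp only [Complex.mul_re, Complex.mul_im, Complex.I_re, Complex.I_im, Complex.conj_re,
      Complex.conj_im]
    ring
  rw [e] at h1
  exact h1

theorem ytt_add_yqq (F : ℂ → ℂ) (t θ : ℝ) : ytt F t θ + yqq F t θ = 2 * ‖G1 F t θ‖ ^ 2 := by
  unfold ytt yqq
  ring

theorem jr_sq (F : ℂ → ℂ) (t θ : ℝ) :
    jr F t θ ^ 2 + ji F t θ ^ 2 = yy F t θ * ‖G1 F t θ‖ ^ 2 := by
  unfold jr ji yy
  rw [Complex.sq_norm, Complex.sq_norm, Complex.normSq_apply, Complex.normSq_apply]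
  simp only [Complex.mul_re, Complex.mul_im, Complex.conj_re, Complex.conj_im]
  ring

end Pool.Agent.H36.SZ
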