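import Pool.Agent.H36.SZ.GOut
import Pool.Agent.H36.SZ.Reg
import Pool.Agent.H36.SZ.Bas
import Pool.Agent.H97.SIM.WArea

/-!
# The general area principle: nonnegative divergence gives nonnegative flux

PROOFS. `garea`: copy `Pool.Agent.H97.SIM.wb_nonneg` (`H97/SIM/WArea.lean`) with `ginner`, `gouter`:
`bg R - bg ρ = int over S1 of W <= int over S2 of W = bg R`.
`garea_t`: apply `garea` to `Fq z = F (q z) / q` (`Sg.sig` with `p = q`), the vector field
`w -> β (q w)` (derivative `v -> L (q w) (q v)`, divergence `q W (q w)`), and `ρ = e^t / q > 1`: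
`Fq (ρ e^(iθ)) = G F t θ / q`, `deriv Fq z * z = (deriv F (q z)) * z`, so the integrand is
`Re (conj (β (G)) * G1) / q`. Multiply by `q > 0`.
`garea_rad`: `β w = c (|w|^2) w`, `L w a = c (|w|^2) a + 2 c'(|w|^2) Re (conj w a) w`,
`W w = 2 (c (|w|^2) + |w|^2 c'(|w|^2))`: indeed
`Im (conj (L a) b - conj (L b) a) = 2 c Im (conj a b) + 2 c' [Re (conj w a) Im (conj w b) -
Re (conj w b) Im (conj w a)]` and the bracket is `Im (conj (conj w a) (conj w b))
= |w|^2 Im (conj a b)`.
`garea_re`: `β w = conj k * f (Re (k w))`, `L w a = conj k * (f' (Re (k w)) * Re (k a))`, `W = f'`: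
`Im (k b) Re (k a) - Im (k a) Re (k b) = Im (conj (k a) (k b)) = |k|^2 Im (conj a b)`.
-/

open Complex MeasureTheory Set Filter Topology
open scoped ComplexConjugate Real

namespace Pool.Agent.H36.SZ

open Pool.Agent.H15.Sig

variable {F : ℂ → ℂ} {b : ℕ → ℂ} {q : ℝ}

theorem garea (h : IsSig F b) {β : ℂ → ℂ} {L : ℂ → ℂ →L[ℝ] ℂ} {W : ℂ → ℝ} (v : Vf β L W)
    (W0 : ∀ w, 0 ≤ W w) {ρ : ℝ} (hρ : 1 < ρ) : 0 ≤ bg F β ρ := by
  obtain ⟨R0, hR0⟩ := h.good
  set R := max R0 (ρ + 1) with hRdef
  have g : Good F R := hR0 R (le_max_left _ _)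
  have hρR : ρ < R := by have := le_max_right R0 (ρ + 1); linarith
  have hRpos : 0 < R := by linarith
  have hnorm : ∀ t : ℝ, ‖(R : ℂ) * exp (t * I)‖ = R := by
    intro t
    rw [norm_mul, norm_exp_ofReal_mul_I, mul_one, norm_real, Real.norm_eq_abs, abs_of_pos hRpos]
  have hin := ginner h v hρ hρR.le
  obtain ⟨hint, hout⟩ := gouter h v g
  set S1 := (fun x : ℝ × ℝ => toR (F (exp (x.1 + x.2 * I)))) ''
      (Ioo (Real.log ρ) (Real.log R) ×ˢ Ioc (-π) π) with hS1
  set S2 := (fun x : ℝ × ℝ => toR ((x.1 : ℂ) * F (R * exp (x.2 * I)))) ''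
      (Ioo 0 1 ×ˢ Ioc (-π) π) with hS2
  have hsub : S1 ⊆ S2 ∪ {toR 0} := by
    rintro w ⟨x, hx, rfl⟩
    simp only
    have hxn : ‖exp ((x.1 : ℂ) + x.2 * I)‖ = Real.exp x.1 := by
      rw [norm_exp]; simp
    have hx1 : 1 < ‖exp ((x.1 : ℂ) + x.2 * I)‖ := by
      rw [hxn]
      have : 0 < x.1 := by have := hx.1.1; have := Real.log_pos hρ; linarith
      exact Real.one_lt_exp_iff.2 this
    have hxR : ‖exp ((x.1 : ℂ) + x.2 * I)‖ < R := by
      rw [hxn]
      have := Real.exp_lt_exp.2 hx.1.2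
      rwa [Real.exp_log hRpos] at this
    by_cases hw : F (exp ((x.1 : ℂ) + x.2 * I)) = 0
    · right
      rw [hw]; rfl
    · left
      obtain ⟨s, hs, t, ht, he⟩ := g.dir h _ hw
      refine ⟨(s, t), ⟨⟨hs, ?_⟩, ht⟩, by simp only; rw [← he]⟩
      by_contra hs1
      have hs1' : 1 ≤ s := not_lt.1 hs1
      obtain ⟨ζ, hζ2, hζ⟩ := g.surj _ s (hnorm t) hs1'
      have r := g.ray _ ζ s (hnorm t) hζ2 hs1' hζ
      have hζz : F ζ = F (exp ((x.1 : ℂ) + x.2 * I)) := by rw [hζ, he]
      have hζ1 : 1 < ‖ζ‖ := by linarith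
      have := h.inj hζ1 hx1 hζz
      rw [← this] at hxR
      linarith [r.1]
  have hle : (∫ w in S1, W (toC w)) ≤ ∫ w in S2, W (toC w) := by
    apply setIntegral_mono_set hint
    · exact Eventually.of_forall fun w => W0 _
    · have h0 : (S2 ∪ {toR 0} : Set (ℝ × ℝ)) =ᵐ[volume] S2 := by
        exact union_ae_eq_left_of_ae_eq_empty (by
          rw [ae_eq_empty]; exact measure_singleton _)
      exact (LE.le.eventuallyLE hsub).trans h0.le
  rw [hin, hout] at hle
  linarith

theorem garea_t (h : Sg F b q) {β : ℂ → ℂ} {L : ℂ → ℂ →L[ℝ] ℂ} {W : ℂ → ℝ} (v : Vf β L W)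
    (W0 : ∀ w, 0 ≤ W w) {t : ℝ} (ht : q < Real.exp t) :
    0 ≤ ∫ θ in (-π)..π, (conj (β (G F t θ)) * G1 F t θ).re := by
  have hq := h.q0
  have hqc : (q : ℂ) ≠ 0 := by exact_mod_cast hq.ne'
  have hs : IsSig (fun z => F (q * z) / q) (fun n => b n * ((q : ℂ)⁻¹) ^ (n + 1)) := h.sig le_rfl
  have v' : Vf (fun w => β ((q : ℂ) * w)) (fun w => q • L ((q : ℂ) * w))
      (fun w => q * W ((q : ℂ) * w)) := by
    refine ⟨fun w => ?_, ?_, fun w a b => ?_⟩
    · have h1 : HasFDerivAt (fun w : ℂ => (q : ℂ) * w) (q • ContinuousLinearMap.id ℝ ℂ) w := by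
        have h2 := (q • ContinuousLinearMap.id ℝ ℂ).hasFDerivAt (x := w)
        have h3 : (fun w : ℂ => (q : ℂ) * w) = ⇑(q • ContinuousLinearMap.id ℝ ℂ) := by
          funext w
          simp
        rw [h3]
        exact h2
      have h4 := (v.hd ((q : ℂ) * w)).comp w h1
      have h5 : (L ((q : ℂ) * w)).comp (q • ContinuousLinearMap.id ℝ ℂ) = q • L ((q : ℂ) * w) :=
        ContinuousLinearMap.ext fun a => by simp
      rw [h5] at h4
      exact h4
    · have h3 : Continuous fun w : ℂ => L ((q : ℂ) * w) :=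
        v.cL.comp (continuous_const.mul continuous_id)
      exact h3.const_smul q
    · have h1 := v.hW ((q : ℂ) * w) a b
      have h2 : conj ((q • L ((q : ℂ) * w)) a) * b - conj ((q • L ((q : ℂ) * w)) b) * a =
          (q : ℂ) * (conj (L ((q : ℂ) * w) a) * b - conj (L ((q : ℂ) * w) b) * a) := by
        rw [_root_.smul_apply, _root_.smul_apply, Complex.real_smul,
          Complex.real_smul, map_mul, map_mul, Complex.conj_ofReal]
        ring
      rw [h2, Complex.im_ofReal_mul, h1]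
      ring
  have hρ : 1 < Real.exp t / q := by rwa [one_lt_div hq]
  have hg := garea hs v' (fun w => mul_nonneg hq.le (W0 _)) hρ
  unfold bg at hg
  have he : ∀ θ : ℝ, (conj (β ((q : ℂ) * (F (q * ((Real.exp t / q : ℝ) * exp (θ * I))) / q))) *
      (deriv (fun z => F (q * z) / q) ((Real.exp t / q : ℝ) * exp (θ * I)) *
        ((Real.exp t / q : ℝ) * exp (θ * I)))).re =
      q⁻¹ * (conj (β (G F t θ)) * G1 F t θ).re := by
    intro θ
    have e1 : (q : ℂ) * ((Real.exp t / q : ℝ) * exp (θ * I)) = exp (t + θ * I) := by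
      rw [Complex.exp_add, Complex.ofReal_div, Complex.ofReal_exp]
      field_simp
    have e2 : deriv (fun z => F (q * z) / q) ((Real.exp t / q : ℝ) * exp (θ * I)) =
        deriv F (exp (t + θ * I)) := by
      rw [deriv_div_const, deriv_comp_mul_left, e1, smul_eq_mul]
      field_simp
    have e3 : (((Real.exp t / q : ℝ) : ℂ) * exp (θ * I)) = (q : ℂ)⁻¹ * exp (t + θ * I) := by
      rw [← e1]
      field_simp
    rw [e1, e2, mul_div_cancel₀ _ hqc, e3]
    have e4 : conj (β (F (exp (t + θ * I)))) *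
        (deriv F (exp (t + θ * I)) * ((q : ℂ)⁻¹ * exp (t + θ * I))) =
        ((q⁻¹ : ℝ) : ℂ) * (conj (β (G F t θ)) * G1 F t θ) := by
      rw [G, G1]
      push_cast
      ring
    rw [e4, Complex.re_ofReal_mul]
  simp_rw [he] at hg
  rw [intervalIntegral.integral_const_mul] at hg
  exact nonneg_of_mul_nonneg_right hg (by positivity)

theorem garea_rad (h : Sg F b q) {c c' : ℝ → ℝ} (hc : ∀ y, HasDerivAt c (c' y) y)
    (cc : Continuous c') (h0 : ∀ y, 0 ≤ y → 0 ≤ c y + y * c' y) {t : ℝ} (ht : q < Real.exp t) :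
    0 ≤ ∫ θ in (-π)..π, c (yy F t θ) * jr F t θ := by
  have cC : Continuous c := continuous_iff_continuousAt.2 fun y => (hc y).continuousAt
  have v : Vf (fun w => c (‖w‖ ^ 2) • w)
      (fun w => c (‖w‖ ^ 2) • ContinuousLinearMap.id ℝ ℂ +
        (c' (‖w‖ ^ 2) • ((2 : ℝ) • innerSL ℝ w)).smulRight w)
      (fun w => 2 * (c (‖w‖ ^ 2) + ‖w‖ ^ 2 * c' (‖w‖ ^ 2))) := by
    refine ⟨fun w => ?_, ?_, fun w a b => ?_⟩
    · have h1 : HasFDerivAt (fun w : ℂ => ‖w‖ ^ 2) ((2 : ℝ) • innerSL ℝ w) w := by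
        have h3 := (hasStrictFDerivAt_norm_sq w).hasFDerivAt
        have h4 : (2 : ℝ) • innerSL ℝ w = 2 • innerSL ℝ w := by
          rw [two_smul, two_smul]
        rw [h4]
        exact h3
      have h2 : HasFDerivAt (fun w : ℂ => c (‖w‖ ^ 2)) (c' (‖w‖ ^ 2) • ((2 : ℝ) • innerSL ℝ w)) w :=
        (hc (‖w‖ ^ 2)).comp_hasFDerivAt w h1
      exact h2.smul (hasFDerivAt_id w)
    · rw [continuous_clm_apply]
      intro a
      simp only [_root_.add_apply, _root_.smul_apply,
        ContinuousLinearMap.smulRight_apply, ContinuousLinearMap.id_apply, innerSL_apply_apply]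
      fun_prop
    · simp only [_root_.add_apply, _root_.smul_apply,
        ContinuousLinearMap.smulRight_apply, ContinuousLinearMap.id_apply, innerSL_apply_apply,
        Complex.inner, smul_eq_mul, Complex.real_smul]
      have hn : ‖w‖ ^ 2 = w.re * w.re + w.im * w.im := by
        rw [Complex.sq_norm, Complex.normSq_apply]
      generalize c (‖w‖ ^ 2) = C
      generalize c' (‖w‖ ^ 2) = C'
      rw [hn]
      simp only [map_add, map_mul, Complex.conj_ofReal, Complex.sub_im, Complex.mul_im,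
        Complex.mul_re, Complex.add_re, Complex.add_im, Complex.conj_re, Complex.conj_im,
        Complex.ofReal_re, Complex.ofReal_im]
      ring
  have hg := garea_t h v (fun w => mul_nonneg zero_le_two (h0 _ (by positivity))) ht
  have he : ∀ θ : ℝ, (conj (c (‖G F t θ‖ ^ 2) • G F t θ) * G1 F t θ).re =
      c (yy F t θ) * jr F t θ := by
    intro θ
    rw [yy, jr, Complex.real_smul, map_mul, Complex.conj_ofReal, mul_assoc, Complex.re_ofReal_mul]
  simp_rw [he] at hg
  exact hg

theorem garea_re (h : Sg F b q) {k : ℂ} (hk : ‖k‖ = 1) {f f' : ℝ → ℝ}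
    (hf : ∀ y, HasDerivAt f (f' y) y) (cf : Continuous f') (h0 : ∀ y, 0 ≤ f' y) {t : ℝ}
    (ht : q < Real.exp t) :
    0 ≤ ∫ θ in (-π)..π, f (uk k F t θ) * (k * G1 F t θ).re := by
  have cF : Continuous f := continuous_iff_continuousAt.2 fun y => (hf y).continuousAt
  have v : Vf (fun w => f ((k * w).re) • conj k)
      (fun w => (f' ((k * w).re) • (Complex.reCLM.comp (ContinuousLinearMap.mul ℝ ℂ k))).smulRight
        (conj k))
      (fun w => f' ((k * w).re)) := by
    refine ⟨fun w => ?_, ?_, fun w a b => ?_⟩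
    · have h1 : HasFDerivAt (fun w : ℂ => (k * w).re)
          (Complex.reCLM.comp (ContinuousLinearMap.mul ℝ ℂ k)) w :=
        (Complex.reCLM.comp (ContinuousLinearMap.mul ℝ ℂ k)).hasFDerivAt
      have h2 : HasFDerivAt (fun w : ℂ => f ((k * w).re))
          (f' ((k * w).re) • (Complex.reCLM.comp (ContinuousLinearMap.mul ℝ ℂ k))) w :=
        (hf ((k * w).re)).comp_hasFDerivAt w h1
      exact h2.smul_const (conj k)
    · rw [continuous_clm_apply]
      intro a
      simp only [_root_.smul_apply, ContinuousLinearMap.smulRight_apply]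
      have h3 : Continuous fun w : ℂ => f' ((k * w).re) :=
        cf.comp (Complex.continuous_re.comp (continuous_const.mul continuous_id))
      have h4 : Continuous fun w : ℂ => ((f' ((k * w).re) * (k * a).re : ℝ) : ℂ) * conj k :=
        (Complex.continuous_ofReal.comp (h3.mul continuous_const)).mul continuous_const
      have h5 : (fun w : ℂ => (f' ((k * w).re) •
          (Complex.reCLM.comp (ContinuousLinearMap.mul ℝ ℂ k)) a) • conj k) =
          fun w : ℂ => ((f' ((k * w).re) * (k * a).re : ℝ) : ℂ) * conj k := by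
        funext w
        rw [Complex.real_smul, smul_eq_mul]
        rfl
      rw [h5]
      exact h4
    · have hk2 : k.re * k.re + k.im * k.im = 1 := by
        rw [← Complex.normSq_apply, ← Complex.sq_norm, hk, one_pow]
      simp only [_root_.smul_apply, ContinuousLinearMap.smulRight_apply,
        ContinuousLinearMap.comp_apply, ContinuousLinearMap.mul_apply', Complex.reCLM_apply,
        smul_eq_mul, Complex.real_smul]
      generalize f' ((k * w).re) = C
      simp only [map_mul, Complex.conj_ofReal, Complex.sub_im, Complex.mul_im,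
        Complex.mul_re, Complex.conj_re, Complex.conj_im,
        Complex.ofReal_re, Complex.ofReal_im]
      linear_combination (C * (a.re * b.im - a.im * b.re)) * hk2
  have hg := garea_t h v (fun w => h0 _) ht
  have he : ∀ θ : ℝ, (conj (f ((k * G F t θ).re) • conj k) * G1 F t θ).re =
      f (uk k F t θ) * (k * G1 F t θ).re := by
    intro θ
    rw [uk, Complex.real_smul, map_mul, Complex.conj_ofReal, Complex.conj_conj, mul_assoc,
      Complex.re_ofReal_mul]
  simp_rw [he] at hg
  exact hg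

end Pool.Agent.H36.SZ
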