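import Pool.Agent.H36.SZ.GSt
import Pool.Agent.H97.SIM.WInner

/-!
# The integral of the divergence over the image of an annulus

PROOF of `ginner`: copy `Pool.Agent.H97.SIM.winner` (`H97/SIM/WInner.lean`) with `gstokes`, and
`wcov` with `D = W`. With `G ζ = F (exp ζ)`, `V1 = G'`, `V2 = I G'`: `Im (conj V1 V2) = |G'|^2`, and
`Im (conj (β G) (I G')) = Re (conj (β G) G')` is the integrand of `bg`.
-/

open Complex MeasureTheory Set Filter Topology
open scoped ComplexConjugate Real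

namespace Pool.Agent.H36.SZ

open Pool.Agent.H15.Sig

variable {F : ℂ → ℂ} {b : ℕ → ℂ}

/-- the flux of `β` through the image of the circle of radius `r` -/
noncomputable def bg (F β : ℂ → ℂ) (r : ℝ) : ℝ :=
  ∫ t in (-π)..π, (conj (β (F (r * exp (t * I)))) *
    (deriv F (r * exp (t * I)) * (r * exp (t * I)))).re

theorem ginner (h : IsSig F b) {β : ℂ → ℂ} {L : ℂ → ℂ →L[ℝ] ℂ} {W : ℂ → ℝ} (v : Vf β L W)
    {ρ R : ℝ} (hρ : 1 < ρ) (hR : ρ ≤ R) :
    (∫ w in (fun x : ℝ × ℝ => toR (F (exp (x.1 + x.2 * I)))) ''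
      (Ioo (Real.log ρ) (Real.log R) ×ˢ Ioc (-π) π), W (toC w)) = bg F β R - bg F β ρ := by
  have hlogρ : 0 < Real.log ρ := Real.log_pos hρ
  have hlog : Real.log ρ ≤ Real.log R := Real.log_le_log (by linarith) hR
  set G : ℂ → ℂ := fun ζ => F (exp ζ) with hG
  set U : Set ℂ := {ζ : ℂ | 0 < ζ.re} with hU
  have hUo : IsOpen U := isOpen_lt continuous_const continuous_re
  have hexp : ∀ ζ ∈ U, 1 < ‖exp ζ‖ := by
    intro ζ hζ
    rw [norm_exp]; exact Real.one_lt_exp_iff.2 hζ
  have hGd : ∀ ζ ∈ U, HasDerivAt G (deriv F (exp ζ) * exp ζ) ζ := by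
    intro ζ hζ
    exact (h.differentiableAt (hexp ζ hζ)).hasDerivAt.comp ζ (hasDerivAt_exp ζ)
  have hGon : DifferentiableOn ℂ G U := fun ζ hζ =>
    (hGd ζ hζ).differentiableAt.differentiableWithinAt
  have hG' : DifferentiableOn ℂ (deriv G) U := hGon.deriv hUo
  have hG'' : DifferentiableOn ℂ (deriv (deriv G)) U := hG'.deriv hUo
  have hG1 : ∀ ζ ∈ U, HasDerivAt G (deriv G ζ) ζ := fun ζ hζ =>
    (hGon.differentiableAt (hUo.mem_nhds hζ)).hasDerivAt
  have hG2 : ∀ ζ ∈ U, HasDerivAt (deriv G) (deriv (deriv G) ζ) ζ := fun ζ hζ =>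
    (hG'.differentiableAt (hUo.mem_nhds hζ)).hasDerivAt
  set a : ℝ × ℝ → ℂ := fun x =>
    deriv F (exp (x.1 + x.2 * I)) * exp (x.1 + x.2 * I) with ha
  set c : ℝ × ℝ → ℂ := fun x => I * a x with hc
  have memU : ∀ s ∈ Icc (Real.log ρ) (Real.log R), ∀ t : ℝ, ((s : ℂ) + t * I) ∈ U := by
    intro s hs t
    show 0 < ((s : ℂ) + t * I).re
    simp
    linarith [hs.1]
  have hf : ∀ x ∈ Ioo (Real.log ρ) (Real.log R) ×ˢ Ioc (-π) π, HasFDerivAt
      (fun y : ℝ × ℝ => F (exp (y.1 + y.2 * I)))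
      ((ContinuousLinearMap.fst ℝ ℝ ℝ).smulRight (a x) +
      (ContinuousLinearMap.snd ℝ ℝ ℝ).smulRight (c x)) x := by
    intro x hx
    exact hasFDerivAt_comp_toCL (hGd _ (memU x.1 (Ioo_subset_Icc_self hx.1) x.2))
  have hinj : InjOn (fun y : ℝ × ℝ => F (exp (y.1 + y.2 * I)))
      (Ioo (Real.log ρ) (Real.log R) ×ˢ Ioc (-π) π) := by
    intro x hx y hy he
    exact exp_inj_strip hx.2 hy.2
      (h.inj (hexp _ (memU x.1 (Ioo_subset_Icc_self hx.1) x.2))
        (hexp _ (memU y.1 (Ioo_subset_Icc_self hy.1) y.2)) he)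
  have hnn : ∀ x ∈ Ioo (Real.log ρ) (Real.log R) ×ˢ Ioc (-π) π,
      0 ≤ (conj (a x) * c x).im := by
    intro x _
    have : conj (a x) * c x = ((‖a x‖ ^ 2 : ℝ) : ℂ) * I := by
      simp only [hc]
      rw [ofReal_pow, ← Complex.conj_mul']; ring
    rw [this, im_ofReal_mul, I_im]
    positivity
  have hcov := Pool.Agent.H97.SIM.wcov hf hinj hnn W
  rw [hcov]
  have cont : ContinuousOn (fun x : ℝ × ℝ => (x.1 : ℂ) + x.2 * I)
      (Icc (Real.log ρ) (Real.log R) ×ˢ univ) := by fun_prop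
  have maps : MapsTo (fun x : ℝ × ℝ => (x.1 : ℂ) + x.2 * I)
      (Icc (Real.log ρ) (Real.log R) ×ˢ univ) U := fun x hx => memU x.1 hx.1 x.2
  have cG : ContinuousOn (fun x : ℝ × ℝ => G (x.1 + x.2 * I))
      (Icc (Real.log ρ) (Real.log R) ×ˢ univ) := hGon.continuousOn.comp cont maps
  have cG' : ContinuousOn (fun x : ℝ × ℝ => deriv G (x.1 + x.2 * I))
      (Icc (Real.log ρ) (Real.log R) ×ˢ univ) := hG'.continuousOn.comp cont maps
  have cG'' : ContinuousOn (fun x : ℝ × ℝ => deriv (deriv G) (x.1 + x.2 * I))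
      (Icc (Real.log ρ) (Real.log R) ×ˢ univ) := hG''.continuousOn.comp cont maps
  have eG : ∀ s ∈ Icc (Real.log ρ) (Real.log R), ∀ t : ℝ,
      deriv G ((s : ℂ) + t * I) = a (s, t) := by
    intro s hs t
    exact (hGd _ (memU s hs t)).deriv
  have hds : ∀ s t : ℝ, HasDerivAt (fun x : ℝ => (x : ℂ) + t * I) 1 s := by
    intro s t
    exact ofRealCLM.hasDerivAt.add_const _
  have hdt : ∀ s t : ℝ, HasDerivAt (fun y : ℝ => (s : ℂ) + y * I) I t := by
    intro s t
    have : HasDerivAt (fun y : ℝ => (y : ℂ) * I) (1 * I) t := ofRealCLM.hasDerivAt.mul_const I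
    rw [one_mul] at this
    exact this.const_add _
  have st := gstokes v hlog
    (fun x : ℝ × ℝ => G (x.1 + x.2 * I))
    (fun x : ℝ × ℝ => deriv G (x.1 + x.2 * I)) (fun x : ℝ × ℝ => I * deriv G (x.1 + x.2 * I))
    (fun x : ℝ × ℝ => I * deriv (deriv G) (x.1 + x.2 * I))
    (fun s hs t => by
      have := (hG1 _ (memU s hs t)).comp s (hds s t)
      rw [mul_one] at this; exact this)
    (fun s hs t => by
      have := (hG1 _ (memU s hs t)).comp t (hdt s t)
      rw [mul_comm] at this; exact this)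
    (fun s hs t => by
      have := ((hG2 _ (memU s hs t)).comp s (hds s t)).const_mul I
      rw [mul_one] at this; exact this)
    (fun s hs t => by
      have := (hG2 _ (memU s hs t)).comp t (hdt s t)
      rw [mul_comm] at this; exact this)
    cG cG' (continuousOn_const.mul cG') (continuousOn_const.mul cG'')
    (fun s _ => by
      have : exp ((s : ℂ) + π * I) = exp ((s : ℂ) + (-π : ℝ) * I) := by
        rw [exp_add, exp_add]; congr 1
        push_cast
        rw [exp_pi_mul_I, neg_mul, exp_neg, exp_pi_mul_I]; norm_num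
      simp only [hG, this])
    (fun s hs => by
      have e0 : ∀ ζ : ℂ, G (ζ + 2 * π * I) = G ζ := by
        intro ζ
        simp only [hG, exp_add, exp_two_pi_mul_I, mul_one]
      have e1 : ∀ ζ : ℂ, deriv G (ζ + 2 * π * I) = deriv G ζ := by
        intro ζ
        rw [← deriv_comp_add_const]
        congr 1
        funext x; exact e0 x
      have := e1 ((s : ℂ) + (-π : ℝ) * I)
      show deriv G ((s : ℂ) + (π : ℝ) * I) = deriv G ((s : ℂ) + (-π : ℝ) * I)
      rw [← this]; congr 1; push_cast; ring)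
  have e3 : ∀ x y : ℂ, (conj x * (I * y)).im = (conj x * y).re := by
    intro x y
    simp only [mul_im, mul_re, I_re, I_im, conj_re, conj_im]; ring
  have hbdry : ∀ r : ℝ, 1 < r → Real.log r ∈ Icc (Real.log ρ) (Real.log R) →
      ∫ t in (-π)..π, (conj (β (G ((Real.log r : ℂ) + t * I))) *
        (I * deriv G ((Real.log r : ℂ) + t * I))).im = bg F β r := by
    intro r hr hmem
    unfold bg
    apply intervalIntegral.integral_congr
    intro t _
    have e1 : exp ((Real.log r : ℂ) + t * I) = r * exp (t * I) := by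
      rw [exp_add, ← ofReal_exp, Real.exp_log (by linarith)]
    have e2 := eG (Real.log r) hmem t
    simp only [ha] at e2
    simp only
    rw [e2, e3]
    simp only [hG]
    rw [e1]
  have hmemR : Real.log R ∈ Icc (Real.log ρ) (Real.log R) := right_mem_Icc.2 hlog
  have hmemρ : Real.log ρ ∈ Icc (Real.log ρ) (Real.log R) := left_mem_Icc.2 hlog
  simp only at st
  rw [hbdry R (by linarith) hmemR, hbdry ρ hρ hmemρ] at st
  rw [← st]
  have hH : ContinuousOn (fun x : ℝ × ℝ => W (G (x.1 + x.2 * I)) *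
      (conj (deriv G (x.1 + x.2 * I)) * (I * deriv G (x.1 + x.2 * I))).im)
      (Icc (Real.log ρ) (Real.log R) ×ˢ univ) := by
    have c2 : ContinuousOn (fun x : ℝ × ℝ =>
        (conj (deriv G (x.1 + x.2 * I)) * (I * deriv G (x.1 + x.2 * I))).im)
        (Icc (Real.log ρ) (Real.log R) ×ˢ univ) := by fun_prop
    exact (v.cW.comp_continuousOn cG).mul c2
  rw [← (rect_integral hlog hH).2]
  apply setIntegral_congr_fun (measurableSet_Ioo.prod measurableSet_Ioc)
  intro x hx
  simp only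
  rw [eG x.1 (Ioo_subset_Icc_self hx.1) x.2]

end Pool.Agent.H36.SZ
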