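import Pool.Agent.H97.SIM.WStokes

/-!
# A general Stokes formula

For a `C^1` vector field `β` of the plane with derivative `L` the hypothesis `hW` says that
`W` is the divergence of `β`: `Im (conj (L a) b - conj (L b) a) = W Im (conj a b)`.

PROOF of `gstokes`: copy `Pool.Agent.H97.SIM.wstokes` (`H97/SIM/WStokes.lean`) with the form
`Im (conj (β V) dV)` in place of `Ps(|V|^2) Im (conj V dV)`:
`A' = d_s Im (conj (β V) V2) = Im (conj (L V1) V2 + conj (β V) V12)`,
`B' = - d_t Im (conj (β V) V1) = - Im (conj (L V2) V1 + conj (β V) V12)` (`L` at the point `V`), so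
`A' + B' = Im (conj (L V1) V2 - conj (L V2) V1) = W(V) Im (conj V1 V2)`, and the integral of `B'`
over `t` is `0` by periodicity. The derivative of `s -> β (V (s, t))` is `L (V) (V1)`
(`HasFDerivAt.comp_hasDerivAt`); `(s, t) -> L (V (s,t)) (V1 (s,t))` is continuous
(`ContinuousOn.clm_apply`).
`cont_W`: `W w = Im (conj (L w 1) I - conj (L w I) 1)`.
-/

open Complex MeasureTheory Set Filter Topology
open scoped ComplexConjugate Real

namespace Pool.Agent.H36.SZ

open Pool.Agent.H15.Sig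

/-- `β` is a `C^1` vector field with derivative `L` and divergence `W` -/
structure Vf (β : ℂ → ℂ) (L : ℂ → ℂ →L[ℝ] ℂ) (W : ℂ → ℝ) : Prop where
  hd : ∀ w, HasFDerivAt β (L w) w
  cL : Continuous L
  hW : ∀ w a b : ℂ, (conj (L w a) * b - conj (L w b) * a).im = W w * (conj a * b).im

theorem Vf.cW {β : ℂ → ℂ} {L : ℂ → ℂ →L[ℝ] ℂ} {W : ℂ → ℝ} (h : Vf β L W) : Continuous W := by
  have e : W = fun w => (conj (L w 1) * I - conj (L w I) * 1).im := by
    funext w
    rw [h.hW w 1 I]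
    simp
  rw [e]
  have c1 : Continuous fun w => L w 1 := h.cL.clm_apply continuous_const
  have c2 : Continuous fun w => L w I := h.cL.clm_apply continuous_const
  fun_prop

theorem gstokes {β : ℂ → ℂ} {L : ℂ → ℂ →L[ℝ] ℂ} {W : ℂ → ℝ} (h : Vf β L W)
    {s0 s1 : ℝ} (hs : s0 ≤ s1) (V V1 V2 V12 : ℝ × ℝ → ℂ)
    (h1 : ∀ s ∈ Icc s0 s1, ∀ t, HasDerivAt (fun x => V (x, t)) (V1 (s, t)) s)
    (h2 : ∀ s ∈ Icc s0 s1, ∀ t, HasDerivAt (fun y => V (s, y)) (V2 (s, t)) t)
    (h21 : ∀ s ∈ Icc s0 s1, ∀ t, HasDerivAt (fun x => V2 (x, t)) (V12 (s, t)) s)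
    (h12 : ∀ s ∈ Icc s0 s1, ∀ t, HasDerivAt (fun y => V1 (s, y)) (V12 (s, t)) t)
    (c0 : ContinuousOn V (Icc s0 s1 ×ˢ univ)) (c1 : ContinuousOn V1 (Icc s0 s1 ×ˢ univ))
    (c2 : ContinuousOn V2 (Icc s0 s1 ×ˢ univ)) (c12 : ContinuousOn V12 (Icc s0 s1 ×ˢ univ))
    (per : ∀ s ∈ Icc s0 s1, V (s, π) = V (s, -π))
    (per1 : ∀ s ∈ Icc s0 s1, V1 (s, π) = V1 (s, -π)) :
    ∫ s in s0..s1, ∫ t in (-π)..π, W (V (s, t)) * (conj (V1 (s, t)) * V2 (s, t)).im =
      (∫ t in (-π)..π, (conj (β (V (s1, t))) * V2 (s1, t)).im) -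
      (∫ t in (-π)..π, (conj (β (V (s0, t))) * V2 (s0, t)).im) := by
  have hpi : -π ≤ π := by linarith [Real.pi_pos]
  set A' : ℝ → ℝ → ℝ := fun s t =>
    (conj (L (V (s, t)) (V1 (s, t))) * V2 (s, t) + conj (β (V (s, t))) * V12 (s, t)).im with hA'
  set B' : ℝ → ℝ → ℝ := fun s t =>
    -(conj (L (V (s, t)) (V2 (s, t))) * V1 (s, t) + conj (β (V (s, t))) * V12 (s, t)).im with hB'
  have hsum : ∀ s t, W (V (s, t)) * (conj (V1 (s, t)) * V2 (s, t)).im = A' s t + B' s t := by
    intro s t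
    rw [← h.hW (V (s, t)) (V1 (s, t)) (V2 (s, t))]
    simp only [hA', hB', add_im, sub_im]
    ring
  have cβ : Continuous β := continuous_iff_continuousAt.2 fun w => (h.hd w).continuousAt
  have cβV : ContinuousOn (fun x : ℝ × ℝ => β (V x)) (Icc s0 s1 ×ˢ univ) :=
    cβ.comp_continuousOn c0
  have cL1 : ContinuousOn (fun x : ℝ × ℝ => L (V x) (V1 x)) (Icc s0 s1 ×ˢ univ) :=
    (h.cL.comp_continuousOn c0).clm_apply c1
  have cL2 : ContinuousOn (fun x : ℝ × ℝ => L (V x) (V2 x)) (Icc s0 s1 ×ˢ univ) :=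
    (h.cL.comp_continuousOn c0).clm_apply c2
  have cA : ContinuousOn (Function.uncurry A') (Icc s0 s1 ×ˢ univ) := by
    have e : Function.uncurry A' = fun x : ℝ × ℝ =>
      (conj (L (V x) (V1 x)) * V2 x + conj (β (V x)) * V12 x).im := by funext x; rfl
    rw [e]
    exact continuous_im.comp_continuousOn (((continuous_conj.comp_continuousOn cL1).mul c2).add
      ((continuous_conj.comp_continuousOn cβV).mul c12))
  have cB : ContinuousOn (Function.uncurry B') (Icc s0 s1 ×ˢ univ) := by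
    have e : Function.uncurry B' = fun x : ℝ × ℝ =>
      -(conj (L (V x) (V2 x)) * V1 x + conj (β (V x)) * V12 x).im := by funext x; rfl
    rw [e]
    exact (continuous_im.comp_continuousOn (((continuous_conj.comp_continuousOn cL2).mul c1).add
      ((continuous_conj.comp_continuousOn cβV).mul c12))).neg
  have sect : ∀ {G : ℝ → ℝ → ℝ}, ContinuousOn (Function.uncurry G) (Icc s0 s1 ×ˢ univ) →
      ∀ s ∈ Icc s0 s1, Continuous (G s) := by
    intro G hG s hs'
    rw [← continuousOn_univ]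
    exact hG.comp (by fun_prop : Continuous fun t : ℝ => (s, t)).continuousOn
      (fun t _ => ⟨hs', mem_univ _⟩)
  have integ : ∀ {G : ℝ → ℝ → ℝ}, ContinuousOn (Function.uncurry G) (Icc s0 s1 ×ˢ univ) →
      IntegrableOn (Function.uncurry G) (uIoc s0 s1 ×ˢ uIoc (-π) π) volume := by
    intro G hG
    rw [uIoc_of_le hs, uIoc_of_le hpi]
    have hc : IsCompact (Icc s0 s1 ×ˢ Icc (-π) π) := isCompact_Icc.prod isCompact_Icc
    have := (hG.mono (prod_mono le_rfl (subset_univ (Icc (-π) π)))).integrableOn_compact hc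
      (μ := (volume : Measure (ℝ × ℝ)))
    exact this.mono_set (prod_mono Ioc_subset_Icc_self Ioc_subset_Icc_self)
  have hb : ∀ {f : ℝ → ℂ} {f' : ℂ} {x : ℝ}, HasDerivAt f f' x →
      HasDerivAt (fun y => β (f y)) (L (f x) f') x := by
    intro f f' x hf
    exact (h.hd (f x)).comp_hasDerivAt x hf
  have IB : ∀ s ∈ Icc s0 s1, ∫ t in (-π)..π, B' s t = 0 := by
    intro s hs'
    have hd : ∀ t ∈ uIcc (-π) π, HasDerivAt
        (fun y => -((conj (β (V (s, y))) * V1 (s, y)).im)) (B' s t) t := by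
      intro t _
      exact (hasDerivAt_im ((hasDerivAt_conj (hb (h2 s hs' t))).fun_mul (h12 s hs' t))).fun_neg
    rw [intervalIntegral.integral_eq_sub_of_hasDerivAt hd
      ((sect cB s hs').intervalIntegrable _ _), per s hs', per1 s hs']
    ring
  have IA : ∀ t, ∫ s in s0..s1, A' s t =
      (conj (β (V (s1, t))) * V2 (s1, t)).im - (conj (β (V (s0, t))) * V2 (s0, t)).im := by
    intro t
    have hd : ∀ s ∈ uIcc s0 s1, HasDerivAt
        (fun x => (conj (β (V (x, t))) * V2 (x, t)).im) (A' s t) s := by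
      intro s hs'
      rw [uIcc_of_le hs] at hs'
      exact hasDerivAt_im ((hasDerivAt_conj (hb (h1 s hs' t))).fun_mul (h21 s hs' t))
    have hc : ContinuousOn (fun s => A' s t) (uIcc s0 s1) := by
      rw [uIcc_of_le hs]
      exact cA.comp (by fun_prop : Continuous fun s : ℝ => (s, t)).continuousOn
        (fun s hs' => ⟨hs', mem_univ _⟩)
    rw [intervalIntegral.integral_eq_sub_of_hasDerivAt hd hc.intervalIntegrable]
  have e1 : ∫ s in s0..s1, ∫ t in (-π)..π, W (V (s, t)) * (conj (V1 (s, t)) * V2 (s, t)).im =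
      ∫ s in s0..s1, ∫ t in (-π)..π, A' s t := by
    apply intervalIntegral.integral_congr
    intro s hs'
    rw [uIcc_of_le hs] at hs'
    simp only [hsum]
    rw [intervalIntegral.integral_add
      ((sect cA s hs').intervalIntegrable _ _) ((sect cB s hs').intervalIntegrable _ _), IB s hs',
      add_zero]
  rw [e1, intervalIntegral_intervalIntegral_swap (integ cA)]
  simp only [IA]
  have cb : ∀ s ∈ Icc s0 s1, Continuous fun t => (conj (β (V (s, t))) * V2 (s, t)).im := by
    intro s hs'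
    apply sect (G := fun s t => (conj (β (V (s, t))) * V2 (s, t)).im) _ s hs'
    have e : Function.uncurry (fun s t => (conj (β (V (s, t))) * V2 (s, t)).im) =
      fun x : ℝ × ℝ => (conj (β (V x)) * V2 x).im := by funext x; rfl
    rw [e]
    exact continuous_im.comp_continuousOn ((continuous_conj.comp_continuousOn cβV).mul c2)
  rw [intervalIntegral.integral_sub
    ((cb s1 (right_mem_Icc.2 hs)).intervalIntegrable _ _)
    ((cb s0 (left_mem_Icc.2 hs)).intervalIntegrable _ _)]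

end Pool.Agent.H36.SZ
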