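import Pool.Agent.H36.SZ.HiD

/-!
# High levels: area theorem and second order terms

`H = Hf F p t = sum_(n >= 2) b_n z^(-n)` at `z = exp (t + iφ)` because `b_0 = 0`, `b 1 = p`.
PROOFS. `H_two`: Parseval `int |H|^2 = 2π sum_(n>=2) |b_n|^2 Q^n <= π Q^2 sum n |b_n|^2` and
`sum_(n>=2) n |b_n|^2 <= 1 - p^2` (`Sg.area_sum`, or `Sg.area2` with `ε = 1 - p`); Parseval can be
avoided: `Sg.mass` (`LoA.lean`) contains the same computation.
`H_sup`: Cauchy-Schwarz as in `Sg.sup` (`LoA.lean`).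
`H_sq`: `conj Jb = e^(2t) / z + p e^(-2t) z` on `|z| = e^t`, so with `w = 1/z`,
`conj Jb * H = e^(2t) w h(w) + p e^(-2t) h(w) / w`, `h(w) = sum_(n>=2) b_n w^n`, which is a
holomorphic function of `w` in `|w| < 1/q` vanishing at `w = 0`; its square has mean value `0` on
`|w| = e^(-t)` (mean value property, e.g. `circleAverage`/`circleIntegral` of a function which is
differentiable on the closed disc), or: product of two absolutely convergent series in `z^(-m)`,
`m >= 1`.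
`H_T3`: with `R = Af`, `(2R + |H|^2)^2 = 4R^2 + 4R|H|^2 + |H|^4`,
`4 R^2 = 2 |Jb|^2 |H|^2 + 2 Re ((conj Jb H)^2)`, the last term has integral `0`; `|Jb| <= Jm`,
`|H| <= sqrt La` (`1 - p^2 <= 1`), `|R| <= Jm |H|`.
-/

open Complex MeasureTheory Set Filter Topology
open scoped ComplexConjugate Real

namespace Pool.Agent.H36.SZ

variable {F : ℂ → ℂ} {b : ℕ → ℂ} {q : ℝ}

open Pool.Agent.H15.Sig

/-- the mean value property -/
private theorem hia_mean {g : ℂ → ℂ} (hg : DifferentiableOn ℂ g (Metric.ball 0 1)) (h0 : g 0 = 0)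
    {t : ℝ} (ht : 0 < t) : ∫ φ in (-π)..π, g (exp (-(t + φ * I))) = 0 := by
  set R : ℝ := Real.exp (-t) with hR
  have hR0 : 0 < R := Real.exp_pos _
  have hR1 : R < 1 := by rw [hR, Real.exp_lt_one_iff]; linarith
  have hd : DiffContOnCl ℂ g (Metric.ball 0 |R|) := by
    apply DifferentiableOn.diffContOnCl
    rw [closure_ball _ (by rw [abs_of_pos hR0]; exact hR0.ne')]
    refine hg.mono ?_
    rw [abs_of_pos hR0]
    exact Metric.closedBall_subset_ball hR1
  have h1 := hd.circleAverage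
  rw [h0, Real.circleAverage_def] at h1
  have h2 : ∫ θ in 0..2 * π, g (circleMap 0 R θ) = 0 := by
    rcases smul_eq_zero.1 h1 with h | h
    · exact absurd h (by positivity)
    · exact h
  have hper : Function.Periodic (fun θ : ℝ => g (circleMap 0 R θ)) (2 * π) := by
    intro θ
    show g (circleMap 0 R (θ + 2 * π)) = g (circleMap 0 R θ)
    rw [periodic_circleMap 0 R θ]
  have h3 := hper.intervalIntegral_add_eq (-π) 0
  rw [zero_add, h2, show -π + 2 * π = π by ring] at h3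
  have h4 : ∀ φ : ℝ, exp (-((t : ℂ) + φ * I)) = circleMap 0 R (-φ) := by
    intro φ
    rw [circleMap_zero, hR, ofReal_exp, ← Complex.exp_add]
    congr 1
    push_cast
    ring
  simp only [h4]
  rw [intervalIntegral.integral_comp_neg (fun φ : ℝ => g (circleMap 0 R φ)), neg_neg]
  exact h3

private theorem hia_Qe_pos (t : ℝ) : 0 < Qe t := Real.exp_pos _

private theorem hia_Qe_lt {t : ℝ} (ht : 0 < t) : Qe t < 1 := by
  unfold Qe
  rw [Real.exp_lt_one_iff]
  linarith

private theorem hia_sum_le_La {t : ℝ} (ht : 0 < t) (M : ℕ) :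
    ∑ n ∈ Finset.range M, Qe t ^ (n + 2) / ((n : ℝ) + 2) ≤ La t := by
  have hQ0 := hia_Qe_pos t
  have hQ1 := hia_Qe_lt ht
  have h1Q : 0 < 1 - Qe t := by linarith
  cases M with
  | zero =>
    rw [Finset.sum_range_zero]
    unfold La
    positivity
  | succ M =>
    rw [Finset.sum_range_succ']
    have e1 : ∑ n ∈ Finset.range M, Qe t ^ (n + 1 + 2) / (((n + 1 : ℕ) : ℝ) + 2) ≤
        ∑ n ∈ Finset.range M, Qe t ^ 3 / 3 * Qe t ^ n := by
      refine Finset.sum_le_sum fun n _ => ?_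
      have f1 : Qe t ^ (n + 1 + 2) = Qe t ^ 3 * Qe t ^ n := by ring
      rw [f1, div_mul_eq_mul_div]
      apply div_le_div_of_nonneg_left (by positivity) (by norm_num)
      push_cast
      have : (0:ℝ) ≤ (n : ℝ) := Nat.cast_nonneg n
      linarith
    have e2 : ∑ n ∈ Finset.range M, Qe t ^ n ≤ 1 / (1 - Qe t) := by
      rw [le_div_iff₀ h1Q]
      have := geom_sum_mul (Qe t) M
      have f2 : 0 < Qe t ^ M := by positivity
      linarith
    rw [← Finset.mul_sum] at e1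
    have e3 := mul_le_mul_of_nonneg_left e2 (by positivity : (0:ℝ) ≤ Qe t ^ 3 / 3)
    unfold La
    have e4 : Qe t ^ 3 / 3 * (1 / (1 - Qe t)) = Qe t ^ 3 / (3 * (1 - Qe t)) := by
      field_simp
    have e5 : Qe t ^ (0 + 2) / (((0 : ℕ) : ℝ) + 2) = Qe t ^ 2 / 2 := by norm_num
    rw [e5]
    linarith

private theorem hia_La_nonneg {t : ℝ} (ht : 0 < t) : 0 ≤ La t := by
  have := hia_sum_le_La ht 0
  rwa [Finset.sum_range_zero] at this

theorem Sg.H_sum (h : Sg F b q) {p : ℝ} (hb : b 1 = (p : ℂ)) {t : ℝ} (ht : 0 < t) (φ : ℝ) :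
    HasSum (fun n : ℕ => b (n + 2) * exp (-(((n : ℂ) + 2) * (t + φ * I)))) (Hf F p t φ) := by
  set z : ℂ := exp (t + φ * I) with hz
  have hnz : ‖z‖ = Real.exp t := by
    rw [hz, Complex.norm_exp]; simp
  have hq : q < ‖z‖ := by
    rw [hnz]
    have := Real.add_one_le_exp t
    have := h.q1
    linarith
  have h1 := (hasSum_nat_add_iff' 2).2 (h.hasSum z hq)
  have e1 : F z - z - ∑ i ∈ Finset.range 2, b i * z⁻¹ ^ i = Hf F p t φ := by
    rw [Finset.sum_range_succ, Finset.sum_range_succ, Finset.sum_range_zero, h.b0, hb]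
    unfold Hf G Jb
    rw [← hz, Complex.exp_neg, ← hz]
    ring
  rw [e1] at h1
  have e2 : (fun n : ℕ => b (n + 2) * exp (-(((n : ℂ) + 2) * (t + φ * I)))) =
      fun n : ℕ => b (n + 2) * z⁻¹ ^ (n + 2) := by
    funext n
    rw [hz, ← Complex.exp_neg, ← Complex.exp_nat_mul]
    congr 2
    push_cast
    ring
  rw [e2]
  exact h1

/-- the product `conj J * H` as an analytic function of `w = 1 / z` -/
private theorem hia_fun (h : Sg F b q) {p : ℝ} (hb : b 1 = (p : ℂ)) {t : ℝ} (ht : 0 < t) :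
    ∃ g : ℂ → ℂ, DifferentiableOn ℂ g (Metric.ball 0 1) ∧ g 0 = 0 ∧
      ∀ φ : ℝ, conj (Jb p t φ) * Hf F p t φ = g (exp (-(t + φ * I))) := by
  have hsum : ∀ u : ℂ, ‖u‖ < 1 → Summable (fun n : ℕ => b (n + 2) * u ^ n) := by
    intro u hu
    by_cases h0 : u = 0
    · subst h0
      refine (hasSum_single 0 (fun n hn => ?_)).summable
      rw [zero_pow hn, mul_zero]
    · have h1 := (summable_nat_add_iff 2).2 (h.isSig.hasSum_pw hu).summable
      have h2 := h1.mul_left (u ^ 2)⁻¹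
      refine h2.congr fun n => ?_
      rw [pow_add]
      field_simp
  have hd := pw_diffOn (b := fun n => b (n + 2)) hsum
  refine ⟨fun w => w * ((Real.exp (2 * t) : ℝ) * w ^ 2 + (p * Qe t : ℝ)) *
    pw (fun n => b (n + 2)) w, ?_, ?_, ?_⟩
  · refine DifferentiableOn.mul ?_ hd
    exact (by fun_prop : Differentiable ℂ fun w : ℂ =>
      w * ((Real.exp (2 * t) : ℝ) * w ^ 2 + (p * Qe t : ℝ))).differentiableOn
  · simp
  · intro φ
    set w : ℂ := exp (-(t + φ * I)) with hw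
    have hnw : ‖w‖ = Real.exp (-t) := by
      rw [hw, Complex.norm_exp]; simp
    have hw1 : ‖w‖ < 1 := by
      rw [hnw, Real.exp_lt_one_iff]; linarith
    have hw0 : w ≠ 0 := Complex.exp_ne_zero _
    have h1 := (hsum w hw1).hasSum
    have h2 := h1.mul_left (w ^ 2)
    have h3 := h.H_sum hb ht φ
    have e3 : (fun n : ℕ => b (n + 2) * exp (-(((n : ℂ) + 2) * (t + φ * I)))) =
        fun n : ℕ => w ^ 2 * (b (n + 2) * w ^ n) := by
      funext n
      have e4 : exp (-(((n : ℂ) + 2) * (t + φ * I))) = w ^ (n + 2) := by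
        rw [hw, ← Complex.exp_nat_mul]
        congr 1
        push_cast
        ring
      rw [e4]
      ring
    rw [e3] at h3
    have h5 : Hf F p t φ = w ^ 2 * pw (fun n => b (n + 2)) w := h3.unique h2
    have hww : w * conj w = (Qe t : ℂ) := by
      rw [Complex.mul_conj, Complex.normSq_eq_norm_sq, hnw, Qe_eq']
    have hzw : exp ((t : ℂ) + φ * I) * w = 1 := by
      rw [hw, ← Complex.exp_add, add_neg_cancel, Complex.exp_zero]
    have hEQ : ((Real.exp (2 * t) : ℝ) : ℂ) * (Qe t : ℂ) = 1 := by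
      rw [← Complex.ofReal_mul]
      unfold Qe
      rw [← Real.exp_add, add_neg_cancel, Real.exp_zero, Complex.ofReal_one]
    have hc1 : conj (exp ((t : ℂ) + φ * I)) * conj w = 1 := by
      rw [← map_mul, hzw, map_one]
    have hcz : conj (exp ((t : ℂ) + φ * I)) = ((Real.exp (2 * t) : ℝ) : ℂ) * w := by
      have hcw : conj w ≠ 0 := by
        rw [Ne, map_eq_zero]
        exact hw0
      apply mul_right_cancel₀ hcw
      rw [hc1, mul_assoc, hww, hEQ]
    have hJ : conj (Jb p t φ) * w = ((Real.exp (2 * t) : ℝ) : ℂ) * w ^ 2 + (p * Qe t : ℝ) := by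
      unfold Jb
      rw [← hw, map_add, map_mul, Complex.conj_ofReal, hcz, add_mul]
      have : (p : ℂ) * conj w * w = ((p * Qe t : ℝ) : ℂ) := by
        rw [Complex.ofReal_mul, ← hww]
        ring
      rw [this]
      ring
    rw [h5]
    show conj (Jb p t φ) * (w ^ 2 * pw (fun n => b (n + 2)) w) = w * (((Real.exp (2 * t) : ℝ) : ℂ) * w ^ 2 + (p * Qe t : ℝ)) *
      pw (fun n => b (n + 2)) w
    rw [← hJ]
    ring

private theorem hia_int (h : Sg F b q) {p : ℝ} (hb : b 1 = (p : ℂ)) {t : ℝ} (ht : 0 < t) :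
    ∫ φ in (-π)..π, conj (Jb p t φ) * Hf F p t φ = 0 := by
  obtain ⟨g, hg, h0, he⟩ := hia_fun h hb ht
  simp only [he]
  exact hia_mean hg h0 ht

private theorem hia_u_cont (h : Sg F b q) {t : ℝ} (ht : 0 < t) (p : ℝ) :
    Continuous (fun φ => conj (Jb p t φ) * Hf F p t φ) :=
  (Complex.continuous_conj.comp (Jb_cont p t)).mul (h.Hf_cont ht p)

private theorem hia_re {u : ℝ → ℂ} (hu : Continuous u) (h0 : ∫ φ in (-π)..π, u φ = 0) :
    ∫ φ in (-π)..π, (u φ).re = 0 := by
  have h1 := Complex.reCLM.intervalIntegral_comp_comm (a := -π) (b := π) (μ := volume)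
    (hu.intervalIntegrable _ _)
  rw [h0] at h1
  simpa using h1

theorem Sg.H_two (h : Sg F b q) {p : ℝ} (hb : b 1 = (p : ℂ)) {t : ℝ} (ht : 0 < t) :
    ∫ φ in (-π)..π, ‖Hf F p t φ‖ ^ 2 ≤ π * Qe t ^ 2 * (1 - p ^ 2) := by
  have hb' : b 1 = ((1 - (1 - p) : ℝ) : ℂ) := by
    rw [hb]; norm_num
  have hm := h.mass hb' ht
  have hyF : Continuous (yy F t) := by
    unfold yy
    exact (h.G_cont ht).norm.pow 2
  have hA0 : ∫ φ in (-π)..π, Af F p t φ = 0 := by
    unfold Af
    exact hia_re (hia_u_cont h ht p) (hia_int h hb ht)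
  have hH : Continuous fun φ => ‖Hf F p t φ‖ ^ 2 := (h.Hf_cont ht p).norm.pow 2
  have hA2 : Continuous fun φ => 2 * Af F p t φ := (h.Af_cont ht p).const_mul 2
  have hs : Continuous fun φ => yb p t φ + 2 * Af F p t φ := (yb_cont p t).add hA2
  have e1 : ∫ φ in (-π)..π, yy F t φ = (∫ φ in (-π)..π, yb p t φ) +
      2 * (∫ φ in (-π)..π, Af F p t φ) + ∫ φ in (-π)..π, ‖Hf F p t φ‖ ^ 2 := by
    simp only [yy_split F p t]
    rw [intervalIntegral.integral_add (hs.intervalIntegrable _ _) (hH.intervalIntegrable _ _),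
      intervalIntegral.integral_add ((yb_cont p t).intervalIntegrable _ _)
      (hA2.intervalIntegrable _ _), intervalIntegral.integral_const_mul]
  have e2 : ∫ φ in (-π)..π, yb p t φ = 2 * π * (Real.exp (2 * t) + p ^ 2 * Qe t) := by
    have f1 : ∀ φ, yb p t φ = (Real.exp (2 * t) + p ^ 2 * Qe t - p * (Real.exp (2 * t) + Qe t)) +
        p * yy J t φ := by
      intro φ
      rw [← yb_one]
      unfold yb
      ring
    simp only [f1]
    have hJc : Continuous (yy J t) := by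
      have : yy J t = yb 1 t := by
        funext φ
        exact (yb_one t φ).symm
      rw [this]
      exact yb_cont 1 t
    rw [intervalIntegral.integral_add (intervalIntegrable_const) ((hJc.const_mul p).intervalIntegrable _ _),
      intervalIntegral.integral_const, intervalIntegral.integral_const_mul, int_yyJ]
    have hc : 2 * Real.cosh (2 * t) = Real.exp (2 * t) + Qe t := by
      rw [Real.cosh_eq]
      unfold Qe
      ring
    rw [hc, smul_eq_mul]
    ring
  have e3 : ∫ φ in (-π)..π, yy J t φ = 2 * π * (Real.exp (2 * t) + Qe t) := by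
    have hc : 2 * Real.cosh (2 * t) = Real.exp (2 * t) + Qe t := by
      rw [Real.cosh_eq]
      unfold Qe
      ring
    rw [int_yyJ, hc]
  rw [e1, e2, e3, hA0] at hm
  nlinarith [hm]

theorem Sg.H_sup (h : Sg F b q) {p : ℝ} (hb : b 1 = (p : ℂ)) {t : ℝ} (ht : 0 < t) (φ : ℝ) :
    ‖Hf F p t φ‖ ^ 2 ≤ (1 - p ^ 2) * La t := by
  have hb' : b 1 = ((1 - (1 - p) : ℝ) : ℂ) := by
    rw [hb]; norm_num
  have hQ0 := hia_Qe_pos t
  have hee : 0 ≤ (1 - p) * (2 - (1 - p)) := by
    have := h.area2 hb' 0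
    rwa [Finset.sum_range_zero] at this
  have hs := (h.H_sum hb ht φ).tendsto_sum_nat
  have hs2 := (hs.norm).pow 2
  refine le_of_tendsto hs2 (Eventually.of_forall fun M => ?_)
  have e3 : ‖∑ n ∈ Finset.range M, b (n + 2) * exp (-(((n : ℂ) + 2) * (t + φ * I)))‖ ≤
      ∑ n ∈ Finset.range M, ‖b (n + 2)‖ * Real.exp (-t) ^ (n + 2) := by
    refine (norm_sum_le _ _).trans (le_of_eq ?_)
    refine Finset.sum_congr rfl fun n _ => ?_
    rw [norm_mul, Complex.norm_exp, ← Real.exp_nat_mul]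
    congr 2
    simp
  have e4 : (∑ n ∈ Finset.range M, ‖b (n + 2)‖ * Real.exp (-t) ^ (n + 2)) ^ 2 ≤
      (∑ n ∈ Finset.range M, ((n : ℝ) + 2) * ‖b (n + 2)‖ ^ 2) *
        (∑ n ∈ Finset.range M, Qe t ^ (n + 2) / ((n : ℝ) + 2)) := by
    apply Finset.sum_sq_le_sum_mul_sum_of_sq_le_mul
    · intro n _; positivity
    · intro n _; positivity
    · intro n _
      have f1 : ((n : ℝ) + 2) ≠ 0 := by positivity
      rw [mul_pow, ← pow_mul, mul_comm (n + 2) 2, pow_mul, ← Qe_eq']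
      refine le_of_eq ?_
      field_simp
  have hA := h.area2 hb' M
  have hL := hia_sum_le_La ht M
  have e5 := (pow_le_pow_left₀ (norm_nonneg _) e3 2).trans (e4.trans
    (mul_le_mul hA hL (Finset.sum_nonneg fun n _ => by positivity) hee))
  refine e5.trans (le_of_eq ?_)
  ring

theorem Sg.H_sq (h : Sg F b q) {p : ℝ} (hb : b 1 = (p : ℂ)) {t : ℝ} (ht : 0 < t) :
    ∫ φ in (-π)..π, (conj (Jb p t φ) * Hf F p t φ) ^ 2 = 0 := by
  obtain ⟨g, hg, h0, he⟩ := hia_fun h hb ht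
  simp only [he]
  exact hia_mean (g := fun w => g w ^ 2) (hg.pow 2) (by simp [h0]) ht

theorem Sg.H_T3 (h : Sg F b q) {p : ℝ} (hp : 0 ≤ p) (hp1 : p ≤ 1) (hb : b 1 = (p : ℂ)) {t : ℝ}
    (ht : 0 < t) :
    ∫ φ in (-π)..π, (2 * Af F p t φ + ‖Hf F p t φ‖ ^ 2) ^ 2 ≤
      (2 * Jm t ^ 2 + 4 * Jm t * Real.sqrt (La t) + La t) * (π * Qe t ^ 2 * (1 - p ^ 2)) := by
  have hL0 := hia_La_nonneg ht
  have hJm0 : 0 ≤ Jm t := (norm_nonneg _).trans (Jb_le hp hp1 t 0)
  set u : ℝ → ℂ := fun φ => conj (Jb p t φ) * Hf F p t φ with hu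
  have huc : Continuous u := hia_u_cont h ht p
  have hH : Continuous fun φ => ‖Hf F p t φ‖ ^ 2 := (h.Hf_cont ht p).norm.pow 2
  have h2 := h.H_two hb ht
  have h3 : ∫ φ in (-π)..π, (u φ ^ 2).re = 0 := hia_re (u := fun φ => u φ ^ 2) (huc.pow 2) (h.H_sq hb ht)
  set K : ℝ := 2 * Jm t ^ 2 + 4 * Jm t * Real.sqrt (La t) + La t with hK
  have hK0 : 0 ≤ K := by
    rw [hK]
    have := Real.sqrt_nonneg (La t)
    positivity
  have hpt : ∀ φ, (2 * Af F p t φ + ‖Hf F p t φ‖ ^ 2) ^ 2 ≤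
      K * ‖Hf F p t φ‖ ^ 2 + 2 * (u φ ^ 2).re := by
    intro φ
    have f1 : Af F p t φ = (u φ).re := rfl
    have f2 : (u φ ^ 2).re = (u φ).re ^ 2 - (u φ).im ^ 2 := by
      rw [pow_two, Complex.mul_re]
      ring
    have f3 : (u φ).re ^ 2 + (u φ).im ^ 2 = (‖Jb p t φ‖ * ‖Hf F p t φ‖) ^ 2 := by
      have : ‖u φ‖ = ‖Jb p t φ‖ * ‖Hf F p t φ‖ := by
        rw [hu]
        simp only [norm_mul, RCLike.norm_conj]
      rw [← this, ← Complex.normSq_eq_norm_sq, Complex.normSq_apply]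
      ring
    have f4 := Jb_le hp hp1 t φ
    have f5 : ‖Hf F p t φ‖ ^ 2 ≤ La t := by
      refine (h.H_sup hb ht φ).trans ?_
      have : 0 ≤ p ^ 2 := sq_nonneg p
      nlinarith
    have f6 : ‖Hf F p t φ‖ ≤ Real.sqrt (La t) := Real.le_sqrt_of_sq_le f5
    have f7 : |Af F p t φ| ≤ Jm t * Real.sqrt (La t) :=
      (Af_le F p t φ).trans (mul_le_mul f4 f6 (norm_nonneg _) hJm0)
    have f8 : Af F p t φ ≤ Jm t * Real.sqrt (La t) := (le_abs_self _).trans f7
    have f9 : 0 ≤ ‖Hf F p t φ‖ ^ 2 := by positivity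
    have f10 : (‖Jb p t φ‖ * ‖Hf F p t φ‖) ^ 2 ≤ Jm t ^ 2 * ‖Hf F p t φ‖ ^ 2 := by
      rw [mul_pow]
      exact mul_le_mul_of_nonneg_right (pow_le_pow_left₀ (norm_nonneg _) f4 2) f9
    have f11 := mul_le_mul_of_nonneg_right f8 f9
    have f12 := mul_le_mul_of_nonneg_right f5 f9
    rw [← f1] at f2 f3
    rw [hK, f2]
    nlinarith [f3, f10, f11, f12]
  have hc1 : Continuous fun φ => (2 * Af F p t φ + ‖Hf F p t φ‖ ^ 2) ^ 2 :=
    ((continuous_const.mul (h.Af_cont ht p)).add hH).pow 2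
  have hc2 : Continuous fun φ => (u φ ^ 2).re := Complex.continuous_re.comp (huc.pow 2)
  have hc3 : Continuous fun φ => K * ‖Hf F p t φ‖ ^ 2 + 2 * (u φ ^ 2).re :=
    (hH.const_mul K).add (hc2.const_mul 2)
  refine (intervalIntegral.integral_mono_on (by linarith [Real.pi_pos])
    (hc1.intervalIntegrable _ _) (hc3.intervalIntegrable _ _) fun φ _ => hpt φ).trans ?_
  rw [intervalIntegral.integral_add ((hH.const_mul K).intervalIntegrable _ _)
    ((hc2.const_mul 2).intervalIntegrable _ _), intervalIntegral.integral_const_mul,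
    intervalIntegral.integral_const_mul, h3, mul_zero, add_zero]
  exact mul_le_mul_of_nonneg_left h2 hK0

end Pool.Agent.H36.SZ
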