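import Pool.Agent.H36.SZ.HiD

/-!
# High levels: coefficient inequalities from `hb >= 0`

PROOFS. `hb_sin`: `int_0^π hb sin (mβ) = (π/2) (δ_(m1) - Re b_m / m)`, `hb >= 0` on `[0, π]`
(`hb_nonneg`). `re3`: `sin 3β + sin β = 4 sin β cos^2 β >= 0` on `[0, π]`, so
`-(π/6) Re b_3 + (π/2)(1 - Re b_1) >= 0`. `ren`: `|sin (nβ)| <= n sin β` on `[0, π]` (induction).
-/

open Complex MeasureTheory Set Filter Topology
open scoped ComplexConjugate Real

namespace Pool.Agent.H36.SZ

variable {F : ℂ → ℂ} {b : ℕ → ℂ} {q : ℝ}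

private theorem hc_sin (n : ℕ) {β : ℝ} (h0 : 0 ≤ β) (h1 : β ≤ π) :
    |Real.sin (n * β)| ≤ n * Real.sin β := by
  have hs : 0 ≤ Real.sin β := Real.sin_nonneg_of_mem_Icc ⟨h0, h1⟩
  induction n with
  | zero => simp
  | succ n ih =>
    have e : Real.sin (((n + 1 : ℕ) : ℝ) * β) =
        Real.sin (n * β) * Real.cos β + Real.cos (n * β) * Real.sin β := by
      rw [← Real.sin_add]
      congr 1
      push_cast
      ring
    rw [e]
    refine (abs_add_le _ _).trans ?_
    rw [abs_mul, abs_mul, abs_of_nonneg hs]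
    have h2 : |Real.sin (n * β)| * |Real.cos β| ≤ n * Real.sin β * 1 :=
      mul_le_mul ih (Real.abs_cos_le_one _) (abs_nonneg _) (by positivity)
    have h3 : |Real.cos (n * β)| * Real.sin β ≤ 1 * Real.sin β :=
      mul_le_mul_of_nonneg_right (Real.abs_cos_le_one _) hs
    push_cast
    linarith

theorem Sg.re3 (h : Sg F b q) : (b 3).re ≤ 3 * (1 - (b 1).re) := by
  have hc := h.hb_cont
  have e1 := h.hb_sin (m := 1) le_rfl
  have e3 := h.hb_sin (m := 3) (by norm_num)
  have i1 : IntervalIntegrable (fun β => hb b β * Real.sin ((1 : ℕ) * β)) volume 0 π :=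
    (hc.mul (by fun_prop)).intervalIntegrable _ _
  have i3 : IntervalIntegrable (fun β => hb b β * Real.sin ((3 : ℕ) * β)) volume 0 π :=
    (hc.mul (by fun_prop)).intervalIntegrable _ _
  have hpos : 0 ≤ ∫ β in (0 : ℝ)..π,
      (hb b β * Real.sin ((1 : ℕ) * β) + hb b β * Real.sin ((3 : ℕ) * β)) := by
    refine intervalIntegral.integral_nonneg Real.pi_pos.le fun β hβ => ?_
    have h1 := h.hb_nonneg hβ.1 hβ.2
    have h2 : 0 ≤ Real.sin β := Real.sin_nonneg_of_mem_Icc hβ
    have h3 : Real.sin ((1 : ℕ) * β) + Real.sin ((3 : ℕ) * β) =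
        4 * Real.sin β * Real.cos β ^ 2 := by
      push_cast
      rw [one_mul, Real.sin_three_mul]
      have := Real.sin_sq_add_cos_sq β
      have e : Real.cos β ^ 2 = 1 - Real.sin β ^ 2 := by linarith
      rw [e]
      ring
    rw [← mul_add, h3]
    positivity
  rw [intervalIntegral.integral_add i1 i3, e1, e3] at hpos
  norm_num at hpos
  have hpi := Real.pi_pos
  by_contra hcon
  push Not at hcon
  have : π / 2 * (1 - (b 1).re) + -(π / 2 * ((b 3).re / 3)) < 0 := by nlinarith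
  linarith

theorem Sg.ren (h : Sg F b q) {n : ℕ} (hn : 2 ≤ n) : |(b n).re| ≤ n ^ 2 * (1 - (b 1).re) := by
  have hc := h.hb_cont
  have e1 := h.hb_sin (m := 1) le_rfl
  have en := h.hb_sin (m := n) (by omega)
  have i1 : IntervalIntegrable (fun β => (n : ℝ) * (hb b β * Real.sin ((1 : ℕ) * β)))
      volume 0 π := (continuous_const.mul (hc.mul (by fun_prop))).intervalIntegrable _ _
  have hle : |∫ β in (0 : ℝ)..π, hb b β * Real.sin (n * β)| ≤
      ∫ β in (0 : ℝ)..π, (n : ℝ) * (hb b β * Real.sin ((1 : ℕ) * β)) := by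
    rw [← Real.norm_eq_abs]
    refine intervalIntegral.norm_integral_le_of_norm_le Real.pi_pos.le ?_ i1
    refine ae_of_all _ fun β hβ => ?_
    have hβ' : 0 ≤ β ∧ β ≤ π := ⟨hβ.1.le, hβ.2⟩
    have h1 := h.hb_nonneg hβ'.1 hβ'.2
    rw [Real.norm_eq_abs, abs_mul, abs_of_nonneg h1]
    have h2 := hc_sin n hβ'.1 hβ'.2
    have h3 : hb b β * |Real.sin (n * β)| ≤ hb b β * (n * Real.sin β) :=
      mul_le_mul_of_nonneg_left h2 h1
    push_cast
    rw [one_mul]
    linarith
  rw [intervalIntegral.integral_const_mul, e1, en] at hle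
  have hn1 : n ≠ 1 := by omega
  have hn0 : (0 : ℝ) < n := by exact_mod_cast (by omega : 0 < n)
  have hpi := Real.pi_pos
  rw [if_neg hn1, if_pos rfl, zero_sub, abs_mul, abs_neg,
    abs_of_pos (by positivity : (0 : ℝ) < π / 2), abs_div, abs_of_pos hn0] at hle
  have h4 : |(b n).re| / n ≤ n * (1 - (b 1).re) := by
    have h5 : π / 2 * (|(b n).re| / n) ≤ π / 2 * (n * (1 - (b 1).re)) := by
      refine hle.trans (le_of_eq ?_)
      push_cast
      ring
    exact le_of_mul_le_mul_left h5 (by positivity)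
  rw [div_le_iff₀ hn0] at h4
  calc |(b n).re| ≤ n * (1 - (b 1).re) * n := h4
    _ = n ^ 2 * (1 - (b 1).re) := by ring

end Pool.Agent.H36.SZ
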