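import Pool.Agent.H36.SZ.Lo

/-!
# High levels, `t >= 3/2`: definitions and first facts

After a rotation `b 1 = p` is real, `0 <= p <= 1`.
`Jb p t φ` is `z + p / z` at `z = exp (t + iφ)`, `yb = |Jb|^2`, `Hf = F - Jb`,
`Af = Re (conj Jb * Hf)`, so that `|F|^2 = yb + 2 Af + |Hf|^2`.
`wP x u = 1 - x / max x u` is the derivative of `Ph x` at `u`.
-/

open Complex MeasureTheory Set Filter Topology
open scoped ComplexConjugate Real

namespace Pool.Agent.H36.SZ

noncomputable def wP (x u : ℝ) : ℝ := 1 - x / max x u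

noncomputable def Jb (p t φ : ℝ) : ℂ := exp (t + φ * I) + p * exp (-(t + φ * I))

noncomputable def yb (p t φ : ℝ) : ℝ :=
  Real.exp (2 * t) + p ^ 2 * Qe t + 2 * p * Real.cos (2 * φ)

noncomputable def Hf (F : ℂ → ℂ) (p t φ : ℝ) : ℂ := G F t φ - Jb p t φ

noncomputable def Af (F : ℂ → ℂ) (p t φ : ℝ) : ℝ := (conj (Jb p t φ) * Hf F p t φ).re

/-- `int (cos 2φ - c)_+` -/
noncomputable def Ic (c : ℝ) : ℝ := ∫ φ in (-π)..π, max 0 (Real.cos (2 * φ) - c)

/-- `int (cos 2φ - c)_+^2` -/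
noncomputable def Uc (c : ℝ) : ℝ := ∫ φ in (-π)..π, max 0 (Real.cos (2 * φ) - c) ^ 2

/-- the constant of the first order term -/
noncomputable def Ka (t : ℝ) : ℝ :=
  (1 + Qe t) * (6 * Qe t + 2 * (25 * Qe t ^ 2 + 49 * Qe t ^ 3 / (1 - 5 / 3 * Qe t)))

/-- upper bound of `|Jb|` -/
noncomputable def Jm (t : ℝ) : ℝ := Real.exp t * (1 + Qe t)

variable {F : ℂ → ℂ} {b : ℕ → ℂ} {q : ℝ}

theorem Jb_eq (p t φ : ℝ) : Jb p t φ =
    ((Real.exp t + p * Real.exp (-t)) * Real.cos φ : ℝ) +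
      ((Real.exp t - p * Real.exp (-t)) * Real.sin φ : ℝ) * I := by
  have e1 : exp ((t : ℂ) + φ * I) =
      ((Real.exp t * Real.cos φ : ℝ) : ℂ) + ((Real.exp t * Real.sin φ : ℝ) : ℂ) * I := by
    rw [Complex.exp_add, Complex.exp_mul_I]
    push_cast
    ring
  have e2 : exp (-((t : ℂ) + φ * I)) =
      ((Real.exp (-t) * Real.cos φ : ℝ) : ℂ) - ((Real.exp (-t) * Real.sin φ : ℝ) : ℂ) * I := by
    rw [show -((t : ℂ) + φ * I) = ((-t : ℝ) : ℂ) + ((-φ : ℝ) : ℂ) * I by push_cast; ring,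
      Complex.exp_add, Complex.exp_mul_I]
    push_cast
    rw [Complex.cos_neg, Complex.sin_neg]
    ring
  unfold Jb
  rw [e1, e2]
  push_cast
  ring

theorem Qe_eq' (t : ℝ) : Qe t = Real.exp (-t) ^ 2 := by
  unfold Qe
  rw [← Real.exp_nat_mul]
  congr 1
  push_cast
  ring

theorem exp_t_mul (t : ℝ) : Real.exp t * Real.exp (-t) = 1 := by
  rw [← Real.exp_add, add_neg_cancel, Real.exp_zero]

theorem norm_Jb (p t φ : ℝ) : ‖Jb p t φ‖ ^ 2 = yb p t φ := by
  have h1 := exp_t_mul t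
  have h2 : Real.exp (2 * t) = Real.exp t ^ 2 := by
    rw [← Real.exp_nat_mul]
    congr 1
  have h3 := Real.sin_sq_add_cos_sq φ
  rw [Jb_eq, ← Complex.normSq_eq_norm_sq, Complex.normSq_add_mul_I, yb, h2, Qe_eq',
    Real.cos_two_mul]
  have h4 : Real.sin φ ^ 2 = 1 - Real.cos φ ^ 2 := by linarith
  rw [mul_pow, mul_pow, h4]
  linear_combination (4 * p * Real.cos φ ^ 2 - 2 * p) * h1

theorem Jb_one (t φ : ℝ) : Jb 1 t φ = G J t φ := by
  unfold Jb G J
  rw [← Complex.exp_neg]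
  push_cast
  ring

theorem yb_one (t φ : ℝ) : yb 1 t φ = yy J t φ := by
  rw [← norm_Jb, Jb_one, yy]

theorem yy_J' (t φ : ℝ) : yy J t φ = 2 * Real.cosh (2 * t) + 2 * Real.cos (2 * φ) := by
  rw [yy_J, Real.cos_two_mul, Real.cosh_two_mul, Real.cosh_sq]
  ring

theorem Jb_neg (p t φ : ℝ) : Jb p t (-φ) = conj (Jb p t φ) := by
  rw [Jb_eq, Jb_eq]
  apply Complex.ext
  · simp [-Complex.ofReal_exp, -Complex.ofReal_cos, -Complex.ofReal_sin]
  · simp [-Complex.ofReal_exp, -Complex.ofReal_cos, -Complex.ofReal_sin]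

theorem Jb_pi (p t φ : ℝ) : Jb p t (φ + π) = -Jb p t φ := by
  rw [Jb_eq, Jb_eq, Real.cos_add_pi, Real.sin_add_pi]
  push_cast
  ring

theorem yy_split (F : ℂ → ℂ) (p t φ : ℝ) :
    yy F t φ = yb p t φ + 2 * Af F p t φ + ‖Hf F p t φ‖ ^ 2 := by
  unfold yy Af
  rw [← norm_Jb]
  have e : G F t φ = Jb p t φ + Hf F p t φ := by unfold Hf; ring
  rw [e, ← Complex.normSq_eq_norm_sq, ← Complex.normSq_eq_norm_sq, ← Complex.normSq_eq_norm_sq,
    Complex.normSq_apply, Complex.normSq_apply, Complex.normSq_apply]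
  simp only [Complex.mul_re, Complex.conj_re, Complex.conj_im, Complex.add_re, Complex.add_im]
  ring

theorem Af_le (F : ℂ → ℂ) (p t φ : ℝ) : |Af F p t φ| ≤ ‖Jb p t φ‖ * ‖Hf F p t φ‖ := by
  unfold Af
  refine (Complex.abs_re_le_norm _).trans ?_
  rw [norm_mul, RCLike.norm_conj]

theorem Jb_le {p : ℝ} (h0 : 0 ≤ p) (h1 : p ≤ 1) (t φ : ℝ) : ‖Jb p t φ‖ ≤ Jm t := by
  unfold Jb Jm
  refine (norm_add_le _ _).trans ?_
  rw [norm_mul, Complex.norm_exp, Complex.norm_exp, Complex.norm_real, Real.norm_eq_abs,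
    abs_of_nonneg h0]
  have e1 : ((t : ℂ) + φ * I).re = t := by simp
  have e2 : (-((t : ℂ) + φ * I)).re = -t := by simp
  rw [e1, e2, mul_add, mul_one, Qe_eq', pow_two, ← mul_assoc, exp_t_mul, one_mul]
  have := Real.exp_pos (-t)
  nlinarith

theorem Jb_cont (p t : ℝ) : Continuous (Jb p t) := by
  unfold Jb
  fun_prop

theorem yb_cont (p t : ℝ) : Continuous (yb p t) := by
  unfold yb
  fun_prop

theorem Sg.G_cont (h : Sg F b q) {t : ℝ} (ht : 0 < t) : Continuous (G F t) :=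
  h.an.cGt (lt_of_lt_of_le h.q1 (Real.one_le_exp ht.le))

theorem Sg.Hf_cont (h : Sg F b q) {t : ℝ} (ht : 0 < t) (p : ℝ) : Continuous (Hf F p t) :=
  (h.G_cont ht).sub (Jb_cont p t)

theorem Sg.Af_cont (h : Sg F b q) {t : ℝ} (ht : 0 < t) (p : ℝ) : Continuous (Af F p t) :=
  Complex.continuous_re.comp
    ((Complex.continuous_conj.comp (Jb_cont p t)).mul (h.Hf_cont ht p))

theorem wP_nonneg {x : ℝ} (hx : 0 < x) (u : ℝ) : 0 ≤ wP x u := by
  unfold wP
  have h1 : x / max x u ≤ 1 := (div_le_one (lt_of_lt_of_le hx (le_max_left x u))).2 (le_max_left x u)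
  linarith

theorem wP_zero {x u : ℝ} (hx : 0 < x) (h : u ≤ x) : wP x u = 0 := by
  unfold wP
  rw [max_eq_left h, div_self hx.ne', sub_self]

theorem x_wP_le {x : ℝ} (hx : 0 < x) (u : ℝ) : x * wP x u ≤ max 0 (u - x) := by
  unfold wP
  rcases le_total u x with h | h
  · rw [max_eq_left h, div_self hx.ne', sub_self, mul_zero]
    exact le_max_left _ _
  · rw [max_eq_right h, max_eq_right (sub_nonneg.2 h)]
    have hu : 0 < u := lt_of_lt_of_le hx h
    have e : x * (1 - x / u) = x * (u - x) / u := by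
      field_simp
    rw [e, div_le_iff₀ hu]
    nlinarith

theorem wP_cont {x : ℝ} (hx : 0 < x) : Continuous (wP x) := by
  unfold wP
  exact continuous_const.sub (continuous_const.div (continuous_const.max continuous_id)
    fun u => (lt_of_lt_of_le hx (le_max_left x u)).ne')

end Pool.Agent.H36.SZ
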