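import Pool.Agent.H36.SZ.HiD

/-!
# High levels: the integrals `Ic`, `Uc`

PROOF of `Ic_ge`. `cos 2φ - c >= (1 - c) - 2φ^2` (`Real.one_sub_sq_div_two_le_cos`), so on
`|φ| <= a := sqrt ((1-c)/2)` the integrand is `>= (1-c) - 2φ^2 >= 0`; the integral over `|φ| <= a` is
`(4/3)(1-c) a`; the integrand has period `π`, so the integral over `(-π, π)` is twice the one over
`(-π/2, π/2)`, and `a <= π/2`.
PROOF of `Uc_ge`. Let `θ = arccos c / 2 ∈ [0, π/4]`, `s = 2θ`. Both integrals are twice the integral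
over `(-θ, θ)` (period `π`): `Ic = 2 (sin s - s cos s)`,
`Uc = s (2 + cos 2s) - (3/2) sin 2s` (`int (cos 2φ - cos s)^2 = θ + sin 4θ / 4 - ... `), and
`Uc - (3/4)(1 - cos s) Ic = (1/2)(1 + cos s)(s (2 + cos s) - 3 sin s)`, which is `>= 0`: the function
`g s = s (2 + cos s) - 3 sin s` has `g 0 = 0` and
`g' s = 2 - 2 cos s - s sin s = 4 sin (s/2) (sin (s/2) - (s/2) cos (s/2)) >= 0` on `[0, π]`
(`s/2 <= tan (s/2)`).
`lam_le`: `max 0 (p y - c) <= (max 0 (p-c)/(1-c)) max 0 (y-c)` for `0 <= c < 1`, `0 <= p <= 1`,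
`y <= 1`: if `p y > c` then `p > c`, `y > c` and
`(p y - c)(1-c) - (p-c)(y-c) = -c (1-p)(1-y) <= 0`.
-/

open Complex MeasureTheory Set Filter Topology
open scoped ComplexConjugate Real

namespace Pool.Agent.H36.SZ

private theorem hi_cusa {s : ℝ} (h0 : 0 ≤ s) (h1 : s ≤ π) :
    3 * Real.sin s ≤ s * (2 + Real.cos s) := by
  have hmono : MonotoneOn (fun s : ℝ => s * (2 + Real.cos s) - 3 * Real.sin s) (Icc 0 π) := by
    refine monotoneOn_of_deriv_nonneg (convex_Icc 0 π) (by fun_prop) (by fun_prop) ?_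
    intro x hx
    rw [interior_Icc] at hx
    have hd : HasDerivAt (fun s : ℝ => s * (2 + Real.cos s) - 3 * Real.sin s)
        (1 * (2 + Real.cos x) + x * (-Real.sin x) - 3 * Real.cos x) x :=
      HasDerivAt.sub (HasDerivAt.mul (hasDerivAt_id x) ((Real.hasDerivAt_cos x).const_add 2))
        ((Real.hasDerivAt_sin x).const_mul 3)
    rw [hd.deriv]
    have hx2 : 0 < x / 2 := by linarith [hx.1]
    have hx3 : x / 2 < π / 2 := by linarith [hx.2]
    have hs : 0 < Real.sin (x / 2) :=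
      Real.sin_pos_of_pos_of_lt_pi hx2 (by linarith [Real.pi_pos])
    have hc : 0 < Real.cos (x / 2) := Real.cos_pos_of_mem_Ioo ⟨by linarith [Real.pi_pos], hx3⟩
    have ht : x / 2 < Real.tan (x / 2) := Real.lt_tan hx2 hx3
    rw [Real.tan_eq_sin_div_cos, lt_div_iff₀ hc] at ht
    have e1 : Real.sin x = 2 * Real.sin (x / 2) * Real.cos (x / 2) := by
      rw [← Real.sin_two_mul]
      congr 1
      ring
    have e2 : Real.cos x = 1 - 2 * Real.sin (x / 2) ^ 2 := by
      have h3 := Real.cos_two_mul (x / 2)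
      have h4 := Real.sin_sq_add_cos_sq (x / 2)
      rw [show 2 * (x / 2) = x by ring] at h3
      rw [h3]
      linarith
    have e3 : 1 * (2 + Real.cos x) + x * (-Real.sin x) - 3 * Real.cos x =
        4 * Real.sin (x / 2) * (Real.sin (x / 2) - x / 2 * Real.cos (x / 2)) := by
      rw [e1, e2]
      ring
    rw [e3]
    exact mul_nonneg (by positivity) (by linarith)
  have h2 := hmono ⟨le_rfl, Real.pi_pos.le⟩ ⟨h0, h1⟩ h0
  simp only [zero_mul, Real.sin_zero, mul_zero, sub_zero] at h2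
  linarith

private theorem hi_half {f : ℝ → ℝ} (hf : Function.Periodic f π) (hc : Continuous f) :
    ∫ φ in (-π)..π, f φ = 2 * ∫ φ in (-(π / 2))..(π / 2), f φ := by
  have h1 := hf.intervalIntegral_add_eq (-π) (-(π / 2))
  have h2 := hf.intervalIntegral_add_eq 0 (-(π / 2))
  have e1 : -π + π = 0 := by ring
  have e2 : -(π / 2) + π = π / 2 := by ring
  rw [e1, e2] at h1
  rw [zero_add, e2] at h2
  rw [← intervalIntegral.integral_add_adjacent_intervals (hc.intervalIntegrable (-π) 0)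
    (hc.intervalIntegrable 0 π), h1, h2]
  ring

private theorem hi_cut {c : ℝ} (hc : 0 ≤ c) (hc1 : c ≤ 1) (f : ℝ → ℝ) (hf : Continuous f)
    (h0 : f 0 = 0) :
    ∫ φ in (-(π / 2))..(π / 2), f (max 0 (Real.cos (2 * φ) - c)) =
      ∫ φ in (-(Real.arccos c / 2))..(Real.arccos c / 2), f (Real.cos (2 * φ) - c) := by
  set θ := Real.arccos c / 2 with hθ
  have hθ0 : 0 ≤ θ := by
    have := Real.arccos_nonneg c
    positivity
  have hθ1 : θ ≤ π / 4 := by
    have := Real.arccos_le_pi_div_two.2 hc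
    linarith
  have hpi := Real.pi_pos
  have hcos : Real.cos (2 * θ) = c := by
    rw [hθ, show 2 * (Real.arccos c / 2) = Real.arccos c by ring]
    exact Real.cos_arccos (by linarith) hc1
  have hcont : Continuous fun φ : ℝ => f (max 0 (Real.cos (2 * φ) - c)) := by fun_prop
  have hi := fun a b : ℝ => hcont.intervalIntegrable (μ := volume) a b
  rw [← intervalIntegral.integral_add_adjacent_intervals (hi (-(π / 2)) (-θ)) (hi (-θ) (π / 2)),
    ← intervalIntegral.integral_add_adjacent_intervals (hi (-θ) θ) (hi θ (π / 2))]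
  have h1 : ∫ φ in (-(π / 2))..(-θ), f (max 0 (Real.cos (2 * φ) - c)) = 0 := by
    rw [intervalIntegral.integral_congr (g := fun _ => (0 : ℝ))]
    · simp
    · intro φ hφ
      rw [uIcc_of_le (by linarith)] at hφ
      have h3 : Real.cos (-(2 * φ)) ≤ Real.cos (2 * θ) :=
        Real.cos_le_cos_of_nonneg_of_le_pi (by linarith) (by linarith [hφ.1])
          (by linarith [hφ.2])
      rw [Real.cos_neg, hcos] at h3
      change f (max 0 (Real.cos (2 * φ) - c)) = 0
      rw [max_eq_left (by linarith), h0]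
  have h2 : ∫ φ in θ..(π / 2), f (max 0 (Real.cos (2 * φ) - c)) = 0 := by
    rw [intervalIntegral.integral_congr (g := fun _ => (0 : ℝ))]
    · simp
    · intro φ hφ
      rw [uIcc_of_le (by linarith)] at hφ
      have h3 : Real.cos (2 * φ) ≤ Real.cos (2 * θ) :=
        Real.cos_le_cos_of_nonneg_of_le_pi (by linarith) (by linarith [hφ.2])
          (by linarith [hφ.1])
      rw [hcos] at h3
      change f (max 0 (Real.cos (2 * φ) - c)) = 0
      rw [max_eq_left (by linarith), h0]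
  rw [h1, h2, zero_add, add_zero]
  refine intervalIntegral.integral_congr fun φ hφ => ?_
  rw [uIcc_of_le (by linarith)] at hφ
  have h3 : c ≤ Real.cos (2 * φ) := by
    rw [← hcos, ← Real.cos_abs (2 * φ)]
    refine Real.cos_le_cos_of_nonneg_of_le_pi (abs_nonneg _) (by linarith) ?_
    rw [abs_le]
    constructor <;> linarith [hφ.1, hφ.2]
  change f (max 0 (Real.cos (2 * φ) - c)) = f (Real.cos (2 * φ) - c)
  rw [max_eq_right (by linarith)]

private theorem hi_hs (φ : ℝ) : HasDerivAt (fun φ : ℝ => Real.sin (2 * φ)) (Real.cos (2 * φ) * 2) φ := by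
  have h := ((hasDerivAt_id φ).const_mul (2 : ℝ)).sin
  rw [mul_one] at h
  exact h

private theorem hi_hc (φ : ℝ) : HasDerivAt (fun φ : ℝ => Real.cos (2 * φ)) (-Real.sin (2 * φ) * 2) φ := by
  have h := ((hasDerivAt_id φ).const_mul (2 : ℝ)).cos
  rw [mul_one] at h
  exact h

private theorem hi_int1 (c θ : ℝ) : ∫ φ in (-θ)..θ, (Real.cos (2 * φ) - c) =
    Real.sin (2 * θ) - 2 * θ * c := by
  have hd : ∀ φ ∈ uIcc (-θ) θ, HasDerivAt (fun φ : ℝ => Real.sin (2 * φ) / 2 - c * φ)
      (Real.cos (2 * φ) - c) φ := by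
    intro φ _
    have h := ((hi_hs φ).div_const 2).sub ((hasDerivAt_id φ).const_mul c)
    exact h.congr_deriv (by ring)
  rw [intervalIntegral.integral_eq_sub_of_hasDerivAt hd
    (Continuous.intervalIntegrable (by fun_prop) _ _), mul_neg, Real.sin_neg]
  ring

private theorem hi_int2 (c θ : ℝ) : ∫ φ in (-θ)..θ, (Real.cos (2 * φ) - c) ^ 2 =
    θ + Real.sin (2 * θ) * Real.cos (2 * θ) / 2 - 2 * c * Real.sin (2 * θ) + 2 * c ^ 2 * θ := by
  have hd : ∀ φ ∈ uIcc (-θ) θ, HasDerivAt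
      (fun φ : ℝ => φ / 2 + Real.sin (2 * φ) * Real.cos (2 * φ) / 4 - c * Real.sin (2 * φ) + c ^ 2 * φ)
      ((Real.cos (2 * φ) - c) ^ 2) φ := by
    intro φ _
    have h := ((((hasDerivAt_id φ).div_const 2).add (((hi_hs φ).mul (hi_hc φ)).div_const 4)).sub
      ((hi_hs φ).const_mul c)).add ((hasDerivAt_id φ).const_mul (c ^ 2))
    exact h.congr_deriv (by linear_combination (-(1 / 2) : ℝ) * Real.sin_sq_add_cos_sq (2 * φ))
  rw [intervalIntegral.integral_eq_sub_of_hasDerivAt hd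
    (Continuous.intervalIntegrable (by fun_prop) _ _), mul_neg, Real.sin_neg, Real.cos_neg]
  ring

private theorem hi_per (c : ℝ) (f : ℝ → ℝ) :
    Function.Periodic (fun φ : ℝ => f (max 0 (Real.cos (2 * φ) - c))) π := by
  intro φ
  change f (max 0 (Real.cos (2 * (φ + π)) - c)) = f (max 0 (Real.cos (2 * φ) - c))
  rw [mul_add, Real.cos_add_two_pi]

private theorem hi_Ic {c : ℝ} (hc : 0 ≤ c) (hc1 : c ≤ 1) :
    Ic c = 2 * (Real.sin (Real.arccos c) - Real.arccos c * c) := by
  have h1 : Ic c = 2 * ∫ φ in (-(π / 2))..(π / 2), max 0 (Real.cos (2 * φ) - c) :=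
    hi_half (hi_per c fun x => x) (by fun_prop)
  rw [h1, hi_cut hc hc1 (fun x => x) continuous_id rfl, hi_int1,
    show 2 * (Real.arccos c / 2) = Real.arccos c by ring]

private theorem hi_Uc {c : ℝ} (hc : 0 ≤ c) (hc1 : c ≤ 1) :
    Uc c = Real.arccos c * (1 + 2 * c ^ 2) - 3 * c * Real.sin (Real.arccos c) := by
  have h1 : Uc c = 2 * ∫ φ in (-(π / 2))..(π / 2), max 0 (Real.cos (2 * φ) - c) ^ 2 :=
    hi_half (hi_per c fun x => x ^ 2) (by fun_prop)
  rw [h1, hi_cut hc hc1 (fun x => x ^ 2) (by fun_prop) (by norm_num), hi_int2,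
    show 2 * (Real.arccos c / 2) = Real.arccos c by ring, Real.cos_arccos (by linarith) hc1]
  ring

theorem lam_le {c p y : ℝ} (hc : 0 ≤ c) (hc1 : c < 1) (hp : 0 ≤ p) (hp1 : p ≤ 1) (hy : y ≤ 1) :
    max 0 (p * y - c) ≤ max 0 (p - c) / (1 - c) * max 0 (y - c) := by
  have h1c : 0 < 1 - c := by linarith
  rcases le_or_gt (p * y) c with h | h
  · rw [max_eq_left (by linarith)]
    have h2 : 0 ≤ max 0 (p - c) := le_max_left _ _
    have h3 : 0 ≤ max 0 (y - c) := le_max_left _ _
    positivity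
  · have hy0 : 0 < y := by
      by_contra hcon
      have h2 : p * y ≤ 0 := mul_nonpos_of_nonneg_of_nonpos hp (not_lt.1 hcon)
      linarith
    have hpc : c < p := by nlinarith
    have hyc : c < y := by nlinarith
    rw [max_eq_right (by linarith), max_eq_right (by linarith), max_eq_right (by linarith),
      div_mul_eq_mul_div, le_div_iff₀ h1c]
    have h2 : 0 ≤ c * ((1 - p) * (1 - y)) :=
      mul_nonneg hc (mul_nonneg (by linarith) (by linarith))
    nlinarith

theorem Ic_ge {c : ℝ} (hc : 0 ≤ c) (hc1 : c ≤ 1) :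
    8 / 3 * (1 - c) * Real.sqrt ((1 - c) / 2) ≤ Ic c := by
  have h1 : Ic c = 2 * ∫ φ in (-(π / 2))..(π / 2), max 0 (Real.cos (2 * φ) - c) :=
    hi_half (hi_per c fun x => x) (by fun_prop)
  set a := Real.sqrt ((1 - c) / 2) with ha
  have ha0 : 0 ≤ a := Real.sqrt_nonneg _
  have ha2 : a ^ 2 = (1 - c) / 2 := Real.sq_sqrt (by linarith)
  have hpi := Real.pi_gt_three
  have ha1 : a ≤ π / 2 := by nlinarith
  have hcont : Continuous fun φ : ℝ => max 0 (Real.cos (2 * φ) - c) := by fun_prop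
  have h2 : ∫ φ in (-a)..a, max 0 (Real.cos (2 * φ) - c) ≤
      ∫ φ in (-(π / 2))..(π / 2), max 0 (Real.cos (2 * φ) - c) := by
    refine intervalIntegral.integral_mono_interval (by linarith) (by linarith) ha1 ?_
      (hcont.intervalIntegrable _ _)
    exact Eventually.of_forall fun φ => le_max_left _ _
  have h3 : ∫ φ in (-a)..a, ((1 - c) - 2 * φ ^ 2) ≤
      ∫ φ in (-a)..a, max 0 (Real.cos (2 * φ) - c) := by
    refine intervalIntegral.integral_mono_on (by linarith)
      (Continuous.intervalIntegrable (by fun_prop) _ _) (hcont.intervalIntegrable _ _) ?_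
    intro φ _
    refine le_trans ?_ (le_max_right _ _)
    have h4 := Real.one_sub_sq_div_two_le_cos (x := 2 * φ)
    nlinarith
  have h5 : ∫ φ in (-a)..a, ((1 - c) - 2 * φ ^ 2) = 4 / 3 * (1 - c) * a := by
    have hd : ∀ φ ∈ uIcc (-a) a, HasDerivAt (fun φ : ℝ => (1 - c) * φ - 2 * (φ ^ 3 / 3))
        ((1 - c) - 2 * φ ^ 2) φ := by
      intro φ _
      have h := ((hasDerivAt_id φ).const_mul (1 - c)).sub (((hasDerivAt_pow 3 φ).div_const 3).const_mul 2)
      exact h.congr_deriv (by push_cast; ring)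
    rw [intervalIntegral.integral_eq_sub_of_hasDerivAt hd
      (Continuous.intervalIntegrable (by fun_prop) _ _)]
    have h6 : a ^ 3 = a * ((1 - c) / 2) := by rw [← ha2]; ring
    have h7 : (-a) ^ 3 = -(a * ((1 - c) / 2)) := by rw [← h6]; ring
    rw [h6, h7]
    ring
  rw [h1]
  linarith

theorem Uc_ge {c : ℝ} (hc : 0 ≤ c) (hc1 : c ≤ 1) : 3 / 4 * (1 - c) * Ic c ≤ Uc c := by
  rw [hi_Ic hc hc1, hi_Uc hc hc1]
  have h1 := hi_cusa (Real.arccos_nonneg c) (Real.arccos_le_pi c)
  rw [Real.cos_arccos (by linarith) hc1] at h1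
  have h2 : 0 ≤ 1 / 2 * (1 + c) * (Real.arccos c * (2 + c) - 3 * Real.sin (Real.arccos c)) :=
    mul_nonneg (by linarith) (by linarith)
  have h3 : Real.arccos c * (1 + 2 * c ^ 2) - 3 * c * Real.sin (Real.arccos c) -
      3 / 4 * (1 - c) * (2 * (Real.sin (Real.arccos c) - Real.arccos c * c)) =
      1 / 2 * (1 + c) * (Real.arccos c * (2 + c) - 3 * Real.sin (Real.arccos c)) := by
    ring
  linarith

end Pool.Agent.H36.SZ
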