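import Pool.Agent.H36.SZ.HiP
import Pool.Agent.H36.SZ.HiI

/-!
# High levels: the gain `Zf J - Zf Jb`

`K = cosh 2t`, `x = 2 K + 2 c`, `0 <= c < 1`, `0 <= p <= 1`. `yy J = 2K + 2 cos 2φ <= M := 2K + 2`.
PROOF of `gain`. Pointwise: `yb p - x = 2 (p cos 2φ - c) - Q (1 - p^2)` (`exp (2t) + Q = 2K`), so
`max 0 (yb - x) <= 2 max 0 (p cos 2φ - c) <= 2 λ max 0 (cos 2φ - c)`, `λ = max 0 (p-c)/(1-c)`
(`lam_le`). `Ph_gain` with `u = min (yb) (yy J)` (`Ph x u = Ph x yb`: where `yb > yy J` we have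
`cos 2φ < 0`, hence `yb <= x`): `Ph x (yy J) - Ph x (yb) >=
(4/(2M)) (1 - λ^2) max 0 (cos 2φ - c)^2`. Integrate.
PROOF of `wint`: `x wP x (yb) <= max 0 (yb - x)` (`x_wP_le`), integrate.
PROOF of `wsup`: the same pointwise, `cos 2φ <= 1`.
-/

open Complex MeasureTheory Set Filter Topology
open scoped ComplexConjugate Real

namespace Pool.Agent.H36.SZ

private theorem yb_sub_eq (p c t φ : ℝ) : yb p t φ - (2 * Real.cosh (2 * t) + 2 * c) =
    2 * (p * Real.cos (2 * φ) - c) - Qe t * (1 - p ^ 2) := by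
  unfold yb Qe
  rw [Real.cosh_eq]
  ring

private theorem yb_sub_le_aux {p c t : ℝ} (hp : 0 ≤ p) (hp1 : p ≤ 1) (φ : ℝ) :
    yb p t φ - (2 * Real.cosh (2 * t) + 2 * c) ≤ 2 * (p * Real.cos (2 * φ) - c) := by
  rw [yb_sub_eq]
  have h1 : 0 ≤ Qe t * (1 - p ^ 2) :=
    mul_nonneg (Real.exp_pos _).le (by nlinarith)
  linarith

theorem yb_sub_le {p c t : ℝ} (hc : 0 ≤ c) (hc1 : c < 1) (hp : 0 ≤ p) (hp1 : p ≤ 1) (φ : ℝ) :
    max 0 (yb p t φ - (2 * Real.cosh (2 * t) + 2 * c)) ≤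
      2 * (max 0 (p - c) / (1 - c)) * max 0 (Real.cos (2 * φ) - c) := by
  have h1 := yb_sub_le_aux (c := c) (t := t) hp hp1 φ
  have h2 := lam_le hc hc1 hp hp1 (Real.cos_le_one (2 * φ))
  have h3 : p * Real.cos (2 * φ) - c ≤ max 0 (p * Real.cos (2 * φ) - c) := le_max_right _ _
  have h4 : 0 ≤ max 0 (p * Real.cos (2 * φ) - c) := le_max_left _ _
  refine max_le ?_ ?_ <;> linarith

private theorem x_pos {c t : ℝ} (hc : 0 ≤ c) : 0 < 2 * Real.cosh (2 * t) + 2 * c := by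
  have := Real.cosh_pos (2 * t)
  linarith

private theorem yb_nonneg (p t φ : ℝ) : 0 ≤ yb p t φ := by
  rw [← norm_Jb]
  exact sq_nonneg _

private theorem Ph_cont_of {x : ℝ} (hx : 0 < x) {f : ℝ → ℝ} (hf : Continuous f)
    (h0 : ∀ s, 0 ≤ f s) : Continuous fun s => Ph x (f s) := by
  have h := Ph_cont.comp ((continuous_const (y := x)).prodMk hf)
  refine h.congr fun s => ?_
  simp only [Function.comp_apply, abs_of_pos hx, abs_of_nonneg (h0 s)]

private theorem mx_cont (c : ℝ) : Continuous fun φ : ℝ => max 0 (Real.cos (2 * φ) - c) := by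
  fun_prop

private theorem lam_bd {p c : ℝ} (hc1 : c < 1) (hp1 : p ≤ 1) :
    0 ≤ max 0 (p - c) / (1 - c) ∧ max 0 (p - c) / (1 - c) ≤ 1 := by
  have h : 0 < 1 - c := by linarith
  refine ⟨div_nonneg (le_max_left _ _) h.le, (div_le_one h).2 (max_le h.le (by linarith))⟩

private theorem gain_pt {p c t : ℝ} (hc : 0 ≤ c) (hc1 : c < 1) (hp : 0 ≤ p) (hp1 : p ≤ 1)
    (φ : ℝ) :
    2 / (2 * Real.cosh (2 * t) + 2) * (1 - (max 0 (p - c) / (1 - c)) ^ 2) *
        max 0 (Real.cos (2 * φ) - c) ^ 2 ≤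
      Ph (2 * Real.cosh (2 * t) + 2 * c) (yy J t φ) -
        Ph (2 * Real.cosh (2 * t) + 2 * c) (yb p t φ) := by
  have hx := x_pos (c := c) (t := t) hc
  have hK := Real.cosh_pos (2 * t)
  have hcos := Real.cos_le_one (2 * φ)
  have hQ : 0 < Qe t := Real.exp_pos _
  have key : Ph (2 * Real.cosh (2 * t) + 2 * c) (yb p t φ) =
      Ph (2 * Real.cosh (2 * t) + 2 * c) (min (yb p t φ) (yy J t φ)) := by
    rcases le_or_gt (yb p t φ) (yy J t φ) with h | h
    · rw [min_eq_left h]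
    · rw [min_eq_right h.le]
      have h1 : yb p t φ ≤ 2 * Real.cosh (2 * t) + 2 * c := by
        have e1 := yb_sub_eq p c t φ
        have e2 := yb_sub_eq 1 c t φ
        rw [yb_one] at e2
        have h3 := yb_sub_le_aux (c := c) (t := t) hp hp1 φ
        have h2 : Real.cos (2 * φ) ≤ 0 := by
          by_contra hcon
          push Not at hcon
          have : 0 ≤ (1 - p) * (Qe t * (1 + p) + 2 * Real.cos (2 * φ)) :=
            mul_nonneg (by linarith) (by positivity)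
          nlinarith
        have : p * Real.cos (2 * φ) ≤ 0 := mul_nonpos_of_nonneg_of_nonpos hp h2
        linarith
      rw [Ph_zero' hx h1, Ph_zero' hx (h.le.trans h1)]
  have hg := Ph_gain (M := 2 * Real.cosh (2 * t) + 2) hx (min_le_right (yb p t φ) (yy J t φ))
    (by rw [yy_J']; linarith) (by linarith)
  rw [← key] at hg
  refine le_trans ?_ hg
  have hM : 0 < 2 * (2 * Real.cosh (2 * t) + 2) := by linarith
  rw [le_div_iff₀ hM]
  have e3 : max 0 (yy J t φ - (2 * Real.cosh (2 * t) + 2 * c)) =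
      2 * max 0 (Real.cos (2 * φ) - c) := by
    rw [yy_J', mul_max_of_nonneg _ _ (by norm_num : (0 : ℝ) ≤ 2), mul_zero]
    congr 1
    ring
  have e4 : max 0 (min (yb p t φ) (yy J t φ) - (2 * Real.cosh (2 * t) + 2 * c)) ≤
      2 * (max 0 (p - c) / (1 - c)) * max 0 (Real.cos (2 * φ) - c) :=
    (max_le_max le_rfl (sub_le_sub_right (min_le_left _ _) _)).trans
      (yb_sub_le hc hc1 hp hp1 φ)
  have e5 : 0 ≤ max 0 (min (yb p t φ) (yy J t φ) - (2 * Real.cosh (2 * t) + 2 * c)) :=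
    le_max_left _ _
  have e6 := pow_le_pow_left₀ e5 e4 2
  have e7 : 2 / (2 * Real.cosh (2 * t) + 2) * (1 - (max 0 (p - c) / (1 - c)) ^ 2) *
        max 0 (Real.cos (2 * φ) - c) ^ 2 * (2 * (2 * Real.cosh (2 * t) + 2)) =
      (2 * max 0 (Real.cos (2 * φ) - c)) ^ 2 -
        (2 * (max 0 (p - c) / (1 - c)) * max 0 (Real.cos (2 * φ) - c)) ^ 2 := by
    have h0 : 2 * Real.cosh (2 * t) + 2 ≠ 0 := by linarith
    field_simp
  rw [e7, e3]
  linarith

theorem gain {p c t : ℝ} (hc : 0 ≤ c) (hc1 : c < 1) (hp : 0 ≤ p) (hp1 : p ≤ 1) :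
    2 / (2 * Real.cosh (2 * t) + 2) * (1 - (max 0 (p - c) / (1 - c)) ^ 2) * Uc c ≤
      Zf J t (2 * Real.cosh (2 * t) + 2 * c) -
        ∫ φ in (-π)..π, Ph (2 * Real.cosh (2 * t) + 2 * c) (yb p t φ) := by
  have hx := x_pos (c := c) (t := t) hc
  have hpi : (-π : ℝ) ≤ π := by linarith [Real.pi_pos]
  have hyJ : Continuous (yy J t) := by
    have : yy J t = yb 1 t := funext fun φ => (yb_one t φ).symm
    rw [this]
    exact yb_cont 1 t
  have c1 := Ph_cont_of hx hyJ fun s => sq_nonneg _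
  have c2 := Ph_cont_of hx (yb_cont p t) (yb_nonneg p t)
  unfold Zf Uc
  rw [← intervalIntegral.integral_sub (c1.intervalIntegrable _ _) (c2.intervalIntegrable _ _),
    ← intervalIntegral.integral_const_mul]
  refine intervalIntegral.integral_mono_on hpi
    (((mx_cont c).pow 2).const_smul
      (2 / (2 * Real.cosh (2 * t) + 2) * (1 - (max 0 (p - c) / (1 - c)) ^ 2))
      |>.intervalIntegrable _ _) ((c1.sub c2).intervalIntegrable _ _) fun φ _ => ?_
  exact gain_pt hc hc1 hp hp1 φ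

theorem wint {p c t : ℝ} (hc : 0 ≤ c) (hc1 : c < 1) (hp : 0 ≤ p) (hp1 : p ≤ 1) :
    (2 * Real.cosh (2 * t) + 2 * c) *
        ∫ φ in (-π)..π, wP (2 * Real.cosh (2 * t) + 2 * c) (yb p t φ) ≤
      2 * (max 0 (p - c) / (1 - c)) * Ic c := by
  have hx := x_pos (c := c) (t := t) hc
  have hpi : (-π : ℝ) ≤ π := by linarith [Real.pi_pos]
  have c1 : Continuous fun φ => (2 * Real.cosh (2 * t) + 2 * c) *
      wP (2 * Real.cosh (2 * t) + 2 * c) (yb p t φ) :=
    continuous_const.mul ((wP_cont hx).comp (yb_cont p t))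
  have c2 : Continuous fun φ : ℝ => 2 * (max 0 (p - c) / (1 - c)) *
      max 0 (Real.cos (2 * φ) - c) := continuous_const.mul (mx_cont c)
  unfold Ic
  rw [← intervalIntegral.integral_const_mul, ← intervalIntegral.integral_const_mul]
  refine intervalIntegral.integral_mono_on hpi (c1.intervalIntegrable _ _)
    (c2.intervalIntegrable _ _) fun φ _ => ?_
  exact (x_wP_le hx _).trans (yb_sub_le hc hc1 hp hp1 φ)

theorem wsup {p c t : ℝ} (hc : 0 ≤ c) (hc1 : c < 1) (hp : 0 ≤ p) (hp1 : p ≤ 1) (φ : ℝ) :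
    (2 * Real.cosh (2 * t) + 2 * c) * wP (2 * Real.cosh (2 * t) + 2 * c) (yb p t φ) ≤
      2 * max 0 (p - c) := by
  have hx := x_pos (c := c) (t := t) hc
  have h := lam_bd (p := p) hc1 hp1
  have h1 : 0 < 1 - c := by linarith
  have h2 : max 0 (Real.cos (2 * φ) - c) ≤ 1 - c :=
    max_le h1.le (by linarith [Real.cos_le_one (2 * φ)])
  refine ((x_wP_le hx _).trans (yb_sub_le hc hc1 hp hp1 φ)).trans ?_
  refine (mul_le_mul_of_nonneg_left h2 (by linarith [h.1])).trans ?_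
  rw [mul_assoc, div_mul_cancel₀ _ h1.ne']

end Pool.Agent.H36.SZ
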