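import Pool.Agent.H36.SZ.HiD

/-!
# High levels: inequalities for the kernel `Ph`

`Ph x y` depends only on `Y = max x y`: `Ph x y = Y - x - x log (Y / x)`; as a function of `y` it is
`C^1` and convex, its derivative is `wP x y`, which is `0` for `y <= x`, nondecreasing and
`1/x`-Lipschitz.
PROOF of `Ph_quad` (elementary). `y, u >= x`: with `r = y/u`,
`Ph x y - Ph x u - (1 - x/u)(y - u) = x (r - 1 - log r)`, and `r - 1 - log r <= (r-1)^2/2` for
`r >= 1`, `<= (r-1)^2/(2r)` for `r <= 1`; in both cases `<= (y-u)^2/(2x)` because `x <= y, u`.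
`u < x <= y`: `wP x u = 0 = Ph x u`, `Ph x y <= (y-x)^2/(2x) <= (y-u)^2/(2x)`. `y < x <= u`:
`Ph x y = Ph x x = 0`; by the first case with `y := x`,
`0 <= Ph x u + w (x - u) + (x-u)^2/(2x)`, and `s ↦ w s + s^2/(2x)` at `s = y - u < x - u < 0` is
larger than at `s = x - u`, because `w = (u-x)/u <= (u-x)/x` (difference
`(y - x) (w + (y + x - 2u)/(2x)) >= 0`). `y, u < x`: `0 <= (y-u)^2/(2x)`.
(Or: mean value theorem for `s ↦ Ph x s - w s - (s-u)^2/(2x)`.)
PROOF of `Ph_gain`: `M >= y >= u`, `M >= x`: if `y <= x` both sides vanish. If `u <= x < y`: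
`Ph x y >= (y-x)^2/(2y)` (`log v <= (v - 1/v)/2` for `v = y/x >= 1` gives
`Ph x y >= (y - x) - (y^2 - x^2)/(2y) = (y-x)^2/(2y)`). If `x < u <= y`: the derivative of
`s ↦ Ph x s - (s-x)^2/(2M)` is `(s-x)(1/s - 1/M) >= 0` for `x <= s <= M` (monotone).
PROOF of `Ph_pair`: apply `Ph_quad` to `y = u + o + h` and `y = u - o + h'` and add; the linear
terms in `o` cancel; `w (h + h') <= 2 m max 0 (u-x) / x` by `x_wP_le`;
`(o+h)^2 + (-o+h')^2 <= 2 o^2 + 4 |o| m + 2 m^2`.
-/

open Complex MeasureTheory Set Filter Topology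
open scoped ComplexConjugate Real

namespace Pool.Agent.H36.SZ

theorem Ph_nonneg' {x : ℝ} (hx : 0 < x) (y : ℝ) : 0 ≤ Ph x y := by
  unfold Ph
  have hm := le_max_left x y
  have h1 := Real.log_le_sub_one_of_pos (div_pos (hx.trans_le hm) hx)
  have h2 : x * Real.log (max x y / x) ≤ x * (max x y / x - 1) :=
    mul_le_mul_of_nonneg_left h1 hx.le
  have h3 : x * (max x y / x - 1) = max x y - x := by
    field_simp
  linarith

theorem Ph_zero' {x y : ℝ} (hx : 0 < x) (h : y ≤ x) : Ph x y = 0 := by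
  unfold Ph
  rw [max_eq_left h, sub_self, div_self hx.ne']
  simp

private theorem hip_ge {x y : ℝ} (hx : 0 < x) (h : x ≤ y) :
    Ph x y = y - x - x * (Real.log y - Real.log x) := by
  unfold Ph
  rw [max_eq_right h, Real.log_div (hx.trans_le h).ne' hx.ne']

private theorem hip_log {y u : ℝ} (hu : 0 < u) (h : u ≤ y) :
    Real.log y - Real.log u ≤ (y ^ 2 - u ^ 2) / (2 * u * y) := by
  have hy : 0 < y := hu.trans_le h
  have hv : 1 ≤ y / u := (one_le_div hu).2 h
  have h1 : Real.log (y / u) ≤ Real.sinh (Real.log (y / u)) :=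
    Real.self_le_sinh_iff.2 (Real.log_nonneg hv)
  rw [Real.sinh_log (div_pos hy hu), inv_div, Real.log_div hy.ne' hu.ne'] at h1
  have e : (y / u - u / y) / 2 = (y ^ 2 - u ^ 2) / (2 * u * y) := by
    field_simp
  linarith

private theorem hip_log2 {y u : ℝ} (hu : 0 < u) (h : u ≤ y) :
    (y - u) / u - (y - u) ^ 2 / (2 * u ^ 2) ≤ Real.log y - Real.log u := by
  have hy : 0 < y := hu.trans_le h
  have h0 : 0 ≤ (y - u) / u := div_nonneg (by linarith) hu.le
  have h1 := Real.le_log_one_add_of_nonneg h0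
  have e1 : 1 + (y - u) / u = y / u := by field_simp; ring
  rw [e1, Real.log_div hy.ne' hu.ne'] at h1
  refine le_trans ?_ h1
  set a : ℝ := (y - u) / u with ha
  have e2 : (y - u) ^ 2 / (2 * u ^ 2) = a ^ 2 / 2 := by
    rw [ha]; field_simp
  rw [e2, le_div_iff₀ (by linarith)]
  nlinarith [mul_nonneg h0 (sq_nonneg a)]

private theorem hip_quad {x : ℝ} (hx : 0 < x) {y u : ℝ} (hy : x ≤ y) (hu : x ≤ u) :
    Ph x y ≤ Ph x u + (1 - x / u) * (y - u) + (y - u) ^ 2 / (2 * x) := by
  have y0 : 0 < y := hx.trans_le hy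
  have u0 : 0 < u := hx.trans_le hu
  rw [hip_ge hx hy, hip_ge hx hu]
  have key : x * ((y - u) / u - (Real.log y - Real.log u)) ≤ (y - u) ^ 2 / (2 * x) := by
    rcases le_total u y with h | h
    · have h1 := hip_log2 u0 h
      calc x * ((y - u) / u - (Real.log y - Real.log u)) ≤ x * ((y - u) ^ 2 / (2 * u ^ 2)) :=
            mul_le_mul_of_nonneg_left (by linarith) hx.le
        _ ≤ (y - u) ^ 2 / (2 * x) := by
            rw [le_div_iff₀ (by positivity)]
            have e : x * ((y - u) ^ 2 / (2 * u ^ 2)) * (2 * x) = (y - u) ^ 2 * (x ^ 2 / u ^ 2) := by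
              field_simp
            rw [e]
            have h2 : x ^ 2 / u ^ 2 ≤ 1 := by
              rw [div_le_one (by positivity)]
              exact pow_le_pow_left₀ hx.le hu 2
            nlinarith [sq_nonneg (y - u)]
    · have h1 := hip_log y0 h
      have h2 : (y - u) / u - (Real.log y - Real.log u) ≤ (y - u) ^ 2 / (2 * y * u) := by
        have e : (y - u) / u + (u ^ 2 - y ^ 2) / (2 * y * u) = (y - u) ^ 2 / (2 * y * u) := by
          field_simp; ring
        linarith
      calc x * ((y - u) / u - (Real.log y - Real.log u)) ≤ x * ((y - u) ^ 2 / (2 * y * u)) :=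
            mul_le_mul_of_nonneg_left h2 hx.le
        _ ≤ (y - u) ^ 2 / (2 * x) := by
            rw [le_div_iff₀ (by positivity)]
            have e : x * ((y - u) ^ 2 / (2 * y * u)) * (2 * x) =
                (y - u) ^ 2 * (x * x / (y * u)) := by
              field_simp
            rw [e]
            have h2 : x * x / (y * u) ≤ 1 := by
              rw [div_le_one (by positivity)]
              exact mul_le_mul hy hu hx.le y0.le
            nlinarith [sq_nonneg (y - u)]
  have e3 : (1 - x / u) * (y - u) = (y - u) - x * ((y - u) / u) := by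
    field_simp
  rw [e3]
  linarith

theorem Ph_mono' {x y u : ℝ} (hx : 0 < x) (h : y ≤ u) : Ph x y ≤ Ph x u := by
  rcases le_total y x with h1 | h1
  · rw [Ph_zero' hx h1]
    exact Ph_nonneg' hx u
  · have hu : x ≤ u := h1.trans h
    have y0 : 0 < y := hx.trans_le h1
    have u0 : 0 < u := y0.trans_le h
    rw [hip_ge hx h1, hip_ge hx hu]
    have h2 := Real.log_le_sub_one_of_pos (div_pos u0 y0)
    rw [Real.log_div u0.ne' y0.ne'] at h2
    have h3 : x * (Real.log u - Real.log y) ≤ x * (u / y - 1) :=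
      mul_le_mul_of_nonneg_left h2 hx.le
    have h4 : x * (u / y - 1) ≤ u - y := by
      have e : x * (u / y - 1) = (u - y) * (x / y) := by field_simp
      rw [e]
      have h5 : x / y ≤ 1 := (div_le_one y0).2 h1
      nlinarith
    linarith

theorem Ph_quad {x : ℝ} (hx : 0 < x) (y u : ℝ) :
    Ph x y ≤ Ph x u + wP x u * (y - u) + (y - u) ^ 2 / (2 * x) := by
  rcases le_or_gt x u with hu | hu
  · have u0 : 0 < u := hx.trans_le hu
    have hw : wP x u = 1 - x / u := by unfold wP; rw [max_eq_right hu]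
    rw [hw]
    rcases le_or_gt x y with hy | hy
    · exact hip_quad hx hy hu
    · have h1 := hip_quad hx le_rfl hu
      rw [Ph_zero' hx le_rfl] at h1
      rw [Ph_zero' hx hy.le]
      have h2 : (1 - x / u) ≤ (2 * u - y - x) / (2 * x) := by
        rw [le_div_iff₀ (by positivity)]
        have e : (1 - x / u) * (2 * x) = 2 * (u - x) * (x / u) := by field_simp
        rw [e]
        have h5 : x / u ≤ 1 := (div_le_one u0).2 hu
        nlinarith
      have h3 : 0 ≤ (x - y) * ((2 * u - y - x) / (2 * x) - (1 - x / u)) :=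
        mul_nonneg (by linarith) (by linarith)
      have e4 : (y - u) ^ 2 / (2 * x) = (x - u) ^ 2 / (2 * x) +
          (x - y) * ((2 * u - y - x) / (2 * x)) := by
        field_simp; ring
      rw [e4]
      linarith
  · rw [wP_zero hx hu.le, Ph_zero' hx hu.le, zero_mul, zero_add, zero_add]
    rcases le_or_gt x y with hy | hy
    · have h1 := hip_quad hx hy le_rfl
      rw [Ph_zero' hx le_rfl, div_self hx.ne', sub_self, zero_mul, zero_add, zero_add] at h1
      refine h1.trans (div_le_div_of_nonneg_right ?_ (by positivity))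
      exact pow_le_pow_left₀ (by linarith) (by linarith) 2
    · rw [Ph_zero' hx hy.le]
      positivity

theorem Ph_gain {x y u M : ℝ} (hx : 0 < x) (hu : u ≤ y) (hy : y ≤ M) (hxM : x ≤ M) :
    (max 0 (y - x) ^ 2 - max 0 (u - x) ^ 2) / (2 * M) ≤ Ph x y - Ph x u := by
  have M0 : 0 < M := hx.trans_le hxM
  rcases le_or_gt y x with h | h
  · rw [max_eq_left (by linarith : y - x ≤ 0), max_eq_left (by linarith : u - x ≤ 0),
      Ph_zero' hx h, Ph_zero' hx (hu.trans h)]
    simp
  · have y0 : 0 < y := hx.trans h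
    rw [max_eq_right (by linarith : 0 ≤ y - x)]
    rcases le_or_gt u x with h1 | h1
    · rw [max_eq_left (by linarith : u - x ≤ 0), Ph_zero' hx h1, hip_ge hx h.le]
      have h2 := hip_log hx h.le
      have h3 : x * (Real.log y - Real.log x) ≤ x * ((y ^ 2 - x ^ 2) / (2 * x * y)) :=
        mul_le_mul_of_nonneg_left h2 hx.le
      have e : x * ((y ^ 2 - x ^ 2) / (2 * x * y)) = (y - x) - (y - x) ^ 2 / (2 * y) := by
        field_simp; ring
      have h4 : (y - x) ^ 2 / (2 * M) ≤ (y - x) ^ 2 / (2 * y) :=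
        div_le_div_of_nonneg_left (sq_nonneg _) (by positivity) (by linarith)
      have e2 : ((y - x) ^ 2 - 0 ^ 2) / (2 * M) = (y - x) ^ 2 / (2 * M) := by ring
      rw [e2]
      linarith
    · have u0 : 0 < u := hx.trans h1
      rw [max_eq_right (by linarith : 0 ≤ u - x), hip_ge hx h.le, hip_ge hx h1.le]
      have h2 := hip_log u0 hu
      have h3 : x * (Real.log y - Real.log u) ≤ x * ((y ^ 2 - u ^ 2) / (2 * u * y)) :=
        mul_le_mul_of_nonneg_left h2 hx.le
      have h4 : ((y - x) ^ 2 - (u - x) ^ 2) / (2 * M) ≤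
          ((y - x) ^ 2 - (u - x) ^ 2) / (2 * y) :=
        div_le_div_of_nonneg_left (by nlinarith) (by positivity) (by linarith)
      have h5 : ((y - x) ^ 2 - (u - x) ^ 2) / (2 * y) ≤
          (y - u) - x * ((y ^ 2 - u ^ 2) / (2 * u * y)) := by
        have e : (y - u) - x * ((y ^ 2 - u ^ 2) / (2 * u * y)) -
            ((y - x) ^ 2 - (u - x) ^ 2) / (2 * y) =
            (y - u) * ((y - u) * (u - x)) / (2 * u * y) := by
          field_simp; ring
        have h6 : 0 ≤ (y - u) * ((y - u) * (u - x)) / (2 * u * y) := by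
          apply div_nonneg _ (by positivity)
          exact mul_nonneg (by linarith) (mul_nonneg (by linarith) (by linarith))
        linarith
      linarith

theorem Ph_pair {x : ℝ} (hx : 0 < x) {u o h h' m : ℝ} (h0 : 0 ≤ h) (h1 : h ≤ m) (h2 : 0 ≤ h')
    (h3 : h' ≤ m) :
    Ph x (u + o + h) + Ph x (u - o + h') ≤
      2 * Ph x u + (2 * m * max 0 (u - x) + o ^ 2 + 2 * |o| * m + m ^ 2) / x := by
  have q1 := Ph_quad hx (u + o + h) u
  have q2 := Ph_quad hx (u - o + h') u
  have hw := wP_nonneg hx u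
  have hxw := x_wP_le hx u
  have hm : 0 ≤ m := h0.trans h1
  have hmw : wP x u * (h + h') ≤ 2 * m * max 0 (u - x) / x := by
    rw [le_div_iff₀ hx]
    have a1 : wP x u * (h + h') * x ≤ (2 * m) * (x * wP x u) := by
      have : wP x u * (h + h') ≤ wP x u * (2 * m) := mul_le_mul_of_nonneg_left (by linarith) hw
      nlinarith
    exact a1.trans (mul_le_mul_of_nonneg_left hxw (by linarith))
  have hsq : (o + h) ^ 2 + (-o + h') ^ 2 ≤ 2 * (o ^ 2 + 2 * |o| * m + m ^ 2) := by
    have b1 : o * (h - h') ≤ |o| * m := by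
      have c1 : |h - h'| ≤ m := by rw [abs_le]; constructor <;> linarith
      calc o * (h - h') ≤ |o * (h - h')| := le_abs_self _
        _ = |o| * |h - h'| := abs_mul _ _
        _ ≤ |o| * m := mul_le_mul_of_nonneg_left c1 (abs_nonneg _)
    have b2 : h ^ 2 ≤ m ^ 2 := pow_le_pow_left₀ h0 h1 2
    have b3 : h' ^ 2 ≤ m ^ 2 := pow_le_pow_left₀ h2 h3 2
    have b4 : 0 ≤ |o| * m := mul_nonneg (abs_nonneg _) hm
    nlinarith
  have e1 : (u + o + h - u) ^ 2 / (2 * x) + (u - o + h' - u) ^ 2 / (2 * x) ≤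
      (o ^ 2 + 2 * |o| * m + m ^ 2) / x := by
    have e : (u + o + h - u) ^ 2 / (2 * x) + (u - o + h' - u) ^ 2 / (2 * x) =
        ((o + h) ^ 2 + (-o + h') ^ 2) / (2 * x) := by ring
    rw [e, div_le_div_iff₀ (by positivity) hx]
    nlinarith
  have e2 : wP x u * (u + o + h - u) + wP x u * (u - o + h' - u) = wP x u * (h + h') := by ring
  have e3 : (2 * m * max 0 (u - x) + o ^ 2 + 2 * |o| * m + m ^ 2) / x =
      2 * m * max 0 (u - x) / x + (o ^ 2 + 2 * |o| * m + m ^ 2) / x := by ring
  rw [e3]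
  linarith

end Pool.Agent.H36.SZ
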