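import Pool.Agent.H36.SZ.HiC
import Pool.Agent.H36.SZ.HiA
import Pool.Agent.H36.SZ.HiG

/-!
# High levels: the first order term

`w φ = wP x (yb p t φ)` is even, `π`-periodic, nonnegative, nonincreasing on `[0, π/2]` (`0 <= p`),
and `0` for `|φ| ∈ [π/4, π/2]` (`x >= 2K`: there `yb <= e^(2t) + p^2 Q <= 2K <= x`).
PROOF of `H_T1`. Termwise (`H_sum`, summable norms):
`int w 2 Re (conj Jb H) = sum_(n>=2) 2 Re (b_n int w conj(Jb) z^(-n))`, and on `|z| = r = e^t`
`conj(Jb) z^(-n) = r^(1-n) e^(-i(n+1)φ) + p r^(-1-n) e^(-i(n-1)φ)`; `w` is even, so the integral is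
real, equal to `E_n = r^(1-n) int w cos (n+1)φ + p r^(-1-n) int w cos (n-1)φ`; it is `0` for `n`
even (`w` is `π`-periodic). `n = 3`: `E_3 = Q int w cos 4φ + p Q^2 int w cos 2φ >= 0`
(`cos4_nonneg`; `cos 2φ >= 0` where `w ≠ 0`), `<= (Q + Q^2) int w`, so `2 Re b_3 E_3 <=
6 (1-p) Q (1+Q) int w` (`re3`, `b 1 = p`). `n = 2k+1 >= 5`: `|2 Re b_n E_n| <=
2 n^2 (1-p) Q^k (1+Q) int w` (`ren`), and
`sum_(k>=2) (2k+1)^2 Q^k <= 25 Q^2 + 49 Q^3 / (1 - 5Q/3)`
(`(2k+3)^2 <= (5/3) (2k+1)^2` for `k >= 3`; `Q <= e^(-3) < 3/5`).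
PROOF of `cos4_nonneg`: the integral over `(-π, π)` is `4` times the one over `(0, π/2)`, which is
`int_0^(π/8) (w φ - w (π/4 - φ)) cos 4φ dφ >= 0` (`w = 0` on `[π/4, π/2]`, `w` nonincreasing).
-/

open Complex MeasureTheory Set Filter Topology
open scoped ComplexConjugate Real

namespace Pool.Agent.H36.SZ

variable {F : ℂ → ℂ} {b : ℕ → ℂ} {q : ℝ}

private theorem ht_mono {x : ℝ} (hx : 0 < x) {u v : ℝ} (h : u ≤ v) : wP x u ≤ wP x v := by
  unfold wP
  have h1 : 0 < max x u := lt_of_lt_of_le hx (le_max_left x u)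
  have h2 : max x u ≤ max x v := max_le_max le_rfl h
  have h3 : x / max x v ≤ x / max x u := div_le_div_of_nonneg_left hx.le h1 h2
  linarith

private theorem ht_shift {f : ℝ → ℝ} (hf : ∀ φ, f (φ + 2 * π) = f φ) (d : ℝ) :
    ∫ φ in (-π)..π, f (φ + d) = ∫ φ in (-π)..π, f φ := by
  rw [intervalIntegral.integral_comp_add_right]
  have hper : Function.Periodic f (2 * π) := hf
  have := hper.intervalIntegral_add_eq (-π + d) (-π)
  rw [show -π + d + 2 * π = π + d by ring, show -π + 2 * π = π by ring] at this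
  exact this

private theorem ht_x {c t : ℝ} (hc : 0 ≤ c) : 0 < 2 * Real.cosh (2 * t) + 2 * c := by
  have := Real.cosh_pos (2 * t)
  linarith

/-- `w` vanishes where `cos 2φ <= 0` -/
private theorem ht_W0 {p c t : ℝ} (hc : 0 ≤ c) (hp : 0 ≤ p) (hp1 : p ≤ 1) {v : ℝ} (hv : v ≤ 0) :
    wP (2 * Real.cosh (2 * t) + 2 * c) (Real.exp (2 * t) + p ^ 2 * Qe t + 2 * p * v) = 0 := by
  apply wP_zero (ht_x hc)
  have h1 : p * v ≤ 0 := mul_nonpos_of_nonneg_of_nonpos hp hv
  have h2 : p ^ 2 * Qe t ≤ 1 * Qe t :=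
    mul_le_mul_of_nonneg_right (by nlinarith) (Real.exp_pos _).le
  have h3 : 2 * Real.cosh (2 * t) = Real.exp (2 * t) + Qe t := by
    unfold Qe
    rw [Real.cosh_eq]
    ring
  linarith

theorem cos4_nonneg {p c t : ℝ} (hc : 0 ≤ c) (hp : 0 ≤ p) (hp1 : p ≤ 1) :
    0 ≤ ∫ φ in (-π)..π, wP (2 * Real.cosh (2 * t) + 2 * c) (yb p t φ) * Real.cos (4 * φ) := by
  have hx := ht_x (c := c) (t := t) hc
  set x : ℝ := 2 * Real.cosh (2 * t) + 2 * c with hxdef
  set A : ℝ := Real.exp (2 * t) + p ^ 2 * Qe t with hA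
  set f : ℝ → ℝ := fun φ => wP x (yb p t φ) * Real.cos (4 * φ) with hf
  have hcont : Continuous f :=
    ((wP_cont hx).comp (yb_cont p t)).mul (by fun_prop)
  have hper : ∀ φ, f (φ + 2 * π) = f φ := by
    intro φ
    show wP x (yb p t (φ + 2 * π)) * Real.cos (4 * (φ + 2 * π)) =
      wP x (yb p t φ) * Real.cos (4 * φ)
    have e1 : Real.cos (4 * (φ + 2 * π)) = Real.cos (4 * φ) := by
      rw [show 4 * (φ + 2 * π) = 4 * φ + (4 : ℕ) * (2 * π) by push_cast; ring,
        Real.cos_add_nat_mul_two_pi]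
    have e2 : Real.cos (2 * (φ + 2 * π)) = Real.cos (2 * φ) := by
      rw [show 2 * (φ + 2 * π) = 2 * φ + (2 : ℕ) * (2 * π) by push_cast; ring,
        Real.cos_add_nat_mul_two_pi]
    unfold yb
    rw [e1, e2]
  have hW0 : ∀ v : ℝ, v ≤ 0 → wP x (A + 2 * p * v) = 0 := fun v hv => ht_W0 hc hp hp1 hv
  have c1 : Continuous fun φ => f (φ + π / 4) := hcont.comp (by fun_prop)
  have c2 : Continuous fun φ => f (φ + -(π / 4)) := hcont.comp (by fun_prop)
  have c3 : Continuous fun φ => f (φ + π / 2) := hcont.comp (by fun_prop)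
  have hpi : (-π : ℝ) ≤ π := by linarith [Real.pi_pos]
  have key : 0 ≤ ∫ φ in (-π)..π, (f φ + f (φ + π / 4) + f (φ + -(π / 4)) + f (φ + π / 2)) := by
    refine intervalIntegral.integral_nonneg hpi fun φ _ => ?_
    have e0 : f φ = wP x (A + 2 * p * Real.cos (2 * φ)) * Real.cos (4 * φ) := rfl
    have e1 : f (φ + π / 4) = wP x (A + 2 * p * (-Real.sin (2 * φ))) * (-Real.cos (4 * φ)) := by
      show wP x (yb p t (φ + π / 4)) * Real.cos (4 * (φ + π / 4)) = _
      unfold yb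
      rw [show 2 * (φ + π / 4) = 2 * φ + π / 2 by ring, Real.cos_add_pi_div_two,
        show 4 * (φ + π / 4) = 4 * φ + π by ring, Real.cos_add_pi]
    have e2 : f (φ + -(π / 4)) = wP x (A + 2 * p * Real.sin (2 * φ)) * (-Real.cos (4 * φ)) := by
      show wP x (yb p t (φ + -(π / 4))) * Real.cos (4 * (φ + -(π / 4))) = _
      unfold yb
      rw [show 2 * (φ + -(π / 4)) = 2 * φ - π / 2 by ring, Real.cos_sub_pi_div_two,
        show 4 * (φ + -(π / 4)) = 4 * φ - π by ring, Real.cos_sub_pi]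
    have e3 : f (φ + π / 2) = wP x (A + 2 * p * (-Real.cos (2 * φ))) * Real.cos (4 * φ) := by
      show wP x (yb p t (φ + π / 2)) * Real.cos (4 * (φ + π / 2)) = _
      unfold yb
      rw [show 2 * (φ + π / 2) = 2 * φ + π by ring, Real.cos_add_pi,
        show 4 * (φ + π / 2) = 4 * φ + 2 * π by ring, Real.cos_add_two_pi]
    have e4 : Real.cos (4 * φ) = Real.cos (2 * φ) ^ 2 - Real.sin (2 * φ) ^ 2 := by
      rw [show 4 * φ = 2 * (2 * φ) by ring, Real.cos_two_mul, Real.sin_sq]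
      ring
    have habs : ∀ a : ℝ, wP x (A + 2 * p * a) + wP x (A + 2 * p * (-a)) =
        wP x (A + 2 * p * |a|) := by
      intro a
      rcases le_total 0 a with h | h
      · rw [abs_of_nonneg h, hW0 (-a) (by linarith), add_zero]
      · rw [abs_of_nonpos h, hW0 a h, zero_add]
    have g1 := habs (Real.cos (2 * φ))
    have g2 := habs (Real.sin (2 * φ))
    have e5 : f φ + f (φ + π / 4) + f (φ + -(π / 4)) + f (φ + π / 2) =
        (wP x (A + 2 * p * |Real.cos (2 * φ)|) - wP x (A + 2 * p * |Real.sin (2 * φ)|)) *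
          (Real.cos (2 * φ) ^ 2 - Real.sin (2 * φ) ^ 2) := by
      rw [e0, e1, e2, e3, ← g1, ← g2, ← e4]
      ring
    rw [e5]
    rcases le_total |Real.sin (2 * φ)| |Real.cos (2 * φ)| with h | h
    · refine mul_nonneg (sub_nonneg.2 (ht_mono hx ?_)) (sub_nonneg.2 (sq_le_sq.2 h))
      have := mul_le_mul_of_nonneg_left h (by positivity : 0 ≤ 2 * p)
      linarith
    · refine mul_nonneg_of_nonpos_of_nonpos (sub_nonpos.2 (ht_mono hx ?_))
        (sub_nonpos.2 (sq_le_sq.2 h))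
      have := mul_le_mul_of_nonneg_left h (by positivity : 0 ≤ 2 * p)
      linarith
  have c4 : Continuous fun φ => f φ + f (φ + π / 4) := hcont.add c1
  have c5 : Continuous fun φ => f φ + f (φ + π / 4) + f (φ + -(π / 4)) := c4.add c2
  rw [intervalIntegral.integral_add (c5.intervalIntegrable _ _) (c3.intervalIntegrable _ _),
    intervalIntegral.integral_add (c4.intervalIntegrable _ _) (c2.intervalIntegrable _ _),
    intervalIntegral.integral_add (hcont.intervalIntegrable _ _) (c1.intervalIntegrable _ _),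
    ht_shift hper, ht_shift hper, ht_shift hper] at key
  linarith

/-- the trigonometric factor of the `m`-th term -/
private noncomputable def htC (m p t φ : ℝ) : ℝ :=
  Real.exp ((1 - m) * t) * Real.cos ((m + 1) * φ) +
    p * Real.exp (-((m + 1) * t)) * Real.cos ((m - 1) * φ)

private noncomputable def htS (m p t φ : ℝ) : ℝ :=
  Real.exp ((1 - m) * t) * Real.sin ((m + 1) * φ) +
    p * Real.exp (-((m + 1) * t)) * Real.sin ((m - 1) * φ)

private theorem ht_re (B : ℂ) (x y : ℝ) : (B * exp ((x : ℂ) + y * I)).re =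
    Real.exp x * (B.re * Real.cos y - B.im * Real.sin y) := by
  have h1 : ((x : ℂ) + y * I).re = x := by simp
  have h2 : ((x : ℂ) + y * I).im = y := by simp
  rw [Complex.mul_re, Complex.exp_re, Complex.exp_im, h1, h2]
  ring

private theorem ht_term_pt (B : ℂ) (m p t φ : ℝ) :
    (conj (Jb p t φ) * (B * exp (-((m : ℂ) * (t + φ * I))))).re =
      B.re * htC m p t φ + B.im * htS m p t φ := by
  have e1 : conj (Jb p t φ) = exp ((t : ℂ) + (-φ : ℝ) * I) + p * exp (((-t : ℝ) : ℂ) + φ * I) := by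
    unfold Jb
    rw [map_add, map_mul, ← Complex.exp_conj, ← Complex.exp_conj, Complex.conj_ofReal]
    congr 2
    · simp
    · congr 1
      simp
      ring
  have e2 : conj (Jb p t φ) * (B * exp (-((m : ℂ) * (t + φ * I)))) =
      B * exp ((((1 - m) * t : ℝ) : ℂ) + (-((m + 1) * φ) : ℝ) * I) +
      (p : ℂ) * (B * exp (((-((m + 1) * t) : ℝ) : ℂ) + (-((m - 1) * φ) : ℝ) * I)) := by
    have f1 : exp ((((1 - m) * t : ℝ) : ℂ) + (-((m + 1) * φ) : ℝ) * I) =
        exp ((t : ℂ) + (-φ : ℝ) * I) * exp (-((m : ℂ) * (t + φ * I))) := by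
      rw [← Complex.exp_add]
      congr 1
      push_cast
      ring
    have f2 : exp (((-((m + 1) * t) : ℝ) : ℂ) + (-((m - 1) * φ) : ℝ) * I) =
        exp (((-t : ℝ) : ℂ) + φ * I) * exp (-((m : ℂ) * (t + φ * I))) := by
      rw [← Complex.exp_add]
      congr 1
      push_cast
      ring
    rw [e1, f1, f2]
    ring
  rw [e2, Complex.add_re, Complex.re_ofReal_mul, ht_re, ht_re, Real.cos_neg, Real.sin_neg,
    Real.cos_neg, Real.sin_neg]
  unfold htC htS
  ring

private theorem htC_cont (m p t : ℝ) : Continuous (htC m p t) := by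
  unfold htC
  fun_prop

private theorem htS_cont (m p t : ℝ) : Continuous (htS m p t) := by
  unfold htS
  fun_prop

private theorem ht_term {w : ℝ → ℝ} (hw : Continuous w) (hn : ∀ φ, w (-φ) = w φ) (B : ℂ)
    (m p t : ℝ) :
    ∫ φ in (-π)..π, w φ * (2 * (conj (Jb p t φ) * (B * exp (-((m : ℂ) * (t + φ * I))))).re) =
      2 * B.re * ∫ φ in (-π)..π, w φ * htC m p t φ := by
  have h0 : ∫ φ in (-π)..π, w φ * htS m p t φ = 0 := by
    have h1 : ∫ φ in (-π)..π, w (-φ) * htS m p t (-φ) = ∫ φ in (-π)..π, w φ * htS m p t φ := by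
      have := intervalIntegral.integral_comp_neg (a := -π) (b := π)
        (fun φ => w φ * htS m p t φ)
      rwa [neg_neg] at this
    have h2 : ∀ φ, w (-φ) * htS m p t (-φ) = -(w φ * htS m p t φ) := by
      intro φ
      rw [hn]
      unfold htS
      rw [mul_neg, mul_neg, Real.sin_neg, Real.sin_neg]
      ring
    simp only [h2] at h1
    rw [intervalIntegral.integral_neg] at h1
    linarith
  have h1 : ∀ φ, w φ * (2 * (conj (Jb p t φ) * (B * exp (-((m : ℂ) * (t + φ * I))))).re) =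
      2 * B.re * (w φ * htC m p t φ) + 2 * B.im * (w φ * htS m p t φ) := by
    intro φ
    rw [ht_term_pt]
    ring
  simp only [h1]
  have c1 : Continuous fun φ => 2 * B.re * (w φ * htC m p t φ) :=
    (hw.mul (htC_cont m p t)).const_mul _
  have c2 : Continuous fun φ => 2 * B.im * (w φ * htS m p t φ) :=
    (hw.mul (htS_cont m p t)).const_mul _
  rw [intervalIntegral.integral_add (c1.intervalIntegrable _ _) (c2.intervalIntegrable _ _),
    intervalIntegral.integral_const_mul, intervalIntegral.integral_const_mul, h0]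
  ring

/-- the terms of even index vanish -/
private theorem ht_even {w : ℝ → ℝ} (hpi : ∀ φ, w (φ + π) = w φ) (j : ℕ) (p t : ℝ) :
    ∫ φ in (-π)..π, w φ * htC (((2 * j : ℕ) : ℝ) + 2) p t φ = 0 := by
  set m : ℝ := ((2 * j : ℕ) : ℝ) + 2 with hm
  have hanti : ∀ φ, w (φ + π) * htC m p t (φ + π) = -(w φ * htC m p t φ) := by
    intro φ
    rw [hpi]
    unfold htC
    have e1 : Real.cos ((m + 1) * (φ + π)) = -Real.cos ((m + 1) * φ) := by
      rw [show (m + 1) * (φ + π) = ((m + 1) * φ + π) + ((j + 1 : ℕ) : ℝ) * (2 * π) by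
        rw [hm]; push_cast; ring, Real.cos_add_nat_mul_two_pi, Real.cos_add_pi]
    have e2 : Real.cos ((m - 1) * (φ + π)) = -Real.cos ((m - 1) * φ) := by
      rw [show (m - 1) * (φ + π) = ((m - 1) * φ + π) + (j : ℝ) * (2 * π) by
        rw [hm]; push_cast; ring, Real.cos_add_nat_mul_two_pi, Real.cos_add_pi]
    rw [e1, e2]
    ring
  have hper : ∀ φ, w (φ + 2 * π) * htC m p t (φ + 2 * π) = w φ * htC m p t φ := by
    intro φ
    rw [show φ + 2 * π = (φ + π) + π by ring, hanti, hanti, neg_neg]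
  have h1 := ht_shift (f := fun φ => w φ * htC m p t φ) hper π
  simp only [hanti] at h1
  rw [intervalIntegral.integral_neg] at h1
  linarith

private theorem ht_Q {t : ℝ} (ht : 1 ≤ t) : 0 < Qe t ∧ Qe t ≤ 1 / 5 := by
  refine ⟨Real.exp_pos _, ?_⟩
  have h1 : Qe t ≤ Real.exp (-2) := by
    unfold Qe
    exact Real.exp_le_exp.2 (by linarith)
  have h2 : (5 : ℝ) ≤ Real.exp 2 := by
    have h3 := Real.exp_one_gt_d9
    have h4 : Real.exp 2 = Real.exp 1 ^ 2 := by
      rw [← Real.exp_nat_mul]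
      norm_num
    rw [h4]
    nlinarith
  refine h1.trans ?_
  rw [Real.exp_neg, one_div]
  exact inv_anti₀ (by norm_num) h2

private theorem ht_pow (t : ℝ) (k : ℕ) : Real.exp (-((2 * k) * t)) = Qe t ^ k := by
  unfold Qe
  rw [← Real.exp_nat_mul]
  congr 1
  ring

/-- the terms of odd index -/
private theorem ht_odd {w : ℝ → ℝ} (hw : Continuous w) (hw0 : ∀ φ, 0 ≤ w φ) {p t : ℝ}
    (hp : 0 ≤ p) (hp1 : p ≤ 1) (j : ℕ) :
    |∫ φ in (-π)..π, w φ * htC (((2 * j + 1 : ℕ) : ℝ) + 2) p t φ| ≤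
      Qe t ^ (j + 1) * (1 + Qe t) * ∫ φ in (-π)..π, w φ := by
  set m : ℝ := ((2 * j + 1 : ℕ) : ℝ) + 2 with hm
  have hpi : (-π : ℝ) ≤ π := by linarith [Real.pi_pos]
  have e1 : Real.exp ((1 - m) * t) = Qe t ^ (j + 1) := by
    rw [← ht_pow]
    congr 1
    rw [hm]
    push_cast
    ring
  have e2 : Real.exp (-((m + 1) * t)) = Qe t ^ (j + 2) := by
    rw [← ht_pow]
    congr 1
    rw [hm]
    push_cast
    ring
  have hQ : 0 < Qe t := Real.exp_pos _
  have hpt : ∀ φ, |w φ * htC m p t φ| ≤ Qe t ^ (j + 1) * (1 + Qe t) * w φ := by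
    intro φ
    rw [abs_mul, abs_of_nonneg (hw0 φ), mul_comm]
    refine mul_le_mul_of_nonneg_right ?_ (hw0 φ)
    unfold htC
    rw [e1, e2]
    refine (abs_add_le _ _).trans ?_
    rw [abs_mul, abs_mul, abs_mul, abs_of_pos (by positivity : 0 < Qe t ^ (j + 1)),
      abs_of_nonneg hp, abs_of_pos (by positivity : 0 < Qe t ^ (j + 2))]
    have f1 := Real.abs_cos_le_one ((m + 1) * φ)
    have f2 := Real.abs_cos_le_one ((m - 1) * φ)
    have f3 : Qe t ^ (j + 1) * |Real.cos ((m + 1) * φ)| ≤ Qe t ^ (j + 1) * 1 :=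
      mul_le_mul_of_nonneg_left f1 (by positivity)
    have f4 : p * Qe t ^ (j + 2) * |Real.cos ((m - 1) * φ)| ≤ 1 * Qe t ^ (j + 2) * 1 :=
      mul_le_mul (mul_le_mul_of_nonneg_right hp1 (by positivity)) f2 (abs_nonneg _)
        (by positivity)
    calc _ ≤ Qe t ^ (j + 1) * 1 + 1 * Qe t ^ (j + 2) * 1 := add_le_add f3 f4
      _ = Qe t ^ (j + 1) * (1 + Qe t) := by ring
  rw [← intervalIntegral.integral_const_mul]
  rw [← Real.norm_eq_abs]
  refine intervalIntegral.norm_integral_le_of_norm_le hpi (ae_of_all _ fun φ _ => ?_)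
    ((hw.const_mul _).intervalIntegrable _ _)
  rw [Real.norm_eq_abs]
  exact hpt φ

/-- the numerical series -/
private theorem ht_series {Q : ℝ} (h0 : 0 < Q) (h1 : Q ≤ 1 / 5) (N : ℕ) :
    ∑ j ∈ Finset.range N, (2 * ((j : ℝ) + 2) + 3) ^ 2 * Q ^ (j + 3) ≤
      49 * Q ^ 3 / (1 - 5 / 3 * Q) := by
  have hr : 0 < 1 - 5 / 3 * Q := by linarith
  have hk : ∀ j : ℕ, (2 * ((j : ℝ) + 2) + 3) ^ 2 ≤ 49 * (5 / 3) ^ j := by
    intro j
    induction j with
    | zero => norm_num
    | succ j ih =>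
      have hj : (0 : ℝ) ≤ j := Nat.cast_nonneg j
      have h3 : (2 * (((j + 1 : ℕ) : ℝ) + 2) + 3) ^ 2 ≤ 5 / 3 * (2 * ((j : ℝ) + 2) + 3) ^ 2 := by
        push_cast
        nlinarith
      refine h3.trans ?_
      rw [pow_succ (5 / 3 : ℝ) j]
      linarith
  have h2 : ∑ j ∈ Finset.range N, (2 * ((j : ℝ) + 2) + 3) ^ 2 * Q ^ (j + 3) ≤
      ∑ j ∈ Finset.range N, 49 * Q ^ 3 * (5 / 3 * Q) ^ j := by
    refine Finset.sum_le_sum fun j _ => ?_
    have h4 := mul_le_mul_of_nonneg_right (hk j) (by positivity : 0 ≤ Q ^ (j + 3))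
    refine h4.trans (le_of_eq ?_)
    rw [mul_pow]
    ring
  refine h2.trans ?_
  rw [← Finset.mul_sum, le_div_iff₀ hr, mul_assoc]
  have h5 := geom_sum_mul (5 / 3 * Q) N
  have h6 : 0 ≤ (5 / 3 * Q) ^ N := by positivity
  have h7 : (∑ j ∈ Finset.range N, (5 / 3 * Q) ^ j) * (1 - 5 / 3 * Q) ≤ 1 := by linarith
  have h8 := mul_le_mul_of_nonneg_left h7 (by positivity : 0 ≤ 49 * Q ^ 3)
  linarith


theorem Sg.H_T1 (h : Sg F b q) {p : ℝ} (hp : 0 ≤ p) (hp1 : p ≤ 1) (hb : b 1 = (p : ℂ)) {t c : ℝ}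
    (ht : 1 ≤ t) (hc : 0 ≤ c) :
    ∫ φ in (-π)..π, wP (2 * Real.cosh (2 * t) + 2 * c) (yb p t φ) * (2 * Af F p t φ) ≤
      (1 - p) * Ka t * ∫ φ in (-π)..π, wP (2 * Real.cosh (2 * t) + 2 * c) (yb p t φ) := by
  have ht0 : 0 < t := by linarith
  have hpi : (-π : ℝ) ≤ π := by linarith [Real.pi_pos]
  have h4 := cos4_nonneg (p := p) (c := c) (t := t) hc hp hp1
  have hx := ht_x (c := c) (t := t) hc
  have hW0 : ∀ v : ℝ, v ≤ 0 → wP (2 * Real.cosh (2 * t) + 2 * c)
    (Real.exp (2 * t) + p ^ 2 * Qe t + 2 * p * v) = 0 := fun v hv => ht_W0 hc hp hp1 hv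
  set x : ℝ := 2 * Real.cosh (2 * t) + 2 * c with hxdef
  set w : ℝ → ℝ := fun φ => wP x (yb p t φ) with hw
  have hwc : Continuous w := (wP_cont hx).comp (yb_cont p t)
  have hw0 : ∀ φ, 0 ≤ w φ := fun φ => wP_nonneg hx _
  have hw1 : ∀ φ, w φ ≤ 1 := by
    intro φ
    show 1 - x / max x (yb p t φ) ≤ 1
    have : 0 ≤ x / max x (yb p t φ) := div_nonneg hx.le (hx.le.trans (le_max_left _ _))
    linarith
  have hwn : ∀ φ, w (-φ) = w φ := by
    intro φ
    show wP x (yb p t (-φ)) = wP x (yb p t φ)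
    unfold yb
    rw [mul_neg, Real.cos_neg]
  have hwp : ∀ φ, w (φ + π) = w φ := by
    intro φ
    show wP x (yb p t (φ + π)) = wP x (yb p t φ)
    unfold yb
    rw [mul_add, Real.cos_add_two_pi]
  obtain ⟨hQ0, hQ1⟩ := ht_Q ht
  set W : ℝ := ∫ φ in (-π)..π, w φ with hWdef
  have hWn : 0 ≤ W := intervalIntegral.integral_nonneg hpi fun φ _ => hw0 φ
  have h1p : 0 ≤ 1 - p := by linarith
  -- the terms
  set T : ℕ → ℝ := fun n => ∫ φ in (-π)..π, w φ *
    (2 * (conj (Jb p t φ) * (b (n + 2) * exp (-(((n : ℂ) + 2) * (t + φ * I))))).re) with hT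
  have hTeq : ∀ n, T n = 2 * (b (n + 2)).re *
      ∫ φ in (-π)..π, w φ * htC ((n : ℝ) + 2) p t φ := by
    intro n
    have := ht_term hwc hwn (b (n + 2)) ((n : ℝ) + 2) p t
    push_cast at this
    exact this
  have hsum : HasSum T (∫ φ in (-π)..π, w φ * (2 * Af F p t φ)) := by
    have hJm0 : 0 ≤ Jm t := (norm_nonneg _).trans (Jb_le hp hp1 t 0)
    have hsb : Summable fun n : ℕ => 2 * Jm t * ‖b (n + 2)‖ :=
      ((summable_nat_add_iff 2).2 h.sumb).mul_left _
    refine intervalIntegral.hasSum_integral_of_dominated_convergence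
      (fun n _ => 2 * Jm t * ‖b (n + 2)‖) (fun n => ?_) (fun n => ?_) ?_ ?_ ?_
    · refine Continuous.aestronglyMeasurable ?_
      refine hwc.mul (continuous_const.mul (Complex.continuous_re.comp ?_))
      exact (Complex.continuous_conj.comp (Jb_cont p t)).mul (by fun_prop)
    · refine ae_of_all _ fun φ _ => ?_
      rw [norm_mul, Real.norm_eq_abs, Real.norm_eq_abs, abs_of_nonneg (hw0 φ), abs_mul,
        abs_of_pos (by norm_num : (0 : ℝ) < 2)]
      have f1 : |(conj (Jb p t φ) * (b (n + 2) * exp (-(((n : ℂ) + 2) * (t + φ * I))))).re| ≤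
          Jm t * ‖b (n + 2)‖ := by
        refine (Complex.abs_re_le_norm _).trans ?_
        rw [norm_mul, norm_mul, RCLike.norm_conj, Complex.norm_exp]
        have f2 : Real.exp (-(((n : ℂ) + 2) * (t + φ * I))).re ≤ 1 := by
          rw [Real.exp_le_one_iff]
          have : (-(((n : ℂ) + 2) * (t + φ * I))).re = -(((n : ℝ) + 2) * t) := by
            simp
          rw [this]
          have hn : (0 : ℝ) ≤ n := Nat.cast_nonneg n
          have : 0 ≤ ((n : ℝ) + 2) * t := by positivity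
          linarith
        have f3 := Jb_le hp hp1 t φ
        calc _ ≤ Jm t * (‖b (n + 2)‖ * 1) := by
              refine mul_le_mul f3 (mul_le_mul_of_nonneg_left f2 (norm_nonneg _)) (by positivity)
                hJm0
          _ = _ := by ring
      have f4 : w φ * (2 * |(conj (Jb p t φ) *
          (b (n + 2) * exp (-(((n : ℂ) + 2) * (t + φ * I))))).re|) ≤
          1 * (2 * (Jm t * ‖b (n + 2)‖)) :=
        mul_le_mul (hw1 φ) (mul_le_mul_of_nonneg_left f1 (by norm_num)) (by positivity)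
          (by norm_num)
      linarith
    · exact ae_of_all _ fun φ _ => hsb
    · exact intervalIntegrable_const
    · refine ae_of_all _ fun φ _ => ?_
      have g1 := (h.H_sum hb ht0 φ).mul_left (conj (Jb p t φ))
      have g2 := (Complex.hasSum_re g1).mul_left 2
      exact g2.mul_left (w φ)
  -- bounds of the terms
  have hT0 : ∀ j : ℕ, T (2 * j) = 0 := by
    intro j
    rw [hTeq, ht_even hwp j p t, mul_zero]
  have hT1 : T 1 ≤ (1 - p) * (6 * Qe t * (1 + Qe t)) * W := by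
    rw [hTeq]
    have g1 := ht_odd hwc hw0 hp hp1 (t := t) 0
    have g0 : (((2 * 0 + 1 : ℕ) : ℝ) + 2) = (((1 : ℕ) : ℝ) + 2) := by norm_num
    rw [g0] at g1
    have g2 := h.re3
    rw [hb, Complex.ofReal_re] at g2
    have c1 : Continuous fun φ => w φ * Real.cos (4 * φ) := hwc.mul (by fun_prop)
    have c2 : Continuous fun φ => w φ * Real.cos (2 * φ) := hwc.mul (by fun_prop)
    have c3 : Continuous fun φ => Qe t * (w φ * Real.cos (4 * φ)) := c1.const_mul _
    have c4 : Continuous fun φ => p * Qe t ^ 2 * (w φ * Real.cos (2 * φ)) := c2.const_mul _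
    have g3 : ∫ φ in (-π)..π, w φ * htC (((1 : ℕ) : ℝ) + 2) p t φ =
        Qe t * (∫ φ in (-π)..π, w φ * Real.cos (4 * φ)) +
          p * Qe t ^ 2 * ∫ φ in (-π)..π, w φ * Real.cos (2 * φ) := by
      rw [← intervalIntegral.integral_const_mul, ← intervalIntegral.integral_const_mul,
        ← intervalIntegral.integral_add (c3.intervalIntegrable _ _) (c4.intervalIntegrable _ _)]
      refine intervalIntegral.integral_congr fun φ _ => ?_
      have e1 : Real.exp ((1 - (((1 : ℕ) : ℝ) + 2)) * t) = Qe t := by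
        have := ht_pow t 1
        rw [pow_one] at this
        rw [← this]
        congr 1
        push_cast
        ring
      have e2 : Real.exp (-(((((1 : ℕ) : ℝ) + 2) + 1) * t)) = Qe t ^ 2 := by
        rw [← ht_pow]
        congr 1
        push_cast
        ring
      show w φ * htC (((1 : ℕ) : ℝ) + 2) p t φ =
        Qe t * (w φ * Real.cos (4 * φ)) + p * Qe t ^ 2 * (w φ * Real.cos (2 * φ))
      unfold htC
      rw [e1, e2, show ((((1 : ℕ) : ℝ) + 2) + 1) * φ = 4 * φ by push_cast; ring,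
        show ((((1 : ℕ) : ℝ) + 2) - 1) * φ = 2 * φ by push_cast; ring]
      ring
    have g4 : 0 ≤ ∫ φ in (-π)..π, w φ * Real.cos (2 * φ) := by
      refine intervalIntegral.integral_nonneg hpi fun φ _ => ?_
      rcases le_total 0 (Real.cos (2 * φ)) with hcs | hcs
      · exact mul_nonneg (hw0 φ) hcs
      · have : w φ = 0 := hW0 _ hcs
        rw [this, zero_mul]
    have g5 : 0 ≤ ∫ φ in (-π)..π, w φ * htC (((1 : ℕ) : ℝ) + 2) p t φ := by
      rw [g3]
      have : 0 ≤ Qe t ^ 2 := by positivity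
      have g6 := mul_nonneg (mul_nonneg hp this) g4
      have g7 := mul_nonneg hQ0.le h4
      linarith
    have g8 := (le_abs_self _).trans g1
    have g9 := mul_le_mul_of_nonneg_right g2 g5
    have g10 : 3 * (1 - p) * ∫ φ in (-π)..π, w φ * htC (((1 : ℕ) : ℝ) + 2) p t φ ≤
        3 * (1 - p) * (Qe t ^ (0 + 1) * (1 + Qe t) * W) :=
      mul_le_mul_of_nonneg_left g8 (by linarith)
    calc _ = 2 * ((b 3).re * ∫ φ in (-π)..π, w φ * htC (((1 : ℕ) : ℝ) + 2) p t φ) := by
          rw [mul_assoc]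
      _ ≤ 2 * (3 * (1 - p) * (Qe t ^ (0 + 1) * (1 + Qe t) * W)) :=
          mul_le_mul_of_nonneg_left (g9.trans g10) (by norm_num)
      _ = _ := by ring
  have hT2 : ∀ j : ℕ, T (2 * j + 1) ≤
      (1 - p) * (2 * (2 * (j : ℝ) + 3) ^ 2 * Qe t ^ (j + 1) * (1 + Qe t)) * W := by
    intro j
    rw [hTeq]
    have g1 := ht_odd hwc hw0 hp hp1 (t := t) j
    have g2 := h.ren (n := 2 * j + 1 + 2) (by omega)
    rw [hb, Complex.ofReal_re] at g2
    have g3 : ((2 * j + 1 + 2 : ℕ) : ℝ) = 2 * (j : ℝ) + 3 := by push_cast; ring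
    rw [g3] at g2
    have g4 := mul_le_mul g2 g1 (abs_nonneg _) ((abs_nonneg _).trans g2)
    rw [← abs_mul] at g4
    have g5 := (le_abs_self _).trans g4
    calc _ = 2 * ((b (2 * j + 1 + 2)).re * ∫ φ in (-π)..π,
          w φ * htC (((2 * j + 1 : ℕ) : ℝ) + 2) p t φ) := by ring
      _ ≤ 2 * ((2 * (j : ℝ) + 3) ^ 2 * (1 - p) * (Qe t ^ (j + 1) * (1 + Qe t) * W)) :=
          mul_le_mul_of_nonneg_left g5 (by norm_num)
      _ = _ := by ring
  -- partial sums
  have hpart : ∀ N : ℕ, ∑ n ∈ Finset.range (2 * N), T n = ∑ j ∈ Finset.range N, T (2 * j + 1) := by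
    intro N
    induction N with
    | zero => simp
    | succ N ih =>
      rw [show 2 * (N + 1) = 2 * N + 1 + 1 by ring, Finset.sum_range_succ, Finset.sum_range_succ,
        Finset.sum_range_succ, ih, hT0]
      ring
  have hbd : ∀ N : ℕ, ∑ n ∈ Finset.range (2 * (N + 2)), T n ≤ (1 - p) * Ka t * W := by
    intro N
    rw [hpart, Finset.sum_range_succ', Finset.sum_range_succ']
    have k1 : ∑ j ∈ Finset.range N, T (2 * (j + 1 + 1) + 1) ≤
        (1 - p) * (2 * (1 + Qe t)) * W * (49 * Qe t ^ 3 / (1 - 5 / 3 * Qe t)) := by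
      have k2 := ht_series hQ0 hQ1 N
      have k3 : ∑ j ∈ Finset.range N, T (2 * (j + 1 + 1) + 1) ≤ ∑ j ∈ Finset.range N,
          (1 - p) * (2 * (1 + Qe t)) * W * ((2 * ((j : ℝ) + 2) + 3) ^ 2 * Qe t ^ (j + 3)) := by
        refine Finset.sum_le_sum fun j _ => (hT2 (j + 1 + 1)).trans (le_of_eq ?_)
        push_cast
        ring
      refine k3.trans ?_
      rw [← Finset.mul_sum]
      exact mul_le_mul_of_nonneg_left k2 (by positivity)
    have k4 := hT2 1
    have k5 : T (2 * (0 + 1) + 1) ≤ (1 - p) * (2 * 25 * Qe t ^ 2 * (1 + Qe t)) * W := by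
      refine k4.trans (le_of_eq ?_)
      push_cast
      ring
    have k6 : T (2 * 0 + 1) ≤ (1 - p) * (6 * Qe t * (1 + Qe t)) * W := hT1
    calc _ ≤ (1 - p) * (2 * (1 + Qe t)) * W * (49 * Qe t ^ 3 / (1 - 5 / 3 * Qe t)) +
          (1 - p) * (2 * 25 * Qe t ^ 2 * (1 + Qe t)) * W +
          (1 - p) * (6 * Qe t * (1 + Qe t)) * W := add_le_add (add_le_add k1 k5) k6
      _ = _ := by
          unfold Ka
          ring
  have hlim : Tendsto (fun N : ℕ => ∑ n ∈ Finset.range (2 * (N + 2)), T n) atTop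
      (𝓝 (∫ φ in (-π)..π, w φ * (2 * Af F p t φ))) := by
    have := hsum.tendsto_sum_nat
    exact this.comp (tendsto_atTop_mono (fun N => by omega : ∀ N : ℕ, N ≤ 2 * (N + 2)) tendsto_id)
  exact le_of_tendsto hlim (Eventually.of_forall hbd)

end Pool.Agent.H36.SZ
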