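import Pool.Agent.H36.SZ.LpL

/-!
# The integrated first order kernel: definitions

`K = cosh 2t`, `Sh = sinh 2t`. Dip variable `s = φ - π/2`, `yy J = 2 Dg t s`.
`Dg t s = K - cos 2s`, `Bg t s` the continuous branch of `arctan (coth t * tan s)`,
`Bg' = Sh / Dg`.
`Kk t s X` the sum of the two kernels `Re (conj J G1J / (J ∓ 2 cos β)^2)`, `X = cos 2β`.
`Pk t x b s` the primitive of `-2 (x / (2 Dg) - 1) Kk`, `X = - cos 2b` (`cos β = sin b`).
`Nn t γ` the value of the extremal functional, `Iw2 t γ` the integral of the weight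
`max 0 (x / |J|^2 - 1)`, `x = 2 Dg t γ`.
-/

open Complex MeasureTheory Set Filter Topology
open scoped ComplexConjugate Real

namespace Pool.Agent.H36.SZ

noncomputable def Dg (t s : ℝ) : ℝ := Real.cosh (2 * t) - Real.cos (2 * s)

noncomputable def Bg (t s : ℝ) : ℝ :=
  s + Real.arctan (Qe t * Real.sin (2 * s) / (1 - Qe t * Real.cos (2 * s)))

noncomputable def Nn (t γ : ℝ) : ℝ :=
  2 * Real.cosh (2 * t) * Bg t γ - 2 * γ * Real.sinh (2 * t) -
    Real.sinh (2 * t) * Real.sin (2 * γ) / Dg t γ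

noncomputable def Iw2 (t γ : ℝ) : ℝ := 4 * Dg t γ * Bg t γ / Real.sinh (2 * t) - 4 * γ

noncomputable def Kk (t s X : ℝ) : ℝ :=
  2 * (Real.sinh (2 * t) * (2 + X - Real.cosh (2 * t) * Real.cos (2 * s) - Real.sin (2 * s) ^ 2) *
        ((Real.cosh (2 * t) * Real.cos (2 * s) + X) ^ 2 -
          (Real.sinh (2 * t) * Real.sin (2 * s)) ^ 2) -
      Real.sin (2 * s) *
        (2 + X - Real.cosh (2 * t) * Real.cos (2 * s) + Real.sinh (2 * t) ^ 2) *
        (2 * (Real.cosh (2 * t) * Real.cos (2 * s) + X) *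
          (Real.sinh (2 * t) * Real.sin (2 * s)))) /
    ((Real.cosh (2 * t) * Real.cos (2 * s) + X) ^ 2 +
      (Real.sinh (2 * t) * Real.sin (2 * s)) ^ 2) ^ 2

noncomputable def Pk (t x b s : ℝ) : ℝ :=
  2 * (x - 2 * Dg t s) * Real.sinh (2 * t) * Real.sin (2 * s) / (Dg t (s + b) * Dg t (s - b)) +
    2 * Real.cosh (2 * t) * (Bg t (s + b) + Bg t (s - b)) - 4 * s * Real.sinh (2 * t) -
    x / (2 * Real.sin b ^ 2) * (2 * Bg t s - Bg t (s + b) - Bg t (s - b)) +
    Real.sinh (2 * t) * Real.tan b * Real.log (Dg t (s + b) / Dg t (s - b))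

theorem Dg_pos {t : ℝ} (ht : 0 < t) (s : ℝ) : 0 < Dg t s := by
  have h1 : 1 < Real.cosh (2 * t) := Real.one_lt_cosh.2 (by positivity)
  have h2 := Real.cos_le_one (2 * s)
  unfold Dg
  linarith

theorem yy_J_Dg (t s : ℝ) : yy J t (π / 2 + s) = 2 * Dg t s := by
  rw [yy_J', Dg, show 2 * (π / 2 + s) = 2 * s + π by ring, Real.cos_add_pi]
  ring

end Pool.Agent.H36.SZ
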