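import Pool.Agent.H36.SZ.IkD

/-!
# The kernel sum in closed form

PROOF of `ker_sum`: the first part of the proof of `kpos2` (`LpK.lean`): `w_eq`, `J2_eq`,
`re_quot` (private lemmas there, to be copied), with `c = - cos 2φ = cos 2s`, `sin 2φ = - sin 2s`,
`s = φ - π/2`.
-/

open Complex MeasureTheory Set Filter Topology
open scoped ComplexConjugate Real

namespace Pool.Agent.H36.SZ

private theorem ikk_ne {t : ℝ} (ht : 0 < t) (φ β : ℝ) : G J t φ + 2 * Real.cos β ≠ 0 := by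
  have h := GJ_ne ht φ (π - β)
  rw [Real.cos_pi_sub] at h
  push_cast at h ⊢
  intro h1
  apply h
  linear_combination h1

private theorem ikk_w (t φ : ℝ) : conj (G J t φ) * G1 J t φ =
    ((2 * Real.sinh (2 * t) : ℝ) : ℂ) + ((2 * Real.sin (2 * φ) : ℝ) : ℂ) * I := by
  rw [G_J, G1_J]
  apply Complex.ext
  · simp [-Complex.ofReal_cosh, -Complex.ofReal_sinh, -Complex.ofReal_cos, -Complex.ofReal_sin,
      Real.sinh_two_mul]
    have h1 := Real.sin_sq_add_cos_sq φ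
    linear_combination (4 * Real.sinh t * Real.cosh t) * h1
  · simp [-Complex.ofReal_cosh, -Complex.ofReal_sinh, -Complex.ofReal_cos, -Complex.ofReal_sin,
      Real.sin_two_mul]
    have h1 := Real.cosh_sq t
    linear_combination (4 * Real.sin φ * Real.cos φ) * h1

private theorem ikk_J2 (t φ : ℝ) : G J t φ ^ 2 =
    ((2 + 2 * Real.cosh (2 * t) * Real.cos (2 * φ) : ℝ) : ℂ) +
      ((2 * Real.sinh (2 * t) * Real.sin (2 * φ) : ℝ) : ℂ) * I := by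
  rw [G_J]
  apply Complex.ext
  · simp [-Complex.ofReal_cosh, -Complex.ofReal_sinh, -Complex.ofReal_cos, -Complex.ofReal_sin,
      pow_two, Real.cosh_two_mul, Real.cos_two_mul]
    have h1 := Real.sin_sq_add_cos_sq φ
    have h2 := Real.cosh_sq t
    have h3 : Real.sin φ ^ 2 = 1 - Real.cos φ ^ 2 := by linarith
    have h4 : Real.cosh t ^ 2 = Real.sinh t ^ 2 + 1 := h2
    nlinarith [h3, h4]
  · simp [-Complex.ofReal_cosh, -Complex.ofReal_sinh, -Complex.ofReal_cos, -Complex.ofReal_sin,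
      pow_two, Real.sinh_two_mul, Real.sin_two_mul]
    ring

private theorem ikk_re (Sh s2 K c X : ℝ) :
    ((((2 * Sh : ℝ) : ℂ) + ((2 * s2 : ℝ) : ℂ) * I) *
      (((4 * (2 + X - K * c) : ℝ) : ℂ) + ((4 * (Sh * s2) : ℝ) : ℂ) * I) /
      (((-2 * (K * c + X) : ℝ) : ℂ) + ((2 * (Sh * s2) : ℝ) : ℂ) * I) ^ 2).re =
    2 * (Sh * (2 + X - K * c - s2 ^ 2) * ((K * c + X) ^ 2 - (Sh * s2) ^ 2) -
      s2 * (2 + X - K * c + Sh ^ 2) * (2 * (K * c + X) * (Sh * s2))) /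
      ((K * c + X) ^ 2 + (Sh * s2) ^ 2) ^ 2 := by
  have e1 : (((2 * Sh : ℝ) : ℂ) + ((2 * s2 : ℝ) : ℂ) * I) *
      (((4 * (2 + X - K * c) : ℝ) : ℂ) + ((4 * (Sh * s2) : ℝ) : ℂ) * I) =
      ((8 * (Sh * (2 + X - K * c) - s2 * (Sh * s2)) : ℝ) : ℂ) +
      ((8 * (s2 * (2 + X - K * c) + Sh * (Sh * s2)) : ℝ) : ℂ) * I := by
    apply Complex.ext
    · simp; ring
    · simp; ring
  have e2 : (((-2 * (K * c + X) : ℝ) : ℂ) + ((2 * (Sh * s2) : ℝ) : ℂ) * I) ^ 2 =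
      ((4 * ((K * c + X) ^ 2 - (Sh * s2) ^ 2) : ℝ) : ℂ) +
      ((-8 * ((K * c + X) * (Sh * s2)) : ℝ) : ℂ) * I := by
    push_cast
    linear_combination (4 * ((Sh : ℂ) * s2) ^ 2) * Complex.I_sq
  rw [e1, e2, Complex.div_re]
  have e3 : Complex.normSq (((4 * ((K * c + X) ^ 2 - (Sh * s2) ^ 2) : ℝ) : ℂ) +
      ((-8 * ((K * c + X) * (Sh * s2)) : ℝ) : ℂ) * I) =
      16 * ((K * c + X) ^ 2 + (Sh * s2) ^ 2) ^ 2 := by
    rw [Complex.normSq_add_mul_I]; ring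
  rw [e3]
  have r1 : ∀ x y : ℝ, ((x : ℂ) + (y : ℂ) * I).re = x := by intro x y; simp
  have r2 : ∀ x y : ℝ, ((x : ℂ) + (y : ℂ) * I).im = y := by intro x y; simp
  rw [r1, r1, r2, r2]
  field_simp
  ring

theorem ker_sum {t : ℝ} (ht : 0 < t) (s β : ℝ) :
    (conj (G J t (π / 2 + s)) * G1 J t (π / 2 + s) /
        (G J t (π / 2 + s) - 2 * Real.cos β) ^ 2).re +
      (conj (G J t (π / 2 + s)) * G1 J t (π / 2 + s) /
        (G J t (π / 2 + s) + 2 * Real.cos β) ^ 2).re = Kk t s (Real.cos (2 * β)) := by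
  have hs2 : Real.sin (2 * (π / 2 + s)) = -Real.sin (2 * s) := by
    rw [show 2 * (π / 2 + s) = 2 * s + π by ring, Real.sin_add_pi]
  have hc2 : Real.cos (2 * (π / 2 + s)) = -Real.cos (2 * s) := by
    rw [show 2 * (π / 2 + s) = 2 * s + π by ring, Real.cos_add_pi]
  generalize hφ : π / 2 + s = φ at hs2 hc2
  have hd1 := GJ_ne ht φ β
  have hd2 := ikk_ne ht φ β
  have hsum : conj (G J t φ) * G1 J t φ / (G J t φ - 2 * Real.cos β) ^ 2 +
      conj (G J t φ) * G1 J t φ / (G J t φ + 2 * Real.cos β) ^ 2 =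
      (conj (G J t φ) * G1 J t φ) * (2 * (G J t φ ^ 2 + (2 * Real.cos β) ^ 2)) /
        (G J t φ ^ 2 - (2 * Real.cos β) ^ 2) ^ 2 := by
    have h3 : (G J t φ ^ 2 - (2 * (Real.cos β : ℂ)) ^ 2) =
        (G J t φ - 2 * Real.cos β) * (G J t φ + 2 * Real.cos β) := by ring
    rw [h3]
    field_simp
    ring
  rw [← Complex.add_re, hsum]
  have hw := ikk_w t φ
  have h1 := ikk_J2 t φ
  rw [hs2] at hw
  rw [hs2, hc2] at h1
  have hXe : Real.cos (2 * β) = 2 * Real.cos β ^ 2 - 1 := Real.cos_two_mul β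
  unfold Kk
  generalize Real.cos (2 * β) = X at hXe ⊢
  generalize Real.sinh (2 * t) = Sh at hw h1 ⊢
  generalize Real.cosh (2 * t) = K at h1 ⊢
  generalize Real.sin (2 * s) = s2 at hw h1 ⊢
  generalize Real.cos (2 * s) = c at h1 ⊢
  have hM : G J t φ ^ 2 - (2 * (Real.cos β : ℂ)) ^ 2 =
      ((-2 * (K * c + X) : ℝ) : ℂ) + ((2 * (Sh * -s2) : ℝ) : ℂ) * I := by
    rw [h1, hXe]
    push_cast
    ring
  have hN : 2 * (G J t φ ^ 2 + (2 * (Real.cos β : ℂ)) ^ 2) =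
      ((4 * (2 + X - K * c) : ℝ) : ℂ) + ((4 * (Sh * -s2) : ℝ) : ℂ) * I := by
    rw [h1, hXe]
    push_cast
    ring
  rw [hw, hN, hM, ikk_re Sh (-s2) K c X]
  congr 1
  · ring
  · ring

end Pool.Agent.H36.SZ
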