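import Pool.Agent.H36.SZ.IkP

/-!
# The integrated kernel is extremal at `β = π/2`

PROOF of `Pk_le`.
`D = Dg t γ`, `D± = Dg t (γ ± b)`, `x = 2D`, `δ = 2 Bg γ - Bg (γ+b) - Bg (γ-b)`. The claim is
`δ (2K + D / sin^2 b) - Sh tan b log (D+/D-) >= 2 Sh sin 2γ / D`.
(1) `δ >= 2 Sh sin 2γ sin^2 b / (D sqrt (D+ D-))` (`delta_ge`): both sides vanish at `b = 0`, and
the derivative of the difference is `4 Sh sin 2γ sin b cos b (D g - ((a-e)(a-1) + c^2)) / (D g^3)`,
`g^2 = (a - e)^2 + c^2`, `a = K cos 2γ`, `c = Sh sin 2γ`, `e = cos 2b`, `D^2 = (a-1)^2 + c^2`.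
(2) `log (D+/D-) <= (D+ - D-)/sqrt (D+ D-)` (`sinh y >= y`), and `tan b * sin 2b = 2 sin^2 b`.
(3) `sqrt (D+ D-) <= (D+ + D-)/2 = K - cos 2γ cos 2b`.
-/

open Complex MeasureTheory Set Filter Topology
open scoped ComplexConjugate Real

namespace Pool.Agent.H36.SZ

theorem IkQ_sub (t γ b : ℝ) :
    Dg t (γ + b) - Dg t (γ - b) = 2 * Real.sin (2 * γ) * Real.sin (2 * b) := by
  unfold Dg
  rw [show 2 * (γ + b) = 2 * γ + 2 * b by ring, show 2 * (γ - b) = 2 * γ - 2 * b by ring,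
    Real.cos_add, Real.cos_sub]
  ring

theorem IkQ_add (t γ b : ℝ) :
    Dg t (γ + b) + Dg t (γ - b) =
      2 * (Real.cosh (2 * t) - Real.cos (2 * γ) * Real.cos (2 * b)) := by
  unfold Dg
  rw [show 2 * (γ + b) = 2 * γ + 2 * b by ring, show 2 * (γ - b) = 2 * γ - 2 * b by ring,
    Real.cos_add, Real.cos_sub]
  ring

theorem IkQ_sq (t γ : ℝ) : Dg t γ ^ 2 =
    (Real.cosh (2 * t) * Real.cos (2 * γ) - 1) ^ 2 +
      (Real.sinh (2 * t) * Real.sin (2 * γ)) ^ 2 := by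
  have h := Dg_mul t γ 0
  rw [add_zero, sub_zero, mul_zero, Real.cos_zero] at h
  rw [sq]
  exact h

theorem IkQ_deriv {t γ : ℝ} (ht : 0 < t) (b : ℝ) :
    HasDerivAt (fun b => 2 * Bg t γ - Bg t (γ + b) - Bg t (γ - b) -
      2 * Real.sinh (2 * t) * Real.sin (2 * γ) * Real.sin b ^ 2 /
        (Dg t γ * Real.sqrt ((Real.cosh (2 * t) * Real.cos (2 * γ) - Real.cos (2 * b)) ^ 2 +
          (Real.sinh (2 * t) * Real.sin (2 * γ)) ^ 2)))
      (4 * Real.sinh (2 * t) * Real.sin (2 * γ) * Real.sin b * Real.cos b /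
        (Dg t γ * Real.sqrt ((Real.cosh (2 * t) * Real.cos (2 * γ) - Real.cos (2 * b)) ^ 2 +
          (Real.sinh (2 * t) * Real.sin (2 * γ)) ^ 2) ^ 3) *
        (Dg t γ * Real.sqrt ((Real.cosh (2 * t) * Real.cos (2 * γ) - Real.cos (2 * b)) ^ 2 +
          (Real.sinh (2 * t) * Real.sin (2 * γ)) ^ 2) -
          ((Real.cosh (2 * t) * Real.cos (2 * γ) - Real.cos (2 * b)) *
            (Real.cosh (2 * t) * Real.cos (2 * γ) - 1) +
            (Real.sinh (2 * t) * Real.sin (2 * γ)) ^ 2))) b := by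
  have hD := Dg_pos ht γ
  have hDp := Dg_pos ht (γ + b)
  have hDm := Dg_pos ht (γ - b)
  have hP := Dg_mul t γ b
  have hsub := IkQ_sub t γ b
  set a := Real.cosh (2 * t) * Real.cos (2 * γ) with ha
  set c := Real.sinh (2 * t) * Real.sin (2 * γ) with hc
  set D := Dg t γ with hDdef
  have hGpos : 0 < (a - Real.cos (2 * b)) ^ 2 + c ^ 2 := by
    rw [← hP]
    exact mul_pos hDp hDm
  set g := Real.sqrt ((a - Real.cos (2 * b)) ^ 2 + c ^ 2) with hg
  have hgpos : 0 < g := Real.sqrt_pos.2 hGpos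
  have hg2 : g ^ 2 = (a - Real.cos (2 * b)) ^ 2 + c ^ 2 := Real.sq_sqrt hGpos.le
  -- derivatives of the parts
  have h1 : HasDerivAt (fun b => Bg t (γ + b)) (Real.sinh (2 * t) / Dg t (γ + b) * 1) b :=
    (Bg_deriv ht (γ + b)).comp b ((hasDerivAt_id b).const_add γ)
  have h2 : HasDerivAt (fun b => Bg t (γ - b)) (Real.sinh (2 * t) / Dg t (γ - b) * (-1)) b :=
    (Bg_deriv ht (γ - b)).comp b ((hasDerivAt_id b).const_sub γ)
  have h3 : HasDerivAt (fun b : ℝ => 2 * b) 2 b := by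
    simpa using (hasDerivAt_id b).const_mul 2
  have h4 : HasDerivAt (fun b => Real.cos (2 * b)) (-Real.sin (2 * b) * 2) b :=
    (Real.hasDerivAt_cos (2 * b)).comp b h3
  have h5 : HasDerivAt (fun b => (a - Real.cos (2 * b)) ^ 2 + c ^ 2)
      (2 * (a - Real.cos (2 * b)) * (Real.sin (2 * b) * 2)) b := by
    have := ((h4.const_sub a).pow 2).add_const (c ^ 2)
    refine this.congr_deriv ?_
    norm_num
  have h6 : HasDerivAt (fun b => Real.sqrt ((a - Real.cos (2 * b)) ^ 2 + c ^ 2))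
      (2 * (a - Real.cos (2 * b)) * (Real.sin (2 * b) * 2) / (2 * g)) b :=
    h5.sqrt hGpos.ne'
  have h7 : HasDerivAt (fun b => 2 * Real.sinh (2 * t) * Real.sin (2 * γ) * Real.sin b ^ 2)
      (2 * Real.sinh (2 * t) * Real.sin (2 * γ) * (2 * Real.sin b * Real.cos b)) b := by
    have := ((Real.hasDerivAt_sin b).pow 2).const_mul (2 * Real.sinh (2 * t) * Real.sin (2 * γ))
    refine this.congr_deriv ?_
    norm_num
  have h8 := h7.div (h6.const_mul D) (mul_pos hD hgpos).ne'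
  have h9 := ((h1.const_sub (2 * Bg t γ)).sub h2).sub h8
  refine h9.congr_deriv ?_
  have hs2 : Real.sin (2 * b) = 2 * Real.sin b * Real.cos b := Real.sin_two_mul b
  have hcos : Real.cos (2 * b) = 1 - 2 * Real.sin b ^ 2 := by
    rw [Real.cos_two_mul, Real.cos_sq']
    ring
  have hB : -(Real.sinh (2 * t) / Dg t (γ + b) * 1) - Real.sinh (2 * t) / Dg t (γ - b) * (-1) =
      Real.sinh (2 * t) * (2 * Real.sin (2 * γ) * (2 * Real.sin b * Real.cos b)) / g ^ 2 := by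
    rw [hg2, ← hP, ← hs2, ← hsub]
    field_simp
    ring
  have hkey : (2 * Real.sinh (2 * t) * Real.sin (2 * γ) * (2 * Real.sin b * Real.cos b) *
      (D * g) - 2 * Real.sinh (2 * t) * Real.sin (2 * γ) * Real.sin b ^ 2 *
      (D * (2 * (a - Real.cos (2 * b)) * (Real.sin (2 * b) * 2) / (2 * g)))) / (D * g) ^ 2 =
      4 * Real.sinh (2 * t) * Real.sin (2 * γ) * Real.sin b * Real.cos b / (D * g ^ 3) *
        (g ^ 2 - 2 * Real.sin b ^ 2 * (a - Real.cos (2 * b))) := by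
    rw [hs2]
    field_simp
    ring
  have hrhs : g ^ 2 - 2 * Real.sin b ^ 2 * (a - Real.cos (2 * b)) =
      (a - Real.cos (2 * b)) * (a - 1) + c ^ 2 := by
    rw [hg2, hcos]
    ring
  rw [hB, hkey, hrhs]
  field_simp
  ring

theorem delta_ge {t γ b : ℝ} (ht : 0 < t) (h0 : 0 ≤ γ) (h1 : γ ≤ π / 2) (hb : 0 ≤ b)
    (hb' : b ≤ π / 2) :
    2 * Real.sinh (2 * t) * Real.sin (2 * γ) * Real.sin b ^ 2 /
        (Dg t γ * Real.sqrt (Dg t (γ + b) * Dg t (γ - b))) ≤
      2 * Bg t γ - Bg t (γ + b) - Bg t (γ - b) := by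
  have hpi := Real.pi_pos
  have hSh : 0 < Real.sinh (2 * t) := Real.sinh_pos_iff.2 (by linarith)
  have hS : 0 ≤ Real.sin (2 * γ) := Real.sin_nonneg_of_nonneg_of_le_pi (by linarith) (by linarith)
  have hD := Dg_pos ht γ
  set F : ℝ → ℝ := fun b => 2 * Bg t γ - Bg t (γ + b) - Bg t (γ - b) -
      2 * Real.sinh (2 * t) * Real.sin (2 * γ) * Real.sin b ^ 2 /
        (Dg t γ * Real.sqrt ((Real.cosh (2 * t) * Real.cos (2 * γ) - Real.cos (2 * b)) ^ 2 +
          (Real.sinh (2 * t) * Real.sin (2 * γ)) ^ 2)) with hF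
  have hmono : MonotoneOn F (Icc 0 (π / 2)) := by
    refine monotoneOn_of_deriv_nonneg (convex_Icc _ _)
      (fun x _ => (IkQ_deriv ht x).continuousAt.continuousWithinAt)
      (fun x _ => (IkQ_deriv ht x).differentiableAt.differentiableWithinAt) ?_
    intro x hx
    rw [interior_Icc] at hx
    rw [(IkQ_deriv (γ := γ) ht x).deriv]
    have hsin : 0 ≤ Real.sin x := Real.sin_nonneg_of_nonneg_of_le_pi hx.1.le (by linarith [hx.2])
    have hcos : 0 ≤ Real.cos x := Real.cos_nonneg_of_mem_Icc ⟨by linarith [hx.1], hx.2.le⟩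
    have hsq := IkQ_sq t γ
    set a := Real.cosh (2 * t) * Real.cos (2 * γ) with ha
    set c := Real.sinh (2 * t) * Real.sin (2 * γ) with hc
    set D := Dg t γ with hDdef
    set e := Real.cos (2 * x) with he
    have hG0 : 0 ≤ (a - e) ^ 2 + c ^ 2 := by positivity
    have hg0 : 0 ≤ Real.sqrt ((a - e) ^ 2 + c ^ 2) := Real.sqrt_nonneg _
    have hg2 : Real.sqrt ((a - e) ^ 2 + c ^ 2) ^ 2 = (a - e) ^ 2 + c ^ 2 := Real.sq_sqrt hG0
    set g := Real.sqrt ((a - e) ^ 2 + c ^ 2) with hg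
    have hcs : (a - e) * (a - 1) + c ^ 2 ≤ D * g := by
      have h3 : ((a - e) * (a - 1) + c ^ 2) ^ 2 ≤ (D * g) ^ 2 := by
        rw [mul_pow D g 2, hg2, hsq]
        nlinarith [sq_nonneg (c * ((a - e) - (a - 1)))]
      exact le_trans (le_abs_self _) (abs_le_of_sq_le_sq h3 (mul_nonneg hD.le hg0))
    refine mul_nonneg (div_nonneg ?_ ?_) (by linarith)
    · positivity
    · positivity
  have h2 : F 0 ≤ F b := hmono ⟨le_refl _, by linarith⟩ ⟨hb, hb'⟩ hb
  have h3 : F 0 = 0 := by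
    simp only [hF, add_zero, sub_zero, Real.sin_zero]
    ring
  rw [h3] at h2
  simp only [hF] at h2
  rw [Dg_mul t γ b]
  linarith

theorem IkQ_log {x y : ℝ} (hy : 0 < y) (hxy : y ≤ x) :
    Real.log (x / y) ≤ (x - y) / Real.sqrt (x * y) := by
  have hx : 0 < x := lt_of_lt_of_le hy hxy
  have hR : 0 < Real.sqrt (x * y) := Real.sqrt_pos.2 (mul_pos hx hy)
  have hR2 : Real.sqrt (x * y) ^ 2 = x * y := Real.sq_sqrt (mul_pos hx hy).le
  set R := Real.sqrt (x * y) with hRd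
  have h1 : x / y = (R / y) ^ 2 := by
    rw [div_pow, hR2]
    field_simp
  have hRy : y ≤ R := by
    rw [hRd]
    refine Real.le_sqrt_of_sq_le ?_
    nlinarith
  have h2 : 1 ≤ R / y := by
    rw [le_div_iff₀ hy]
    linarith
  have h3 : 0 ≤ Real.log (R / y) := Real.log_nonneg h2
  have h4 : Real.log (R / y) ≤ Real.sinh (Real.log (R / y)) := Real.self_le_sinh_iff.2 h3
  rw [Real.sinh_log (by positivity)] at h4
  rw [h1, Real.log_pow]
  have h5 : (x - y) / R = R / y - (R / y)⁻¹ := by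
    field_simp
    rw [hR2]
    ring
  rw [h5]
  push_cast
  linarith

theorem Pk_le {t γ b : ℝ} (ht : 0 < t) (h0 : 0 ≤ γ) (h1 : γ ≤ π / 2) (hb : 0 < b)
    (hb' : b < π / 2) : Pk t (2 * Dg t γ) b γ ≤ 2 * Nn t γ := by
  have hpi := Real.pi_pos
  have hSh : 0 < Real.sinh (2 * t) := Real.sinh_pos_iff.2 (by linarith)
  have hK : 0 < Real.cosh (2 * t) := Real.cosh_pos _
  have hS : 0 ≤ Real.sin (2 * γ) := Real.sin_nonneg_of_nonneg_of_le_pi (by linarith) (by linarith)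
  have hsb : 0 < Real.sin b := Real.sin_pos_of_pos_of_lt_pi hb (by linarith)
  have hcb : 0 < Real.cos b := Real.cos_pos_of_mem_Ioo ⟨by linarith, hb'⟩
  have hs2 : Real.sin (2 * b) = 2 * Real.sin b * Real.cos b := Real.sin_two_mul b
  have hcos : Real.cos (2 * b) = 1 - 2 * Real.sin b ^ 2 := by
    rw [Real.cos_two_mul, Real.cos_sq']
    ring
  have hD := Dg_pos ht γ
  have hDp := Dg_pos ht (γ + b)
  have hDm := Dg_pos ht (γ - b)
  have hsub := IkQ_sub t γ b
  have hadd := IkQ_add t γ b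
  have hδ := delta_ge ht h0 h1 hb.le hb'.le
  have hDdef : Dg t γ = Real.cosh (2 * t) - Real.cos (2 * γ) := rfl
  have hlog := IkQ_log hDm (x := Dg t (γ + b)) (by
    have : 0 ≤ 2 * Real.sin (2 * γ) * Real.sin (2 * b) := by
      rw [hs2]
      positivity
    linarith)
  have hR : 0 < Real.sqrt (Dg t (γ + b) * Dg t (γ - b)) := Real.sqrt_pos.2 (mul_pos hDp hDm)
  have hRam : Real.sqrt (Dg t (γ + b) * Dg t (γ - b)) ≤
      Real.cosh (2 * t) - Real.cos (2 * γ) * Real.cos (2 * b) := by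
    rw [Real.sqrt_le_left (by linarith)]
    nlinarith [sq_nonneg (Dg t (γ + b) - Dg t (γ - b))]
  set R := Real.sqrt (Dg t (γ + b) * Dg t (γ - b)) with hRd
  set δ := 2 * Bg t γ - Bg t (γ + b) - Bg t (γ - b) with hδd
  set D := Dg t γ with hDd
  set K := Real.cosh (2 * t) with hKd
  set Sh := Real.sinh (2 * t) with hShd
  set S := Real.sin (2 * γ) with hSd
  set s := Real.sin b with hsd
  have hT : Real.tan b = s / Real.cos b := Real.tan_eq_sin_div_cos b
  -- the logarithmic term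
  have hL : Sh * Real.tan b * Real.log (Dg t (γ + b) / Dg t (γ - b)) ≤ 4 * Sh * S * s ^ 2 / R := by
    have h2 : 0 ≤ Sh * Real.tan b := by
      rw [hT]
      positivity
    refine (mul_le_mul_of_nonneg_left hlog h2).trans (le_of_eq ?_)
    rw [hsub, hs2, hT]
    field_simp
    ring
  -- the term with `δ`
  have hc0 : 0 < 2 * K + D / s ^ 2 := by positivity
  have hM : 4 * K * Sh * S * s ^ 2 / (D * R) + 2 * Sh * S / R ≤ δ * (2 * K + D / s ^ 2) := by
    refine le_trans (le_of_eq ?_) (mul_le_mul_of_nonneg_right hδ hc0.le)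
    field_simp
    ring
  have hfin : 2 * Sh * S / D + 4 * Sh * S * s ^ 2 / R ≤
      4 * K * Sh * S * s ^ 2 / (D * R) + 2 * Sh * S / R := by
    have h2 : 4 * K * Sh * S * s ^ 2 / (D * R) + 2 * Sh * S / R -
        (2 * Sh * S / D + 4 * Sh * S * s ^ 2 / R) =
        2 * Sh * S / (D * R) * (2 * K * s ^ 2 + D - R - 2 * s ^ 2 * D) := by
      field_simp
      ring
    have h3 : 0 ≤ 2 * K * s ^ 2 + D - R - 2 * s ^ 2 * D := by
      rw [hcos] at hRam
      rw [hDdef]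
      nlinarith
    have h4 : 0 ≤ 2 * Sh * S / (D * R) * (2 * K * s ^ 2 + D - R - 2 * s ^ 2 * D) :=
      mul_nonneg (by positivity) h3
    linarith
  have hPk : Pk t (2 * D) b γ = 4 * K * Bg t γ - 4 * γ * Sh - δ * (2 * K + D / s ^ 2) +
      Sh * Real.tan b * Real.log (Dg t (γ + b) / Dg t (γ - b)) := by
    unfold Pk
    rw [hδd]
    simp only [← hDd, ← hKd, ← hShd, ← hSd, ← hsd]
    field_simp
    ring
  have hNn : 2 * Nn t γ = 4 * K * Bg t γ - 4 * γ * Sh - 2 * Sh * S / D := by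
    unfold Nn
    simp only [← hDd, ← hKd, ← hShd, ← hSd]
    ring
  rw [hPk, hNn]
  linarith

end Pool.Agent.H36.SZ
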