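import Pool.Agent.H36.SZ.IkP

/-!
# The integral of the weight

`x = 2 Dg t γ`, `0 <= γ <= π/2`. PROOF: period `π`; on `φ = π/2 + s`, `|s| <= π/2`, `yy J = 2 Dg t s`
(`yy_J_Dg`), the weight is `Dg γ / Dg s - 1` for `|s| <= γ` and `0` for `|s| >= γ`; primitive of
`Dg γ / Dg s` is `Dg γ Bg s / Sh` (`Bg_deriv`), `Bg` odd.
-/

open Complex MeasureTheory Set Filter Topology
open scoped ComplexConjugate Real

namespace Pool.Agent.H36.SZ

private theorem yy_shift (t φ : ℝ) : yy J t φ = 2 * Dg t (φ - π / 2) := by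
  rw [← yy_J_Dg]
  congr 1
  ring

private theorem Dg_add_pi (t s : ℝ) : Dg t (s + π) = Dg t s := by
  unfold Dg
  rw [show 2 * (s + π) = 2 * s + 2 * π by ring, Real.cos_add_two_pi]

private theorem Dg_cont (t : ℝ) : Continuous (Dg t) := by
  unfold Dg
  fun_prop

private theorem Dg_le {t γ s : ℝ} (h0 : 0 ≤ γ) (h1 : γ ≤ |s|) (h2 : |s| ≤ π / 2) :
    Dg t γ ≤ Dg t s := by
  have h3 : Real.cos (2 * s) = Real.cos (2 * |s|) := by
    rw [← Real.cos_abs (2 * s), abs_mul, abs_two]
  have h4 : Real.cos (2 * |s|) ≤ Real.cos (2 * γ) :=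
    Real.cos_le_cos_of_nonneg_of_le_pi (by linarith) (by linarith) (by linarith)
  unfold Dg
  linarith

private theorem Dg_ge {t γ s : ℝ} (h1 : |s| ≤ γ) (h2 : γ ≤ π / 2) :
    Dg t s ≤ Dg t γ := by
  have h3 : Real.cos (2 * s) = Real.cos (2 * |s|) := by
    rw [← Real.cos_abs (2 * s), abs_mul, abs_two]
  have h4 : Real.cos (2 * γ) ≤ Real.cos (2 * |s|) :=
    Real.cos_le_cos_of_nonneg_of_le_pi (by positivity) (by linarith) (by linarith)
  unfold Dg
  linarith

/-- integrals with an even, `π`-periodic weight supported in the dips -/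
theorem int_dips {t γ : ℝ} (ht : 0 < t) (h0 : 0 ≤ γ) (h1 : γ ≤ π / 2) {f : ℝ → ℝ}
    (hf : Continuous f) (hper : ∀ φ, f (φ + π) = f φ) :
    ∫ φ in (-π)..π, max 0 (2 * Dg t γ / yy J t φ - 1) * f φ =
      2 * ∫ s in (-γ)..γ, (2 * Dg t γ / (2 * Dg t s) - 1) * f (π / 2 + s) := by
  have hpi := Real.pi_pos
  -- the integrand
  set g : ℝ → ℝ := fun φ => max 0 (2 * Dg t γ / (2 * Dg t (φ - π / 2)) - 1) * f φ with hg
  have hgc : Continuous g := by
    have h2 : Continuous fun φ : ℝ => 2 * Dg t (φ - π / 2) :=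
      continuous_const.mul ((Dg_cont t).comp (continuous_id.sub continuous_const))
    have h3 : ∀ φ : ℝ, 2 * Dg t (φ - π / 2) ≠ 0 := fun φ =>
      ne_of_gt (mul_pos two_pos (Dg_pos ht _))
    exact (continuous_const.max ((continuous_const.div h2 h3).sub continuous_const)).mul hf
  have hgp : Function.Periodic g π := by
    intro φ
    simp only [hg]
    rw [hper, show φ + π - π / 2 = (φ - π / 2) + π by ring, Dg_add_pi]
  have e0 : (∫ φ in (-π)..π, max 0 (2 * Dg t γ / yy J t φ - 1) * f φ) =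
      ∫ φ in (-π)..π, g φ := by
    refine intervalIntegral.integral_congr fun φ _ => ?_
    simp only [hg]
    rw [yy_shift]
  have hii : ∀ a b : ℝ, IntervalIntegrable g volume a b := fun a b =>
    hgc.intervalIntegrable a b
  have e1 : (∫ φ in (-π)..π, g φ) = 2 * ∫ φ in (0:ℝ)..π, g φ := by
    rw [← intervalIntegral.integral_add_adjacent_intervals (hii (-π) 0) (hii 0 π)]
    have h2 := hgp.intervalIntegral_add_eq (-π) 0
    rw [neg_add_cancel, zero_add] at h2
    rw [h2]
    ring
  have e2 : (∫ φ in (0:ℝ)..π, g φ) = ∫ s in (-(π / 2))..(π / 2), g (π / 2 + s) := by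
    rw [intervalIntegral.integral_comp_add_left (fun x => g x) (π / 2)]
    congr 1
    · ring
    · ring
  have e3 : (∫ s in (-(π / 2))..(π / 2), g (π / 2 + s)) =
      ∫ s in (-γ)..γ, (2 * Dg t γ / (2 * Dg t s) - 1) * f (π / 2 + s) := by
    have hkc : Continuous fun s : ℝ => g (π / 2 + s) :=
      hgc.comp (continuous_const.add continuous_id)
    have hki : ∀ a b : ℝ, IntervalIntegrable (fun s : ℝ => g (π / 2 + s)) volume a b :=
      fun a b => hkc.intervalIntegrable a b
    have hz : ∀ s : ℝ, γ ≤ |s| → |s| ≤ π / 2 → g (π / 2 + s) = 0 := by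
      intro s hs1 hs2
      have h2 : 2 * Dg t γ / (2 * Dg t s) ≤ 1 := by
        rw [div_le_one (mul_pos two_pos (Dg_pos ht s))]
        have := Dg_le (t := t) h0 hs1 hs2
        linarith
      simp only [hg]
      rw [show π / 2 + s - π / 2 = s by ring, max_eq_left (by linarith), zero_mul]
    have hv : ∀ s : ℝ, |s| ≤ γ →
        g (π / 2 + s) = (2 * Dg t γ / (2 * Dg t s) - 1) * f (π / 2 + s) := by
      intro s hs
      have h2 : 1 ≤ 2 * Dg t γ / (2 * Dg t s) := by
        rw [one_le_div (mul_pos two_pos (Dg_pos ht s))]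
        have := Dg_ge (t := t) hs h1
        linarith
      simp only [hg]
      rw [show π / 2 + s - π / 2 = s by ring, max_eq_right (by linarith)]
    rw [← intervalIntegral.integral_add_adjacent_intervals (hki (-(π / 2)) (-γ))
      (hki (-γ) (π / 2)),
      ← intervalIntegral.integral_add_adjacent_intervals (hki (-γ) γ) (hki γ (π / 2))]
    have i1 : (∫ s in (-(π / 2))..(-γ), g (π / 2 + s)) = 0 := by
      rw [intervalIntegral.integral_congr (g := fun _ => (0 : ℝ))]
      · exact intervalIntegral.integral_zero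
      · intro s hs
        rw [Set.uIcc_of_le (by linarith)] at hs
        have h2 : |s| = -s := abs_of_nonpos (by linarith [hs.2])
        exact hz s (by rw [h2]; linarith [hs.2]) (by rw [h2]; linarith [hs.1])
    have i2 : (∫ s in γ..(π / 2), g (π / 2 + s)) = 0 := by
      rw [intervalIntegral.integral_congr (g := fun _ => (0 : ℝ))]
      · exact intervalIntegral.integral_zero
      · intro s hs
        rw [Set.uIcc_of_le h1] at hs
        have h2 : |s| = s := abs_of_nonneg (by linarith [hs.1])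
        exact hz s (by rw [h2]; exact hs.1) (by rw [h2]; exact hs.2)
    have i3 : (∫ s in (-γ)..γ, g (π / 2 + s)) =
        ∫ s in (-γ)..γ, (2 * Dg t γ / (2 * Dg t s) - 1) * f (π / 2 + s) := by
      refine intervalIntegral.integral_congr fun s hs => ?_
      rw [Set.uIcc_of_le (by linarith)] at hs
      exact hv s (abs_le.2 ⟨hs.1, hs.2⟩)
    rw [i1, i2, i3]
    ring
  rw [e0, e1, e2, e3]

theorem int_Iw2 {t γ : ℝ} (ht : 0 < t) (h0 : 0 ≤ γ) (h1 : γ ≤ π / 2) :
    ∫ φ in (-π)..π, max 0 (2 * Dg t γ / yy J t φ - 1) = Iw2 t γ := by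
  have h2 := int_dips ht h0 h1 (f := fun _ => (1 : ℝ)) continuous_const (fun _ => rfl)
  simp only [mul_one] at h2
  rw [h2]
  have hSh : 0 < Real.sinh (2 * t) := Real.sinh_pos_iff.2 (by positivity)
  have hd : ∀ s ∈ Set.uIcc (-γ) γ,
      HasDerivAt (fun s : ℝ => Dg t γ * Bg t s / Real.sinh (2 * t) - s)
        (2 * Dg t γ / (2 * Dg t s) - 1) s := by
    intro s _
    have h3 := (((Bg_deriv ht s).const_mul (Dg t γ)).div_const (Real.sinh (2 * t))).sub
      (hasDerivAt_id s)
    refine h3.congr_deriv ?_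
    have h4 := (Dg_pos ht s).ne'
    have h5 := hSh.ne'
    field_simp
  have hc : Continuous fun s : ℝ => 2 * Dg t γ / (2 * Dg t s) - 1 :=
    (continuous_const.div (continuous_const.mul (Dg_cont t))
      (fun s => (mul_pos two_pos (Dg_pos ht s)).ne')).sub continuous_const
  rw [intervalIntegral.integral_eq_sub_of_hasDerivAt hd (hc.intervalIntegrable _ _)]
  simp only [Bg_neg, Iw2]
  ring

end Pool.Agent.H36.SZ
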