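import Pool.Agent.H36.SZ.IkK
import Pool.Agent.H36.SZ.IkQ
import Pool.Agent.H36.SZ.IkW

/-!
# The sharp first order bound

`W φ = max 0 (x / yy J t φ - 1)`, `x = 2 Dg t γ`. PROOF of `lin_ik`. `W` is even, so
`int W 2 Re (conj J g) = int W (Re (A g(φ)) + Re (conj A g(-φ)))` with `A = conj (G J t φ)`,
`g = G F - G J`, which by `lin_eq` is
`-(4/π) int_φ W int_β hb β sin β k(φ,β)`, `k(φ,β) = Re (conj J G1J/(J - 2cos β)^2)`
`= -(4/π) int_0^π hb β sin β (int_φ W k(φ,β)) dβ` (Fubini, continuous integrand). For fixed `β`,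
`int_φ W k = (1/2) int_φ W (k(φ,β) + k(φ+π,β))`, `k(φ+π, β) = Re (conj J G1J/(J + 2cos β)^2)`
(`G J (φ+π) = - G J φ`), the sum is `π`-periodic; by `int_dips` and `ker_sum`
`int_φ W k = int_(-γ)^γ (x/(2 Dg s) - 1) Kk t s (cos 2β) ds = -Pk t x b γ` with `b = |π/2 - β|`
(`int_Kk`; `cos 2β = - cos 2b`; for `β ∈ (0, π)`, `β ≠ π/2`, i.e. for almost every `β`)
`>= -2 Nn t γ` (`Pk_le`). With `hb >= 0`, `sin β >= 0`, `int hb sin = (π/2)(1 - Re b_1)`
(`hb_sin`) the claim follows.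
-/

open Complex MeasureTheory Set Filter Topology
open scoped ComplexConjugate Real

namespace Pool.Agent.H36.SZ

variable {F : ℂ → ℂ} {b : ℕ → ℂ} {q : ℝ}

private theorem IkL_G_pi (t φ : ℝ) : G J t (φ + π) = -G J t φ := by
  rw [G_J, G_J, Real.cos_add_pi, Real.sin_add_pi]
  push_cast
  ring

private theorem IkL_G1_pi (t φ : ℝ) : G1 J t (φ + π) = -G1 J t φ := by
  rw [G1_J, G1_J, Real.cos_add_pi, Real.sin_add_pi]
  push_cast
  ring

private theorem IkL_G_neg (t φ : ℝ) : G J t (-φ) = conj (G J t φ) := by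
  rw [G_J, G_J]
  apply Complex.ext
  · simp [-Complex.ofReal_cosh, -Complex.ofReal_sinh, -Complex.ofReal_cos, -Complex.ofReal_sin]
  · simp [-Complex.ofReal_cosh, -Complex.ofReal_sinh, -Complex.ofReal_cos, -Complex.ofReal_sin]

private theorem IkL_G_cont (t : ℝ) : Continuous (G J t) := by
  have e : G J t = fun θ : ℝ =>
      2 * (Real.cosh t : ℂ) * Real.cos θ + 2 * (Real.sinh t : ℂ) * Real.sin θ * I :=
    funext fun θ => G_J t θ
  rw [e]
  fun_prop

private theorem IkL_G1_cont (t : ℝ) : Continuous (G1 J t) := by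
  have e : G1 J t = fun θ : ℝ =>
      2 * (Real.sinh t : ℂ) * Real.cos θ + 2 * (Real.cosh t : ℂ) * Real.sin θ * I :=
    funext fun θ => G1_J t θ
  rw [e]
  fun_prop

/-- joint continuity of the kernel -/
private theorem IkL_k_cont {t : ℝ} (ht : 0 < t) : Continuous fun p : ℝ × ℝ =>
    (conj (G J t p.1) * G1 J t p.1 / (G J t p.1 - 2 * Real.cos p.2) ^ 2).re := by
  have c1 := (IkL_G_cont t).comp (continuous_fst (X := ℝ) (Y := ℝ))
  have c2 := (IkL_G1_cont t).comp (continuous_fst (X := ℝ) (Y := ℝ))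
  have c3 : Continuous fun p : ℝ × ℝ => (2 : ℂ) * (Real.cos p.2 : ℂ) := by fun_prop
  refine continuous_re.comp (Continuous.div ((continuous_conj.comp c1).mul c2)
    ((c1.sub c3).pow 2) fun p => ?_)
  exact pow_ne_zero 2 (GJ_ne ht p.1 p.2)

private theorem IkL_W_cont {t : ℝ} (ht : 0 < t) (γ : ℝ) :
    Continuous fun φ => max 0 (2 * Dg t γ / yy J t φ - 1) := by
  have e : (fun φ => max 0 (2 * Dg t γ / yy J t φ - 1)) = fun φ =>
      max 0 (2 * Dg t γ / (2 * Real.cosh (2 * t) + 2 * Real.cos (2 * φ)) - 1) := by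
    funext φ
    rw [yy_J']
  rw [e]
  refine continuous_const.max ((Continuous.div continuous_const (by fun_prop) fun φ => ?_).sub
    continuous_const)
  have h1 : 1 < Real.cosh (2 * t) := Real.one_lt_cosh.2 (by positivity)
  have h2 := Real.neg_one_le_cos (2 * φ)
  apply ne_of_gt
  linarith

private theorem IkL_yy_pi (t φ : ℝ) : yy J t (φ + π) = yy J t φ := by
  rw [yy_J', yy_J', show 2 * (φ + π) = 2 * φ + 2 * π by ring, Real.cos_add_two_pi]

private theorem IkL_yy_neg (t φ : ℝ) : yy J t (-φ) = yy J t φ := by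
  rw [yy_J', yy_J', show 2 * -φ = -(2 * φ) by ring, Real.cos_neg]

private theorem IkL_ker_pi (t φ β : ℝ) :
    (conj (G J t (φ + π)) * G1 J t (φ + π) / (G J t (φ + π) - 2 * Real.cos β) ^ 2).re =
      (conj (G J t φ) * G1 J t φ / (G J t φ + 2 * Real.cos β) ^ 2).re := by
  rw [IkL_G_pi, IkL_G1_pi, show (-G J t φ - 2 * (Real.cos β : ℂ)) ^ 2 =
    (G J t φ + 2 * Real.cos β) ^ 2 by ring, map_neg, neg_mul_neg]

private theorem IkL_ker_pi' (t φ β : ℝ) :
    (conj (G J t (φ + π)) * G1 J t (φ + π) / (G J t (φ + π) + 2 * Real.cos β) ^ 2).re =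
      (conj (G J t φ) * G1 J t φ / (G J t φ - 2 * Real.cos β) ^ 2).re := by
  rw [IkL_G_pi, IkL_G1_pi, show (-G J t φ + 2 * (Real.cos β : ℂ)) ^ 2 =
    (G J t φ - 2 * Real.cos β) ^ 2 by ring, map_neg, neg_mul_neg]

private theorem IkL_k_cont1 {t : ℝ} (ht : 0 < t) (β : ℝ) : Continuous fun φ : ℝ =>
    (conj (G J t φ) * G1 J t φ / (G J t φ - 2 * Real.cos β) ^ 2).re := by
  have c1 := IkL_G_cont t
  have c2 := IkL_G1_cont t
  refine continuous_re.comp (Continuous.div ((continuous_conj.comp c1).mul c2)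
    ((c1.sub continuous_const).pow 2) fun φ => ?_)
  exact pow_ne_zero 2 (GJ_ne ht φ β)

private theorem IkL_half {W k k' : ℝ → ℝ} (cW : Continuous W) (ck : Continuous k)
    (e1 : ∀ φ, k (φ + π) = k' φ) (e2 : ∀ φ, k' (φ + π) = k φ) (e3 : ∀ φ, W (φ + π) = W φ) :
    ∫ φ in (-π)..π, W φ * (k φ + k' φ) = 2 * ∫ φ in (-π)..π, W φ * k φ := by
  have ck' : Continuous k' := by
    have : k' = fun φ => k (φ + π) := funext fun φ => (e1 φ).symm
    rw [this]
    exact ck.comp (continuous_id.add continuous_const)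
  have hper : Function.Periodic (fun φ => W φ * k φ) (2 * π) := by
    intro φ
    have a1 : φ + 2 * π = (φ + π) + π := by ring
    simp only
    rw [a1, e3, e3, e1, e2]
  have e4 : ∫ φ in (-π)..π, W φ * k φ = ∫ φ in (-π)..π, W φ * k' φ := by
    have a1 : ∀ φ, W φ * k' φ = (fun φ => W φ * k φ) (φ + π) := by
      intro φ
      simp only
      rw [e3, e1]
    have a2 : ∫ φ in (-π)..π, W φ * k' φ = ∫ φ in (-π)..π, (fun φ => W φ * k φ) (φ + π) :=
      intervalIntegral.integral_congr fun φ _ => a1 φ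
    rw [a2, intervalIntegral.integral_comp_add_right (fun φ => W φ * k φ) π]
    have a3 := hper.intervalIntegral_add_eq (-π) (-π + π)
    have a4 : -π + 2 * π = π := by ring
    have a5 : -π + π + 2 * π = π + π := by ring
    rw [a4, a5] at a3
    exact a3
  have e5 : ∫ φ in (-π)..π, W φ * (k φ + k' φ) =
      (∫ φ in (-π)..π, W φ * k φ) + ∫ φ in (-π)..π, W φ * k' φ := by
    have i1 : IntervalIntegrable (fun φ => W φ * k φ) volume (-π) π :=
      (cW.mul ck).intervalIntegrable _ _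
    have i2 : IntervalIntegrable (fun φ => W φ * k' φ) volume (-π) π :=
      (cW.mul ck').intervalIntegrable _ _
    rw [← intervalIntegral.integral_add i1 i2]
    refine intervalIntegral.integral_congr fun φ _ => ?_
    ring
  rw [e5, ← e4]
  ring

private theorem IkL_fub {W u : ℝ → ℝ} {k : ℝ → ℝ → ℝ} (cW : Continuous W) (cu : Continuous u)
    (ck : Continuous fun p : ℝ × ℝ => k p.1 p.2) {m : ℝ} (hu : ∀ β ∈ Icc 0 π, 0 ≤ u β)
    (hm : ∀ β, 0 < β → β < π → β ≠ π / 2 → m ≤ ∫ φ in (-π)..π, W φ * k φ β) :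
    (∫ β in (0 : ℝ)..π, u β) * m ≤
      ∫ φ in (-π)..π, ∫ β in (0 : ℝ)..π, W φ * (u β * k φ β) := by
  have cU : Continuous (Function.uncurry fun (φ β : ℝ) => W φ * (u β * k φ β)) := by
    have a1 : Continuous fun p : ℝ × ℝ => W p.1 * (u p.2 * k p.1 p.2) :=
      (cW.comp continuous_fst).mul ((cu.comp continuous_snd).mul ck)
    exact a1
  have s4 : ∫ φ in (-π)..π, ∫ β in (0 : ℝ)..π, W φ * (u β * k φ β) =
      ∫ β in (0 : ℝ)..π, ∫ φ in (-π)..π, W φ * (u β * k φ β) := by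
    apply MeasureTheory.intervalIntegral_intervalIntegral_swap
    exact (cU.continuousOn.integrableOn_compact (isCompact_uIcc.prod isCompact_uIcc)).mono_set
      (Set.prod_mono uIoc_subset_uIcc uIoc_subset_uIcc)
  have s5 : ∀ β, ∫ φ in (-π)..π, W φ * (u β * k φ β) =
      u β * ∫ φ in (-π)..π, W φ * k φ β := by
    intro β
    rw [← intervalIntegral.integral_const_mul]
    refine intervalIntegral.integral_congr fun φ _ => ?_
    ring
  have cI : Continuous fun β => ∫ φ in (-π)..π, W φ * (u β * k φ β) := by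
    apply intervalIntegral.continuous_parametric_intervalIntegral_of_continuous'
    have a1 : Continuous fun p : ℝ × ℝ => W p.2 * (u p.1 * k p.2 p.1) :=
      (cW.comp continuous_snd).mul ((cu.comp continuous_fst).mul
        (ck.comp (continuous_snd.prodMk continuous_fst)))
    exact a1
  rw [s4, ← intervalIntegral.integral_mul_const]
  refine intervalIntegral.integral_mono_ae_restrict Real.pi_pos.le
    ((cu.mul continuous_const).intervalIntegrable _ _) (cI.intervalIntegrable _ _) ?_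
  have n1 : ∀ᵐ β : ℝ ∂(volume.restrict (Icc 0 π)), β ≠ 0 :=
    ae_restrict_of_ae (compl_mem_ae_iff.2 (measure_singleton (0 : ℝ)))
  have n2 : ∀ᵐ β : ℝ ∂(volume.restrict (Icc 0 π)), β ≠ π :=
    ae_restrict_of_ae (compl_mem_ae_iff.2 (measure_singleton (π : ℝ)))
  have n3 : ∀ᵐ β : ℝ ∂(volume.restrict (Icc 0 π)), β ≠ π / 2 :=
    ae_restrict_of_ae (compl_mem_ae_iff.2 (measure_singleton (π / 2 : ℝ)))
  filter_upwards [ae_restrict_mem measurableSet_Icc, n1, n2, n3] with β hβ m1 m2 m3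
  rw [s5]
  exact mul_le_mul_of_nonneg_left
    (hm β (lt_of_le_of_ne hβ.1 (Ne.symm m1)) (lt_of_le_of_ne hβ.2 m2) m3) (hu β hβ)

theorem ker_int {t γ β : ℝ} (ht : 0 < t) (h0 : 0 ≤ γ) (h1 : γ ≤ π / 2) (hβ : 0 < β) (hβ1 : β < π)
    (hβ2 : β ≠ π / 2) :
    -(2 * Nn t γ) ≤ ∫ φ in (-π)..π, max 0 (2 * Dg t γ / yy J t φ - 1) *
      (conj (G J t φ) * G1 J t φ / (G J t φ - 2 * Real.cos β) ^ 2).re := by
  have e3 : ∀ φ, max 0 (2 * Dg t γ / yy J t (φ + π) - 1) =
      max 0 (2 * Dg t γ / yy J t φ - 1) := fun φ => by rw [IkL_yy_pi]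
  have hf := IkL_half (W := fun φ => max 0 (2 * Dg t γ / yy J t φ - 1))
    (k := fun φ => (conj (G J t φ) * G1 J t φ / (G J t φ - 2 * Real.cos β) ^ 2).re)
    (k' := fun φ => (conj (G J t φ) * G1 J t φ / (G J t φ + 2 * Real.cos β) ^ 2).re)
    (IkL_W_cont ht γ) (IkL_k_cont1 ht β) (fun φ => IkL_ker_pi t φ β) (fun φ => IkL_ker_pi' t φ β)
    e3
  have ck' : Continuous fun φ : ℝ =>
      (conj (G J t φ) * G1 J t φ / (G J t φ + 2 * Real.cos β) ^ 2).re := by
    have e : (fun φ : ℝ => (conj (G J t φ) * G1 J t φ / (G J t φ + 2 * Real.cos β) ^ 2).re) =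
        fun φ : ℝ => (conj (G J t φ) * G1 J t φ / (G J t φ - 2 * Real.cos (π - β)) ^ 2).re := by
      funext φ
      rw [Real.cos_pi_sub]
      push_cast
      rw [mul_neg, sub_neg_eq_add]
    rw [e]
    exact IkL_k_cont1 ht (π - β)
  have e6 := int_dips (t := t) (γ := γ) ht h0 h1
    (f := fun φ => (conj (G J t φ) * G1 J t φ / (G J t φ - 2 * Real.cos β) ^ 2).re +
      (conj (G J t φ) * G1 J t φ / (G J t φ + 2 * Real.cos β) ^ 2).re)
    ((IkL_k_cont1 ht β).add ck') (fun φ => by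
      rw [IkL_ker_pi, IkL_ker_pi']
      ring)
  have a2 : -Real.cos (2 * |π / 2 - β|) = Real.cos (2 * β) := by
    have a3 : Real.cos (2 * |π / 2 - β|) = Real.cos (π - 2 * β) := by
      rcases abs_cases (π / 2 - β) with h | h
      · rw [h.1]
        congr 1
        ring
      · rw [h.1, ← Real.cos_neg]
        congr 1
        ring
    rw [a3, Real.cos_pi_sub, neg_neg]
  have e7 : ∫ s in (-γ)..γ, (2 * Dg t γ / (2 * Dg t s) - 1) *
      ((conj (G J t (π / 2 + s)) * G1 J t (π / 2 + s) /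
        (G J t (π / 2 + s) - 2 * Real.cos β) ^ 2).re +
      (conj (G J t (π / 2 + s)) * G1 J t (π / 2 + s) /
        (G J t (π / 2 + s) + 2 * Real.cos β) ^ 2).re) =
      ∫ s in (-γ)..γ, (2 * Dg t γ / (2 * Dg t s) - 1) *
        Kk t s (-Real.cos (2 * |π / 2 - β|)) := by
    refine intervalIntegral.integral_congr fun s _ => ?_
    have a1 := ker_sum ht s β
    rw [a2, ← a1]
  have hb0 : 0 < |π / 2 - β| := abs_pos.2 (sub_ne_zero.2 (Ne.symm hβ2))
  have hb1 : |π / 2 - β| < π / 2 := by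
    rw [abs_lt]
    constructor <;> linarith
  have hs : Real.sin |π / 2 - β| ≠ 0 :=
    (Real.sin_pos_of_pos_of_lt_pi hb0 (by linarith [Real.pi_pos])).ne'
  have hc : Real.cos |π / 2 - β| ≠ 0 :=
    (Real.cos_pos_of_mem_Ioo ⟨by linarith [Real.pi_pos], hb1⟩).ne'
  have e8 := int_Kk (t := t) (x := 2 * Dg t γ) (γ := γ) ht hs hc
  have e9 := Pk_le ht h0 h1 hb0 hb1
  rw [e8] at e7
  rw [e7, hf] at e6
  linarith

theorem Sg.lin_ik (h : Sg F b q) {t γ : ℝ} (ht : 0 < t) (h0 : 0 ≤ γ) (h1 : γ ≤ π / 2) :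
    ∫ φ in (-π)..π, max 0 (2 * Dg t γ / yy J t φ - 1) *
        (2 * (conj (G J t φ) * (G F t φ - G J t φ)).re) ≤
      4 * (1 - (b 1).re) * Nn t γ := by
  obtain ⟨W, hW⟩ : ∃ W : ℝ → ℝ, ∀ φ, W φ = max 0 (2 * Dg t γ / yy J t φ - 1) :=
    ⟨_, fun _ => rfl⟩
  obtain ⟨k, hk⟩ : ∃ k : ℝ → ℝ → ℝ, ∀ φ β, k φ β =
      (conj (G J t φ) * G1 J t φ / (G J t φ - 2 * Real.cos β) ^ 2).re := ⟨_, fun _ _ => rfl⟩
  have cW : Continuous W := by
    have e : W = fun φ => max 0 (2 * Dg t γ / yy J t φ - 1) := funext hW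
    rw [e]
    exact IkL_W_cont ht γ
  have ck : Continuous fun p : ℝ × ℝ => k p.1 p.2 := by
    have e : (fun p : ℝ × ℝ => k p.1 p.2) = fun p : ℝ × ℝ =>
        (conj (G J t p.1) * G1 J t p.1 / (G J t p.1 - 2 * Real.cos p.2) ^ 2).re :=
      funext fun p => hk p.1 p.2
    rw [e]
    exact IkL_k_cont ht
  have cGJ := IkL_G_cont t
  have cGF : Continuous (G F t) := h.G_cont ht
  have hWn : ∀ φ, W (-φ) = W φ := fun φ => by rw [hW, hW, IkL_yy_neg]
  obtain ⟨r, hr⟩ : ∃ r : ℝ → ℝ, ∀ φ, r φ = (conj (G J t φ) * (G F t φ - G J t φ)).re :=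
    ⟨_, fun _ => rfl⟩
  have cr : Continuous r := by
    have e : r = fun φ => (conj (G J t φ) * (G F t φ - G J t φ)).re := funext hr
    rw [e]
    exact continuous_re.comp ((continuous_conj.comp cGJ).mul (cGF.sub cGJ))
  have s0 : ∫ φ in (-π)..π, max 0 (2 * Dg t γ / yy J t φ - 1) *
      (2 * (conj (G J t φ) * (G F t φ - G J t φ)).re) = ∫ φ in (-π)..π, W φ * (2 * r φ) := by
    refine intervalIntegral.integral_congr fun φ _ => ?_
    simp only [hW, hr]
  have s1 : ∫ φ in (-π)..π, W φ * r φ = ∫ φ in (-π)..π, W φ * r (-φ) := by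
    have a1 := intervalIntegral.integral_comp_neg (a := -π) (b := π) (fun φ => W φ * r φ)
    rw [neg_neg] at a1
    rw [← a1]
    refine intervalIntegral.integral_congr fun φ _ => ?_
    simp only [hWn]
  have s2 : ∫ φ in (-π)..π, W φ * (2 * r φ) = ∫ φ in (-π)..π, W φ * (r φ + r (-φ)) := by
    have a1 : ∫ φ in (-π)..π, W φ * (2 * r φ) = 2 * ∫ φ in (-π)..π, W φ * r φ := by
      rw [← intervalIntegral.integral_const_mul]
      refine intervalIntegral.integral_congr fun φ _ => ?_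
      ring
    have a2 : ∫ φ in (-π)..π, W φ * (r φ + r (-φ)) =
        (∫ φ in (-π)..π, W φ * r φ) + ∫ φ in (-π)..π, W φ * r (-φ) := by
      have i1 : IntervalIntegrable (fun φ => W φ * r φ) volume (-π) π :=
        (cW.mul cr).intervalIntegrable _ _
      have i2 : IntervalIntegrable (fun φ => W φ * r (-φ)) volume (-π) π :=
        (cW.mul (cr.comp continuous_neg)).intervalIntegrable _ _
      rw [← intervalIntegral.integral_add i1 i2]
      refine intervalIntegral.integral_congr fun φ _ => ?_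
      ring
    rw [a1, a2, ← s1]
    ring
  have s3 : ∫ φ in (-π)..π, W φ * (r φ + r (-φ)) =
      -(4 / π) * ∫ φ in (-π)..π, ∫ β in (0 : ℝ)..π, W φ * (hb b β * Real.sin β * k φ β) := by
    rw [← intervalIntegral.integral_const_mul]
    refine intervalIntegral.integral_congr fun φ _ => ?_
    have a1 := h.lin_eq ht φ (conj (G J t φ))
    have a2 : (conj (conj (G J t φ)) * (G F t (-φ) - G J t (-φ))).re = r (-φ) := by
      rw [hr, IkL_G_neg]
    rw [← hr, a2] at a1
    have a3 : (∫ β in (0 : ℝ)..π, hb b β * Real.sin β *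
        (conj (G J t φ) * G1 J t φ / (G J t φ - 2 * Real.cos β) ^ 2).re) =
        ∫ β in (0 : ℝ)..π, hb b β * Real.sin β * k φ β :=
      intervalIntegral.integral_congr fun β _ => by simp only [hk]
    rw [a3] at a1
    rw [a1, intervalIntegral.integral_const_mul]
    ring
  have s6 := IkL_fub (u := fun β => hb b β * Real.sin β) cW (h.hb_cont.mul Real.continuous_sin) ck (m := -(2 * Nn t γ))
    (fun β hβ => mul_nonneg (h.hb_nonneg hβ.1 hβ.2) (Real.sin_nonneg_of_mem_Icc hβ))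
    (fun β g1 g2 g3 => by
      have a1 := ker_int ht h0 h1 g1 g2 g3
      refine a1.trans (le_of_eq ?_)
      refine intervalIntegral.integral_congr fun φ _ => ?_
      simp only [hW, hk])
  have hs := h.hb_sin (m := 1) le_rfl
  simp only [Nat.cast_one, one_mul, if_true, div_one] at hs
  rw [hs] at s6
  rw [s0, s2, s3]
  have hpi := Real.pi_pos
  have e10 : 4 * (1 - (b 1).re) * Nn t γ =
      -(4 / π) * (π / 2 * (1 - (b 1).re) * -(2 * Nn t γ)) := by
    field_simp
  rw [e10]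
  refine mul_le_mul_of_nonpos_left s6 ?_
  rw [neg_nonpos]
  positivity

end Pool.Agent.H36.SZ
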