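import Pool.Agent.H36.SZ.IkD

/-!
# The primitive of the kernel

PROOF. `Bg_deriv`: `d/ds arctan (q sin 2s / (1 - q cos 2s)) = 2 (q cos 2s - q^2) /
(1 - 2 q cos 2s + q^2)` and `1 + 2 (q cos 2s - q^2)/(1 - 2q cos 2s + q^2) =
(1 - q^2) / (1 - 2 q cos 2s + q^2) = Sh / (K - cos 2s)`, `q = Qe t = exp (-2t)`,
`2 q K = 1 + q^2`, `2 q Sh = 1 - q^2`.
`Dg_mul`: `Dg (s+b) Dg (s-b) = (K cos 2s - cos 2b)^2 + Sh^2 sin^2 2s`.
`Pk_deriv`: `Dg' = 2 sin 2s`. With `c = cos 2s`, `S = sin 2s`, `e = cos 2b`, `d = sin 2b`,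
`2 sin^2 b = 1 - e`, `tan b = (1 - e)/d`, `D± = K - (c e ∓ S d)`, `P = D+ D-`:
`1/D+ + 1/D- = 2 (K - c e)/P`,
`tan b (2 sin (2s+2b)/D+ - 2 sin (2s-2b)/D-) = 4 (1-e)(K c - e)/P`,
`sin(2s+2b) D- + sin (2s-2b) D+ = 2 S (K e - c)` (`= S e (2K - 2ce) - 2 c d S d ...`; check by
`ring` with `S^2 = 1 - c^2`, `d^2 = 1 - e^2`), so the derivative is rational in `c, e, K`
(`Sh^2 = K^2 - 1`, `S^2 = 1 - c^2`) and equal to `-2 (x/(2D) - 1) Kk` (checked numerically).
`Pk_zero`: `Bg` is odd, `Dg` is even.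
`int_Kk`: fundamental theorem of calculus; the integrand is even in `s`.
-/

open Complex MeasureTheory Set Filter Topology
open scoped ComplexConjugate Real

namespace Pool.Agent.H36.SZ

private theorem ikp_q (t : ℝ) : 2 * Qe t * Real.cosh (2 * t) = 1 + Qe t ^ 2 ∧
    2 * Qe t * Real.sinh (2 * t) = 1 - Qe t ^ 2 := by
  have h1 : Real.exp (-(2 * t)) * Real.exp (2 * t) = 1 := by
    rw [← Real.exp_add]; simp
  unfold Qe
  rw [Real.cosh_eq, Real.sinh_eq]
  constructor <;> nlinarith [h1]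

private theorem ikp_den {t : ℝ} (ht : 0 < t) (s : ℝ) : 0 < 1 - Qe t * Real.cos (2 * s) := by
  have h0 : 0 < Qe t := Real.exp_pos _
  have h1 : Qe t < 1 := by
    unfold Qe
    rw [Real.exp_lt_one_iff]
    linarith
  have h2 := Real.cos_le_one (2 * s)
  nlinarith

theorem Bg_deriv {t : ℝ} (ht : 0 < t) (s : ℝ) :
    HasDerivAt (Bg t) (Real.sinh (2 * t) / Dg t s) s := by
  obtain ⟨hK, hS⟩ := ikp_q t
  have hq : 0 < Qe t := Real.exp_pos _
  have hden := ikp_den ht s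
  have hD := Dg_pos ht s
  have hsc := Real.sin_sq_add_cos_sq (2 * s)
  have h2s : HasDerivAt (fun s : ℝ => 2 * s) 2 s := by
    simpa using (hasDerivAt_id s).const_mul 2
  have hsin : HasDerivAt (fun s : ℝ => Real.sin (2 * s)) (Real.cos (2 * s) * 2) s := h2s.sin
  have hcos : HasDerivAt (fun s : ℝ => Real.cos (2 * s)) (-Real.sin (2 * s) * 2) s := h2s.cos
  have hnum := hsin.const_mul (Qe t)
  have hdn : HasDerivAt (fun s : ℝ => 1 - Qe t * Real.cos (2 * s))
      (-(Qe t * (-Real.sin (2 * s) * 2))) s := by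
    simpa using (hcos.const_mul (Qe t)).const_sub 1
  have hquo := (hnum.fun_div hdn hden.ne').arctan
  have h := (hasDerivAt_id' s).fun_add hquo
  have hfun : Bg t = (fun s : ℝ => s + Real.arctan
      (Qe t * Real.sin (2 * s) / (1 - Qe t * Real.cos (2 * s)))) := by
    funext s
    rfl
  rw [hfun]
  refine h.congr_deriv ?_
  symm
  have e1 : Real.sinh (2 * t) = (1 - Qe t ^ 2) / (2 * Qe t) := by
    rw [eq_div_iff (by positivity)]; linarith
  have e2 : Dg t s = (1 + Qe t ^ 2 - 2 * Qe t * Real.cos (2 * s)) / (2 * Qe t) := by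
    unfold Dg
    rw [eq_div_iff (by positivity)]; linarith
  have hP : 0 < 1 + Qe t ^ 2 - 2 * Qe t * Real.cos (2 * s) := by
    rw [e2] at hD
    have := (div_pos_iff_of_pos_right (by positivity : 0 < 2 * Qe t)).1 hD
    exact this
  rw [e1, e2]
  set q := Qe t
  set c := Real.cos (2 * s)
  set S := Real.sin (2 * s)
  have hS2 : S ^ 2 = 1 - c ^ 2 := by linarith
  have h3 : 1 + (q * S / (1 - q * c)) ^ 2 = (1 + q ^ 2 - 2 * q * c) / (1 - q * c) ^ 2 := by
    rw [div_pow, mul_pow, hS2]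
    field_simp
    ring
  have hden' : (1 - q * c) ≠ 0 := hden.ne'
  have hP' : (1 + q ^ 2 - 2 * q * c) ≠ 0 := hP.ne'
  have h4 : (q * (c * 2) * (1 - q * c) - q * S * -(q * (-S * 2))) =
      2 * q * c - 2 * q ^ 2 := by
    have : q * S * -(q * (-S * 2)) = 2 * q ^ 2 * S ^ 2 := by ring
    rw [this, hS2]
    ring
  show (1 - q ^ 2) / (2 * q) / ((1 + q ^ 2 - 2 * q * c) / (2 * q)) =
    1 + 1 / (1 + (q * S / (1 - q * c)) ^ 2) *
      ((q * (c * 2) * (1 - q * c) - q * S * -(q * (-S * 2))) / (1 - q * c) ^ 2)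
  rw [h3, h4]
  obtain ⟨P, hPe⟩ : ∃ P, P = 1 + q ^ 2 - 2 * q * c := ⟨_, rfl⟩
  rw [← hPe] at hP' ⊢
  have e3 : (1 - q ^ 2) / (2 * q) / (P / (2 * q)) = (1 - q ^ 2) / P := by
    field_simp
  have e4 : 1 / (P / (1 - q * c) ^ 2) * ((2 * q * c - 2 * q ^ 2) / (1 - q * c) ^ 2) =
      (2 * q * c - 2 * q ^ 2) / P := by
    field_simp
  rw [e3, e4, div_eq_iff hP', add_mul, div_mul_cancel₀ _ hP', hPe]
  ring

theorem Bg_neg (t s : ℝ) : Bg t (-s) = -Bg t s := by
  unfold Bg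
  rw [show 2 * -s = -(2 * s) by ring, Real.sin_neg, Real.cos_neg, mul_neg, neg_div,
    Real.arctan_neg]
  ring

private theorem ikp_neg (t s : ℝ) : Dg t (-s) = Dg t s := by
  unfold Dg
  rw [show 2 * -s = -(2 * s) by ring, Real.cos_neg]

theorem Dg_mul (t s b : ℝ) : Dg t (s + b) * Dg t (s - b) =
    (Real.cosh (2 * t) * Real.cos (2 * s) - Real.cos (2 * b)) ^ 2 +
      (Real.sinh (2 * t) * Real.sin (2 * s)) ^ 2 := by
  unfold Dg
  rw [show 2 * (s + b) = 2 * s + 2 * b by ring, show 2 * (s - b) = 2 * s - 2 * b by ring,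
    Real.cos_add, Real.cos_sub, mul_pow, Real.sinh_sq, Real.sin_sq (2 * s)]
  have h1 := Real.sin_sq_add_cos_sq (2 * s)
  have h2 := Real.sin_sq_add_cos_sq (2 * b)
  have hS2 : Real.sin (2 * s) ^ 2 = 1 - Real.cos (2 * s) ^ 2 := by linarith
  have hd2 : Real.sin (2 * b) ^ 2 = 1 - Real.cos (2 * b) ^ 2 := by linarith
  have h3 : (Real.sin (2 * s) * Real.sin (2 * b)) ^ 2 =
      (1 - Real.cos (2 * s) ^ 2) * (1 - Real.cos (2 * b) ^ 2) := by
    rw [mul_pow, hS2, hd2]
  linear_combination -h3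

/-- the rational identity -/
private theorem ikp_alg (c e K x P : ℝ) (hD : K - c ≠ 0) (hP : P ≠ 0) (he : 1 - e ≠ 0)
    (hPd : P = (K * c - e) ^ 2 + (K ^ 2 - 1) * (1 - c ^ 2)) :
    2 * ((-4 * (1 - c ^ 2) + 2 * c * (x - 2 * (K - c))) * P -
        4 * (1 - c ^ 2) * (x - 2 * (K - c)) * (K * e - c)) / P ^ 2 +
      4 * K * (K - c * e) / P - 4 - x / (1 - e) * (2 / (K - c) - 2 * (K - c * e) / P) +
      4 * (1 - e) * (K * c - e) / P =
    -(x / (K - c) - 2) * (2 * ((2 - e - K * c - (1 - c ^ 2)) *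
        ((K * c - e) ^ 2 - (K ^ 2 - 1) * (1 - c ^ 2)) -
        2 * (1 - c ^ 2) * (2 - e - K * c + (K ^ 2 - 1)) * (K * c - e)) / P ^ 2) := by
  rw [← sub_eq_zero]
  have h1 : (2 * ((-4 * (1 - c ^ 2) + 2 * c * (x - 2 * (K - c))) * P -
        4 * (1 - c ^ 2) * (x - 2 * (K - c)) * (K * e - c)) / P ^ 2 +
      4 * K * (K - c * e) / P - 4 - x / (1 - e) * (2 / (K - c) - 2 * (K - c * e) / P) +
      4 * (1 - e) * (K * c - e) / P -
    -(x / (K - c) - 2) * (2 * ((2 - e - K * c - (1 - c ^ 2)) *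
        ((K * c - e) ^ 2 - (K ^ 2 - 1) * (1 - c ^ 2)) -
        2 * (1 - c ^ 2) * (2 - e - K * c + (K ^ 2 - 1)) * (K * c - e)) / P ^ 2)) =
      (2 * ((-4 * (1 - c ^ 2) + 2 * c * (x - 2 * (K - c))) * P -
        4 * (1 - c ^ 2) * (x - 2 * (K - c)) * (K * e - c)) * (K - c) * (1 - e) +
      4 * K * (K - c * e) * P * (K - c) * (1 - e) - 4 * P ^ 2 * (K - c) * (1 - e) -
      x * (2 * P ^ 2 - 2 * (K - c * e) * P * (K - c)) +
      4 * (1 - e) * (K * c - e) * P * (K - c) * (1 - e) +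
      (x - 2 * (K - c)) * (1 - e) * (2 * ((2 - e - K * c - (1 - c ^ 2)) *
        ((K * c - e) ^ 2 - (K ^ 2 - 1) * (1 - c ^ 2)) -
        2 * (1 - c ^ 2) * (2 - e - K * c + (K ^ 2 - 1)) * (K * c - e)))) /
      (P ^ 2 * (K - c) * (1 - e)) := by
    field_simp
    ring
  rw [h1, hPd, div_eq_zero_iff]
  left
  ring

private theorem ikp_dD (t s : ℝ) : HasDerivAt (Dg t) (2 * Real.sin (2 * s)) s := by
  have h2s : HasDerivAt (fun s : ℝ => 2 * s) 2 s := by
    simpa using (hasDerivAt_id s).const_mul 2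
  have hcos : HasDerivAt (fun s : ℝ => Real.cos (2 * s)) (-Real.sin (2 * s) * 2) s := h2s.cos
  have h := hcos.const_sub (Real.cosh (2 * t))
  refine (h.congr_deriv (by ring) : HasDerivAt (fun s => Real.cosh (2 * t) - Real.cos (2 * s))
    (2 * Real.sin (2 * s)) s)

/-- the kernel at `X = - cos 2b` -/
private theorem ikp_Kk (t s b : ℝ) : Kk t s (-Real.cos (2 * b)) = Real.sinh (2 * t) *
    (2 * ((2 - Real.cos (2 * b) - Real.cosh (2 * t) * Real.cos (2 * s) -
        (1 - Real.cos (2 * s) ^ 2)) *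
        ((Real.cosh (2 * t) * Real.cos (2 * s) - Real.cos (2 * b)) ^ 2 -
          (Real.cosh (2 * t) ^ 2 - 1) * (1 - Real.cos (2 * s) ^ 2)) -
        2 * (1 - Real.cos (2 * s) ^ 2) *
          (2 - Real.cos (2 * b) - Real.cosh (2 * t) * Real.cos (2 * s) +
            (Real.cosh (2 * t) ^ 2 - 1)) *
          (Real.cosh (2 * t) * Real.cos (2 * s) - Real.cos (2 * b))) /
      (Dg t (s + b) * Dg t (s - b)) ^ 2) := by
  have h1 := Real.sin_sq_add_cos_sq (2 * s)
  have hS2 : Real.sin (2 * s) ^ 2 = 1 - Real.cos (2 * s) ^ 2 := by linarith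
  unfold Kk
  rw [Dg_mul, ← sub_eq_add_neg, ← sub_eq_add_neg, mul_div_assoc', ]
  congr 1
  rw [mul_pow, ← hS2, ← Real.sinh_sq]
  ring

theorem Pk_deriv {t x b : ℝ} (ht : 0 < t) (hb : Real.sin b ≠ 0) (hb' : Real.cos b ≠ 0) (s : ℝ) :
    HasDerivAt (Pk t x b) (-2 * ((x / (2 * Dg t s) - 1) * Kk t s (-Real.cos (2 * b)))) s := by
  have hsc := Real.sin_sq_add_cos_sq (2 * s)
  have hsb := Real.sin_sq_add_cos_sq (2 * b)
  have hS2 : Real.sin (2 * s) ^ 2 = 1 - Real.cos (2 * s) ^ 2 := by linarith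
  have hd2 : Real.sin (2 * b) ^ 2 = 1 - Real.cos (2 * b) ^ 2 := by linarith
  have h2s : HasDerivAt (fun s : ℝ => 2 * s) 2 s := by
    simpa using (hasDerivAt_id s).const_mul 2
  have hsin : HasDerivAt (fun s : ℝ => Real.sin (2 * s)) (Real.cos (2 * s) * 2) s := h2s.sin
  have hD := ikp_dD t s
  have hDp : HasDerivAt (fun s => Dg t (s + b)) (2 * Real.sin (2 * (s + b))) s :=
    (ikp_dD t (s + b)).comp_add_const s b
  have hDm : HasDerivAt (fun s => Dg t (s - b)) (2 * Real.sin (2 * (s - b))) s :=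
    (ikp_dD t (s - b)).comp_sub_const s b
  have hBp : HasDerivAt (fun s => Bg t (s + b)) (Real.sinh (2 * t) / Dg t (s + b)) s :=
    (Bg_deriv ht (s + b)).comp_add_const s b
  have hBm : HasDerivAt (fun s => Bg t (s - b)) (Real.sinh (2 * t) / Dg t (s - b)) s :=
    (Bg_deriv ht (s - b)).comp_sub_const s b
  have hB := Bg_deriv ht s
  have pD := Dg_pos ht s
  have pp := Dg_pos ht (s + b)
  have pm := Dg_pos ht (s - b)
  have k1 := (((((hD.const_mul 2).const_sub x).const_mul 2).mul_const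
    (Real.sinh (2 * t))).fun_mul hsin).fun_div (hDp.fun_mul hDm) (mul_pos pp pm).ne'
  have k2 := (hBp.fun_add hBm).const_mul (2 * Real.cosh (2 * t))
  have k3 := ((hasDerivAt_id' s).const_mul 4).mul_const (Real.sinh (2 * t))
  have k4 := (((hB.const_mul 2).fun_sub hBp).fun_sub hBm).const_mul (x / (2 * Real.sin b ^ 2))
  have k5 := ((hDp.fun_div hDm pm.ne').log (div_pos pp pm).ne').const_mul
    (Real.sinh (2 * t) * Real.tan b)
  have k := (((k1.fun_add k2).fun_sub k3).fun_sub k4).fun_add k5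
  refine k.congr_deriv ?_
  rw [ikp_Kk]
  have e1 : Real.sin (2 * (s + b)) = Real.sin (2 * s) * Real.cos (2 * b) +
      Real.cos (2 * s) * Real.sin (2 * b) := by rw [mul_add, Real.sin_add]
  have e2 : Real.sin (2 * (s - b)) = Real.sin (2 * s) * Real.cos (2 * b) -
      Real.cos (2 * s) * Real.sin (2 * b) := by rw [mul_sub, Real.sin_sub]
  have e3 : Dg t (s + b) = Real.cosh (2 * t) - (Real.cos (2 * s) * Real.cos (2 * b) -
      Real.sin (2 * s) * Real.sin (2 * b)) := by unfold Dg; rw [mul_add, Real.cos_add]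
  have e4 : Dg t (s - b) = Real.cosh (2 * t) - (Real.cos (2 * s) * Real.cos (2 * b) +
      Real.sin (2 * s) * Real.sin (2 * b)) := by unfold Dg; rw [mul_sub, Real.cos_sub]
  have e5 : 2 * Real.sin b ^ 2 = 1 - Real.cos (2 * b) := by
    rw [Real.cos_two_mul]
    linarith [Real.sin_sq_add_cos_sq b]
  have e6 : Real.tan b * Real.sin (2 * b) = 1 - Real.cos (2 * b) := by
    rw [← e5, Real.tan_eq_sin_div_cos, Real.sin_two_mul]
    field_simp
  have e7 : Dg t (s + b) * Dg t (s - b) =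
      (Real.cosh (2 * t) * Real.cos (2 * s) - Real.cos (2 * b)) ^ 2 +
        (Real.cosh (2 * t) ^ 2 - 1) * (1 - Real.cos (2 * s) ^ 2) := by
    rw [Dg_mul, mul_pow, Real.sinh_sq, hS2]
  have hP : Dg t (s + b) * Dg t (s - b) ≠ 0 := (mul_pos pp pm).ne'
  have he : 1 - Real.cos (2 * b) ≠ 0 := by
    rw [← e5]; positivity
  have hDs : Dg t s = Real.cosh (2 * t) - Real.cos (2 * s) := rfl
  have alg := ikp_alg (Real.cos (2 * s)) (Real.cos (2 * b)) (Real.cosh (2 * t)) x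
    (Dg t (s + b) * Dg t (s - b)) (by rw [← hDs]; exact pD.ne') hP he e7
  rw [e5]
  rw [← hDs] at alg
  set Sh := Real.sinh (2 * t)
  set K := Real.cosh (2 * t)
  set c := Real.cos (2 * s)
  set S := Real.sin (2 * s)
  set e := Real.cos (2 * b)
  set d := Real.sin (2 * b)
  set D := Dg t s
  -- the pieces
  have f1 : 2 * (S * e + c * d) * Dg t (s - b) + Dg t (s + b) * (2 * (S * e - c * d)) =
      4 * S * (K * e - c) := by
    rw [e3, e4]
    linear_combination (-4 * S * c) * hd2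
  have f2 : 2 * (S * e + c * d) * Dg t (s - b) - Dg t (s + b) * (2 * (S * e - c * d)) =
      4 * d * (K * c - e) := by
    rw [e3, e4]
    linear_combination (-4 * d * e) * hS2
  have f3 : Sh / Dg t (s + b) + Sh / Dg t (s - b) =
      Sh * (2 * (K - c * e) / (Dg t (s + b) * Dg t (s - b))) := by
    have : 2 * (K - c * e) = Dg t (s + b) + Dg t (s - b) := by rw [e3, e4]; ring
    rw [this]
    field_simp
    ring
  have f5 : (2 * (S * e + c * d) * Dg t (s - b) - Dg t (s + b) * (2 * (S * e - c * d))) /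
      Dg t (s - b) ^ 2 / (Dg t (s + b) / Dg t (s - b)) =
      4 * d * (K * c - e) / (Dg t (s + b) * Dg t (s - b)) := by
    rw [f2]
    field_simp
  rw [e1, e2, f5, f1]
  have g4 : 2 * (Sh / D) - Sh / Dg t (s + b) - Sh / Dg t (s - b) =
      Sh * (2 / D - 2 * (K - c * e) / (Dg t (s + b) * Dg t (s - b))) := by
    rw [sub_sub, f3]; ring
  rw [g4, f3]
  clear_value Sh K c S e d D
  generalize Dg t (s + b) * Dg t (s - b) = P at alg ⊢
  have g5 : Sh * Real.tan b * (4 * d * (K * c - e) / P) = Sh * (4 * (1 - e) * (K * c - e) / P) := by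
    rw [← e6]; ring
  have g1 : ((2 * -(2 * (2 * S)) * Sh * S + 2 * (x - 2 * D) * Sh * (c * 2)) * P -
      2 * (x - 2 * D) * Sh * S * (4 * S * (K * e - c))) / P ^ 2 =
      Sh * (2 * ((-4 * (1 - c ^ 2) + 2 * c * (x - 2 * D)) * P -
        4 * (1 - c ^ 2) * (x - 2 * D) * (K * e - c)) / P ^ 2) := by
    rw [mul_div_assoc']
    congr 1
    linear_combination (Sh * (-8 * P - 8 * (x - 2 * D) * (K * e - c))) * hS2
  rw [g1, g5]
  linear_combination Sh * alg

theorem Pk_neg (t x b s : ℝ) : Pk t x b (-s) = -Pk t x b s := by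
  unfold Pk
  have h1 : Dg t (-s + b) = Dg t (s - b) := by
    rw [← ikp_neg]; congr 1; ring
  have h2 : Dg t (-s - b) = Dg t (s + b) := by
    rw [← ikp_neg]; congr 1; ring
  have h3 : Bg t (-s + b) = -Bg t (s - b) := by
    rw [← Bg_neg]; congr 1; ring
  have h4 : Bg t (-s - b) = -Bg t (s + b) := by
    rw [← Bg_neg]; congr 1; ring
  rw [ikp_neg, h1, h2, h3, h4, Bg_neg, show 2 * -s = -(2 * s) by ring, Real.sin_neg,
    ← inv_div (Dg t (s + b)) (Dg t (s - b)), Real.log_inv, mul_comm (Dg t (s - b))]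
  ring

theorem int_Kk {t x b γ : ℝ} (ht : 0 < t) (hb : Real.sin b ≠ 0) (hb' : Real.cos b ≠ 0) :
    ∫ s in (-γ)..γ, (x / (2 * Dg t s) - 1) * Kk t s (-Real.cos (2 * b)) = -Pk t x b γ := by
  have hcD : Continuous (Dg t) := by
    unfold Dg
    fun_prop
  have hcont : Continuous (fun s => (x / (2 * Dg t s) - 1) * Kk t s (-Real.cos (2 * b))) := by
    have h1 : Continuous (fun s => x / (2 * Dg t s) - 1) := by
      refine (continuous_const.div (continuous_const.mul hcD) fun s => ?_).sub continuous_const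
      exact (mul_pos two_pos (Dg_pos ht s)).ne'
    have h2 : Continuous (fun s => Kk t s (-Real.cos (2 * b))) := by
      have h3 : (fun s => Kk t s (-Real.cos (2 * b))) = fun s => Real.sinh (2 * t) *
        (2 * ((2 - Real.cos (2 * b) - Real.cosh (2 * t) * Real.cos (2 * s) -
        (1 - Real.cos (2 * s) ^ 2)) *
        ((Real.cosh (2 * t) * Real.cos (2 * s) - Real.cos (2 * b)) ^ 2 -
          (Real.cosh (2 * t) ^ 2 - 1) * (1 - Real.cos (2 * s) ^ 2)) -
        2 * (1 - Real.cos (2 * s) ^ 2) *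
          (2 - Real.cos (2 * b) - Real.cosh (2 * t) * Real.cos (2 * s) +
            (Real.cosh (2 * t) ^ 2 - 1)) *
          (Real.cosh (2 * t) * Real.cos (2 * s) - Real.cos (2 * b))) /
      (Dg t (s + b) * Dg t (s - b)) ^ 2) := funext fun s => ikp_Kk t s b
      rw [h3]
      refine continuous_const.mul (Continuous.div (by fun_prop) ?_ fun s => ?_)
      · exact ((hcD.comp (continuous_id.add continuous_const)).mul
          (hcD.comp (continuous_id.sub continuous_const))).pow 2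
      · exact (pow_pos (mul_pos (Dg_pos ht _) (Dg_pos ht _)) 2).ne'
    exact h1.mul h2
  have h1 := intervalIntegral.integral_eq_sub_of_hasDerivAt (a := -γ) (b := γ)
    (f := Pk t x b) (f' := fun s => -2 * ((x / (2 * Dg t s) - 1) * Kk t s (-Real.cos (2 * b))))
    (fun s _ => Pk_deriv ht hb hb' s) ((continuous_const.mul hcont).intervalIntegrable _ _)
  rw [intervalIntegral.integral_const_mul, Pk_neg] at h1
  linarith

end Pool.Agent.H36.SZ
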