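import Pool.Agent.H36.SZ.Reg
import Pool.Agent.H36.SZ.Bas

/-!
# The function `z + 1/z`

PROOFS. `G J t θ = e^(t+iθ) + e^(-t-iθ) = 2 cosh t cos θ + 2 i sinh t sin θ`, so
`yy J t θ = 4 sinh^2 t + 4 cos^2 θ`; `deriv J z = 1 - z^-2`,
`G1 J t θ = e^(t+iθ) - e^(-t-iθ) = 2 sinh t cos θ + 2 i cosh t sin θ`, so
`jr J t θ = 4 sinh t cosh t (cos^2 θ + sin^2 θ) = 2 sinh 2t`.
`ZA_J0`: `jr J 0 θ = 0`. `int_yyJ`: `int 4 cos^2 = 4 π`.
`int_logJ`: for `t > 0`, `|J| = e^t |1 + u^2|`, `u = exp (-(t + iθ))`, `|u| < 1`; the mean over the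
circle of `log |1 + u^2|` is `log 1 = 0` (`AnalyticOnNhd.circleAverage_log_norm_of_ne_zero` for
`f u = 1 + u^2` on the closed disc of radius `e^(-t) < 1`, where it has no zeros; the circle is
parametrised by `θ -> e^(-t) exp (iθ)`, substitute `θ -> -θ` and shift to `(-π, π)` by
periodicity).
-/

open Complex MeasureTheory Set Filter Topology
open scoped ComplexConjugate Real

namespace Pool.Agent.H36.SZ

private theorem exp_eq' (t θ : ℝ) : Complex.exp (t + θ * I) =
    ((Real.exp t : ℝ) : ℂ) * ((Real.cos θ : ℝ) + (Real.sin θ : ℝ) * I) := by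
  rw [Complex.exp_add, Complex.exp_mul_I, Complex.ofReal_exp, Complex.ofReal_cos,
    Complex.ofReal_sin]

private theorem exp_eq'' (t θ : ℝ) : (Complex.exp (t + θ * I))⁻¹ =
    ((Real.exp (-t) : ℝ) : ℂ) * ((Real.cos θ : ℝ) - (Real.sin θ : ℝ) * I) := by
  rw [← Complex.exp_neg, show -((t : ℂ) + θ * I) = ((-t : ℝ) : ℂ) + ((-θ : ℝ) : ℂ) * I by
    push_cast; ring, exp_eq', Real.cos_neg, Real.sin_neg]
  push_cast; ring

theorem G_J (t θ : ℝ) : G J t θ = 2 * Real.cosh t * Real.cos θ + 2 * Real.sinh t * Real.sin θ * I := by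
  unfold G J
  rw [exp_eq'', exp_eq', Real.cosh_eq, Real.sinh_eq]
  push_cast; ring

private theorem deriv_J {z : ℂ} (hz : z ≠ 0) : deriv J z = 1 - (z ^ 2)⁻¹ := by
  have h : HasDerivAt J (1 + -(z ^ 2)⁻¹) z := by
    unfold J
    exact (hasDerivAt_id z).add (hasDerivAt_inv hz)
  rw [h.deriv]; ring

theorem G1_J (t θ : ℝ) :
    G1 J t θ = 2 * Real.sinh t * Real.cos θ + 2 * Real.cosh t * Real.sin θ * I := by
  unfold G1
  have hz : Complex.exp (t + θ * I) ≠ 0 := Complex.exp_ne_zero _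
  rw [deriv_J hz]
  have e : Complex.exp (t + θ * I) * (1 - (Complex.exp (t + θ * I) ^ 2)⁻¹) =
      Complex.exp (t + θ * I) - (Complex.exp (t + θ * I))⁻¹ := by
    field_simp
  rw [e, exp_eq'', exp_eq', Real.cosh_eq, Real.sinh_eq]
  push_cast; ring

theorem yy_J (t θ : ℝ) : yy J t θ = 4 * Real.sinh t ^ 2 + 4 * Real.cos θ ^ 2 := by
  unfold yy
  rw [G_J, ← Complex.normSq_eq_norm_sq, show (2 * (Real.cosh t : ℂ) * (Real.cos θ : ℂ) +
    2 * (Real.sinh t : ℂ) * (Real.sin θ : ℂ) * I) =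
    ((2 * Real.cosh t * Real.cos θ : ℝ) : ℂ) + ((2 * Real.sinh t * Real.sin θ : ℝ) : ℂ) * I by
    push_cast; ring, Complex.normSq_add_mul_I]
  have h1 := Real.cosh_sq t
  have h2 := Real.sin_sq θ
  rw [mul_pow, mul_pow, mul_pow, mul_pow, h1, h2]; ring

theorem jr_J (t θ : ℝ) : jr J t θ = 2 * Real.sinh (2 * t) := by
  unfold jr
  rw [G_J, G1_J]
  have e1 : (2 * (Real.cosh t : ℂ) * (Real.cos θ : ℂ) +
    2 * (Real.sinh t : ℂ) * (Real.sin θ : ℂ) * I) =
    ((2 * Real.cosh t * Real.cos θ : ℝ) : ℂ) + ((2 * Real.sinh t * Real.sin θ : ℝ) : ℂ) * I := by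
    push_cast; ring
  have e2 : (2 * (Real.sinh t : ℂ) * (Real.cos θ : ℂ) +
    2 * (Real.cosh t : ℂ) * (Real.sin θ : ℂ) * I) =
    ((2 * Real.sinh t * Real.cos θ : ℝ) : ℂ) + ((2 * Real.cosh t * Real.sin θ : ℝ) : ℂ) * I := by
    push_cast; ring
  rw [e1, e2, Complex.mul_re]
  simp only [map_add, map_mul, Complex.conj_ofReal, Complex.conj_I, Complex.add_re,
    Complex.add_im, Complex.mul_re, Complex.mul_im, Complex.ofReal_re, Complex.ofReal_im,
    Complex.I_re, Complex.I_im, Complex.neg_re, Complex.neg_im]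
  rw [Real.sinh_two_mul]
  have h2 := Real.sin_sq_add_cos_sq θ
  linear_combination (4 * Real.sinh t * Real.cosh t) * h2

theorem yy_J_le (t θ : ℝ) : yy J t θ ≤ 4 * Real.cosh t ^ 2 := by
  rw [yy_J, Real.cosh_sq]
  nlinarith [Real.cos_sq_le_one θ]

theorem le_yy_J (t θ : ℝ) : 4 * Real.sinh t ^ 2 ≤ yy J t θ := by
  rw [yy_J]
  nlinarith [sq_nonneg (Real.cos θ)]

theorem ZA_J0 (x : ℝ) : ZA J 0 x = 0 := by
  unfold ZA
  simp [jr_J]

theorem int_yyJ (t : ℝ) : ∫ θ in (-π)..π, yy J t θ = 2 * π * (2 * Real.cosh (2 * t)) := by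
  simp only [yy_J]
  rw [intervalIntegral.integral_add (Continuous.intervalIntegrable (by fun_prop) _ _)
    (Continuous.intervalIntegrable (by fun_prop) _ _),
    intervalIntegral.integral_const, intervalIntegral.integral_const_mul, integral_cos_sq]
  rw [Real.cosh_two_mul, Real.cosh_sq]
  simp only [smul_eq_mul, Real.sin_neg, Real.cos_neg, Real.sin_pi]
  ring

theorem int_logJ {t : ℝ} (ht : 0 < t) : ∫ θ in (-π)..π, Real.log (yy J t θ) = 4 * π * t := by
  have hR : Real.exp (-t) < 1 := by rw [Real.exp_lt_one_iff]; linarith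
  have hR0 : 0 < Real.exp (-t) := Real.exp_pos _
  -- no zeros
  have hne : ∀ u ∈ Metric.closedBall (0 : ℂ) |Real.exp (-t)|, (fun u : ℂ => 1 + u ^ 2) u ≠ 0 := by
    intro u hu h0
    rw [Metric.mem_closedBall, dist_zero_right, abs_of_pos hR0] at hu
    have h1 : u ^ 2 = -1 := by linear_combination h0
    have h2 : ‖u‖ ^ 2 = 1 := by rw [← norm_pow, h1]; simp
    nlinarith [norm_nonneg u]
  have han : AnalyticOnNhd ℂ (fun u : ℂ => 1 + u ^ 2) (Metric.closedBall 0 |Real.exp (-t)|) := by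
    intro u _
    fun_prop
  have hav := han.circleAverage_log_norm_of_ne_zero hne
  rw [Real.circleAverage_def] at hav
  simp only [smul_eq_mul] at hav
  have hpi : (2 * π)⁻¹ ≠ 0 := by positivity
  have hz : ∫ θ in 0..2 * π, Real.log ‖1 + (circleMap 0 (Real.exp (-t)) θ) ^ 2‖ = 0 := by
    have : (2 * π)⁻¹ * ∫ θ in 0..2 * π, Real.log ‖1 + (circleMap 0 (Real.exp (-t)) θ) ^ 2‖ = 0 := by
      rw [hav]; simp
    exact (mul_eq_zero.mp this).resolve_left hpi
  have key : ∀ θ : ℝ, Real.log (yy J t θ) = 2 * t +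
      2 * Real.log ‖1 + (circleMap 0 (Real.exp (-t)) θ) ^ 2‖ := by
    intro θ
    have hc : circleMap 0 (Real.exp (-t)) θ = conj ((Complex.exp (t + θ * I))⁻¹) := by
      rw [exp_eq'', circleMap, Complex.exp_mul_I, ← Complex.ofReal_cos, ← Complex.ofReal_sin]
      simp only [map_mul, map_sub, Complex.conj_ofReal, Complex.conj_I, zero_add]
      ring
    have hn : ‖1 + (circleMap 0 (Real.exp (-t)) θ) ^ 2‖ = ‖1 + ((Complex.exp (t + θ * I))⁻¹) ^ 2‖ := by
      rw [hc]
      rw [← Complex.norm_conj (1 + ((Complex.exp (t + θ * I))⁻¹) ^ 2)]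
      simp only [map_add, map_one, map_pow]
    have hG : G J t θ = Complex.exp (t + θ * I) * (1 + ((Complex.exp (t + θ * I))⁻¹) ^ 2) := by
      unfold G J
      have := Complex.exp_ne_zero ((t : ℂ) + θ * I)
      field_simp
    have hnz : ‖1 + ((Complex.exp (t + θ * I))⁻¹) ^ 2‖ ≠ 0 := by
      rw [← hn]
      refine norm_ne_zero_iff.mpr (hne _ ?_)
      rw [Metric.mem_closedBall, dist_zero_right]
      simp
    unfold yy
    rw [hG, norm_mul, hn, Complex.norm_exp, Real.log_pow, Real.log_mul (by positivity) hnz,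
      Real.log_exp]
    simp
    ring
  have hper : Function.Periodic (fun θ : ℝ => Real.log (yy J t θ)) (2 * π) := by
    intro θ
    simp only [yy_J, Real.cos_add_two_pi]
  have e1 : ∫ θ in (-π)..π, Real.log (yy J t θ) = ∫ θ in 0..2 * π, Real.log (yy J t θ) := by
    have := hper.intervalIntegral_add_eq (-π) 0
    rw [show -π + 2 * π = π by ring, zero_add] at this
    exact this
  rw [e1]
  simp only [key]
  have hii : IntervalIntegrable (fun θ : ℝ => Real.log ‖1 + (circleMap 0 (Real.exp (-t)) θ) ^ 2‖)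
      volume 0 (2 * π) := by
    apply Continuous.intervalIntegrable
    refine Continuous.log (by fun_prop) ?_
    intro θ
    refine norm_ne_zero_iff.mpr (hne _ ?_)
    rw [Metric.mem_closedBall, dist_zero_right]
    simp
  rw [intervalIntegral.integral_add (by simp) (hii.const_mul 2),
    intervalIntegral.integral_const, intervalIntegral.integral_const_mul, hz]
  simp only [smul_eq_mul]
  ring

end Pool.Agent.H36.SZ
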