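import Pool.Agent.H36.SZ.JF
import Pool.Agent.H36.SZ.Phl
import Pool.Agent.H15.Sig.Even2

/-!
# Mean of `|F|^2` and of `log |F|^2`, and the low levels `x <= 4 sinh^2 t`

PROOFS. Let `Fq z = F (q z) / q` (`Sg.sig`, `p = q`), an `IsSig` with coefficients
`bq n = b n / q^(n+1)`, and for `t >= 0` put `x0 = q e^(-t) < 1`.
`int_yy_le`: `|G F t θ| = q |Fq (x0^-1 e^(iθ))|`, `IsSig.norm_circle` and `IsSig.moment_two` give
`int |G|^2 <= q^2 x0^(-2) 2π (1 + x0^4) = 2π (e^(2t) + q^4 e^(-2t)) <= 2π (2 cosh 2t)`;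
then `int_yyJ`.
`zero_pt`: `F` is injective, so `yy F t θ = 0` for at most one `θ` in `Ioc (-π) π`; null set.
`jen`: `F z = z S (1/z)` for `q < ‖z‖`, `S u = 1 + u pw b u`, analytic in `|u| < 1/q` (for
`Fq`: `1 + u pw bq u` in `|u| < 1`, radius `x0 < 1` for `Fq`: use `IsSig.eq_inv`,
`IsSig.diffOn_pw`; then `|G F t θ| = e^t |1 + v pw bq v|`, `|v| = x0`), and `S 0 = 1 ≠ 0`, so by
`AnalyticOnNhd.circleAverage_log_norm` (Jensen's formula; every term of the sum over the zeros in
the closed disc of radius `R` is `>= 0`: divisor of an analytic function `>= 0` and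
`log (R / |u|) >= 0` for `|u| <= R`) the circle average of `log |S|` is `>= 0`;
`log (|G|^2) = 2 t + 2 log |S|` where `G ≠ 0`. Integrability: `circleIntegrable_log_norm` for
meromorphic functions (`MeromorphicOn.circleIntegrable_log_norm`).
`lo`: `x = 0`: `Ph_zero` and `int_yy_le`. `x > 0` (so `t > 0`): for almost every `θ`,
`Ph x (yy F) <= yy F - x - x log (yy F / x)` (`Ph_tilde` with `z = y`), and
`Ph x (yy J) = yy J - x - x log (yy J / x)` for every `θ` because `x <= 4 sinh^2 t <= yy J`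
(`Ph_of_ge`). Integrate, `log (y/x) = log y - log x`: the difference is
`int (yy F - yy J) - x (int log yy F - int log yy J) <= 0` by `int_yy_le`, `jen`, `int_logJ`.
-/

open Complex MeasureTheory Set Filter Topology
open scoped ComplexConjugate Real

namespace Pool.Agent.H36.SZ

open Pool.Agent.H15.Sig

variable {F : ℂ → ℂ} {b : ℕ → ℂ} {q : ℝ}

/-- the coefficients of the dilated function -/
private noncomputable def cq (b : ℕ → ℂ) (q : ℝ) (n : ℕ) : ℂ := b n * ((q : ℂ)⁻¹) ^ (n + 1)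

/-- the function `1 + u (b_0 + b_1 u + ...)` of the dilated function -/
private noncomputable def Sq (b : ℕ → ℂ) (q : ℝ) (u : ℂ) : ℂ := 1 + u * pw (cq b q) u

private theorem sgq (h : Sg F b q) : IsSig (fun z => F (q * z) / q) (cq b q) := h.sig le_rfl

private theorem x0_pos (h : Sg F b q) (t : ℝ) : 0 < q * Real.exp (-t) :=
  mul_pos h.q0 (Real.exp_pos _)

private theorem x0_lt (h : Sg F b q) {t : ℝ} (ht : 0 ≤ t) : q * Real.exp (-t) < 1 := by
  have h1 : Real.exp (-t) ≤ 1 := Real.exp_le_one_iff.2 (by linarith)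
  calc q * Real.exp (-t) ≤ q * 1 := mul_le_mul_of_nonneg_left h1 h.q0.le
    _ < 1 := by rw [mul_one]; exact h.q1

private theorem q_lt (h : Sg F b q) {t : ℝ} (ht : 0 ≤ t) : q < Real.exp t :=
  lt_of_lt_of_le h.q1 (Real.one_le_exp ht)

private theorem normG (h : Sg F b q) {t : ℝ} (ht : 0 ≤ t) (θ : ℝ) :
    ‖G F t θ‖ = Real.exp t * ‖Sq b q (((q * Real.exp (-t) : ℝ) : ℂ) * ec θ)‖ := by
  have hq0 := h.q0
  have hx0 := x0_pos h t
  have h1 := (sgq h).norm_circle hx0 (x0_lt h ht) θ
  have e1 : (q : ℂ) * ((((q * Real.exp (-t))⁻¹ : ℝ) : ℂ) * exp (θ * I)) = exp (t + θ * I) := by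
    rw [← mul_assoc, ← ofReal_mul]
    have e2 : q * (q * Real.exp (-t))⁻¹ = Real.exp t := by
      rw [mul_inv, ← mul_assoc, mul_inv_cancel₀ hq0.ne', one_mul, Real.exp_neg, inv_inv]
    rw [e2, ofReal_exp, ← Complex.exp_add]
  rw [e1, norm_div, norm_real, Real.norm_of_nonneg hq0.le] at h1
  rw [div_eq_iff hq0.ne'] at h1
  unfold G Sq
  rw [h1]
  have e3 : (q * Real.exp (-t))⁻¹ * q = Real.exp t := by
    rw [mul_inv, mul_comm q⁻¹, mul_assoc, inv_mul_cancel₀ hq0.ne', mul_one, Real.exp_neg, inv_inv]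
  rw [mul_right_comm, e3]

private theorem yyS (h : Sg F b q) {t : ℝ} (ht : 0 ≤ t) (θ : ℝ) :
    yy F t θ = Real.exp t ^ 2 * ‖Sq b q (((q * Real.exp (-t) : ℝ) : ℂ) * ec θ)‖ ^ 2 := by
  unfold yy
  rw [normG h ht, mul_pow]

private theorem cyy (h : Sg F b q) {t : ℝ} (ht : 0 ≤ t) : Continuous (yy F t) := by
  have h1 := h.an.cGt (q_lt h ht)
  exact (h1.norm).pow 2

theorem Sg.int_yy_le (h : Sg F b q) {t : ℝ} (ht : 0 ≤ t) :
    ∫ θ in (-π)..π, yy F t θ ≤ ∫ θ in (-π)..π, yy J t θ := by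
  rw [int_yyJ]
  have h1 : ∫ θ in (-π)..π, yy F t θ = Real.exp t ^ 2 *
      ∫ θ in (-π)..π, ‖(1 + (((q * Real.exp (-t) : ℝ) : ℂ) * ec θ) *
        pw (cq b q) (((q * Real.exp (-t) : ℝ) : ℂ) * ec θ)) ^ 1‖ ^ 2 := by
    rw [← intervalIntegral.integral_const_mul]
    refine intervalIntegral.integral_congr fun θ _ => ?_
    rw [yyS h ht, pow_one]
    rfl
  rw [h1]
  have h2 := (sgq h).moment_two (x0_pos h t) (x0_lt h ht)
  refine (mul_le_mul_of_nonneg_left h2 (by positivity)).trans ?_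
  have e1 : Real.exp t ^ 2 = Real.exp (2 * t) := by
    rw [← Real.exp_nat_mul]
    norm_num
  have e2 : Real.exp t ^ 2 * (q * Real.exp (-t)) ^ 4 = q ^ 4 * Real.exp (-(2 * t)) := by
    rw [mul_pow, ← Real.exp_nat_mul, ← Real.exp_nat_mul, mul_left_comm, ← Real.exp_add]
    congr 2
    push_cast
    ring
  have e3 : 2 * Real.cosh (2 * t) = Real.exp (2 * t) + Real.exp (-(2 * t)) := by
    rw [Real.cosh_eq]
    ring
  have hq4 : q ^ 4 ≤ 1 := pow_le_one₀ h.q0.le h.q1.le
  have h3 : q ^ 4 * Real.exp (-(2 * t)) ≤ Real.exp (-(2 * t)) := by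
    have := mul_le_mul_of_nonneg_right hq4 (Real.exp_pos (-(2 * t))).le
    rwa [one_mul] at this
  calc Real.exp t ^ 2 * (2 * π * (1 + (q * Real.exp (-t)) ^ 4))
      = 2 * π * (Real.exp t ^ 2 + Real.exp t ^ 2 * (q * Real.exp (-t)) ^ 4) := by ring
    _ ≤ 2 * π * (2 * Real.cosh (2 * t)) := by
        rw [e2, e1, e3]
        exact mul_le_mul_of_nonneg_left (by linarith) (by positivity)

theorem Sg.zero_pt (h : Sg F b q) {t : ℝ} (ht : 0 ≤ t) :
    ∀ᵐ θ ∂(volume.restrict (Ioc (-π) π)), 0 < yy F t θ := by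
  rw [ae_restrict_iff' measurableSet_Ioc]
  have hsub : ({θ | ¬ (θ ∈ Ioc (-π) π → 0 < yy F t θ)} : Set ℝ).Subsingleton := by
    have key : ∀ θ, ¬ (θ ∈ Ioc (-π) π → 0 < yy F t θ) →
        θ ∈ Ioc (-π) π ∧ F (exp (t + θ * I)) = 0 := by
      intro θ hθ
      rw [Classical.not_imp] at hθ
      refine ⟨hθ.1, ?_⟩
      by_contra h0
      exact hθ.2 (by
        unfold yy G
        have := norm_pos_iff.2 h0
        positivity)
    intro θ hθ θ' hθ'
    obtain ⟨h1, h2⟩ := key θ hθ
    obtain ⟨h3, h4⟩ := key θ' hθ'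
    have hn : ∀ s : ℝ, q < ‖exp ((t : ℂ) + s * I)‖ := by
      intro s
      rw [Complex.norm_exp]
      simpa using q_lt h ht
    have h5 := h.inj (hn θ) (hn θ') (h2.trans h4.symm)
    have h6 := exp_inj_of_neg_pi_lt_of_le_pi (x := t + θ * I) (y := t + θ' * I)
      (by simpa using h1.1) (by simpa using h1.2) (by simpa using h3.1) (by simpa using h3.2) h5
    have h7 := congrArg Complex.im h6
    simpa using h7
  exact hsub.measure_zero volume

private theorem Sq_an (h : Sg F b q) {x : ℝ} (hx0 : 0 < x) (hx : x < 1) :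
    AnalyticOnNhd ℂ (Sq b q) (Metric.closedBall 0 |x|) := by
  have h1 : DifferentiableOn ℂ (Sq b q) (Metric.ball 0 1) :=
    (differentiableOn_const 1).add (differentiableOn_id.mul (sgq h).diffOn_pw)
  have h2 : AnalyticOnNhd ℂ (Sq b q) (Metric.ball 0 1) := h1.analyticOnNhd Metric.isOpen_ball
  refine h2.mono (Metric.closedBall_subset_ball ?_)
  rw [abs_of_pos hx0]
  exact hx

private theorem Sq_zero : Sq b q 0 = 1 := by
  unfold Sq
  rw [zero_mul, add_zero]

private theorem avg_nonneg (h : Sg F b q) {x : ℝ} (hx0 : 0 < x) (hx : x < 1) :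
    0 ≤ Real.circleAverage (fun u => Real.log ‖Sq b q u‖) 0 x := by
  have hA := Sq_an h hx0 hx
  rw [hA.circleAverage_log_norm hx0.ne' (by rw [Sq_zero]; exact one_ne_zero), Sq_zero, norm_one,
    Real.log_one, add_zero]
  refine finsum_nonneg fun u => ?_
  by_cases hu : u ∈ Metric.closedBall (0 : ℂ) |x|
  · refine mul_nonneg (mod_cast MeromorphicOn.AnalyticOnNhd.divisor_nonneg hA u) ?_
    rw [mem_closedBall_zero_iff, abs_of_pos hx0] at hu
    rw [zero_sub, norm_neg]
    rcases (norm_nonneg u).eq_or_lt with h0 | h0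
    · rw [← h0, inv_zero, mul_zero, Real.log_zero]
    · apply Real.log_nonneg
      rw [← div_eq_mul_inv, le_div_iff₀ h0, one_mul]
      exact hu
  · rw [Function.locallyFinsuppWithin.apply_eq_zero_of_notMem _ hu]
    simp

private theorem logS (h : Sg F b q) {x : ℝ} (hx0 : 0 < x) (hx : x < 1) :
    IntervalIntegrable (fun θ : ℝ => Real.log ‖Sq b q ((x : ℂ) * ec θ)‖) volume (-π) π ∧
      0 ≤ ∫ θ in (-π)..π, Real.log ‖Sq b q ((x : ℂ) * ec θ)‖ := by
  set f : ℝ → ℝ := fun θ => Real.log ‖Sq b q (circleMap 0 x θ)‖ with hf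
  have hper : Function.Periodic f (2 * π) := by
    intro θ
    simp only [hf]
    rw [periodic_circleMap 0 x θ]
  have hci : CircleIntegrable (fun u => Real.log ‖Sq b q u‖) 0 x :=
    ((Sq_an h hx0 hx).mono Metric.sphere_subset_closedBall).meromorphicOn.circleIntegrable_log_norm
  have hi0 : IntervalIntegrable f volume 0 (2 * π) := hci
  have hi1 : IntervalIntegrable f volume (-π) π :=
    hper.intervalIntegrable₀ Real.two_pi_pos.ne' hi0 _ _
  have e1 : ∀ θ : ℝ, Real.log ‖Sq b q ((x : ℂ) * ec θ)‖ = f (-θ) := by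
    intro θ
    simp only [hf]
    rw [circleMap_zero]
    unfold ec
    congr 4
    congr 1
    push_cast
    ring
  have e2 : (fun θ : ℝ => Real.log ‖Sq b q ((x : ℂ) * ec θ)‖) = fun θ => f (-θ) := funext e1
  rw [e2]
  constructor
  · have := (IntervalIntegrable.iff_comp_neg (f := f) (a := -π) (b := π)).1 hi1
    rw [neg_neg] at this
    exact this.symm
  · rw [intervalIntegral.integral_comp_neg, neg_neg]
    have h1 := hper.intervalIntegral_add_eq 0 (-π)
    rw [zero_add, show -π + 2 * π = π by ring] at h1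
    rw [← h1]
    have h2 := avg_nonneg h hx0 hx
    unfold Real.circleAverage at h2
    rw [smul_eq_mul] at h2
    have h3 : (0 : ℝ) < (2 * π)⁻¹ := inv_pos.2 Real.two_pi_pos
    exact nonneg_of_mul_nonneg_right h2 h3

private theorem log_ae (h : Sg F b q) {t : ℝ} (ht : 0 ≤ t) :
    (fun θ => 2 * t + 2 * Real.log ‖Sq b q (((q * Real.exp (-t) : ℝ) : ℂ) * ec θ)‖)
      =ᵐ[volume.restrict (Ioc (-π) π)] fun θ => Real.log (yy F t θ) := by
  filter_upwards [h.zero_pt ht] with θ hθ
  rw [yyS h ht] at hθ ⊢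
  have h1 : ‖Sq b q (((q * Real.exp (-t) : ℝ) : ℂ) * ec θ)‖ ≠ 0 := by
    intro h0
    rw [h0] at hθ
    norm_num at hθ
  rw [Real.log_mul (by positivity) (pow_ne_zero _ h1), Real.log_pow, Real.log_pow, Real.log_exp]
  push_cast
  ring

theorem Sg.jen (h : Sg F b q) {t : ℝ} (ht : 0 ≤ t) :
    IntervalIntegrable (fun θ => Real.log (yy F t θ)) volume (-π) π ∧
      4 * π * t ≤ ∫ θ in (-π)..π, Real.log (yy F t θ) := by
  obtain ⟨h1, h2⟩ := logS h (x0_pos h t) (x0_lt h ht)
  have hpi : (-π : ℝ) ≤ π := by linarith [Real.pi_pos]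
  have hae := log_ae h ht
  have hio : uIoc (-π) π = Ioc (-π) π := uIoc_of_le hpi
  have hi : IntervalIntegrable
      (fun θ => 2 * t + 2 * Real.log ‖Sq b q (((q * Real.exp (-t) : ℝ) : ℂ) * ec θ)‖)
      volume (-π) π := intervalIntegrable_const.add (h1.const_mul 2)
  refine ⟨hi.congr_ae (by rw [hio]; exact hae), ?_⟩
  have e : ∫ θ in (-π)..π, Real.log (yy F t θ) =
      ∫ θ in (-π)..π, (2 * t + 2 * Real.log ‖Sq b q (((q * Real.exp (-t) : ℝ) : ℂ) * ec θ)‖) := by
    rw [intervalIntegral.integral_of_le hpi, intervalIntegral.integral_of_le hpi]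
    exact (integral_congr_ae hae).symm
  rw [e, intervalIntegral.integral_add intervalIntegrable_const (h1.const_mul 2),
    intervalIntegral.integral_const, intervalIntegral.integral_const_mul, smul_eq_mul]
  nlinarith [h2]

theorem Sg.lo (h : Sg F b q) {t x : ℝ} (ht : 0 ≤ t) (hx : 0 ≤ x)
    (hxt : x ≤ 4 * Real.sinh t ^ 2) : Zf F t x ≤ Zf J t x := by
  have hpi : (-π : ℝ) ≤ π := by linarith [Real.pi_pos]
  rcases hx.eq_or_lt with hx0 | hx0
  · subst hx0
    unfold Zf
    have e : ∀ (H : ℂ → ℂ), ∫ θ in (-π)..π, Ph 0 (yy H t θ) = ∫ θ in (-π)..π, yy H t θ := by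
      intro H
      refine intervalIntegral.integral_congr fun θ _ => ?_
      exact Ph_zero (by unfold yy; positivity)
    rw [e, e]
    exact h.int_yy_le ht
  · have ht0 : 0 < t := by
      rcases ht.eq_or_lt with h0 | h0
      · rw [← h0, Real.sinh_zero] at hxt
        norm_num at hxt
        linarith
      · exact h0
    obtain ⟨j1, j2⟩ := h.jen ht
    have cF := cyy h ht
    have iF : IntervalIntegrable (yy F t) volume (-π) π := cF.intervalIntegrable _ _
    have cJ : Continuous (yy J t) := by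
      have e : yy J t = fun θ => 4 * Real.sinh t ^ 2 + 4 * Real.cos θ ^ 2 := funext (yy_J t)
      rw [e]
      fun_prop
    have iJ : IntervalIntegrable (yy J t) volume (-π) π := cJ.intervalIntegrable _ _
    have hJx : ∀ θ, x ≤ yy J t θ := fun θ => hxt.trans (le_yy_J t θ)
    have clJ : Continuous fun θ => Real.log (yy J t θ) :=
      cJ.log fun θ => (hx0.trans_le (hJx θ)).ne'
    have ilJ : IntervalIntegrable (fun θ => Real.log (yy J t θ)) volume (-π) π :=
      clJ.intervalIntegrable _ _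
    have cPh : Continuous fun θ => Ph x (yy F t θ) := by
      have h1 : Continuous fun θ => Ph |x| |yy F t θ| :=
        Ph_cont.comp (continuous_const.prodMk cF)
      have e : (fun θ => Ph |x| |yy F t θ|) = fun θ => Ph x (yy F t θ) := by
        funext θ
        rw [abs_of_pos hx0, abs_of_nonneg (by unfold yy; positivity : 0 ≤ yy F t θ)]
      rwa [e] at h1
    have int1 : ∀ (f g : ℝ → ℝ), IntervalIntegrable f volume (-π) π →
        IntervalIntegrable g volume (-π) π →
        IntervalIntegrable (fun θ => f θ - x - x * (g θ - Real.log x)) volume (-π) π ∧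
        ∫ θ in (-π)..π, (f θ - x - x * (g θ - Real.log x)) =
          (∫ θ in (-π)..π, f θ) - 2 * π * x - x * ((∫ θ in (-π)..π, g θ) - 2 * π * Real.log x) := by
      intro f g hf hg
      have a1 : IntervalIntegrable (fun θ => f θ - x) volume (-π) π :=
        hf.sub intervalIntegrable_const
      have a2 : IntervalIntegrable (fun θ => g θ - Real.log x) volume (-π) π :=
        hg.sub intervalIntegrable_const
      refine ⟨a1.sub (a2.const_mul x), ?_⟩
      rw [intervalIntegral.integral_sub a1 (a2.const_mul x),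
        intervalIntegral.integral_sub hf intervalIntegrable_const,
        intervalIntegral.integral_const_mul,
        intervalIntegral.integral_sub hg intervalIntegrable_const,
        intervalIntegral.integral_const, intervalIntegral.integral_const, smul_eq_mul, smul_eq_mul]
      ring
    obtain ⟨k1, k2⟩ := int1 _ _ iF j1
    obtain ⟨k3, k4⟩ := int1 _ _ iJ ilJ
    have hF : Zf F t x ≤ ∫ θ in (-π)..π, (yy F t θ - x - x * (Real.log (yy F t θ) - Real.log x)) := by
      unfold Zf
      refine intervalIntegral.integral_mono_ae_restrict hpi (cPh.intervalIntegrable _ _) k1 ?_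
      have hz := h.zero_pt ht
      have hz' : ∀ᵐ θ ∂(volume.restrict (Icc (-π) π)), 0 < yy F t θ := by
        rw [← restrict_Ioc_eq_restrict_Icc]
        exact hz
      filter_upwards [hz'] with θ hθ
      have := Ph_tilde hx0 hθ (le_refl (yy F t θ))
      rwa [Real.log_div hθ.ne' hx0.ne'] at this
    have hJ : Zf J t x = ∫ θ in (-π)..π, (yy J t θ - x - x * (Real.log (yy J t θ) - Real.log x)) := by
      unfold Zf
      refine intervalIntegral.integral_congr fun θ _ => ?_
      rw [Ph_of_ge (hJx θ), Real.log_div (hx0.trans_le (hJx θ)).ne' hx0.ne']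
    rw [hJ]
    refine hF.trans ?_
    rw [k2, k4, int_logJ ht0]
    have h1 := h.int_yy_le ht
    have h2 := mul_le_mul_of_nonneg_left j2 hx0.le
    linarith

end Pool.Agent.H36.SZ
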