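import Pool.Agent.H36.SZ.Reg
import Pool.Agent.H36.SZ.Phl

/-!
# Measurability, integrability, relations between the integrals over `Ax`

PROOFS. `Ax F t x ⊆ Ioc (-π) π` is measurable (`G F t` is continuous) and has finite measure. On it
`yy > x > 0` and `yy`, `jr`, `‖G1‖^2`, `‖G2‖` are bounded (continuous periodic functions, or
continuous on `Icc (-π) π`), and every integrand is a.e. strongly measurable: it is the restriction
of a function continuous at every point with `yy ≠ 0`, or use
`Continuous.measurable` and measurability of `/`, `log` (`fun_prop` / `measurability`). To prove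
integrability: `Measure.integrableOn_of_bounded` with an explicit bound.
`An.int_Ax`: the general tool: a measurable function that is bounded on `Ax F t x` is integrable.
`VA_eq`: linearity of the integral. `Zf_eq`: `Ph x (yy) = 0` off `Ax` (`Ph_of_le`), and equals
`yy - x - x log (yy / x)` on `Ax`. `ZA_eq`, `LA_eq`: the integrands with `max` vanish off `Ax`
(`1 - x/x = 0`, `log (x/x) = 0`, `x > 0`).
-/

open Complex MeasureTheory Set Filter Topology
open scoped ComplexConjugate Real

namespace Pool.Agent.H36.SZ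

variable {F : ℂ → ℂ} {q : ℝ}

theorem An.mAx (h : An F q) {t : ℝ} (ht : q < Real.exp t) (x : ℝ) : MeasurableSet (Ax F t x) := by
  have hc : Continuous fun θ => yy F t θ := (h.cGt ht).norm.pow 2
  exact measurableSet_Ioc.inter (measurableSet_lt measurable_const hc.measurable)

theorem Ax_sub (F : ℂ → ℂ) (t x : ℝ) : Ax F t x ⊆ Ioc (-π) π := fun _ h => h.1

theorem int_bdd {f : ℝ → ℝ} {A : Set ℝ} (hA : MeasurableSet A) (hs : A ⊆ Ioc (-π) π)
    (hf : AEStronglyMeasurable f (volume.restrict A)) {M : ℝ} (hM : ∀ θ ∈ A, |f θ| ≤ M) :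
    IntegrableOn f A := by
  have hfin : volume A ≠ ⊤ := ((measure_mono hs).trans_lt (by simp)).ne
  have : IsFiniteMeasure (volume.restrict A) :=
    ⟨by rw [Measure.restrict_apply_univ]; exact hfin.lt_top⟩
  refine Integrable.of_bound hf M ?_
  filter_upwards [ae_restrict_mem hA] with θ hθ
  rw [Real.norm_eq_abs]
  exact hM θ hθ

private theorem rel_cyy (h : An F q) {t : ℝ} (ht : q < Real.exp t) : Continuous (yy F t) :=
  (h.cGt ht).norm.pow 2

private theorem rel_cjr (h : An F q) {t : ℝ} (ht : q < Real.exp t) : Continuous (jr F t) :=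
  Complex.continuous_re.comp ((Complex.continuous_conj.comp (h.cGt ht)).mul (h.cG1t ht))

private theorem rel_cji (h : An F q) {t : ℝ} (ht : q < Real.exp t) : Continuous (ji F t) :=
  Complex.continuous_im.comp ((Complex.continuous_conj.comp (h.cGt ht)).mul (h.cG1t ht))

private theorem rel_cytt (h : An F q) {t : ℝ} (ht : q < Real.exp t) : Continuous (ytt F t) :=
  ((h.cG1t ht).norm.pow 2).add
    (Complex.continuous_re.comp ((Complex.continuous_conj.comp (h.cGt ht)).mul (h.cG2t ht)))

private theorem rel_cyqq (h : An F q) {t : ℝ} (ht : q < Real.exp t) : Continuous (yqq F t) :=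
  ((h.cG1t ht).norm.pow 2).sub
    (Complex.continuous_re.comp ((Complex.continuous_conj.comp (h.cGt ht)).mul (h.cG2t ht)))

private theorem rel_bd {f : ℝ → ℝ} (hf : Continuous f) : ∃ B, ∀ θ ∈ Ioc (-π) π, |f θ| ≤ B := by
  obtain ⟨B, hB⟩ := (isCompact_Icc (a := -π) (b := π)).exists_bound_of_continuousOn hf.continuousOn
  exact ⟨B, fun θ hθ => hB θ ⟨hθ.1.le, hθ.2⟩⟩

/-- a function of the form `g (max x (yy))`-type: agrees on `Ax` with a continuous function -/
private theorem rel_int (h : An F q) {t x : ℝ} (ht : q < Real.exp t) {f g : ℝ → ℝ}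
    (hg : Continuous g) (hfg : ∀ θ ∈ Ax F t x, f θ = g θ) : IntegrableOn f (Ax F t x) := by
  obtain ⟨B, hB⟩ := rel_bd hg
  have h1 : IntegrableOn g (Ax F t x) := int_bdd (h.mAx ht x) (Ax_sub F t x)
    hg.aestronglyMeasurable (M := B) fun θ hθ => hB θ hθ.1
  exact h1.congr_fun (fun θ hθ => (hfg θ hθ).symm) (h.mAx ht x)

private theorem rel_max {t x θ : ℝ} (hθ : θ ∈ Ax F t x) : max x (yy F t θ) = yy F t θ :=
  max_eq_right hθ.2.le

private theorem rel_cm (h : An F q) {t : ℝ} (ht : q < Real.exp t) (x : ℝ) :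
    Continuous fun θ => max x (yy F t θ) := continuous_const.max (rel_cyy h ht)

private theorem rel_m0 {t x : ℝ} (hx : 0 < x) (θ : ℝ) : max x (yy F t θ) ≠ 0 :=
  (hx.trans_le (le_max_left _ _)).ne'

theorem An.iE (h : An F q) {t x : ℝ} (ht : q < Real.exp t) :
    IntegrableOn (fun θ => ‖G1 F t θ‖ ^ 2) (Ax F t x) :=
  rel_int h ht ((h.cG1t ht).norm.pow 2) fun _ _ => rfl

theorem An.iM (h : An F q) {t x : ℝ} (ht : q < Real.exp t) :
    IntegrableOn (fun θ => yy F t θ) (Ax F t x) :=
  rel_int h ht (rel_cyy h ht) fun _ _ => rfl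

theorem An.iO (h : An F q) {t x : ℝ} (ht : q < Real.exp t) (hx : 0 < x) :
    IntegrableOn (fun θ => jr F t θ / yy F t θ) (Ax F t x) := by
  refine rel_int h ht (g := fun θ => jr F t θ / max x (yy F t θ))
    ((rel_cjr h ht).div (rel_cm h ht x) (rel_m0 hx)) fun θ hθ => ?_
  simp only [rel_max hθ]

theorem An.iZ (h : An F q) {t x : ℝ} (ht : q < Real.exp t) (hx : 0 < x) :
    IntegrableOn (fun θ => (1 - x / yy F t θ) * jr F t θ) (Ax F t x) := by
  refine rel_int h ht (g := fun θ => (1 - x / max x (yy F t θ)) * jr F t θ)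
    ((continuous_const.sub (continuous_const.div (rel_cm h ht x) (rel_m0 hx))).mul
      (rel_cjr h ht)) fun θ hθ => ?_
  simp only [rel_max hθ]

theorem An.iL (h : An F q) {t x : ℝ} (ht : q < Real.exp t) (hx : 0 < x) :
    IntegrableOn (fun θ => Real.log (yy F t θ / x)) (Ax F t x) := by
  refine rel_int h ht (g := fun θ => Real.log (max x (yy F t θ) / x))
    (((rel_cm h ht x).div_const x).log fun θ =>
      (div_pos (hx.trans_le (le_max_left _ _)) hx).ne') fun θ hθ => ?_
  simp only [rel_max hθ]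

theorem An.iT (h : An F q) {t x : ℝ} (ht : q < Real.exp t) (hx : 0 < x) :
    IntegrableOn (fun θ => (1 - x / yy F t θ) * ytt F t θ + 2 * x * jr F t θ ^ 2 / yy F t θ ^ 2)
      (Ax F t x) := by
  refine rel_int h ht (g := fun θ => (1 - x / max x (yy F t θ)) * ytt F t θ +
    2 * x * jr F t θ ^ 2 / max x (yy F t θ) ^ 2) ?_ fun θ hθ => ?_
  · refine ((continuous_const.sub (continuous_const.div (rel_cm h ht x) (rel_m0 hx))).mul
      (rel_cytt h ht)).add ?_
    exact (continuous_const.mul ((rel_cjr h ht).pow 2)).div ((rel_cm h ht x).pow 2)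
      fun θ => pow_ne_zero 2 (rel_m0 hx θ)
  · simp only [rel_max hθ]

theorem An.iQ (h : An F q) {t x : ℝ} (ht : q < Real.exp t) (hx : 0 < x) :
    IntegrableOn (fun θ => (1 - x / yy F t θ) * yqq F t θ + 2 * x * ji F t θ ^ 2 / yy F t θ ^ 2)
      (Ax F t x) := by
  refine rel_int h ht (g := fun θ => (1 - x / max x (yy F t θ)) * yqq F t θ +
    2 * x * ji F t θ ^ 2 / max x (yy F t θ) ^ 2) ?_ fun θ hθ => ?_
  · refine ((continuous_const.sub (continuous_const.div (rel_cm h ht x) (rel_m0 hx))).mul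
      (rel_cyqq h ht)).add ?_
    exact (continuous_const.mul ((rel_cji h ht).pow 2)).div ((rel_cm h ht x).pow 2)
      fun θ => pow_ne_zero 2 (rel_m0 hx θ)
  · simp only [rel_max hθ]

theorem An.VA_eq (h : An F q) {t x : ℝ} (ht : q < Real.exp t) :
    VA F t x = MA F t x - x * CA F t x := by
  have hc : IntegrableOn (fun _ : ℝ => x) (Ax F t x) :=
    rel_int h ht (g := fun _ => x) continuous_const fun _ _ => rfl
  unfold VA MA CA
  rw [integral_sub (h.iM ht) hc, ← integral_const_mul]
  simp only [mul_one]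

/-- integrals over the circle of functions vanishing off `Ax` -/
private theorem rel_circ {t x : ℝ} (hm : MeasurableSet (Ax F t x)) {f g : ℝ → ℝ}
    (h0 : ∀ θ, yy F t θ ≤ x → f θ = 0) (h1 : ∀ θ ∈ Ax F t x, f θ = g θ) :
    ∫ θ in (-π)..π, f θ = ∫ θ in Ax F t x, g θ := by
  have hpi : (-π : ℝ) ≤ π := by linarith [Real.pi_pos]
  rw [intervalIntegral.integral_of_le hpi]
  have h2 : ∫ θ in Ioc (-π) π, f θ = ∫ θ in Ax F t x, f θ := by
    refine (setIntegral_eq_of_subset_of_forall_sdiff_eq_zero measurableSet_Ioc (Ax_sub F t x)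
      fun θ hθ => h0 θ ?_)
    by_contra hc
    exact hθ.2 ⟨hθ.1, not_le.1 hc⟩
  rw [h2]
  exact setIntegral_congr_fun hm h1

theorem An.Zf_eq (h : An F q) {t x : ℝ} (ht : q < Real.exp t) (hx : 0 < x) :
    Zf F t x = VA F t x - x * LA F t x := by
  have h1 : Zf F t x = ∫ θ in Ax F t x, ((yy F t θ - x) - x * Real.log (yy F t θ / x)) := by
    unfold Zf
    exact rel_circ (h.mAx ht x) (fun θ hθ => Ph_of_le hθ) fun θ hθ => Ph_of_ge hθ.2.le
  have i1 : IntegrableOn (fun θ => yy F t θ - x) (Ax F t x) :=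
    rel_int h ht (g := fun θ => yy F t θ - x) ((rel_cyy h ht).sub continuous_const) fun _ _ => rfl
  have i2 : IntegrableOn (fun θ => x * Real.log (yy F t θ / x)) (Ax F t x) :=
    (h.iL ht hx).const_mul x
  rw [h1, integral_sub i1 i2, integral_const_mul]
  rfl

theorem An.ZA_eq (h : An F q) {t x : ℝ} (ht : q < Real.exp t) (hx : 0 < x) :
    ∫ θ in (-π)..π, (1 - x / max x (yy F t θ)) * jr F t θ = ZA F t x := by
  unfold ZA
  refine rel_circ (h.mAx ht x) (fun θ hθ => ?_) fun θ hθ => ?_
  · rw [max_eq_left hθ, div_self hx.ne', sub_self, zero_mul]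
  · rw [rel_max hθ]

theorem An.LA_eq (h : An F q) {t x : ℝ} (ht : q < Real.exp t) (hx : 0 < x) :
    ∫ θ in (-π)..π, Real.log (max x (yy F t θ) / x) = LA F t x := by
  unfold LA
  refine rel_circ (h.mAx ht x) (fun θ hθ => ?_) fun θ hθ => ?_
  · rw [max_eq_left hθ, div_self hx.ne', Real.log_one]
  · rw [rel_max hθ]

theorem CA_nonneg (F : ℂ → ℂ) (t x : ℝ) : 0 ≤ CA F t x := by
  unfold CA
  exact integral_nonneg fun _ => zero_le_one

end Pool.Agent.H36.SZ
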