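import Pool.Agent.H36.SZ.D2a
import Pool.Agent.H36.SZ.D2b
import Pool.Agent.H36.SZ.Rel

/-!
# The Laplace identity

`int over |F|^2 > x of [(1 - x/y) y_tt + x y_t^2 / y^2] = 4 int |z F'|^2`, written with
`y_t = 2 jr`, `y_tt = 2 ytt` and divided by 2.

PROOF. Step 1 (`lapq`): put `y s θ = yy F t (θ + s)`, `y1 s θ = -2 ji F t (θ+s)`,
`y2 s θ = 2 yqq F t (θ+s)`, `x` constant. By periodicity
`int over (-π)..π of Ph x (yy F t (θ + s)) = Zf F t x` for every `s`
(`intervalIntegral.integral_comp_add_right` and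
`Function.Periodic.intervalIntegral_add_eq`), so the derivative given by `dZ1` vanishes for every
`s`; hence the function differentiated in `dZ2` is `0` near `0` and its derivative at `0`,
`int over Ax of [(1 - x/y) 2 yqq + x 4 ji^2 / y^2]`, is `0`. Divide by `2`.
Step 2: on `Ax` (`y = yy > x > 0`), by `ytt_add_yqq` and `jr_sq`,
`[(1 - x/y) ytt + 2 x jr^2/y^2] + [(1 - x/y) yqq + 2 x ji^2/y^2]
 = (1 - x/y) 2 |G1|^2 + 2 x y |G1|^2 / y^2 = 2 |G1|^2`. Integrate (`An.iT`, `An.iQ`).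
-/

open Complex MeasureTheory Set Filter Topology
open scoped ComplexConjugate Real

namespace Pool.Agent.H36.SZ

variable {F : ℂ → ℂ} {q : ℝ}

private theorem An.cyy (h : An F q) {t : ℝ} (ht : q < Real.exp t) : Continuous (yy F t) := by
  unfold yy
  exact (h.cGt ht).norm.pow 2

private theorem An.cji (h : An F q) {t : ℝ} (ht : q < Real.exp t) : Continuous (ji F t) := by
  unfold ji
  exact Complex.continuous_im.comp ((Complex.continuous_conj.comp (h.cGt ht)).mul (h.cG1t ht))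

private theorem An.cyqq (h : An F q) {t : ℝ} (ht : q < Real.exp t) : Continuous (yqq F t) := by
  unfold yqq
  exact ((h.cG1t ht).norm.pow 2).sub
    (Complex.continuous_re.comp ((Complex.continuous_conj.comp (h.cGt ht)).mul (h.cG2t ht)))

private theorem Ph_int_const (F : ℂ → ℂ) (t x r : ℝ) :
    ∫ θ in (-π)..π, Ph x (yy F t (θ + r)) = Zf F t x := by
  have hp : Function.Periodic (fun θ => Ph x (yy F t θ)) (2 * π) := by
    intro θ
    show Ph x (‖G F t (θ + 2 * π)‖ ^ 2) = Ph x (‖G F t θ‖ ^ 2)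
    rw [G_per F t θ]
  rw [intervalIntegral.integral_comp_add_right (fun θ => Ph x (yy F t θ)) r]
  have h1 := hp.intervalIntegral_add_eq (-π + r) (-π)
  have e1 : -π + r + 2 * π = π + r := by ring
  have e2 : -π + 2 * π = π := by ring
  rw [e1, e2] at h1
  exact h1

theorem An.lapq (h : An F q) {t x : ℝ} (ht : q < Real.exp t) (hx : 0 < x)
    (nul : volume {θ : ℝ | θ ∈ Ioc (-π) π ∧ yy F t θ = x} = 0) :
    ∫ θ in Ax F t x, ((1 - x / yy F t θ) * yqq F t θ + 2 * x * ji F t θ ^ 2 / yy F t θ ^ 2) = 0 := by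
  have hyd : ∀ s ∈ Ioo (-1 : ℝ) 1, ∀ θ : ℝ,
      HasDerivAt (fun r => yy F t (θ + r)) (-2 * ji F t (θ + s)) s :=
    fun s _ θ => HasDerivAt.comp_const_add θ s (h.hyyq (θ + s) ht)
  have hyd1 : ∀ s ∈ Ioo (-1 : ℝ) 1, ∀ θ : ℝ,
      HasDerivAt (fun r => -2 * ji F t (θ + r)) (2 * yqq F t (θ + s)) s := by
    intro s _ θ
    have h1 := (HasDerivAt.comp_const_add θ s (h.hji (θ + s) ht)).const_mul (-2 : ℝ)
    have e : -2 * -yqq F t (θ + s) = 2 * yqq F t (θ + s) := by ring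
    rw [e] at h1
    exact h1
  have hadd : Continuous (fun p : ℝ × ℝ => p.2 + p.1) := continuous_snd.add continuous_fst
  have cy : ContinuousOn (fun p : ℝ × ℝ => yy F t (p.2 + p.1)) (Ioo (-1 : ℝ) 1 ×ˢ univ) :=
    ((h.cyy ht).comp hadd).continuousOn
  have cy1 : ContinuousOn (fun p : ℝ × ℝ => -2 * ji F t (p.2 + p.1)) (Ioo (-1 : ℝ) 1 ×ˢ univ) :=
    (continuous_const.mul ((h.cji ht).comp hadd)).continuousOn
  have cy2 : ContinuousOn (fun p : ℝ × ℝ => 2 * yqq F t (p.2 + p.1)) (Ioo (-1 : ℝ) 1 ×ˢ univ) :=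
    (continuous_const.mul ((h.cyqq ht).comp hadd)).continuousOn
  have hz : ∀ s ∈ Ioo (-1 : ℝ) 1, (∫ θ in (-π)..π,
      ((1 - x / max x (yy F t (θ + s))) * (-2 * ji F t (θ + s)) -
        0 * Real.log (max x (yy F t (θ + s)) / x))) = 0 := by
    intro s hs
    have h1 := dZ1 (y := fun s θ => yy F t (θ + s)) (y1 := fun s θ => -2 * ji F t (θ + s))
      (x := fun _ => x) (x1 := fun _ => 0) (δ := 1) hyd cy cy1 (fun s _ => hasDerivAt_const s x)
      continuousOn_const (fun _ _ => hx) hs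
    have h2 : (fun r : ℝ => ∫ θ in (-π)..π, Ph x (yy F t (θ + r))) = fun _ => Zf F t x := by
      funext r
      exact Ph_int_const F t x r
    have h3 : HasDerivAt (fun r : ℝ => ∫ θ in (-π)..π, Ph x (yy F t (θ + r))) 0 s := by
      rw [h2]
      exact hasDerivAt_const s _
    exact h1.unique h3
  have h3 := dZ2 (y := fun s θ => yy F t (θ + s)) (y1 := fun s θ => -2 * ji F t (θ + s))
      (y2 := fun s θ => 2 * yqq F t (θ + s)) (x := fun _ => x) (x1 := fun _ => 0) (x2 := fun _ => 0)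
      (δ := 1) one_pos hyd hyd1 cy cy1 cy2 (fun s _ => hasDerivAt_const s x)
      (fun s _ => hasDerivAt_const s (0 : ℝ)) continuousOn_const (fun _ _ => hx)
      (by simpa only [add_zero] using nul)
  have h4 : (fun s : ℝ => ∫ θ in (-π)..π,
      ((1 - x / max x (yy F t (θ + s))) * (-2 * ji F t (θ + s)) -
        0 * Real.log (max x (yy F t (θ + s)) / x))) =ᶠ[𝓝 (0 : ℝ)] fun _ => (0 : ℝ) := by
    filter_upwards [Ioo_mem_nhds (show (-1 : ℝ) < 0 by norm_num) (show (0 : ℝ) < 1 by norm_num)] with s hs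
    exact hz s hs
  have h5 := ((hasDerivAt_const (0 : ℝ) (0 : ℝ)).congr_of_eventuallyEq h4).unique h3
  simp only [add_zero] at h5
  have h6 : (∫ θ in Ax F t x, ((1 - x / yy F t θ) * (2 * yqq F t θ) +
      x * (-2 * ji F t θ) ^ 2 / yy F t θ ^ 2 - 2 * 0 * (-2 * ji F t θ) / yy F t θ + 0 ^ 2 / x -
        0 * Real.log (yy F t θ / x))) = 0 := h5.symm
  have h7 : ∀ θ : ℝ, ((1 - x / yy F t θ) * (2 * yqq F t θ) +
      x * (-2 * ji F t θ) ^ 2 / yy F t θ ^ 2 - 2 * 0 * (-2 * ji F t θ) / yy F t θ + 0 ^ 2 / x -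
        0 * Real.log (yy F t θ / x)) =
      2 * ((1 - x / yy F t θ) * yqq F t θ + 2 * x * ji F t θ ^ 2 / yy F t θ ^ 2) := by
    intro θ
    ring
  simp only [h7] at h6
  rw [integral_const_mul] at h6
  linarith

theorem An.lap (h : An F q) {t x : ℝ} (ht : q < Real.exp t) (hx : 0 < x)
    (nul : volume {θ : ℝ | θ ∈ Ioc (-π) π ∧ yy F t θ = x} = 0) :
    ∫ θ in Ax F t x, ((1 - x / yy F t θ) * ytt F t θ + 2 * x * jr F t θ ^ 2 / yy F t θ ^ 2) =
      2 * EA F t x := by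
  have h1 := integral_add (h.iT ht hx) (h.iQ ht hx)
  rw [h.lapq ht hx nul, add_zero] at h1
  rw [← h1]
  unfold EA
  rw [← integral_const_mul]
  refine setIntegral_congr_fun (h.mAx ht x) (fun θ hθ => ?_)
  have hy : 0 < yy F t θ := lt_trans hx hθ.2
  have h2 := ytt_add_yqq F t θ
  have h3 := jr_sq F t θ
  have h4 : (1 - x / yy F t θ) * ytt F t θ + 2 * x * jr F t θ ^ 2 / yy F t θ ^ 2 +
      ((1 - x / yy F t θ) * yqq F t θ + 2 * x * ji F t θ ^ 2 / yy F t θ ^ 2) =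
      (1 - x / yy F t θ) * (ytt F t θ + yqq F t θ) +
        2 * x * (jr F t θ ^ 2 + ji F t θ ^ 2) / yy F t θ ^ 2 := by ring
  show (1 - x / yy F t θ) * ytt F t θ + 2 * x * jr F t θ ^ 2 / yy F t θ ^ 2 +
      ((1 - x / yy F t θ) * yqq F t θ + 2 * x * ji F t θ ^ 2 / yy F t θ ^ 2) =
      2 * ‖G1 F t θ‖ ^ 2
  rw [h4, h2, h3]
  field_simp
  ring

end Pool.Agent.H36.SZ
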