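import Mathlib

/-!
# The positivity set of a continuous function with finitely many zeros is a finite union of arcs

PROOF of `arcs`, by strong induction on the number of zeros of `f` in `[a, b]`, for all `a <= b`
with `f a <= 0`, `f b <= 0`. If `f <= 0` on `[a, b]`, take `L = []` (the set is empty). Otherwise
there is `s ∈ (a, b)` with `f s > 0`. `l = sSup {θ ∈ [a, s] | f θ <= 0}`,
`r = sInf {θ ∈ [s, b] | f θ <= 0}` (closed nonempty bounded sets, so attained: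
`IsCompact.exists_isGreatest`, `IsCompact.exists_isLeast`); `f l = 0`, `f r = 0` (if `f l < 0`
then `f < 0` a little to the right of `l`, contradiction; `l < s < r`), `f > 0` on `(l, r)`.
The zeros in `[a, l]` are fewer (`r` is missing), those in `[r, b]` too (`l` is missing).
Induction gives `L1` for `[a, l]`, `L2` for `[r, b]`; `L = L1 ++ (l, r) :: L2`. The set is the
disjoint union of the sets for `(a, l]`, of `(l, r)` and of the set for `(r, b]` (`f r = 0`), and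
`∫ over Ioo l r = ∫ over Ioc l r` = interval integral; `setIntegral_union`.
`rot`: for `2π`-periodic `f`, `φ` the integral of `φ` over `{θ ∈ (-π, π] | 0 < f θ}` is the
integral over `{θ ∈ (a, a + 2π] | 0 < f θ}`: apply
`Function.Periodic.intervalIntegral_add_eq` to the periodic function
`indicator {θ | 0 < f θ} φ`.
-/

open MeasureTheory Set Filter Topology
open scoped Real

namespace Pool.Agent.H36.SZ

private theorem leftEnd {f : ℝ → ℝ} (hf : Continuous f) {a s : ℝ} (has : a ≤ s) (ha : f a ≤ 0)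
    (hs : 0 < f s) : ∃ l, a ≤ l ∧ l < s ∧ f l = 0 ∧ ∀ θ ∈ Ioc l s, 0 < f θ := by
  have hK : IsCompact (Icc a s ∩ {θ | f θ ≤ 0}) :=
    isCompact_Icc.inter_right (isClosed_le hf continuous_const)
  obtain ⟨l, ⟨⟨hal, hls⟩, hl0⟩, hmax⟩ := hK.exists_isGreatest ⟨a, ⟨le_refl _, has⟩, ha⟩
  have hl0' : f l ≤ 0 := hl0
  have hls' : l < s := lt_of_le_of_ne hls (by rintro rfl; exact absurd hl0' (not_le.2 hs))
  have hpos : ∀ θ ∈ Ioc l s, 0 < f θ := by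
    intro θ hθ
    by_contra h
    exact absurd (hmax ⟨⟨hal.trans hθ.1.le, hθ.2⟩, not_lt.1 h⟩) (not_le.2 hθ.1)
  refine ⟨l, hal, hls', le_antisymm hl0' ?_, hpos⟩
  have ht : Tendsto f (𝓝[>] l) (𝓝 (f l)) := hf.continuousAt.tendsto.mono_left nhdsWithin_le_nhds
  refine ge_of_tendsto ht ?_
  filter_upwards [Ioc_mem_nhdsGT hls'] with θ hθ using (hpos θ hθ).le

private theorem rightEnd {f : ℝ → ℝ} (hf : Continuous f) {s b : ℝ} (hsb : s ≤ b) (hb : f b ≤ 0)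
    (hs : 0 < f s) : ∃ r, r ≤ b ∧ s < r ∧ f r = 0 ∧ ∀ θ ∈ Ico s r, 0 < f θ := by
  have hK : IsCompact (Icc s b ∩ {θ | f θ ≤ 0}) :=
    isCompact_Icc.inter_right (isClosed_le hf continuous_const)
  obtain ⟨r, ⟨⟨hsr, hrb⟩, hr0⟩, hmin⟩ := hK.exists_isLeast ⟨b, ⟨hsb, le_refl _⟩, hb⟩
  have hr0' : f r ≤ 0 := hr0
  have hsr' : s < r := lt_of_le_of_ne hsr (by rintro rfl; exact absurd hr0' (not_le.2 hs))
  have hpos : ∀ θ ∈ Ico s r, 0 < f θ := by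
    intro θ hθ
    by_contra h
    exact absurd (hmin ⟨⟨hθ.1, hθ.2.le.trans hrb⟩, not_lt.1 h⟩) (not_le.2 hθ.2)
  refine ⟨r, hrb, hsr', le_antisymm hr0' ?_, hpos⟩
  have ht : Tendsto f (𝓝[<] r) (𝓝 (f r)) := hf.continuousAt.tendsto.mono_left nhdsWithin_le_nhds
  refine ge_of_tendsto ht ?_
  filter_upwards [Ico_mem_nhdsLT hsr'] with θ hθ using (hpos θ hθ).le

theorem arcs {f : ℝ → ℝ} (hf : Continuous f) {a b : ℝ} (hab : a ≤ b) (ha : f a ≤ 0)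
    (hb : f b ≤ 0) (hfin : {θ : ℝ | θ ∈ Icc a b ∧ f θ = 0}.Finite) :
    ∃ L : List (ℝ × ℝ), (∀ p ∈ L, a ≤ p.1 ∧ p.1 < p.2 ∧ p.2 ≤ b ∧ f p.1 = 0 ∧ f p.2 = 0 ∧
      ∀ θ ∈ Ioo p.1 p.2, 0 < f θ) ∧
      ∀ φ : ℝ → ℝ, Continuous φ → ∫ θ in {θ : ℝ | θ ∈ Ioc a b ∧ 0 < f θ}, φ θ =
        (L.map (fun p : ℝ × ℝ => ∫ θ in p.1..p.2, φ θ)).sum := by
  obtain ⟨n, hn⟩ : ∃ n, ({θ : ℝ | θ ∈ Icc a b ∧ f θ = 0}).ncard = n := ⟨_, rfl⟩
  induction n using Nat.strong_induction_on generalizing a b with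
  | _ n ih =>
  by_cases hpos : ∃ s ∈ Icc a b, 0 < f s
  · obtain ⟨s, ⟨has, hsb⟩, hs⟩ := hpos
    obtain ⟨l, hal, hls, hl0, hlp⟩ := leftEnd hf has ha hs
    obtain ⟨r, hrb, hsr, hr0, hrp⟩ := rightEnd hf hsb hb hs
    have hlr : l < r := hls.trans hsr
    have hp : ∀ θ ∈ Ioo l r, 0 < f θ := fun θ hθ => by
      rcases le_total θ s with h | h
      · exact hlp θ ⟨hθ.1, h⟩
      · exact hrp θ ⟨h, hθ.2⟩
    have s1 : {θ : ℝ | θ ∈ Icc a l ∧ f θ = 0} ⊂ {θ : ℝ | θ ∈ Icc a b ∧ f θ = 0} := by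
      refine ⟨fun θ hθ => ⟨⟨hθ.1.1, hθ.1.2.trans (hlr.le.trans hrb)⟩, hθ.2⟩, fun h => ?_⟩
      have := h (show r ∈ {θ : ℝ | θ ∈ Icc a b ∧ f θ = 0} from ⟨⟨hal.trans hlr.le, hrb⟩, hr0⟩)
      exact absurd this.1.2 (not_le.2 hlr)
    have s2 : {θ : ℝ | θ ∈ Icc r b ∧ f θ = 0} ⊂ {θ : ℝ | θ ∈ Icc a b ∧ f θ = 0} := by
      refine ⟨fun θ hθ => ⟨⟨(hal.trans hlr.le).trans hθ.1.1, hθ.1.2⟩, hθ.2⟩, fun h => ?_⟩
      have := h (show l ∈ {θ : ℝ | θ ∈ Icc a b ∧ f θ = 0} from ⟨⟨hal, hlr.le.trans hrb⟩, hl0⟩)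
      exact absurd this.1.1 (not_le.2 hlr)
    obtain ⟨L1, h1, i1⟩ := ih _ (hn ▸ Set.ncard_lt_ncard s1 hfin) hal ha hl0.le
      (hfin.subset s1.subset) rfl
    obtain ⟨L2, h2, i2⟩ := ih _ (hn ▸ Set.ncard_lt_ncard s2 hfin) hrb hr0.le hb
      (hfin.subset s2.subset) rfl
    refine ⟨L1 ++ (l, r) :: L2, ?_, ?_⟩
    · intro p hp'
      rw [List.mem_append, List.mem_cons] at hp'
      rcases hp' with h | rfl | h
      · obtain ⟨q1, q2, q3, q4, q5, q6⟩ := h1 p h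
        exact ⟨q1, q2, q3.trans (hlr.le.trans hrb), q4, q5, q6⟩
      · exact ⟨hal, hlr, hrb, hl0, hr0, hp⟩
      · obtain ⟨q1, q2, q3, q4, q5, q6⟩ := h2 p h
        exact ⟨(hal.trans hlr.le).trans q1, q2, q3, q4, q5, q6⟩
    · intro φ hφ
      have hset : {θ : ℝ | θ ∈ Ioc a b ∧ 0 < f θ} =
          ({θ : ℝ | θ ∈ Ioc a l ∧ 0 < f θ} ∪ Ioo l r) ∪ {θ : ℝ | θ ∈ Ioc r b ∧ 0 < f θ} := by
        ext θ
        constructor
        · rintro ⟨⟨h1, h2⟩, h3⟩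
          rcases le_or_gt θ l with h | h
          · exact Or.inl (Or.inl ⟨⟨h1, h⟩, h3⟩)
          · rcases lt_trichotomy θ r with h' | h' | h'
            · exact Or.inl (Or.inr ⟨h, h'⟩)
            · rw [h', hr0] at h3
              exact absurd h3 (lt_irrefl _)
            · exact Or.inr ⟨⟨h', h2⟩, h3⟩
        · rintro ((⟨⟨h1, h2⟩, h3⟩ | ⟨h1, h2⟩) | ⟨⟨h1, h2⟩, h3⟩)
          · exact ⟨⟨h1, h2.trans (hlr.le.trans hrb)⟩, h3⟩
          · exact ⟨⟨lt_of_le_of_lt hal h1, h2.le.trans hrb⟩, hp θ ⟨h1, h2⟩⟩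
          · exact ⟨⟨lt_of_le_of_lt (hal.trans hlr.le) h1, h2⟩, h3⟩
      have hm : ∀ u v : ℝ, MeasurableSet {θ : ℝ | θ ∈ Ioc u v ∧ 0 < f θ} := fun u v =>
        measurableSet_Ioc.inter (isOpen_lt continuous_const hf).measurableSet
      have hI : IntegrableOn φ (Icc a b) := hφ.integrableOn_Icc
      have t1 : {θ : ℝ | θ ∈ Ioc a l ∧ 0 < f θ} ⊆ Icc a b := fun θ hθ =>
        ⟨hθ.1.1.le, hθ.1.2.trans (hlr.le.trans hrb)⟩
      have t2 : Ioo l r ⊆ Icc a b := fun θ hθ => ⟨hal.trans hθ.1.le, hθ.2.le.trans hrb⟩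
      have t3 : {θ : ℝ | θ ∈ Ioc r b ∧ 0 < f θ} ⊆ Icc a b := fun θ hθ =>
        ⟨(hal.trans hlr.le).trans hθ.1.1.le, hθ.1.2⟩
      rw [hset, setIntegral_union ?_ (hm r b) (hI.mono_set (union_subset t1 t2))
        (hI.mono_set t3), setIntegral_union ?_ measurableSet_Ioo (hI.mono_set t1)
        (hI.mono_set t2), i1 φ hφ, i2 φ hφ, List.map_append, List.sum_append, List.map_cons,
        List.sum_cons, ← integral_Ioc_eq_integral_Ioo, ← intervalIntegral.integral_of_le hlr.le,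
        add_assoc]
      · rw [Set.disjoint_left]
        rintro θ ⟨⟨_, h2⟩, _⟩ ⟨h3, _⟩
        exact absurd h2 (not_le.2 h3)
      · rw [Set.disjoint_left]
        rintro θ (⟨⟨_, h2⟩, _⟩ | ⟨_, h2⟩) ⟨⟨h3, _⟩, _⟩
        · exact absurd (h2.trans_lt (hlr.trans h3)) (lt_irrefl _)
        · exact absurd (h2.trans h3) (lt_irrefl _)
  · push Not at hpos
    refine ⟨[], by simp, fun φ _ => ?_⟩
    have : {θ : ℝ | θ ∈ Ioc a b ∧ 0 < f θ} = ∅ := by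
      rw [Set.eq_empty_iff_forall_notMem]
      rintro θ ⟨h1, h2⟩
      exact absurd h2 (not_lt.2 (hpos θ ⟨h1.1.le, h1.2⟩))
    rw [this]
    simp


theorem rot {f φ : ℝ → ℝ} (pf : Function.Periodic f (2 * π)) (pφ : Function.Periodic φ (2 * π))
    (hf : Continuous f) (a : ℝ) :
    ∫ θ in {θ : ℝ | θ ∈ Ioc (-π) π ∧ 0 < f θ}, φ θ =
      ∫ θ in {θ : ℝ | θ ∈ Ioc a (a + 2 * π) ∧ 0 < f θ}, φ θ := by
  have hS : MeasurableSet {θ : ℝ | 0 < f θ} := (isOpen_lt continuous_const hf).measurableSet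
  have key : ∀ u : ℝ, ∫ θ in {θ : ℝ | θ ∈ Ioc u (u + 2 * π) ∧ 0 < f θ}, φ θ =
      ∫ θ in u..(u + 2 * π), ({θ : ℝ | 0 < f θ}).indicator φ θ := by
    intro u
    rw [intervalIntegral.integral_of_le (by linarith [Real.pi_pos]), setIntegral_indicator hS]
    rfl
  have hper : Function.Periodic (({θ : ℝ | 0 < f θ}).indicator φ) (2 * π) := by
    intro θ
    by_cases h : 0 < f θ
    · rw [indicator_of_mem (show θ + 2 * π ∈ {θ : ℝ | 0 < f θ} by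
        show 0 < f (θ + 2 * π); rw [pf θ]; exact h), indicator_of_mem (show θ ∈ _ from h), pφ θ]
    · rw [indicator_of_notMem (show θ + 2 * π ∉ {θ : ℝ | 0 < f θ} by
        show ¬ 0 < f (θ + 2 * π); rw [pf θ]; exact h), indicator_of_notMem (show θ ∉ _ from h)]
  have h1 := key (-π)
  rw [show (-π + 2 * π : ℝ) = π by ring] at h1
  rw [h1, key a, ← hper.intervalIntegral_add_eq (-π) a]
  congr 1
  ring

end Pool.Agent.H36.SZ
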