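import Pool.Agent.H36.SZ.LbD
import Pool.Agent.H36.SZ.JF
import Pool.Agent.H36.SZ.Reg

/-!
# The values of `J`

PROOF. `yy J t u = 4 sinh^2 t + 4 cos^2 u` (`yy_J`), so `yy J t u > Xl t θ` iff `cos^2 u > cos^2 θ`,
i.e. for `u ∈ (-π, π]`: `u ∈ (-θ, θ) ∪ (π - θ, π] ∪ (-π, -π + θ)`. All integrands `φ` below are
`π`-periodic and even functions of `u` (expressions in `cos^2 u`), so the integral over the set
is `2 ∫_(-θ)^θ φ` (`J_set`). `‖G1 J‖^2 = |2 S cos u + 2 i C sin u|^2 = 4 S^2 cos^2 u + 4 C^2 sin^2 u`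
(`G1_J`; check its form), `jr J = 2 sinh 2t` (`jr_J`).
`∫_(-θ)^θ cos^2 = θ + sin θ cos θ`, `∫ sin^2 = θ - sin θ cos θ`; so
`CA = 4 θ`, `EA = 8 (θ cosh 2t - sin θ cos θ)`, `MA = 8 (θ cosh 2t + sin θ cos θ)`.
`OA`: `∫_(-θ)^θ 2 sinh 2t / (4 S^2 + 4 cos^2 u) du = 2 arctan (tanh t tan θ)`: the function
`arctan (tanh t * tan u)` has on `(-π/2, π/2)` the derivative
`T (1 + tan^2 u) / (1 + T^2 tan^2 u) = T / (cos^2 u + T^2 sin^2 u) = T C^2/(C^2 cos^2 + S^2 sin^2)
= S C / (S^2 + cos^2 u)` (`C^2 = 1 + S^2`), and `2 sinh 2t / (4 (S^2 + cos^2 u)) =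
S C / (S^2 + cos^2 u)`. `ZA = ∫ jr - x ∫ jr / yy = 2 sinh 2t * 4 θ - x OA`.
-/

open Complex MeasureTheory Set Filter Topology
open scoped ComplexConjugate Real

namespace Pool.Agent.H36.SZ

private theorem lbj_cJ (t : ℝ) : Continuous (yy J t) := by
  have e : yy J t = fun θ => 4 * Real.sinh t ^ 2 + 4 * Real.cos θ ^ 2 := funext (yy_J t)
  rw [e]
  fun_prop

private theorem lbj_J0 {t : ℝ} (ht : 0 < t) (θ : ℝ) : 0 < yy J t θ := by
  have h1 := le_yy_J t θ
  have h2 : 0 < Real.sinh t := Real.sinh_pos_iff.2 ht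
  have h3 : 0 < 4 * Real.sinh t ^ 2 := by positivity
  linarith

private theorem lbj_per (t u : ℝ) : yy J t (u + π) = yy J t u := by
  rw [yy_J, yy_J, Real.cos_add_pi, neg_sq]

private theorem lbj_G1 (t u : ℝ) :
    ‖G1 J t u‖ ^ 2 = 4 * Real.sinh t ^ 2 * Real.cos u ^ 2 + 4 * Real.cosh t ^ 2 * Real.sin u ^ 2 := by
  rw [G1_J, ← Complex.normSq_eq_norm_sq, show (2 * (Real.sinh t : ℂ) * (Real.cos u : ℂ) +
    2 * (Real.cosh t : ℂ) * (Real.sin u : ℂ) * I) =
    ((2 * Real.sinh t * Real.cos u : ℝ) : ℂ) + ((2 * Real.cosh t * Real.sin u : ℝ) : ℂ) * I by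
    push_cast; ring, Complex.normSq_add_mul_I]
  ring

private theorem lbj_cos {θ : ℝ} : ∫ u in (-θ)..θ, Real.cos u ^ 2 = θ + Real.sin θ * Real.cos θ := by
  rw [integral_cos_sq, Real.cos_neg, Real.sin_neg]
  ring

private theorem lbj_sin {θ : ℝ} : ∫ u in (-θ)..θ, Real.sin u ^ 2 = θ - Real.sin θ * Real.cos θ := by
  rw [integral_sin_sq, Real.cos_neg, Real.sin_neg]
  ring

private theorem lbj_iff {θ u : ℝ} (h0 : 0 < θ) (h1 : θ < π / 2) (hu : -(π / 2) < u)
    (hu' : u ≤ π / 2) : Real.cos θ ^ 2 < Real.cos u ^ 2 ↔ -θ < u ∧ u < θ := by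
  have hc : 0 ≤ Real.cos u := Real.cos_nonneg_of_mem_Icc ⟨hu.le, hu'⟩
  have hcθ : 0 ≤ Real.cos θ := Real.cos_nonneg_of_mem_Icc ⟨by linarith, h1.le⟩
  have hpi := Real.pi_pos
  rw [← abs_lt, sq_lt_sq₀ hcθ hc, ← Real.cos_abs u]
  have ha : |u| ∈ Icc 0 π := ⟨abs_nonneg u, by
    rw [abs_le]
    constructor <;> linarith⟩
  have hθ : θ ∈ Icc 0 π := ⟨h0.le, by linarith⟩
  exact Real.strictAntiOn_cos.lt_iff_gt hθ ha

private theorem lbj_OA {t θ : ℝ} (ht : 0 < t) (h0 : 0 < θ) (h1 : θ < π / 2) :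
    ∫ u in (-θ)..θ, jr J t u / yy J t u = 2 * hJ t θ := by
  have hS : 0 < Real.sinh t := Real.sinh_pos_iff.2 ht
  have hC : 0 < Real.cosh t := Real.cosh_pos t
  have hT : 0 < Real.tanh t := by
    rw [Real.tanh_eq_sinh_div_cosh]
    exact div_pos hS hC
  have hcc : Real.cosh t ^ 2 = Real.sinh t ^ 2 + 1 := Real.cosh_sq t
  have hder : ∀ u ∈ uIcc (-θ) θ, HasDerivAt (fun u => Real.arctan (Real.tanh t * Real.tan u))
      (jr J t u / yy J t u) u := by
    intro u hu
    rw [uIcc_of_le (by linarith)] at hu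
    have hcu : 0 < Real.cos u := Real.cos_pos_of_mem_Ioo ⟨by linarith [hu.1], by linarith [hu.2]⟩
    have h2 := ((Real.hasDerivAt_tan hcu.ne').const_mul (Real.tanh t)).arctan
    refine h2.congr_deriv ?_
    rw [jr_J, yy_J, Real.tan_eq_sin_div_cos, Real.tanh_eq_sinh_div_cosh, Real.sinh_two_mul]
    have hsu := Real.sin_sq_add_cos_sq u
    have e1 : 4 * Real.sinh t ^ 2 + 4 * Real.cos u ^ 2 =
        4 * (Real.cosh t ^ 2 * Real.cos u ^ 2 + Real.sinh t ^ 2 * Real.sin u ^ 2) := by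
      rw [hcc]
      linear_combination (-4 * Real.sinh t ^ 2) * hsu
    have hpos : 0 < Real.cosh t ^ 2 * Real.cos u ^ 2 + Real.sinh t ^ 2 * Real.sin u ^ 2 := by
      positivity
    rw [e1]
    have e2 : 1 + (Real.sinh t / Real.cosh t * (Real.sin u / Real.cos u)) ^ 2 =
        (Real.cosh t ^ 2 * Real.cos u ^ 2 + Real.sinh t ^ 2 * Real.sin u ^ 2) /
          (Real.cosh t ^ 2 * Real.cos u ^ 2) := by
      field_simp
    rw [e2]
    field_simp
    ring
  have hc : Continuous fun u => jr J t u / yy J t u := by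
    have e : (fun u => jr J t u / yy J t u) = fun u => 2 * Real.sinh (2 * t) / yy J t u := by
      funext u
      rw [jr_J]
    rw [e]
    exact continuous_const.div (lbj_cJ t) fun u => (lbj_J0 ht u).ne'
  rw [intervalIntegral.integral_eq_sub_of_hasDerivAt hder (hc.intervalIntegrable _ _)]
  unfold hJ
  rw [Real.tan_neg, mul_neg, Real.arctan_neg]
  ring

theorem J_set {t θ : ℝ} (h0 : 0 < θ) (h1 : θ < π / 2) {φ : ℝ → ℝ} (hφ : Continuous φ)
    (pφ : Function.Periodic φ π) :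
    ∫ u in Ax J t (Xl t θ), φ u = 2 * ∫ u in (-θ)..θ, φ u := by
  have hpi := Real.pi_pos
  have hm : MeasurableSet {u : ℝ | Xl t θ < yy J t u} := measurableSet_lt measurable_const (lbj_cJ t).measurable
  set A : Set ℝ := {u : ℝ | Xl t θ < yy J t u} with hA
  have e1 : Ax J t (Xl t θ) = Ioc (-π) π ∩ A := rfl
  set f : ℝ → ℝ := A.indicator φ with hf
  have hfp : Function.Periodic f π := by
    intro u
    have h2 : u + π ∈ A ↔ u ∈ A := by
      rw [hA]
      simp only [mem_ofPred_eq, lbj_per]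
    rw [hf]
    by_cases h3 : u ∈ A
    · rw [indicator_of_mem h3, indicator_of_mem (h2.2 h3), pφ u]
    · rw [indicator_of_notMem h3, indicator_of_notMem (fun h => h3 (h2.1 h))]
  have hfi : ∀ a b : ℝ, IntervalIntegrable f volume a b := by
    intro a b
    have h2 := (hφ.intervalIntegrable (μ := volume) a b)
    rw [intervalIntegrable_iff] at h2 ⊢
    exact h2.indicator hm
  have e2 : ∫ u in Ax J t (Xl t θ), φ u = ∫ u in (-π)..π, f u := by
    rw [intervalIntegral.integral_of_le (by linarith), hf, setIntegral_indicator hm, e1]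
  have e3 : ∀ a : ℝ, ∫ u in a..(a + π), f u = ∫ u in (-(π / 2))..(π / 2), f u := by
    intro a
    have h2 := hfp.intervalIntegral_add_eq a (-(π / 2))
    have h3 : -(π / 2) + π = π / 2 := by ring
    rw [h3] at h2
    exact h2
  have e4 : ∫ u in (-π)..π, f u = 2 * ∫ u in (-(π / 2))..(π / 2), f u := by
    rw [← intervalIntegral.integral_add_adjacent_intervals (hfi (-π) 0) (hfi 0 π)]
    have h2 := e3 (-π)
    have h3 := e3 0
    rw [neg_add_cancel] at h2
    rw [zero_add] at h3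
    rw [h2, h3]
    ring
  have e5 : Ioc (-(π / 2)) (π / 2) ∩ A = Ioo (-θ) θ := by
    ext u
    simp only [mem_inter_iff, mem_Ioc, mem_Ioo, hA, mem_ofPred_eq]
    have h2 : Xl t θ < yy J t u ↔ Real.cos θ ^ 2 < Real.cos u ^ 2 := by
      unfold Xl
      rw [yy_J]
      constructor <;> intro h <;> linarith
    rw [h2]
    constructor
    · rintro ⟨⟨h3, h4⟩, h5⟩
      exact (lbj_iff h0 h1 h3 h4).1 h5
    · rintro ⟨h3, h4⟩
      have h5 : -(π / 2) < u := by linarith
      have h6 : u ≤ π / 2 := by linarith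
      exact ⟨⟨h5, h6⟩, (lbj_iff h0 h1 h5 h6).2 ⟨h3, h4⟩⟩
  rw [e2, e4, intervalIntegral.integral_of_le (by linarith : -(π / 2) ≤ π / 2), hf,
    setIntegral_indicator hm, e5, ← integral_Ioc_eq_integral_Ioo,
    ← intervalIntegral.integral_of_le (by linarith : -θ ≤ θ)]

theorem CA_J {t θ : ℝ} (h0 : 0 < θ) (h1 : θ < π / 2) : CA J t (Xl t θ) = 4 * θ := by
  unfold CA
  rw [J_set (t := t) h0 h1 continuous_const (fun _ => rfl), intervalIntegral.integral_const, smul_eq_mul]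
  ring

theorem EA_J {t θ : ℝ} (h0 : 0 < θ) (h1 : θ < π / 2) :
    EA J t (Xl t θ) = 8 * (θ * Real.cosh (2 * t) - Real.sin θ * Real.cos θ) := by
  unfold EA
  have e : (fun u => ‖G1 J t u‖ ^ 2) = fun u =>
      4 * Real.sinh t ^ 2 * Real.cos u ^ 2 + 4 * Real.cosh t ^ 2 * Real.sin u ^ 2 :=
    funext (lbj_G1 t)
  have hc : Continuous fun u => ‖G1 J t u‖ ^ 2 := by
    rw [e]
    fun_prop
  have hp : Function.Periodic (fun u => ‖G1 J t u‖ ^ 2) π := by
    rw [e]
    intro u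
    beta_reduce
    rw [Real.cos_add_pi, Real.sin_add_pi, neg_sq, neg_sq]
  rw [J_set h0 h1 hc hp, e, intervalIntegral.integral_add
    (Continuous.intervalIntegrable (by fun_prop) _ _)
    (Continuous.intervalIntegrable (by fun_prop) _ _), intervalIntegral.integral_const_mul,
    intervalIntegral.integral_const_mul, lbj_cos, lbj_sin, Real.cosh_two_mul, Real.cosh_sq]
  ring

theorem MA_J {t θ : ℝ} (h0 : 0 < θ) (h1 : θ < π / 2) :
    MA J t (Xl t θ) = 8 * (θ * Real.cosh (2 * t) + Real.sin θ * Real.cos θ) := by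
  unfold MA
  have e : (fun u => yy J t u) = fun u => 4 * Real.sinh t ^ 2 + 4 * Real.cos u ^ 2 :=
    funext (yy_J t)
  rw [J_set h0 h1 (lbj_cJ t) (lbj_per t), e, intervalIntegral.integral_add
    (Continuous.intervalIntegrable (by fun_prop) _ _)
    (Continuous.intervalIntegrable (by fun_prop) _ _), intervalIntegral.integral_const,
    intervalIntegral.integral_const_mul, lbj_cos, Real.cosh_two_mul, Real.cosh_sq, smul_eq_mul]
  ring

theorem OA_J {t θ : ℝ} (ht : 0 < t) (h0 : 0 < θ) (h1 : θ < π / 2) :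
    OA J t (Xl t θ) = 4 * hJ t θ := by
  unfold OA
  have hc : Continuous fun u => jr J t u / yy J t u := by
    have e : (fun u => jr J t u / yy J t u) = fun u => 2 * Real.sinh (2 * t) / yy J t u := by
      funext u
      rw [jr_J]
    rw [e]
    exact continuous_const.div (lbj_cJ t) fun u => (lbj_J0 ht u).ne'
  have hp : Function.Periodic (fun u => jr J t u / yy J t u) π := by
    intro u
    beta_reduce
    rw [jr_J, jr_J, lbj_per]
  rw [J_set h0 h1 hc hp, lbj_OA ht h0 h1]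
  ring

theorem ZA_J {t θ : ℝ} (ht : 0 < t) (h0 : 0 < θ) (h1 : θ < π / 2) :
    ZA J t (Xl t θ) = 8 * Real.sinh (2 * t) * θ - 4 * Xl t θ * hJ t θ := by
  unfold ZA
  have hc : Continuous fun u => jr J t u / yy J t u := by
    have e : (fun u => jr J t u / yy J t u) = fun u => 2 * Real.sinh (2 * t) / yy J t u := by
      funext u
      rw [jr_J]
    rw [e]
    exact continuous_const.div (lbj_cJ t) fun u => (lbj_J0 ht u).ne'
  have e : (fun u => (1 - Xl t θ / yy J t u) * jr J t u) =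
      fun u => 2 * Real.sinh (2 * t) - Xl t θ * (jr J t u / yy J t u) := by
    funext u
    rw [jr_J]
    ring
  have hc2 : Continuous fun u => (1 - Xl t θ / yy J t u) * jr J t u := by
    rw [e]
    exact continuous_const.sub (continuous_const.mul hc)
  have hp : Function.Periodic (fun u => (1 - Xl t θ / yy J t u) * jr J t u) π := by
    intro u
    beta_reduce
    rw [jr_J, jr_J, lbj_per]
  have hi : IntervalIntegrable (fun u => Xl t θ * (jr J t u / yy J t u)) volume (-θ) θ :=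
    (continuous_const.mul hc).intervalIntegrable _ _
  rw [J_set h0 h1 hc2 hp, e, intervalIntegral.integral_sub intervalIntegrable_const hi,
    intervalIntegral.integral_const, intervalIntegral.integral_const_mul, lbj_OA ht h0 h1,
    smul_eq_mul]
  ring

/-- every level between `4 sinh^2 t` and `4 cosh^2 t` is some `Xl t θ` -/
theorem Xl_surj {t x : ℝ} (lo : 4 * Real.sinh t ^ 2 < x) (hi : x < 4 * Real.cosh t ^ 2) :
    ∃ θ : ℝ, 0 < θ ∧ θ < π / 2 ∧ Xl t θ = x := by
  have hcs : Real.cosh t ^ 2 = Real.sinh t ^ 2 + 1 := Real.cosh_sq t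
  set c : ℝ := √((x - 4 * Real.sinh t ^ 2) / 4) with hc
  have h0 : 0 < (x - 4 * Real.sinh t ^ 2) / 4 := by linarith
  have h1 : (x - 4 * Real.sinh t ^ 2) / 4 < 1 := by rw [hcs] at hi; linarith
  have hc0 : 0 < c := Real.sqrt_pos.2 h0
  have hc1 : c < 1 := by
    rw [hc, Real.sqrt_lt' one_pos]
    linarith
  refine ⟨Real.arccos c, Real.arccos_pos.2 hc1, Real.arccos_lt_pi_div_two.2 hc0, ?_⟩
  unfold Xl
  rw [Real.cos_arccos (by linarith) hc1.le, hc, Real.sq_sqrt h0.le]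
  ring

end Pool.Agent.H36.SZ
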