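import Pool.Agent.H36.SZ.LbD
import Pool.Agent.H36.SZ.Co

/-!
# One arc gives one lobe

PROOF of `Sg.lobe1`. `c = (p + r)/2`, `β = (r - p)/2`. On `[p, r]`: `|G|^2 >= x > 0` (continuity at
the ends), so `G ≠ 0`. `k θ = ∫_p^θ G1/G` (continuous integrand on a neighbourhood? use
`k θ = ∫ s in p..θ, G1 s * conj (G s) / yy s` only on `[p, r]`, where it is continuous); the
function `G θ * exp (- i k θ)` has derivative `(i G1 - i G (G1/G)) exp = 0` on `[p, r]`
(`HasDerivAt`/`HasDerivWithinAt`, `constant_of_derivWithin_zero`), so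
`G r = G p * exp (i ∫_p^r G1/G)`. Taking norms (`|G p| = |G r| = sqrt x`) `Im ∫ G1/G = 0`, and
`Re ∫ G1/G = ∫ jr/yy =: 2 η`. So `G r = G p exp (2 i η)`. `G p = sqrt x * w`, `|w| = 1`; put
`e = conj w * exp (- i η)`, `g u = e * G (c + u)`, `g' u = e * (I * G1 (c + u))`
(`An.hGq`: derivative of `G` in `θ`). Then `g (-β) = e G p = sqrt x exp (- i η)`, `g β = e G r =
sqrt x exp (i η)`. `Im (conj g * g') = Im (conj G * i G1) = Re (conj G * G1) = jr`. All integrals:
substitution `θ = c + u` (`intervalIntegral.integral_comp_add_left`).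
`nrm`: `Sg.nrm` (periodicity for all `θ`: look at its statement). `co`: `Sg.co` for intervals
`B`: it is stated for subsets of `(-π, π]`; for an interval `[c + p', c + r']` of length `<= 2π`
use the rotation `F_a z = e^(-ia) F (e^(ia) z)`, again in the class, or (simpler) the shift
`B' = ` the interval moved mod `2π`: split at `π` into two pieces (union has the same measure) and
periodicity of `G`. Recommended: first prove the private lemma
`∀ a r, a <= r <= a + 2π -> ‖∫ θ in a..r, G F t θ‖ <= 4 cosh t sin ((r-a)/2)` by reducing `a` to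
`(-π, π]` with `toIocMod` and splitting.
-/

open Complex MeasureTheory Set Filter Topology
open scoped ComplexConjugate Real

namespace Pool.Agent.H36.SZ

variable {F : ℂ → ℂ} {b : ℕ → ℂ} {q : ℝ}

private theorem lb_qexp (h : Sg F b q) {t : ℝ} (ht : 0 ≤ t) : q < Real.exp t :=
  lt_of_lt_of_le h.q1 (Real.one_le_exp ht)

private theorem co_arc0 (h : Sg F b q) {t : ℝ} (ht : 0 ≤ t) {a r : ℝ} (ha : -π < a) (ha' : a ≤ π)
    (har : a ≤ r) (hr : r ≤ a + 2 * π) :
    ‖∫ θ in a..r, G F t θ‖ ≤ 4 * Real.cosh t * Real.sin ((r - a) / 2) := by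
  have hcG : Continuous (G F t) := h.an.cGt (lb_qexp h ht)
  rcases le_total r π with h1 | h1
  · rw [intervalIntegral.integral_of_le har]
    have hs : Ioc a r ⊆ Ioc (-π) π := Ioc_subset_Ioc ha.le h1
    have h4 := h.co ht measurableSet_Ioc hs
    rw [Real.volume_real_Ioc_of_le har] at h4
    exact h4
  · have hper := G_per F t
    have e1 : ∫ θ in a..r, G F t θ = (∫ θ in a..π, G F t θ) + ∫ θ in π..r, G F t θ :=
      (intervalIntegral.integral_add_adjacent_intervals (hcG.intervalIntegrable _ _)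
        (hcG.intervalIntegrable _ _)).symm
    have e2 : ∫ θ in π..r, G F t θ = ∫ θ in (-π)..(r - 2 * π), G F t θ := by
      have := intervalIntegral.integral_comp_add_right (a := -π) (b := r - 2 * π) (fun θ => G F t θ)
        (2 * π)
      rw [show -π + 2 * π = π by ring, sub_add_cancel] at this
      rw [← this]
      refine intervalIntegral.integral_congr fun θ _ => ?_
      exact hper θ
    have hdis : Disjoint (Ioc (-π) (r - 2 * π)) (Ioc a π) := by
      rw [Set.disjoint_left]
      rintro y ⟨_, hy2⟩ ⟨hy3, _⟩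
      linarith
    have hsub : Ioc (-π) (r - 2 * π) ∪ Ioc a π ⊆ Ioc (-π) π := by
      apply union_subset
      · exact Ioc_subset_Ioc le_rfl (by linarith)
      · exact Ioc_subset_Ioc ha.le le_rfl
    have h4 := h.co ht (measurableSet_Ioc.union measurableSet_Ioc) hsub
    have i1 : IntegrableOn (G F t) (Ioc (-π) (r - 2 * π)) :=
      (hcG.integrableOn_Icc (a := -π) (b := r - 2 * π)).mono_set Ioc_subset_Icc_self
    have i2 : IntegrableOn (G F t) (Ioc a π) :=
      (hcG.integrableOn_Icc (a := a) (b := π)).mono_set Ioc_subset_Icc_self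
    rw [setIntegral_union hdis measurableSet_Ioc i1 i2,
      measureReal_union hdis measurableSet_Ioc (by rw [Real.volume_Ioc]; exact ENNReal.ofReal_ne_top)
        (by rw [Real.volume_Ioc]; exact ENNReal.ofReal_ne_top),
      Real.volume_real_Ioc_of_le (by linarith), Real.volume_real_Ioc_of_le ha'] at h4
    rw [e1, e2, intervalIntegral.integral_of_le ha', intervalIntegral.integral_of_le (by linarith),
      add_comm]
    rw [show r - 2 * π - -π + (π - a) = r - a by ring] at h4
    exact h4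

theorem Sg.co_arc (h : Sg F b q) {t : ℝ} (ht : 0 ≤ t) {a r : ℝ} (har : a ≤ r)
    (hr : r ≤ a + 2 * π) :
    ‖∫ θ in a..r, G F t θ‖ ≤ 4 * Real.cosh t * Real.sin ((r - a) / 2) := by
  have hper := G_per F t
  set k : ℤ := toIocDiv Real.two_pi_pos (-π) a with hk
  have h1 := toIocMod_add_toIocDiv_zsmul Real.two_pi_pos (-π) a
  have h2 := toIocMod_mem_Ioc Real.two_pi_pos (-π) a
  set a' : ℝ := toIocMod Real.two_pi_pos (-π) a with ha'
  rw [← hk, zsmul_eq_mul] at h1
  have e : ∫ θ in a..r, G F t θ = ∫ θ in a'..(r - k * (2 * π)), G F t θ := by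
    have := intervalIntegral.integral_comp_add_right (a := a') (b := r - k * (2 * π))
      (fun θ => G F t θ) (k * (2 * π))
    rw [h1, sub_add_cancel] at this
    rw [← this]
    refine intervalIntegral.integral_congr fun θ _ => ?_
    exact hper.int_mul k θ
  rw [e]
  have h3 := co_arc0 h ht (a := a') (r := r - k * (2 * π)) h2.1 (by linarith [h2.2]) (by linarith)
    (by linarith)
  rw [show r - k * (2 * π) - a' = r - a by linarith] at h3
  exact h3

theorem Sg.lobe1 (h : Sg F b q) {t x p r : ℝ} (ht : 0 ≤ t) (hx : 0 < x) (hpr : p < r)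
    (hr : r < p + 2 * π) (hp0 : yy F t p = x) (hr0 : yy F t r = x)
    (hpos : ∀ θ ∈ Ioo p r, x < yy F t θ) :
    ∃ l : Lb, l.Ok (Real.cosh t) x ∧ 2 * l.b = r - p ∧
      l.E = ∫ θ in p..r, ‖G1 F t θ‖ ^ 2 ∧ l.M = ∫ θ in p..r, yy F t θ ∧
      2 * l.h = ∫ θ in p..r, jr F t θ / max (yy F t θ) x ∧
      l.A - 2 * x * l.h = ∫ θ in p..r, (1 - x / max (yy F t θ) x) * jr F t θ := by
  have hq := lb_qexp h ht
  have hG : Continuous (G F t) := h.an.cGt hq
  have hG1 : Continuous (G1 F t) := h.an.cG1t hq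
  have hyy : Continuous (yy F t) := hG.norm.pow 2
  have hjr : Continuous (jr F t) :=
    Complex.continuous_re.comp ((Complex.continuous_conj.comp hG).mul hG1)
  have hm : Continuous fun θ => max (yy F t θ) x := hyy.max continuous_const
  have hmpos : ∀ θ, 0 < max (yy F t θ) x := fun θ => lt_max_of_lt_right hx
  have hge : ∀ θ ∈ Icc p r, x ≤ yy F t θ := by
    intro θ hθ
    rcases hθ.1.eq_or_lt with h1 | h1
    · rw [← h1, hp0]
    · rcases hθ.2.eq_or_lt with h2 | h2
      · rw [h2, hr0]
      · exact (hpos θ ⟨h1, h2⟩).le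
  have hmax : ∀ θ ∈ Icc p r, max (yy F t θ) x = yy F t θ := fun θ hθ => max_eq_left (hge θ hθ)
  -- the logarithmic derivative
  set Φ : ℝ → ℂ := fun θ => (conj (G F t θ) * G1 F t θ) / ((max (yy F t θ) x : ℝ) : ℂ) with hΦ
  have hΦc : Continuous Φ := by
    refine ((Complex.continuous_conj.comp hG).mul hG1).div (Complex.continuous_ofReal.comp hm) ?_
    intro θ
    exact Complex.ofReal_ne_zero.2 (hmpos θ).ne'
  have hyc : ∀ θ, conj (G F t θ) * G F t θ = ((yy F t θ : ℝ) : ℂ) := by
    intro θ
    rw [Complex.conj_mul']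
    unfold yy
    push_cast
    rfl
  have hΦG : ∀ θ ∈ Icc p r, G F t θ * Φ θ = G1 F t θ := by
    intro θ hθ
    have h1 : ((yy F t θ : ℝ) : ℂ) ≠ 0 :=
      Complex.ofReal_ne_zero.2 (lt_of_lt_of_le hx (hge θ hθ)).ne'
    simp only [hΦ]
    rw [hmax θ hθ, mul_div_assoc', div_eq_iff h1, ← hyc]
    ring
  set K : ℝ → ℂ := fun θ => ∫ s in p..θ, Φ s with hK
  have hKd : ∀ θ, HasDerivAt K (Φ θ) θ := fun θ =>
    intervalIntegral.integral_hasDerivAt_right (hΦc.intervalIntegrable _ _)
      (hΦc.stronglyMeasurableAtFilter _ _) hΦc.continuousAt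
  have hE : ∀ θ, HasDerivAt (fun s => G F t s * exp (-(I * K s)))
      (I * G1 F t θ * exp (-(I * K θ)) + G F t θ * (exp (-(I * K θ)) * (-(I * Φ θ)))) θ := by
    intro θ
    exact (h.an.hGq θ hq).mul ((((hKd θ).const_mul I).neg).cexp)
  have hconst : G F t r * exp (-(I * K r)) = G F t p := by
    have h1 := constant_of_has_deriv_right_zero (a := p) (b := r)
      (f := fun s => G F t s * exp (-(I * K s)))
      (fun θ _ => (hE θ).continuousAt.continuousWithinAt)
      (fun θ hθ => by
        have h2 := (hE θ).hasDerivWithinAt (s := Ici θ)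
        have h3 : I * G1 F t θ * exp (-(I * K θ)) + G F t θ * (exp (-(I * K θ)) * (-(I * Φ θ))) =
            0 := by
          have h4 := hΦG θ ⟨hθ.1, hθ.2.le⟩
          linear_combination (-(I * exp (-(I * K θ)))) * h4
        rw [h3] at h2
        exact h2) r ⟨hpr.le, le_rfl⟩
    have h5 : K p = 0 := by simp [hK]
    simp only [h5] at h1
    rw [h1]
    simp
  have hsx : 0 < √x := Real.sqrt_pos.2 hx
  have hnp : ‖G F t p‖ = √x := by
    rw [← hp0]
    unfold yy
    rw [Real.sqrt_sq (norm_nonneg _)]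
  have hnr : ‖G F t r‖ = √x := by
    rw [← hr0]
    unfold yy
    rw [Real.sqrt_sq (norm_nonneg _)]
  have hKim : (K r).im = 0 := by
    have h1 := congrArg norm hconst
    rw [norm_mul, hnr, hnp, Complex.norm_exp] at h1
    have h2 : Real.exp (-(I * K r)).re = 1 := by
      apply mul_left_cancel₀ hsx.ne'
      rw [h1, mul_one]
    have h3 : (-(I * K r)).re = 0 := by
      rw [← Real.exp_eq_one_iff]
      exact h2
    simpa using h3
  obtain ⟨η, hη⟩ : ∃ η : ℝ, η = (∫ θ in p..r, jr F t θ / max (yy F t θ) x) / 2 := ⟨_, rfl⟩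
  have hjc : Continuous fun θ => jr F t θ / max (yy F t θ) x :=
    hjr.div hm fun θ => (hmpos θ).ne'
  have hKre : (K r).re = 2 * η := by
    have h1 : ∫ θ in p..r, Complex.reCLM (Φ θ) = Complex.reCLM (∫ θ in p..r, Φ θ) :=
      Complex.reCLM.intervalIntegral_comp_comm (hΦc.intervalIntegrable _ _)
    have h2 : (K r).re = ∫ θ in p..r, Complex.reCLM (Φ θ) := h1.symm
    rw [h2, hη]
    have h3 : ∫ θ in p..r, Complex.reCLM (Φ θ) = ∫ θ in p..r, jr F t θ / max (yy F t θ) x := by
      refine intervalIntegral.integral_congr fun θ _ => ?_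
      simp only [hΦ, Complex.reCLM_apply, Complex.div_ofReal_re]
      rfl
    rw [h3]
    ring
  have hKr : K r = ((2 * η : ℝ) : ℂ) := by
    apply Complex.ext
    · rw [hKre, Complex.ofReal_re]
    · rw [hKim, Complex.ofReal_im]
  have hGr : G F t r = G F t p * exp (2 * η * I) := by
    rw [← hconst, mul_assoc, ← Complex.exp_add, hKr]
    have : -(I * ((2 * η : ℝ) : ℂ)) + 2 * η * I = 0 := by push_cast; ring
    rw [this, Complex.exp_zero, mul_one]
  -- the rotation
  obtain ⟨e, he⟩ : ∃ e : ℂ, e = conj (G F t p) / (√x : ℂ) * exp (-(η * I)) := ⟨_, rfl⟩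
  have hsxc : ((√x : ℝ) : ℂ) ≠ 0 := Complex.ofReal_ne_zero.2 hsx.ne'
  have hne : ‖e‖ = 1 := by
    rw [he, norm_mul, norm_div, RCLike.norm_conj, hnp, Complex.norm_real, Real.norm_of_nonneg hsx.le,
      div_self hsx.ne', one_mul, Complex.norm_exp]
    simp
  have heG : e * G F t p = (√x : ℂ) * exp (-(η * I)) := by
    have h1 : conj (G F t p) * G F t p = (√x : ℂ) * (√x : ℂ) := by
      rw [hyc, hp0, ← Complex.ofReal_mul, Real.mul_self_sqrt hx.le]
    calc e * G F t p = (conj (G F t p) * G F t p) / (√x : ℂ) * exp (-(η * I)) := by rw [he]; ring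
      _ = (√x : ℂ) * exp (-(η * I)) := by rw [h1, mul_div_assoc, div_self hsxc, mul_one]
  obtain ⟨c, hc⟩ : ∃ c : ℝ, c = (p + r) / 2 := ⟨_, rfl⟩
  obtain ⟨β, hβ⟩ : ∃ β : ℝ, β = (r - p) / 2 := ⟨_, rfl⟩
  have hcm : c + -β = p := by rw [hc, hβ]; ring
  have hcp : c + β = r := by rw [hc, hβ]; ring
  have hshift : ∀ f : ℝ → ℝ, ∫ u in (-β)..β, f (c + u) = ∫ θ in p..r, f θ := by
    intro f
    rw [intervalIntegral.integral_comp_add_left, hcm, hcp]
  have him : ∀ u : ℝ, (conj (e * G F t (c + u)) * (e * (I * G1 F t (c + u)))).im = jr F t (c + u) := by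
    intro u
    have h1 : conj e * e = 1 := by
      rw [Complex.conj_mul', hne]
      simp
    have h2 : conj (e * G F t (c + u)) * (e * (I * G1 F t (c + u))) =
        I * (conj (G F t (c + u)) * G1 F t (c + u)) := by
      rw [map_mul]
      linear_combination (conj (G F t (c + u)) * (I * G1 F t (c + u))) * h1
    rw [h2, Complex.I_mul_im]
    rfl
  have hny : ∀ u : ℝ, ‖e * G F t (c + u)‖ ^ 2 = yy F t (c + u) := by
    intro u
    rw [norm_mul, hne, one_mul]
    rfl
  have hIcc : ∀ u ∈ Icc (-β) β, c + u ∈ Icc p r := by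
    intro u hu
    constructor <;> linarith [hu.1, hu.2]
  have huI : ∀ u ∈ uIcc p r, u ∈ Icc p r := by
    intro u hu
    rwa [uIcc_of_le hpr.le] at hu
  refine ⟨⟨β, η, fun u => e * G F t (c + u), fun u => e * (I * G1 F t (c + u))⟩, ?_, ?_, ?_, ?_, ?_,
    ?_⟩
  · constructor
    · show 0 < β
      rw [hβ]; linarith
    · show β < π
      rw [hβ]; linarith
    · intro u
      have h1 := (h.an.hGq (c + u) hq).comp_const_add c u
      exact h1.const_mul e
    · exact continuous_const.mul (continuous_const.mul (hG1.comp (continuous_const.add continuous_id)))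
    · show e * G F t (c + β) = (√x : ℂ) * exp (η * I)
      rw [hcp, hGr, ← mul_assoc, heG, mul_assoc, ← Complex.exp_add]
      congr 2
      ring
    · show e * G F t (c + -β) = (√x : ℂ) * exp (-(η * I))
      rw [hcm, heG]
    · intro u hu
      show x ≤ ‖e * G F t (c + u)‖ ^ 2
      rw [hny]
      exact hge _ (hIcc u hu)
    · show ∫ u in (-β)..β, (conj (e * G F t (c + u)) * (e * (I * G1 F t (c + u)))).im /
        ‖e * G F t (c + u)‖ ^ 2 = 2 * η
      have h1 : ∫ u in (-β)..β, (conj (e * G F t (c + u)) * (e * (I * G1 F t (c + u)))).im /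
          ‖e * G F t (c + u)‖ ^ 2 = ∫ u in (-β)..β, (fun θ => jr F t θ / yy F t θ) (c + u) := by
        refine intervalIntegral.integral_congr fun u _ => ?_
        show (conj (e * G F t (c + u)) * (e * (I * G1 F t (c + u)))).im /
          ‖e * G F t (c + u)‖ ^ 2 = jr F t (c + u) / yy F t (c + u)
        rw [him, hny]
      rw [h1, hshift (fun θ => jr F t θ / yy F t θ), hη]
      have h2 : ∫ θ in p..r, jr F t θ / yy F t θ = ∫ θ in p..r, jr F t θ / max (yy F t θ) x := by
        refine intervalIntegral.integral_congr fun θ hθ => ?_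
        show jr F t θ / yy F t θ = jr F t θ / max (yy F t θ) x
        rw [hmax θ (huI θ hθ)]
      rw [h2]
      ring
    · intro u
      show ‖e * G F t (c + u)‖ ≤ 2 * Real.cosh t
      rw [norm_mul, hne, one_mul]
      exact h.nrm ht _
    · intro p' r' h1 h2 h3
      show ‖∫ u in p'..r', e * G F t (c + u)‖ ≤ 4 * Real.cosh t * Real.sin ((r' - p') / 2)
      have h1' : -β ≤ p' := h1
      have h3' : r' ≤ β := h3
      rw [intervalIntegral.integral_const_mul, norm_mul, hne, one_mul,
        intervalIntegral.integral_comp_add_left (fun θ => G F t θ) c]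
      have h4 := h.co_arc ht (a := c + p') (r := c + r') (by linarith) (by linarith)
      rw [show c + r' - (c + p') = r' - p' by ring] at h4
      exact h4
  · show 2 * β = r - p
    rw [hβ]; ring
  · show ∫ u in (-β)..β, ‖e * (I * G1 F t (c + u))‖ ^ 2 = ∫ θ in p..r, ‖G1 F t θ‖ ^ 2
    rw [← hshift (fun θ => ‖G1 F t θ‖ ^ 2)]
    refine intervalIntegral.integral_congr fun u _ => ?_
    show ‖e * (I * G1 F t (c + u))‖ ^ 2 = ‖G1 F t (c + u)‖ ^ 2
    rw [norm_mul, norm_mul, hne, Complex.norm_I, one_mul, one_mul]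
  · show ∫ u in (-β)..β, ‖e * G F t (c + u)‖ ^ 2 = ∫ θ in p..r, yy F t θ
    rw [← hshift (fun θ => yy F t θ)]
    refine intervalIntegral.integral_congr fun u _ => ?_
    exact hny u
  · show 2 * η = ∫ θ in p..r, jr F t θ / max (yy F t θ) x
    rw [hη]; ring
  · show (∫ u in (-β)..β, (conj (e * G F t (c + u)) * (e * (I * G1 F t (c + u)))).im) - 2 * x * η =
      ∫ θ in p..r, (1 - x / max (yy F t θ) x) * jr F t θ
    have h1 : ∫ u in (-β)..β, (conj (e * G F t (c + u)) * (e * (I * G1 F t (c + u)))).im =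
        ∫ θ in p..r, jr F t θ := by
      rw [← hshift (fun θ => jr F t θ)]
      exact intervalIntegral.integral_congr fun u _ => him u
    have h2 : 2 * x * η = ∫ θ in p..r, x * (jr F t θ / max (yy F t θ) x) := by
      rw [intervalIntegral.integral_const_mul, hη]
      ring
    rw [h1, h2, ← intervalIntegral.integral_sub (hjr.intervalIntegrable _ _)
      ((hjc.const_mul x).intervalIntegrable _ _)]
    refine intervalIntegral.integral_congr fun θ _ => ?_
    show jr F t θ - x * (jr F t θ / max (yy F t θ) x) = (1 - x / max (yy F t θ) x) * jr F t θ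
    ring

end Pool.Agent.H36.SZ
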