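import Pool.Agent.H36.SZ.LbA
import Pool.Agent.H36.SZ.LbO
import Pool.Agent.H36.SZ.LbJ
import Pool.Agent.H36.SZ.Rel
import Pool.Agent.H36.SZ.Lv

/-!
# The lobes at a contact point

PROOF of `Sg.lobes`. `f θ = yy F t θ - x`, continuous, `2π`-periodic, real analytic. `f` is not
identically `0`, and has finitely many zeros in every bounded interval (as in `ana_lv`: an infinite
zero set in a compact interval has an accumulation point, then `f = 0` everywhere by
`AnalyticOnNhd.eqOn_of_preconnected_of_frequently_eq`; then `Ax F t x` is empty and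
`Zf F t x = 0 <= Zf J t x`, against `c.pos`). There is `a` with `f a <= 0`: otherwise `Ax F t x` is
all of `(-π, π]` and `CA F = 2π`, but `CA F <= CA J = 4 θ < 2π` (`c.leC`, `Xl_surj`, `CA_J`).
`rot` (with `φ` one of `1`, `‖G1‖^2`, `yy`, `jr / max yy x`, `(1 - x / max yy x) jr`, continuous
and periodic, equal to the integrands of `CA, EA, MA, OA, ZA` on `Ax`) and `arcs` on
`[a, a + 2π]` give the list of arcs; for each arc `Sg.lobe1` (an arc `(p, r)` has
`r < p + 2π`: `r - p <= 2π`, and equality would give `CA F = 2π`); build the list of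
lobes by induction on the list of arcs (private lemma).
PROOF of `Sg.cl`: `θ` from `Xl_surj c.lo c.hi`; `subst`. `sb`: `c.leC`, `CA_J`. `q2`: `c.q2 v`
divided by `4`. `v`: `VA = MA - x CA` (`An.VA_eq`), `Zf = VA - x LA` (`An.Zf_eq`), `c.pos`, `c.eL`.
`z`: `c.eZ`.
-/

open Complex MeasureTheory Set Filter Topology
open scoped ComplexConjugate Real

namespace Pool.Agent.H36.SZ

variable {F : ℂ → ℂ} {b : ℕ → ℂ} {q : ℝ}

private theorem lbc_build {x : ℝ} {Q : Lb → Prop} {e m o z : ℝ × ℝ → ℝ} :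
    ∀ (L : List (ℝ × ℝ)), (∀ p ∈ L, ∃ l : Lb, Q l ∧ 2 * l.b = p.2 - p.1 ∧ l.E = e p ∧ l.M = m p ∧
      2 * l.h = o p ∧ l.A - 2 * x * l.h = z p) →
    ∃ L' : List Lb, (∀ l ∈ L', Q l) ∧
      (L.map (fun p : ℝ × ℝ => p.2 - p.1)).sum = 2 * (L'.map Lb.b).sum ∧
      (L.map e).sum = (L'.map Lb.E).sum ∧ (L.map m).sum = (L'.map Lb.M).sum ∧
      (L.map o).sum = 2 * (L'.map Lb.h).sum ∧
      (L.map z).sum = (L'.map Lb.A).sum - 2 * x * (L'.map Lb.h).sum
  | [], _ => ⟨[], by simp, by simp, by simp, by simp, by simp, by simp⟩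
  | p :: L, hL => by
    obtain ⟨L', h0, h1, h2, h3, h4, h5⟩ := lbc_build L fun p' hp' => hL p' (by simp [hp'])
    obtain ⟨l, g0, g1, g2, g3, g4, g5⟩ := hL p (by simp)
    refine ⟨l :: L', ?_, ?_, ?_, ?_, ?_, ?_⟩
    · intro l' hl'
      rcases List.mem_cons.1 hl' with h6 | h6
      · rw [h6]
        exact g0
      · exact h0 l' h6
    · simp only [List.map_cons, List.sum_cons]
      rw [h1, ← g1]
      ring
    · simp only [List.map_cons, List.sum_cons]
      rw [h2, ← g2]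
    · simp only [List.map_cons, List.sum_cons]
      rw [h3, ← g3]
    · simp only [List.map_cons, List.sum_cons]
      rw [h4, ← g4]
      ring
    · simp only [List.map_cons, List.sum_cons]
      rw [h5, ← g5]
      ring

private theorem lbc_ana {f : ℝ → ℝ} (hf : AnalyticOnNhd ℝ f univ) (a c : ℝ) :
    {θ : ℝ | θ ∈ Icc a c ∧ f θ = 0}.Finite ∨ ∀ θ, f θ = 0 := by
  by_cases hfin : {θ : ℝ | θ ∈ Icc a c ∧ f θ = 0}.Finite
  · exact Or.inl hfin
  · right
    have hinf : {θ : ℝ | θ ∈ Icc a c ∧ f θ = 0}.Infinite := hfin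
    obtain ⟨x, -, hx⟩ := hinf.exists_accPt_of_subset_isCompact (K := Icc a c) isCompact_Icc
      (fun θ hθ => hθ.1)
    rw [accPt_iff_frequently] at hx
    have hx' : ∃ᶠ y in 𝓝[≠] x, f y = (fun _ => (0 : ℝ)) y := by
      rw [frequently_nhdsWithin_iff]
      refine hx.mono ?_
      rintro y ⟨hy1, hy2⟩
      exact ⟨hy2.2, hy1⟩
    have := hf.eqOn_of_preconnected_of_frequently_eq (g := fun _ => (0 : ℝ))
      (fun _ _ => analyticAt_const) isPreconnected_univ (mem_univ x) hx'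
    intro θ
    exact this (mem_univ θ)

private theorem lbc_anayy (h : An F q) {t : ℝ} (ht : q < Real.exp t) :
    AnalyticOnNhd ℝ (yy F t) univ := by
  intro θ _
  have h1 := h.ana_G ht θ (mem_univ _)
  have hre : AnalyticAt ℝ (fun θ : ℝ => (G F t θ).re) θ :=
    AnalyticAt.fun_comp (f := fun θ : ℝ => G F t θ) (Complex.reCLM.analyticAt _) h1
  have him : AnalyticAt ℝ (fun θ : ℝ => (G F t θ).im) θ :=
    AnalyticAt.fun_comp (f := fun θ : ℝ => G F t θ) (Complex.imCLM.analyticAt _) h1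
  have h2 : AnalyticAt ℝ (fun θ : ℝ => (G F t θ).re * (G F t θ).re +
      (G F t θ).im * (G F t θ).im) θ := (hre.mul hre).add (him.mul him)
  refine h2.congr (Filter.Eventually.of_forall fun s => ?_)
  show _ = ‖G F t s‖ ^ 2
  rw [Complex.sq_norm, Complex.normSq_apply]

/-- with the arcs -/
theorem Sg.lobes' (h : Sg F b q) {t x : ℝ} (c : Ct F t x) :
    ∃ L : List Lb, (∀ l ∈ L, l.Ok (Real.cosh t) x ∧
      ∃ p : ℝ, ∀ s ∈ Ioo p (p + 2 * l.b), x < yy F t s) ∧ CA F t x = 2 * (L.map Lb.b).sum ∧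
      EA F t x = (L.map Lb.E).sum ∧ MA F t x = (L.map Lb.M).sum ∧
      OA F t x = 2 * (L.map Lb.h).sum ∧
      ZA F t x = (L.map Lb.A).sum - 2 * x * (L.map Lb.h).sum := by
  have hpi := Real.pi_pos
  have ht : 0 ≤ t := c.t0.le
  have hq : q < Real.exp t := lt_of_lt_of_le h.q1 (Real.one_le_exp ht)
  have hx : 0 < x := lt_of_le_of_lt (by positivity) c.lo
  have hG : Continuous (G F t) := h.an.cGt hq
  have hG1 : Continuous (G1 F t) := h.an.cG1t hq
  have hyy : Continuous (yy F t) := hG.norm.pow 2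
  have hjr : Continuous (jr F t) :=
    Complex.continuous_re.comp ((Complex.continuous_conj.comp hG).mul hG1)
  have hm : Continuous fun θ => max (yy F t θ) x := hyy.max continuous_const
  have hm0 : ∀ θ, max (yy F t θ) x ≠ 0 := fun θ => (lt_max_of_lt_right hx).ne'
  have pyy : Function.Periodic (yy F t) (2 * π) := fun θ => by
    unfold yy
    rw [G_per F t θ]
  have pG1 : Function.Periodic (G1 F t) (2 * π) := G1_per F t
  have pjr : Function.Periodic (jr F t) (2 * π) := fun θ => by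
    unfold jr
    rw [G_per F t θ, G1_per F t θ]
  set f : ℝ → ℝ := fun θ => yy F t θ - x with hf
  have hfc : Continuous f := hyy.sub continuous_const
  have hfp : Function.Periodic f (2 * π) := fun θ => by
    simp only [hf]
    rw [pyy θ]
  have hfa : AnalyticOnNhd ℝ f univ := by
    intro θ _
    exact ((lbc_anayy h.an hq) θ (mem_univ _)).sub analyticAt_const
  have hset : ∀ S : Set ℝ, {θ : ℝ | θ ∈ S ∧ 0 < f θ} = {θ : ℝ | θ ∈ S ∧ x < yy F t θ} := by
    intro S
    ext θ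
    simp only [hf, mem_ofPred_eq, sub_pos]
  have hAx : Ax F t x = {θ : ℝ | θ ∈ Ioc (-π) π ∧ 0 < f θ} := (hset _).symm
  have hmeas : MeasurableSet (Ax F t x) := h.an.mAx hq x
  -- the total length is less than `2 π`
  obtain ⟨θ0, k0, k1, k2⟩ := Xl_surj c.lo c.hi
  have hCA : CA F t x < 2 * π := by
    have h1 := c.leC
    rw [← k2, CA_J k0 k1, k2] at h1
    linarith
  have hnz : ¬ ∀ θ, f θ = 0 := by
    intro h0
    have h1 : Zf F t x = 0 := by
      unfold Zf
      have h2 : (fun θ => Ph x (yy F t θ)) = fun _ => (0 : ℝ) := by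
        funext θ
        have h3 := h0 θ
        simp only [hf, sub_eq_zero] at h3
        exact Ph_of_le h3.le
      rw [h2]
      simp
    have h4 : 0 ≤ Zf J t x := by
      unfold Zf
      exact intervalIntegral.integral_nonneg (by linarith) fun θ _ => Ph_nonneg hx.le _
    have h5 := c.pos
    linarith
  obtain ⟨a, ha⟩ : ∃ a, f a ≤ 0 := by
    by_contra h0
    push Not at h0
    have h1 : Ax F t x = Ioc (-π) π := by
      rw [hAx]
      ext θ
      simp only [mem_ofPred_eq]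
      exact ⟨fun h2 => h2.1, fun h2 => ⟨h2, h0 θ⟩⟩
    have h2 : CA F t x = 2 * π := by
      unfold CA
      rw [h1, ← intervalIntegral.integral_of_le (by linarith), intervalIntegral.integral_const,
        smul_eq_mul]
      ring
    linarith
  have ha' : f (a + 2 * π) ≤ 0 := by
    rw [hfp a]
    exact ha
  have hfin := (lbc_ana hfa a (a + 2 * π)).resolve_right hnz
  obtain ⟨L, hL1, hL2⟩ := arcs hfc (by linarith) ha ha' hfin
  have tr : ∀ φ : ℝ → ℝ, Continuous φ → Function.Periodic φ (2 * π) →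
      ∫ θ in Ax F t x, φ θ = (L.map (fun p : ℝ × ℝ => ∫ θ in p.1..p.2, φ θ)).sum := by
    intro φ h1 h2
    rw [hAx, rot hfp h2 hfc a, hL2 φ h1]
  have tC : CA F t x = (L.map (fun p : ℝ × ℝ => p.2 - p.1)).sum := by
    unfold CA
    rw [tr (fun _ => 1) continuous_const (fun _ => rfl)]
    simp
  have tE : EA F t x = (L.map (fun p : ℝ × ℝ => ∫ θ in p.1..p.2, ‖G1 F t θ‖ ^ 2)).sum := by
    unfold EA
    refine tr (fun θ => ‖G1 F t θ‖ ^ 2) (hG1.norm.pow 2) fun θ => ?_
    beta_reduce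
    rw [pG1 θ]
  have tM : MA F t x = (L.map (fun p : ℝ × ℝ => ∫ θ in p.1..p.2, yy F t θ)).sum := by
    unfold MA
    exact tr (fun θ => yy F t θ) hyy pyy
  have hmx : ∀ θ ∈ Ax F t x, max (yy F t θ) x = yy F t θ := fun θ hθ => max_eq_left hθ.2.le
  have tO : OA F t x =
      (L.map (fun p : ℝ × ℝ => ∫ θ in p.1..p.2, jr F t θ / max (yy F t θ) x)).sum := by
    rw [← tr (fun θ => jr F t θ / max (yy F t θ) x) (hjr.div hm hm0)
      (fun θ => by beta_reduce; rw [pjr θ, pyy θ])]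
    unfold OA
    refine setIntegral_congr_fun hmeas fun θ hθ => ?_
    rw [hmx θ hθ]
  have tZ : ZA F t x =
      (L.map (fun p : ℝ × ℝ =>
        ∫ θ in p.1..p.2, (1 - x / max (yy F t θ) x) * jr F t θ)).sum := by
    rw [← tr (fun θ => (1 - x / max (yy F t θ) x) * jr F t θ)
      ((continuous_const.sub (continuous_const.div hm hm0)).mul hjr)
      (fun θ => by beta_reduce; rw [pjr θ, pyy θ])]
    unfold ZA
    refine setIntegral_congr_fun hmeas fun θ hθ => ?_
    rw [hmx θ hθ]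
  have hlen : ∀ p ∈ L, p.2 < p.1 + 2 * π := by
    intro p hp
    have h1 : p.2 - p.1 ≤ (L.map (fun p : ℝ × ℝ => p.2 - p.1)).sum := by
      refine List.single_le_sum ?_ _ (List.mem_map.2 ⟨p, hp, rfl⟩)
      intro y hy
      obtain ⟨p', hp', h3⟩ := List.mem_map.1 hy
      have h4 := (hL1 p' hp').2.1
      rw [← h3]
      linarith
    rw [← tC] at h1
    linarith
  obtain ⟨L', g0, g1, g2, g3, g4, g5⟩ := lbc_build (x := x) (Q := fun l => l.Ok (Real.cosh t) x ∧
      ∃ p : ℝ, ∀ s ∈ Ioo p (p + 2 * l.b), x < yy F t s)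
    (e := fun p => ∫ θ in p.1..p.2, ‖G1 F t θ‖ ^ 2) (m := fun p => ∫ θ in p.1..p.2, yy F t θ)
    (o := fun p => ∫ θ in p.1..p.2, jr F t θ / max (yy F t θ) x)
    (z := fun p => ∫ θ in p.1..p.2, (1 - x / max (yy F t θ) x) * jr F t θ) L (by
      intro p hp
      obtain ⟨_, j2, _, j4, j5, j6⟩ := hL1 p hp
      simp only [hf, sub_eq_zero] at j4 j5
      obtain ⟨l, i0, i1, i2⟩ := h.lobe1 ht hx j2 (hlen p hp) j4 j5 fun θ hθ => by
        have := j6 θ hθ
        simp only [hf, sub_pos] at this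
        exact this
      refine ⟨l, ⟨i0, p.1, fun s hs => ?_⟩, i1, i2⟩
      have h1 := j6 s ⟨hs.1, by have := hs.2; linarith⟩
      simp only [hf, sub_pos] at h1
      exact h1)
  exact ⟨L', g0, tC.trans g1, tE.trans g2, tM.trans g3, tO.trans g4, tZ.trans g5⟩

theorem Sg.lobes (h : Sg F b q) {t x : ℝ} (c : Ct F t x) :
    ∃ L : List Lb, (∀ l ∈ L, l.Ok (Real.cosh t) x) ∧ CA F t x = 2 * (L.map Lb.b).sum ∧
      EA F t x = (L.map Lb.E).sum ∧ MA F t x = (L.map Lb.M).sum ∧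
      OA F t x = 2 * (L.map Lb.h).sum ∧
      ZA F t x = (L.map Lb.A).sum - 2 * x * (L.map Lb.h).sum := by
  obtain ⟨L, h0, h1⟩ := h.lobes' c
  exact ⟨L, fun l hl => (h0 l hl).1, h1⟩

/-- with the arcs -/
theorem Sg.cl' (h : Sg F b q) {t x : ℝ} (c : Ct F t x) :
    ∃ (θ : ℝ) (L : List Lb), 0 < θ ∧ θ < π / 2 ∧ Xl t θ = x ∧ Cl t θ L ∧
      ∀ l ∈ L, ∃ p : ℝ, ∀ s ∈ Ioo p (p + 2 * l.b), x < yy F t s := by
  have ht : 0 ≤ t := c.t0.le
  have hq : q < Real.exp t := lt_of_lt_of_le h.q1 (Real.one_le_exp ht)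
  have hx : 0 < x := lt_of_le_of_lt (by positivity) c.lo
  obtain ⟨θ, k0, k1, k2⟩ := Xl_surj c.lo c.hi
  obtain ⟨L, g0', g1, g2, g3, g4, g5⟩ := h.lobes' c
  refine ⟨θ, L, k0, k1, k2, ?_, fun l hl => (g0' l hl).2⟩
  have g0 : ∀ l ∈ L, l.Ok (Real.cosh t) x := fun l hl => (g0' l hl).1
  clear g0'
  subst k2
  have cC := CA_J (t := t) k0 k1
  have cE := EA_J (t := t) k0 k1
  have cM := MA_J (t := t) k0 k1
  have cO := OA_J c.t0 k0 k1
  have cZ := ZA_J c.t0 k0 k1
  refine ⟨g0, ?_, ?_, ?_, ?_⟩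
  · have h1 := c.leC
    rw [cC, g1] at h1
    linarith
  · intro v
    have h1 := c.q2 v
    rw [cC, cE, cO, g1, g2, g4] at h1
    have e1 : v ^ 2 * (2 * (L.map Lb.b).sum - 4 * θ) / Xl t θ =
        4 * (v ^ 2 / (2 * Xl t θ) * (L.map Lb.b).sum) - 4 * (v ^ 2 / (2 * Xl t θ) * (2 * θ)) := by
      field_simp
      ring
    rw [e1] at h1
    linarith
  · have h1 := h.an.Zf_eq hq hx
    have h2 := an_J.Zf_eq (t := t) (Real.exp_pos t) hx
    have h3 := h.an.VA_eq (x := Xl t θ) hq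
    have h4 := an_J.VA_eq (t := t) (x := Xl t θ) (Real.exp_pos t)
    have h5 := c.pos
    have h6 := c.eL
    rw [h1, h2, h3, h4, h6, cM, cC, g3, g1] at h5
    linarith
  · have h1 := c.eZ
    rw [cZ, g5] at h1
    exact h1

theorem Sg.cl (h : Sg F b q) {t x : ℝ} (c : Ct F t x) :
    ∃ (θ : ℝ) (L : List Lb), 0 < θ ∧ θ < π / 2 ∧ Xl t θ = x ∧ Cl t θ L := by
  obtain ⟨θ, L, h0, h1, h2, h3, _⟩ := h.cl' c
  exact ⟨θ, L, h0, h1, h2, h3⟩

end Pool.Agent.H36.SZ
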