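import Pool.Agent.H36.SZ.Defs

/-!
# Lobes: definitions

A lobe is a component of `{θ : |F (exp (t + iθ))|^2 > x}`, moved to `[-b, b]`, the path
`g u = exp (- i α) * F (exp (t + i (c + u)))` being rotated such that `g (± b) = sqrt x exp (± i h)`,
`2 h` the total turning. `E, M, A` are the integrals of `|g'|^2`, `|g|^2`, `Im (conj g * g')`
(`= |g|^2 phi'`). `Cl t θ L`: the list `L` of lobes satisfies the conditions at a contact point
`(t, x)`, `x = 4 sinh^2 t + 4 cos^2 θ`, of `Zf F` and `Zf J` (`J` has the two lobes of half-width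
`θ` and half-turning `hJ`).
-/

open Complex MeasureTheory Set Filter Topology
open scoped ComplexConjugate Real

namespace Pool.Agent.H36.SZ

/-- data of a lobe: half-width `b`, half-turning `h`, a path `g` on `[-b, b]`, its derivative `g'` -/
structure Lb where
  b : ℝ
  h : ℝ
  g : ℝ → ℂ
  g' : ℝ → ℂ

namespace Lb

noncomputable def E (l : Lb) : ℝ := ∫ u in (-l.b)..l.b, ‖l.g' u‖ ^ 2
noncomputable def M (l : Lb) : ℝ := ∫ u in (-l.b)..l.b, ‖l.g u‖ ^ 2
noncomputable def A (l : Lb) : ℝ := ∫ u in (-l.b)..l.b, (conj (l.g u) * l.g' u).im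

/-- `l` is a lobe at level `x`, with the covering inequality with constant `C = cosh t` -/
structure Ok (l : Lb) (C x : ℝ) : Prop where
  b0 : 0 < l.b
  bpi : l.b < π
  der : ∀ u : ℝ, HasDerivAt l.g (l.g' u) u
  cont : Continuous l.g'
  er : l.g l.b = (√x : ℂ) * exp (l.h * I)
  el : l.g (-l.b) = (√x : ℂ) * exp (-(l.h * I))
  ge : ∀ u ∈ Icc (-l.b) l.b, x ≤ ‖l.g u‖ ^ 2
  turn : ∫ u in (-l.b)..l.b, (conj (l.g u) * l.g' u).im / ‖l.g u‖ ^ 2 = 2 * l.h
  nrm : ∀ u : ℝ, ‖l.g u‖ ≤ 2 * C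
  co : ∀ p r : ℝ, -l.b ≤ p → p ≤ r → r ≤ l.b →
    ‖∫ u in p..r, l.g u‖ ≤ 4 * C * Real.sin ((r - p) / 2)

end Lb

/-- the level `x` belonging to the half-width `θ` of the lobes of `J` -/
noncomputable def Xl (t θ : ℝ) : ℝ := 4 * Real.sinh t ^ 2 + 4 * Real.cos θ ^ 2

/-- the half-turning of the lobes of `J` -/
noncomputable def hJ (t θ : ℝ) : ℝ := Real.arctan (Real.tanh t * Real.tan θ)

/-- the conditions at a contact point, for the list `L` of the lobes of `F` -/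
structure Cl (t θ : ℝ) (L : List Lb) : Prop where
  ok : ∀ l ∈ L, l.Ok (Real.cosh t) (Xl t θ)
  sb : (L.map Lb.b).sum ≤ 2 * θ
  q2 : ∀ v : ℝ, (L.map Lb.E).sum - 2 * v * (L.map Lb.h).sum +
    v ^ 2 / (2 * Xl t θ) * (L.map Lb.b).sum ≤
    8 * (θ * Real.cosh (2 * t) - Real.sin θ * Real.cos θ) - 4 * v * hJ t θ +
    v ^ 2 / (2 * Xl t θ) * (2 * θ)
  v : 8 * (θ * Real.cosh (2 * t) + Real.sin θ * Real.cos θ) - 4 * Xl t θ * θ <
    (L.map Lb.M).sum - 2 * Xl t θ * (L.map Lb.b).sum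
  z : (L.map Lb.A).sum - 2 * Xl t θ * (L.map Lb.h).sum =
    8 * Real.sinh (2 * t) * θ - 4 * Xl t θ * hJ t θ

end Pool.Agent.H36.SZ
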