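import Pool.Agent.H36.SZ.Defs

/-!
# The second derivative test

PROOF of `snd_test`: `IsLocalMax.hasDerivAt_eq_zero` gives `g1 0 = 0`. If `c > 0`:
`deriv g =ᶠ g1`, so `deriv (deriv g) 0 = c > 0`, `deriv g 0 = 0` and
`isLocalMin_of_deriv_deriv_pos` shows that `g` has a local minimum at `0` as well; so `g` is
constant near `0`, hence `g1 = 0` near `0` (uniqueness of derivatives at each nearby point) and
`c = 0`, a contradiction.
-/

open Filter Topology Set

namespace Pool.Agent.H36.SZ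

theorem snd_test {g g1 : ℝ → ℝ} {c : ℝ} (hm : IsLocalMax g 0)
    (h1 : ∀ᶠ s in 𝓝 (0:ℝ), HasDerivAt g (g1 s) s) (h2 : HasDerivAt g1 c 0) :
    g1 0 = 0 ∧ c ≤ 0 := by
  have h10 : HasDerivAt g (g1 0) 0 := h1.self_of_nhds
  have hz : g1 0 = 0 := hm.hasDerivAt_eq_zero h10
  refine ⟨hz, ?_⟩
  by_contra hc
  push Not at hc
  have hd : deriv g =ᶠ[𝓝 0] g1 := h1.mono fun s hs => hs.deriv
  have hdd : deriv (deriv g) 0 = c := by
    rw [hd.deriv_eq, h2.deriv]
  have hmin : IsLocalMin g 0 :=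
    isLocalMin_of_deriv_deriv_pos (by rw [hdd]; exact hc) (by rw [h10.deriv, hz])
      h10.continuousAt
  have hconst : ∀ᶠ s in 𝓝 (0:ℝ), g s = g 0 := by
    filter_upwards [hm, hmin] with s h3 h4
    exact le_antisymm h3 h4
  have hg1 : ∀ᶠ s in 𝓝 (0:ℝ), g1 s = 0 := by
    filter_upwards [h1, hconst.eventually_nhds] with s h3 h4
    have h5 : HasDerivAt g 0 s := (hasDerivAt_const s (g 0)).congr_of_eventuallyEq h4
    exact h3.unique h5
  have h6 : HasDerivAt g1 0 0 := (hasDerivAt_const (0:ℝ) (0:ℝ)).congr_of_eventuallyEq hg1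
  have h7 := h2.unique h6
  linarith

end Pool.Agent.H36.SZ
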