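import Pool.Agent.H36.SZ.WR
import Pool.Agent.H36.SZ.Dir
import Pool.Agent.H36.SZ.Lv

/-!
# Strictness of the weighted area principle on the unit circle

PROOF. `Zf F 0 x > 0` gives a `θ0` with `yy F 0 θ0 > x` (`Ph_of_le`), so `yy F 0` is not constant
`= x` and by `An.lv` the level set is null; by continuity and periodicity `Ax F 0 x` has positive
measure and contains an open interval `U`. `EA F 0 x > 0`: otherwise `‖G1 F 0 θ‖^2 = 0` for almost
every, hence (continuity) every `θ` in `U`, so `G F 0` is constant on `U` (`An.hGq`), contradicting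
the injectivity of `F` on `‖z‖ = 1 > q` (two close different `θ` have different `exp (iθ)`).
By `An.Zf_d2` with `a = 1`, `v = 0`: the function `s -> 2 ZA F s x` (`LA` term has factor `0`) has
derivative `4 EA F 0 x > 0` at `0`, so `ZA F s x < ZA F 0 x` for some `s < 0` close to `0` with
`q < e^s`; and `0 <= ZA F s x` by `Sg.wr`. Hence `0 < ZA F 0 x`.
-/

open Complex MeasureTheory Set Filter Topology
open scoped ComplexConjugate Real

namespace Pool.Agent.H36.SZ

variable {F : ℂ → ℂ} {b : ℕ → ℂ} {q : ℝ}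

theorem W0_ex (h : Sg F b q) {x : ℝ} (hp : 0 < Zf F 0 x) :
    ∃ c δ : ℝ, 0 < δ ∧ Ioo (c - δ) (c + δ) ⊆ Ax F 0 x ∧ Ioo (c - δ) (c + δ) ⊆ Ioo (-π) π := by
  have ht : q < Real.exp 0 := by rw [Real.exp_zero]; exact h.q1
  have hc : Continuous (yy F 0) := by
    unfold yy
    exact ((h.an.cGt ht).norm).pow 2
  have h1 : ∃ θ ∈ Ioc (-π) π, x < yy F 0 θ := by
    by_contra hcon
    push Not at hcon
    have : Zf F 0 x = 0 := by
      unfold Zf
      rw [intervalIntegral.integral_of_le (by linarith [Real.pi_pos])]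
      rw [setIntegral_congr_fun measurableSet_Ioc (g := fun _ => (0:ℝ))
        (fun θ hθ => Ph_of_le (hcon θ hθ))]
      simp
    linarith
  obtain ⟨θ0, hθ0, hx0⟩ := h1
  have hU : IsOpen {θ : ℝ | x < yy F 0 θ} := isOpen_lt continuous_const hc
  have hcl : θ0 ∈ closure (Ioo (-π) π) := by
    rw [closure_Ioo (by linarith [Real.pi_pos])]
    exact ⟨hθ0.1.le, hθ0.2⟩
  obtain ⟨c, hc1, hc2⟩ := mem_closure_iff.1 hcl _ hU hx0
  have hV : IsOpen ({θ : ℝ | x < yy F 0 θ} ∩ Ioo (-π) π) := hU.inter isOpen_Ioo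
  obtain ⟨δ, hδ, hb⟩ := Metric.isOpen_iff.1 hV c ⟨hc1, hc2⟩
  rw [Real.ball_eq_Ioo] at hb
  exact ⟨c, δ, hδ, fun θ hθ => ⟨Ioo_subset_Ioc_self (hb hθ).2, (hb hθ).1⟩, fun θ hθ => (hb hθ).2⟩

theorem Sg.EA_pos (h : Sg F b q) {x : ℝ} (_hx : 0 < x) (hp : 0 < Zf F 0 x) : 0 < EA F 0 x := by
  have ht : q < Real.exp 0 := by rw [Real.exp_zero]; exact h.q1
  obtain ⟨c, δ, hδ, hA, hI⟩ := W0_ex h hp
  have hcG : Continuous (G1 F 0) := h.an.cG1t ht
  have hcn : Continuous (fun θ => ‖G1 F 0 θ‖ ^ 2) := hcG.norm.pow 2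
  have hex : ∃ θ ∈ Ioo (c - δ) (c + δ), G1 F 0 θ ≠ 0 := by
    by_contra hcon
    push Not at hcon
    have hcst := constant_of_has_deriv_right_zero (f := G F 0) (a := c) (b := c + δ / 2)
      ((h.an.cGt ht).continuousOn) (by
        intro y hy
        have h0 : G1 F 0 y = 0 := hcon y ⟨by linarith [hy.1], by linarith [hy.2]⟩
        have := h.an.hGq y ht
        rw [h0, mul_zero] at this
        exact this.hasDerivWithinAt)
    have he := hcst (c + δ / 2) ⟨by linarith, le_refl _⟩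
    unfold G at he
    have hn : ∀ θ : ℝ, exp (((0:ℝ) : ℂ) + θ * I) ∈ {z : ℂ | q < ‖z‖} := by
      intro θ
      simp only [mem_setOf_eq]
      rw [Complex.ofReal_zero, zero_add, Complex.norm_exp_ofReal_mul_I]
      exact h.q1
    have he2 := h.inj (hn _) (hn _) he
    rw [Complex.ofReal_zero, zero_add, zero_add, Complex.exp_eq_exp_iff_exists_int] at he2
    obtain ⟨n, hn2⟩ := he2
    have h3 : (((c + δ / 2 : ℝ)) : ℂ) = c + n * (2 * π) := by
      have hI0 : (I : ℂ) ≠ 0 := Complex.I_ne_zero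
      apply mul_right_cancel₀ hI0
      rw [hn2]; ring
    have h4 : c + δ / 2 = c + n * (2 * π) := by exact_mod_cast h3
    have hc0 : c ∈ Ioo (-π) π := hI ⟨by linarith, by linarith⟩
    have hc1 : c + δ / 2 ∈ Ioo (-π) π := hI ⟨by linarith, by linarith⟩
    have hp0 := Real.pi_pos
    have h5 : (0:ℝ) < n := by
      by_contra hh
      push Not at hh
      nlinarith
    have h6 : (1:ℝ) ≤ n := by
      have : (0:ℤ) < n := by exact_mod_cast h5
      exact_mod_cast this
    nlinarith [hc0.1, hc1.2]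
  obtain ⟨θ, hθ, hg⟩ := hex
  unfold EA
  have hint : IntegrableOn (fun θ => ‖G1 F 0 θ‖ ^ 2) (Ax F 0 x) := by
    apply ((hcn.continuousOn (s := Icc (-π) π)).integrableOn_compact isCompact_Icc).mono_set
    intro y hy
    exact ⟨hy.1.1.le, hy.1.2⟩
  rw [setIntegral_pos_iff_support_of_nonneg_ae (Eventually.of_forall fun y => by positivity) hint]
  have hop : IsOpen ({y : ℝ | G1 F 0 y ≠ 0} ∩ Ioo (c - δ) (c + δ)) :=
    (isOpen_ne_fun hcG continuous_const).inter isOpen_Ioo
  refine lt_of_lt_of_le (hop.measure_pos volume ⟨θ, hg, hθ⟩) (measure_mono ?_)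
  rintro y ⟨hy1, hy2⟩
  refine ⟨?_, hA hy2⟩
  simp only [Function.mem_support]
  exact pow_ne_zero 2 (norm_ne_zero_iff.2 hy1)

theorem Sg.wr0 (h : Sg F b q) {x : ℝ} (hx : 0 < x) (hp : 0 < Zf F 0 x) : 0 < ZA F 0 x := by
  have ht : q < Real.exp 0 := by rw [Real.exp_zero]; exact h.q1
  have hE := h.EA_pos hx hp
  obtain ⟨c, δ, hδ, hA, hI⟩ := W0_ex h hp
  have nul : volume {θ : ℝ | θ ∈ Ioc (-π) π ∧ yy F 0 θ = x} = 0 := by
    rcases h.an.lv ht x with h0 | h0
    · exact h0
    · exact absurd (h0 c) (hA ⟨by linarith, by linarith⟩).2.ne'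
  have hd := h.an.Zf_d2 (t := 0) (x := x) 1 0 ht hx nul
  by_contra hcon
  push Not at hcon
  have hmin : IsLocalMin (fun s => 2 * 1 * ZA F (0 + 1 * s) (x + 0 * s)
      - 0 * LA F (0 + 1 * s) (x + 0 * s)) 0 := by
    have hev : ∀ᶠ s in 𝓝 (0:ℝ), q < Real.exp s :=
      (Real.continuous_exp.tendsto 0).eventually (lt_mem_nhds ht)
    filter_upwards [hev] with s hs
    have h1 := h.wr hs hx
    simp only [zero_mul, add_zero, sub_zero, one_mul, zero_add, mul_one]
    linarith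
  have := hmin.hasDerivAt_eq_zero hd
  norm_num at this
  linarith

end Pool.Agent.H36.SZ
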