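import Pool.Agent.H36.SZ.Bd
import Pool.Agent.H36.SZ.W0
import Pool.Agent.H36.SZ.Jen
import Pool.Agent.H36.SZ.Tst

/-!
# The maximum principle: a positive value of `Zf F - Zf J` gives a contact point

PROOF of `red`. Let `D t x = Zf F t x - Zf J t x`, `D t1 x1 =: η > 0`, `t1, x1 >= 0`.
`D <= 0` for `x >= 4 cosh^2 t` (`Sg.hi`, `Zf J >= 0` by `Ph_nonneg`) and for `x <= 4 sinh^2 t`
(`Sg.lo`). `T` from `Sg.infz` with `ε = η/2`, `T' = max T t1 + 1`: for `t >= T'` and
`4 sinh^2 t <= x`: `D <= Zf F < η/2`.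
`K = {(t, x) | 0 <= t <= T', 4 sinh^2 t <= x <= 4 cosh^2 t}` is compact, `D` is continuous on it
(`An.Zf_cont` for `F` and `J`), `(t1, x1) ∈ K`. Let `(t, x)` be a maximum point of `D` on `K`;
`D t x >= η` is then the maximum over all `t', x' >= 0` (field `gl`), and `4 sinh^2 t < x <
4 cosh^2 t`, in particular `x > 0`.
Level set of `F` at `(t, x)`: by `An.lv` it is null, because `yy F t = x` identically would give
`Zf F t x = 0` (`Ph_of_le`), so `D <= 0`. Level set of `J`: `J_lv`.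
`t > 0`: if `t = 0`, then `Zf F 0 x >= η > 0`, so `ZA F 0 x > 0` (`Sg.wr0`), `ZA J 0 x = 0`
(`ZA_J0`); by `An.Zf_d1` at `s = 0` with `a = 1`, `v = 0` the function `s -> D s x` has derivative
`2 ZA F 0 x > 0` at `0`, so `D s x > D 0 x` for some `s > 0`, against `gl`.
Now `t > 0`: for `a ∈ {0, 1}`, `v ∈ ℝ` the function `g s = D (t + a s) (x + v s)` has a local
maximum at `0` (`gl`; `t + a s >= 0`, `x + v s >= 0` for small `s`), and `An.Zf_d1`, `An.Zf_d2`,
`snd_test` give `2 a (ZA F - ZA J) - v (LA F - LA J) = 0` and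
`4 a^2 (EA F - EA J) - 4 a v (OA F - OA J) + v^2 (CA F - CA J) / x <= 0`. `a = 0`, `v = 1`:
`eL`, `leC` (multiply by `x > 0`); `a = 1`, `v = 0`: `eZ`; `a = 1`, `v`: `q2`.
-/

open Complex MeasureTheory Set Filter Topology
open scoped ComplexConjugate Real

namespace Pool.Agent.H36.SZ

variable {F : ℂ → ℂ} {b : ℕ → ℂ} {q : ℝ}

theorem Sg.red (h : Sg F b q) {t1 x1 : ℝ} (ht1 : 0 ≤ t1) (hx1 : 0 ≤ x1)
    (hp : Zf J t1 x1 < Zf F t1 x1) : ∃ t x : ℝ, Ct F t x := by
  have hF : An F q := h.an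
  have hq0 : ∀ t : ℝ, 0 ≤ t → q < Real.exp t := fun t ht =>
    lt_of_lt_of_le h.q1 (Real.one_le_exp ht)
  have hJ0 : ∀ t x : ℝ, 0 ≤ x → 0 ≤ Zf J t x := fun t x hx =>
    intervalIntegral.integral_nonneg (by linarith [Real.pi_pos]) fun θ _ => Ph_nonneg hx _
  -- the two regions where the difference is not positive
  have hA : ∀ t x : ℝ, 0 ≤ t → 4 * Real.cosh t ^ 2 ≤ x → Zf F t x - Zf J t x ≤ 0 := by
    intro t x ht hx
    have h1 := hJ0 t x (le_trans (by positivity) hx)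
    rw [h.hi ht hx]
    linarith
  have hB : ∀ t x : ℝ, 0 ≤ t → 0 ≤ x → x ≤ 4 * Real.sinh t ^ 2 →
      Zf F t x - Zf J t x ≤ 0 := by
    intro t x ht hx0 hx
    have h1 := h.lo ht hx0 hx
    linarith
  obtain ⟨T, hT0, hT⟩ := h.infz (ε := (Zf F t1 x1 - Zf J t1 x1) / 2) (by linarith)
  -- points with a value at least that at `(t1, x1)` lie in the rectangle
  have hin : ∀ t x : ℝ, 0 ≤ t → 0 ≤ x →
      Zf F t1 x1 - Zf J t1 x1 ≤ Zf F t x - Zf J t x →
      t ∈ Icc 0 T ∧ 4 * Real.sinh t ^ 2 < x ∧ x < 4 * Real.cosh t ^ 2 ∧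
        x ∈ Icc 0 (4 * Real.cosh T ^ 2) := by
    intro t x ht hx hle
    have h1 : 4 * Real.sinh t ^ 2 < x := by
      by_contra hc
      have := hB t x ht hx (not_lt.1 hc)
      linarith
    have h2 : x < 4 * Real.cosh t ^ 2 := by
      by_contra hc
      have := hA t x ht (not_lt.1 hc)
      linarith
    have h3 : t ≤ T := by
      by_contra hc
      have h4 := hT t x (not_le.1 hc).le h1.le
      have h5 := hJ0 t x hx
      linarith
    have h6 : Real.cosh t ≤ Real.cosh T := by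
      rw [Real.cosh_le_cosh, abs_of_nonneg ht, abs_of_nonneg hT0]
      exact h3
    have h7 : Real.cosh t ^ 2 ≤ Real.cosh T ^ 2 :=
      pow_le_pow_left₀ (Real.cosh_pos t).le h6 2
    exact ⟨⟨ht, h3⟩, h1, h2, ⟨hx, by linarith⟩⟩
  have cD : Continuous (fun p : ℝ × ℝ => Zf F |p.1| |p.2| - Zf J |p.1| |p.2|) :=
    (hF.Zf_cont h.q1).sub (an_J.Zf_cont one_pos)
  have hK : IsCompact (Icc (0:ℝ) T ×ˢ Icc (0:ℝ) (4 * Real.cosh T ^ 2)) :=
    isCompact_Icc.prod isCompact_Icc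
  have hin1 := hin t1 x1 ht1 hx1 le_rfl
  obtain ⟨p, hpK, hpm⟩ := hK.exists_isMaxOn ⟨(t1, x1), ⟨hin1.1, hin1.2.2.2⟩⟩ cD.continuousOn
  obtain ⟨t, x⟩ := p
  have ht0 : 0 ≤ t := hpK.1.1
  have hx0 : 0 ≤ x := hpK.2.1
  have hmx : ∀ t' x' : ℝ, t' ∈ Icc 0 T → x' ∈ Icc 0 (4 * Real.cosh T ^ 2) →
      Zf F t' x' - Zf J t' x' ≤ Zf F t x - Zf J t x := by
    intro t' x' h1 h2
    have h3 : (fun p : ℝ × ℝ => Zf F |p.1| |p.2| - Zf J |p.1| |p.2|) (t', x') ≤
        (fun p : ℝ × ℝ => Zf F |p.1| |p.2| - Zf J |p.1| |p.2|) (t, x) := hpm ⟨h1, h2⟩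
    simp only [abs_of_nonneg h1.1, abs_of_nonneg h2.1, abs_of_nonneg ht0,
      abs_of_nonneg hx0] at h3
    exact h3
  have h11 : Zf F t1 x1 - Zf J t1 x1 ≤ Zf F t x - Zf J t x := hmx t1 x1 hin1.1 hin1.2.2.2
  have gl : ∀ t' x' : ℝ, 0 ≤ t' → 0 ≤ x' →
      Zf F t' x' - Zf J t' x' ≤ Zf F t x - Zf J t x := by
    intro t' x' h1 h2
    by_contra hc
    have h3 := hin t' x' h1 h2 (h11.trans (not_le.1 hc).le)
    exact hc (hmx t' x' h3.1 h3.2.2.2)
  obtain ⟨-, hlo, hhi, -⟩ := hin t x ht0 hx0 h11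
  have hx : 0 < x := lt_of_le_of_lt (by positivity) hlo
  have hpos : Zf J t x < Zf F t x := by linarith
  have hFp : 0 < Zf F t x := lt_of_le_of_lt (hJ0 t x hx0) hpos
  have nulF : volume {θ : ℝ | θ ∈ Ioc (-π) π ∧ yy F t θ = x} = 0 := by
    rcases hF.lv (hq0 t ht0) x with h1 | h1
    · exact h1
    · exfalso
      have h2 : Zf F t x = 0 := by
        unfold Zf
        simp only [h1, Ph_of_le (le_refl x)]
        simp
      linarith
  have nulJ := J_lv t x
  have ht : 0 < t := by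
    rcases lt_or_eq_of_le ht0 with h1 | h1
    · exact h1
    · exfalso
      subst h1
      have hw := h.wr0 hx hFp
      have hd := ((hF.Zf_d1 (t := 0) 1 0 (hq0 0 le_rfl) hx).self_of_nhds).sub
        ((an_J.Zf_d1 (t := 0) 1 0 (Real.exp_pos 0) hx).self_of_nhds)
      have h2 := hd.tendsto_slope_zero_right
      have h3 : (2 * 1 * ZA F (0 + 1 * 0) (x + 0 * 0) - 0 * LA F (0 + 1 * 0) (x + 0 * 0)) -
          (2 * 1 * ZA J (0 + 1 * 0) (x + 0 * 0) - 0 * LA J (0 + 1 * 0) (x + 0 * 0)) ≤ 0 := by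
        refine le_of_tendsto h2 ?_
        filter_upwards [self_mem_nhdsWithin] with r hr
        have hr' : (0:ℝ) < r := hr
        have h4 := gl r x hr'.le hx0
        have h5 : (fun r => Zf F (0 + 1 * r) (x + 0 * r) - Zf J (0 + 1 * r) (x + 0 * r)) (0 + r) -
            (fun r => Zf F (0 + 1 * r) (x + 0 * r) - Zf J (0 + 1 * r) (x + 0 * r)) 0 ≤ 0 := by
          simp only [one_mul, zero_mul, add_zero, zero_add]
          linarith
        rw [smul_eq_mul]
        exact mul_nonpos_of_nonneg_of_nonpos (inv_nonneg.2 hr'.le) h5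
      simp only [mul_zero, add_zero, zero_mul, ZA_J0, sub_zero] at h3
      linarith
  have key : ∀ a v : ℝ,
      (2 * a * ZA F t x - v * LA F t x) - (2 * a * ZA J t x - v * LA J t x) = 0 ∧
      (4 * a ^ 2 * EA F t x - 4 * a * v * OA F t x + v ^ 2 * CA F t x / x) -
        (4 * a ^ 2 * EA J t x - 4 * a * v * OA J t x + v ^ 2 * CA J t x / x) ≤ 0 := by
    intro a v
    have hloc : IsLocalMax (fun r : ℝ => Zf F (t + a * r) (x + v * r) -
        Zf J (t + a * r) (x + v * r)) 0 := by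
      have e1 : ∀ᶠ s in 𝓝 (0:ℝ), 0 < t + a * s :=
        ((by fun_prop : Continuous fun s : ℝ => t + a * s).tendsto 0).eventually
          (lt_mem_nhds (by simpa using ht))
      have e2 : ∀ᶠ s in 𝓝 (0:ℝ), 0 < x + v * s :=
        ((by fun_prop : Continuous fun s : ℝ => x + v * s).tendsto 0).eventually
          (lt_mem_nhds (by simpa using hx))
      filter_upwards [e1, e2] with s h1 h2
      simpa only [mul_zero, add_zero] using gl (t + a * s) (x + v * s) h1.le h2.le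
    have hd1 : ∀ᶠ s in 𝓝 (0:ℝ), HasDerivAt (fun r : ℝ => Zf F (t + a * r) (x + v * r) -
        Zf J (t + a * r) (x + v * r))
        ((2 * a * ZA F (t + a * s) (x + v * s) - v * LA F (t + a * s) (x + v * s)) -
          (2 * a * ZA J (t + a * s) (x + v * s) - v * LA J (t + a * s) (x + v * s))) s := by
      filter_upwards [hF.Zf_d1 a v (hq0 t ht0) hx, an_J.Zf_d1 a v (Real.exp_pos t) hx]
        with s h1 h2
      exact h1.sub h2
    have hd2 := (hF.Zf_d2 a v (hq0 t ht0) hx nulF).sub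
      (an_J.Zf_d2 a v (Real.exp_pos t) hx nulJ)
    have h1 := snd_test hloc hd1 hd2
    simpa only [mul_zero, add_zero] using h1
  refine ⟨t, x, ht, hlo, hhi, hpos, gl, ?_, ?_, ?_, ?_⟩
  · have h1 := (key 0 1).1
    linarith
  · have h1 := (key 1 0).1
    linarith
  · have h1 := (key 0 1).2
    have h2 : (CA F t x - CA J t x) / x ≤ 0 := by
      rw [sub_div]
      simpa using h1
    by_contra hc
    have h3 : 0 < (CA F t x - CA J t x) / x := div_pos (by linarith [not_le.1 hc]) hx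
    linarith
  · intro v
    have h1 := (key 1 v).2
    have h2 : v ^ 2 * (CA F t x - CA J t x) / x =
        v ^ 2 * CA F t x / x - v ^ 2 * CA J t x / x := by ring
    rw [h2]
    linarith

/-- if there is no contact point, the comparison holds -/
theorem Sg.le_of_no (h : Sg F b q) (hn : ∀ t x : ℝ, ¬ Ct F t x) {t x : ℝ} (ht : 0 ≤ t)
    (hx : 0 ≤ x) : Zf F t x ≤ Zf J t x := by
  by_contra hc
  obtain ⟨t', x', hc'⟩ := h.red ht hx (not_le.1 hc)
  exact hn t' x' hc'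

end Pool.Agent.H36.SZ
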