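import Pool.Agent.H36.SZ.LoA
import Pool.Agent.H36.SZ.Red
import Pool.Agent.H36.SZ.Rel

/-!
# The area defect at a contact point

`AD = ∫ |J|^2 - ∫ |F|^2`. PROOFS. `ad1`: `Zf = VA - x LA` (`An.Zf_eq`), `eL`, `pos`: `VA J < VA F`,
and `VA = ∫ max (yy - x) 0` (set integral over `Ax`; `yy - x = max (yy - x) 0 - max (x - yy) 0`).
`ad2`: `y - x - x log (y/x) = Ph x y + Dl x y` for `y > 0`; `yy F t θ > 0` for almost every `θ` (finite
or null zero set, `An.lv` with level `0`; `yy F` is not identically `0`), `∫ log yy F >= 4π t`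
(`Sg.jen`), `∫ log yy J = 4π t` (`int_logJ`), so
`Zf F <= ∫ (yy F - x - x log (yy F / x)) <= ∫ yy F - 2πx - 4πtx + 2πx log x` and
`Zf J = ∫ yy J - 2πx - 4πtx + 2πx log x - ∫ Dl x (yy J)`. (`Dl x y >= 0`: `log z <= z - 1`.)
`ad4`: `|F - J|^2 = |F|^2 - |J|^2 + 2 Re conj J (J - F)` and `∫ Re conj J (J - F) = 2π ε Q` (only
the coefficient of `1/z` of `F - J` meets `J`), so
`∫ |F - J|^2 = ∫ |F|^2 - ∫ |J|^2 + 4π ε Q`, with the upper bound of `Sg.mass`:
`4π ε Q - π ε (2-ε) Q (2 - Q) = π (2 ε^2 Q + ε (2-ε) Q^2)`. (Or Parseval as in `Sg.mass`: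
`∫ |F - J|^2 = 2π (ε^2 Q + sum_(n>=2) |b_n|^2 Q^n)` and `Sg.area2`.)
-/

open Complex MeasureTheory Set Filter Topology
open scoped ComplexConjugate Real

namespace Pool.Agent.H36.SZ

variable {F : ℂ → ℂ} {b : ℕ → ℂ} {q : ℝ}

/-- `y - x - x log (y/x)` for `y < x`, `0` for `y >= x` -/
noncomputable def Dl (x y : ℝ) : ℝ := min x y - x - x * Real.log (min x y / x)

open Pool.Agent.H15.Sig

private theorem lga_q (h : Sg F b q) {t : ℝ} (ht : 0 ≤ t) : q < Real.exp t := by
  have := Real.add_one_le_exp t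
  have := h.q1
  linarith

private theorem lga_cyy {H : ℂ → ℂ} {r : ℝ} (h : An H r) {t : ℝ} (ht : r < Real.exp t) :
    Continuous (yy H t) := ((h.cGt ht).norm).pow 2

private theorem lga_VA {H : ℂ → ℂ} {r : ℝ} (h : An H r) {t : ℝ} (ht : r < Real.exp t) (x : ℝ) :
    VA H t x = (∫ θ in (-π)..π, yy H t θ) - 2 * π * x +
      ∫ θ in (-π)..π, max (x - yy H t θ) 0 := by
  have hpi : (-π : ℝ) ≤ π := by linarith [Real.pi_pos]
  have hc := lga_cyy h ht
  have e1 : ∫ θ in (-π)..π, max (yy H t θ - x) 0 = VA H t x := by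
    rw [intervalIntegral.integral_of_le hpi]
    have h2 : ∫ θ in Ioc (-π) π, max (yy H t θ - x) 0 =
        ∫ θ in Ax H t x, max (yy H t θ - x) 0 := by
      refine (setIntegral_eq_of_subset_of_forall_sdiff_eq_zero measurableSet_Ioc (Ax_sub H t x)
        fun θ hθ => ?_)
      refine max_eq_right (sub_nonpos.2 (not_lt.1 fun hc => hθ.2 ⟨hθ.1, hc⟩))
    rw [h2]
    exact setIntegral_congr_fun (h.mAx ht x) fun θ hθ => max_eq_left (sub_pos.2 hθ.2).le
  have i1 : IntervalIntegrable (fun θ => max (yy H t θ - x) 0) volume (-π) π :=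
    (((hc.sub continuous_const).max continuous_const)).intervalIntegrable _ _
  have i2 : IntervalIntegrable (fun θ => max (x - yy H t θ) 0) volume (-π) π :=
    (((continuous_const.sub hc).max continuous_const)).intervalIntegrable _ _
  have e2 : (∫ θ in (-π)..π, max (yy H t θ - x) 0) - (∫ θ in (-π)..π, max (x - yy H t θ) 0) =
      (∫ θ in (-π)..π, yy H t θ) - 2 * π * x := by
    rw [← intervalIntegral.integral_sub i1 i2]
    have e3 : ∀ θ : ℝ, max (yy H t θ - x) 0 - max (x - yy H t θ) 0 = yy H t θ - x := by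
      intro θ
      rcases le_total x (yy H t θ) with h1 | h1
      · rw [max_eq_left (by linarith), max_eq_right (by linarith)]
        ring
      · rw [max_eq_right (by linarith), max_eq_left (by linarith)]
        ring
    simp only [e3]
    rw [intervalIntegral.integral_sub (hc.intervalIntegrable _ _) intervalIntegrable_const,
      intervalIntegral.integral_const, smul_eq_mul]
    ring
  linarith

theorem Sg.ad1 (h : Sg F b q) {t x : ℝ} (c : Ct F t x) :
    (∫ θ in (-π)..π, yy J t θ) - (∫ θ in (-π)..π, yy F t θ) <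
      (∫ θ in (-π)..π, max (x - yy F t θ) 0) - ∫ θ in (-π)..π, max (x - yy J t θ) 0 := by
  have hx : 0 < x := by nlinarith [c.lo, sq_nonneg (Real.sinh t)]
  have hq := lga_q h c.t0.le
  have hqJ : (0 : ℝ) < Real.exp t := Real.exp_pos t
  have h1 := c.pos
  rw [h.an.Zf_eq hq hx, an_J.Zf_eq hqJ hx, c.eL] at h1
  have h2 := lga_VA h.an hq x
  have h3 := lga_VA an_J hqJ x
  linarith

private theorem lga_Dl {x y : ℝ} (hx : 0 < x) (hy : 0 < y) :
    Ph x y + Dl x y = y - x - x * Real.log (y / x) := by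
  unfold Dl
  rcases le_total y x with h | h
  · rw [Ph_of_le h, min_eq_right h, zero_add]
  · rw [Ph_of_ge h, min_eq_left h, div_self hx.ne', Real.log_one]
    ring

theorem Sg.ad2 (h : Sg F b q) {t x : ℝ} (c : Ct F t x) :
    (∫ θ in (-π)..π, yy J t θ) - (∫ θ in (-π)..π, yy F t θ) ≤
      ∫ θ in (-π)..π, Dl x (yy J t θ) := by
  have hpi : (-π : ℝ) ≤ π := by linarith [Real.pi_pos]
  have hx0 : 0 < x := by nlinarith [c.lo, sq_nonneg (Real.sinh t)]
  have ht := c.t0
  obtain ⟨j1, j2⟩ := h.jen ht.le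
  have cF := lga_cyy h.an (lga_q h ht.le)
  have iF : IntervalIntegrable (yy F t) volume (-π) π := cF.intervalIntegrable _ _
  have cJ : Continuous (yy J t) := lga_cyy an_J (Real.exp_pos t)
  have iJ : IntervalIntegrable (yy J t) volume (-π) π := cJ.intervalIntegrable _ _
  have hJ0 : ∀ θ, 0 < yy J t θ := fun θ =>
    lt_of_lt_of_le (by have := Real.sinh_pos_iff.2 ht; positivity) (le_yy_J t θ)
  have clJ : Continuous fun θ => Real.log (yy J t θ) := cJ.log fun θ => (hJ0 θ).ne'
  have ilJ : IntervalIntegrable (fun θ => Real.log (yy J t θ)) volume (-π) π :=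
    clJ.intervalIntegrable _ _
  have cPh : ∀ {H : ℂ → ℂ}, Continuous (yy H t) → Continuous fun θ => Ph x (yy H t θ) := by
    intro H cH
    have h1 : Continuous fun θ => Ph |x| |yy H t θ| :=
      Ph_cont.comp (continuous_const.prodMk cH)
    have e : (fun θ => Ph |x| |yy H t θ|) = fun θ => Ph x (yy H t θ) := by
      funext θ
      rw [abs_of_pos hx0, abs_of_nonneg (by unfold yy; positivity : 0 ≤ yy H t θ)]
    rwa [e] at h1
  have int1 : ∀ (f g : ℝ → ℝ), IntervalIntegrable f volume (-π) π →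
      IntervalIntegrable g volume (-π) π →
      IntervalIntegrable (fun θ => f θ - x - x * (g θ - Real.log x)) volume (-π) π ∧
      ∫ θ in (-π)..π, (f θ - x - x * (g θ - Real.log x)) =
        (∫ θ in (-π)..π, f θ) - 2 * π * x - x * ((∫ θ in (-π)..π, g θ) - 2 * π * Real.log x) := by
    intro f g hf hg
    have a1 : IntervalIntegrable (fun θ => f θ - x) volume (-π) π :=
      hf.sub intervalIntegrable_const
    have a2 : IntervalIntegrable (fun θ => g θ - Real.log x) volume (-π) π :=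
      hg.sub intervalIntegrable_const
    refine ⟨a1.sub (a2.const_mul x), ?_⟩
    rw [intervalIntegral.integral_sub a1 (a2.const_mul x),
      intervalIntegral.integral_sub hf intervalIntegrable_const,
      intervalIntegral.integral_const_mul,
      intervalIntegral.integral_sub hg intervalIntegrable_const,
      intervalIntegral.integral_const, intervalIntegral.integral_const, smul_eq_mul, smul_eq_mul]
    ring
  obtain ⟨k1, k2⟩ := int1 _ _ iF j1
  obtain ⟨k3, k4⟩ := int1 _ _ iJ ilJ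
  have hF : Zf F t x ≤ ∫ θ in (-π)..π, (yy F t θ - x - x * (Real.log (yy F t θ) - Real.log x)) := by
    unfold Zf
    refine intervalIntegral.integral_mono_ae_restrict hpi ((cPh cF).intervalIntegrable _ _) k1 ?_
    have hz' : ∀ᵐ θ ∂(volume.restrict (Icc (-π) π)), 0 < yy F t θ := by
      rw [← restrict_Ioc_eq_restrict_Icc]
      exact h.zero_pt ht.le
    filter_upwards [hz'] with θ hθ
    have := Ph_tilde hx0 hθ (le_refl (yy F t θ))
    rwa [Real.log_div hθ.ne' hx0.ne'] at this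
  have cD : Continuous fun θ => Dl x (yy J t θ) := by
    unfold Dl
    have cm : Continuous fun θ => min x (yy J t θ) := continuous_const.min cJ
    refine (cm.sub continuous_const).sub (continuous_const.mul ((cm.div_const x).log fun θ => ?_))
    exact (div_pos (lt_min hx0 (hJ0 θ)) hx0).ne'
  have iD : IntervalIntegrable (fun θ => Dl x (yy J t θ)) volume (-π) π :=
    cD.intervalIntegrable _ _
  have iPJ : IntervalIntegrable (fun θ => Ph x (yy J t θ)) volume (-π) π :=
    (cPh cJ).intervalIntegrable _ _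
  have hJ : Zf J t x + ∫ θ in (-π)..π, Dl x (yy J t θ) =
      ∫ θ in (-π)..π, (yy J t θ - x - x * (Real.log (yy J t θ) - Real.log x)) := by
    unfold Zf
    rw [← intervalIntegral.integral_add iPJ iD]
    refine intervalIntegral.integral_congr fun θ _ => ?_
    have h1 := lga_Dl hx0 (hJ0 θ)
    rw [Real.log_div (hJ0 θ).ne' hx0.ne'] at h1
    exact h1
  have hpos := c.pos
  rw [k2] at hF
  rw [k4, int_logJ ht] at hJ
  have h2 := mul_le_mul_of_nonneg_left j2 hx0.le
  linarith

theorem Sg.ad4 (h : Sg F b q) {ε : ℝ} (h0 : 0 ≤ ε) (h1 : ε ≤ 1) (hb : b 1 = ((1 - ε : ℝ) : ℂ))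
    {t : ℝ} (ht : 0 < t) :
    ∫ θ in (-π)..π, ‖G F t θ - G J t θ‖ ^ 2 ≤
      π * (2 * ε ^ 2 * Qe t + ε * (2 - ε) * Qe t ^ 2) := by
  have hx0 : 0 < Real.exp (-t) := Real.exp_pos _
  have hx1 : Real.exp (-t) < 1 := by rw [Real.exp_lt_one_iff]; linarith
  have hQ0 : 0 < Qe t := Real.exp_pos _
  have hQ1 : Qe t < 1 := by
    unfold Qe
    rw [Real.exp_lt_one_iff]
    linarith
  have hQs : Real.exp (-t) ^ 2 = Qe t := by
    unfold Qe
    rw [← Real.exp_nat_mul]
    congr 1
    push_cast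
    ring
  have hpi := Real.pi_pos
  have hee : 0 ≤ ε * (2 - ε) := mul_nonneg h0 (by linarith)
  have hR : Rep (PowerSeries.mk b - PowerSeries.X) (fun u => pw b u - u) :=
    h.isSig.rep_pw.sub Rep.X
  have hP := hR.parseval_self hx0.le hx1
  have hI : ∫ θ in (-π)..π, ‖G F t θ - G J t θ‖ ^ 2 =
      ∫ θ in (-π)..π, ‖pw b (((Real.exp (-t) : ℝ) : ℂ) * ec θ) -
        ((Real.exp (-t) : ℝ) : ℂ) * ec θ‖ ^ 2 := by
    refine intervalIntegral.integral_congr fun θ _ => ?_
    have hz : (exp (t + θ * I))⁻¹ = ((Real.exp (-t) : ℝ) : ℂ) * ec θ := by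
      unfold ec
      rw [← Complex.exp_neg, ofReal_exp, ← Complex.exp_add]
      congr 1
      push_cast
      ring
    have hn : 1 < ‖exp ((t : ℂ) + θ * I)‖ := by
      rw [Complex.norm_exp]
      simpa using ht
    have e1 : G F t θ - G J t θ = pw b (exp (t + θ * I))⁻¹ - (exp (t + θ * I))⁻¹ := by
      unfold G J
      rw [h.isSig.eq_pw hn]
      ring
    show ‖G F t θ - G J t θ‖ ^ 2 = _
    rw [e1, hz]
  rw [hI]
  refine le_of_tendsto hP.tendsto_sum_nat ?_
  filter_upwards [eventually_ge_atTop 2] with N hN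
  obtain ⟨M, rfl⟩ : ∃ M, N = M + 2 := ⟨N - 2, by omega⟩
  rw [Finset.sum_range_succ', Finset.sum_range_succ']
  have c0 : PowerSeries.coeff 0 (PowerSeries.mk b - PowerSeries.X) = 0 := by
    rw [map_sub, PowerSeries.coeff_mk, PowerSeries.coeff_X, h.b0]
    simp
  have c1 : PowerSeries.coeff (0 + 1) (PowerSeries.mk b - PowerSeries.X) = ((-ε : ℝ) : ℂ) := by
    rw [map_sub, PowerSeries.coeff_mk, PowerSeries.coeff_X, zero_add, hb]
    push_cast
    simp
  have c2 : ∀ n : ℕ, PowerSeries.coeff (n + 1 + 1) (PowerSeries.mk b - PowerSeries.X) =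
      b (n + 2) := by
    intro n
    rw [map_sub, PowerSeries.coeff_mk, PowerSeries.coeff_X, if_neg (by omega), sub_zero]
  simp only [c0, c1, c2]
  have e1 : ∀ n : ℕ, Real.exp (-t) ^ (2 * n) = Qe t ^ n := fun n => by rw [pow_mul, hQs]
  simp only [e1]
  have hA := h.area2 hb M
  have e2 : ∑ n ∈ Finset.range M, 2 * π * ‖b (n + 2)‖ ^ 2 * Qe t ^ (n + 1 + 1) ≤
      ∑ n ∈ Finset.range M, (2 * π * (Qe t ^ 2 / 2)) * (((n : ℝ) + 2) * ‖b (n + 2)‖ ^ 2) := by
    refine Finset.sum_le_sum fun n _ => ?_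
    have f1 : Qe t ^ (n + 1 + 1) ≤ Qe t ^ 2 :=
      pow_le_pow_of_le_one hQ0.le hQ1.le (by omega)
    have f3 : Qe t ^ (n + 1 + 1) ≤ Qe t ^ 2 / 2 * ((n : ℝ) + 2) := by
      have : (0:ℝ) ≤ (n : ℝ) := Nat.cast_nonneg n
      have f4 : 0 < Qe t ^ 2 := by positivity
      nlinarith
    have f5 := mul_le_mul_of_nonneg_left f3 (by positivity : (0:ℝ) ≤ 2 * π * ‖b (n + 2)‖ ^ 2)
    linarith
  rw [← Finset.mul_sum] at e2
  have f6 := mul_le_mul_of_nonneg_left hA (by positivity : (0:ℝ) ≤ 2 * π * (Qe t ^ 2 / 2))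
  have f7 := e2.trans f6
  rw [norm_real, Real.norm_eq_abs, sq_abs]
  norm_num
  linarith

end Pool.Agent.H36.SZ
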