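import Mathlib

/-!
# Long lobes: numerical inequality

`rh v = sin 2v - 2v cos 2v`, its derivative is `4 v sin 2v = 8 v sin v cos v`.
-/

open Real

namespace Pool.Agent.H36.SZ

/-- `sin 2v - 2v cos 2v` -/
noncomputable def rh (v : ℝ) : ℝ := Real.sin (2 * v) - 2 * v * Real.cos (2 * v)

theorem rh_deriv (v : ℝ) : HasDerivAt rh (8 * v * Real.sin v * Real.cos v) v := by
  unfold rh
  have h1 : HasDerivAt (fun v : ℝ => 2 * v) 2 v := by
    simpa using (hasDerivAt_id v).const_mul 2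
  have h2 := h1.sin
  have h3 := h1.cos
  have h4 := h2.sub (h1.mul h3)
  refine h4.congr_deriv ?_
  rw [Real.sin_two_mul]
  ring

theorem rh_zero : rh 0 = 0 := by simp [rh]

private theorem mono_of {f f' : ℝ → ℝ} {c : ℝ} (hc : 0 ≤ c) (h0 : f 0 = 0)
    (hd : ∀ v, HasDerivAt f (f' v) v) (hp : ∀ v, 0 < v → v < c → 0 ≤ f' v) : 0 ≤ f c := by
  have hm : MonotoneOn f (Set.Icc 0 c) := by
    apply monotoneOn_of_deriv_nonneg (convex_Icc 0 c)
    · exact fun v _ => (hd v).continuousAt.continuousWithinAt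
    · exact fun v _ => (hd v).differentiableAt.differentiableWithinAt
    · intro v hv
      rw [interior_Icc] at hv
      rw [(hd v).deriv]
      exact hp v hv.1 hv.2
  have := hm (Set.left_mem_Icc.2 hc) (Set.right_mem_Icc.2 hc) hc
  rwa [h0] at this

/-- `sin γ + sin^3 γ / 6 <= γ` -/
theorem asin_lo {c : ℝ} (h0 : 0 ≤ c) (h1 : c ≤ π / 2) :
    Real.sin c + Real.sin c ^ 3 / 6 ≤ c := by
  have hd : ∀ v, HasDerivAt (fun v => v - (Real.sin v + Real.sin v ^ 3 / 6))
      (1 - (Real.cos v + 3 * Real.sin v ^ 2 * Real.cos v / 6)) v := by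
    intro v
    have h2 := (Real.hasDerivAt_sin v)
    have h3 := h2.pow 3
    have h4 := (hasDerivAt_id v).sub (h2.add (h3.div_const 6))
    refine h4.congr_deriv ?_
    norm_num
  have := mono_of h0 (by simp) hd fun v hv0 hv1 => by
    have hc0 : 0 ≤ Real.cos v := Real.cos_nonneg_of_mem_Icc ⟨by linarith, by linarith⟩
    have hs0 := Real.sin_sq_add_cos_sq v
    have hb : Real.cos v * (1 + Real.sin v ^ 2 / 2) ≤ 1 := by
      refine abs_le_one_iff_mul_self_le_one.2 ?_ |> fun h => (abs_le.1 h).2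
      have e : Real.cos v ^ 2 = 1 - Real.sin v ^ 2 := by linarith
      have : Real.cos v * (1 + Real.sin v ^ 2 / 2) * (Real.cos v * (1 + Real.sin v ^ 2 / 2)) =
          1 - 3 / 4 * (Real.sin v ^ 2) ^ 2 - (Real.sin v ^ 2) ^ 3 / 4 := by
        have : Real.cos v * (1 + Real.sin v ^ 2 / 2) * (Real.cos v * (1 + Real.sin v ^ 2 / 2)) =
          Real.cos v ^ 2 * (1 + Real.sin v ^ 2 / 2) ^ 2 := by ring
        rw [this, e]
        ring
      rw [this]
      have : 0 ≤ (Real.sin v ^ 2) ^ 3 := by positivity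
      have : 0 ≤ (Real.sin v ^ 2) ^ 2 := by positivity
      linarith
    nlinarith
  linarith

/-- `v <= sin v + sin^3 v / 6 + .256 sin^5 v` for `sin v <= .89` -/
theorem asin_up {c : ℝ} (h0 : 0 ≤ c) (h1 : c ≤ π / 2) (h2 : Real.sin c ≤ 89 / 100) :
    c ≤ Real.sin c + Real.sin c ^ 3 / 6 + 32 / 125 * Real.sin c ^ 5 := by
  have hd : ∀ v, HasDerivAt
      (fun v => Real.sin v + Real.sin v ^ 3 / 6 + 32 / 125 * Real.sin v ^ 5 - v)
      (Real.cos v * (1 + Real.sin v ^ 2 / 2 + 32 / 25 * Real.sin v ^ 4) - 1) v := by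
    intro v
    have h2 := (Real.hasDerivAt_sin v)
    have h3 := h2.pow 3
    have h5 := h2.pow 5
    have h4 := ((h2.add (h3.div_const 6)).add (h5.const_mul (32 / 125))).sub (hasDerivAt_id v)
    refine h4.congr_deriv ?_
    norm_num
    ring
  have := mono_of h0 (by simp) hd fun v hv0 hv1 => by
    have hc0 : 0 ≤ Real.cos v := Real.cos_nonneg_of_mem_Icc ⟨by linarith, by linarith⟩
    have hs0 := Real.sin_sq_add_cos_sq v
    have hs1 : 0 ≤ Real.sin v := Real.sin_nonneg_of_nonneg_of_le_pi hv0.le (by linarith [Real.pi_pos])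
    have hs2 : Real.sin v ≤ 89 / 100 :=
      (Real.sin_le_sin_of_le_of_le_pi_div_two (by linarith) h1 hv1.le).trans h2
    set p := Real.sin v ^ 2 with hp
    have hp0 : 0 ≤ p := sq_nonneg _
    have hp1 : p ≤ 7921 / 10000 := by
      rw [hp]
      nlinarith
    have e4 : Real.sin v ^ 4 = p ^ 2 := by rw [hp]; ring
    rw [e4]
    have e : Real.cos v ^ 2 = 1 - p := by linarith
    have key : 1 ≤ (Real.cos v * (1 + p / 2 + 32 / 25 * p ^ 2)) ^ 2 := by
      have : (Real.cos v * (1 + p / 2 + 32 / 25 * p ^ 2)) ^ 2 =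
          1 + p ^ 2 * (181 / 100 - 153 / 100 * p + 224 / 625 * p ^ 2 - 1024 / 625 * p ^ 3) := by
        rw [mul_pow, e]
        ring
      rw [this]
      have h7 : 0 ≤ 181 / 100 - 153 / 100 * p + 224 / 625 * p ^ 2 - 1024 / 625 * p ^ 3 := by
        nlinarith [mul_nonneg hp0 hp0, mul_nonneg (mul_nonneg hp0 hp0) (sub_nonneg.2 hp1),
          mul_nonneg hp0 (sub_nonneg.2 hp1), sub_nonneg.2 hp1]
      nlinarith [mul_nonneg (sq_nonneg p) h7]
    have hn : 0 ≤ Real.cos v * (1 + p / 2 + 32 / 25 * p ^ 2) := by positivity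
    nlinarith
  linarith

theorem rh_lo {c : ℝ} (h0 : 0 ≤ c) (h1 : c ≤ π / 2) :
    8 / 3 * (Real.sin c ^ 3 + Real.sin c ^ 5 / 10) ≤ rh c := by
  have hd : ∀ v, HasDerivAt (fun v => rh v - 8 / 3 * (Real.sin v ^ 3 + Real.sin v ^ 5 / 10))
      (8 * Real.sin v * Real.cos v * (v - (Real.sin v + Real.sin v ^ 3 / 6))) v := by
    intro v
    have h2 := (Real.hasDerivAt_sin v)
    have h4 := (rh_deriv v).sub (((h2.pow 3).add ((h2.pow 5).div_const 10)).const_mul (8 / 3))
    refine h4.congr_deriv ?_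
    norm_num
    ring
  have := mono_of h0 (by simp [rh_zero]) hd fun v hv0 hv1 => by
    have hc0 : 0 ≤ Real.cos v := Real.cos_nonneg_of_mem_Icc ⟨by linarith, by linarith⟩
    have hs1 : 0 ≤ Real.sin v := Real.sin_nonneg_of_nonneg_of_le_pi hv0.le (by linarith [Real.pi_pos])
    have := asin_lo hv0.le (by linarith)
    exact mul_nonneg (by positivity) (by linarith)
  linarith

theorem rh_up {c : ℝ} (h0 : 0 ≤ c) (h1 : c ≤ π / 2) (h2 : Real.sin c ≤ 89 / 100) :
    rh c ≤ 8 / 3 * (Real.sin c ^ 3 + Real.sin c ^ 5 / 10 + 11 / 100 * Real.sin c ^ 7) := by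
  have hd : ∀ v, HasDerivAt
      (fun v => 8 / 3 * (Real.sin v ^ 3 + Real.sin v ^ 5 / 10 + 11 / 100 * Real.sin v ^ 7) - rh v)
      (8 * Real.sin v * Real.cos v * (Real.sin v + Real.sin v ^ 3 / 6 +
        77 / 300 * Real.sin v ^ 5 - v)) v := by
    intro v
    have h2 := (Real.hasDerivAt_sin v)
    have h4 := ((((h2.pow 3).add ((h2.pow 5).div_const 10)).add
      ((h2.pow 7).const_mul (11 / 100))).const_mul (8 / 3)).sub (rh_deriv v)
    refine h4.congr_deriv ?_
    norm_num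
    ring
  have := mono_of h0 (by simp [rh_zero]) hd fun v hv0 hv1 => by
    have hc0 : 0 ≤ Real.cos v := Real.cos_nonneg_of_mem_Icc ⟨by linarith, by linarith⟩
    have hs1 : 0 ≤ Real.sin v := Real.sin_nonneg_of_nonneg_of_le_pi hv0.le (by linarith [Real.pi_pos])
    have hs2 : Real.sin v ≤ 89 / 100 :=
      (Real.sin_le_sin_of_le_of_le_pi_div_two (by linarith) h1 hv1.le).trans h2
    have := asin_up hv0.le (by linarith) hs2
    have h5 : 0 ≤ Real.sin v ^ 5 := by positivity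
    exact mul_nonneg (by positivity) (by linarith)
  linarith

/-! ### boxes -/

private theorem bx {S s r : ℝ} (κ r1 s1 : ℝ) (hs : 0 < s) (hs1 : s ≤ s1) (hr0 : 0 ≤ r)
    (hr : r ≤ r1) (hκ0 : 0 ≤ κ) (hκ : S ^ 2 ≤ κ * s ^ 2)
    (h1 : (1 + r1 * (1 + κ)) ^ 3 * (1 + r1 * (1 + κ) * s1 ^ 2 / 10 +
      11 / 100 * (1 + r1 * (1 + κ)) ^ 2 * s1 ^ 4) ^ 2 ≤ 4 * (1 + r1) ^ 2)
    (h2 : (1 + r1 * (1 + κ)) * s1 ^ 2 ≤ 7921 / 10000) :
    ((1 + r) * s ^ 2 + r * S ^ 2 ≤ 7921 / 10000) ∧
    ((1 + r) * s ^ 2 + r * S ^ 2) ^ 3 * (1 + ((1 + r) * s ^ 2 + r * S ^ 2) / 10 +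
      11 / 100 * ((1 + r) * s ^ 2 + r * S ^ 2) ^ 2) ^ 2 ≤
      4 * (1 + r) ^ 2 * s ^ 6 * (1 + s ^ 2 / 10) ^ 2 := by
  set W := (1 + r) * s ^ 2 + r * S ^ 2 with hW
  set w0 := 1 + r * (1 + κ) with hw0
  set w1 := 1 + r1 * (1 + κ) with hw1
  have hr1 : 0 ≤ r1 := hr0.trans hr
  have a1 : 1 ≤ w0 := by
    rw [hw0]
    have := mul_nonneg hr0 (by linarith : (0:ℝ) ≤ 1 + κ)
    linarith
  have a2 : w0 ≤ w1 := by
    rw [hw0, hw1]
    have := mul_le_mul_of_nonneg_right hr (by linarith : (0:ℝ) ≤ 1 + κ)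
    linarith
  have hs2 : s ^ 2 ≤ s1 ^ 2 := by nlinarith
  have hW0 : 0 ≤ W := by rw [hW]; positivity
  have hWw : W ≤ s ^ 2 * w0 := by
    rw [hW, hw0]
    have := mul_le_mul_of_nonneg_left hκ hr0
    linarith
  have hww : s ^ 2 * w0 ≤ s1 ^ 2 * w1 := by
    have := mul_le_mul hs2 a2 (by linarith) (sq_nonneg s1)
    linarith
  refine ⟨by linarith, ?_⟩
  have e1 : W ^ 3 * (1 + W / 10 + 11 / 100 * W ^ 2) ^ 2 ≤
      (s ^ 2 * w0) ^ 3 * (1 + (s ^ 2 * w0) / 10 + 11 / 100 * (s ^ 2 * w0) ^ 2) ^ 2 := by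
    gcongr
  refine e1.trans ?_
  set c1 := 1 + r1 * (1 + κ) * s1 ^ 2 / 10 + 11 / 100 * w1 ^ 2 * s1 ^ 4 with hc1
  have c0 : 1 ≤ c1 := by
    rw [hc1]
    have : 0 ≤ r1 * (1 + κ) * s1 ^ 2 / 10 := by positivity
    have : 0 ≤ 11 / 100 * w1 ^ 2 * s1 ^ 4 := by positivity
    linarith
  have e2 : 1 + (s ^ 2 * w0) / 10 + 11 / 100 * (s ^ 2 * w0) ^ 2 ≤ (1 + s ^ 2 / 10) * c1 := by
    have f1 : 1 + (s ^ 2 * w0) / 10 + 11 / 100 * (s ^ 2 * w0) ^ 2 ≤
        1 + s ^ 2 / 10 + ((w1 - 1) * s1 ^ 2 / 10 + 11 / 100 * (s1 ^ 2 * w1) ^ 2) := by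
      have g1 : s ^ 2 * (w0 - 1) ≤ s1 ^ 2 * (w1 - 1) :=
        mul_le_mul hs2 (by linarith) (by linarith) (sq_nonneg s1)
      have g2 : (s ^ 2 * w0) ^ 2 ≤ (s1 ^ 2 * w1) ^ 2 := by gcongr
      have g3 : s ^ 2 * w0 = s ^ 2 * (w0 - 1) + s ^ 2 := by ring
      have g4 : (w1 - 1) * s1 ^ 2 = s1 ^ 2 * (w1 - 1) := by ring
      rw [g4]
      linarith
    refine f1.trans ?_
    have f2 : c1 = 1 + ((w1 - 1) * s1 ^ 2 / 10 + 11 / 100 * (s1 ^ 2 * w1) ^ 2) := by
      rw [hc1, hw1]; ring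
    rw [f2]
    have f3 : 0 ≤ (w1 - 1) * s1 ^ 2 / 10 + 11 / 100 * (s1 ^ 2 * w1) ^ 2 := by
      rw [f2] at c0; linarith
    have f4 := mul_nonneg (by positivity : 0 ≤ s ^ 2 / 10) f3
    generalize (w1 - 1) * s1 ^ 2 / 10 + 11 / 100 * (s1 ^ 2 * w1) ^ 2 = X at f3 f4 ⊢
    have f5 : (1 + s ^ 2 / 10) * (1 + X) = 1 + s ^ 2 / 10 + X + s ^ 2 / 10 * X := by ring
    linarith
  have e3 : (s ^ 2 * w0) ^ 3 * (1 + (s ^ 2 * w0) / 10 + 11 / 100 * (s ^ 2 * w0) ^ 2) ^ 2 ≤
      (s ^ 2 * w0) ^ 3 * ((1 + s ^ 2 / 10) * c1) ^ 2 := by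
    have : 0 ≤ 1 + (s ^ 2 * w0) / 10 + 11 / 100 * (s ^ 2 * w0) ^ 2 := by positivity
    gcongr
  refine e3.trans ?_
  have e4 : w0 ^ 3 * c1 ^ 2 ≤ 4 * (1 + r) ^ 2 := by
    have g1 : w0 * (1 + r1) ≤ w1 * (1 + r) := by
      have : w1 * (1 + r) - w0 * (1 + r1) = κ * (r1 - r) := by rw [hw0, hw1]; ring
      have : 0 ≤ κ * (r1 - r) := mul_nonneg hκ0 (by linarith)
      linarith
    have g2 : w0 ^ 3 * (1 + r1) ^ 2 ≤ w1 ^ 3 * (1 + r) ^ 2 := by
      have : (w0 * (1 + r1)) ^ 2 ≤ (w1 * (1 + r)) ^ 2 := by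
        have : 0 ≤ w0 * (1 + r1) := by positivity
        gcongr
      have := mul_le_mul a2 this (sq_nonneg _) (by linarith)
      calc w0 ^ 3 * (1 + r1) ^ 2 = w0 * (w0 * (1 + r1)) ^ 2 := by ring
        _ ≤ w1 * (w1 * (1 + r)) ^ 2 := this
        _ = w1 ^ 3 * (1 + r) ^ 2 := by ring
    have g3 : w0 ^ 3 * c1 ^ 2 * (1 + r1) ^ 2 ≤ 4 * (1 + r) ^ 2 * (1 + r1) ^ 2 := by
      have i1 := mul_le_mul_of_nonneg_right g2 (sq_nonneg c1)
      have i2 := mul_le_mul_of_nonneg_right h1 (sq_nonneg (1 + r))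
      calc w0 ^ 3 * c1 ^ 2 * (1 + r1) ^ 2 = w0 ^ 3 * (1 + r1) ^ 2 * c1 ^ 2 := by ring
        _ ≤ w1 ^ 3 * (1 + r) ^ 2 * c1 ^ 2 := i1
        _ = w1 ^ 3 * c1 ^ 2 * (1 + r) ^ 2 := by ring
        _ ≤ 4 * (1 + r1) ^ 2 * (1 + r) ^ 2 := i2
        _ = 4 * (1 + r) ^ 2 * (1 + r1) ^ 2 := by ring
    exact le_of_mul_le_mul_right g3 (by positivity)
  have e5 := mul_le_mul_of_nonneg_left e4 (by positivity : 0 ≤ s ^ 6 * (1 + s ^ 2 / 10) ^ 2)
  calc (s ^ 2 * w0) ^ 3 * ((1 + s ^ 2 / 10) * c1) ^ 2 =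
      s ^ 6 * (1 + s ^ 2 / 10) ^ 2 * (w0 ^ 3 * c1 ^ 2) := by ring
    _ ≤ s ^ 6 * (1 + s ^ 2 / 10) ^ 2 * (4 * (1 + r) ^ 2) := e5
    _ = 4 * (1 + r) ^ 2 * s ^ 6 * (1 + s ^ 2 / 10) ^ 2 := by ring

private theorem inv_le {S S0 : ℝ} (h0 : 0 ≤ S0) (h : S0 ≤ S) :
    1 / (1 + 2 * S) ^ 2 ≤ 1 / (1 + 2 * S0) ^ 2 := by
  apply one_div_le_one_div_of_le (by positivity)
  gcongr

private theorem c2 {S s r : ℝ} (S0 S1 s1 κ r1 : ℝ) (u0 : S0 ≤ S) (u1 : S ≤ S1)
    (t1 : s ≤ s1) (hS : 0 < S) (hs : 0 < s) (hκ : S ^ 2 ≤ κ * s ^ 2)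
    (hr0 : 0 ≤ r) (hr : r ≤ 1 / (1 + 2 * S) ^ 2 + 11 / 10 * s ^ 4 / S) (h0 : 0 < S0)
    (h4 : 1 / (1 + 2 * S0) ^ 2 + 11 / 10 * s1 ^ 4 / S0 ≤ r1)
    (h1 : (1 + r1 * (1 + κ)) ^ 3 * (1 + r1 * (1 + κ) * s1 ^ 2 / 10 +
      11 / 100 * (1 + r1 * (1 + κ)) ^ 2 * s1 ^ 4) ^ 2 ≤ 4 * (1 + r1) ^ 2)
    (h2 : (1 + r1 * (1 + κ)) * s1 ^ 2 ≤ 7921 / 10000) :
    ((1 + r) * s ^ 2 + r * S ^ 2 ≤ 7921 / 10000) ∧
    ((1 + r) * s ^ 2 + r * S ^ 2) ^ 3 * (1 + ((1 + r) * s ^ 2 + r * S ^ 2) / 10 +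
      11 / 100 * ((1 + r) * s ^ 2 + r * S ^ 2) ^ 2) ^ 2 ≤
      4 * (1 + r) ^ 2 * s ^ 6 * (1 + s ^ 2 / 10) ^ 2 := by
  have hκ0 : 0 ≤ κ := by
    by_contra h
    have h := not_le.1 h
    nlinarith [mul_pos hs hs, mul_pos hS hS, mul_neg_of_neg_of_pos h (mul_pos hs hs)]
  refine bx κ r1 s1 hs t1 hr0 ?_ hκ0 hκ h1 h2
  have := inv_le h0.le u0
  have a3 : 11 / 10 * s ^ 4 / S ≤ 11 / 10 * s1 ^ 4 / S0 := by gcongr
  linarith

private theorem kA {S s : ℝ} (S1 s0 κ : ℝ) (hS : 0 < S) (u1 : S ≤ S1) (t0 : s0 ≤ s)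
    (h0 : 0 ≤ s0) (hκ : 0 ≤ κ) (h : S1 ^ 2 ≤ κ * s0 ^ 2) : S ^ 2 ≤ κ * s ^ 2 := by
  have a1 : S ^ 2 ≤ S1 ^ 2 := by nlinarith
  have a2 : s0 ^ 2 ≤ s ^ 2 := by nlinarith
  nlinarith [mul_le_mul_of_nonneg_left a2 hκ]

private theorem kB2 {S s : ℝ} (S1 κ : ℝ) (hS : 0 < S) (u1 : S ≤ S1)
    (hk : S ^ 2 * (1 - 2 * s ^ 2) ≤ s ^ 2) (h : 1 + 2 * S1 ^ 2 ≤ κ) : S ^ 2 ≤ κ * s ^ 2 := by
  have a1 : S ^ 2 ≤ S1 ^ 2 := by nlinarith
  have a2 : S ^ 2 ≤ (1 + 2 * S ^ 2) * s ^ 2 := by linarith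
  nlinarith [mul_le_mul_of_nonneg_right (by linarith : 1 + 2 * S ^ 2 ≤ κ) (sq_nonneg s)]

private theorem c2x {S s : ℝ} (S0 s1 : ℝ) (u0 : S0 ≤ S) (t1 : s ≤ s1) (hs : 0 < s)
    (h : 0 ≤ S0 ∧ s1 ^ 2 < S0 ^ 2 * (1 - 2 * s1 ^ 2)) :
    ¬ S ^ 2 * (1 - 2 * s ^ 2) ≤ s ^ 2 := by
  have a2 : s ^ 2 ≤ s1 ^ 2 := by nlinarith
  have a1 : S0 ^ 2 ≤ S ^ 2 := by nlinarith [h.1]
  have a3 : 0 < 1 - 2 * s1 ^ 2 := by
    by_contra hh
    have hh := not_lt.1 hh
    nlinarith [h.2, sq_nonneg S0, sq_nonneg s1, mul_nonneg (sq_nonneg S0) (neg_nonneg.2 hh)]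
  have a4 : S0 ^ 2 * (1 - 2 * s1 ^ 2) ≤ S ^ 2 * (1 - 2 * s ^ 2) :=
    mul_le_mul a1 (by linarith) a3.le (sq_nonneg S)
  linarith [h.2]

theorem reg2 {S s r : ℝ} (hS0 : 2013 / 10000 ≤ S) (hS1 : S ≤ 6367 / 10000) (hs : 0 < s)
    (hs1 : s ≤ 541 / 1000) (hk : S ^ 2 * (1 - 2 * s ^ 2) ≤ s ^ 2)
    (hr0 : 0 ≤ r) (hr : r ≤ 1 / (1 + 2 * S) ^ 2 + 11 / 10 * s ^ 4 / S) :
    ((1 + r) * s ^ 2 + r * S ^ 2 ≤ 7921 / 10000) ∧
    ((1 + r) * s ^ 2 + r * S ^ 2) ^ 3 * (1 + ((1 + r) * s ^ 2 + r * S ^ 2) / 10 +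
      11 / 100 * ((1 + r) * s ^ 2 + r * S ^ 2) ^ 2) ^ 2 ≤
      4 * (1 + r) ^ 2 * s ^ 6 * (1 + s ^ 2 / 10) ^ 2 := by
  have hS : 0 < S := by linarith
  have hs0 : 19 / 100 ≤ s := by
    by_contra h
    have h := (not_le.1 h).le
    exact absurd hk (c2x (2013 / 10000) (19 / 100) hS0 h hs (by norm_num))
  have t1 : s ≤ 541 / 1000 := hs1
  rcases le_or_gt (1047 / 2000) s with t0 | t0
  · have u1 : S ≤ 6367 / 10000 := hS1
    rcases le_or_gt (623 / 1000) S with u0 | u0
    · exact c2 (623 / 1000) (6367 / 10000) (541 / 1000) (37 / 25) (699 / 2000) u0 u1 t1 hS hs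
          (kA (6367 / 10000) (1047 / 2000) (37 / 25) hS u1 t0 (by norm_num) (by norm_num) (by norm_num))
          hr0 hr (by norm_num) (by norm_num) (by norm_num) (by norm_num)
    replace u1 := u0.le
    rcases le_or_gt (601 / 1000) S with u0 | u0
    · exact c2 (601 / 1000) (623 / 1000) (541 / 1000) (1417 / 1000) (3631 / 10000) u0 u1 t1 hS hs
          (kA (623 / 1000) (1047 / 2000) (1417 / 1000) hS u1 t0 (by norm_num) (by norm_num) (by norm_num))
          hr0 hr (by norm_num) (by norm_num) (by norm_num) (by norm_num)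
    replace u1 := u0.le
    rcases le_or_gt (113 / 200) S with u0 | u0
    · exact c2 (113 / 200) (601 / 1000) (541 / 1000) (1319 / 1000) (242 / 625) u0 u1 t1 hS hs
          (kA (601 / 1000) (1047 / 2000) (1319 / 1000) hS u1 t0 (by norm_num) (by norm_num) (by norm_num))
          hr0 hr (by norm_num) (by norm_num) (by norm_num) (by norm_num)
    replace u1 := u0.le
    rcases le_or_gt (507 / 1000) S with u0 | u0
    · exact c2 (507 / 1000) (113 / 200) (541 / 1000) (233 / 200) (1081 / 2500) u0 u1 t1 hS hs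
          (kA (113 / 200) (1047 / 2000) (233 / 200) hS u1 t0 (by norm_num) (by norm_num) (by norm_num))
          hr0 hr (by norm_num) (by norm_num) (by norm_num) (by norm_num)
    replace u1 := u0.le
    rcases le_or_gt (419 / 1000) S with u0 | u0
    · exact c2 (419 / 1000) (507 / 1000) (541 / 1000) (469 / 500) (521 / 1000) u0 u1 t1 hS hs
          (kA (507 / 1000) (1047 / 2000) (469 / 500) hS u1 t0 (by norm_num) (by norm_num) (by norm_num))
          hr0 hr (by norm_num) (by norm_num) (by norm_num) (by norm_num)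
    replace u1 := u0.le
    rcases le_or_gt (301 / 1000) S with u0 | u0
    · exact c2 (301 / 1000) (419 / 1000) (541 / 1000) (641 / 1000) (1757 / 2500) u0 u1 t1 hS hs
          (kA (419 / 1000) (1047 / 2000) (641 / 1000) hS u1 t0 (by norm_num) (by norm_num) (by norm_num))
          hr0 hr (by norm_num) (by norm_num) (by norm_num) (by norm_num)
    replace u1 := u0.le
    have u0 : 2013 / 10000 ≤ S := hS0
    exact c2 (2013 / 10000) (301 / 1000) (541 / 1000) (331 / 1000) (1953 / 2000) u0 u1 t1 hS hs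
        (kA (301 / 1000) (1047 / 2000) (331 / 1000) hS u1 t0 (by norm_num) (by norm_num) (by norm_num))
        hr0 hr (by norm_num) (by norm_num) (by norm_num) (by norm_num)
  replace t1 := t0.le
  rcases le_or_gt (253 / 500) s with t0 | t0
  · have u1 : S ≤ 6367 / 10000 := hS1
    rcases le_or_gt (311 / 500) S with u0 | u0
    · exact c2 (311 / 500) (6367 / 10000) (1047 / 2000) (198 / 125) (663 / 2000) u0 u1 t1 hS hs
          (kA (6367 / 10000) (253 / 500) (198 / 125) hS u1 t0 (by norm_num) (by norm_num) (by norm_num))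
          hr0 hr (by norm_num) (by norm_num) (by norm_num) (by norm_num)
    replace u1 := u0.le
    rcases le_or_gt (597 / 1000) S with u0 | u0
    · exact c2 (597 / 1000) (311 / 500) (1047 / 2000) (189 / 125) (1731 / 5000) u0 u1 t1 hS hs
          (kA (311 / 500) (253 / 500) (189 / 125) hS u1 t0 (by norm_num) (by norm_num) (by norm_num))
          hr0 hr (by norm_num) (by norm_num) (by norm_num) (by norm_num)
    replace u1 := u0.le
    rcases le_or_gt (139 / 250) S with u0 | u0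
    · exact c2 (139 / 250) (597 / 1000) (1047 / 2000) (1393 / 1000) (233 / 625) u0 u1 t1 hS hs
          (kA (597 / 1000) (253 / 500) (1393 / 1000) hS u1 t0 (by norm_num) (by norm_num) (by norm_num))
          hr0 hr (by norm_num) (by norm_num) (by norm_num) (by norm_num)
    replace u1 := u0.le
    rcases le_or_gt (49 / 100) S with u0 | u0
    · exact c2 (49 / 100) (139 / 250) (1047 / 2000) (151 / 125) (4237 / 10000) u0 u1 t1 hS hs
          (kA (139 / 250) (253 / 500) (151 / 125) hS u1 t0 (by norm_num) (by norm_num) (by norm_num))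
          hr0 hr (by norm_num) (by norm_num) (by norm_num) (by norm_num)
    replace u1 := u0.le
    rcases le_or_gt (39 / 100) S with u0 | u0
    · exact c2 (39 / 100) (49 / 100) (1047 / 2000) (469 / 500) (211 / 400) u0 u1 t1 hS hs
          (kA (49 / 100) (253 / 500) (469 / 500) hS u1 t0 (by norm_num) (by norm_num) (by norm_num))
          hr0 hr (by norm_num) (by norm_num) (by norm_num) (by norm_num)
    replace u1 := u0.le
    rcases le_or_gt (259 / 1000) S with u0 | u0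
    · exact c2 (259 / 1000) (39 / 100) (1047 / 2000) (119 / 200) (753 / 1000) u0 u1 t1 hS hs
          (kA (39 / 100) (253 / 500) (119 / 200) hS u1 t0 (by norm_num) (by norm_num) (by norm_num))
          hr0 hr (by norm_num) (by norm_num) (by norm_num) (by norm_num)
    replace u1 := u0.le
    have u0 : 2013 / 10000 ≤ S := hS0
    exact c2 (2013 / 10000) (259 / 1000) (1047 / 2000) (131 / 500) (2297 / 2500) u0 u1 t1 hS hs
        (kA (259 / 1000) (253 / 500) (131 / 500) hS u1 t0 (by norm_num) (by norm_num) (by norm_num))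
        hr0 hr (by norm_num) (by norm_num) (by norm_num) (by norm_num)
  replace t1 := t0.le
  rcases le_or_gt (977 / 2000) s with t0 | t0
  · have u1 : S ≤ 6367 / 10000 := hS1
    rcases le_or_gt (623 / 1000) S with u0 | u0
    · exact c2 (623 / 1000) (6367 / 10000) (253 / 500) (1699 / 1000) (157 / 500) u0 u1 t1 hS hs
          (kA (6367 / 10000) (977 / 2000) (1699 / 1000) hS u1 t0 (by norm_num) (by norm_num) (by norm_num))
          hr0 hr (by norm_num) (by norm_num) (by norm_num) (by norm_num)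
    replace u1 := u0.le
    rcases le_or_gt (3 / 5) S with u0 | u0
    · exact c2 (3 / 5) (623 / 1000) (253 / 500) (1627 / 1000) (817 / 2500) u0 u1 t1 hS hs
          (kA (623 / 1000) (977 / 2000) (1627 / 1000) hS u1 t0 (by norm_num) (by norm_num) (by norm_num))
          hr0 hr (by norm_num) (by norm_num) (by norm_num) (by norm_num)
    replace u1 := u0.le
    rcases le_or_gt (561 / 1000) S with u0 | u0
    · exact c2 (561 / 1000) (3 / 5) (253 / 500) (1509 / 1000) (3507 / 10000) u0 u1 t1 hS hs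
          (kA (3 / 5) (977 / 2000) (1509 / 1000) hS u1 t0 (by norm_num) (by norm_num) (by norm_num))
          hr0 hr (by norm_num) (by norm_num) (by norm_num) (by norm_num)
    replace u1 := u0.le
    rcases le_or_gt (497 / 1000) S with u0 | u0
    · exact c2 (497 / 1000) (561 / 1000) (253 / 500) (1319 / 1000) (1983 / 5000) u0 u1 t1 hS hs
          (kA (561 / 1000) (977 / 2000) (1319 / 1000) hS u1 t0 (by norm_num) (by norm_num) (by norm_num))
          hr0 hr (by norm_num) (by norm_num) (by norm_num) (by norm_num)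
    replace u1 := u0.le
    rcases le_or_gt (399 / 1000) S with u0 | u0
    · exact c2 (399 / 1000) (497 / 1000) (253 / 500) (259 / 250) (4901 / 10000) u0 u1 t1 hS hs
          (kA (497 / 1000) (977 / 2000) (259 / 250) hS u1 t0 (by norm_num) (by norm_num) (by norm_num))
          hr0 hr (by norm_num) (by norm_num) (by norm_num) (by norm_num)
    replace u1 := u0.le
    rcases le_or_gt (33 / 125) S with u0 | u0
    · exact c2 (33 / 125) (399 / 1000) (253 / 500) (167 / 250) (1403 / 2000) u0 u1 t1 hS hs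
          (kA (399 / 1000) (977 / 2000) (167 / 250) hS u1 t0 (by norm_num) (by norm_num) (by norm_num))
          hr0 hr (by norm_num) (by norm_num) (by norm_num) (by norm_num)
    replace u1 := u0.le
    have u0 : 2013 / 10000 ≤ S := hS0
    exact c2 (2013 / 10000) (33 / 125) (253 / 500) (293 / 1000) (4333 / 5000) u0 u1 t1 hS hs
        (kA (33 / 125) (977 / 2000) (293 / 1000) hS u1 t0 (by norm_num) (by norm_num) (by norm_num))
        hr0 hr (by norm_num) (by norm_num) (by norm_num) (by norm_num)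
  replace t1 := t0.le
  rcases le_or_gt (471 / 1000) s with t0 | t0
  · have u1 : S ≤ 6367 / 10000 := hS1
    rcases le_or_gt (78 / 125) S with u0 | u0
    · exact c2 (78 / 125) (6367 / 10000) (977 / 2000) (1811 / 1000) (2983 / 10000) u0 u1 t1 hS hs
          (kB2 (6367 / 10000) (1811 / 1000) hS u1 hk (by norm_num))
          hr0 hr (by norm_num) (by norm_num) (by norm_num) (by norm_num)
    replace u1 := u0.le
    rcases le_or_gt (607 / 1000) S with u0 | u0
    · exact c2 (607 / 1000) (78 / 125) (977 / 2000) (439 / 250) (3073 / 10000) u0 u1 t1 hS hs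
          (kA (78 / 125) (471 / 1000) (439 / 250) hS u1 t0 (by norm_num) (by norm_num) (by norm_num))
          hr0 hr (by norm_num) (by norm_num) (by norm_num) (by norm_num)
    replace u1 := u0.le
    rcases le_or_gt (289 / 500) S with u0 | u0
    · exact c2 (289 / 500) (607 / 1000) (977 / 2000) (1661 / 1000) (809 / 2500) u0 u1 t1 hS hs
          (kA (607 / 1000) (471 / 1000) (1661 / 1000) hS u1 t0 (by norm_num) (by norm_num) (by norm_num))
          hr0 hr (by norm_num) (by norm_num) (by norm_num) (by norm_num)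
    replace u1 := u0.le
    rcases le_or_gt (529 / 1000) S with u0 | u0
    · exact c2 (529 / 1000) (289 / 500) (977 / 2000) (753 / 500) (1773 / 5000) u0 u1 t1 hS hs
          (kA (289 / 500) (471 / 1000) (753 / 500) hS u1 t0 (by norm_num) (by norm_num) (by norm_num))
          hr0 hr (by norm_num) (by norm_num) (by norm_num) (by norm_num)
    replace u1 := u0.le
    rcases le_or_gt (9 / 20) S with u0 | u0
    · exact c2 (9 / 20) (529 / 1000) (977 / 2000) (631 / 500) (4163 / 10000) u0 u1 t1 hS hs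
          (kA (529 / 1000) (471 / 1000) (631 / 500) hS u1 t0 (by norm_num) (by norm_num) (by norm_num))
          hr0 hr (by norm_num) (by norm_num) (by norm_num) (by norm_num)
    replace u1 := u0.le
    rcases le_or_gt (33 / 100) S with u0 | u0
    · exact c2 (33 / 100) (9 / 20) (977 / 2000) (913 / 1000) (691 / 1250) u0 u1 t1 hS hs
          (kA (9 / 20) (471 / 1000) (913 / 1000) hS u1 t0 (by norm_num) (by norm_num) (by norm_num))
          hr0 hr (by norm_num) (by norm_num) (by norm_num) (by norm_num)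
    replace u1 := u0.le
    have u0 : 2013 / 10000 ≤ S := hS0
    exact c2 (2013 / 10000) (33 / 100) (977 / 2000) (491 / 1000) (1639 / 2000) u0 u1 t1 hS hs
        (kA (33 / 100) (471 / 1000) (491 / 1000) hS u1 t0 (by norm_num) (by norm_num) (by norm_num))
        hr0 hr (by norm_num) (by norm_num) (by norm_num) (by norm_num)
  replace t1 := t0.le
  rcases le_or_gt (431 / 1000) s with t0 | t0
  · have u1 : S ≤ 6367 / 10000 := hS1
    rcases le_or_gt (593 / 1000) S with u0 | u0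
    · exact c2 (593 / 1000) (6367 / 10000) (471 / 1000) (1811 / 1000) (1503 / 5000) u0 u1 t1 hS hs
          (kB2 (6367 / 10000) (1811 / 1000) hS u1 hk (by norm_num))
          hr0 hr (by norm_num) (by norm_num) (by norm_num) (by norm_num)
    replace u1 := u0.le
    rcases le_or_gt (561 / 1000) S with u0 | u0
    · exact c2 (561 / 1000) (593 / 1000) (471 / 1000) (213 / 125) (1593 / 5000) u0 u1 t1 hS hs
          (kB2 (593 / 1000) (213 / 125) hS u1 hk (by norm_num))
          hr0 hr (by norm_num) (by norm_num) (by norm_num) (by norm_num)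
    replace u1 := u0.le
    rcases le_or_gt (539 / 1000) S with u0 | u0
    · exact c2 (539 / 1000) (561 / 1000) (471 / 1000) (163 / 100) (3321 / 10000) u0 u1 t1 hS hs
          (kB2 (561 / 1000) (163 / 100) hS u1 hk (by norm_num))
          hr0 hr (by norm_num) (by norm_num) (by norm_num) (by norm_num)
    replace u1 := u0.le
    rcases le_or_gt (519 / 1000) S with u0 | u0
    · exact c2 (519 / 1000) (539 / 1000) (471 / 1000) (391 / 250) (3451 / 10000) u0 u1 t1 hS hs
          (kA (539 / 1000) (431 / 1000) (391 / 250) hS u1 t0 (by norm_num) (by norm_num) (by norm_num))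
          hr0 hr (by norm_num) (by norm_num) (by norm_num) (by norm_num)
    replace u1 := u0.le
    rcases le_or_gt (121 / 250) S with u0 | u0
    · exact c2 (121 / 250) (519 / 1000) (471 / 1000) (1451 / 1000) (3701 / 10000) u0 u1 t1 hS hs
          (kA (519 / 1000) (431 / 1000) (1451 / 1000) hS u1 t0 (by norm_num) (by norm_num) (by norm_num))
          hr0 hr (by norm_num) (by norm_num) (by norm_num) (by norm_num)
    replace u1 := u0.le
    rcases le_or_gt (53 / 125) S with u0 | u0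
    · exact c2 (53 / 125) (121 / 250) (471 / 1000) (631 / 500) (841 / 2000) u0 u1 t1 hS hs
          (kA (121 / 250) (431 / 1000) (631 / 500) hS u1 t0 (by norm_num) (by norm_num) (by norm_num))
          hr0 hr (by norm_num) (by norm_num) (by norm_num) (by norm_num)
    replace u1 := u0.le
    rcases le_or_gt (327 / 1000) S with u0 | u0
    · exact c2 (327 / 1000) (53 / 125) (471 / 1000) (121 / 125) (5311 / 10000) u0 u1 t1 hS hs
          (kA (53 / 125) (431 / 1000) (121 / 125) hS u1 t0 (by norm_num) (by norm_num) (by norm_num))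
          hr0 hr (by norm_num) (by norm_num) (by norm_num) (by norm_num)
    replace u1 := u0.le
    have u0 : 2013 / 10000 ≤ S := hS0
    exact c2 (2013 / 10000) (327 / 1000) (471 / 1000) (72 / 125) (7773 / 10000) u0 u1 t1 hS hs
        (kA (327 / 1000) (431 / 1000) (72 / 125) hS u1 t0 (by norm_num) (by norm_num) (by norm_num))
        hr0 hr (by norm_num) (by norm_num) (by norm_num) (by norm_num)
  replace t1 := t0.le
  rcases le_or_gt (361 / 1000) s with t0 | t0
  · have u1 : S ≤ 6367 / 10000 := hS1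
    rcases le_or_gt (133 / 250) S with u0 | u0
    · exact c2 (133 / 250) (6367 / 10000) (431 / 1000) (1811 / 1000) (3061 / 10000) u0 u1 t1 hS hs
          (kB2 (6367 / 10000) (1811 / 1000) hS u1 hk (by norm_num))
          hr0 hr (by norm_num) (by norm_num) (by norm_num) (by norm_num)
    replace u1 := u0.le
    rcases le_or_gt (58 / 125) S with u0 | u0
    · exact c2 (58 / 125) (133 / 250) (431 / 1000) (1567 / 1000) (3509 / 10000) u0 u1 t1 hS hs
          (kB2 (133 / 250) (1567 / 1000) hS u1 hk (by norm_num))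
          hr0 hr (by norm_num) (by norm_num) (by norm_num) (by norm_num)
    replace u1 := u0.le
    rcases le_or_gt (53 / 125) S with u0 | u0
    · exact c2 (53 / 125) (58 / 125) (431 / 1000) (1431 / 1000) (239 / 625) u0 u1 t1 hS hs
          (kB2 (58 / 125) (1431 / 1000) hS u1 hk (by norm_num))
          hr0 hr (by norm_num) (by norm_num) (by norm_num) (by norm_num)
    replace u1 := u0.le
    rcases le_or_gt (403 / 1000) S with u0 | u0
    · exact c2 (403 / 1000) (53 / 125) (431 / 1000) (34 / 25) (501 / 1250) u0 u1 t1 hS hs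
          (kB2 (53 / 125) (34 / 25) hS u1 hk (by norm_num))
          hr0 hr (by norm_num) (by norm_num) (by norm_num) (by norm_num)
    replace u1 := u0.le
    rcases le_or_gt (369 / 1000) S with u0 | u0
    · exact c2 (369 / 1000) (403 / 1000) (431 / 1000) (1247 / 1000) (217 / 500) u0 u1 t1 hS hs
          (kA (403 / 1000) (361 / 1000) (1247 / 1000) hS u1 t0 (by norm_num) (by norm_num) (by norm_num))
          hr0 hr (by norm_num) (by norm_num) (by norm_num) (by norm_num)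
    replace u1 := u0.le
    rcases le_or_gt (153 / 500) S with u0 | u0
    · exact c2 (153 / 500) (369 / 1000) (431 / 1000) (209 / 200) (5089 / 10000) u0 u1 t1 hS hs
          (kA (369 / 1000) (361 / 1000) (209 / 200) hS u1 t0 (by norm_num) (by norm_num) (by norm_num))
          hr0 hr (by norm_num) (by norm_num) (by norm_num) (by norm_num)
    replace u1 := u0.le
    have u0 : 2013 / 10000 ≤ S := hS0
    exact c2 (2013 / 10000) (153 / 500) (431 / 1000) (719 / 1000) (6969 / 10000) u0 u1 t1 hS hs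
        (kA (153 / 500) (361 / 1000) (719 / 1000) hS u1 t0 (by norm_num) (by norm_num) (by norm_num))
        hr0 hr (by norm_num) (by norm_num) (by norm_num) (by norm_num)
  replace t1 := t0.le
  rcases le_or_gt (143 / 500) s with t0 | t0
  · have u1 : S ≤ 6367 / 10000 := hS1
    rcases le_or_gt (21 / 50) S with u0 | u0
    · exact absurd hk (c2x (21 / 50) (361 / 1000) u0 t1 hs (by norm_num))
    replace u1 := u0.le
    rcases le_or_gt (42 / 125) S with u0 | u0
    · exact c2 (42 / 125) (21 / 50) (361 / 1000) (1353 / 1000) (2067 / 5000) u0 u1 t1 hS hs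
          (kB2 (21 / 50) (1353 / 1000) hS u1 hk (by norm_num))
          hr0 hr (by norm_num) (by norm_num) (by norm_num) (by norm_num)
    replace u1 := u0.le
    rcases le_or_gt (3 / 10) S with u0 | u0
    · exact c2 (3 / 10) (42 / 125) (361 / 1000) (613 / 500) (4529 / 10000) u0 u1 t1 hS hs
          (kB2 (42 / 125) (613 / 500) hS u1 hk (by norm_num))
          hr0 hr (by norm_num) (by norm_num) (by norm_num) (by norm_num)
    replace u1 := u0.le
    rcases le_or_gt (33 / 125) S with u0 | u0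
    · exact c2 (33 / 125) (3 / 10) (361 / 1000) (1101 / 1000) (4991 / 10000) u0 u1 t1 hS hs
          (kA (3 / 10) (143 / 500) (1101 / 1000) hS u1 t0 (by norm_num) (by norm_num) (by norm_num))
          hr0 hr (by norm_num) (by norm_num) (by norm_num) (by norm_num)
    replace u1 := u0.le
    have u0 : 2013 / 10000 ≤ S := hS0
    exact c2 (2013 / 10000) (33 / 125) (361 / 1000) (853 / 1000) (1503 / 2500) u0 u1 t1 hS hs
        (kA (33 / 125) (143 / 500) (853 / 1000) hS u1 t0 (by norm_num) (by norm_num) (by norm_num))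
        hr0 hr (by norm_num) (by norm_num) (by norm_num) (by norm_num)
  replace t1 := t0.le
  rcases le_or_gt (457 / 2000) s with t0 | t0
  · have u1 : S ≤ 6367 / 10000 := hS1
    rcases le_or_gt (313 / 1000) S with u0 | u0
    · exact absurd hk (c2x (313 / 1000) (143 / 500) u0 t1 hs (by norm_num))
    replace u1 := u0.le
    rcases le_or_gt (251 / 1000) S with u0 | u0
    · exact c2 (251 / 1000) (313 / 1000) (143 / 500) (299 / 250) (2363 / 5000) u0 u1 t1 hS hs
          (kB2 (313 / 1000) (299 / 250) hS u1 hk (by norm_num))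
          hr0 hr (by norm_num) (by norm_num) (by norm_num) (by norm_num)
    replace u1 := u0.le
    rcases le_or_gt (231 / 1000) S with u0 | u0
    · exact c2 (231 / 1000) (251 / 1000) (143 / 500) (1127 / 1000) (2499 / 5000) u0 u1 t1 hS hs
          (kB2 (251 / 1000) (1127 / 1000) hS u1 hk (by norm_num))
          hr0 hr (by norm_num) (by norm_num) (by norm_num) (by norm_num)
    replace u1 := u0.le
    have u0 : 2013 / 10000 ≤ S := hS0
    exact c2 (2013 / 10000) (231 / 1000) (143 / 500) (1023 / 1000) (5449 / 10000) u0 u1 t1 hS hs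
        (kA (231 / 1000) (457 / 2000) (1023 / 1000) hS u1 t0 (by norm_num) (by norm_num) (by norm_num))
        hr0 hr (by norm_num) (by norm_num) (by norm_num) (by norm_num)
  replace t1 := t0.le
  have t0 : 19 / 100 ≤ s := hs0
  have u1 : S ≤ 6367 / 10000 := hS1
  rcases le_or_gt (121 / 500) S with u0 | u0
  · exact absurd hk (c2x (121 / 500) (457 / 2000) u0 t1 hs (by norm_num))
  replace u1 := u0.le
  rcases le_or_gt (211 / 1000) S with u0 | u0
  · exact c2 (211 / 1000) (121 / 500) (457 / 2000) (559 / 500) (318 / 625) u0 u1 t1 hS hs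
        (kB2 (121 / 500) (559 / 500) hS u1 hk (by norm_num))
        hr0 hr (by norm_num) (by norm_num) (by norm_num) (by norm_num)
  replace u1 := u0.le
  rcases le_or_gt (203 / 1000) S with u0 | u0
  · exact c2 (203 / 1000) (211 / 1000) (457 / 2000) (109 / 100) (5207 / 10000) u0 u1 t1 hS hs
        (kB2 (211 / 1000) (109 / 100) hS u1 hk (by norm_num))
        hr0 hr (by norm_num) (by norm_num) (by norm_num) (by norm_num)
  replace u1 := u0.le
  have u0 : 2013 / 10000 ≤ S := hS0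
  exact c2 (2013 / 10000) (203 / 1000) (457 / 2000) (1083 / 1000) (5233 / 10000) u0 u1 t1 hS hs
      (kB2 (203 / 1000) (1083 / 1000) hS u1 hk (by norm_num))
      hr0 hr (by norm_num) (by norm_num) (by norm_num) (by norm_num)

end Pool.Agent.H36.SZ
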