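import Pool.Agent.H36.SZ.LoD
import Pool.Agent.H36.SZ.Jen

/-!
# Low levels: the area theorem

`b 1` is real and nonnegative, `ε = 1 - b_1`, `Q = exp (-2t)`, `A2 = sum_(n>=2) n |b_n|^2`.
PROOFS. `area2`: `Sg.area_sum`, the term `n = 1` is `(1-ε)^2`, so
`sum_(2<=n<M) n |b_n|^2 <= 1 - (1-ε)^2 = ε (2-ε)`; all terms are `>= 0`.
`mass`: Parseval: `int |F|^2 = 2π (e^(2t) + sum |b_n|^2 Q^n)`: for `F`, `IsSig.moment_two` as in
`Sg.int_yy_le` (`Jen.lean`) or directly; `int |J|^2 = 2π (e^(2t) + Q)` (`int_yyJ`), so the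
difference is `2π (((1-ε)^2 - 1) Q + sum_(n>=2) |b_n|^2 Q^n)`, and
`sum_(n>=2) |b_n|^2 Q^n <= (Q^2/2) sum_(n>=2) n |b_n|^2 <= (Q^2/2) ε (2-ε)`.
`sup`: `|G F - G J| <= ε e^(-t) + sum_(n>=2) |b_n| e^(-nt)`, Cauchy-Schwarz:
`(sum_(n>=2) |b_n| e^(-nt))^2 <= (sum n |b_n|^2) (sum_(n>=2) Q^n / n) <= ε (2-ε) La` where
`sum_(n>=2) Q^n/n <= Q^2/2 + (1/3) sum_(n>=3) Q^n = La`; then `(u+v)^2 <= 4 u^2 + (4/3) v^2`.
-/

open Complex MeasureTheory Set Filter Topology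
open scoped ComplexConjugate Real

namespace Pool.Agent.H36.SZ

variable {F : ℂ → ℂ} {b : ℕ → ℂ} {q : ℝ}

open Pool.Agent.H15.Sig

theorem Sg.area2 (h : Sg F b q) {ε : ℝ} (hb : b 1 = ((1 - ε : ℝ) : ℂ)) (M : ℕ) :
    ∑ n ∈ Finset.range M, ((n : ℝ) + 2) * ‖b (n + 2)‖ ^ 2 ≤ ε * (2 - ε) := by
  have h1 := h.area_sum (M + 2)
  rw [Finset.sum_range_succ', Finset.sum_range_succ'] at h1
  have e1 : ‖b 1‖ ^ 2 = (1 - ε) ^ 2 := by
    rw [hb, norm_real, Real.norm_eq_abs, sq_abs]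
  have e2 : ∑ n ∈ Finset.range M, (((n + 1 + 1 : ℕ) : ℝ)) * ‖b (n + 1 + 1)‖ ^ 2 =
      ∑ n ∈ Finset.range M, ((n : ℝ) + 2) * ‖b (n + 2)‖ ^ 2 := by
    refine Finset.sum_congr rfl fun n _ => ?_
    rw [show n + 1 + 1 = n + 2 by ring]
    push_cast
    ring
  rw [e2] at h1
  norm_num at h1
  rw [e1] at h1
  linarith

private theorem Qe_pos (t : ℝ) : 0 < Qe t := Real.exp_pos _

private theorem Qe_lt {t : ℝ} (ht : 0 < t) : Qe t < 1 := by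
  unfold Qe
  rw [Real.exp_lt_one_iff]
  linarith

private theorem Qe_sq (t : ℝ) : Real.exp (-t) ^ 2 = Qe t := by
  unfold Qe
  rw [← Real.exp_nat_mul]
  congr 1
  push_cast
  ring

private theorem yyx (h : Sg F b q) {t : ℝ} (ht : 0 < t) (θ : ℝ) :
    yy F t θ = Real.exp t ^ 2 *
      ‖1 + (((Real.exp (-t) : ℝ) : ℂ) * ec θ) * pw b (((Real.exp (-t) : ℝ) : ℂ) * ec θ)‖ ^ 2 := by
  have hx1 : Real.exp (-t) < 1 := by rw [Real.exp_lt_one_iff]; linarith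
  have h1 := h.isSig.norm_circle (Real.exp_pos (-t)) hx1 θ
  have e0 : (Real.exp (-t))⁻¹ = Real.exp t := by rw [Real.exp_neg, inv_inv]
  rw [e0] at h1
  have e1 : ((Real.exp t : ℝ) : ℂ) * exp (θ * I) = exp (t + θ * I) := by
    rw [ofReal_exp, ← Complex.exp_add]
  rw [e1] at h1
  unfold yy G
  rw [h1, mul_pow]

theorem Sg.mass (h : Sg F b q) {ε : ℝ} (hb : b 1 = ((1 - ε : ℝ) : ℂ)) {t : ℝ} (ht : 0 < t) :
    (∫ θ in (-π)..π, yy F t θ) - (∫ θ in (-π)..π, yy J t θ) ≤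
      -(2 * π * (ε * (2 - ε) * Qe t * (1 - Qe t / 2))) := by
  have hx0 : 0 < Real.exp (-t) := Real.exp_pos _
  have hx1 : Real.exp (-t) < 1 := by rw [Real.exp_lt_one_iff]; linarith
  have hQ0 := Qe_pos t
  have hQ1 := Qe_lt ht
  have hpi := Real.pi_pos
  have hE : Real.exp t ^ 2 * Qe t = 1 := by
    unfold Qe
    rw [← Real.exp_nat_mul, ← Real.exp_add]
    rw [show ((2 : ℕ) : ℝ) * t + -(2 * t) = 0 by push_cast; ring, Real.exp_zero]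
  have hb1 : ‖b 1‖ ^ 2 = (1 - ε) ^ 2 := by
    rw [hb, norm_real, Real.norm_eq_abs, sq_abs]
  have hF : ∫ θ in (-π)..π, yy F t θ = Real.exp t ^ 2 *
      ∫ θ in (-π)..π, ‖1 + (((Real.exp (-t) : ℝ) : ℂ) * ec θ) *
        pw b (((Real.exp (-t) : ℝ) : ℂ) * ec θ)‖ ^ 2 := by
    rw [← intervalIntegral.integral_const_mul]
    exact intervalIntegral.integral_congr fun θ _ => yyx h ht θ
  have hP := h.isSig.rep_sps.parseval_self hx0.le hx1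
  have hT := hP.tendsto_sum_nat
  have hb2 : (∫ θ in (-π)..π, ‖1 + (((Real.exp (-t) : ℝ) : ℂ) * ec θ) *
        pw b (((Real.exp (-t) : ℝ) : ℂ) * ec θ)‖ ^ 2) ≤
      2 * π * (1 + (1 - ε) ^ 2 * Qe t ^ 2 + ε * (2 - ε) * (Qe t ^ 3 / 2)) := by
    refine le_of_tendsto hT ?_
    filter_upwards [eventually_ge_atTop 3] with N hN
    obtain ⟨M, rfl⟩ : ∃ M, N = M + 3 := ⟨N - 3, by omega⟩
    rw [Finset.sum_range_succ', Finset.sum_range_succ', Finset.sum_range_succ']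
    have c0 : PowerSeries.coeff 0 (sps b) = 1 := coeff_sps_zero
    have c1 : PowerSeries.coeff (0 + 1) (sps b) = 0 := by rw [coeff_sps_succ, h.b0]
    have c2 : PowerSeries.coeff (0 + 1 + 1) (sps b) = b 1 := coeff_sps_succ 1
    have c3 : ∀ n : ℕ, PowerSeries.coeff (n + 1 + 1 + 1) (sps b) = b (n + 2) :=
      fun n => coeff_sps_succ (n + 2)
    simp only [c0, c1, c2, c3]
    have e1 : ∀ n : ℕ, Real.exp (-t) ^ (2 * n) = Qe t ^ n := fun n => by rw [pow_mul, Qe_sq]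
    simp only [e1]
    rw [hb1]
    have hA := h.area2 hb M
    have e2 : ∑ n ∈ Finset.range M, 2 * π * ‖b (n + 2)‖ ^ 2 * Qe t ^ (n + 1 + 1 + 1) ≤
        ∑ n ∈ Finset.range M, (2 * π * (Qe t ^ 3 / 2)) * (((n : ℝ) + 2) * ‖b (n + 2)‖ ^ 2) := by
      refine Finset.sum_le_sum fun n _ => ?_
      have f1 : Qe t ^ (n + 1 + 1 + 1) ≤ Qe t ^ 3 :=
        pow_le_pow_of_le_one hQ0.le hQ1.le (by omega)
      have f2 : (0:ℝ) ≤ ‖b (n + 2)‖ ^ 2 := by positivity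
      have f3 : Qe t ^ (n + 1 + 1 + 1) ≤ Qe t ^ 3 / 2 * ((n : ℝ) + 2) := by
        have : (0:ℝ) ≤ (n : ℝ) := Nat.cast_nonneg n
        have f4 : 0 < Qe t ^ 3 := by positivity
        nlinarith
      have f5 := mul_le_mul_of_nonneg_left f3 (by positivity : (0:ℝ) ≤ 2 * π * ‖b (n + 2)‖ ^ 2)
      linarith
    rw [← Finset.mul_sum] at e2
    have f6 := mul_le_mul_of_nonneg_left hA (by positivity : (0:ℝ) ≤ 2 * π * (Qe t ^ 3 / 2))
    have f7 := e2.trans f6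
    norm_num
    linarith
  rw [int_yyJ, hF]
  have hE2 : (0:ℝ) ≤ Real.exp t ^ 2 := by positivity
  have h3 := mul_le_mul_of_nonneg_left hb2 hE2
  have hc : 2 * Real.cosh (2 * t) = Real.exp t ^ 2 + Qe t := by
    rw [Real.cosh_eq]
    unfold Qe
    rw [← Real.exp_nat_mul]
    push_cast
    ring
  rw [hc]
  have h4 : Real.exp t ^ 2 * (2 * π * (1 + (1 - ε) ^ 2 * Qe t ^ 2 + ε * (2 - ε) * (Qe t ^ 3 / 2)))
      = 2 * π * (Real.exp t ^ 2 + (1 - ε) ^ 2 * Qe t + ε * (2 - ε) * (Qe t ^ 2 / 2)) := by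
    linear_combination (2 * π * ((1 - ε) ^ 2 * Qe t + ε * (2 - ε) * (Qe t ^ 2 / 2))) * hE
  rw [h4] at h3
  refine (sub_le_sub_right h3 _).trans (le_of_eq ?_)
  ring

private theorem sum_le_La {t : ℝ} (ht : 0 < t) (M : ℕ) :
    ∑ n ∈ Finset.range M, Qe t ^ (n + 2) / ((n : ℝ) + 2) ≤ La t := by
  have hQ0 := Qe_pos t
  have hQ1 := Qe_lt ht
  have h1Q : 0 < 1 - Qe t := by linarith
  cases M with
  | zero =>
    rw [Finset.sum_range_zero]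
    unfold La
    positivity
  | succ M =>
    rw [Finset.sum_range_succ']
    have e1 : ∑ n ∈ Finset.range M, Qe t ^ (n + 1 + 2) / (((n + 1 : ℕ) : ℝ) + 2) ≤
        ∑ n ∈ Finset.range M, Qe t ^ 3 / 3 * Qe t ^ n := by
      refine Finset.sum_le_sum fun n _ => ?_
      have f1 : Qe t ^ (n + 1 + 2) = Qe t ^ 3 * Qe t ^ n := by ring
      rw [f1, div_mul_eq_mul_div]
      apply div_le_div_of_nonneg_left (by positivity) (by norm_num)
      push_cast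
      have : (0:ℝ) ≤ (n : ℝ) := Nat.cast_nonneg n
      linarith
    have e2 : ∑ n ∈ Finset.range M, Qe t ^ n ≤ 1 / (1 - Qe t) := by
      rw [le_div_iff₀ h1Q]
      have := geom_sum_mul (Qe t) M
      have f2 : 0 < Qe t ^ M := by positivity
      linarith
    rw [← Finset.mul_sum] at e1
    have e3 := mul_le_mul_of_nonneg_left e2 (by positivity : (0:ℝ) ≤ Qe t ^ 3 / 3)
    unfold La
    have e4 : Qe t ^ 3 / 3 * (1 / (1 - Qe t)) = Qe t ^ 3 / (3 * (1 - Qe t)) := by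
      field_simp
    have e5 : Qe t ^ (0 + 2) / (((0 : ℕ) : ℝ) + 2) = Qe t ^ 2 / 2 := by norm_num
    rw [e5]
    linarith

theorem Sg.sup (h : Sg F b q) {ε : ℝ} (h0 : 0 ≤ ε) (h1 : ε ≤ 1) (hb : b 1 = ((1 - ε : ℝ) : ℂ))
    {t : ℝ} (ht : 0 < t) (θ : ℝ) :
    ‖G F t θ - G J t θ‖ ^ 2 ≤ 4 * ε ^ 2 * Qe t + 4 / 3 * (ε * (2 - ε)) * La t := by
  have hQ0 := Qe_pos t
  have hQ1 := Qe_lt ht
  set z : ℂ := exp (t + θ * I) with hz
  have hnz : ‖z‖ = Real.exp t := by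
    rw [hz, Complex.norm_exp]; simp
  have hq : q < ‖z‖ := by
    rw [hnz]
    have := Real.add_one_le_exp t
    have := h.q1
    linarith
  have hnz' : ‖z⁻¹‖ = Real.exp (-t) := by rw [norm_inv, hnz, Real.exp_neg]
  have hs := (h.hasSum z hq).tendsto_sum_nat
  have hG : G F t θ - G J t θ = (F z - z) - z⁻¹ := by
    unfold G J
    rw [← hz]
    ring
  rw [hG]
  have hs2 : Tendsto (fun N => ‖∑ n ∈ Finset.range N, b n * z⁻¹ ^ n - z⁻¹‖ ^ 2) atTop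
      (𝓝 (‖(F z - z) - z⁻¹‖ ^ 2)) := ((hs.sub_const _).norm).pow 2
  refine le_of_tendsto hs2 ?_
  filter_upwards [eventually_ge_atTop 2] with N hN
  obtain ⟨M, rfl⟩ : ∃ M, N = M + 2 := ⟨N - 2, by omega⟩
  rw [Finset.sum_range_succ', Finset.sum_range_succ', h.b0]
  set S : ℂ := ∑ n ∈ Finset.range M, b (n + 1 + 1) * z⁻¹ ^ (n + 1 + 1) with hS
  have e1 : S + b (0 + 1) * z⁻¹ ^ (0 + 1) + 0 * z⁻¹ ^ 0 - z⁻¹ = S + (((-ε : ℝ) : ℂ)) * z⁻¹ := by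
    rw [show (0 + 1 : ℕ) = 1 from rfl, hb]
    push_cast
    ring
  rw [e1]
  have e2 : ‖(((-ε : ℝ) : ℂ)) * z⁻¹‖ = ε * Real.exp (-t) := by
    rw [norm_mul, hnz', norm_real, Real.norm_eq_abs, abs_neg, abs_of_nonneg h0]
  have e3 : ‖S‖ ≤ ∑ n ∈ Finset.range M, ‖b (n + 2)‖ * Real.exp (-t) ^ (n + 2) := by
    rw [hS]
    refine (norm_sum_le _ _).trans (le_of_eq ?_)
    refine Finset.sum_congr rfl fun n _ => ?_
    rw [norm_mul, norm_pow, hnz']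
  have e4 : (∑ n ∈ Finset.range M, ‖b (n + 2)‖ * Real.exp (-t) ^ (n + 2)) ^ 2 ≤
      (∑ n ∈ Finset.range M, ((n : ℝ) + 2) * ‖b (n + 2)‖ ^ 2) *
        (∑ n ∈ Finset.range M, Qe t ^ (n + 2) / ((n : ℝ) + 2)) := by
    apply Finset.sum_sq_le_sum_mul_sum_of_sq_eq_mul
    · intro n _; positivity
    · intro n _; positivity
    · intro n _
      have f1 : ((n : ℝ) + 2) ≠ 0 := by positivity
      rw [mul_pow, ← pow_mul, mul_comm (n + 2) 2, pow_mul, Qe_sq]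
      field_simp
  have hA := h.area2 hb M
  have hL := sum_le_La ht M
  have hL0 : 0 ≤ La t := by
    have := sum_le_La ht 0
    rwa [Finset.sum_range_zero] at this
  have hee : 0 ≤ ε * (2 - ε) := mul_nonneg h0 (by linarith)
  have e5 : ‖S‖ ^ 2 ≤ ε * (2 - ε) * La t := by
    refine (pow_le_pow_left₀ (norm_nonneg _) e3 2).trans (e4.trans ?_)
    exact mul_le_mul hA hL (Finset.sum_nonneg fun n _ => by positivity) hee
  have e6 : ‖S + (((-ε : ℝ) : ℂ)) * z⁻¹‖ ≤ ‖S‖ + ε * Real.exp (-t) := by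
    refine (norm_add_le _ _).trans ?_
    rw [e2]
  have e7 : ‖S + (((-ε : ℝ) : ℂ)) * z⁻¹‖ ^ 2 ≤ (‖S‖ + ε * Real.exp (-t)) ^ 2 :=
    pow_le_pow_left₀ (norm_nonneg _) e6 2
  have e8 : (ε * Real.exp (-t)) ^ 2 = ε ^ 2 * Qe t := by rw [mul_pow, Qe_sq]
  have e9 : (‖S‖ + ε * Real.exp (-t)) ^ 2 ≤
      4 * (ε * Real.exp (-t)) ^ 2 + 4 / 3 * ‖S‖ ^ 2 := by
    nlinarith [sq_nonneg (‖S‖ - 3 * (ε * Real.exp (-t)))]
  rw [e8] at e9
  linarith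

end Pool.Agent.H36.SZ
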