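import Pool.Agent.H36.SZ.LbD
import Pool.Agent.H36.SZ.LoA
import Pool.Agent.H36.SZ.LgN

/-!
# A long arc above the level: comparison with `J`

`AD = ∫ |J|^2 - ∫ |F|^2`; `hc` is `Sg.ad1`.
PROOF of `Sg.arcJ`. Write `f = ‖G F‖`, `j = ‖G J‖`, `‖G F - G J‖ >= |f - j|`. Pointwise, for `R > 1`:
`f^2 + (f - j)^2/(R - 1) >= j^2/R` (equality at `f = j/R`), so
`u := max (x - f^2) 0 - ‖G F - G J‖^2/(R-1) <= max (x - j^2/R) 0`, and `u <= 0` where `f^2 >= x`.
By `hc` and `hr`: `∫ max (x - j^2) 0 < ∫ max (x - f^2) 0 - AD <= ∫_(-π)^π u` (`AD >= ∫ ‖..‖^2/(R-1)`).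
`u` is `2π`-periodic: `∫_(-π)^π u = ∫_p^(p+2π) u = ∫_p^(p+π) u + ∫_(p+π)^(p+2π) u
<= 0 + ∫_(p+π)^(p+2π) max (x - j^2/R) 0`, and `yy J t` is `π`-periodic (`yy_J`:
`4 sinh^2 t + 4 cos^2 θ`), so the last integral is `1/2 ∫_(-π)^π max (x - j^2/R) 0`.
`Sg.arcA`: `∫_(-π)^π max (x - f^2) 0 = ∫_(p+π)^(p+2π) max (x - f^2) 0 <= π x`.
`int1`: `x - yy J = 4 (cos^2 θ - cos^2 u)`, positive for `u` within `π/2 - θ` of `± π/2`;
four times `∫_0^γ 4 (sin^2 γ - sin^2 v) dv = 4 γ sin^2 γ - 2 γ + sin 2γ = rh γ`, `γ = π/2 - θ`.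
`int2`: `R x - yy J = 4 (sin^2 v0 - cos^2 u)` with `sin^2 v0 = R cos^2 θ + (R-1) sinh^2 t`:
`1/2 ∫ max (x - yy J/R) 0 = (1/(2R)) * 4 * rh v0 = (2/R) rh v0`. Both from the private lemma
`∫_(-π)^π max (4 (sin^2 v0 - cos^2 u)) 0 du = 4 rh v0` for `0 <= v0 <= π/2`.
-/

open Complex MeasureTheory Set Filter Topology
open scoped ComplexConjugate Real

namespace Pool.Agent.H36.SZ

variable {F : ℂ → ℂ} {b : ℕ → ℂ} {q : ℝ}

private theorem lgb_cJ (t : ℝ) : Continuous (yy J t) := by
  have e : yy J t = fun θ => 4 * Real.sinh t ^ 2 + 4 * Real.cos θ ^ 2 := funext (yy_J t)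
  rw [e]
  fun_prop

private theorem lgb_GJ (t : ℝ) : Continuous (G J t) := by
  have e : G J t = fun θ : ℝ => (2 * Real.cosh t * Real.cos θ + 2 * Real.sinh t * Real.sin θ * I :
    ℂ) := funext (G_J t)
  rw [e]
  fun_prop

private theorem lgb_per (F : ℂ → ℂ) (t θ : ℝ) : G F t (θ + 2 * π) = G F t θ := by
  unfold G
  have e : (t : ℂ) + ((θ + 2 * π : ℝ) : ℂ) * I = (t + θ * I) + 2 * π * I := by
    push_cast
    ring
  rw [e, Complex.exp_periodic]

private theorem lgb_Jpi (t u : ℝ) : yy J t (u + π) = yy J t u := by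
  rw [yy_J, yy_J, Real.cos_add_pi, neg_sq]

private theorem lgb_cG (h : Sg F b q) {t : ℝ} (ht : 0 < t) : Continuous (G F t) :=
  h.an.cGt (lt_of_lt_of_le h.q1 (Real.one_le_exp ht.le))

private theorem lgb_shift {g : ℝ → ℝ} (per : Function.Periodic g (2 * π)) (p : ℝ) :
    ∫ θ in (-π)..π, g θ = ∫ θ in p..(p + 2 * π), g θ := by
  have h1 := per.intervalIntegral_add_eq (-π) p
  rwa [show -π + 2 * π = π by ring] at h1

private theorem lgb_half {g : ℝ → ℝ} (cg : Continuous g) (per : Function.Periodic g π) (p : ℝ) :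
    ∫ θ in (-π)..π, g θ = 2 * ∫ θ in p..(p + π), g θ := by
  have h1 := per.intervalIntegral_add_eq (-π) p
  have h2 := per.intervalIntegral_add_eq 0 p
  rw [show -π + π = 0 by ring] at h1
  rw [zero_add] at h2
  rw [← intervalIntegral.integral_add_adjacent_intervals (b := (0 : ℝ))
    (cg.intervalIntegrable _ _) (cg.intervalIntegrable _ _), h1, h2]
  ring

private theorem lgb_pt {x R a c n : ℝ} (hR : 1 < R) (hn : (a - c) ^ 2 ≤ n ^ 2) :
    max (x - a ^ 2) 0 - n ^ 2 / (R - 1) ≤ max (x - c ^ 2 / R) 0 := by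
  have hR1 : 0 < R - 1 := by linarith
  have hR0 : 0 < R := by linarith
  have hn0 : 0 ≤ n ^ 2 / (R - 1) := by positivity
  rcases le_total (x - a ^ 2) 0 with h1 | h1
  · rw [max_eq_right h1]
    have := le_max_right (x - c ^ 2 / R) 0
    linarith
  · rw [max_eq_left h1]
    have h2 := le_max_left (x - c ^ 2 / R) 0
    have h3 : (a - c) ^ 2 / (R - 1) ≤ n ^ 2 / (R - 1) := div_le_div_of_nonneg_right hn hR1.le
    have h4 : a ^ 2 + (a - c) ^ 2 / (R - 1) - c ^ 2 / R = (R * a - c) ^ 2 / (R * (R - 1)) := by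
      field_simp
      ring
    have h5 : 0 ≤ (R * a - c) ^ 2 / (R * (R - 1)) := by positivity
    linarith

theorem Sg.arcJ (h : Sg F b q) {t x R p : ℝ} (ht : 0 < t) (hR : 1 < R)
    (hc : (∫ θ in (-π)..π, yy J t θ) - (∫ θ in (-π)..π, yy F t θ) <
      (∫ θ in (-π)..π, max (x - yy F t θ) 0) - ∫ θ in (-π)..π, max (x - yy J t θ) 0)
    (hr : ∫ θ in (-π)..π, ‖G F t θ - G J t θ‖ ^ 2 ≤
      (R - 1) * ((∫ θ in (-π)..π, yy J t θ) - ∫ θ in (-π)..π, yy F t θ))
    (harc : ∀ s ∈ Ioo p (p + π), x < yy F t s) :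
    ∫ θ in (-π)..π, max (x - yy J t θ) 0 <
      (∫ θ in (-π)..π, max (x - yy J t θ / R) 0) / 2 := by
  have hR1 : 0 < R - 1 := by linarith
  have cF := lgb_cG h ht
  have cJ := lgb_GJ t
  have cyF : Continuous (yy F t) := cF.norm.pow 2
  have cyJ := lgb_cJ t
  set u : ℝ → ℝ := fun θ => max (x - yy F t θ) 0 - ‖G F t θ - G J t θ‖ ^ 2 / (R - 1) with hu
  have c1 : Continuous fun θ => max (x - yy F t θ) 0 := (continuous_const.sub cyF).max continuous_const
  have c2 : Continuous fun θ => ‖G F t θ - G J t θ‖ ^ 2 / (R - 1) :=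
    ((cF.sub cJ).norm.pow 2).div_const _
  have cu : Continuous u := c1.sub c2
  have per : Function.Periodic u (2 * π) := fun θ => by
    simp only [hu, yy, lgb_per]
  have e1 : ∫ θ in (-π)..π, u θ = (∫ θ in (-π)..π, max (x - yy F t θ) 0) -
      (∫ θ in (-π)..π, ‖G F t θ - G J t θ‖ ^ 2) / (R - 1) := by
    rw [hu, intervalIntegral.integral_sub (c1.intervalIntegrable _ _) (c2.intervalIntegrable _ _),
      intervalIntegral.integral_div]
  have e2 : (∫ θ in (-π)..π, ‖G F t θ - G J t θ‖ ^ 2) / (R - 1) ≤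
      (∫ θ in (-π)..π, yy J t θ) - ∫ θ in (-π)..π, yy F t θ := by
    rw [div_le_iff₀ hR1]
    linarith
  set g : ℝ → ℝ := fun θ => max (x - yy J t θ / R) 0 with hg
  have cg : Continuous g := (continuous_const.sub (cyJ.div_const _)).max continuous_const
  have perg : Function.Periodic g π := fun θ => by
    simp only [hg, lgb_Jpi]
  have hpt : ∀ θ, u θ ≤ g θ := fun θ => by
    refine lgb_pt hR ?_
    have h1 := abs_norm_sub_norm_le (G F t θ) (G J t θ)
    calc (‖G F t θ‖ - ‖G J t θ‖) ^ 2 = |‖G F t θ‖ - ‖G J t θ‖| ^ 2 := (sq_abs _).symm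
      _ ≤ ‖G F t θ - G J t θ‖ ^ 2 := pow_le_pow_left₀ (abs_nonneg _) h1 2
  have hpt0 : ∀ s ∈ Ioo p (p + π), u s ≤ 0 := fun s hs => by
    have h1 := harc s hs
    have h2 : max (x - yy F t s) 0 = 0 := max_eq_right (by linarith)
    have h3 : 0 ≤ ‖G F t s - G J t s‖ ^ 2 / (R - 1) := by positivity
    simp only [hu, h2]
    linarith
  have i1 : ∫ θ in p..(p + π), u θ ≤ 0 := by
    have := intervalIntegral.integral_mono_on_of_le_Ioo (by linarith [Real.pi_pos] : p ≤ p + π)
      (cu.intervalIntegrable _ _) (continuous_const.intervalIntegrable (μ := volume) p (p + π))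
      (g := fun _ => (0 : ℝ)) hpt0
    simpa using this
  have i2 : ∫ θ in (p + π)..(p + 2 * π), u θ ≤ ∫ θ in (p + π)..(p + 2 * π), g θ :=
    intervalIntegral.integral_mono_on (by linarith [Real.pi_pos]) (cu.intervalIntegrable _ _)
      (cg.intervalIntegrable _ _) fun θ _ => hpt θ
  have i3 : ∫ θ in (-π)..π, u θ = (∫ θ in p..(p + π), u θ) + ∫ θ in (p + π)..(p + 2 * π), u θ := by
    rw [lgb_shift per p]
    exact (intervalIntegral.integral_add_adjacent_intervals (cu.intervalIntegrable _ _)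
      (cu.intervalIntegrable _ _)).symm
  have i4 := lgb_half cg perg (p + π)
  rw [show p + π + π = p + 2 * π by ring] at i4
  linarith

theorem Sg.arcA (h : Sg F b q) {t x p : ℝ} (ht : 0 < t) (hx : 0 < x)
    (hc : (∫ θ in (-π)..π, yy J t θ) - (∫ θ in (-π)..π, yy F t θ) <
      (∫ θ in (-π)..π, max (x - yy F t θ) 0) - ∫ θ in (-π)..π, max (x - yy J t θ) 0)
    (harc : ∀ s ∈ Ioo p (p + π), x < yy F t s) :
    (∫ θ in (-π)..π, yy J t θ) - (∫ θ in (-π)..π, yy F t θ) ≤
      π * x - ∫ θ in (-π)..π, max (x - yy J t θ) 0 := by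
  have cF := lgb_cG h ht
  have cyF : Continuous (yy F t) := cF.norm.pow 2
  set u : ℝ → ℝ := fun θ => max (x - yy F t θ) 0 with hu
  have cu : Continuous u := (continuous_const.sub cyF).max continuous_const
  have per : Function.Periodic u (2 * π) := fun θ => by
    simp only [hu, yy, lgb_per]
  have i1 : ∫ θ in p..(p + π), u θ ≤ 0 := by
    have hpt0 : ∀ s ∈ Ioo p (p + π), u s ≤ 0 := fun s hs => by
      have h1 := harc s hs
      have h2 : max (x - yy F t s) 0 = 0 := max_eq_right (by linarith)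
      simp only [hu, h2, le_refl]
    have := intervalIntegral.integral_mono_on_of_le_Ioo (by linarith [Real.pi_pos] : p ≤ p + π)
      (cu.intervalIntegrable _ _) (continuous_const.intervalIntegrable (μ := volume) p (p + π))
      (g := fun _ => (0 : ℝ)) hpt0
    simpa using this
  have i2 : ∫ θ in (p + π)..(p + 2 * π), u θ ≤ π * x := by
    have h1 : ∫ θ in (p + π)..(p + 2 * π), u θ ≤ ∫ _ in (p + π)..(p + 2 * π), x := by
      refine intervalIntegral.integral_mono_on (by linarith [Real.pi_pos])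
        (cu.intervalIntegrable _ _) (continuous_const.intervalIntegrable _ _) fun θ _ => ?_
      simp only [hu]
      refine max_le ?_ hx.le
      have : 0 ≤ yy F t θ := by unfold yy; positivity
      linarith
    rw [intervalIntegral.integral_const, smul_eq_mul] at h1
    calc _ ≤ _ := h1
      _ = π * x := by ring
  have i3 : ∫ θ in (-π)..π, u θ = (∫ θ in p..(p + π), u θ) + ∫ θ in (p + π)..(p + 2 * π), u θ := by
    rw [lgb_shift per p]
    exact (intervalIntegral.integral_add_adjacent_intervals (cu.intervalIntegrable _ _)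
      (cu.intervalIntegrable _ _)).symm
  linarith

private theorem lgb_eq (v u : ℝ) :
    4 * (Real.sin v ^ 2 - Real.cos u ^ 2) = -2 * (Real.cos (2 * u) + Real.cos (2 * v)) := by
  rw [Real.cos_two_mul, Real.cos_two_mul]
  have := Real.sin_sq_add_cos_sq v
  linear_combination 4 * this

private theorem lgb_core {v0 : ℝ} (hv0 : 0 ≤ v0) (hv1 : v0 ≤ π / 2) :
    ∫ u in (-π)..π, max (4 * (Real.sin v0 ^ 2 - Real.cos u ^ 2)) 0 = 4 * rh v0 := by
  set g : ℝ → ℝ := fun u => max (4 * (Real.sin v0 ^ 2 - Real.cos u ^ 2)) 0 with hg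
  have cg : Continuous g := by
    simp only [hg]
    fun_prop
  have per : Function.Periodic g π := fun u => by
    simp only [hg, Real.cos_add_pi, neg_sq]
  have h0 := lgb_half cg per 0
  rw [zero_add] at h0
  have a1 : ∫ u in (0 : ℝ)..(π / 2 - v0), g u = 0 := by
    rw [intervalIntegral.integral_congr (g := fun _ => (0 : ℝ))]
    · simp
    · intro u hu
      rw [uIcc_of_le (by linarith)] at hu
      simp only [hg]
      apply max_eq_right
      rw [lgb_eq]
      have h1 : Real.cos (π - 2 * v0) ≤ Real.cos (2 * u) :=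
        Real.cos_le_cos_of_nonneg_of_le_pi (by linarith [hu.1]) (by linarith) (by linarith [hu.2])
      rw [Real.cos_pi_sub] at h1
      linarith
  have a3 : ∫ u in (π / 2 + v0)..π, g u = 0 := by
    rw [intervalIntegral.integral_congr (g := fun _ => (0 : ℝ))]
    · simp
    · intro u hu
      rw [uIcc_of_le (by linarith)] at hu
      simp only [hg]
      apply max_eq_right
      rw [lgb_eq]
      have h1 : Real.cos (π - 2 * v0) ≤ Real.cos (2 * π - 2 * u) :=
        Real.cos_le_cos_of_nonneg_of_le_pi (by linarith [hu.2]) (by linarith) (by linarith [hu.1])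
      rw [Real.cos_pi_sub, Real.cos_two_pi_sub] at h1
      linarith
  have a2 : ∫ u in (π / 2 - v0)..(π / 2 + v0), g u = 2 * rh v0 := by
    rw [intervalIntegral.integral_congr
      (g := fun u => -2 * (Real.cos (2 * u) + Real.cos (2 * v0)))]
    · have hd : ∀ u ∈ uIcc (π / 2 - v0) (π / 2 + v0),
          HasDerivAt (fun u => -(Real.sin (2 * u)) - 2 * Real.cos (2 * v0) * u)
            (-2 * (Real.cos (2 * u) + Real.cos (2 * v0))) u := fun u _ => by
        have h1 : HasDerivAt (fun u : ℝ => Real.sin (2 * u)) (Real.cos (2 * u) * (2 * 1)) u :=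
          ((hasDerivAt_id u).const_mul 2).sin
        have h2 : HasDerivAt (fun u : ℝ => 2 * Real.cos (2 * v0) * u)
            (2 * Real.cos (2 * v0) * 1) u := (hasDerivAt_id u).const_mul _
        have h3 := h1.neg.sub h2
        have h4 : -2 * (Real.cos (2 * u) + Real.cos (2 * v0)) =
            -(Real.cos (2 * u) * (2 * 1)) - 2 * Real.cos (2 * v0) * 1 := by ring
        rw [h4]
        exact h3
      rw [intervalIntegral.integral_eq_sub_of_hasDerivAt hd
        (Continuous.intervalIntegrable (by fun_prop) _ _)]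
      have s1 : Real.sin (2 * (π / 2 + v0)) = -Real.sin (2 * v0) := by
        rw [show 2 * (π / 2 + v0) = 2 * v0 + π by ring, Real.sin_add_pi]
      have s2 : Real.sin (2 * (π / 2 - v0)) = Real.sin (2 * v0) := by
        rw [show 2 * (π / 2 - v0) = π - 2 * v0 by ring, Real.sin_pi_sub]
      rw [s1, s2]
      unfold rh
      ring
    · intro u hu
      rw [uIcc_of_le (by linarith)] at hu
      simp only [hg]
      rw [lgb_eq]
      apply max_eq_left
      have h1 : Real.cos (2 * v0) ≤ Real.cos (2 * u - π) := by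
        rw [← Real.cos_abs (2 * u - π)]
        apply Real.cos_le_cos_of_nonneg_of_le_pi (abs_nonneg _) (by linarith)
        rw [abs_le]
        constructor <;> linarith [hu.1, hu.2]
      rw [Real.cos_sub_pi] at h1
      linarith
  have b1 := intervalIntegral.integral_add_adjacent_intervals
    (cg.intervalIntegrable (μ := volume) 0 (π / 2 - v0))
    (cg.intervalIntegrable (π / 2 - v0) (π / 2 + v0))
  have b2 := intervalIntegral.integral_add_adjacent_intervals
    (cg.intervalIntegrable (μ := volume) 0 (π / 2 + v0)) (cg.intervalIntegrable (π / 2 + v0) π)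
  linarith

theorem int1 {t θ : ℝ} (h0 : 0 ≤ θ) (h1 : θ ≤ π / 2) :
    ∫ u in (-π)..π, max (Xl t θ - yy J t u) 0 = 4 * rh (π / 2 - θ) := by
  rw [← lgb_core (by linarith : 0 ≤ π / 2 - θ) (by linarith)]
  apply intervalIntegral.integral_congr
  intro u _
  simp only [Xl, yy_J, Real.sin_pi_div_two_sub]
  congr 1
  ring

theorem int2 {t θ R v0 : ℝ} (hR : 0 < R) (hv0 : 0 ≤ v0) (hv1 : v0 ≤ π / 2)
    (hv : Real.sin v0 ^ 2 = R * Real.cos θ ^ 2 + (R - 1) * Real.sinh t ^ 2) :
    (∫ u in (-π)..π, max (Xl t θ - yy J t u / R) 0) / 2 = 2 / R * rh v0 := by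
  have e : ∫ u in (-π)..π, max (Xl t θ - yy J t u / R) 0 = 1 / R * (4 * rh v0) := by
    rw [← lgb_core hv0 hv1, ← intervalIntegral.integral_const_mul]
    apply intervalIntegral.integral_congr
    intro u _
    simp only [Xl, yy_J]
    rw [mul_max_of_nonneg _ _ (by positivity : (0 : ℝ) ≤ 1 / R), mul_zero, hv]
    congr 1
    field_simp
    ring
  rw [e]
  ring

end Pool.Agent.H36.SZ
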