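import Pool.Agent.H36.SZ.LgB

/-!
# A long arc above the level: comparison with `J`, with the dip term

As `Sg.arcJ`; the arc of length `π` contains (periodicity) one dip of `J`, and there
`|F - J| >= sqrt x - |J|`.
-/

open Complex MeasureTheory Set Filter Topology
open scoped ComplexConjugate Real

namespace Pool.Agent.H36.SZ

variable {F : ℂ → ℂ} {b : ℕ → ℂ} {q : ℝ}

private theorem lgc_cJ (t : ℝ) : Continuous (yy J t) := by
  have e : yy J t = fun θ => 4 * Real.sinh t ^ 2 + 4 * Real.cos θ ^ 2 := funext (yy_J t)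
  rw [e]
  fun_prop

private theorem lgc_GJ (t : ℝ) : Continuous (G J t) := by
  have e : G J t = fun θ : ℝ => (2 * Real.cosh t * Real.cos θ + 2 * Real.sinh t * Real.sin θ * I :
    ℂ) := funext (G_J t)
  rw [e]
  fun_prop

private theorem lgc_per (F : ℂ → ℂ) (t θ : ℝ) : G F t (θ + 2 * π) = G F t θ := by
  unfold G
  have e : (t : ℂ) + ((θ + 2 * π : ℝ) : ℂ) * I = (t + θ * I) + 2 * π * I := by
    push_cast
    ring
  rw [e, Complex.exp_periodic]

private theorem lgc_Jpi (t u : ℝ) : yy J t (u + π) = yy J t u := by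
  rw [yy_J, yy_J, Real.cos_add_pi, neg_sq]

private theorem lgc_cG (h : Sg F b q) {t : ℝ} (ht : 0 < t) : Continuous (G F t) :=
  h.an.cGt (lt_of_lt_of_le h.q1 (Real.one_le_exp ht.le))

private theorem lgc_shift {g : ℝ → ℝ} (per : Function.Periodic g (2 * π)) (p : ℝ) :
    ∫ θ in (-π)..π, g θ = ∫ θ in p..(p + 2 * π), g θ := by
  have h1 := per.intervalIntegral_add_eq (-π) p
  rwa [show -π + 2 * π = π by ring] at h1

private theorem lgc_half {g : ℝ → ℝ} (cg : Continuous g) (per : Function.Periodic g π) (p : ℝ) :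
    ∫ θ in (-π)..π, g θ = 2 * ∫ θ in p..(p + π), g θ := by
  have h1 := per.intervalIntegral_add_eq (-π) p
  have h2 := per.intervalIntegral_add_eq 0 p
  rw [show -π + π = 0 by ring] at h1
  rw [zero_add] at h2
  rw [← intervalIntegral.integral_add_adjacent_intervals (b := (0 : ℝ))
    (cg.intervalIntegrable _ _) (cg.intervalIntegrable _ _), h1, h2]
  ring

private theorem lgc_pt {x R a c n : ℝ} (hR : 1 < R) (hn : (a - c) ^ 2 ≤ n ^ 2) :
    max (x - a ^ 2) 0 - n ^ 2 / (R - 1) ≤ max (x - c ^ 2 / R) 0 := by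
  have hR1 : 0 < R - 1 := by linarith
  have hR0 : 0 < R := by linarith
  have hn0 : 0 ≤ n ^ 2 / (R - 1) := by positivity
  rcases le_total (x - a ^ 2) 0 with h1 | h1
  · rw [max_eq_right h1]
    have := le_max_right (x - c ^ 2 / R) 0
    linarith
  · rw [max_eq_left h1]
    have h2 := le_max_left (x - c ^ 2 / R) 0
    have h3 : (a - c) ^ 2 / (R - 1) ≤ n ^ 2 / (R - 1) := div_le_div_of_nonneg_right hn hR1.le
    have h4 : a ^ 2 + (a - c) ^ 2 / (R - 1) - c ^ 2 / R = (R * a - c) ^ 2 / (R * (R - 1)) := by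
      field_simp
      ring
    have h5 : 0 ≤ (R * a - c) ^ 2 / (R * (R - 1)) := by positivity
    linarith

/-- the polynomial lower bound for `(sqrt x - sqrt y)^2`, `m = x - y` -/
noncomputable def Pm (x m : ℝ) : ℝ :=
  m ^ 2 / (4 * x) + m ^ 3 / (8 * x ^ 2) + 5 * m ^ 4 / (64 * x ^ 3)

/-- `x (1 - a)^2 >= Pm x (x (1 - a^2))` -/
private theorem lgc_poly {a : ℝ} (h0 : 0 ≤ a) (h1 : a ≤ 1) :
    (1 - a ^ 2) ^ 2 / 4 + (1 - a ^ 2) ^ 3 / 8 + 5 * (1 - a ^ 2) ^ 4 / 64 ≤ (1 - a) ^ 2 := by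
  set u := 1 - a ^ 2 with hu
  have hu0 : 0 ≤ u := by rw [hu]; nlinarith
  have e1 : u / 2 + u ^ 2 / 8 + u ^ 3 / 16 ≤ 1 - a := by
    have : 1 - a - (u / 2 + u ^ 2 / 8 + u ^ 3 / 16) =
        (1 - a) ^ 4 * (5 + 4 * a + a ^ 2) / 16 := by
      rw [hu]; ring
    have h2 : 0 ≤ (1 - a) ^ 4 * (5 + 4 * a + a ^ 2) / 16 := by positivity
    linarith
  have e2 : 0 ≤ u / 2 + u ^ 2 / 8 + u ^ 3 / 16 := by positivity
  have e3 : (u / 2 + u ^ 2 / 8 + u ^ 3 / 16) ^ 2 ≤ (1 - a) ^ 2 := by gcongr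
  have e4 : (u / 2 + u ^ 2 / 8 + u ^ 3 / 16) ^ 2 =
      u ^ 2 / 4 + u ^ 3 / 8 + 5 * u ^ 4 / 64 + (u ^ 5 / 64 + u ^ 6 / 256) := by ring
  have e5 : 0 ≤ u ^ 5 / 64 + u ^ 6 / 256 := by positivity
  linarith

private theorem lgc_Pm {x j : ℝ} (hx : 0 < x) (h0 : 0 ≤ j) (h1 : j ^ 2 ≤ x) :
    Pm x (x - j ^ 2) ≤ (√x - j) ^ 2 := by
  have hsx : 0 < √x := Real.sqrt_pos.2 hx
  have hs2 : √x ^ 2 = x := Real.sq_sqrt hx.le
  have hj : j ≤ √x := Real.le_sqrt_of_sq_le h1
  set a := j / √x with ha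
  have ha0 : 0 ≤ a := by positivity
  have ha1 : a ≤ 1 := by rw [ha, div_le_one hsx]; exact hj
  have hja : j = a * √x := by rw [ha]; field_simp
  have e1 := mul_le_mul_of_nonneg_left (lgc_poly ha0 ha1) hx.le
  have e2 : x - j ^ 2 = x * (1 - a ^ 2) := by rw [hja, mul_pow, hs2]; ring
  have e3 : (√x - j) ^ 2 = x * (1 - a) ^ 2 := by
    rw [hja]
    calc (√x - a * √x) ^ 2 = √x ^ 2 * (1 - a) ^ 2 := by ring
      _ = x * (1 - a) ^ 2 := by rw [hs2]
  rw [e3]
  refine le_trans (le_of_eq ?_) e1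
  rw [Pm, e2]
  field_simp

theorem Sg.arcJ2 (h : Sg F b q) {t x R p : ℝ} (ht : 0 < t) (hx : 0 < x) (hR : 1 < R)
    (hc : (∫ θ in (-π)..π, yy J t θ) - (∫ θ in (-π)..π, yy F t θ) <
      (∫ θ in (-π)..π, max (x - yy F t θ) 0) - ∫ θ in (-π)..π, max (x - yy J t θ) 0)
    (hr : ∫ θ in (-π)..π, ‖G F t θ - G J t θ‖ ^ 2 ≤
      (R - 1) * ((∫ θ in (-π)..π, yy J t θ) - ∫ θ in (-π)..π, yy F t θ))
    (harc : ∀ s ∈ Ioo p (p + π), x < yy F t s) :
    (∫ θ in (-π)..π, max (x - yy J t θ) 0) +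
      (∫ θ in (-π)..π, Pm x (max (x - yy J t θ) 0)) / (2 * (R - 1)) <
      (∫ θ in (-π)..π, max (x - yy J t θ / R) 0) / 2 := by
  have hR1 : 0 < R - 1 := by linarith
  have cF := lgc_cG h ht
  have cJ := lgc_GJ t
  have cyF : Continuous (yy F t) := cF.norm.pow 2
  have cyJ := lgc_cJ t
  set u : ℝ → ℝ := fun θ => max (x - yy F t θ) 0 - ‖G F t θ - G J t θ‖ ^ 2 / (R - 1) with hu
  have c1 : Continuous fun θ => max (x - yy F t θ) 0 := (continuous_const.sub cyF).max continuous_const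
  have c2 : Continuous fun θ => ‖G F t θ - G J t θ‖ ^ 2 / (R - 1) :=
    ((cF.sub cJ).norm.pow 2).div_const _
  have cu : Continuous u := c1.sub c2
  have per : Function.Periodic u (2 * π) := fun θ => by
    simp only [hu, yy, lgc_per]
  have e1 : ∫ θ in (-π)..π, u θ = (∫ θ in (-π)..π, max (x - yy F t θ) 0) -
      (∫ θ in (-π)..π, ‖G F t θ - G J t θ‖ ^ 2) / (R - 1) := by
    rw [hu, intervalIntegral.integral_sub (c1.intervalIntegrable _ _) (c2.intervalIntegrable _ _),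
      intervalIntegral.integral_div]
  have e2 : (∫ θ in (-π)..π, ‖G F t θ - G J t θ‖ ^ 2) / (R - 1) ≤
      (∫ θ in (-π)..π, yy J t θ) - ∫ θ in (-π)..π, yy F t θ := by
    rw [div_le_iff₀ hR1]
    linarith
  set g : ℝ → ℝ := fun θ => max (x - yy J t θ / R) 0 with hg
  have cg : Continuous g := (continuous_const.sub (cyJ.div_const _)).max continuous_const
  have perg : Function.Periodic g π := fun θ => by
    simp only [hg, lgc_Jpi]
  set d : ℝ → ℝ := fun θ => Pm x (max (x - yy J t θ) 0) with hd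
  have cm : Continuous fun θ => max (x - yy J t θ) 0 :=
    (continuous_const.sub cyJ).max continuous_const
  have cd : Continuous d := by
    simp only [hd, Pm]
    exact (((cm.pow 2).div_const _).add ((cm.pow 3).div_const _)).add
      ((continuous_const.mul (cm.pow 4)).div_const _)
  have perd : Function.Periodic d π := fun θ => by
    simp only [hd, lgc_Jpi]
  have hpt : ∀ θ, u θ ≤ g θ := fun θ => by
    refine lgc_pt hR ?_
    have h1 := abs_norm_sub_norm_le (G F t θ) (G J t θ)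
    calc (‖G F t θ‖ - ‖G J t θ‖) ^ 2 = |‖G F t θ‖ - ‖G J t θ‖| ^ 2 := (sq_abs _).symm
      _ ≤ ‖G F t θ - G J t θ‖ ^ 2 := pow_le_pow_left₀ (abs_nonneg _) h1 2
  have hpt0 : ∀ s ∈ Ioo p (p + π), u s ≤ -(d s / (R - 1)) := fun s hs => by
    have h1 := harc s hs
    have h2 : max (x - yy F t s) 0 = 0 := max_eq_right (by linarith)
    have h3 : d s ≤ ‖G F t s - G J t s‖ ^ 2 := by
      rcases le_total (yy J t s) x with h4 | h4
      · have h5 : max (x - yy J t s) 0 = x - ‖G J t s‖ ^ 2 := by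
          rw [max_eq_left (by linarith)]
          rfl
        have h6 := lgc_Pm hx (norm_nonneg (G J t s)) (by exact h4)
        have h7 : √x ≤ ‖G F t s‖ := by
          rw [Real.sqrt_le_left (norm_nonneg _)]
          exact h1.le
        have h8 : ‖G J t s‖ ≤ √x := Real.le_sqrt_of_sq_le h4
        have h9 := norm_sub_norm_le (G F t s) (G J t s)
        have h10 : (√x - ‖G J t s‖) ^ 2 ≤ ‖G F t s - G J t s‖ ^ 2 := by
          apply pow_le_pow_left₀ (by linarith)
          linarith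
        simp only [hd, h5]
        linarith
      · have h5 : max (x - yy J t s) 0 = 0 := max_eq_right (by linarith)
        simp only [hd, h5, Pm]
        simp
    have h4 : d s / (R - 1) ≤ ‖G F t s - G J t s‖ ^ 2 / (R - 1) :=
      div_le_div_of_nonneg_right h3 hR1.le
    simp only [hu, h2]
    linarith
  have i1 : ∫ θ in p..(p + π), u θ ≤ -((∫ θ in p..(p + π), d θ) / (R - 1)) := by
    have cn : Continuous fun θ => -(d θ / (R - 1)) := (cd.div_const (R - 1)).neg
    have := intervalIntegral.integral_mono_on_of_le_Ioo (by linarith [Real.pi_pos] : p ≤ p + π)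
      (cu.intervalIntegrable _ _) (cn.intervalIntegrable (μ := volume) p (p + π))
      hpt0
    rw [intervalIntegral.integral_neg, intervalIntegral.integral_div] at this
    exact this
  have i2 : ∫ θ in (p + π)..(p + 2 * π), u θ ≤ ∫ θ in (p + π)..(p + 2 * π), g θ :=
    intervalIntegral.integral_mono_on (by linarith [Real.pi_pos]) (cu.intervalIntegrable _ _)
      (cg.intervalIntegrable _ _) fun θ _ => hpt θ
  have i3 : ∫ θ in (-π)..π, u θ = (∫ θ in p..(p + π), u θ) + ∫ θ in (p + π)..(p + 2 * π), u θ := by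
    rw [lgc_shift per p]
    exact (intervalIntegral.integral_add_adjacent_intervals (cu.intervalIntegrable _ _)
      (cu.intervalIntegrable _ _)).symm
  have i4 := lgc_half cg perg (p + π)
  rw [show p + π + π = p + 2 * π by ring] at i4
  have i5 := lgc_half cd perd p
  have i6 : (∫ θ in (-π)..π, d θ) / (2 * (R - 1)) = (∫ θ in p..(p + π), d θ) / (R - 1) := by
    rw [i5]
    field_simp
  rw [i6]
  linarith

theorem Pm_nonneg {x m : ℝ} (hx : 0 < x) (hm : 0 ≤ m) : 0 ≤ Pm x m := by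
  unfold Pm
  positivity

/-- the dip term for `J` -/
theorem int5 {t θ : ℝ} (ht : 0 < t) (h0 : 0 < θ) (h1 : θ < π / 2) :
    2 * (16 / 15 * Real.cos θ ^ 5 / (Real.sinh t ^ 2 + Real.cos θ ^ 2) +
      16 / 35 * Real.cos θ ^ 7 / (Real.sinh t ^ 2 + Real.cos θ ^ 2) ^ 2 +
      16 / 63 * Real.cos θ ^ 9 / (Real.sinh t ^ 2 + Real.cos θ ^ 2) ^ 3) ≤
    ∫ u in (-π)..π, Pm (Xl t θ) (max (Xl t θ - yy J t u) 0) := by
  have hpi := Real.pi_pos
  set S := Real.sinh t with hS
  set s := Real.cos θ with hs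
  have hs0 : 0 < s := Real.cos_pos_of_mem_Ioo ⟨by linarith, h1⟩
  set A := S ^ 2 + s ^ 2 with hA
  have hA0 : 0 < A := by rw [hA]; positivity
  have hx : Xl t θ = 4 * A := by rw [Xl, hA, hS, hs]; ring
  have hx0 : 0 < Xl t θ := by rw [hx]; positivity
  set D : ℝ → ℝ := fun u => Pm (Xl t θ) (max (Xl t θ - yy J t u) 0) with hD
  have cyJ := lgc_cJ t
  have cm : Continuous fun u => max (Xl t θ - yy J t u) 0 :=
    (continuous_const.sub cyJ).max continuous_const
  have cD : Continuous D := by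
    simp only [hD, Pm]
    exact (((cm.pow 2).div_const _).add ((cm.pow 3).div_const _)).add
      ((continuous_const.mul (cm.pow 4)).div_const _)
  have perD : Function.Periodic D π := fun u => by
    simp only [hD, lgc_Jpi]
  have hD0 : ∀ u, 0 ≤ D u := fun u => Pm_nonneg hx0 (le_max_right _ _)
  have e1 := lgc_half cD perD 0
  rw [zero_add] at e1
  rw [e1]
  refine mul_le_mul_of_nonneg_left ?_ (by norm_num)
  have e2 : ∫ u in θ..(π - θ), D u ≤ ∫ u in (0:ℝ)..π, D u := by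
    apply intervalIntegral.integral_mono_interval h0.le (by linarith) (by linarith)
    · exact Filter.Eventually.of_forall fun u => hD0 u
    · exact cD.intervalIntegrable _ _
  refine le_trans ?_ e2
  -- the primitive
  set P : ℝ → ℝ := fun w => (s ^ 4 * w - 2 * s ^ 2 * w ^ 3 / 3 + w ^ 5 / 5) / A +
    (s ^ 6 * w - s ^ 4 * w ^ 3 + 3 * s ^ 2 * w ^ 5 / 5 - w ^ 7 / 7) / (2 * A ^ 2) +
    5 / 16 * (s ^ 8 * w - 4 * s ^ 6 * w ^ 3 / 3 + 6 * s ^ 4 * w ^ 5 / 5 - 4 * s ^ 2 * w ^ 7 / 7 +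
      w ^ 9 / 9) / A ^ 3 with hP
  have hPd : ∀ w, HasDerivAt P (Pm (4 * A) (4 * (s ^ 2 - w ^ 2))) w := by
    intro w
    have d1 : HasDerivAt (fun w : ℝ => s ^ 4 * w - 2 * s ^ 2 * w ^ 3 / 3 + w ^ 5 / 5)
        (s ^ 4 - 2 * s ^ 2 * w ^ 2 + w ^ 4) w := by
      have := (((hasDerivAt_id w).const_mul (s ^ 4)).sub
        (((hasDerivAt_pow 3 w).const_mul (2 * s ^ 2)).div_const 3)).add
        ((hasDerivAt_pow 5 w).div_const 5)
      refine this.congr_deriv ?_
      norm_num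
      ring
    have d2 : HasDerivAt (fun w : ℝ => s ^ 6 * w - s ^ 4 * w ^ 3 + 3 * s ^ 2 * w ^ 5 / 5 - w ^ 7 / 7)
        (s ^ 6 - 3 * s ^ 4 * w ^ 2 + 3 * s ^ 2 * w ^ 4 - w ^ 6) w := by
      have := ((((hasDerivAt_id w).const_mul (s ^ 6)).sub
        ((hasDerivAt_pow 3 w).const_mul (s ^ 4))).add
        (((hasDerivAt_pow 5 w).const_mul (3 * s ^ 2)).div_const 5)).sub
        ((hasDerivAt_pow 7 w).div_const 7)
      refine this.congr_deriv ?_
      norm_num
      ring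
    have d3 : HasDerivAt (fun w : ℝ => s ^ 8 * w - 4 * s ^ 6 * w ^ 3 / 3 + 6 * s ^ 4 * w ^ 5 / 5 -
        4 * s ^ 2 * w ^ 7 / 7 + w ^ 9 / 9)
        (s ^ 8 - 4 * s ^ 6 * w ^ 2 + 6 * s ^ 4 * w ^ 4 - 4 * s ^ 2 * w ^ 6 + w ^ 8) w := by
      have := (((((hasDerivAt_id w).const_mul (s ^ 8)).sub
        (((hasDerivAt_pow 3 w).const_mul (4 * s ^ 6)).div_const 3)).add
        (((hasDerivAt_pow 5 w).const_mul (6 * s ^ 4)).div_const 5)).sub
        (((hasDerivAt_pow 7 w).const_mul (4 * s ^ 2)).div_const 7)).add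
        ((hasDerivAt_pow 9 w).div_const 9)
      refine this.congr_deriv ?_
      norm_num
      ring
    have := ((d1.div_const A).add (d2.div_const (2 * A ^ 2))).add
      ((d3.const_mul (5 / 16)).div_const (A ^ 3))
    refine this.congr_deriv ?_
    rw [Pm]
    field_simp
    ring
  have hQ : ∀ u ∈ uIcc θ (π - θ), HasDerivAt (fun u => -P (Real.cos u))
      (Pm (4 * A) (4 * (s ^ 2 - Real.cos u ^ 2)) * Real.sin u) u := by
    intro u _
    have := ((hPd (Real.cos u)).comp u (Real.hasDerivAt_cos u)).neg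
    refine this.congr_deriv ?_
    ring
  have cQ : Continuous fun u => Pm (4 * A) (4 * (s ^ 2 - Real.cos u ^ 2)) * Real.sin u := by
    unfold Pm
    fun_prop
  have e3 := intervalIntegral.integral_eq_sub_of_hasDerivAt hQ (cQ.intervalIntegrable _ _)
  have e4 : ∫ u in θ..(π - θ), Pm (4 * A) (4 * (s ^ 2 - Real.cos u ^ 2)) * Real.sin u ≤
      ∫ u in θ..(π - θ), D u := by
    refine intervalIntegral.integral_mono_on (by linarith) (cQ.intervalIntegrable _ _)
      (cD.intervalIntegrable _ _) fun u hu => ?_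
    have f1 : Real.cos u ≤ s := Real.cos_le_cos_of_nonneg_of_le_pi h0.le (by linarith [hu.2]) hu.1
    have f2 : -s ≤ Real.cos u := by
      have := Real.cos_le_cos_of_nonneg_of_le_pi (by linarith [hu.1]) (by linarith : π - θ ≤ π) hu.2
      rw [Real.cos_pi_sub] at this
      exact this
    have f3 : Real.cos u ^ 2 ≤ s ^ 2 := sq_le_sq' f2 f1
    have f4 : Xl t θ - yy J t u = 4 * (s ^ 2 - Real.cos u ^ 2) := by
      rw [yy_J, Xl]
      ring
    have f5 : 0 ≤ 4 * (s ^ 2 - Real.cos u ^ 2) := by linarith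
    have f6 : D u = Pm (4 * A) (4 * (s ^ 2 - Real.cos u ^ 2)) := by
      simp only [hD]
      rw [f4, max_eq_left f5, hx]
    rw [f6]
    have f7 : 0 ≤ Pm (4 * A) (4 * (s ^ 2 - Real.cos u ^ 2)) := Pm_nonneg (by positivity) f5
    exact mul_le_of_le_one_right f7 (Real.sin_le_one u)
  refine le_trans (le_of_eq ?_) e4
  rw [e3, Real.cos_pi_sub, ← hs]
  simp only [hP]
  field_simp
  ring

end Pool.Agent.H36.SZ
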