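import Pool.Agent.H36.SZ.LgA
import Pool.Agent.H36.SZ.LbD

/-!
# The integral of `Dl` for `J`

PROOF of `int3`. `S = sinh t`, `s = cos θ`, `γ = π/2 - θ`, `s = sin γ`, `x = 4 (S^2 + s^2)`,
`yy J t u = 4 S^2 + 4 cos^2 u` (`yy_J`), `π`-periodic and even about `π/2`, below `x` exactly for `u`
within `γ` of `± π/2`: the integral is `4 ∫_0^γ Dl x (4 S^2 + 4 sin^2 v) dv`. `sin v >= s v/γ`
on `[0, γ]` (concave: `StrictConcaveOn`, or `strictConcaveOn_sin_Icc`), `Dl x` is nonincreasing on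
`(0, x]`, so with `v = γ τ`, `y = 4 (S^2 + s^2 τ^2)`, `σ = S/s`:
`Dl x y / x <= z - 1 - log z`, `z = (σ^2 + τ^2)/(σ^2 + 1)`, and
`∫_0^1 (z - 1 - log z) dτ = 2 - 2 σ arctan (1/σ) - (2/3)/(1 + σ^2) =: κ`
(`∫_0^1 log (σ^2 + τ^2) dτ = log (1 + σ^2) - 2 + 2 σ arctan (1/σ)`; primitive
`τ log (σ^2 + τ^2) - 2 τ + 2 σ arctan (τ/σ)`). So the integral is at most `16 (S^2 + s^2) γ κ`, and
`(1 + σ^2) κ <= 0.2325/σ`: with `h = sqrt (1 + σ^2)`, `arctan (1/σ) >= 3/(σ + 2 h)` (Shafer: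
`arctan u >= 3u/(1 + 2 sqrt (1 + u^2))`, derivative), so
`σ (1 + σ^2) κ <= 4 σ h^2 (h - σ)/(σ + 2h) - (2/3) σ <= 0.2317`; with `w = h - σ`, `h + σ = 1/w`,
`h = (1/w + w)/2`, `σ = (1/w - w)/2`, `0 < w < 1`, this is a rational function of `w`.
Then `16 (S^2 + s^2) γ κ = 16 γ s^2 (1 + σ^2) κ <= 3.72 γ s^3/S`.
-/

open MeasureTheory Set Filter Topology
open scoped Real

namespace Pool.Agent.H36.SZ

private theorem lgd_Dl_eq {x y : ℝ} (h : y ≤ x) : Dl x y = y - x - x * Real.log (y / x) := by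
  unfold Dl
  rw [min_eq_right h]

private theorem lgd_Dl_zero {x y : ℝ} (hx : 0 < x) (h : x ≤ y) : Dl x y = 0 := by
  unfold Dl
  rw [min_eq_left h, div_self hx.ne', Real.log_one]
  ring

private theorem lgd_mono {x a b : ℝ} (ha : 0 < a) (hab : a ≤ b) (hbx : b ≤ x) :
    b - x - x * Real.log (b / x) ≤ a - x - x * Real.log (a / x) := by
  have hb : 0 < b := ha.trans_le hab
  have hx : 0 < x := hb.trans_le hbx
  have h1 := Real.one_sub_inv_le_log_of_pos (div_pos hb ha)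
  rw [inv_div] at h1
  have h2 : Real.log (b / a) = Real.log (b / x) - Real.log (a / x) := by
    rw [Real.log_div hb.ne' ha.ne', Real.log_div hb.ne' hx.ne', Real.log_div ha.ne' hx.ne']
    ring
  rw [h2] at h1
  have h3 := mul_le_mul_of_nonneg_left h1 hx.le
  have h4 : b - a ≤ x * (1 - a / b) := by
    have e : b - a = b * (1 - a / b) := by field_simp
    rw [e]
    refine mul_le_mul_of_nonneg_right hbx ?_
    rw [sub_nonneg, div_le_one hb]
    exact hab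
  linarith

private theorem lgd_shafer {u : ℝ} (hu : 0 ≤ u) :
    3 * u / (1 + 2 * √(1 + u ^ 2)) ≤ Real.arctan u := by
  have hr : ∀ v : ℝ, 0 < 1 + v ^ 2 := fun v => by positivity
  have hd : ∀ v : ℝ, HasDerivAt (fun v : ℝ => Real.arctan v - 3 * v / (1 + 2 * √(1 + v ^ 2)))
      (1 / (1 + v ^ 2) - (3 * (1 + 2 * √(1 + v ^ 2)) -
        3 * v * (2 * (2 * v / (2 * √(1 + v ^ 2))))) / (1 + 2 * √(1 + v ^ 2)) ^ 2) v := by
    intro v
    have h1 : HasDerivAt (fun v : ℝ => 1 + v ^ 2) (2 * v) v := by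
      have := (hasDerivAt_pow 2 v).const_add 1
      simpa using this
    have h2 := h1.sqrt (hr v).ne'
    have h3 : HasDerivAt (fun v : ℝ => 1 + 2 * √(1 + v ^ 2)) (2 * (2 * v / (2 * √(1 + v ^ 2)))) v :=
      (h2.const_mul 2).const_add 1
    have h4 : HasDerivAt (fun v : ℝ => 3 * v) 3 v := by
      have := (hasDerivAt_id v).const_mul 3
      simpa using this
    have h5 := h4.div h3 (by positivity)
    exact (Real.hasDerivAt_arctan v).sub h5
  have hm : Monotone (fun v : ℝ => Real.arctan v - 3 * v / (1 + 2 * √(1 + v ^ 2))) := by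
    apply monotone_of_deriv_nonneg (fun v => (hd v).differentiableAt)
    intro v
    rw [(hd v).deriv]
    set r : ℝ := √(1 + v ^ 2) with hrd
    have hr2 : r ^ 2 = 1 + v ^ 2 := Real.sq_sqrt (hr v).le
    have hr0 : 0 < r := Real.sqrt_pos.2 (hr v)
    rw [← hr2, sub_nonneg, div_le_div_iff₀ (by positivity) (by positivity)]
    have e : (3 * (1 + 2 * r) - 3 * v * (2 * (2 * v / (2 * r)))) * r ^ 2 = 3 * r ^ 2 + 6 * r := by
      have e1 : v ^ 2 = r ^ 2 - 1 := by linarith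
      have e2 : (3 * (1 + 2 * r) - 3 * v * (2 * (2 * v / (2 * r)))) * r ^ 2 =
          3 * r ^ 2 + 6 * r ^ 3 - 6 * v ^ 2 * r := by
        field_simp
        ring
      rw [e2, e1]
      ring
    rw [e]
    nlinarith [sq_nonneg (r - 1)]
  have h0 := hm hu
  simp only [Real.arctan_zero, mul_zero, zero_div, sub_zero] at h0
  linarith

private theorem lgd_poly {w : ℝ} (hw : 0 ≤ w) (hw1 : w ≤ 1) :
    w * (1 - w ^ 2) * (5 + 3 * w ^ 2) ≤ 93 / 400 * (3 * (3 + w ^ 2)) := by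
  have t0 := sq_nonneg (w - 6027 / 10000)
  have t1 := mul_nonneg hw t0
  have t2 := mul_nonneg (pow_nonneg hw 2) t0
  have t3 := mul_nonneg (pow_nonneg hw 3) t0
  linarith

private theorem lgd_key {σ : ℝ} (hσ : 0 < σ) :
    σ * ((1 + σ ^ 2) * (2 - 2 / 3 / (1 + σ ^ 2) - 2 * σ * Real.arctan (1 / σ))) ≤ 93 / 400 := by
  set r : ℝ := √(1 + σ ^ 2) with hrd
  have h1 : 0 < 1 + σ ^ 2 := by positivity
  have hr2 : r ^ 2 = 1 + σ ^ 2 := Real.sq_sqrt h1.le
  have hr0 : 0 < r := Real.sqrt_pos.2 h1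
  have hsh := lgd_shafer (u := 1 / σ) (by positivity)
  have e1 : √(1 + (1 / σ) ^ 2) = r / σ := by
    have e2 : 1 + (1 / σ) ^ 2 = (r / σ) ^ 2 := by
      rw [div_pow r σ 2, hr2]
      field_simp
      ring
    rw [e2, Real.sqrt_sq (by positivity)]
  rw [e1] at hsh
  have e3 : 3 * (1 / σ) / (1 + 2 * (r / σ)) = 3 / (σ + 2 * r) := by
    field_simp
  rw [e3] at hsh
  have hrs : σ < r := by
    by_contra h
    push Not at h
    have := pow_le_pow_left₀ hr0.le h 2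
    linarith
  have hr1 : r < 1 + σ := by
    by_contra h
    push Not at h
    have := pow_le_pow_left₀ (by positivity) h 2
    nlinarith
  set w : ℝ := r - σ with hw
  have hw0 : 0 < w := by rw [hw]; linarith
  have hw1 : w ≤ 1 := by rw [hw]; linarith
  have hwr : w * (r + σ) = 1 := by rw [hw]; nlinarith
  have eσ : σ = (1 - w ^ 2) / (2 * w) := by
    rw [eq_div_iff (by positivity)]
    have : r = w + σ := by rw [hw]; ring
    rw [this] at hwr
    linarith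
  have er : r = (1 + w ^ 2) / (2 * w) := by
    rw [eq_div_iff (by positivity)]
    have : σ = r - w := by rw [hw]; ring
    rw [this] at hwr
    linarith
  have h2 : σ * ((1 + σ ^ 2) * (2 - 2 / 3 / (1 + σ ^ 2) - 2 * σ * Real.arctan (1 / σ))) ≤
      σ * (2 * r ^ 2 - 2 / 3 - 2 * σ * r ^ 2 * (3 / (σ + 2 * r))) := by
    refine mul_le_mul_of_nonneg_left ?_ hσ.le
    have e4 : (1 + σ ^ 2) * (2 - 2 / 3 / (1 + σ ^ 2) - 2 * σ * Real.arctan (1 / σ)) =
        2 * r ^ 2 - 2 / 3 - 2 * σ * r ^ 2 * Real.arctan (1 / σ) := by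
      rw [hr2]
      field_simp
    rw [e4]
    have := mul_le_mul_of_nonneg_left hsh (by positivity : 0 ≤ 2 * σ * r ^ 2)
    linarith
  refine h2.trans ?_
  have e5 : σ * (2 * r ^ 2 - 2 / 3 - 2 * σ * r ^ 2 * (3 / (σ + 2 * r))) =
      w * (1 - w ^ 2) * (5 + 3 * w ^ 2) / (3 * (3 + w ^ 2)) := by
    have e6 : σ + 2 * r = (3 + w ^ 2) / (2 * w) := by
      rw [eσ, er]
      field_simp
      ring
    rw [e6, er]
    nth_rw 1 [eσ]
    nth_rw 1 [eσ]
    have h3w : 3 + w ^ 2 ≠ 0 := by positivity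
    field_simp
    ring
  rw [e5, div_le_iff₀ (by positivity)]
  exact lgd_poly hw0.le hw1

private theorem lgd_cont {σ : ℝ} (hσ : 0 < σ) : Continuous fun τ : ℝ =>
    (σ ^ 2 + τ ^ 2) / (σ ^ 2 + 1) - 1 - Real.log ((σ ^ 2 + τ ^ 2) / (σ ^ 2 + 1)) := by
  have h1 : Continuous fun τ : ℝ => (σ ^ 2 + τ ^ 2) / (σ ^ 2 + 1) := by fun_prop
  exact (h1.sub continuous_const).sub (h1.log fun τ => by positivity)

private theorem lgd_int {σ : ℝ} (hσ : 0 < σ) :
    ∫ τ in (0:ℝ)..1, ((σ ^ 2 + τ ^ 2) / (σ ^ 2 + 1) - 1 -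
      Real.log ((σ ^ 2 + τ ^ 2) / (σ ^ 2 + 1))) =
      2 - 2 / 3 / (1 + σ ^ 2) - 2 * σ * Real.arctan (1 / σ) := by
  have h1 : 0 < σ ^ 2 + 1 := by positivity
  have hp : ∀ τ : ℝ, 0 < σ ^ 2 + τ ^ 2 := fun τ => by positivity
  have hd : ∀ τ : ℝ, HasDerivAt (fun τ : ℝ => (σ ^ 2 * τ + τ ^ 3 / 3) / (σ ^ 2 + 1) - τ -
      (τ * Real.log (σ ^ 2 + τ ^ 2) - 2 * τ + 2 * σ * Real.arctan (τ / σ)) +
        τ * Real.log (σ ^ 2 + 1))
      ((σ ^ 2 + τ ^ 2) / (σ ^ 2 + 1) - 1 - Real.log ((σ ^ 2 + τ ^ 2) / (σ ^ 2 + 1))) τ := by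
    intro τ
    have a1 : HasDerivAt (fun τ : ℝ => (σ ^ 2 * τ + τ ^ 3 / 3) / (σ ^ 2 + 1))
        ((σ ^ 2 * 1 + (3 : ℕ) * τ ^ 2 * 1 / 3) / (σ ^ 2 + 1)) τ :=
      (((hasDerivAt_id τ).const_mul (σ ^ 2)).add (((hasDerivAt_id τ).pow 3).div_const 3)).div_const _
    have a2 : HasDerivAt (fun τ : ℝ => σ ^ 2 + τ ^ 2) ((2 : ℕ) * τ ^ 1 * 1) τ :=
      ((hasDerivAt_id τ).pow 2).const_add _
    have a3 := (hasDerivAt_id τ).mul (a2.log (hp τ).ne')
    have a4 : HasDerivAt (fun τ : ℝ => 2 * τ) (2 * 1) τ := (hasDerivAt_id τ).const_mul 2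
    have a5 := (((hasDerivAt_id τ).div_const σ).arctan).const_mul (2 * σ)
    have a6 := (hasDerivAt_id τ).mul_const (Real.log (σ ^ 2 + 1))
    refine (((a1.sub (hasDerivAt_id τ)).sub ((a3.sub a4).add a5)).add a6).congr_deriv ?_
    rw [Real.log_div (hp τ).ne' h1.ne']
    simp only [id]
    have hp' := (hp τ).ne'
    have hσ' := hσ.ne'
    have e1 : 1 + (τ / σ) ^ 2 = (σ ^ 2 + τ ^ 2) / σ ^ 2 := by
      field_simp
    rw [e1]
    push_cast
    field_simp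
    ring
  rw [intervalIntegral.integral_eq_sub_of_hasDerivAt (fun τ _ => hd τ)
    ((lgd_cont hσ).intervalIntegrable _ _)]
  simp only [zero_div, Real.arctan_zero]
  have h2 : σ ^ 2 + 1 = 1 + σ ^ 2 := by ring
  rw [one_pow, h2]
  have h3 : (1 + σ ^ 2) ≠ 0 := by positivity
  field_simp
  ring_nf

private theorem lgd_Hcont {x S : ℝ} (hx : 0 < x) (hS : 0 < S) :
    Continuous fun v : ℝ => Dl x (4 * S ^ 2 + 4 * Real.sin v ^ 2) := by
  unfold Dl
  have h1 : Continuous fun v : ℝ => min x (4 * S ^ 2 + 4 * Real.sin v ^ 2) := by fun_prop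
  have h2 : ∀ v : ℝ, min x (4 * S ^ 2 + 4 * Real.sin v ^ 2) / x ≠ 0 := by
    intro v
    have : 0 < min x (4 * S ^ 2 + 4 * Real.sin v ^ 2) := lt_min hx (by positivity)
    positivity
  exact (h1.sub continuous_const).sub (continuous_const.mul ((h1.div_const x).log h2))

private theorem lgd_four {H : ℝ → ℝ} (hc : Continuous H) (hper : Function.Periodic H π)
    (hev : ∀ v, H (-v) = H v) :
    ∫ u in (-π)..π, H (u + π / 2) = 4 * ∫ v in (0:ℝ)..π / 2, H v := by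
  rw [intervalIntegral.integral_comp_add_right (fun v => H v) (π / 2)]
  have e1 : ∫ v in (-π + π / 2)..(π + π / 2), H v =
      (∫ v in (-(π / 2))..(-(π / 2) + π), H v) + ∫ v in (π / 2)..(π / 2 + π), H v := by
    rw [show -π + π / 2 = -(π / 2) by ring, show -(π / 2) + π = π / 2 by ring,
      show π + π / 2 = π / 2 + π by ring]
    exact (intervalIntegral.integral_add_adjacent_intervals (hc.intervalIntegrable _ _)
      (hc.intervalIntegrable _ _)).symm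
  have e2 := hper.intervalIntegral_add_eq (π / 2) (-(π / 2))
  rw [e1, e2]
  have e3 : ∫ v in (-(π / 2))..(-(π / 2) + π), H v = 2 * ∫ v in (0:ℝ)..π / 2, H v := by
    rw [show -(π / 2) + π = π / 2 by ring,
      ← intervalIntegral.integral_add_adjacent_intervals (hc.intervalIntegrable (-(π / 2)) 0)
      (hc.intervalIntegrable 0 (π / 2))]
    have e4 : ∫ v in (-(π / 2))..0, H v = ∫ v in (0:ℝ)..π / 2, H v := by
      have e5 := intervalIntegral.integral_comp_neg (a := 0) (b := π / 2) H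
      rw [neg_zero] at e5
      rw [← e5]
      exact intervalIntegral.integral_congr fun v _ => hev v
    rw [e4]
    ring
  rw [e3]
  ring

theorem int3 {t θ : ℝ} (ht : 0 < t) (h0 : 0 < θ) (h1 : θ < π / 2) :
    ∫ u in (-π)..π, Dl (Xl t θ) (yy J t u) ≤
      93 / 25 * (π / 2 - θ) * Real.cos θ ^ 3 / Real.sinh t := by
  set S : ℝ := Real.sinh t with hS
  set s : ℝ := Real.cos θ with hs
  set γ : ℝ := π / 2 - θ with hγ
  have hS0 : 0 < S := Real.sinh_pos_iff.2 ht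
  have hs0 : 0 < s := Real.cos_pos_of_mem_Ioo ⟨by linarith, h1⟩
  have hγ0 : 0 < γ := by rw [hγ]; linarith
  have hγ2 : γ ≤ π / 2 := by rw [hγ]; linarith
  have hsγ : Real.sin γ = s := by rw [hγ, Real.sin_pi_div_two_sub]
  have hx : Xl t θ = 4 * S ^ 2 + 4 * s ^ 2 := rfl
  rw [hx]
  set x : ℝ := 4 * S ^ 2 + 4 * s ^ 2 with hxd
  have hx0 : 0 < x := by positivity
  have hpi := Real.pi_pos
  set H : ℝ → ℝ := fun v => Dl x (4 * S ^ 2 + 4 * Real.sin v ^ 2) with hH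
  have hHc : Continuous H := lgd_Hcont hx0 hS0
  have e1 : ∫ u in (-π)..π, Dl x (yy J t u) = ∫ u in (-π)..π, H (u + π / 2) := by
    refine intervalIntegral.integral_congr fun u _ => ?_
    show Dl x (yy J t u) = Dl x (4 * S ^ 2 + 4 * Real.sin (u + π / 2) ^ 2)
    rw [yy_J, Real.sin_add_pi_div_two]
  rw [e1, lgd_four hHc (by
    intro v
    show Dl x (4 * S ^ 2 + 4 * Real.sin (v + π) ^ 2) = Dl x (4 * S ^ 2 + 4 * Real.sin v ^ 2)
    rw [Real.sin_add_pi, neg_sq]) (by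
    intro v
    show Dl x (4 * S ^ 2 + 4 * Real.sin (-v) ^ 2) = Dl x (4 * S ^ 2 + 4 * Real.sin v ^ 2)
    rw [Real.sin_neg, neg_sq])]
  have e2 : ∫ v in (0:ℝ)..π / 2, H v = ∫ v in (0:ℝ)..γ, H v := by
    rw [← intervalIntegral.integral_add_adjacent_intervals (hHc.intervalIntegrable 0 γ)
      (hHc.intervalIntegrable γ (π / 2))]
    have e3 : ∫ v in γ..π / 2, H v = 0 := by
      rw [← intervalIntegral.integral_zero (a := γ) (b := π / 2) (E := ℝ) (μ := volume)]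
      refine intervalIntegral.integral_congr fun v hv => ?_
      rw [uIcc_of_le hγ2] at hv
      have h2 : s ≤ Real.sin v := by
        rw [← hsγ]
        exact Real.sin_le_sin_of_le_of_le_pi_div_two (by linarith) hv.2 hv.1
      refine lgd_Dl_zero hx0 ?_
      have := pow_le_pow_left₀ hs0.le h2 2
      rw [hxd]
      linarith
    rw [e3, add_zero]
  rw [e2]
  set σ : ℝ := S / s with hσ
  have hσ0 : 0 < σ := div_pos hS0 hs0
  have hSσ : S = σ * s := by rw [hσ]; field_simp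
  set g : ℝ → ℝ := fun τ => (σ ^ 2 + τ ^ 2) / (σ ^ 2 + 1) - 1 -
    Real.log ((σ ^ 2 + τ ^ 2) / (σ ^ 2 + 1)) with hg
  have hgc : Continuous g := lgd_cont hσ0
  have hle : ∫ v in (0:ℝ)..γ, H v ≤ ∫ v in (0:ℝ)..γ, x * g (v / γ) := by
    refine intervalIntegral.integral_mono_on hγ0.le (hHc.intervalIntegrable _ _)
      (((hgc.comp (continuous_id.div_const γ)).const_mul x).intervalIntegrable _ _) ?_
    intro v hv
    have hv0 : 0 ≤ v := hv.1
    have hτ0 : 0 ≤ v / γ := by positivity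
    have hτ1 : v / γ ≤ 1 := (div_le_one hγ0).2 hv.2
    have hc := strictConcaveOn_sin_Icc.concaveOn.2 (x := 0) ⟨le_rfl, hpi.le⟩ (y := γ)
      ⟨hγ0.le, by linarith⟩ (sub_nonneg.2 hτ1) hτ0 (by ring)
    simp only [smul_eq_mul, Real.sin_zero, mul_zero, zero_add] at hc
    rw [div_mul_cancel₀ v hγ0.ne', hsγ] at hc
    have hsv : Real.sin v ≤ s := by
      rw [← hsγ]
      exact Real.sin_le_sin_of_le_of_le_pi_div_two (by linarith) hγ2 hv.2
    have hsv0 : 0 ≤ Real.sin v := Real.sin_nonneg_of_nonneg_of_le_pi hv0 (by linarith [hv.2])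
    have hq1 : (v / γ * s) ^ 2 ≤ Real.sin v ^ 2 := pow_le_pow_left₀ (by positivity) hc 2
    have hq2 : Real.sin v ^ 2 ≤ s ^ 2 := pow_le_pow_left₀ hsv0 hsv 2
    have e4 : H v = _ := lgd_Dl_eq (x := x) (y := 4 * S ^ 2 + 4 * Real.sin v ^ 2) (by
      rw [hxd]; linarith)
    rw [e4]
    refine (lgd_mono (a := 4 * S ^ 2 + 4 * (v / γ * s) ^ 2) (by positivity) (by linarith) (by
      rw [hxd]; linarith)).trans (le_of_eq ?_)
    have e5 : (4 * S ^ 2 + 4 * (v / γ * s) ^ 2) / x = (σ ^ 2 + (v / γ) ^ 2) / (σ ^ 2 + 1) := by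
      rw [hxd, hSσ]
      have : σ ^ 2 + 1 ≠ 0 := by positivity
      rw [div_eq_div_iff (by positivity) this]
      ring
    show _ = x * ((σ ^ 2 + (v / γ) ^ 2) / (σ ^ 2 + 1) - 1 -
      Real.log ((σ ^ 2 + (v / γ) ^ 2) / (σ ^ 2 + 1)))
    rw [← e5]
    field_simp
  have hint : ∫ v in (0:ℝ)..γ, x * g (v / γ) =
      x * (γ * (2 - 2 / 3 / (1 + σ ^ 2) - 2 * σ * Real.arctan (1 / σ))) := by
    rw [intervalIntegral.integral_const_mul, intervalIntegral.integral_comp_div g hγ0.ne',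
      zero_div, div_self hγ0.ne', smul_eq_mul, hg, lgd_int hσ0]
  rw [hint] at hle
  have hkey := lgd_key hσ0
  set κ : ℝ := 2 - 2 / 3 / (1 + σ ^ 2) - 2 * σ * Real.arctan (1 / σ) with hκ
  have e6 : 93 / 25 * γ * s ^ 3 / S = 16 * γ * s ^ 2 * (93 / 400 / σ) := by
    rw [hSσ]
    field_simp
    ring
  have e7 : 4 * (x * (γ * κ)) = 16 * γ * s ^ 2 * ((1 + σ ^ 2) * κ) := by
    rw [hxd, hSσ]
    ring
  have h8 : (1 + σ ^ 2) * κ ≤ 93 / 400 / σ := by
    rw [le_div_iff₀ hσ0]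
    linarith
  rw [e6]
  refine (mul_le_mul_of_nonneg_left hle (by norm_num : (0:ℝ) ≤ 4)).trans ?_
  rw [e7]
  exact mul_le_mul_of_nonneg_left h8 (by positivity)

end Pool.Agent.H36.SZ
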