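import Mathlib

/-!
# Energy inequalities on an interval (calculus only)

PROOFS. `dirw`: let `δ = (π - K b)/2 > 0` and `κ u = K cot (K u + δ) = K cos (K u + δ) / sin (K u + δ)`
on `[0, b]` (`δ <= K u + δ < π`); `κ' = - K^2 - κ^2`. From `|f' - κ f|^2 >= 0`:
`|f'|^2 >= 2 κ Re (conj f * f') - κ^2 |f|^2 = (κ |f|^2)' + K^2 |f|^2`; integrate, `f 0 = f b = 0`.
`zmw`: `Γ u = ∫_0^u f`, `Γ 0 = Γ b = 0`. Integration by parts
`∫ |f|^2 = ∫ Re (conj Γ' * f) = - ∫ Re (conj Γ * f')`. For `K > 0`, `dirw` for `Γ`: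
`K^2 ∫ |Γ|^2 <= ∫ |f|^2`, and `2 K^2 |Γ| |f'| <= K^4 |Γ|^2 + |f'|^2`, so
`2 K^2 ∫ |f|^2 <= K^4 ∫ |Γ|^2 + ∫ |f'|^2 <= K^2 ∫ |f|^2 + ∫ |f'|^2`.
`nat`: `κ u = K tan (K u)` on `[-b, b]`, `κ' = K^2 + κ^2`, `|g' + κ g|^2 >= 0` gives
`|g'|^2 - K^2 |g|^2 >= - (κ |g|^2)'`; integrate.
`odd`: `f = e + η`, `e u = q sin (K u) / sin (K b)`, `q = f b`, `η 0 = η b = 0`:
`∫ |f'|^2 - K^2 |f|^2 = K cot (K b) |q|^2 + ∫ |η'|^2 - K^2 |η|^2 + 2 Re ∫ (conj e' η' - K^2 conj e η)`,
the last integral is `[conj e' η] = 0` (`e'' = - K^2 e`); `dirw`.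
`even`: `p = f b`, `P = ∫_0^b f`, `k = K b`, `sn = sin k`, `cs = cos k`, `Δ = b cs - sn / K < 0`;
`e u = A cos (K u) + B`, `A = (p b - P)/Δ`, `B = p - A cs`: `e b = p`, `∫_0^b e = P`, `e' 0 = 0`,
`e'' = - K^2 e + K^2 B`. `f = e + η`, `η b = 0`, `∫ η = 0`: the mixed term is
`[conj e' η] - ∫ conj (e'' + K^2 e) η = - K^2 conj B ∫ η = 0`; `zmw` for `η`;
`∫ |e'|^2 - K^2 |e|^2 = Re (conj e' (b) p) - K^2 Re (conj B P)` and this plus
`K^3 |P|^2 / (k - sn cs) - K (cs / sn) |p|^2` equals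
`K / (sn - k cs) * | sqrt ((k - sn cs)/sn) p - K sn^(3/2) / sqrt (k - sn cs) P |^2 >= 0`; written
without roots: `(K / ((sn - k cs) sn (k - sn cs))) * |(k - sn cs) p - K sn^2 P|^2`.
(`0 < k < π`: `sn > 0`, `sn - k cs > 0`, `k - sn cs > 0`.)
`lone`: even and odd part `g_e u = (g u + g (-u))/2`, `g_o u = (g u - g (-u))/2`,
`∫_(-b)^b (|g'|^2 - K^2 |g|^2) = 2 ∫_0^b (|g_e'|^2 - K^2 |g_e|^2) + 2 ∫_0^b (|g_o'|^2 - K^2 |g_o|^2)`,
`|g_e b|^2 + |g_o b|^2 = (|g b|^2 + |g (-b)|^2)/2 = x`, `∫_0^b g_e = 1/2 ∫_(-b)^b g`.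
-/

open MeasureTheory Set Filter Topology intervalIntegral
open scoped ComplexConjugate Real

namespace Pool.Agent.H36.SZ

private theorem en_ric {a b K : ℝ} {f f' : ℝ → ℂ} {κ : ℝ → ℝ} (hab : a ≤ b)
    (hκ : ∀ u ∈ Icc a b, HasDerivAt κ (-(K ^ 2) - κ u ^ 2) u)
    (hd : ∀ u, HasDerivAt f (f' u) u) (hc : Continuous f') :
    κ b * ‖f b‖ ^ 2 - κ a * ‖f a‖ ^ 2 + K ^ 2 * ∫ u in a..b, ‖f u‖ ^ 2 ≤
      ∫ u in a..b, ‖f' u‖ ^ 2 := by
  have hfc : Continuous f := continuous_iff_continuousAt.2 fun u => (hd u).continuousAt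
  have hκc : ContinuousOn κ (Icc a b) := fun u hu => (hκ u hu).continuousAt.continuousWithinAt
  have hder : ∀ u ∈ uIcc a b, HasDerivAt (fun u => κ u * ‖f u‖ ^ 2)
      ((-(K ^ 2) - κ u ^ 2) * ‖f u‖ ^ 2 + κ u * (2 * inner ℝ (f u) (f' u))) u := by
    intro u hu
    rw [uIcc_of_le hab] at hu
    exact (hκ u hu).mul (hd u).norm_sq
  have hint : IntervalIntegrable (fun u => (-(K ^ 2) - κ u ^ 2) * ‖f u‖ ^ 2 +
      κ u * (2 * inner ℝ (f u) (f' u))) volume a b := by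
    apply ContinuousOn.intervalIntegrable
    rw [uIcc_of_le hab]
    have h1 : Continuous fun u => inner ℝ (f u) (f' u) := hfc.inner hc
    exact ((continuousOn_const.sub (hκc.pow 2)).mul (hfc.norm.pow 2).continuousOn).add
      (hκc.mul (continuousOn_const.mul h1.continuousOn))
  have hi1 : IntervalIntegrable (fun u => K ^ 2 * ‖f u‖ ^ 2) volume a b :=
    Continuous.intervalIntegrable (by fun_prop) _ _
  have hi2 : IntervalIntegrable (fun u => ‖f' u‖ ^ 2) volume a b :=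
    Continuous.intervalIntegrable (by fun_prop) _ _
  have h1 := integral_eq_sub_of_hasDerivAt hder hint
  have h2 : ∫ u in a..b, (((-(K ^ 2) - κ u ^ 2) * ‖f u‖ ^ 2 + κ u * (2 * inner ℝ (f u) (f' u))) +
      K ^ 2 * ‖f u‖ ^ 2) ≤ ∫ u in a..b, ‖f' u‖ ^ 2 := by
    refine integral_mono_on hab (hint.add hi1) hi2 fun u _ => ?_
    have h3 := norm_sub_sq_real (f' u) (κ u • f u)
    have h4 : 0 ≤ ‖f' u - κ u • f u‖ ^ 2 := by positivity
    rw [h3, inner_smul_right, real_inner_comm, norm_smul, mul_pow, Real.norm_eq_abs, sq_abs] at h4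
    linarith
  rw [intervalIntegral.integral_add hint hi1, intervalIntegral.integral_const_mul, h1] at h2
  linarith

private theorem en_cot {K δ u : ℝ} (h : Real.sin (K * u + δ) ≠ 0) :
    HasDerivAt (fun u : ℝ => K * Real.cos (K * u + δ) / Real.sin (K * u + δ))
      (-(K ^ 2) - (K * Real.cos (K * u + δ) / Real.sin (K * u + δ)) ^ 2) u := by
  have h1 : HasDerivAt (fun u : ℝ => K * u + δ) K u := by
    simpa using ((hasDerivAt_id u).const_mul K).add_const δ
  have h2 := (h1.cos.const_mul K).div h1.sin h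
  refine h2.congr_deriv ?_
  field_simp

theorem dirw {b K : ℝ} {f f' : ℝ → ℂ} (hb : 0 < b) (hK : 0 ≤ K) (hKb : K * b < π)
    (hd : ∀ u, HasDerivAt f (f' u) u) (hc : Continuous f') (h0 : f 0 = 0) (h1 : f b = 0) :
    K ^ 2 * ∫ u in (0:ℝ)..b, ‖f u‖ ^ 2 ≤ ∫ u in (0:ℝ)..b, ‖f' u‖ ^ 2 := by
  have h2 := en_ric (K := K) (κ := fun u => K * Real.cos (K * u + (π - K * b) / 2) /
    Real.sin (K * u + (π - K * b) / 2)) hb.le (fun u hu => en_cot (ne_of_gt (by
      have h3 : 0 ≤ K * u := mul_nonneg hK hu.1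
      have h4 : K * u ≤ K * b := mul_le_mul_of_nonneg_left hu.2 hK
      exact Real.sin_pos_of_pos_of_lt_pi (by linarith) (by linarith)))) hd hc
  rw [h0, h1, norm_zero] at h2
  linarith

private theorem en_zm {b K : ℝ} {f f' : ℝ → ℂ} (hb : 0 < b) (hK : 0 ≤ K) (hKb : K * b < π)
    (hd : ∀ u, HasDerivAt f (f' u) u) (hc : Continuous f') (hm : ∫ u in (0:ℝ)..b, f u = 0) :
    K ^ 2 * ∫ u in (0:ℝ)..b, ‖f u‖ ^ 2 ≤ ∫ u in (0:ℝ)..b, ‖f' u‖ ^ 2 := by
  have hfc : Continuous f := continuous_iff_continuousAt.2 fun u => (hd u).continuousAt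
  let Γ : ℝ → ℂ := fun u => ∫ v in (0:ℝ)..u, f v
  have hΓ : ∀ u, HasDerivAt Γ (f u) u := fun u =>
    integral_hasDerivAt_right (hfc.intervalIntegrable _ _)
      (hfc.stronglyMeasurableAtFilter _ _) hfc.continuousAt
  have hΓc : Continuous Γ := continuous_iff_continuousAt.2 fun u => (hΓ u).continuousAt
  have hΓ0 : Γ 0 = 0 := intervalIntegral.integral_same
  have h1 := dirw hb hK hKb hΓ hfc hΓ0 hm
  have hder : ∀ u ∈ uIcc 0 b, HasDerivAt (fun u => inner ℝ (Γ u) (f u))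
      (inner ℝ (Γ u) (f' u) + inner ℝ (f u) (f u)) u := fun u _ => (hΓ u).inner ℝ (hd u)
  have hi1 : IntervalIntegrable (fun u => inner ℝ (Γ u) (f' u)) volume 0 b :=
    (hΓc.inner hc).intervalIntegrable _ _
  have hi2 : IntervalIntegrable (fun u => inner ℝ (f u) (f u)) volume 0 b :=
    (hfc.inner hfc).intervalIntegrable _ _
  have h2 := integral_eq_sub_of_hasDerivAt hder (hi1.add hi2)
  have hΓb : Γ b = 0 := hm
  rw [hΓ0, hΓb, inner_zero_left, inner_zero_left, sub_zero, intervalIntegral.integral_add hi1 hi2] at h2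
  have h3 : ∫ u in (0:ℝ)..b, inner ℝ (f u) (f u) = ∫ u in (0:ℝ)..b, ‖f u‖ ^ 2 :=
    intervalIntegral.integral_congr fun u _ => real_inner_self_eq_norm_sq (f u)
  rw [h3] at h2
  have hi3 : IntervalIntegrable (fun u => K ^ 4 * ‖Γ u‖ ^ 2) volume 0 b :=
    Continuous.intervalIntegrable (by fun_prop) _ _
  have hi4 : IntervalIntegrable (fun u => ‖f' u‖ ^ 2) volume 0 b :=
    Continuous.intervalIntegrable (by fun_prop) _ _
  have h4 : ∫ u in (0:ℝ)..b, (-(2 * K ^ 2)) * inner ℝ (Γ u) (f' u) ≤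
      ∫ u in (0:ℝ)..b, (K ^ 4 * ‖Γ u‖ ^ 2 + ‖f' u‖ ^ 2) := by
    refine integral_mono_on hb.le (hi1.const_mul _) (hi3.add hi4) fun u _ => ?_
    have h5 := norm_add_sq_real (K ^ 2 • Γ u) (f' u)
    have h6 : 0 ≤ ‖K ^ 2 • Γ u + f' u‖ ^ 2 := by positivity
    rw [h5, inner_smul_left, norm_smul, mul_pow, Real.norm_eq_abs, sq_abs] at h6
    simp only [conj_trivial] at h6
    nlinarith
  rw [intervalIntegral.integral_const_mul, intervalIntegral.integral_add hi3 hi4, intervalIntegral.integral_const_mul] at h4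
  have h7 : K ^ 4 * ∫ u in (0:ℝ)..b, ‖Γ u‖ ^ 2 ≤ K ^ 2 * ∫ u in (0:ℝ)..b, ‖f u‖ ^ 2 := by
    have h8 := mul_le_mul_of_nonneg_left h1 (sq_nonneg K)
    calc K ^ 4 * ∫ u in (0:ℝ)..b, ‖Γ u‖ ^ 2 = K ^ 2 * (K ^ 2 * ∫ u in (0:ℝ)..b, ‖Γ u‖ ^ 2) := by ring
      _ ≤ _ := h8
  have h9 : ∫ u in (0:ℝ)..b, inner ℝ (Γ u) (f' u) = -∫ u in (0:ℝ)..b, ‖f u‖ ^ 2 := by linarith
  rw [h9] at h4
  linarith

theorem zmw {b K : ℝ} {f f' : ℝ → ℂ} (hb : 0 < b) (hK : 0 ≤ K) (hKb : K * b < π)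
    (hd : ∀ u, HasDerivAt f (f' u) u) (hc : Continuous f') (hm : ∫ u in (0:ℝ)..b, f u = 0) :
    K ^ 2 * ∫ u in (0:ℝ)..b, ‖f u‖ ^ 2 ≤ ∫ u in (0:ℝ)..b, ‖f' u‖ ^ 2 :=
  en_zm hb hK hKb hd hc hm

theorem nat_en {b K x : ℝ} {g g' : ℝ → ℂ} (hb : 0 < b) (hK : 0 < K) (hKb : K * b < π / 2)
    (hd : ∀ u, HasDerivAt g (g' u) u) (hc : Continuous g') (h1 : ‖g b‖ ^ 2 = x)
    (h2 : ‖g (-b)‖ ^ 2 = x) :
    -(K * x * Real.tan (K * b)) ≤
      (∫ u in (-b)..b, ‖g' u‖ ^ 2) / 2 - K ^ 2 * (∫ u in (-b)..b, ‖g u‖ ^ 2) / 2 := by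
  have hpi := Real.pi_pos
  have hcos : ∀ u ∈ Icc (-b) b, 0 < Real.cos (K * u) := by
    intro u hu
    have h3 : K * u ≤ K * b := mul_le_mul_of_nonneg_left hu.2 hK.le
    have h4 : K * (-b) ≤ K * u := mul_le_mul_of_nonneg_left hu.1 hK.le
    exact Real.cos_pos_of_mem_Ioo ⟨by linarith, by linarith⟩
  have h3 := en_ric (K := K) (κ := fun u => -(K * Real.tan (K * u))) (by linarith : -b ≤ b)
    (fun u hu => by
      have h5 : HasDerivAt (fun u : ℝ => K * u) K u := by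
        simpa using (hasDerivAt_id u).const_mul K
      have h6 := (((Real.hasDerivAt_tan (hcos u hu).ne').comp u h5).const_mul K).neg
      refine h6.congr_deriv ?_
      have h7 := Real.sin_sq_add_cos_sq (K * u)
      have h8 := (hcos u hu).ne'
      rw [Real.tan_eq_sin_div_cos]
      field_simp
      linear_combination h7) hd hc
  rw [h1, h2, mul_neg, Real.tan_neg] at h3
  linarith

theorem odd_en {b K : ℝ} {f f' : ℝ → ℂ} (hb : 0 < b) (hK : 0 < K) (hKb : K * b < π)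
    (hd : ∀ u, HasDerivAt f (f' u) u) (hc : Continuous f') (h0 : f 0 = 0) :
    K * (Real.cos (K * b) / Real.sin (K * b)) * ‖f b‖ ^ 2 ≤
      (∫ u in (0:ℝ)..b, ‖f' u‖ ^ 2) - K ^ 2 * ∫ u in (0:ℝ)..b, ‖f u‖ ^ 2 := by
  have hKb0 : 0 < K * b := by positivity
  have hs : 0 < Real.sin (K * b) := Real.sin_pos_of_pos_of_lt_pi hKb0 hKb
  have h1 : ∀ δ : ℝ, 0 < δ → δ < π - K * b →
      K * Real.cos (K * b + δ) / Real.sin (K * b + δ) * ‖f b‖ ^ 2 ≤
      (∫ u in (0:ℝ)..b, ‖f' u‖ ^ 2) - K ^ 2 * ∫ u in (0:ℝ)..b, ‖f u‖ ^ 2 := by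
    intro δ hδ hδ1
    have h2 := en_ric (K := K) (κ := fun u => K * Real.cos (K * u + δ) /
      Real.sin (K * u + δ)) hb.le (fun u hu => en_cot (ne_of_gt (by
        have h3 : 0 ≤ K * u := mul_nonneg hK.le hu.1
        have h4 : K * u ≤ K * b := mul_le_mul_of_nonneg_left hu.2 hK.le
        exact Real.sin_pos_of_pos_of_lt_pi (by linarith) (by linarith)))) hd hc
    rw [h0, norm_zero] at h2
    linarith
  have h2 : Tendsto (fun δ : ℝ => K * Real.cos (K * b + δ) / Real.sin (K * b + δ) * ‖f b‖ ^ 2)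
      (𝓝[>] 0) (𝓝 (K * Real.cos (K * b + 0) / Real.sin (K * b + 0) * ‖f b‖ ^ 2)) := by
    have h3 : ContinuousAt (fun δ : ℝ => K * Real.cos (K * b + δ) / Real.sin (K * b + δ) *
        ‖f b‖ ^ 2) 0 := by
      refine ContinuousAt.mul (ContinuousAt.div (by fun_prop) (by fun_prop) ?_) continuousAt_const
      rw [add_zero]
      exact hs.ne'
    exact h3.tendsto.mono_left nhdsWithin_le_nhds
  rw [add_zero] at h2
  have h3 : ∀ᶠ δ in 𝓝[>] (0 : ℝ), K * Real.cos (K * b + δ) / Real.sin (K * b + δ) * ‖f b‖ ^ 2 ≤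
      (∫ u in (0:ℝ)..b, ‖f' u‖ ^ 2) - K ^ 2 * ∫ u in (0:ℝ)..b, ‖f u‖ ^ 2 := by
    filter_upwards [Ioo_mem_nhdsGT (show (0 : ℝ) < π - K * b by linarith)] with δ hδ
    exact h1 δ hδ.1 hδ.2
  have h4 := le_of_tendsto h2 h3
  rw [mul_div_assoc] at h4
  exact h4

private theorem en_bil {b K : ℝ} (A B : ℂ) {g g' : ℝ → ℂ} (hd : ∀ u, HasDerivAt g (g' u) u)
    (hc : Continuous g') :
    (∫ u in (0:ℝ)..b, inner ℝ ((-(K * Real.sin (K * u))) • A) (g' u)) -
      K ^ 2 * ∫ u in (0:ℝ)..b, inner ℝ (Real.cos (K * u) • A + B) (g u) =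
      inner ℝ ((-(K * Real.sin (K * b))) • A) (g b) - K ^ 2 * inner ℝ B (∫ u in (0:ℝ)..b, g u) := by
  have hgc : Continuous g := continuous_iff_continuousAt.2 fun u => (hd u).continuousAt
  have he : ∀ u : ℝ, HasDerivAt (fun u : ℝ => (-(K * Real.sin (K * u))) • A)
      ((-(K ^ 2 * Real.cos (K * u))) • A) u := by
    intro u
    have h1 : HasDerivAt (fun u : ℝ => K * u) K u := by
      simpa using (hasDerivAt_id u).const_mul K
    have h2 := (h1.sin.const_mul K).neg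
    have h3 : HasDerivAt (fun u : ℝ => -(K * Real.sin (K * u))) (-(K ^ 2 * Real.cos (K * u))) u :=
      h2.congr_deriv (by ring)
    exact h3.smul_const A
  have hder : ∀ u ∈ uIcc 0 b, HasDerivAt
      (fun u : ℝ => inner ℝ ((-(K * Real.sin (K * u))) • A) (g u))
      (inner ℝ ((-(K * Real.sin (K * u))) • A) (g' u) +
        inner ℝ ((-(K ^ 2 * Real.cos (K * u))) • A) (g u)) u := fun u _ => (he u).inner ℝ (hd u)
  have hi1 : IntervalIntegrable (fun u : ℝ => inner ℝ ((-(K * Real.sin (K * u))) • A) (g' u))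
      volume 0 b := by
    refine (Continuous.inner ?_ hc).intervalIntegrable _ _
    fun_prop
  have hi2 : IntervalIntegrable (fun u : ℝ => inner ℝ ((-(K ^ 2 * Real.cos (K * u))) • A) (g u))
      volume 0 b := by
    refine (Continuous.inner ?_ hgc).intervalIntegrable _ _
    fun_prop
  have hi3 : IntervalIntegrable (fun u : ℝ => inner ℝ (Real.cos (K * u) • A + B) (g u))
      volume 0 b := by
    refine (Continuous.inner ?_ hgc).intervalIntegrable _ _
    fun_prop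
  have hi4 : IntervalIntegrable (fun u : ℝ => inner ℝ B (g u)) volume 0 b :=
    (Continuous.inner continuous_const hgc).intervalIntegrable _ _
  have h1 := integral_eq_sub_of_hasDerivAt hder (hi1.add hi2)
  rw [intervalIntegral.integral_add hi1 hi2] at h1
  have h2 : ∫ u in (0:ℝ)..b, inner ℝ ((-(K ^ 2 * Real.cos (K * u))) • A) (g u) =
      K ^ 2 * (∫ u in (0:ℝ)..b, inner ℝ B (g u)) -
        K ^ 2 * ∫ u in (0:ℝ)..b, inner ℝ (Real.cos (K * u) • A + B) (g u) := by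
    rw [← intervalIntegral.integral_const_mul, ← intervalIntegral.integral_const_mul, ← intervalIntegral.integral_sub (hi4.const_mul _) (hi3.const_mul _)]
    refine intervalIntegral.integral_congr fun u _ => ?_
    simp only [inner_add_left, inner_smul_left, conj_trivial]
    ring
  have h3 : ∫ u in (0:ℝ)..b, inner ℝ B (g u) = inner ℝ B (∫ u in (0:ℝ)..b, g u) :=
    (innerSL ℝ B).intervalIntegral_comp_comm (hgc.intervalIntegrable _ _)
  rw [h2, h3] at h1
  have h4 : inner ℝ ((-(K * Real.sin (K * 0))) • A) (g 0) = 0 := by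
    rw [mul_zero, Real.sin_zero, mul_zero, neg_zero, zero_smul, inner_zero_left]
  rw [h4] at h1
  linarith

private theorem en_D {k : ℝ} (h0 : 0 < k) (h1 : k < π) : 0 < Real.sin k - k * Real.cos k := by
  have hs : 0 < Real.sin k := Real.sin_pos_of_pos_of_lt_pi h0 h1
  rcases le_or_gt (Real.cos k) 0 with h | h
  · nlinarith
  · have h2 : k < π / 2 := by
      by_contra hcon
      have h3 := Real.cos_nonpos_of_pi_div_two_le_of_le (not_lt.1 hcon) (by linarith)
      linarith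
    have h3 := Real.lt_tan h0 h2
    rw [Real.tan_eq_sin_div_cos, lt_div_iff₀ h] at h3
    linarith

private theorem en_E {k : ℝ} (h0 : 0 < k) : 0 < k - Real.sin k * Real.cos k := by
  have h1 := Real.sin_lt (x := 2 * k) (by linarith)
  rw [Real.sin_two_mul] at h1
  linarith

theorem even_en {b K : ℝ} {f f' : ℝ → ℂ} (hb : 0 < b) (hK : 0 < K) (hKb : K * b < π)
    (hd : ∀ u, HasDerivAt f (f' u) u) (hc : Continuous f') :
    K * (Real.cos (K * b) / Real.sin (K * b)) * ‖f b‖ ^ 2 -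
      K ^ 3 * ‖∫ u in (0:ℝ)..b, f u‖ ^ 2 / (K * b - Real.sin (K * b) * Real.cos (K * b)) ≤
      (∫ u in (0:ℝ)..b, ‖f' u‖ ^ 2) - K ^ 2 * ∫ u in (0:ℝ)..b, ‖f u‖ ^ 2 := by
  have hk : 0 < K * b := by positivity
  set p : ℂ := f b with hp
  set P : ℂ := ∫ u in (0:ℝ)..b, f u with hP
  set sn : ℝ := Real.sin (K * b) with hsn
  set cs : ℝ := Real.cos (K * b) with hcs
  have hsc : sn ^ 2 + cs ^ 2 = 1 := Real.sin_sq_add_cos_sq _
  have hs : 0 < sn := Real.sin_pos_of_pos_of_lt_pi hk hKb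
  have hD : 0 < sn - K * b * cs := en_D hk hKb
  have hE : 0 < K * b - sn * cs := en_E hk
  have hfc : Continuous f := continuous_iff_continuousAt.2 fun u => (hd u).continuousAt
  set D : ℝ := sn - K * b * cs with hDdef
  let A : ℂ := (1 / D) • (K • P - (K * b) • p)
  let B : ℂ := (1 / D) • (sn • p - (K * cs) • P)
  have hDA : D • A = K • P - (K * b) • p := by
    simp only [A]
    rw [smul_smul, mul_one_div_cancel hD.ne', one_smul]
  have hDB : D • B = sn • p - (K * cs) • P := by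
    simp only [B]
    rw [smul_smul, mul_one_div_cancel hD.ne', one_smul]
  -- the comparison function
  have hce : Continuous fun u : ℝ => (-(K * Real.sin (K * u))) • A := by fun_prop
  have hde : ∀ u : ℝ, HasDerivAt (fun u : ℝ => Real.cos (K * u) • A + B)
      ((-(K * Real.sin (K * u))) • A) u := by
    intro u
    have h1 : HasDerivAt (fun u : ℝ => K * u) K u := by
      simpa using (hasDerivAt_id u).const_mul K
    have h3 : HasDerivAt (fun u : ℝ => Real.cos (K * u)) (-(K * Real.sin (K * u))) u :=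
      h1.cos.congr_deriv (by ring)
    exact (h3.smul_const A).add_const B
  have heb : cs • A + B = p := by
    have h1 : D • (cs • A + B) = D • p := by
      rw [smul_add, smul_comm, hDA, hDB]
      module
    exact smul_right_injective ℂ hD.ne' h1
  have hei : ∫ u in (0:ℝ)..b, (Real.cos (K * u) • A + B) = P := by
    have h1 : ∫ u in (0:ℝ)..b, Real.cos (K * u) = sn / K := by
      rw [intervalIntegral.integral_comp_mul_left (fun x => Real.cos x) hK.ne', integral_cos,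
        mul_zero, Real.sin_zero, sub_zero, smul_eq_mul, ← hsn]
      field_simp
    have h2 : ∫ u in (0:ℝ)..b, (Real.cos (K * u) • A + B) = (sn / K) • A + b • B := by
      rw [intervalIntegral.integral_add (Continuous.intervalIntegrable (by fun_prop) _ _)
        (Continuous.intervalIntegrable (by fun_prop) _ _), intervalIntegral.integral_smul_const, h1,
        intervalIntegral.integral_const, sub_zero]
    rw [h2]
    have h3 : D • ((sn / K) • A + b • B) = D • P := by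
      rw [smul_add, smul_comm D (sn / K), smul_comm D b, hDA, hDB]
      have e1 : (sn / K) • (K • P - (K * b) • p) = sn • P - (sn * b) • p := by
        rw [smul_sub, smul_smul, smul_smul]
        congr 2
        · field_simp
        · field_simp
      rw [e1, hDdef]
      module
    exact smul_right_injective ℂ hD.ne' h3
  -- the remainder
  have hdη : ∀ u, HasDerivAt (fun u => f u - (Real.cos (K * u) • A + B))
      (f' u - (-(K * Real.sin (K * u))) • A) u := fun u => (hd u).sub (hde u)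
  have hcη : Continuous fun u => f' u - (-(K * Real.sin (K * u))) • A := hc.sub hce
  have hcE : Continuous fun u : ℝ => Real.cos (K * u) • A + B := by fun_prop
  have hmη : ∫ u in (0:ℝ)..b, (f u - (Real.cos (K * u) • A + B)) = 0 := by
    rw [intervalIntegral.integral_sub (hfc.intervalIntegrable _ _) (hcE.intervalIntegrable _ _), hei, ← hP, sub_self]
  have hz := en_zm hb hK.le hKb hdη hcη hmη
  have hbf := en_bil (b := b) (K := K) A B hd hc
  have hbe := en_bil (b := b) (K := K) A B hde hce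
  rw [hei] at hbe
  simp only [← hcs] at hbe
  rw [heb] at hbe
  have i1 : IntervalIntegrable (fun u => ‖f' u‖ ^ 2) volume 0 b :=
    Continuous.intervalIntegrable (by fun_prop) _ _
  have i2 : IntervalIntegrable (fun u : ℝ => inner ℝ ((-(K * Real.sin (K * u))) • A) (f' u)) volume 0 b :=
    (hce.inner hc).intervalIntegrable _ _
  have i3 : IntervalIntegrable (fun u : ℝ => inner ℝ ((-(K * Real.sin (K * u))) • A)
      ((-(K * Real.sin (K * u))) • A)) volume 0 b := (hce.inner hce).intervalIntegrable _ _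
  have j1 : IntervalIntegrable (fun u => ‖f u‖ ^ 2) volume 0 b :=
    Continuous.intervalIntegrable (by fun_prop) _ _
  have j2 : IntervalIntegrable (fun u : ℝ => inner ℝ (Real.cos (K * u) • A + B) (f u)) volume 0 b :=
    (hcE.inner hfc).intervalIntegrable _ _
  have j3 : IntervalIntegrable (fun u : ℝ => inner ℝ (Real.cos (K * u) • A + B)
      (Real.cos (K * u) • A + B)) volume 0 b := (hcE.inner hcE).intervalIntegrable _ _
  have hexp1 : ∫ u in (0:ℝ)..b, ‖f' u - (-(K * Real.sin (K * u))) • A‖ ^ 2 =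
      (∫ u in (0:ℝ)..b, ‖f' u‖ ^ 2) -
      2 * (∫ u in (0:ℝ)..b, inner ℝ ((-(K * Real.sin (K * u))) • A) (f' u)) +
      ∫ u in (0:ℝ)..b, inner ℝ ((-(K * Real.sin (K * u))) • A) ((-(K * Real.sin (K * u))) • A) := by
    rw [← intervalIntegral.integral_const_mul, ← intervalIntegral.integral_sub i1 (i2.const_mul 2), ← intervalIntegral.integral_add (i1.sub (i2.const_mul 2)) i3]
    refine intervalIntegral.integral_congr fun u _ => ?_
    rw [norm_sub_sq_real, real_inner_self_eq_norm_sq, real_inner_comm]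
  have hexp2 : ∫ u in (0:ℝ)..b, ‖f u - (Real.cos (K * u) • A + B)‖ ^ 2 =
      (∫ u in (0:ℝ)..b, ‖f u‖ ^ 2) -
      2 * (∫ u in (0:ℝ)..b, inner ℝ (Real.cos (K * u) • A + B) (f u)) +
      ∫ u in (0:ℝ)..b, inner ℝ (Real.cos (K * u) • A + B) (Real.cos (K * u) • A + B) := by
    rw [← intervalIntegral.integral_const_mul, ← intervalIntegral.integral_sub j1 (j2.const_mul 2), ← intervalIntegral.integral_add (j1.sub (j2.const_mul 2)) j3]
    refine intervalIntegral.integral_congr fun u _ => ?_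
    rw [norm_sub_sq_real, real_inner_self_eq_norm_sq, real_inner_comm]
  rw [hexp1, hexp2] at hz
  have hlow : inner ℝ ((-(K * sn)) • A) p - K ^ 2 * inner ℝ B P ≤
      (∫ u in (0:ℝ)..b, ‖f' u‖ ^ 2) - K ^ 2 * ∫ u in (0:ℝ)..b, ‖f u‖ ^ 2 := by
    nlinarith
  refine le_trans ?_ hlow
  have hval : inner ℝ ((-(K * sn)) • A) p - K ^ 2 * inner ℝ B P =
      (K / D) * (K * b * sn * ‖p‖ ^ 2 - 2 * K * sn * inner ℝ p P + K ^ 2 * cs * ‖P‖ ^ 2) := by
    simp only [A, B]
    simp only [inner_smul_left, inner_sub_left, conj_trivial, real_inner_self_eq_norm_sq]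
    rw [real_inner_comm p P]
    ring
  have hsq : 0 ≤ K / (D * sn * (K * b - sn * cs)) *
      ‖(K * b - sn * cs) • p - (K * sn ^ 2) • P‖ ^ 2 := by positivity
  rw [norm_sub_sq_real, norm_smul, norm_smul, inner_smul_left, inner_smul_right, mul_pow, mul_pow,
    Real.norm_eq_abs, Real.norm_eq_abs, sq_abs, sq_abs] at hsq
  simp only [conj_trivial] at hsq
  rw [hval]
  have hfin : (K / D) * (K * b * sn * ‖p‖ ^ 2 - 2 * K * sn * inner ℝ p P + K ^ 2 * cs * ‖P‖ ^ 2) -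
      (K * (cs / sn) * ‖p‖ ^ 2 - K ^ 3 * ‖P‖ ^ 2 / (K * b - sn * cs)) =
      K / (D * sn * (K * b - sn * cs)) * ((K * b - sn * cs) ^ 2 * ‖p‖ ^ 2 -
        2 * ((K * b - sn * cs) * (K * sn ^ 2 * inner ℝ p P)) + (K * sn ^ 2) ^ 2 * ‖P‖ ^ 2) := by
    have hE' : K * b - sn * cs ≠ 0 := hE.ne'
    have hD' : D ≠ 0 := hD.ne'
    have hs' : sn ≠ 0 := hs.ne'
    field_simp
    rw [hDdef]
    linear_combination ((K * b - sn * cs) * (K * b) * ‖p‖ ^ 2 - K ^ 2 * sn ^ 2 * ‖P‖ ^ 2) * hsc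
  linarith

/-- the inequality for a lone lobe, `p` a bound for the half integral -/
theorem lone_en {b K x p : ℝ} {g g' : ℝ → ℂ} (hb : 0 < b) (hK : 0 < K) (hKb : K * b < π)
    (hd : ∀ u, HasDerivAt g (g' u) u) (hc : Continuous g') (h1 : ‖g b‖ ^ 2 = x)
    (h2 : ‖g (-b)‖ ^ 2 = x) (hp : ‖∫ u in (-b)..b, g u‖ ≤ 2 * p) :
    K * x * (Real.cos (K * b) / Real.sin (K * b)) -
      K ^ 3 * p ^ 2 / (K * b - Real.sin (K * b) * Real.cos (K * b)) ≤
      (∫ u in (-b)..b, ‖g' u‖ ^ 2) / 2 - K ^ 2 * (∫ u in (-b)..b, ‖g u‖ ^ 2) / 2 := by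
  have hgc : Continuous g := continuous_iff_continuousAt.2 fun u => (hd u).continuousAt
  have hk : 0 < K * b := by positivity
  have hE : 0 < K * b - Real.sin (K * b) * Real.cos (K * b) := en_E hk
  have hdn : ∀ u, HasDerivAt (fun u => g (-u)) (-g' (-u)) u := by
    intro u
    have h3 := HasDerivAt.scomp u (hd (-u)) (hasDerivAt_neg u)
    rw [neg_one_smul] at h3
    exact h3
  have hcn : Continuous fun u => g (-u) := hgc.comp continuous_neg
  have hcn' : Continuous fun u => g' (-u) := hc.comp continuous_neg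
  have hde : ∀ u, HasDerivAt (fun u => (1 / 2 : ℝ) • (g u + g (-u))) ((1 / 2 : ℝ) • (g' u + -g' (-u))) u :=
    fun u => ((hd u).add (hdn u)).const_smul (1 / 2 : ℝ)
  have hdo : ∀ u, HasDerivAt (fun u => (1 / 2 : ℝ) • (g u - g (-u))) ((1 / 2 : ℝ) • (g' u - -g' (-u))) u :=
    fun u => ((hd u).sub (hdn u)).const_smul (1 / 2 : ℝ)
  have he := even_en hb hK hKb hde (by fun_prop)
  have ho := odd_en hb hK hKb hdo (by fun_prop) (by simp)
  have hpar : ∀ z w : ℂ, ‖(1 / 2 : ℝ) • (z + w)‖ ^ 2 + ‖(1 / 2 : ℝ) • (z - w)‖ ^ 2 =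
      (‖z‖ ^ 2 + ‖w‖ ^ 2) / 2 := by
    intro z w
    rw [norm_smul, norm_smul, mul_pow, mul_pow, norm_add_sq_real, norm_sub_sq_real, Real.norm_eq_abs,
      sq_abs]
    ring
  have hfold : ∀ h : ℝ → ℝ, Continuous h → ∫ u in (-b)..b, h u = ∫ u in (0:ℝ)..b, (h u + h (-u)) := by
    intro h hh
    have hhn : Continuous fun u => h (-u) := hh.comp continuous_neg
    rw [intervalIntegral.integral_add (hh.intervalIntegrable _ _) (hhn.intervalIntegrable _ _), integral_comp_neg, neg_zero,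
      ← integral_add_adjacent_intervals (hh.intervalIntegrable (-b) 0) (hh.intervalIntegrable 0 b), add_comm]
  have hfoldC : ∫ u in (-b)..b, g u = ∫ u in (0:ℝ)..b, (g u + g (-u)) := by
    rw [intervalIntegral.integral_add (hgc.intervalIntegrable _ _) (hcn.intervalIntegrable _ _), integral_comp_neg, neg_zero,
      ← integral_add_adjacent_intervals (hgc.intervalIntegrable (-b) 0) (hgc.intervalIntegrable 0 b), add_comm]
  have e1 : (∫ u in (-b)..b, ‖g' u‖ ^ 2) / 2 =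
      (∫ u in (0:ℝ)..b, ‖(1 / 2 : ℝ) • (g' u + -g' (-u))‖ ^ 2) +
        ∫ u in (0:ℝ)..b, ‖(1 / 2 : ℝ) • (g' u - -g' (-u))‖ ^ 2 := by
    rw [← intervalIntegral.integral_add (Continuous.intervalIntegrable (by fun_prop) _ _)
      (Continuous.intervalIntegrable (by fun_prop) _ _), hfold (fun u => ‖g' u‖ ^ 2) (by fun_prop),
      ← intervalIntegral.integral_div]
    refine intervalIntegral.integral_congr fun u _ => ?_
    rw [hpar, norm_neg]
  have e2 : (∫ u in (-b)..b, ‖g u‖ ^ 2) / 2 =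
      (∫ u in (0:ℝ)..b, ‖(1 / 2 : ℝ) • (g u + g (-u))‖ ^ 2) +
        ∫ u in (0:ℝ)..b, ‖(1 / 2 : ℝ) • (g u - g (-u))‖ ^ 2 := by
    rw [← intervalIntegral.integral_add (Continuous.intervalIntegrable (by fun_prop) _ _)
      (Continuous.intervalIntegrable (by fun_prop) _ _), hfold (fun u => ‖g u‖ ^ 2) (by fun_prop),
      ← intervalIntegral.integral_div]
    refine intervalIntegral.integral_congr fun u _ => ?_
    rw [hpar]
  have e3 : ‖(1 / 2 : ℝ) • (g b + g (-b))‖ ^ 2 + ‖(1 / 2 : ℝ) • (g b - g (-b))‖ ^ 2 = x := by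
    rw [hpar, h1, h2]
    ring
  have e4 : ‖∫ u in (0:ℝ)..b, (1 / 2 : ℝ) • (g u + g (-u))‖ ≤ p := by
    rw [intervalIntegral.integral_smul, ← hfoldC, norm_smul, Real.norm_eq_abs, abs_of_pos (by norm_num)]
    linarith
  have e5 : K ^ 3 * ‖∫ u in (0:ℝ)..b, (1 / 2 : ℝ) • (g u + g (-u))‖ ^ 2 /
      (K * b - Real.sin (K * b) * Real.cos (K * b)) ≤
      K ^ 3 * p ^ 2 / (K * b - Real.sin (K * b) * Real.cos (K * b)) := by
    gcongr
  have e6 : K * x * (Real.cos (K * b) / Real.sin (K * b)) =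
      K * (Real.cos (K * b) / Real.sin (K * b)) * ‖(1 / 2 : ℝ) • (g b + g (-b))‖ ^ 2 +
      K * (Real.cos (K * b) / Real.sin (K * b)) * ‖(1 / 2 : ℝ) • (g b - g (-b))‖ ^ 2 := by
    rw [← e3]
    ring
  have e7 : K ^ 2 * (∫ u in (-b)..b, ‖g u‖ ^ 2) / 2 = K ^ 2 * ((∫ u in (-b)..b, ‖g u‖ ^ 2) / 2) := by
    ring
  rw [e6, e7, e1, e2, mul_add]
  linarith

end Pool.Agent.H36.SZ
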