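import Pool.Agent.H36.SZ.LgM

/-!
# Long lobes: the numerical statement with the dip term

`lgn3`: `t <= 1/5`, `tan γ >= 5/4 tanh t`.
-/

open Real

namespace Pool.Agent.H36.SZ

/-- the conclusion of the box lemmas -/
private def Qc (S s r : ℝ) : Prop :=
  ((1 + r) * s ^ 2 + r * S ^ 2 ≤ 7921 / 10000) ∧ ∃ e : ℝ, 0 ≤ e ∧
    e * (1 + s ^ 2 / 10) ≤ s ^ 2 / (S ^ 2 + s ^ 2) / 5 + 3 / 35 * (s ^ 2 / (S ^ 2 + s ^ 2)) ^ 2 +
      (s ^ 2 / (S ^ 2 + s ^ 2)) ^ 3 / 21 ∧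
    ((1 + r) * s ^ 2 + r * S ^ 2) ^ 3 * (1 + ((1 + r) * s ^ 2 + r * S ^ 2) / 10 +
      11 / 100 * ((1 + r) * s ^ 2 + r * S ^ 2) ^ 2) ^ 2 ≤
      ((1 + r) * (2 + e / r)) ^ 2 * s ^ 6 * (1 + s ^ 2 / 10) ^ 2

private theorem bx3 {S s r : ℝ} (κ r1 s1 e : ℝ) (hs : 0 < s) (hs1 : s ≤ s1) (hr0 : 0 < r)
    (hr : r ≤ r1) (hκ0 : 0 ≤ κ) (hκ : S ^ 2 ≤ κ * s ^ 2) (he : 0 ≤ e)
    (he1 : e * (1 + s1 ^ 2 / 10) ≤ (1 / (1 + κ)) / 5 + 3 / 35 * (1 / (1 + κ)) ^ 2 +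
      (1 / (1 + κ)) ^ 3 / 21)
    (h1 : (1 + r1 * (1 + κ)) ^ 3 * (1 + r1 * (1 + κ) * s1 ^ 2 / 10 +
      11 / 100 * (1 + r1 * (1 + κ)) ^ 2 * s1 ^ 4) ^ 2 ≤ (1 + r1) ^ 2 * (2 + e / r1) ^ 2)
    (h2 : (1 + r1 * (1 + κ)) * s1 ^ 2 ≤ 7921 / 10000) : Qc S s r := by
  unfold Qc
  set W := (1 + r) * s ^ 2 + r * S ^ 2 with hW
  set w0 := 1 + r * (1 + κ) with hw0
  set w1 := 1 + r1 * (1 + κ) with hw1
  have hr1 : 0 < r1 := lt_of_lt_of_le hr0 hr
  have a1 : 1 ≤ w0 := by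
    rw [hw0]
    have := mul_nonneg hr0.le (by linarith : (0:ℝ) ≤ 1 + κ)
    linarith
  have a2 : w0 ≤ w1 := by
    rw [hw0, hw1]
    have := mul_le_mul_of_nonneg_right hr (by linarith : (0:ℝ) ≤ 1 + κ)
    linarith
  have hs2 : s ^ 2 ≤ s1 ^ 2 := by nlinarith
  have hW0 : 0 ≤ W := by rw [hW]; positivity
  have hWw : W ≤ s ^ 2 * w0 := by
    rw [hW, hw0]
    have := mul_le_mul_of_nonneg_left hκ hr0.le
    linarith
  have hww : s ^ 2 * w0 ≤ s1 ^ 2 * w1 := by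
    have := mul_le_mul hs2 a2 (by linarith) (sq_nonneg s1)
    linarith
  refine ⟨by linarith, e, he, ?_, ?_⟩
  · have b1 : 1 / (1 + κ) ≤ s ^ 2 / (S ^ 2 + s ^ 2) := by
      rw [div_le_div_iff₀ (by positivity) (by positivity)]
      linarith
    have b2 : 0 ≤ 1 / (1 + κ) := by positivity
    have b3 : (1 / (1 + κ)) / 5 + 3 / 35 * (1 / (1 + κ)) ^ 2 + (1 / (1 + κ)) ^ 3 / 21 ≤
        s ^ 2 / (S ^ 2 + s ^ 2) / 5 + 3 / 35 * (s ^ 2 / (S ^ 2 + s ^ 2)) ^ 2 +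
        (s ^ 2 / (S ^ 2 + s ^ 2)) ^ 3 / 21 := by gcongr
    have b4 : e * (1 + s ^ 2 / 10) ≤ e * (1 + s1 ^ 2 / 10) := by gcongr
    linarith
  have e1 : W ^ 3 * (1 + W / 10 + 11 / 100 * W ^ 2) ^ 2 ≤
      (s ^ 2 * w0) ^ 3 * (1 + (s ^ 2 * w0) / 10 + 11 / 100 * (s ^ 2 * w0) ^ 2) ^ 2 := by
    gcongr
  refine e1.trans ?_
  set c1 := 1 + r1 * (1 + κ) * s1 ^ 2 / 10 + 11 / 100 * w1 ^ 2 * s1 ^ 4 with hc1
  have c0 : 1 ≤ c1 := by
    rw [hc1]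
    have : 0 ≤ r1 * (1 + κ) * s1 ^ 2 / 10 := by positivity
    have : 0 ≤ 11 / 100 * w1 ^ 2 * s1 ^ 4 := by positivity
    linarith
  have e2 : 1 + (s ^ 2 * w0) / 10 + 11 / 100 * (s ^ 2 * w0) ^ 2 ≤ (1 + s ^ 2 / 10) * c1 := by
    have f1 : 1 + (s ^ 2 * w0) / 10 + 11 / 100 * (s ^ 2 * w0) ^ 2 ≤
        1 + s ^ 2 / 10 + ((w1 - 1) * s1 ^ 2 / 10 + 11 / 100 * (s1 ^ 2 * w1) ^ 2) := by
      have g1 : s ^ 2 * (w0 - 1) ≤ s1 ^ 2 * (w1 - 1) :=
        mul_le_mul hs2 (by linarith) (by linarith) (sq_nonneg s1)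
      have g2 : (s ^ 2 * w0) ^ 2 ≤ (s1 ^ 2 * w1) ^ 2 := by gcongr
      have g3 : s ^ 2 * w0 = s ^ 2 * (w0 - 1) + s ^ 2 := by ring
      have g4 : (w1 - 1) * s1 ^ 2 = s1 ^ 2 * (w1 - 1) := by ring
      rw [g4]
      linarith
    refine f1.trans ?_
    have f2 : c1 = 1 + ((w1 - 1) * s1 ^ 2 / 10 + 11 / 100 * (s1 ^ 2 * w1) ^ 2) := by
      rw [hc1, hw1]; ring
    rw [f2]
    have f3 : 0 ≤ (w1 - 1) * s1 ^ 2 / 10 + 11 / 100 * (s1 ^ 2 * w1) ^ 2 := by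
      rw [f2] at c0; linarith
    have f4 := mul_nonneg (by positivity : 0 ≤ s ^ 2 / 10) f3
    generalize (w1 - 1) * s1 ^ 2 / 10 + 11 / 100 * (s1 ^ 2 * w1) ^ 2 = X at f3 f4 ⊢
    have f5 : (1 + s ^ 2 / 10) * (1 + X) = 1 + s ^ 2 / 10 + X + s ^ 2 / 10 * X := by ring
    linarith
  have e3 : (s ^ 2 * w0) ^ 3 * (1 + (s ^ 2 * w0) / 10 + 11 / 100 * (s ^ 2 * w0) ^ 2) ^ 2 ≤
      (s ^ 2 * w0) ^ 3 * ((1 + s ^ 2 / 10) * c1) ^ 2 := by
    have : 0 ≤ 1 + (s ^ 2 * w0) / 10 + 11 / 100 * (s ^ 2 * w0) ^ 2 := by positivity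
    gcongr
  refine e3.trans ?_
  have e4 : w0 ^ 3 * c1 ^ 2 ≤ ((1 + r) * (2 + e / r)) ^ 2 := by
    have g1 : w0 * (1 + r1) ≤ w1 * (1 + r) := by
      have : w1 * (1 + r) - w0 * (1 + r1) = κ * (r1 - r) := by rw [hw0, hw1]; ring
      have : 0 ≤ κ * (r1 - r) := mul_nonneg hκ0 (by linarith)
      linarith
    have g2 : w0 ^ 3 * (1 + r1) ^ 2 ≤ w1 ^ 3 * (1 + r) ^ 2 := by
      have : (w0 * (1 + r1)) ^ 2 ≤ (w1 * (1 + r)) ^ 2 := by
        have : 0 ≤ w0 * (1 + r1) := by positivity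
        gcongr
      have := mul_le_mul a2 this (sq_nonneg _) (by linarith)
      calc w0 ^ 3 * (1 + r1) ^ 2 = w0 * (w0 * (1 + r1)) ^ 2 := by ring
        _ ≤ w1 * (w1 * (1 + r)) ^ 2 := this
        _ = w1 ^ 3 * (1 + r) ^ 2 := by ring
    have g4 : e / r1 ≤ e / r := by gcongr
    have g5 : (2 + e / r1) ^ 2 ≤ (2 + e / r) ^ 2 := by
      have : 0 ≤ e / r1 := by positivity
      gcongr
    have g3 : w0 ^ 3 * c1 ^ 2 * (1 + r1) ^ 2 ≤ ((1 + r) * (2 + e / r)) ^ 2 * (1 + r1) ^ 2 := by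
      have i1 := mul_le_mul_of_nonneg_right g2 (sq_nonneg c1)
      have i2 := mul_le_mul_of_nonneg_right h1 (sq_nonneg (1 + r))
      calc w0 ^ 3 * c1 ^ 2 * (1 + r1) ^ 2 = w0 ^ 3 * (1 + r1) ^ 2 * c1 ^ 2 := by ring
        _ ≤ w1 ^ 3 * (1 + r) ^ 2 * c1 ^ 2 := i1
        _ = w1 ^ 3 * c1 ^ 2 * (1 + r) ^ 2 := by ring
        _ ≤ (1 + r1) ^ 2 * (2 + e / r1) ^ 2 * (1 + r) ^ 2 := i2
        _ ≤ (1 + r1) ^ 2 * (2 + e / r) ^ 2 * (1 + r) ^ 2 := by gcongr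
        _ = ((1 + r) * (2 + e / r)) ^ 2 * (1 + r1) ^ 2 := by ring
    exact le_of_mul_le_mul_right g3 (by positivity)
  have e5 := mul_le_mul_of_nonneg_left e4 (by positivity : 0 ≤ s ^ 6 * (1 + s ^ 2 / 10) ^ 2)
  calc (s ^ 2 * w0) ^ 3 * ((1 + s ^ 2 / 10) * c1) ^ 2 =
      s ^ 6 * (1 + s ^ 2 / 10) ^ 2 * (w0 ^ 3 * c1 ^ 2) := by ring
    _ ≤ s ^ 6 * (1 + s ^ 2 / 10) ^ 2 * ((1 + r) * (2 + e / r)) ^ 2 := e5
    _ = ((1 + r) * (2 + e / r)) ^ 2 * s ^ 6 * (1 + s ^ 2 / 10) ^ 2 := by ring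

private theorem inv_le3 {S S0 : ℝ} (h0 : 0 ≤ S0) (h : S0 ≤ S) :
    1 / (1 + 2 * S) ^ 2 ≤ 1 / (1 + 2 * S0) ^ 2 := by
  apply one_div_le_one_div_of_le (by positivity)
  gcongr

private theorem c3 {S s r : ℝ} (S0 S1 s1 κ r1 e : ℝ) (u0 : S0 ≤ S) (u1 : S ≤ S1)
    (t1 : s ≤ s1) (hS : 0 < S) (hs : 0 < s) (hκ : S ^ 2 ≤ κ * s ^ 2)
    (hr0 : 0 < r) (hr : r ≤ 1 / (1 + 2 * S) ^ 2 + 12 / 5 * (S ^ 2 + s ^ 2)) (h0 : 0 ≤ S0)
    (he : 0 ≤ e) (h4 : 1 / (1 + 2 * S0) ^ 2 + 12 / 5 * (S1 ^ 2 + s1 ^ 2) ≤ r1)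
    (he1 : e * (1 + s1 ^ 2 / 10) ≤ (1 / (1 + κ)) / 5 + 3 / 35 * (1 / (1 + κ)) ^ 2 +
      (1 / (1 + κ)) ^ 3 / 21)
    (h1 : (1 + r1 * (1 + κ)) ^ 3 * (1 + r1 * (1 + κ) * s1 ^ 2 / 10 +
      11 / 100 * (1 + r1 * (1 + κ)) ^ 2 * s1 ^ 4) ^ 2 ≤ (1 + r1) ^ 2 * (2 + e / r1) ^ 2)
    (h2 : (1 + r1 * (1 + κ)) * s1 ^ 2 ≤ 7921 / 10000) : Qc S s r := by
  have hκ0 : 0 ≤ κ := by
    by_contra h
    have h := not_le.1 h
    nlinarith [mul_pos hs hs, mul_pos hS hS, mul_neg_of_neg_of_pos h (mul_pos hs hs)]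
  refine bx3 κ r1 s1 e hs t1 hr0 ?_ hκ0 hκ he he1 h1 h2
  have := inv_le3 h0 u0
  have a1 : S ^ 2 ≤ S1 ^ 2 := by nlinarith
  have a2 : s ^ 2 ≤ s1 ^ 2 := by nlinarith
  linarith

private theorem kA {S s : ℝ} (S1 s0 κ : ℝ) (hS : 0 < S) (u1 : S ≤ S1) (t0 : s0 ≤ s)
    (h0 : 0 ≤ s0) (hκ : 0 ≤ κ) (h : S1 ^ 2 ≤ κ * s0 ^ 2) : S ^ 2 ≤ κ * s ^ 2 := by
  have a1 : S ^ 2 ≤ S1 ^ 2 := by nlinarith
  have a2 : s0 ^ 2 ≤ s ^ 2 := by nlinarith
  nlinarith [mul_le_mul_of_nonneg_left a2 hκ]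

private theorem kB3 {S s : ℝ} (s1 κ : ℝ) (hs : 0 < s) (t1 : s ≤ s1)
    (hk : S ^ 2 * (25 - 41 * s ^ 2) ≤ 16 * s ^ 2) (h1 : 0 < 25 - 41 * s1 ^ 2)
    (h : 16 ≤ κ * (25 - 41 * s1 ^ 2)) : S ^ 2 ≤ κ * s ^ 2 := by
  have a2 : s ^ 2 ≤ s1 ^ 2 := by nlinarith
  have a4 : 0 < 25 - 41 * s ^ 2 := by linarith
  have hκ : 0 ≤ κ := by
    by_contra hh
    have hh := not_le.1 hh
    nlinarith [mul_neg_of_neg_of_pos hh h1]
  refine le_of_mul_le_mul_right ?_ a4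
  have a5 : 16 ≤ κ * (25 - 41 * s ^ 2) := by
    have := mul_le_mul_of_nonneg_left (by linarith : 25 - 41 * s1 ^ 2 ≤ 25 - 41 * s ^ 2) hκ
    linarith
  nlinarith [mul_le_mul_of_nonneg_left a5 (sq_nonneg s)]

private theorem reg3 {S s r : ℝ} (hS : 0 < S) (hS1 : S ≤ 1007 / 5000) (hs : 0 < s)
    (hs1 : s ≤ 541 / 1000) (hk : S ^ 2 * (25 - 41 * s ^ 2) ≤ 16 * s ^ 2)
    (hr0 : 0 < r) (hr : r ≤ 1 / (1 + 2 * S) ^ 2 + 12 / 5 * (S ^ 2 + s ^ 2)) : Qc S s r := by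
  rcases le_or_gt s (15 / 100) with h | h
  · have a2 : s ^ 2 ≤ (15 / 100) ^ 2 := by gcongr
    norm_num at a2
    rcases le_or_gt (3 / 10 * s ^ 2) (S ^ 2) with hk3 | hk3
    · -- `S >= .54 s`
      have hSs : 54 / 100 * s ≤ S := by
        by_contra hh
        have hh := not_le.1 hh
        nlinarith
      have hrg : ∀ S0 s1 : ℝ, 0 ≤ S0 → S0 ≤ S → s ≤ s1 → ∀ κ : ℝ, S ^ 2 ≤ κ * s ^ 2 → 0 ≤ κ →
          r ≤ 1 / (1 + 2 * S0) ^ 2 + 12 / 5 * (κ + 1) * s1 ^ 2 := by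
        intro S0 s1 g0 g1 g2 κ g3 g4
        have f1 := inv_le3 g0 g1
        have f2 : s ^ 2 ≤ s1 ^ 2 := by nlinarith
        have f3 : S ^ 2 + s ^ 2 ≤ (κ + 1) * s1 ^ 2 := by
          have : (κ + 1) * s ^ 2 ≤ (κ + 1) * s1 ^ 2 := by gcongr
          linarith
        linarith
      rcases le_or_gt s (3 / 100) with h3 | h3
      · have hκ := kB3 (3 / 100) (12819 / 20000) hs h3 hk (by norm_num) (by norm_num)
        refine bx3 (12819 / 20000) 1 (3 / 100) (411 / 2500) hs h3 hr0 ?_ (by norm_num) hκ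
          (by norm_num) (by norm_num) (by norm_num) (by norm_num)
        have a1 : 1 / (1 + 2 * S) ^ 2 ≤ 1 - 104 / 10 * S ^ 2 := by
          rw [div_le_iff₀ (by positivity)]
          have : (1 - 104 / 10 * S ^ 2) * (1 + 2 * S) ^ 2 =
            1 + S * (4 - 64 / 10 * S - 416 / 10 * S ^ 2 - 416 / 10 * S ^ 3) := by ring
          rw [this]
          have : 0 ≤ 4 - 64 / 10 * S - 416 / 10 * S ^ 2 - 416 / 10 * S ^ 3 := by
            have b1 : S ^ 2 ≤ (1007 / 5000) ^ 2 := by gcongr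
            have b2 : S ^ 3 ≤ (1007 / 5000) ^ 3 := by gcongr
            norm_num at b1 b2
            linarith
          nlinarith [mul_nonneg hS.le this]
        linarith
      rcases le_or_gt s (6 / 100) with h6 | h6
      · have hκ := kB3 (6 / 100) (64381 / 100000) hs h6 hk (by norm_num) (by norm_num)
        refine bx3 (64381 / 100000) (381 / 400) (6 / 100) (41 / 250) hs h6 hr0 ?_ (by norm_num) hκ
          (by norm_num) (by norm_num) (by norm_num) (by norm_num)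
        refine (hrg (54 / 100 * (3 / 100)) (6 / 100) (by norm_num) (by linarith) h6 _ hκ
          (by norm_num)).trans ?_
        norm_num
      rcases le_or_gt s (1 / 10) with h10 | h10
      · have hκ := kB3 (1 / 10) (16267 / 25000) hs h10 hk (by norm_num) (by norm_num)
        refine bx3 (16267 / 25000) (9217 / 10000) (1 / 10) (163 / 1000) hs h10 hr0 ?_
          (by norm_num) hκ (by norm_num) (by norm_num) (by norm_num) (by norm_num)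
        refine (hrg (54 / 100 * (6 / 100)) (1 / 10) (by norm_num) (by linarith) h10 _ hκ
          (by norm_num)).trans ?_
        norm_num
      · have hκ := kB3 (15 / 100) (66453 / 100000) hs h hk (by norm_num) (by norm_num)
        refine bx3 (66453 / 100000) (1809 / 2000) (15 / 100) (161 / 1000) hs h hr0 ?_
          (by norm_num) hκ (by norm_num) (by norm_num) (by norm_num) (by norm_num)
        refine (hrg (54 / 100 * (1 / 10)) (15 / 100) (by norm_num) (by linarith) h _ hκ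
          (by norm_num)).trans ?_
        norm_num
    · refine bx3 (3 / 10) (1054 / 1000) (15 / 100) 0 hs h hr0 ?_ (by norm_num) hk3.le
        le_rfl (by norm_num) (by norm_num) (by norm_num)
      have a1 : 1 / (1 + 2 * S) ^ 2 ≤ 1 - 12 / 5 * S ^ 2 := by
        rw [div_le_iff₀ (by positivity)]
        have : (1 - 12 / 5 * S ^ 2) * (1 + 2 * S) ^ 2 =
          1 + S * (4 + 8 / 5 * S - 48 / 5 * S ^ 2 - 48 / 5 * S ^ 3) := by ring
        rw [this]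
        have : 0 ≤ 4 + 8 / 5 * S - 48 / 5 * S ^ 2 - 48 / 5 * S ^ 3 := by
          have b1 : S ^ 2 ≤ (1007 / 5000) ^ 2 := by gcongr
          have b2 : S ^ 3 ≤ (1007 / 5000) ^ 3 := by gcongr
          norm_num at b1 b2
          linarith
        nlinarith [mul_nonneg hS.le this]
      linarith
  have hs0 : 3 / 20 ≤ s := by norm_num at h; linarith
  have hS0 : 0 ≤ S := hS.le
  have t1 : s ≤ 541 / 1000 := hs1
  rcases le_or_gt (193 / 500) s with t0 | t0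
  · have u1 : S ≤ 1007 / 5000 := hS1
    rcases le_or_gt (9 / 50) S with u0 | u0
    · exact c3 (9 / 50) (1007 / 5000) (541 / 1000) (2723 / 10000) (2681 / 2000) (1133 / 5000) u0 u1 t1 hS hs
          (kA (1007 / 5000) (193 / 500) (2723 / 10000) hS u1 t0 (by norm_num) (by norm_num) (by norm_num))
          hr0 hr (by norm_num) (by norm_num) (by norm_num) (by norm_num) (by norm_num) (by norm_num)
    replace u1 := u0.le
    rcases le_or_gt (27 / 200) S with u0 | u0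
    · exact c3 (27 / 200) (9 / 50) (541 / 1000) (87 / 400) (7001 / 5000) (1207 / 5000) u0 u1 t1 hS hs
          (kA (9 / 50) (193 / 500) (87 / 400) hS u1 t0 (by norm_num) (by norm_num) (by norm_num))
          hr0 hr (by norm_num) (by norm_num) (by norm_num) (by norm_num) (by norm_num) (by norm_num)
    replace u1 := u0.le
    rcases le_or_gt (69 / 1000) S with u0 | u0
    · exact c3 (69 / 1000) (27 / 200) (541 / 1000) (153 / 1250) (949 / 625) (2719 / 10000) u0 u1 t1 hS hs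
          (kA (27 / 200) (193 / 500) (153 / 1250) hS u1 t0 (by norm_num) (by norm_num) (by norm_num))
          hr0 hr (by norm_num) (by norm_num) (by norm_num) (by norm_num) (by norm_num) (by norm_num)
    replace u1 := u0.le
    rcases le_or_gt (2 / 125) S with u0 | u0
    · exact c3 (2 / 125) (69 / 1000) (541 / 1000) (4 / 125) (16529 / 10000) (617 / 2000) u0 u1 t1 hS hs
          (kA (69 / 1000) (193 / 500) (4 / 125) hS u1 t0 (by norm_num) (by norm_num) (by norm_num))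
          hr0 hr (by norm_num) (by norm_num) (by norm_num) (by norm_num) (by norm_num) (by norm_num)
    replace u1 := u0.le
    have u0 : 0 ≤ S := hS0
    exact c3 (0) (2 / 125) (541 / 1000) (9 / 5000) (17031 / 10000) (3229 / 10000) u0 u1 t1 hS hs
          (kA (2 / 125) (193 / 500) (9 / 5000) hS u1 t0 (by norm_num) (by norm_num) (by norm_num))
          hr0 hr (by norm_num) (by norm_num) (by norm_num) (by norm_num) (by norm_num) (by norm_num)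
  replace t1 := t0.le
  rcases le_or_gt (271 / 1000) s with t0 | t0
  · have u1 : S ≤ 1007 / 5000 := hS1
    rcases le_or_gt (149 / 1000) S with u0 | u0
    · exact c3 (149 / 1000) (1007 / 5000) (193 / 500) (1381 / 2500) (2097 / 2000) (349 / 2000) u0 u1 t1 hS hs
          (kA (1007 / 5000) (271 / 1000) (1381 / 2500) hS u1 t0 (by norm_num) (by norm_num) (by norm_num))
          hr0 hr (by norm_num) (by norm_num) (by norm_num) (by norm_num) (by norm_num) (by norm_num)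
    replace u1 := u0.le
    have u0 : 0 ≤ S := hS0
    exact c3 (0) (149 / 1000) (193 / 500) (3023 / 10000) (14109 / 10000) (2223 / 10000) u0 u1 t1 hS hs
          (kA (149 / 1000) (271 / 1000) (3023 / 10000) hS u1 t0 (by norm_num) (by norm_num) (by norm_num))
          hr0 hr (by norm_num) (by norm_num) (by norm_num) (by norm_num) (by norm_num) (by norm_num)
  replace t1 := t0.le
  rcases le_or_gt (161 / 1000) s with t0 | t0
  · have u1 : S ≤ 1007 / 5000 := hS1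
    rcases le_or_gt (137 / 1000) S with u0 | u0
    · exact c3 (137 / 1000) (1007 / 5000) (271 / 1000) (7277 / 10000) (4449 / 5000) (61 / 400) u0 u1 t1 hS hs
          (kB3 (271 / 1000) (7277 / 10000) hs t1 hk (by norm_num) (by norm_num))
          hr0 hr (by norm_num) (by norm_num) (by norm_num) (by norm_num) (by norm_num) (by norm_num)
    replace u1 := u0.le
    rcases le_or_gt (11 / 100) S with u0 | u0
    · exact c3 (11 / 100) (137 / 1000) (271 / 1000) (7241 / 10000) (2233 / 2500) (153 / 1000) u0 u1 t1 hS hs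
          (kA (137 / 1000) (161 / 1000) (7241 / 10000) hS u1 t0 (by norm_num) (by norm_num) (by norm_num))
          hr0 hr (by norm_num) (by norm_num) (by norm_num) (by norm_num) (by norm_num) (by norm_num)
    replace u1 := u0.le
    have u0 : 0 ≤ S := hS0
    exact c3 (0) (11 / 100) (271 / 1000) (4669 / 10000) (12053 / 10000) (949 / 5000) u0 u1 t1 hS hs
          (kA (11 / 100) (161 / 1000) (4669 / 10000) hS u1 t0 (by norm_num) (by norm_num) (by norm_num))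
          hr0 hr (by norm_num) (by norm_num) (by norm_num) (by norm_num) (by norm_num) (by norm_num)
  replace t1 := t0.le
  have t0 : 3 / 20 ≤ s := hs0
  have u1 : S ≤ 1007 / 5000 := hS1
  rcases le_or_gt (11 / 200) S with u0 | u0
  · exact c3 (11 / 200) (1007 / 5000) (161 / 1000) (1337 / 2000) (607 / 625) (401 / 2500) u0 u1 t1 hS hs
        (kB3 (161 / 1000) (1337 / 2000) hs t1 hk (by norm_num) (by norm_num))
        hr0 hr (by norm_num) (by norm_num) (by norm_num) (by norm_num) (by norm_num) (by norm_num)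
  replace u1 := u0.le
  have u0 : 0 ≤ S := hS0
  exact c3 (0) (11 / 200) (161 / 1000) (269 / 2000) (2139 / 2000) (2747 / 10000) u0 u1 t1 hS hs
        (kA (11 / 200) (3 / 20) (269 / 2000) hS u1 t0 (by norm_num) (by norm_num) (by norm_num))
        hr0 hr (by norm_num) (by norm_num) (by norm_num) (by norm_num) (by norm_num) (by norm_num)

private theorem s_le3 {γ : ℝ} (hg0 : 0 < γ) (hg : γ ≤ π / 2 - 1) : Real.sin γ ≤ 541 / 1000 := by
  have h1 : Real.sin γ ≤ Real.sin (π / 2 - 1) :=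
    Real.sin_le_sin_of_le_of_le_pi_div_two (by linarith [Real.pi_pos]) (by linarith) hg
  rw [Real.sin_pi_div_two_sub] at h1
  have h2 : Real.cos 1 = 2 * Real.cos (1 / 2) ^ 2 - 1 := by
    rw [← Real.cos_two_mul]; norm_num
  have h3 : Real.cos (1 / 2) = 2 * Real.cos (1 / 4) ^ 2 - 1 := by
    rw [← Real.cos_two_mul]; norm_num
  have h4 := Real.cos_bound (x := 1 / 4) (by rw [abs_of_pos] <;> norm_num)
  rw [abs_le] at h4
  have h5 : |(1 / 4 : ℝ)| = 1 / 4 := abs_of_pos (by norm_num)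
  rw [h5] at h4
  have h6 := h4.2
  norm_num at h6
  have h7 : 0 ≤ Real.cos (1 / 4) := Real.cos_nonneg_of_mem_Icc
    ⟨by linarith [Real.pi_gt_three], by linarith [Real.pi_gt_three]⟩
  have h8 : 0 ≤ Real.cos (1 / 2) := Real.cos_nonneg_of_mem_Icc
    ⟨by linarith [Real.pi_gt_three], by linarith [Real.pi_gt_three]⟩
  have h9 : Real.cos (1 / 4) ≤ 9689535 / 10000000 := by linarith
  have h10 : Real.cos (1 / 2) ≤ 8777418 / 10000000 := by
    rw [h3]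
    nlinarith
  have h11 : Real.cos 1 ≤ 541 / 1000 := by
    rw [h2]
    nlinarith
  linarith

private theorem concl3 {S s r γ : ℝ} (hγ0 : 0 < γ) (hγ1 : γ ≤ π / 2) (hs : s = Real.sin γ)
    (hs0 : 0 < s) (hr : 0 < r) (h : Qc S s r) :
    (1 + r) * s ^ 2 + r * S ^ 2 ≤ 1 ∧ ∀ v, 0 ≤ v → v ≤ π / 2 →
      Real.sin v ^ 2 = (1 + r) * s ^ 2 + r * S ^ 2 → 2 / (1 + r) * rh v ≤ 4 * rh γ +
      (16 / 15 * s ^ 5 / (S ^ 2 + s ^ 2) + 16 / 35 * s ^ 7 / (S ^ 2 + s ^ 2) ^ 2 +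
      16 / 63 * s ^ 9 / (S ^ 2 + s ^ 2) ^ 3) / r := by
  obtain ⟨h1, e, he0, he1, h2⟩ := h
  refine ⟨by linarith, fun v hv0 hv1 hv => ?_⟩
  rw [← hv] at h1 h2
  have ha : 0 ≤ Real.sin v := Real.sin_nonneg_of_nonneg_of_le_pi hv0 (by linarith [Real.pi_pos])
  set a := Real.sin v with haa
  have ha1 : a ≤ 89 / 100 := by
    by_contra hh
    have hh := not_le.1 hh
    nlinarith
  have e1 := rh_up hv0 hv1 ha1
  have e2 := rh_lo hγ0.le hγ1
  rw [← haa] at e1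
  rw [← hs] at e2
  have e3 : a ^ 3 * (1 + a ^ 2 / 10 + 11 / 100 * (a ^ 2) ^ 2) ≤
      (1 + r) * (2 + e / r) * s ^ 3 * (1 + s ^ 2 / 10) := by
    apply le_of_sq_le_sq _ (by positivity)
    calc (a ^ 3 * (1 + a ^ 2 / 10 + 11 / 100 * (a ^ 2) ^ 2)) ^ 2 =
        (a ^ 2) ^ 3 * (1 + a ^ 2 / 10 + 11 / 100 * (a ^ 2) ^ 2) ^ 2 := by ring
      _ ≤ ((1 + r) * (2 + e / r)) ^ 2 * s ^ 6 * (1 + s ^ 2 / 10) ^ 2 := h2
      _ = ((1 + r) * (2 + e / r) * s ^ 3 * (1 + s ^ 2 / 10)) ^ 2 := by ring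
  have hr1 : 0 < 1 + r := by linarith
  have e4 : 2 / (1 + r) * rh v ≤ 16 / 3 * ((2 + e / r) * s ^ 3 * (1 + s ^ 2 / 10)) := by
    calc 2 / (1 + r) * rh v ≤ 2 / (1 + r) * (8 / 3 * (a ^ 3 + a ^ 5 / 10 + 11 / 100 * a ^ 7)) := by
          gcongr
      _ = 2 / (1 + r) * (8 / 3 * (a ^ 3 * (1 + a ^ 2 / 10 + 11 / 100 * (a ^ 2) ^ 2))) := by ring
      _ ≤ 2 / (1 + r) * (8 / 3 * ((1 + r) * (2 + e / r) * s ^ 3 * (1 + s ^ 2 / 10))) := by gcongr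
      _ = 16 / 3 * ((2 + e / r) * s ^ 3 * (1 + s ^ 2 / 10)) := by
          field_simp
          ring
  have e5 : 16 / 3 * ((2 + e / r) * s ^ 3 * (1 + s ^ 2 / 10)) =
      4 * (8 / 3 * (s ^ 3 + s ^ 5 / 10)) + 16 / 3 * s ^ 3 * (e * (1 + s ^ 2 / 10)) / r := by
    field_simp
    ring
  have hA : 0 < S ^ 2 + s ^ 2 := by positivity
  have e6 : 16 / 3 * s ^ 3 * (s ^ 2 / (S ^ 2 + s ^ 2) / 5 +
      3 / 35 * (s ^ 2 / (S ^ 2 + s ^ 2)) ^ 2 + (s ^ 2 / (S ^ 2 + s ^ 2)) ^ 3 / 21) =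
      16 / 15 * s ^ 5 / (S ^ 2 + s ^ 2) + 16 / 35 * s ^ 7 / (S ^ 2 + s ^ 2) ^ 2 +
      16 / 63 * s ^ 9 / (S ^ 2 + s ^ 2) ^ 3 := by
    field_simp
    ring
  have e7 : 16 / 3 * s ^ 3 * (e * (1 + s ^ 2 / 10)) / r ≤
      (16 / 15 * s ^ 5 / (S ^ 2 + s ^ 2) + 16 / 35 * s ^ 7 / (S ^ 2 + s ^ 2) ^ 2 +
      16 / 63 * s ^ 9 / (S ^ 2 + s ^ 2) ^ 3) / r := by
    rw [← e6]
    gcongr
  linarith

theorem lgn3 {t γ ε : ℝ} (ht0 : 0 < t) (ht : t ≤ 1 / 5) (hg0 : 0 < γ) (hg : γ ≤ π / 2 - 1)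
    (hk : 5 / 4 * Real.tanh t ≤ Real.tan γ) (he0 : 0 ≤ ε) (he1 : ε ≤ 1)
    (hA : π * (ε * (2 - ε) * Qe t * (2 - Qe t)) ≤
      4 * π * (Real.sinh t ^ 2 + Real.sin γ ^ 2) - 4 * rh γ) :
    Rr t ε * Real.sin γ ^ 2 + (Rr t ε - 1) * Real.sinh t ^ 2 ≤ 1 ∧ ∀ v, 0 ≤ v → v ≤ π / 2 →
      Real.sin v ^ 2 = Rr t ε * Real.sin γ ^ 2 + (Rr t ε - 1) * Real.sinh t ^ 2 →
      2 / Rr t ε * rh v ≤ 4 * rh γ +
      (16 / 15 * Real.sin γ ^ 5 / (Real.sinh t ^ 2 + Real.sin γ ^ 2) +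
      16 / 35 * Real.sin γ ^ 7 / (Real.sinh t ^ 2 + Real.sin γ ^ 2) ^ 2 +
      16 / 63 * Real.sin γ ^ 9 / (Real.sinh t ^ 2 + Real.sin γ ^ 2) ^ 3) / (Rr t ε - 1) := by
  have hpi := Real.pi_pos
  obtain ⟨hS, hS1, hrle⟩ := lgr1 ht0 ht hg0 hg he0 he1 hA
  have hsp : 0 < Real.sin γ := Real.sin_pos_of_pos_of_lt_pi hg0 (by linarith)
  have hs1 := s_le3 hg0 hg
  have hγ2 : γ < π / 2 := by linarith
  have hcos : 0 < Real.cos γ := Real.cos_pos_of_mem_Ioo ⟨by linarith, hγ2⟩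
  have hC : 0 < Real.cosh t := Real.cosh_pos t
  have hk2 : Real.sinh t ^ 2 * (25 - 41 * Real.sin γ ^ 2) ≤ 16 * Real.sin γ ^ 2 := by
    rw [Real.tanh_eq_sinh_div_cosh, Real.tan_eq_sin_div_cos] at hk
    have k1 : 5 * (Real.sinh t * Real.cos γ) ≤ 4 * (Real.sin γ * Real.cosh t) := by
      rw [← mul_div_assoc, div_le_div_iff₀ hC hcos] at hk
      linarith
    have k2 : (5 * (Real.sinh t * Real.cos γ)) ^ 2 ≤ (4 * (Real.sin γ * Real.cosh t)) ^ 2 := by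
      gcongr
    have k3 : Real.cos γ ^ 2 = 1 - Real.sin γ ^ 2 := by
      have := Real.sin_sq_add_cos_sq γ
      linarith
    have k4 : Real.cosh t ^ 2 = 1 + Real.sinh t ^ 2 := by
      have := Real.cosh_sq t
      linarith
    have k5 : (5 * (Real.sinh t * Real.cos γ)) ^ 2 = 25 * Real.sinh t ^ 2 * Real.cos γ ^ 2 := by
      ring
    have k6 : (4 * (Real.sin γ * Real.cosh t)) ^ 2 = 16 * Real.sin γ ^ 2 * Real.cosh t ^ 2 := by
      ring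
    rw [k5, k6, k3, k4] at k2
    linarith
  have hQ0 : 0 < Qe t := Real.exp_pos _
  have hQ1 : Qe t < 1 := by
    unfold Qe
    rw [Real.exp_lt_one_iff]
    linarith
  have hr0 : 0 < Rr t ε - 1 := by
    unfold Rr
    have a1 : 0 < 2 - ε := by linarith
    have a2 : 0 < 2 - Qe t := by linarith
    have : 0 < (2 * ε / (2 - ε) + Qe t) / (2 - Qe t) := by positivity
    linarith
  have key := concl3 hg0 hγ2.le rfl hsp hr0 (reg3 hS hS1 hsp hs1 hk2 hr0 hrle)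
  rw [add_sub_cancel] at key
  exact key

end Pool.Agent.H36.SZ
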