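import Pool.Agent.H36.SZ.LoD
import Pool.Agent.H36.SZ.Jen

/-!
# Low levels: convexity

PROOF of `Ph_lin`. Put `k s = s - x - x log (s / x)`, `ψ s = k s` for `s < x`, `0` for `s >= x`, so
`Ph x s = k s - ψ s` for `s > 0`, and `k y - k u = (y - u) - x (log y - log u)`. `ψ` is convex,
`ψ' u = 1 - x / u` for `u < x`: `ψ y >= ψ u - max 0 (x/u - 1) (y - u)`; cases: `u >= x`: `ψ y >= 0`
(`log r <= r - 1`). `u < x`, `y < x`: `k y - k u = (y - u) - x log (y/u) >= (y-u) - x (y/u - 1)`.
`u < x <= y`: `0 >= ψ u - (x/u - 1)(x - u)` (the previous case with `y = x`), and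
`(x/u - 1) (y - u) >= (x/u - 1) (x - u)`.
PROOF of `Ph_sq`. `ψ y >= 0` and `ψ u <= (x - u) (x/u - 1) / 2` for `u < x`: with `v = x/u > 1` it is
`v log v - v + 1 <= (v-1)^2 / 2` (`log v <= (v - 1/v)/2` for `v >= 1`, or derivative
`log v <= v - 1`).
PROOF of `Zf_lin`, `Zf_sq`: integrate over the circle with `y = yy F t θ > 0` a.e. (`Sg.zero_pt`),
`u = yy J t θ >= 4 sinh^2 t > 0`; `Sg.jen`, `int_logJ`, `x > 0`.
-/

open Complex MeasureTheory Set Filter Topology
open scoped ComplexConjugate Real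

namespace Pool.Agent.H36.SZ

variable {F : ℂ → ℂ} {b : ℕ → ℂ} {q : ℝ}

private theorem loc_log {v : ℝ} (hv : 1 ≤ v) : v * Real.log v ≤ (v ^ 2 - 1) / 2 := by
  have hv0 : 0 < v := by linarith
  have h1 : Real.log v ≤ Real.sinh (Real.log v) := Real.self_le_sinh_iff.2 (Real.log_nonneg hv)
  rw [Real.sinh_log hv0] at h1
  calc v * Real.log v ≤ v * ((v - v⁻¹) / 2) := mul_le_mul_of_nonneg_left h1 hv0.le
    _ = (v ^ 2 - 1) / 2 := by field_simp

private theorem loc_ge {x y u : ℝ} (hx : 0 < x) (hy : 0 < y) (hu : 0 < u) (h : x ≤ u) :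
    Ph x y - Ph x u ≤ (y - u) - x * (Real.log y - Real.log u) := by
  have h1 := Ph_tilde hx hy le_rfl
  rw [Ph_of_ge h]
  rw [Real.log_div hy.ne' hx.ne'] at h1
  rw [Real.log_div hu.ne' hx.ne']
  linarith

private theorem loc_int {F : ℂ → ℂ} {b : ℕ → ℂ} {q : ℝ} (h : Sg F b q) {t x : ℝ} (ht : 0 < t)
    (hx : 0 < x) {V : ℝ → ℝ} (hV : Continuous V)
    (hle : ∀ θ, 0 < yy F t θ → Ph x (yy F t θ) - Ph x (yy J t θ) ≤
      (yy F t θ - yy J t θ) + V θ - x * (Real.log (yy F t θ) - Real.log (yy J t θ))) :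
    Zf F t x - Zf J t x ≤ (∫ θ in (-π)..π, yy F t θ) - (∫ θ in (-π)..π, yy J t θ) +
      ∫ θ in (-π)..π, V θ := by
  have hpi : (-π : ℝ) ≤ π := by linarith [Real.pi_pos]
  obtain ⟨j1, j2⟩ := h.jen ht.le
  have hqt : q < Real.exp t := lt_of_lt_of_le h.q1 (Real.one_le_exp ht.le)
  have cF : Continuous (yy F t) := ((h.an.cGt hqt).norm).pow 2
  have cJ : Continuous (yy J t) := by
    have e : yy J t = fun θ => 4 * Real.sinh t ^ 2 + 4 * Real.cos θ ^ 2 := funext (yy_J t)
    rw [e]
    fun_prop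
  have hJ0 : ∀ θ, 0 < yy J t θ := fun θ => by
    have h1 := le_yy_J t θ
    have h2 : 0 < Real.sinh t := Real.sinh_pos_iff.2 ht
    have h3 : 0 < 4 * Real.sinh t ^ 2 := by positivity
    linarith
  have iF : IntervalIntegrable (yy F t) volume (-π) π := cF.intervalIntegrable _ _
  have iJ : IntervalIntegrable (yy J t) volume (-π) π := cJ.intervalIntegrable _ _
  have clJ : Continuous fun θ => Real.log (yy J t θ) := cJ.log fun θ => (hJ0 θ).ne'
  have ilJ : IntervalIntegrable (fun θ => Real.log (yy J t θ)) volume (-π) π :=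
    clJ.intervalIntegrable _ _
  have cPh : ∀ (f : ℝ → ℝ), Continuous f → (∀ θ, 0 ≤ f θ) → Continuous fun θ => Ph x (f θ) := by
    intro f hf hf0
    have h1 : Continuous fun θ => Ph |x| |f θ| := Ph_cont.comp (continuous_const.prodMk hf)
    have e : (fun θ => Ph |x| |f θ|) = fun θ => Ph x (f θ) := by
      funext θ
      rw [abs_of_pos hx, abs_of_nonneg (hf0 θ)]
    rwa [e] at h1
  have iPF := (cPh _ cF (fun θ => by unfold yy; positivity)).intervalIntegrable
    (μ := volume) (-π) π
  have iPJ := (cPh _ cJ (fun θ => (hJ0 θ).le)).intervalIntegrable (μ := volume) (-π) π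
  have iV : IntervalIntegrable V volume (-π) π := hV.intervalIntegrable _ _
  have a1 : IntervalIntegrable (fun θ => yy F t θ - yy J t θ) volume (-π) π := iF.sub iJ
  have a2 : IntervalIntegrable (fun θ => (yy F t θ - yy J t θ) + V θ) volume (-π) π := a1.add iV
  have a3 : IntervalIntegrable (fun θ => Real.log (yy F t θ) - Real.log (yy J t θ)) volume
    (-π) π := j1.sub ilJ
  have a4 : IntervalIntegrable (fun θ => (yy F t θ - yy J t θ) + V θ -
      x * (Real.log (yy F t θ) - Real.log (yy J t θ))) volume (-π) π := a2.sub (a3.const_mul x)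
  have e1 : ∫ θ in (-π)..π, ((yy F t θ - yy J t θ) + V θ -
      x * (Real.log (yy F t θ) - Real.log (yy J t θ))) =
      (∫ θ in (-π)..π, yy F t θ) - (∫ θ in (-π)..π, yy J t θ) + (∫ θ in (-π)..π, V θ) -
        x * ((∫ θ in (-π)..π, Real.log (yy F t θ)) - ∫ θ in (-π)..π, Real.log (yy J t θ)) := by
    rw [intervalIntegral.integral_sub a2 (a3.const_mul x), intervalIntegral.integral_add a1 iV,
      intervalIntegral.integral_sub iF iJ, intervalIntegral.integral_const_mul,
      intervalIntegral.integral_sub j1 ilJ]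
  have h2 : Zf F t x - Zf J t x ≤ ∫ θ in (-π)..π, ((yy F t θ - yy J t θ) + V θ -
      x * (Real.log (yy F t θ) - Real.log (yy J t θ))) := by
    unfold Zf
    rw [← intervalIntegral.integral_sub iPF iPJ]
    refine intervalIntegral.integral_mono_ae_restrict hpi (iPF.sub iPJ) a4 ?_
    have hz := h.zero_pt ht.le
    rw [← restrict_Ioc_eq_restrict_Icc]
    filter_upwards [hz] with θ hθ
    exact hle θ hθ
  rw [e1, int_logJ ht] at h2
  have h3 : 0 ≤ x * ((∫ θ in (-π)..π, Real.log (yy F t θ)) - 4 * π * t) :=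
    mul_nonneg hx.le (by linarith)
  linarith

theorem Ph_lin {x y u : ℝ} (hx : 0 < x) (hy : 0 < y) (hu : 0 < u) :
    Ph x y - Ph x u ≤ (y - u) + max 0 (x / u - 1) * (y - u) - x * (Real.log y - Real.log u) := by
  rcases le_or_gt x u with h | h
  · have h1 : max 0 (x / u - 1) = 0 := max_eq_left (by
      have := (div_le_one hu).2 h
      linarith)
    rw [h1, zero_mul, add_zero]
    exact loc_ge hx hy hu h
  · have h0 : 1 ≤ x / u := (one_le_div hu).2 h.le
    have h1 : max 0 (x / u - 1) = x / u - 1 := max_eq_right (by linarith)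
    rw [h1, Ph_of_le h.le, sub_zero]
    have hyu : 0 < y / u := div_pos hy hu
    have hlog : Real.log y - Real.log u = Real.log (y / u) := (Real.log_div hy.ne' hu.ne').symm
    rcases le_or_gt y x with h2 | h2
    · rw [Ph_of_le h2, hlog]
      have h3 := mul_le_mul_of_nonneg_left (Real.log_le_sub_one_of_pos hyu) hx.le
      have h4 : x * (y / u - 1) = (y - u) + (x / u - 1) * (y - u) := by field_simp; ring
      linarith
    · rw [Ph_of_ge h2.le, Real.log_div hy.ne' hx.ne']
      have hxu : 0 < x / u := div_pos hx hu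
      have h3 := Real.log_le_sub_one_of_pos hxu
      rw [Real.log_div hx.ne' hu.ne'] at h3
      have h4 : x * (Real.log x - Real.log u) ≤ y * (x / u - 1) :=
        (mul_le_mul_of_nonneg_left h3 hx.le).trans
          (mul_le_mul_of_nonneg_right h2.le (by linarith))
      have h5 : (y - u) + (x / u - 1) * (y - u) = y * (x / u - 1) + (y - x) := by
        field_simp; ring
      rw [h5]
      linarith

theorem Ph_sq {x y u : ℝ} (hx : 0 < x) (hy : 0 < y) (hu : 0 < u) :
    Ph x y - Ph x u ≤ (y - u) + max 0 (x - u) * max 0 (x / u - 1) / 2 -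
      x * (Real.log y - Real.log u) := by
  rcases le_or_gt x u with h | h
  · have h1 : max 0 (x - u) = 0 := max_eq_left (by linarith)
    rw [h1, zero_mul, zero_div, add_zero]
    exact loc_ge hx hy hu h
  · have h0 : 1 ≤ x / u := (one_le_div hu).2 h.le
    have h1 : max 0 (x / u - 1) = x / u - 1 := max_eq_right (by linarith)
    have h1' : max 0 (x - u) = x - u := max_eq_right (by linarith)
    rw [h1, h1', Ph_of_le h.le, sub_zero]
    have h2 := Ph_tilde hx hy le_rfl
    rw [Real.log_div hy.ne' hx.ne'] at h2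
    have h3 := mul_le_mul_of_nonneg_left (loc_log h0) hu.le
    rw [Real.log_div hx.ne' hu.ne'] at h3
    have h4 : u * (x / u * (Real.log x - Real.log u)) = x * (Real.log x - Real.log u) := by
      field_simp
    have h5 : u * (((x / u) ^ 2 - 1) / 2) = (x - u) + (x - u) * (x / u - 1) / 2 := by
      field_simp; ring
    rw [h4, h5] at h3
    linarith

theorem Sg.Zf_lin (h : Sg F b q) {t x : ℝ} (ht : 0 < t) (hx : 0 < x) :
    Zf F t x - Zf J t x ≤ (∫ θ in (-π)..π, yy F t θ) - (∫ θ in (-π)..π, yy J t θ) +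
      ∫ θ in (-π)..π, max 0 (x / yy J t θ - 1) * (yy F t θ - yy J t θ) := by
  have hJ0 : ∀ θ, 0 < yy J t θ := fun θ => by
    have h1 := le_yy_J t θ
    have h2 : 0 < Real.sinh t := Real.sinh_pos_iff.2 ht
    have h3 : 0 < 4 * Real.sinh t ^ 2 := by positivity
    linarith
  have hqt : q < Real.exp t := lt_of_lt_of_le h.q1 (Real.one_le_exp ht.le)
  have cF : Continuous (yy F t) := ((h.an.cGt hqt).norm).pow 2
  have cJ : Continuous (yy J t) := by
    have e : yy J t = fun θ => 4 * Real.sinh t ^ 2 + 4 * Real.cos θ ^ 2 := funext (yy_J t)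
    rw [e]
    fun_prop
  have cW : Continuous fun θ => max 0 (x / yy J t θ - 1) :=
    continuous_const.max ((continuous_const.div cJ fun θ => (hJ0 θ).ne').sub continuous_const)
  exact loc_int h ht hx (cW.mul (cF.sub cJ)) fun θ hθ => Ph_lin hx hθ (hJ0 θ)

theorem Sg.Zf_sq (h : Sg F b q) {t x : ℝ} (ht : 0 < t) (hx : 0 < x) :
    Zf F t x - Zf J t x ≤ (∫ θ in (-π)..π, yy F t θ) - (∫ θ in (-π)..π, yy J t θ) +
      (∫ θ in (-π)..π, max 0 (x - yy J t θ) * max 0 (x / yy J t θ - 1)) / 2 := by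
  have hJ0 : ∀ θ, 0 < yy J t θ := fun θ => by
    have h1 := le_yy_J t θ
    have h2 : 0 < Real.sinh t := Real.sinh_pos_iff.2 ht
    have h3 : 0 < 4 * Real.sinh t ^ 2 := by positivity
    linarith
  have cJ : Continuous (yy J t) := by
    have e : yy J t = fun θ => 4 * Real.sinh t ^ 2 + 4 * Real.cos θ ^ 2 := funext (yy_J t)
    rw [e]
    fun_prop
  have cW : Continuous fun θ => max 0 (x / yy J t θ - 1) :=
    continuous_const.max ((continuous_const.div cJ fun θ => (hJ0 θ).ne').sub continuous_const)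
  have cX : Continuous fun θ => max 0 (x - yy J t θ) :=
    continuous_const.max (continuous_const.sub cJ)
  have h1 := loc_int h ht hx ((cX.mul cW).div_const 2) fun θ hθ => Ph_sq hx hθ (hJ0 θ)
  rw [intervalIntegral.integral_div] at h1
  exact h1

end Pool.Agent.H36.SZ
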