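import Pool.Agent.H36.SZ.LoD
import Pool.Agent.H36.SZ.JF

/-!
# Low levels: two integrals

PROOFS. `yy J t θ = 2 (K - c)`, `K = cosh 2t`, `c = - cos 2θ`; both integrands increase with `x`, so
let `x = xd t = 2 (K - κ)`, `κ = 1/K`. Both are `π`-periodic, so the integral over `(-π, π)` is twice
the integral over `(0, π)`, and with `θ = π/2 + s`, `c = cos 2s`, over `s ∈ (-π/2, π/2)`. The
integrand vanishes for `cos 2s <= κ`, i.e. `|s| >= γ := arctan (tanh t)`
(`cos (2 arctan T) = (1 - T^2) / (1 + T^2) = 1 / cosh 2t` for `T = tanh t`), and on `(-γ, γ)` it is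
`(c - κ) / (K - c) = -1 + (K - κ) / (K - c)`, resp.
`2 (c - κ)^2 / (K - c) = 2 (- c - K + 2κ + (K - κ)^2 / (K - c))`.
`int_(-γ)^γ ds / (K - cos 2s) = π / (2 sinh 2t)`: primitive
`arctan (tan s / T) / sinh 2t` (`K - cos 2s = 2 (sinh^2 t + sin^2 s)`), and `tan γ = T`.
`int_(-γ)^γ cos 2s = sin 2γ = 2T / (1 + T^2) = tanh 2t`. `K - κ = sinh^2 2t / cosh 2t`.
-/

open Complex MeasureTheory Set Filter Topology
open scoped ComplexConjugate Real

namespace Pool.Agent.H36.SZ

private theorem li_yy (t θ : ℝ) : yy J t θ = 2 * (Real.cosh (2 * t) + Real.cos (2 * θ)) := by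
  rw [yy_J, Real.cos_two_mul, Real.cosh_two_mul, Real.cosh_sq]
  ring

private theorem li_K {t : ℝ} (ht : 0 < t) : 1 < Real.cosh (2 * t) :=
  Real.one_lt_cosh.2 (by positivity)

private theorem li_pos {t : ℝ} (ht : 0 < t) (θ : ℝ) : 0 < yy J t θ := by
  rw [li_yy]
  have h1 := li_K ht
  have h2 := Real.neg_one_le_cos (2 * θ)
  linarith

private theorem li_cont {t : ℝ} : Continuous fun θ : ℝ => yy J t θ := by
  simp only [li_yy]
  fun_prop

private theorem li_T {t : ℝ} (ht : 0 < t) : 0 < Real.tanh t ∧ Real.tanh t < 1 := by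
  constructor
  · rw [Real.tanh_eq_sinh_div_cosh]
    exact div_pos (Real.sinh_pos_iff.2 ht) (Real.cosh_pos t)
  · exact Real.tanh_lt_one t

private theorem li_gam {t : ℝ} (ht : 0 < t) :
    0 < Real.arctan (Real.tanh t) ∧ Real.arctan (Real.tanh t) < π / 2 := by
  refine ⟨?_, Real.arctan_lt_pi_div_two _⟩
  rw [← Real.arctan_zero]
  exact Real.arctan_strictMono (li_T ht).1

private theorem li_cos (t : ℝ) :
    Real.cos (2 * Real.arctan (Real.tanh t)) = 1 / Real.cosh (2 * t) := by
  have hc := Real.cosh_pos t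
  have h1 := Real.cosh_sq t
  have hK : 0 < Real.cosh (2 * t) := Real.cosh_pos _
  rw [Real.cos_two_mul, Real.cos_sq_arctan, Real.tanh_eq_sinh_div_cosh, Real.cosh_two_mul]
  have h2 : 0 < Real.cosh t ^ 2 + Real.sinh t ^ 2 := by positivity
  have h3 : 1 + (Real.sinh t / Real.cosh t) ^ 2 =
      (Real.cosh t ^ 2 + Real.sinh t ^ 2) / Real.cosh t ^ 2 := by
    field_simp
  rw [h3, one_div_div, eq_div_iff h2.ne', sub_mul, mul_assoc, div_mul_cancel₀ _ h2.ne']
  linarith

private theorem li_sin (t : ℝ) :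
    Real.sin (2 * Real.arctan (Real.tanh t)) = Real.sinh (2 * t) / Real.cosh (2 * t) := by
  have hc := Real.cosh_pos t
  have hK : 0 < Real.cosh (2 * t) := Real.cosh_pos _
  have h0 : Real.cos (Real.arctan (Real.tanh t)) ≠ 0 := (Real.cos_arctan_pos _).ne'
  have h1 : Real.sin (Real.arctan (Real.tanh t)) =
      Real.tanh t * Real.cos (Real.arctan (Real.tanh t)) := by
    have h2 := Real.tan_arctan (Real.tanh t)
    rw [Real.tan_eq_sin_div_cos, div_eq_iff h0] at h2
    exact h2
  rw [Real.sin_two_mul, h1]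
  have h3 : 2 * (Real.tanh t * Real.cos (Real.arctan (Real.tanh t))) *
      Real.cos (Real.arctan (Real.tanh t)) =
      2 * Real.tanh t * Real.cos (Real.arctan (Real.tanh t)) ^ 2 := by ring
  rw [h3, Real.cos_sq_arctan, Real.tanh_eq_sinh_div_cosh, Real.cosh_two_mul, Real.sinh_two_mul]
  have h4 : 0 < Real.cosh t ^ 2 + Real.sinh t ^ 2 := by positivity
  have h5 : 1 + (Real.sinh t / Real.cosh t) ^ 2 =
      (Real.cosh t ^ 2 + Real.sinh t ^ 2) / Real.cosh t ^ 2 := by
    field_simp
  rw [h5]
  field_simp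

/-- the integral over one dip -/
private theorem li_dip {t : ℝ} (ht : 0 < t) {Q R : ℝ → ℝ} (hQ : Continuous fun s : ℝ => Q (Real.cos s))
    (h0 : ∀ c, c ≤ 1 / Real.cosh (2 * t) → Q c = 0)
    (h1 : ∀ c, 1 / Real.cosh (2 * t) ≤ c → c ≤ 1 → Q c = R c) :
    ∫ θ in (-π)..π, Q (-Real.cos (2 * θ)) =
      2 * ∫ s in (-Real.arctan (Real.tanh t))..Real.arctan (Real.tanh t), R (Real.cos (2 * s)) := by
  obtain ⟨hg0, hg1⟩ := li_gam ht
  set γ := Real.arctan (Real.tanh t) with hγ
  have hcos : Real.cos (2 * γ) = 1 / Real.cosh (2 * t) := li_cos t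
  have hpi := Real.pi_pos
  have hcont : Continuous fun s : ℝ => Q (Real.cos (2 * s)) := hQ.comp (by fun_prop : Continuous fun s : ℝ => 2 * s)
  have hcont' : Continuous fun θ : ℝ => Q (-Real.cos (2 * θ)) := by
    have h2 : (fun θ : ℝ => Q (-Real.cos (2 * θ))) = fun θ : ℝ => Q (Real.cos (2 * θ - π)) := by
      funext θ
      rw [Real.cos_sub_pi]
    rw [h2]
    exact hQ.comp (by fun_prop : Continuous fun s : ℝ => 2 * s - π)
  have hper : Function.Periodic (fun θ : ℝ => Q (-Real.cos (2 * θ))) π := by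
    intro θ
    change Q (-Real.cos (2 * (θ + π))) = Q (-Real.cos (2 * θ))
    rw [show 2 * (θ + π) = 2 * θ + 2 * π by ring, Real.cos_add_two_pi]
  have e1 : ∫ θ in (-π)..π, Q (-Real.cos (2 * θ)) = 2 * ∫ θ in (0 : ℝ)..π, Q (-Real.cos (2 * θ)) := by
    rw [← intervalIntegral.integral_add_adjacent_intervals (b := 0)
      (hcont'.intervalIntegrable _ _) (hcont'.intervalIntegrable _ _)]
    have h2 := hper.intervalIntegral_add_eq (-π) 0
    rw [show -π + π = 0 by ring, zero_add] at h2
    rw [h2]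
    ring
  have e2 : ∫ θ in (0 : ℝ)..π, Q (-Real.cos (2 * θ)) =
      ∫ s in (-(π / 2))..(π / 2), Q (Real.cos (2 * s)) := by
    have h2 := intervalIntegral.integral_comp_add_right (a := -(π / 2)) (b := π / 2)
      (fun θ : ℝ => Q (-Real.cos (2 * θ))) (π / 2)
    rw [show -(π / 2) + π / 2 = 0 by ring, show π / 2 + π / 2 = π by ring] at h2
    rw [← h2]
    refine intervalIntegral.integral_congr fun s _ => ?_
    change Q (-Real.cos (2 * (s + π / 2))) = Q (Real.cos (2 * s))
    rw [show 2 * (s + π / 2) = 2 * s + π by ring, Real.cos_add_pi, neg_neg]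
  have z1 : ∫ s in (-(π / 2))..(-γ), Q (Real.cos (2 * s)) = 0 := by
    have h2 : ∫ s in (-(π / 2))..(-γ), Q (Real.cos (2 * s)) = ∫ s in (-(π / 2))..(-γ), (0 : ℝ) := by
      refine intervalIntegral.integral_congr fun s hs => ?_
      rw [uIcc_of_le (by linarith)] at hs
      refine h0 _ ?_
      rw [← hcos, ← Real.cos_neg]
      exact Real.cos_le_cos_of_nonneg_of_le_pi (by linarith) (by linarith [hs.1]) (by linarith [hs.2])
    rw [h2, intervalIntegral.integral_zero]
  have z2 : ∫ s in γ..(π / 2), Q (Real.cos (2 * s)) = 0 := by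
    have h2 : ∫ s in γ..(π / 2), Q (Real.cos (2 * s)) = ∫ s in γ..(π / 2), (0 : ℝ) := by
      refine intervalIntegral.integral_congr fun s hs => ?_
      rw [uIcc_of_le (by linarith)] at hs
      refine h0 _ ?_
      rw [← hcos]
      exact Real.cos_le_cos_of_nonneg_of_le_pi (by linarith) (by linarith [hs.2]) (by linarith [hs.1])
    rw [h2, intervalIntegral.integral_zero]
  have z3 : ∫ s in (-γ)..γ, Q (Real.cos (2 * s)) = ∫ s in (-γ)..γ, R (Real.cos (2 * s)) := by
    refine intervalIntegral.integral_congr fun s hs => ?_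
    rw [uIcc_of_le (by linarith)] at hs
    refine h1 _ ?_ (Real.cos_le_one _)
    rw [← hcos, ← Real.cos_abs (2 * s)]
    refine Real.cos_le_cos_of_nonneg_of_le_pi (abs_nonneg _) (by linarith) ?_
    rw [abs_le]
    constructor <;> linarith [hs.1, hs.2]
  rw [e1, e2, ← intervalIntegral.integral_add_adjacent_intervals (b := -γ)
    (hcont.intervalIntegrable _ _) (hcont.intervalIntegrable _ _),
    ← intervalIntegral.integral_add_adjacent_intervals (a := -γ) (b := γ)
    (hcont.intervalIntegrable _ _) (hcont.intervalIntegrable _ _), z1, z2, z3]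
  ring

/-- the integral of `1 / (K - cos 2s)` -/
private theorem li_int {t : ℝ} (ht : 0 < t) :
    ∫ s in (-Real.arctan (Real.tanh t))..Real.arctan (Real.tanh t),
      1 / (Real.cosh (2 * t) - Real.cos (2 * s)) = π / (2 * Real.sinh (2 * t)) := by
  obtain ⟨hg0, hg1⟩ := li_gam ht
  obtain ⟨hT0, hT1⟩ := li_T ht
  set γ := Real.arctan (Real.tanh t) with hγ
  set T := Real.tanh t with hT
  have hK := li_K ht
  have hs2 : 0 < Real.sinh (2 * t) := Real.sinh_pos_iff.2 (by positivity)
  have hsh : 0 < Real.sinh t := Real.sinh_pos_iff.2 ht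
  have hch := Real.cosh_pos t
  have hden : ∀ s : ℝ, 0 < Real.cosh (2 * t) - Real.cos (2 * s) := fun s => by
    have := Real.cos_le_one (2 * s)
    linarith
  have hder : ∀ s ∈ uIcc (-γ) γ, HasDerivAt (fun s => Real.arctan (Real.tan s / T) / Real.sinh (2 * t))
      (1 / (Real.cosh (2 * t) - Real.cos (2 * s))) s := by
    intro s hs
    rw [uIcc_of_le (by linarith)] at hs
    have hcs : 0 < Real.cos s := Real.cos_pos_of_mem_Ioo ⟨by linarith [hs.1], by linarith [hs.2]⟩
    have h1 := (((Real.hasDerivAt_tan hcs.ne').div_const T).arctan).div_const (Real.sinh (2 * t))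
    refine h1.congr_deriv ?_
    have h2 : Real.cosh (2 * t) - Real.cos (2 * s) = 2 * (Real.sinh t ^ 2 + Real.sin s ^ 2) := by
      rw [Real.cosh_two_mul, Real.cosh_sq, Real.cos_two_mul, Real.cos_sq']
      ring
    have h3 : 0 < Real.sinh t ^ 2 + Real.sin s ^ 2 := by positivity
    rw [h2, Real.tan_eq_sin_div_cos, Real.sinh_two_mul, hT, Real.tanh_eq_sinh_div_cosh]
    have h4 : 1 + (Real.sin s / Real.cos s / (Real.sinh t / Real.cosh t)) ^ 2 =
        (Real.sinh t ^ 2 + Real.sin s ^ 2) / (Real.cos s ^ 2 * Real.sinh t ^ 2) := by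
      have h5 := Real.cosh_sq t
      have h6 := Real.cos_sq' s
      field_simp
      rw [h5, h6]
      ring
    rw [h4]
    field_simp
  have hcont : Continuous fun s : ℝ => 1 / (Real.cosh (2 * t) - Real.cos (2 * s)) :=
    continuous_const.div (by fun_prop) fun s => (hden s).ne'
  rw [intervalIntegral.integral_eq_sub_of_hasDerivAt hder (hcont.intervalIntegrable _ _)]
  have h1 : Real.tan γ = T := Real.tan_arctan _
  have h2 : T / T = 1 := div_self hT0.ne'
  rw [Real.tan_neg, h1, neg_div, h2, Real.arctan_neg, Real.arctan_one]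
  field_simp
  ring

private theorem li_sub {t : ℝ} : Real.cosh (2 * t) - 1 / Real.cosh (2 * t) =
    Real.sinh (2 * t) ^ 2 / Real.cosh (2 * t) := by
  have hK : 0 < Real.cosh (2 * t) := Real.cosh_pos _
  rw [Real.sinh_sq]
  field_simp

theorem int_W {t x : ℝ} (ht : 0 < t) (hx : x ≤ xd t) :
    ∫ θ in (-π)..π, max 0 (x / yy J t θ - 1) ≤ 2 * Iw t := by
  have hpi := Real.pi_pos
  have hK := li_K ht
  have hK0 : 0 < Real.cosh (2 * t) := by linarith
  have hs2 : 0 < Real.sinh (2 * t) := Real.sinh_pos_iff.2 (by positivity)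
  have hc : ∀ x : ℝ, Continuous fun θ : ℝ => max 0 (x / yy J t θ - 1) := fun x =>
    continuous_const.max ((continuous_const.div li_cont fun θ => (li_pos ht θ).ne').sub
      continuous_const)
  have hmono : ∫ θ in (-π)..π, max 0 (x / yy J t θ - 1) ≤
      ∫ θ in (-π)..π, max 0 (xd t / yy J t θ - 1) := by
    refine intervalIntegral.integral_mono_on (by linarith) ((hc x).intervalIntegrable _ _)
      ((hc _).intervalIntegrable _ _) fun θ _ => ?_
    refine max_le_max (le_refl _) (sub_le_sub_right ?_ _)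
    exact div_le_div_of_nonneg_right hx (li_pos ht θ).le
  refine hmono.trans (le_of_eq ?_)
  set K := Real.cosh (2 * t) with hKd
  have hcd : Continuous fun s : ℝ => K - Real.cos s := by fun_prop
  have hd : ∀ s : ℝ, 0 < K - Real.cos s := fun s => by
    have := Real.cos_le_one s
    linarith
  have hQ : Continuous fun s : ℝ => max 0 ((K - 1 / K) / (K - Real.cos s) - 1) :=
    continuous_const.max ((continuous_const.div hcd fun s => (hd s).ne').sub continuous_const)
  have e1 : ∫ θ in (-π)..π, max 0 (xd t / yy J t θ - 1) =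
      ∫ θ in (-π)..π, (fun c : ℝ => max 0 ((K - 1 / K) / (K - c) - 1)) (-Real.cos (2 * θ)) := by
    refine intervalIntegral.integral_congr fun θ _ => ?_
    change max 0 (xd t / yy J t θ - 1) = max 0 ((K - 1 / K) / (K - -Real.cos (2 * θ)) - 1)
    rw [li_yy, xd, ← hKd, sub_neg_eq_add, mul_div_mul_left _ _ two_ne_zero]
  rw [e1, li_dip ht (Q := fun c : ℝ => max 0 ((K - 1 / K) / (K - c) - 1))
    (R := fun c : ℝ => (K - 1 / K) * (1 / (K - c)) - 1) hQ ?_ ?_]
  · congr 1
    have hden : ∀ s : ℝ, 0 < K - Real.cos (2 * s) := fun s => hd (2 * s)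
    have hcont : Continuous fun s : ℝ => 1 / (K - Real.cos (2 * s)) :=
      continuous_const.div (by fun_prop) fun s => (hden s).ne'
    rw [intervalIntegral.integral_sub ((hcont.intervalIntegrable _ _).const_mul _)
      (by simp), intervalIntegral.integral_const_mul, li_int ht, intervalIntegral.integral_const,
      Iw, li_sub, Real.tanh_eq_sinh_div_cosh (2 * t), smul_eq_mul]
    field_simp
    ring
  · intro c hc'
    refine max_eq_left ?_
    have h1 : 0 < K - c := by
      have : 1 / K < 1 := by rw [div_lt_one hK0]; exact hK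
      linarith
    have h2 : (K - 1 / K) / (K - c) ≤ 1 := by
      rw [div_le_one h1]
      linarith
    linarith
  · intro c hc' hc1
    have h1 : 0 < K - c := by linarith
    have h2 : 1 ≤ (K - 1 / K) / (K - c) := by
      rw [one_le_div h1]
      linarith
    change max 0 ((K - 1 / K) / (K - c) - 1) = (K - 1 / K) * (1 / (K - c)) - 1
    rw [max_eq_right (by linarith), mul_one_div]

theorem int_WX {t x : ℝ} (ht : 0 < t) (hx : x ≤ xd t) :
    ∫ θ in (-π)..π, max 0 (x - yy J t θ) * max 0 (x / yy J t θ - 1) ≤ 2 * Gw t := by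
  have hpi := Real.pi_pos
  have hK := li_K ht
  have hK0 : 0 < Real.cosh (2 * t) := by linarith
  have hs2 : 0 < Real.sinh (2 * t) := Real.sinh_pos_iff.2 (by positivity)
  have hc : ∀ x : ℝ, Continuous fun θ : ℝ => max 0 (x - yy J t θ) * max 0 (x / yy J t θ - 1) :=
    fun x => (continuous_const.max (continuous_const.sub li_cont)).mul
      (continuous_const.max ((continuous_const.div li_cont fun θ => (li_pos ht θ).ne').sub
        continuous_const))
  have hmono : ∫ θ in (-π)..π, max 0 (x - yy J t θ) * max 0 (x / yy J t θ - 1) ≤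
      ∫ θ in (-π)..π, max 0 (xd t - yy J t θ) * max 0 (xd t / yy J t θ - 1) := by
    refine intervalIntegral.integral_mono_on (by linarith) ((hc x).intervalIntegrable _ _)
      ((hc _).intervalIntegrable _ _) fun θ _ => ?_
    refine mul_le_mul (max_le_max (le_refl _) (sub_le_sub_right hx _))
      (max_le_max (le_refl _) (sub_le_sub_right ?_ _)) (le_max_left _ _) (le_max_left _ _)
    exact div_le_div_of_nonneg_right hx (li_pos ht θ).le
  refine hmono.trans (le_of_eq ?_)
  set K := Real.cosh (2 * t) with hKd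
  have hcd : Continuous fun s : ℝ => K - Real.cos s := by fun_prop
  have hd : ∀ s : ℝ, 0 < K - Real.cos s := fun s => by
    have := Real.cos_le_one s
    linarith
  have hQ : Continuous fun s : ℝ => max 0 (2 * (Real.cos s - 1 / K)) *
      max 0 ((K - 1 / K) / (K - Real.cos s) - 1) :=
    (by fun_prop : Continuous fun s : ℝ => max 0 (2 * (Real.cos s - 1 / K))).mul
      (continuous_const.max ((continuous_const.div hcd fun s => (hd s).ne').sub continuous_const))
  have e1 : ∫ θ in (-π)..π, max 0 (xd t - yy J t θ) * max 0 (xd t / yy J t θ - 1) =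
      ∫ θ in (-π)..π, (fun c : ℝ => max 0 (2 * (c - 1 / K)) *
        max 0 ((K - 1 / K) / (K - c) - 1)) (-Real.cos (2 * θ)) := by
    refine intervalIntegral.integral_congr fun θ _ => ?_
    change max 0 (xd t - yy J t θ) * max 0 (xd t / yy J t θ - 1) =
      max 0 (2 * (-Real.cos (2 * θ) - 1 / K)) * max 0 ((K - 1 / K) / (K - -Real.cos (2 * θ)) - 1)
    rw [li_yy, xd, ← hKd, sub_neg_eq_add, mul_div_mul_left _ _ two_ne_zero]
    congr 2
    ring
  rw [e1, li_dip ht (Q := fun c : ℝ => max 0 (2 * (c - 1 / K)) *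
      max 0 ((K - 1 / K) / (K - c) - 1))
    (R := fun c : ℝ => 2 * ((K - 1 / K) ^ 2 * (1 / (K - c)) - c - (K - 2 / K))) hQ ?_ ?_]
  · congr 1
    have hden : ∀ s : ℝ, 0 < K - Real.cos (2 * s) := fun s => hd (2 * s)
    have hcont : Continuous fun s : ℝ => 1 / (K - Real.cos (2 * s)) :=
      continuous_const.div (by fun_prop) fun s => (hden s).ne'
    have hcc : Continuous fun s : ℝ => Real.cos (2 * s) := by fun_prop
    have hsin : ∫ s in (-Real.arctan (Real.tanh t))..Real.arctan (Real.tanh t),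
        Real.cos (2 * s) = Real.sinh (2 * t) / Real.cosh (2 * t) := by
      have h1 := intervalIntegral.integral_comp_mul_left (a := -Real.arctan (Real.tanh t))
        (b := Real.arctan (Real.tanh t)) (fun s : ℝ => Real.cos s) (two_ne_zero (α := ℝ))
      rw [h1, integral_cos, mul_neg, Real.sin_neg, li_sin, smul_eq_mul]
      ring
    rw [intervalIntegral.integral_const_mul, intervalIntegral.integral_sub
      (((hcont.intervalIntegrable _ _).const_mul _).sub (hcc.intervalIntegrable _ _)) (by simp),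
      intervalIntegral.integral_sub ((hcont.intervalIntegrable _ _).const_mul _)
      (hcc.intervalIntegrable _ _), intervalIntegral.integral_const_mul, li_int ht, hsin,
      intervalIntegral.integral_const, Gw, li_sub, smul_eq_mul, ← hKd]
    field_simp
    ring
  · intro c hc'
    change max 0 (2 * (c - 1 / K)) * max 0 ((K - 1 / K) / (K - c) - 1) = 0
    rw [max_eq_left (by linarith), zero_mul]
  · intro c hc' hc1
    have h1 : 0 < K - c := by linarith
    have h2 : 1 ≤ (K - 1 / K) / (K - c) := by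
      rw [one_le_div h1]
      linarith
    change max 0 (2 * (c - 1 / K)) * max 0 ((K - 1 / K) / (K - c) - 1) =
      2 * ((K - 1 / K) ^ 2 * (1 / (K - c)) - c - (K - 2 / K))
    rw [max_eq_right (by linarith), max_eq_right (by linarith)]
    field_simp
    ring

end Pool.Agent.H36.SZ
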