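import Pool.Agent.H36.SZ.LoD

/-!
# Low levels: the numerical inequality

PROOF. With `T = tanh t ∈ (0, 1)` and `q = Qe t = (1 - T) / (1 + T)`: `tanh 2t = 2T / (1 + T^2)`,
`cosh 2t = (1 + T^2) / (1 - T^2)`, `sinh 2t = 2T / (1 - T^2)`. The left inequality is decreasing in
`ε`, the right one increasing, so it is enough to find an `ε1` (`= 1/5` for `T <= 2/3`, `= 1/3` for
`T >= 2/3`, that is `q <= 1/5`) with both at `ε1`. For `T <= 2/3` use
`T - T^3/3 + T^5/5 - T^7/7 <= arctan T <= T - T^3/3 + T^5/5`, `3.1415 < π < 3.1416`.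
For `q <= 1/5`: `arctan T = π/4 - arctan q` and `arctan q <= q - q^3/3 + q^5/5`. Then polynomial
inequalities in one variable, written in Bernstein form.
-/

open Complex MeasureTheory Set Filter Topology
open scoped ComplexConjugate Real

namespace Pool.Agent.H36.SZ

private theorem polA1 {T : ℝ} (h0 : 0 ≤ T) (h1 : T ≤ 2/3) :
    0 ≤ (8751/100000) + (8751/50000) * T^1 + (-168399/50000) * T^2 + (120547/10000) * T^3 +
        (-483323/60000) * T^4 + (-32/25) * T^5 + (32/525) * T^6 + (96/175) * T^7 +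
        (-104/175) * T^8 + (-48/35) * T^9 + (-8/35) * T^10 := by
  have h2 : 0 ≤ 2/3 - T := by linarith
  have h3 : (8751/100000) + (8751/50000) * T^1 + (-168399/50000) * T^2 + (120547/10000) * T^3 +
      (-483323/60000) * T^4 + (-32/25) * T^5 + (32/525) * T^6 + (96/175) * T^7 +
      (-104/175) * T^8 + (-48/35) * T^9 + (-8/35) * T^10 = 1550213397/204800000 * (2/3 - T)^11 +
      19119298563/204800000 * T^1 * (2/3 - T)^10 + 79414468659/204800000 * T^2 * (2/3 - T)^9 +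
      173419702461/204800000 * T^3 * (2/3 - T)^8 + 141497378577/102400000 * T^4 * (2/3 - T)^7 +
      49418690571/20480000 * T^5 * (2/3 - T)^6 + 580629883689/143360000 * T^6 * (2/3 - T)^5 +
      3511548555219/716800000 * T^7 * (2/3 - T)^4 +
      5433506090127/1433600000 * T^8 * (2/3 - T)^3 +
      2527542028953/1433600000 * T^9 * (2/3 - T)^2 +
      631451744241/1433600000 * T^10 * (2/3 - T)^1 + 61252259199/1433600000 * T^11 := by ring
  rw [h3]
  positivity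

private theorem polBu {T : ℝ} (h0 : 0 ≤ T) (h1 : T ≤ 2/3) :
    0 ≤ (56547/50000) + (56547/50000) * T^1 + (-169641/50000) * T^2 + (55657/30000) * T^3 +
        (-2096689/150000) * T^4 + (2467487/150000) * T^5 + (86359/30000) * T^6 +
        (-491077/150000) * T^7 + (-20/3) * T^8 + (16/3) * T^9 + (16/3) * T^10 + (-4/5) * T^11 +
        (-4/5) * T^12 := by
  have h2 : 0 ≤ 2/3 - T := by linarith
  have h3 : (56547/50000) + (56547/50000) * T^1 + (-169641/50000) * T^2 + (55657/30000) * T^3 +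
      (-2096689/150000) * T^4 + (2467487/150000) * T^5 + (86359/30000) * T^6 +
      (-491077/150000) * T^7 + (-20/3) * T^8 + (16/3) * T^9 + (16/3) * T^10 + (-4/5) * T^11 +
      (-4/5) * T^12 = 30051394227/204800000 * (2/3 - T)^12 +
      190325496771/102400000 * T^1 * (2/3 - T)^11 + 270462548043/25600000 * T^2 * (2/3 - T)^10 +
      146542251033/4096000 * T^3 * (2/3 - T)^9 + 16436102119947/204800000 * T^4 * (2/3 - T)^8 +
      6400062279279/51200000 * T^5 * (2/3 - T)^7 + 3523905514269/25600000 * T^6 * (2/3 - T)^6 +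
      1096756050717/10240000 * T^7 * (2/3 - T)^5 + 2372018116869/40960000 * T^8 * (2/3 - T)^4 +
      2150602536591/102400000 * T^9 * (2/3 - T)^3 + 3845300919/800000 * T^10 * (2/3 - T)^2 +
      13067486169/20480000 * T^11 * (2/3 - T)^1 + 9264139241/204800000 * T^12 := by ring
  rw [h3]
  positivity

private theorem polBl {T : ℝ} (h0 : 0 ≤ T) (h1 : T ≤ 2/3) :
    0 ≤ (56547/50000) + (56547/50000) * T^1 + (-169641/50000) * T^2 + (55657/30000) * T^3 +
        (-2096689/150000) * T^4 + (2467487/150000) * T^5 + (86359/30000) * T^6 +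
        (-2837539/1050000) * T^7 + (-128/21) * T^8 + (52/21) * T^9 + (52/21) * T^10 +
        (-128/35) * T^11 + (-128/35) * T^12 + (4/7) * T^13 + (4/7) * T^14 := by
  have h2 : 0 ≤ 2/3 - T := by linarith
  have h3 : (56547/50000) + (56547/50000) * T^1 + (-169641/50000) * T^2 + (55657/30000) * T^3 +
      (-2096689/150000) * T^4 + (2467487/150000) * T^5 + (86359/30000) * T^6 +
      (-2837539/1050000) * T^7 + (-128/21) * T^8 + (52/21) * T^9 + (52/21) * T^10 +
      (-128/35) * T^11 + (-128/35) * T^12 + (4/7) * T^13 +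
      (4/7) * T^14 = 270462548043/819200000 * (2/3 - T)^14 +
      991696009491/204800000 * T^1 * (2/3 - T)^13 +
      5319096778179/163840000 * T^2 * (2/3 - T)^12 +
      2707911970623/20480000 * T^3 * (2/3 - T)^11 +
      299286248468319/819200000 * T^4 * (2/3 - T)^10 +
      29609804658897/40960000 * T^5 * (2/3 - T)^9 +
      862450600214979/819200000 * T^6 * (2/3 - T)^8 +
      81836013298311/71680000 * T^7 * (2/3 - T)^7 +
      5287488569012151/5734400000 * T^8 * (2/3 - T)^6 +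
      787133805285339/1433600000 * T^9 * (2/3 - T)^5 +
      193281279893757/819200000 * T^10 * (2/3 - T)^4 +
      2021586391701/28672000 * T^11 * (2/3 - T)^3 +
      15771342753351/1146880000 * T^12 * (2/3 - T)^2 +
      2206775057709/1433600000 * T^13 * (2/3 - T)^1 + 55089253169/819200000 * T^14 := by ring
  rw [h3]
  positivity

private theorem polA2 {q : ℝ} (h0 : 0 ≤ q) (h1 : q ≤ 1/5) :
    0 ≤ (1483/1200) + (-98849/12000) * q^1 + (115943/7200) * q^2 + (-1323601/108000) * q^3 +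
        (3289/1440) * q^4 + (112/81) * q^5 + (-116/135) * q^6 + (-116/81) * q^7 + (4/45) * q^8 +
        (4/27) * q^9 := by
  have h2 : 0 ≤ 1/5 - q := by linarith
  have h3 : (1483/1200) + (-98849/12000) * q^1 + (115943/7200) * q^2 + (-1323601/108000) * q^3 +
      (3289/1440) * q^4 + (112/81) * q^5 + (-116/135) * q^6 + (-116/81) * q^7 + (4/45) * q^8 +
      (4/27) * q^9 = 115859375/48 * (1/5 - q)^9 + 1776565625/96 * q^1 * (1/5 - q)^8 +
      17974271875/288 * q^2 * (1/5 - q)^7 + 52389548375/432 * q^3 * (1/5 - q)^6 +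
      2387437625/16 * q^4 * (1/5 - q)^5 + 311261159375/2592 * q^5 * (1/5 - q)^4 +
      162874670975/2592 * q^6 * (1/5 - q)^3 + 13232739875/648 * q^7 * (1/5 - q)^2 +
      1588866767/432 * q^8 * (1/5 - q)^1 + 87617417/324 * q^9 := by ring
  rw [h3]
  positivity

private theorem polB2 {q : ℝ} (h0 : 0 ≤ q) (h1 : q ≤ 1/5) :
    0 ≤ (15703/45000) + (32117/3600) * q^1 + (-125669/22500) * q^2 + (1397/1800) * q^3 +
        (298447/45000) * q^4 + (-18283/3600) * q^5 + (8/3) * q^7 + (-2/5) * q^9 := by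
  have h2 : 0 ≤ 1/5 - q := by linarith
  have h3 : (15703/45000) + (32117/3600) * q^1 + (-125669/22500) * q^2 + (1397/1800) * q^3 +
      (298447/45000) * q^4 + (-18283/3600) * q^5 + (8/3) * q^7 +
      (-2/5) * q^9 = 49071875/72 * (1/5 - q)^9 + 1385121875/144 * q^1 * (1/5 - q)^8 +
      623747125/12 * q^2 * (1/5 - q)^7 + 10928583625/72 * q^3 * (1/5 - q)^6 +
      19581212485/72 * q^4 * (1/5 - q)^5 + 45335532775/144 * q^5 * (1/5 - q)^4 +
      8552545975/36 * q^6 * (1/5 - q)^3 + 339961325/3 * q^7 * (1/5 - q)^2 +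
      280104250/9 * q^8 * (1/5 - q)^1 + 225591901/60 * q^9 := by ring
  rw [h3]
  positivity


private theorem arctan_le_pol {x : ℝ} (hx : 0 ≤ x) :
    Real.arctan x ≤ x - x ^ 3 / 3 + x ^ 5 / 5 := by
  have hd : ∀ y : ℝ, HasDerivAt (fun y : ℝ => (y - y ^ 3 / 3 + y ^ 5 / 5) - Real.arctan y)
      ((1 - 3 * y ^ 2 / 3 + 5 * y ^ 4 / 5) - 1 / (1 + y ^ 2)) y := by
    intro y
    have h3 : HasDerivAt (fun y : ℝ => y ^ 3) (3 * y ^ 2) y := by
      simpa using hasDerivAt_pow 3 y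
    have h5 : HasDerivAt (fun y : ℝ => y ^ 5) (5 * y ^ 4) y := by
      simpa using hasDerivAt_pow 5 y
    exact (((hasDerivAt_id' y).sub (h3.div_const 3)).add (h5.div_const 5)).sub
      (Real.hasDerivAt_arctan y)
  have hm : MonotoneOn (fun y : ℝ => (y - y ^ 3 / 3 + y ^ 5 / 5) - Real.arctan y) (Ici 0) := by
    refine monotoneOn_of_deriv_nonneg (convex_Ici 0)
      (fun y _ => (hd y).continuousAt.continuousWithinAt)
      (fun y _ => (hd y).differentiableAt.differentiableWithinAt) ?_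
    intro y hy
    rw [(hd y).deriv]
    have e : (1 - 3 * y ^ 2 / 3 + 5 * y ^ 4 / 5) - 1 / (1 + y ^ 2) = y ^ 6 / (1 + y ^ 2) := by
      field_simp
      ring
    rw [e]
    positivity
  have := hm (mem_Ici.2 le_rfl) (show x ∈ Ici (0 : ℝ) from hx) hx
  simp only [Real.arctan_zero] at this
  linarith

private theorem pol_le_arctan {x : ℝ} (hx : 0 ≤ x) :
    x - x ^ 3 / 3 + x ^ 5 / 5 - x ^ 7 / 7 ≤ Real.arctan x := by
  have hd : ∀ y : ℝ, HasDerivAt
      (fun y : ℝ => Real.arctan y - (y - y ^ 3 / 3 + y ^ 5 / 5 - y ^ 7 / 7))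
      (1 / (1 + y ^ 2) - (1 - 3 * y ^ 2 / 3 + 5 * y ^ 4 / 5 - 7 * y ^ 6 / 7)) y := by
    intro y
    have h3 : HasDerivAt (fun y : ℝ => y ^ 3) (3 * y ^ 2) y := by
      simpa using hasDerivAt_pow 3 y
    have h5 : HasDerivAt (fun y : ℝ => y ^ 5) (5 * y ^ 4) y := by
      simpa using hasDerivAt_pow 5 y
    have h7 : HasDerivAt (fun y : ℝ => y ^ 7) (7 * y ^ 6) y := by
      simpa using hasDerivAt_pow 7 y
    exact (Real.hasDerivAt_arctan y).sub
      ((((hasDerivAt_id' y).sub (h3.div_const 3)).add (h5.div_const 5)).sub (h7.div_const 7))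
  have hm : MonotoneOn (fun y : ℝ => Real.arctan y - (y - y ^ 3 / 3 + y ^ 5 / 5 - y ^ 7 / 7))
      (Ici 0) := by
    refine monotoneOn_of_deriv_nonneg (convex_Ici 0)
      (fun y _ => (hd y).continuousAt.continuousWithinAt)
      (fun y _ => (hd y).differentiableAt.differentiableWithinAt) ?_
    intro y hy
    rw [(hd y).deriv]
    have e : 1 / (1 + y ^ 2) - (1 - 3 * y ^ 2 / 3 + 5 * y ^ 4 / 5 - 7 * y ^ 6 / 7) =
        y ^ 8 / (1 + y ^ 2) := by
      field_simp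
      ring
    rw [e]
    positivity
  have := hm (mem_Ici.2 le_rfl) (show x ∈ Ici (0 : ℝ) from hx) hx
  simp only [Real.arctan_zero] at this
  linarith

private theorem Qe_pos (t : ℝ) : 0 < Qe t := Real.exp_pos _

private theorem Qe_lt_one {t : ℝ} (ht : 0 < t) : Qe t < 1 := by
  unfold Qe
  rw [Real.exp_lt_one_iff]
  linarith

private theorem cosh_two (t : ℝ) : Real.cosh (2 * t) = (1 / Qe t + Qe t) / 2 := by
  unfold Qe
  rw [Real.cosh_eq, one_div, ← Real.exp_neg, neg_neg]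

private theorem sinh_two (t : ℝ) : Real.sinh (2 * t) = (1 / Qe t - Qe t) / 2 := by
  unfold Qe
  rw [Real.sinh_eq, one_div, ← Real.exp_neg, neg_neg]

private theorem tanh_two (t : ℝ) : Real.tanh (2 * t) = (1 - Qe t ^ 2) / (1 + Qe t ^ 2) := by
  have h := Qe_pos t
  rw [Real.tanh_eq_sinh_div_cosh, cosh_two, sinh_two]
  field_simp

private theorem tanh_one (t : ℝ) : Real.tanh t = (1 - Qe t) / (1 + Qe t) := by
  have h := Qe_pos t
  have h3 : Real.exp (-t) = Real.exp t * Qe t := by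
    unfold Qe
    rw [← Real.exp_add]
    congr 1
    ring
  have h4 := Real.exp_pos t
  rw [Real.tanh_eq_sinh_div_cosh, Real.cosh_eq, Real.sinh_eq, h3]
  field_simp

private theorem Qe_eq {t : ℝ} (ht : 0 < t) :
    0 < Real.tanh t ∧ Real.tanh t < 1 ∧ Qe t = (1 - Real.tanh t) / (1 + Real.tanh t) := by
  have h0 := Qe_pos t
  have h1 := Qe_lt_one ht
  rw [tanh_one]
  refine ⟨by apply div_pos <;> linarith, by rw [div_lt_one (by linarith)]; linarith, ?_⟩
  have h2 : (1 : ℝ) + Qe t ≠ 0 := by linarith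
  field_simp
  ring

theorem Iw_nonneg {t : ℝ} (ht : 0 < t) : 0 ≤ Iw t := by
  obtain ⟨h0, h1, h2⟩ := Qe_eq ht
  unfold Iw
  rw [tanh_two, h2]
  set T := Real.tanh t with hT
  have ha0 : 0 ≤ Real.arctan T := Real.arctan_nonneg.2 h0.le
  have ha1 : Real.arctan T ≤ π / 4 := by
    rw [← Real.arctan_one]
    exact Real.arctan_strictMono.monotone h1.le
  have hs := Real.mul_le_sin (x := 2 * Real.arctan T) (by linarith) (by linarith)
  have h3 : Real.sin (2 * Real.arctan T) = 2 * T / (1 + T ^ 2) := by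
    rw [Real.sin_two_mul, Real.sin_arctan, Real.cos_arctan]
    have h4 : √(1 + T ^ 2) * √(1 + T ^ 2) = 1 + T ^ 2 :=
      Real.mul_self_sqrt (by positivity)
    rw [show 2 * (T / √(1 + T ^ 2)) * (1 / √(1 + T ^ 2)) =
      2 * T / (√(1 + T ^ 2) * √(1 + T ^ 2)) by ring, h4]
  rw [h3] at hs
  have hp := Real.pi_pos
  have h4 : (1 - ((1 - T) / (1 + T)) ^ 2) / (1 + ((1 - T) / (1 + T)) ^ 2) =
      2 * T / (1 + T ^ 2) := by
    have h6 : (1 : ℝ) + T ≠ 0 := by linarith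
    field_simp
    ring
  rw [h4]
  have h5 : 2 * Real.arctan T = π / 2 * (2 / π * (2 * Real.arctan T)) := by
    field_simp
  rw [h5]
  have := mul_le_mul_of_nonneg_left hs (by positivity : 0 ≤ π / 2)
  linarith

private theorem num_aux {X I T q R G ε e1 : ℝ} (hI : 0 ≤ I) (hT : 0 < T) (hq : 0 ≤ q)
    (hR : 0 ≤ R) (h1 : ε ≤ 1) (he0 : 0 ≤ e1) (he1 : e1 ≤ 1)
    (hA : 0 ≤ (2 - e1) * X - 2 * I / T - 4 * I * e1 * q)
    (hB : G ≤ 2 * π * (e1 * (2 - e1) * R)) :
    0 ≤ (2 - ε) * X - 2 * I / T - 4 * I * ε * q ∨ G ≤ 2 * π * (ε * (2 - ε) * R) := by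
  rcases le_total ε e1 with h | h
  · left
    have hIT : 0 ≤ 2 * I / T := by positivity
    have hIq : 0 ≤ I * q := by positivity
    have hX : 0 ≤ X := by
      by_contra hc
      push Not at hc
      have h5 : (2 - e1) * X < 0 := mul_neg_of_pos_of_neg (by linarith) hc
      have h6 : 0 ≤ 4 * I * e1 * q := by positivity
      linarith
    have h7 : 0 ≤ (e1 - ε) * (X + 4 * (I * q)) := by
      apply mul_nonneg (by linarith)
      positivity
    nlinarith
  · right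
    refine hB.trans ?_
    have h8 : e1 * (2 - e1) ≤ ε * (2 - ε) := by nlinarith
    have h9 : e1 * (2 - e1) * R ≤ ε * (2 - ε) * R := mul_le_mul_of_nonneg_right h8 hR
    have hp := Real.pi_pos
    nlinarith

private theorem caseA1 {T θ p : ℝ} (h0 : 0 < T) (h1 : T ≤ 2 / 3) (hp0 : 3.1415 ≤ p)
    (hp1 : p ≤ 3.1416) (hθ : T - T ^ 3 / 3 + T ^ 5 / 5 - T ^ 7 / 7 ≤ θ) :
    0 ≤ (2 - 1 / 5) * (p * ((1 - T) / (1 + T)) * (1 - (1 - T) / (1 + T) / 2) -
      4 / 3 * (p * T / (1 + T ^ 2) - 2 * θ) * (((1 - T) / (1 + T)) ^ 2 / 2 +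
      ((1 - T) / (1 + T)) ^ 3 / (3 * (1 - (1 - T) / (1 + T))))) -
      2 * (p * T / (1 + T ^ 2) - 2 * θ) / T -
      4 * (p * T / (1 + T ^ 2) - 2 * θ) * (1 / 5) * ((1 - T) / (1 + T)) := by
  have hL : ((1 - T) / (1 + T)) ^ 2 / 2 + ((1 - T) / (1 + T)) ^ 3 / (3 * (1 - (1 - T) / (1 + T)))
      = (1 - T) ^ 2 * (1 + 2 * T) / (6 * T * (1 + T) ^ 2) := by
    have e : 1 - (1 - T) / (1 + T) = 2 * T / (1 + T) := by
      field_simp
      ring
    rw [e]
    field_simp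
    ring
  rw [hL]
  have hK : 0 < 12 / 5 * ((1 - T) ^ 2 * (1 + 2 * T) / (6 * T * (1 + T) ^ 2)) + 2 / T +
      4 / 5 * ((1 - T) / (1 + T)) := by
    have : 0 < 1 - T := by linarith
    positivity
  set K := 12 / 5 * ((1 - T) ^ 2 * (1 + 2 * T) / (6 * T * (1 + T) ^ 2)) + 2 / T +
      4 / 5 * ((1 - T) / (1 + T)) with hKd
  have hI : p * T / (1 + T ^ 2) - 2 * θ ≤
      3.1416 * T / (1 + T ^ 2) - 2 * (T - T ^ 3 / 3 + T ^ 5 / 5 - T ^ 7 / 7) := by
    have : p * T / (1 + T ^ 2) ≤ 3.1416 * T / (1 + T ^ 2) := by gcongr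
    linarith
  have h2 := mul_le_mul_of_nonneg_right hI hK.le
  have h3 : 3.1415 * ((1 - T) * (1 + 3 * T) / (2 * (1 + T) ^ 2)) ≤
      p * ((1 - T) / (1 + T)) * (1 - (1 - T) / (1 + T) / 2) := by
    have e : p * ((1 - T) / (1 + T)) * (1 - (1 - T) / (1 + T) / 2) =
        p * ((1 - T) * (1 + 3 * T) / (2 * (1 + T) ^ 2)) := by
      field_simp
      ring
    rw [e]
    apply mul_le_mul_of_nonneg_right hp0
    have : 0 < 1 - T := by linarith
    positivity
  have hpol := polA1 h0.le h1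
  have h4 : 9 / 5 * (3.1415 * ((1 - T) * (1 + 3 * T) / (2 * (1 + T) ^ 2))) -
      (3.1416 * T / (1 + T ^ 2) - 2 * (T - T ^ 3 / 3 + T ^ 5 / 5 - T ^ 7 / 7)) * K =
      ((8751/100000) + (8751/50000) * T^1 + (-168399/50000) * T^2 + (120547/10000) * T^3 +
        (-483323/60000) * T^4 + (-32/25) * T^5 + (32/525) * T^6 + (96/175) * T^7 +
        (-104/175) * T^8 + (-48/35) * T^9 + (-8/35) * T^10) /
        ((1 + T) ^ 2 * (1 + T ^ 2)) := by
    rw [hKd]
    field_simp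
    ring
  have h5 : 0 ≤ ((8751/100000) + (8751/50000) * T^1 + (-168399/50000) * T^2 + (120547/10000) * T^3 +
        (-483323/60000) * T^4 + (-32/25) * T^5 + (32/525) * T^6 + (96/175) * T^7 +
        (-104/175) * T^8 + (-48/35) * T^9 + (-8/35) * T^10) /
        ((1 + T) ^ 2 * (1 + T ^ 2)) := by
    positivity
  have h6 : (2 - 1 / 5) * (p * ((1 - T) / (1 + T)) * (1 - (1 - T) / (1 + T) / 2) -
      4 / 3 * (p * T / (1 + T ^ 2) - 2 * θ) *
        ((1 - T) ^ 2 * (1 + 2 * T) / (6 * T * (1 + T) ^ 2))) -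
      2 * (p * T / (1 + T ^ 2) - 2 * θ) / T -
      4 * (p * T / (1 + T ^ 2) - 2 * θ) * (1 / 5) * ((1 - T) / (1 + T)) =
      9 / 5 * (p * ((1 - T) / (1 + T)) * (1 - (1 - T) / (1 + T) / 2)) -
      (p * T / (1 + T ^ 2) - 2 * θ) * K := by
    rw [hKd]
    ring
  rw [h6]
  linarith

private theorem caseB1 {T θ p : ℝ} (h0 : 0 < T) (h1 : T ≤ 2 / 3) (hp0 : 3.1415 ≤ p)
    (hp1 : p ≤ 3.1416) (hθ : T - T ^ 3 / 3 + T ^ 5 / 5 - T ^ 7 / 7 ≤ θ)
    (hθ' : θ ≤ T - T ^ 3 / 3 + T ^ 5 / 5) :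
    p * (8 * T ^ 3 / ((1 - T) * (1 + T) * (1 + T ^ 2) ^ 2)) +
      θ * (4 * (1 - 6 * T ^ 2 + T ^ 4) / ((1 - T) * (1 + T) * (1 + T ^ 2))) -
      4 * T / (1 + T ^ 2) ≤
    2 * p * (1 / 5 * (2 - 1 / 5) * ((1 - T) * (1 + 3 * T) / (2 * (1 + T) ^ 2))) := by
  have hT1 : 0 < 1 - T := by linarith
  have e1 : p * (8 * T ^ 3 / ((1 - T) * (1 + T) * (1 + T ^ 2) ^ 2)) ≤
      3.1416 * (8 * T ^ 3 / ((1 - T) * (1 + T) * (1 + T ^ 2) ^ 2)) := by
    apply mul_le_mul_of_nonneg_right hp1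
    positivity
  have e2 : 2 * 3.1415 * (1 / 5 * (2 - 1 / 5) * ((1 - T) * (1 + 3 * T) / (2 * (1 + T) ^ 2))) ≤
      2 * p * (1 / 5 * (2 - 1 / 5) * ((1 - T) * (1 + 3 * T) / (2 * (1 + T) ^ 2))) := by
    have : 0 ≤ 1 / 5 * (2 - 1 / 5) * ((1 - T) * (1 + 3 * T) / (2 * (1 + T) ^ 2)) := by
      have : (0 : ℝ) ≤ 2 - 1 / 5 := by norm_num
      positivity
    nlinarith
  rcases le_total 0 (1 - 6 * T ^ 2 + T ^ 4) with h | h
  · have hpol := polBu h0.le h1
    have e3 : θ * (4 * (1 - 6 * T ^ 2 + T ^ 4) / ((1 - T) * (1 + T) * (1 + T ^ 2))) ≤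
        (T - T ^ 3 / 3 + T ^ 5 / 5) *
          (4 * (1 - 6 * T ^ 2 + T ^ 4) / ((1 - T) * (1 + T) * (1 + T ^ 2))) := by
      apply mul_le_mul_of_nonneg_right hθ'
      positivity
    have e4 : 2 * 3.1415 * (1 / 5 * (2 - 1 / 5) * ((1 - T) * (1 + 3 * T) / (2 * (1 + T) ^ 2))) -
        (3.1416 * (8 * T ^ 3 / ((1 - T) * (1 + T) * (1 + T ^ 2) ^ 2)) +
        (T - T ^ 3 / 3 + T ^ 5 / 5) *
          (4 * (1 - 6 * T ^ 2 + T ^ 4) / ((1 - T) * (1 + T) * (1 + T ^ 2))) -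
        4 * T / (1 + T ^ 2)) =
        ((56547/50000) + (56547/50000) * T^1 + (-169641/50000) * T^2 + (55657/30000) * T^3 +
          (-2096689/150000) * T^4 + (2467487/150000) * T^5 + (86359/30000) * T^6 +
          (-491077/150000) * T^7 + (-20/3) * T^8 + (16/3) * T^9 + (16/3) * T^10 +
          (-4/5) * T^11 + (-4/5) * T^12) /
          ((1 + T) ^ 2 * (1 - T) * (1 + T ^ 2) ^ 2) := by
      field_simp
      ring
    have e5 : 0 ≤ ((56547/50000) + (56547/50000) * T^1 + (-169641/50000) * T^2 + (55657/30000) * T^3 +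
          (-2096689/150000) * T^4 + (2467487/150000) * T^5 + (86359/30000) * T^6 +
          (-491077/150000) * T^7 + (-20/3) * T^8 + (16/3) * T^9 + (16/3) * T^10 +
          (-4/5) * T^11 + (-4/5) * T^12) /
          ((1 + T) ^ 2 * (1 - T) * (1 + T ^ 2) ^ 2) := by
      positivity
    linarith
  · have hpol := polBl h0.le h1
    have e3 : θ * (4 * (1 - 6 * T ^ 2 + T ^ 4) / ((1 - T) * (1 + T) * (1 + T ^ 2))) ≤
        (T - T ^ 3 / 3 + T ^ 5 / 5 - T ^ 7 / 7) *
          (4 * (1 - 6 * T ^ 2 + T ^ 4) / ((1 - T) * (1 + T) * (1 + T ^ 2))) := by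
      apply mul_le_mul_of_nonpos_right hθ
      apply div_nonpos_of_nonpos_of_nonneg
      · linarith
      · positivity
    have e4 : 2 * 3.1415 * (1 / 5 * (2 - 1 / 5) * ((1 - T) * (1 + 3 * T) / (2 * (1 + T) ^ 2))) -
        (3.1416 * (8 * T ^ 3 / ((1 - T) * (1 + T) * (1 + T ^ 2) ^ 2)) +
        (T - T ^ 3 / 3 + T ^ 5 / 5 - T ^ 7 / 7) *
          (4 * (1 - 6 * T ^ 2 + T ^ 4) / ((1 - T) * (1 + T) * (1 + T ^ 2))) -
        4 * T / (1 + T ^ 2)) =
        ((56547/50000) + (56547/50000) * T^1 + (-169641/50000) * T^2 + (55657/30000) * T^3 +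
          (-2096689/150000) * T^4 + (2467487/150000) * T^5 + (86359/30000) * T^6 +
          (-2837539/1050000) * T^7 + (-128/21) * T^8 + (52/21) * T^9 +
          (52/21) * T^10 + (-128/35) * T^11 + (-128/35) * T^12 + (4/7) * T^13 +
          (4/7) * T^14) /
          ((1 + T) ^ 2 * (1 - T) * (1 + T ^ 2) ^ 2) := by
      field_simp
      ring
    have e5 : 0 ≤ ((56547/50000) + (56547/50000) * T^1 + (-169641/50000) * T^2 + (55657/30000) * T^3 +
          (-2096689/150000) * T^4 + (2467487/150000) * T^5 + (86359/30000) * T^6 +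
          (-2837539/1050000) * T^7 + (-128/21) * T^8 + (52/21) * T^9 +
          (52/21) * T^10 + (-128/35) * T^11 + (-128/35) * T^12 + (4/7) * T^13 +
          (4/7) * T^14) /
          ((1 + T) ^ 2 * (1 - T) * (1 + T ^ 2) ^ 2) := by
      positivity
    linarith

private theorem caseA2 {q a p : ℝ} (h0 : 0 < q) (h1 : q ≤ 1 / 5) (hp0 : 3.1415 ≤ p)
    (ha : a ≤ q - q ^ 3 / 3 + q ^ 5 / 5) :
    0 ≤ (2 - 1 / 3) * (p * q * (1 - q / 2) -
      4 / 3 * (2 * a - p * q ^ 2 / (1 + q ^ 2)) * (q ^ 2 / 2 + q ^ 3 / (3 * (1 - q)))) -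
      2 * (2 * a - p * q ^ 2 / (1 + q ^ 2)) / ((1 - q) / (1 + q)) -
      4 * (2 * a - p * q ^ 2 / (1 + q ^ 2)) * (1 / 3) * q := by
  have hq1 : 0 < 1 - q := by linarith
  have hpol := polA2 h0.le h1
  have hK : 0 < 20 / 9 * (q ^ 2 / 2 + q ^ 3 / (3 * (1 - q))) + 2 * (1 + q) / (1 - q) +
      4 / 3 * q := by
    positivity
  set K := 20 / 9 * (q ^ 2 / 2 + q ^ 3 / (3 * (1 - q))) + 2 * (1 + q) / (1 - q) +
      4 / 3 * q with hKd
  have hI : 2 * a - p * q ^ 2 / (1 + q ^ 2) ≤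
      2 * (q - q ^ 3 / 3 + q ^ 5 / 5) - 3.1415 * q ^ 2 / (1 + q ^ 2) := by
    have : 3.1415 * q ^ 2 / (1 + q ^ 2) ≤ p * q ^ 2 / (1 + q ^ 2) := by gcongr
    linarith
  have h2 := mul_le_mul_of_nonneg_right hI hK.le
  have h3 : 3.1415 * (q * (1 - q / 2)) ≤ p * (q * (1 - q / 2)) := by
    apply mul_le_mul_of_nonneg_right hp0
    apply mul_nonneg h0.le
    linarith
  have h4 : 5 / 3 * (3.1415 * (q * (1 - q / 2))) -
      (2 * (q - q ^ 3 / 3 + q ^ 5 / 5) - 3.1415 * q ^ 2 / (1 + q ^ 2)) * K =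
      q * ((1483/1200) + (-98849/12000) * q^1 + (115943/7200) * q^2 + (-1323601/108000) * q^3 +
        (3289/1440) * q^4 + (112/81) * q^5 + (-116/135) * q^6 + (-116/81) * q^7 +
        (4/45) * q^8 + (4/27) * q^9) /
        ((1 - q) * (1 + q ^ 2)) := by
    rw [hKd]
    field_simp
    ring
  have h5 : 0 ≤ q * ((1483/1200) + (-98849/12000) * q^1 + (115943/7200) * q^2 + (-1323601/108000) * q^3 +
        (3289/1440) * q^4 + (112/81) * q^5 + (-116/135) * q^6 + (-116/81) * q^7 +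
        (4/45) * q^8 + (4/27) * q^9) /
        ((1 - q) * (1 + q ^ 2)) := by
    positivity
  have h6 : (2 - 1 / 3) * (p * q * (1 - q / 2) -
      4 / 3 * (2 * a - p * q ^ 2 / (1 + q ^ 2)) * (q ^ 2 / 2 + q ^ 3 / (3 * (1 - q)))) -
      2 * (2 * a - p * q ^ 2 / (1 + q ^ 2)) / ((1 - q) / (1 + q)) -
      4 * (2 * a - p * q ^ 2 / (1 + q ^ 2)) * (1 / 3) * q =
      5 / 3 * (p * (q * (1 - q / 2))) - (2 * a - p * q ^ 2 / (1 + q ^ 2)) * K := by
    rw [hKd, show (2 : ℝ) * (2 * a - p * q ^ 2 / (1 + q ^ 2)) / ((1 - q) / (1 + q)) =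
      (2 * a - p * q ^ 2 / (1 + q ^ 2)) * (2 * (1 + q) / (1 - q)) by field_simp]
    ring
  rw [h6]
  linarith

private theorem caseB2 {q a p : ℝ} (h0 : 0 < q) (h1 : q ≤ 1 / 5) (hp0 : 3.1415 ≤ p)
    (hp1 : p ≤ 3.1416) (ha : a ≤ q - q ^ 3 / 3 + q ^ 5 / 5) :
    p * (q * (1 + 4 * q ^ 2 - q ^ 4) / (1 + q ^ 2) ^ 2) +
      a * (2 * (1 - 6 * q ^ 2 + q ^ 4) / (q * (1 + q ^ 2))) -
      2 * (1 - q ^ 2) / (1 + q ^ 2) ≤
    2 * p * (1 / 3 * (2 - 1 / 3) * (q * (1 - q / 2))) := by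
  have hpol := polB2 h0.le h1
  have h7 : q ^ 2 ≤ 1 / 25 := by nlinarith
  have h8 : 0 ≤ q ^ 2 * (1 - q ^ 2) := mul_nonneg (sq_nonneg q) (by linarith)
  have h2 : 0 ≤ 1 + 4 * q ^ 2 - q ^ 4 := by nlinarith [sq_nonneg q]
  have h3 : 0 ≤ 1 - 6 * q ^ 2 + q ^ 4 := by nlinarith [sq_nonneg (q ^ 2)]
  have e1 : p * (q * (1 + 4 * q ^ 2 - q ^ 4) / (1 + q ^ 2) ^ 2) ≤
      3.1416 * (q * (1 + 4 * q ^ 2 - q ^ 4) / (1 + q ^ 2) ^ 2) := by
    apply mul_le_mul_of_nonneg_right hp1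
    positivity
  have e2 : 2 * 3.1415 * (1 / 3 * (2 - 1 / 3) * (q * (1 - q / 2))) ≤
      2 * p * (1 / 3 * (2 - 1 / 3) * (q * (1 - q / 2))) := by
    have : 0 ≤ 1 / 3 * (2 - 1 / 3) * (q * (1 - q / 2)) := by
      have h5 : (0 : ℝ) ≤ 2 - 1 / 3 := by norm_num
      have h6 : 0 ≤ 1 - q / 2 := by linarith
      positivity
    nlinarith
  have e3 : a * (2 * (1 - 6 * q ^ 2 + q ^ 4) / (q * (1 + q ^ 2))) ≤
      (q - q ^ 3 / 3 + q ^ 5 / 5) * (2 * (1 - 6 * q ^ 2 + q ^ 4) / (q * (1 + q ^ 2))) := by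
    apply mul_le_mul_of_nonneg_right ha
    positivity
  have e4 : 2 * 3.1415 * (1 / 3 * (2 - 1 / 3) * (q * (1 - q / 2))) -
      (3.1416 * (q * (1 + 4 * q ^ 2 - q ^ 4) / (1 + q ^ 2) ^ 2) +
      (q - q ^ 3 / 3 + q ^ 5 / 5) * (2 * (1 - 6 * q ^ 2 + q ^ 4) / (q * (1 + q ^ 2))) -
      2 * (1 - q ^ 2) / (1 + q ^ 2)) =
      q * ((15703/45000) + (32117/3600) * q^1 + (-125669/22500) * q^2 + (1397/1800) * q^3 +
        (298447/45000) * q^4 + (-18283/3600) * q^5 + (8/3) * q^7 + (-2/5) * q^9) / (1 + q ^ 2) ^ 2 := by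
    field_simp
    ring
  have e5 : 0 ≤ q * ((15703/45000) + (32117/3600) * q^1 + (-125669/22500) * q^2 + (1397/1800) * q^3 +
        (298447/45000) * q^4 + (-18283/3600) * q^5 + (8/3) * q^7 + (-2/5) * q^9) / (1 + q ^ 2) ^ 2 := by
    positivity
  linarith

theorem num {t ε : ℝ} (ht : 0 < t) (h0 : 0 ≤ ε) (h1 : ε ≤ 1) :
    0 ≤ (2 - ε) * (π * Qe t * (1 - Qe t / 2) - 4 / 3 * Iw t * La t) - 2 * Iw t / Real.tanh t -
        4 * Iw t * ε * Qe t ∨
      Gw t ≤ 2 * π * (ε * (2 - ε) * Qe t * (1 - Qe t / 2)) := by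
  have _ := h0
  have hp0 := Real.pi_gt_d4.le
  have hp1 := Real.pi_lt_d4.le
  have hI := Iw_nonneg ht
  obtain ⟨hT0, hT1, hqT⟩ := Qe_eq ht
  have hq0 := Qe_pos t
  have hq1 := Qe_lt_one ht
  have hR : 0 ≤ Qe t * (1 - Qe t / 2) := by
    apply mul_nonneg hq0.le
    linarith
  rw [show ε * (2 - ε) * Qe t * (1 - Qe t / 2) = ε * (2 - ε) * (Qe t * (1 - Qe t / 2)) by ring]
  rcases le_total (Real.tanh t) (2 / 3) with h | h
  · refine num_aux hI hT0 hq0.le hR h1 (e1 := 1 / 5) (by norm_num) (by norm_num) ?_ ?_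
    · have hA := caseA1 hT0 h hp0 hp1 (pol_le_arctan hT0.le)
      have e : Iw t = π * Real.tanh t / (1 + Real.tanh t ^ 2) -
          2 * Real.arctan (Real.tanh t) := by
        unfold Iw
        rw [tanh_two, hqT]
        have h6 : (1 : ℝ) + Real.tanh t ≠ 0 := by linarith
        field_simp
        ring
      rw [e]
      unfold La
      rw [hqT]
      exact hA
    · have hB := caseB1 hT0 h hp0 hp1 (pol_le_arctan hT0.le) (arctan_le_pol hT0.le)
      have e : Gw t = π * (8 * Real.tanh t ^ 3 / ((1 - Real.tanh t) * (1 + Real.tanh t) *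
          (1 + Real.tanh t ^ 2) ^ 2)) + Real.arctan (Real.tanh t) *
          (4 * (1 - 6 * Real.tanh t ^ 2 + Real.tanh t ^ 4) / ((1 - Real.tanh t) *
          (1 + Real.tanh t) * (1 + Real.tanh t ^ 2))) -
          4 * Real.tanh t / (1 + Real.tanh t ^ 2) := by
        unfold Gw
        rw [cosh_two, sinh_two, hqT]
        have h6 : (1 : ℝ) + Real.tanh t ≠ 0 := by linarith
        have h7 : (1 : ℝ) - Real.tanh t ≠ 0 := by linarith
        set T := Real.tanh t
        have c : (1 / ((1 - T) / (1 + T)) + (1 - T) / (1 + T)) / 2 =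
            (1 + T ^ 2) / ((1 - T) * (1 + T)) := by
          field_simp
          ring
        have s : (1 / ((1 - T) / (1 + T)) - (1 - T) / (1 + T)) / 2 =
            2 * T / ((1 - T) * (1 + T)) := by
          field_simp
          ring
        rw [c, s]
        field_simp
        ring
      rw [e]
      have e' : Qe t * (1 - Qe t / 2) = (1 - Real.tanh t) * (1 + 3 * Real.tanh t) /
          (2 * (1 + Real.tanh t) ^ 2) := by
        rw [hqT]
        have h6 : (1 : ℝ) + Real.tanh t ≠ 0 := by linarith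
        field_simp
        ring
      rw [e']
      exact hB
  · have hq5 : Qe t ≤ 1 / 5 := by
      rw [hqT, div_le_div_iff₀ (by linarith) (by norm_num)]
      linarith
    have hat : Real.arctan (Real.tanh t) = π / 4 - Real.arctan (Qe t) := by
      have h8 : Real.tanh t * Qe t < 1 := by nlinarith
      have h9 := Real.arctan_add h8
      have h10 : (Real.tanh t + Qe t) / (1 - Real.tanh t * Qe t) = 1 := by
        rw [div_eq_one_iff_eq (by linarith), hqT]
        have h6 : (1 : ℝ) + Real.tanh t ≠ 0 := by linarith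
        field_simp
        ring
      rw [h10, Real.arctan_one] at h9
      linarith
    have hTq : Real.tanh t = (1 - Qe t) / (1 + Qe t) := tanh_one t
    have hth2 := tanh_two t
    refine num_aux hI hT0 hq0.le hR h1 (e1 := 1 / 3) (by norm_num) (by norm_num) ?_ ?_
    · have hA := caseA2 hq0 hq5 hp0 (arctan_le_pol hq0.le)
      have e : Iw t = 2 * Real.arctan (Qe t) - π * Qe t ^ 2 / (1 + Qe t ^ 2) := by
        unfold Iw
        rw [hth2, hat]
        field_simp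
        ring
      rw [e, hTq]
      unfold La
      exact hA
    · have hB := caseB2 hq0 hq5 hp0 hp1 (arctan_le_pol hq0.le)
      have e : Gw t = π * (Qe t * (1 + 4 * Qe t ^ 2 - Qe t ^ 4) / (1 + Qe t ^ 2) ^ 2) +
          Real.arctan (Qe t) * (2 * (1 - 6 * Qe t ^ 2 + Qe t ^ 4) / (Qe t * (1 + Qe t ^ 2))) -
          2 * (1 - Qe t ^ 2) / (1 + Qe t ^ 2) := by
        unfold Gw
        rw [cosh_two, sinh_two, hat]
        set q := Qe t
        have c : (1 / q + q) / 2 = (1 + q ^ 2) / (2 * q) := by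
          field_simp
        have s : (1 / q - q) / 2 = (1 - q ^ 2) / (2 * q) := by
          field_simp
        rw [c, s]
        field_simp
        ring
      rw [e]
      exact hB

end Pool.Agent.H36.SZ
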