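import Pool.Agent.H36.SZ.LoL
import Pool.Agent.H36.SZ.LoA
import Pool.Agent.H36.SZ.LoC
import Pool.Agent.H36.SZ.LoI
import Pool.Agent.H36.SZ.LoN

/-!
# Low levels: the theorem

PROOF of `rot`, `Zf_rot`. `F_a z = e^(-ia) F (e^(ia) z)`; `yy F_a t θ = yy F t (θ + a)`, period `2π`.
PROOF of `low`. `x <= 4 sinh^2 t`: `Sg.lo`. Otherwise `x > 0`. Rotate (`b_1 = |b_1| e^(ic)`,
`a = c/2`): `b 1 = 1 - ε`, `0 <= ε <= 1` (`Sg.b1`). By `num` one of two cases.
Second case: `Zf_sq`, `mass`, `int_WX`. First case: `Zf_lin`, `mass`, and with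
`w = max 0 (x / yy J - 1)`, `g = G F - G J`: `yy F - yy J = 2 Re (conj J g) + |g|^2`,
`int w |g|^2 <= (sup) * 2 Iw` (`sup`, `int_W`). `w` has period `π` and is even, so
`int w 2 Re (conj J g) = (1/2) int w (sum of the four values in Sg.lin) <= (2 ε / tanh t) int w
<= 4 ε Iw / tanh t` (where `w > 0`, `yy J < x <= xd t`). The sum is
`-2ε ((2-ε) (π Q (1-Q/2) - (4/3) Iw La) - 2 Iw / tanh t - 4 Iw ε Q) <= 0`.
-/

open Complex MeasureTheory Set Filter Topology
open scoped ComplexConjugate Real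

namespace Pool.Agent.H36.SZ

variable {F : ℂ → ℂ} {b : ℕ → ℂ} {q : ℝ}

private theorem lo_nrm (a : ℝ) (z : ℂ) : ‖exp (a * I) * z‖ = ‖z‖ := by
  rw [norm_mul, Complex.norm_exp_ofReal_mul_I, one_mul]

private theorem lo_cJ (t : ℝ) : Continuous (yy J t) := by
  have e : yy J t = fun θ => 4 * Real.sinh t ^ 2 + 4 * Real.cos θ ^ 2 := funext (yy_J t)
  rw [e]
  fun_prop

private theorem lo_J0 {t : ℝ} (ht : 0 < t) (θ : ℝ) : 0 < yy J t θ := by
  have h1 := le_yy_J t θ
  have h2 : 0 < Real.sinh t := Real.sinh_pos_iff.2 ht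
  have h3 : 0 < 4 * Real.sinh t ^ 2 := by positivity
  linarith

private theorem lo_cW {t : ℝ} (ht : 0 < t) (x : ℝ) :
    Continuous fun θ => max 0 (x / yy J t θ - 1) :=
  continuous_const.max
    ((continuous_const.div (lo_cJ t) fun θ => (lo_J0 ht θ).ne').sub continuous_const)

private theorem lo_GJ (t : ℝ) : Continuous (G J t) := by
  have e : G J t = fun θ : ℝ => (2 * Real.cosh t * Real.cos θ + 2 * Real.sinh t * Real.sin θ * I :
    ℂ) := funext (G_J t)
  rw [e]
  fun_prop

private theorem lo_per (F : ℂ → ℂ) (t θ : ℝ) : G F t (θ + 2 * π) = G F t θ := by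
  unfold G
  have e : (t : ℂ) + ((θ + 2 * π : ℝ) : ℂ) * I = (t + θ * I) + 2 * π * I := by
    push_cast
    ring
  rw [e, Complex.exp_periodic]

theorem Sg.rot (h : Sg F b q) (a : ℝ) :
    Sg (fun z => exp (-(a * I)) * F (exp (a * I) * z))
      (fun n => b n * exp (-(((n : ℂ) + 1) * a * I))) q := by
  have hq : ∀ z : ℂ, q < ‖z‖ → q < ‖exp (a * I) * z‖ := fun z hz => by rwa [lo_nrm]
  refine ⟨h.q0, h.q1, ?_, ?_, ?_⟩
  · intro z hz w hw hzw
    have h1 : F (exp (a * I) * z) = F (exp (a * I) * w) :=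
      mul_left_cancel₀ (Complex.exp_ne_zero _) hzw
    have h2 := h.inj (hq z hz) (hq w hw) h1
    exact mul_left_cancel₀ (Complex.exp_ne_zero _) h2
  · intro z hz
    have h1 := (h.hasSum (exp (a * I) * z) (hq z hz)).mul_left (exp (-(a * I)))
    have e1 : exp (-(a * I)) * (F (exp (a * I) * z) - exp (a * I) * z) =
        exp (-(a * I)) * F (exp (a * I) * z) - z := by
      rw [mul_sub, ← mul_assoc (exp (-(a * I))) (exp (a * I)) z, ← Complex.exp_add,
        neg_add_cancel, Complex.exp_zero, one_mul]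
    rw [e1] at h1
    have e2 : (fun n : ℕ => exp (-(a * I)) * (b n * (exp (a * I) * z)⁻¹ ^ n)) =
        fun n : ℕ => b n * exp (-(((n : ℂ) + 1) * a * I)) * z⁻¹ ^ n := by
      funext n
      rw [mul_inv, mul_pow, ← Complex.exp_neg, ← Complex.exp_nat_mul]
      have e3 : exp (-(((n : ℂ) + 1) * a * I)) = exp (-(a * I)) * exp ((n : ℂ) * (-(a * I))) := by
        rw [← Complex.exp_add]
        congr 1
        ring
      rw [e3]
      ring
    rw [e2] at h1
    exact h1
  · rw [h.b0, zero_mul]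

theorem Zf_rot (F : ℂ → ℂ) (a t x : ℝ) :
    Zf (fun z => exp (-(a * I)) * F (exp (a * I) * z)) t x = Zf F t x := by
  unfold Zf
  have h1 : ∀ θ, yy (fun z => exp (-(a * I)) * F (exp (a * I) * z)) t θ = yy F t (θ + a) := by
    intro θ
    have e : exp (a * I) * exp (t + θ * I) = exp ((t : ℂ) + ((θ + a : ℝ) : ℂ) * I) := by
      rw [← Complex.exp_add]
      congr 1
      push_cast
      ring
    have e2 : ‖exp (-(a * I))‖ = 1 := by
      have := Complex.norm_exp_ofReal_mul_I (-a)
      rw [← this]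
      congr 2
      push_cast
      ring
    unfold yy G
    beta_reduce
    rw [e, norm_mul, e2, one_mul]
  simp_rw [h1]
  have hp : Function.Periodic (fun θ => Ph x (yy F t θ)) (2 * π) := by
    intro θ
    beta_reduce
    unfold yy
    rw [lo_per]
  rw [intervalIntegral.integral_comp_add_right (fun θ => Ph x (yy F t θ)) a]
  have h2 := hp.intervalIntegral_add_eq (-π + a) (-π)
  have e1 : -π + a + 2 * π = π + a := by ring
  have e2 : -π + 2 * π = π := by ring
  rw [e1, e2] at h2
  exact h2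

theorem Sg.lin_int (h : Sg F b q) {t x : ℝ} (ht : 0 < t) (hx : x ≤ xd t) :
    ∫ θ in (-π)..π, max 0 (x / yy J t θ - 1) * (2 * (conj (G J t θ) * (G F t θ - G J t θ)).re) ≤
      4 * (1 - (b 1).re) * Iw t / Real.tanh t := by
  have hpi : (-π : ℝ) ≤ π := by linarith [Real.pi_pos]
  have hqt : q < Real.exp t := lt_of_lt_of_le h.q1 (Real.one_le_exp ht.le)
  have cF : Continuous (G F t) := h.an.cGt hqt
  have cJ := lo_GJ t
  have cW := lo_cW ht x
  set W : ℝ → ℝ := fun θ => max 0 (x / yy J t θ - 1) with hW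
  set L : ℝ → ℝ := fun θ => (conj (G J t θ) * (G F t θ - G J t θ)).re with hL
  have cL : Continuous L :=
    Complex.continuous_re.comp ((Complex.continuous_conj.comp cJ).mul (cF.sub cJ))
  have W0 : ∀ θ, 0 ≤ W θ := fun θ => le_max_left _ _
  have Wneg : ∀ θ, W (-θ) = W θ := by
    intro θ
    rw [hW]
    beta_reduce
    rw [yy_J, yy_J, Real.cos_neg]
  have Wpi : ∀ θ, W (θ + π) = W θ := by
    intro θ
    rw [hW]
    beta_reduce
    rw [yy_J, yy_J, Real.cos_add_pi, neg_sq]
  have Lper : ∀ θ, L (θ + 2 * π) = L θ := by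
    intro θ
    rw [hL]
    beta_reduce
    rw [lo_per, lo_per]
  have Wper : ∀ θ, W (θ + 2 * π) = W θ := by
    intro θ
    have e : θ + 2 * π = θ + π + π := by ring
    rw [e, Wpi, Wpi]
  have WLp : Function.Periodic (fun θ => W θ * L θ) (2 * π) := by
    intro θ
    beta_reduce
    rw [Wper, Lper]
  have sh : ∀ f : ℝ → ℝ, Function.Periodic f (2 * π) →
      ∫ θ in (-π)..π, f (θ + π) = ∫ θ in (-π)..π, f θ := by
    intro f hf
    rw [intervalIntegral.integral_comp_add_right f π]
    have h2 := hf.intervalIntegral_add_eq (-π + π) (-π)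
    have e1 : -π + π + 2 * π = π + π := by ring
    have e2 : -π + 2 * π = π := by ring
    rw [e1, e2] at h2
    exact h2
  have ng : ∀ f : ℝ → ℝ, ∫ θ in (-π)..π, f (-θ) = ∫ θ in (-π)..π, f θ := by
    intro f
    rw [intervalIntegral.integral_comp_neg, neg_neg]
  have i1 : ∫ θ in (-π)..π, W θ * L (-θ) = ∫ θ in (-π)..π, W θ * L θ := by
    have := ng fun θ => W θ * L θ
    simp_rw [Wneg] at this
    exact this
  have i2 : ∫ θ in (-π)..π, W θ * L (θ + π) = ∫ θ in (-π)..π, W θ * L θ := by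
    have := sh _ WLp
    simp_rw [Wpi] at this
    exact this
  have i3 : ∫ θ in (-π)..π, W θ * L (-(θ + π)) = ∫ θ in (-π)..π, W θ * L θ := by
    have hp : Function.Periodic (fun θ => W θ * L (-θ)) (2 * π) := by
      intro θ
      beta_reduce
      have e : -(θ + 2 * π) + 2 * π = -θ := by ring
      have := Lper (-(θ + 2 * π))
      rw [e] at this
      rw [Wper, ← this]
    have := sh _ hp
    simp_rw [Wpi] at this
    rw [this, i1]
  have j0 : IntervalIntegrable (fun θ => W θ * L θ) volume (-π) π :=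
    (cW.mul cL).intervalIntegrable _ _
  have j1 : IntervalIntegrable (fun θ => W θ * L (-θ)) volume (-π) π :=
    (cW.mul (cL.comp continuous_neg)).intervalIntegrable _ _
  have j2 : IntervalIntegrable (fun θ => W θ * L (θ + π)) volume (-π) π :=
    (cW.mul (cL.comp (continuous_id.add continuous_const))).intervalIntegrable _ _
  have j3 : IntervalIntegrable (fun θ => W θ * L (-(θ + π))) volume (-π) π :=
    (cW.mul (cL.comp (continuous_id.add continuous_const).neg)).intervalIntegrable _ _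
  have e4 : 4 * ∫ θ in (-π)..π, W θ * L θ =
      ∫ θ in (-π)..π, (W θ * L θ + W θ * L (-θ) + W θ * L (θ + π) + W θ * L (-(θ + π))) := by
    rw [intervalIntegral.integral_add ((j0.add j1).add j2) j3,
      intervalIntegral.integral_add (j0.add j1) j2, intervalIntegral.integral_add j0 j1,
      i1, i2, i3]
    ring
  have hb1 : 0 ≤ 1 - (b 1).re := by
    have h1 := (Complex.abs_re_le_norm (b 1)).trans h.b1.le
    linarith [le_abs_self (b 1).re]
  have hth : 0 < Real.tanh t := by
    rw [Real.tanh_eq_sinh_div_cosh]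
    exact div_pos (Real.sinh_pos_iff.2 ht) (Real.cosh_pos t)
  have h5 : ∫ θ in (-π)..π, (W θ * L θ + W θ * L (-θ) + W θ * L (θ + π) + W θ * L (-(θ + π))) ≤
      ∫ θ in (-π)..π, W θ * (4 * (1 - (b 1).re) / Real.tanh t) := by
    refine intervalIntegral.integral_mono_on hpi (((j0.add j1).add j2).add j3)
      ((cW.mul continuous_const).intervalIntegrable _ _) fun θ _ => ?_
    rcases (W0 θ).eq_or_lt with h6 | h6
    · rw [← h6]
      simp
    · have h7 : yy J t θ ≤ xd t := by
        by_contra h8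
        rw [not_le] at h8
        have h9 : x / yy J t θ ≤ 1 := (div_le_one (lo_J0 ht θ)).2 (by linarith)
        have h10 : W θ = 0 := by
          rw [hW]
          beta_reduce
          exact max_eq_left (by linarith)
        exact h6.ne' h10
      have h8 := mul_le_mul_of_nonneg_left (h.lin ht h7) (W0 θ)
      refine le_trans (le_of_eq ?_) h8
      rw [hL]
      ring
  rw [intervalIntegral.integral_mul_const, ← e4] at h5
  have h6 : (∫ θ in (-π)..π, W θ) * (4 * (1 - (b 1).re) / Real.tanh t) ≤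
      2 * Iw t * (4 * (1 - (b 1).re) / Real.tanh t) :=
    mul_le_mul_of_nonneg_right (int_W ht hx) (by positivity)
  have e7 : ∫ θ in (-π)..π, W θ * (2 * L θ) = 2 * ∫ θ in (-π)..π, W θ * L θ := by
    rw [← intervalIntegral.integral_const_mul]
    refine intervalIntegral.integral_congr fun θ _ => ?_
    ring
  have e8 : 4 * (1 - (b 1).re) * Iw t / Real.tanh t =
      2 * Iw t * (4 * (1 - (b 1).re) / Real.tanh t) / 2 := by ring
  rw [e8]
  change ∫ θ in (-π)..π, W θ * (2 * L θ) ≤ _
  rw [e7]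
  linarith

theorem Sg.low_real (h : Sg F b q) {ε : ℝ} (h0 : 0 ≤ ε) (h1 : ε ≤ 1)
    (hb : b 1 = ((1 - ε : ℝ) : ℂ)) {t x : ℝ} (ht : 0 < t) (hx : 0 < x) (hd : x ≤ xd t) :
    Zf F t x ≤ Zf J t x := by
  have hpi : (-π : ℝ) ≤ π := by linarith [Real.pi_pos]
  have hm := h.mass hb ht
  rcases num ht h0 h1 with hn | hn
  · have hqt : q < Real.exp t := lt_of_lt_of_le h.q1 (Real.one_le_exp ht.le)
    have cF : Continuous (G F t) := h.an.cGt hqt
    have cJ := lo_GJ t
    have cW := lo_cW ht x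
    have hl := h.Zf_lin ht hx
    have h2 := h.lin_int ht hd
    have h3 : ∀ θ, yy F t θ - yy J t θ = 2 * (conj (G J t θ) * (G F t θ - G J t θ)).re +
        ‖G F t θ - G J t θ‖ ^ 2 := by
      intro θ
      unfold yy
      rw [← Complex.normSq_eq_norm_sq, ← Complex.normSq_eq_norm_sq, ← Complex.normSq_eq_norm_sq,
        Complex.normSq_apply, Complex.normSq_apply, Complex.normSq_apply]
      simp only [Complex.mul_re, Complex.conj_re, Complex.conj_im, Complex.sub_re, Complex.sub_im]
      ring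
    have c1 : Continuous fun θ => (conj (G J t θ) * (G F t θ - G J t θ)).re :=
      Complex.continuous_re.comp ((Complex.continuous_conj.comp cJ).mul (cF.sub cJ))
    have c2 : Continuous fun θ => ‖G F t θ - G J t θ‖ ^ 2 := (cF.sub cJ).norm.pow 2
    have h4 : ∫ θ in (-π)..π, max 0 (x / yy J t θ - 1) * (yy F t θ - yy J t θ) =
        (∫ θ in (-π)..π, max 0 (x / yy J t θ - 1) *
          (2 * (conj (G J t θ) * (G F t θ - G J t θ)).re)) +
        ∫ θ in (-π)..π, max 0 (x / yy J t θ - 1) * ‖G F t θ - G J t θ‖ ^ 2 := by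
      have a1 : IntervalIntegrable (fun θ => max 0 (x / yy J t θ - 1) *
          (2 * (conj (G J t θ) * (G F t θ - G J t θ)).re)) volume (-π) π :=
        (cW.mul (continuous_const.mul c1)).intervalIntegrable _ _
      have a2 : IntervalIntegrable (fun θ => max 0 (x / yy J t θ - 1) *
          ‖G F t θ - G J t θ‖ ^ 2) volume (-π) π := (cW.mul c2).intervalIntegrable _ _
      rw [← intervalIntegral.integral_add a1 a2]
      refine intervalIntegral.integral_congr fun θ _ => ?_
      rw [h3, mul_add]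
    set K : ℝ := 4 * ε ^ 2 * Qe t + 4 / 3 * (ε * (2 - ε)) * La t with hK
    have hK0 : 0 ≤ K := le_trans (sq_nonneg _) (h.sup h0 h1 hb ht 0)
    have h5 : ∫ θ in (-π)..π, max 0 (x / yy J t θ - 1) * ‖G F t θ - G J t θ‖ ^ 2 ≤
        2 * Iw t * K := by
      have h6 : ∫ θ in (-π)..π, max 0 (x / yy J t θ - 1) * ‖G F t θ - G J t θ‖ ^ 2 ≤
          ∫ θ in (-π)..π, max 0 (x / yy J t θ - 1) * K := by
        refine intervalIntegral.integral_mono_on hpi ((cW.mul c2).intervalIntegrable _ _)
          ((cW.mul continuous_const).intervalIntegrable _ _) fun θ _ => ?_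
        exact mul_le_mul_of_nonneg_left (h.sup h0 h1 hb ht θ) (le_max_left _ _)
      rw [intervalIntegral.integral_mul_const] at h6
      exact h6.trans (mul_le_mul_of_nonneg_right (int_W ht hd) hK0)
    have h7 : (b 1).re = 1 - ε := by rw [hb, Complex.ofReal_re]
    rw [h7] at h2
    rw [h4] at hl
    have h8 := mul_nonneg h0 hn
    have h9 : ε * ((2 - ε) * (π * Qe t * (1 - Qe t / 2) - 4 / 3 * Iw t * La t) -
        2 * Iw t / Real.tanh t - 4 * Iw t * ε * Qe t) =
        π * (ε * (2 - ε) * Qe t * (1 - Qe t / 2)) -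
        (4 * (1 - (1 - ε)) * Iw t / Real.tanh t) / 2 - Iw t * K := by
      rw [hK]
      ring
    rw [h9] at h8
    linarith
  · have h2 := h.Zf_sq ht hx
    have h3 := int_WX ht hd
    linarith

/-- **Theorem LOW** -/
theorem Sg.low (h : Sg F b q) {t x : ℝ} (ht : 0 < t) (hx : 0 ≤ x) (hd : x ≤ xd t) :
    Zf F t x ≤ Zf J t x := by
  rcases le_or_gt x (4 * Real.sinh t ^ 2) with h1 | h1
  · exact h.lo ht.le hx h1
  · have hx0 : 0 < x := lt_of_le_of_lt (by positivity) h1
    have h2 := h.rot ((b 1).arg / 2)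
    have h3 : (fun n : ℕ => b n * exp (-(((n : ℂ) + 1) * (((b 1).arg / 2 : ℝ) : ℂ) * I))) 1 =
        (((1 - (1 - ‖b 1‖) : ℝ)) : ℂ) := by
      beta_reduce
      have e1 : -((((1 : ℕ) : ℂ) + 1) * (((b 1).arg / 2 : ℝ) : ℂ) * I) = -((b 1).arg * I) := by
        push_cast
        ring
      rw [e1]
      have e2 := Complex.norm_mul_exp_arg_mul_I (b 1)
      have e3 : b 1 * exp (-((b 1).arg * I)) = ‖b 1‖ := by
        calc b 1 * exp (-((b 1).arg * I)) =
            (‖b 1‖ * exp ((b 1).arg * I)) * exp (-((b 1).arg * I)) := by rw [e2]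
          _ = ‖b 1‖ := by
            rw [mul_assoc, ← Complex.exp_add, add_neg_cancel, Complex.exp_zero, mul_one]
      rw [e3]
      push_cast
      ring
    have h4 := h2.low_real (ε := 1 - ‖b 1‖) (by linarith [h.b1]) (by linarith [norm_nonneg (b 1)])
      h3 ht hx0 hd
    rw [Zf_rot] at h4
    exact h4

end Pool.Agent.H36.SZ
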