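import Pool.Agent.H36.SZ.LgL
import Pool.Agent.H36.SZ.LgB
import Pool.Agent.H36.SZ.LgD
import Pool.Agent.H36.SZ.LgO
import Pool.Agent.H36.SZ.LgC
import Pool.Agent.H36.SZ.LbC
import Pool.Agent.H36.SZ.Lo
import Pool.Agent.H36.SZ.Lk

/-!
# Long lobes: assembly

At a contact point with `t <= 3/5` every lobe has half-width `< π/2`.
-/

open Complex MeasureTheory Set Filter Topology
open scoped ComplexConjugate Real

namespace Pool.Agent.H36.SZ

variable {F : ℂ → ℂ} {b : ℕ → ℂ} {q : ℝ}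

/-- the rotated function -/
private noncomputable def Fr (F : ℂ → ℂ) (a : ℝ) : ℂ → ℂ :=
  fun z => exp (-(a * I)) * F (exp (a * I) * z)

private theorem yy_Fr (F : ℂ → ℂ) (a t θ : ℝ) : yy (Fr F a) t θ = yy F t (θ + a) := by
  have e : exp (a * I) * exp (t + θ * I) = exp ((t : ℂ) + ((θ + a : ℝ) : ℂ) * I) := by
    rw [← Complex.exp_add]
    congr 1
    push_cast
    ring
  have e2 : ‖exp (-(a * I))‖ = 1 := by
    have := Complex.norm_exp_ofReal_mul_I (-a)
    rw [← this]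
    congr 2
    push_cast
    ring
  unfold yy G Fr
  beta_reduce
  rw [e, norm_mul, e2, one_mul]

private theorem int_Fr (F : ℂ → ℂ) (a t : ℝ) (f : ℝ → ℝ) :
    ∫ θ in (-π)..π, f (yy (Fr F a) t θ) = ∫ θ in (-π)..π, f (yy F t θ) := by
  simp_rw [yy_Fr]
  rw [intervalIntegral.integral_comp_add_right (fun θ => f (yy F t θ)) a]
  have hp : Function.Periodic (fun θ => f (yy F t θ)) (2 * π) := by
    intro θ
    have : yy F t (θ + 2 * π) = yy F t θ := by
      unfold yy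
      rw [G_per F t θ]
    simp only [this]
  have h2 := hp.intervalIntegral_add_eq (-π + a) (-π)
  have e1 : -π + a + 2 * π = π + a := by ring
  have e2 : -π + 2 * π = π := by ring
  rw [e1, e2] at h2
  exact h2

theorem Sg.noarc (h : Sg F b q) {t θ : ℝ} (c : Ct F t (Xl t θ)) (ht1 : t ≤ 3 / 5) (h1 : 1 ≤ θ)
    (h2 : θ < π / 2) (hk : 5 / 4 * Real.tanh t ≤ Real.tan (π / 2 - θ)) (p : ℝ)
    (harc : ∀ s ∈ Ioo p (p + π), Xl t θ < yy F t s) : False := by
  have hpi := Real.pi_pos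
  have ht : 0 < t := c.t0
  set x := Xl t θ with hx
  have hx0 : 0 < x := lt_of_le_of_lt (by positivity) c.lo
  set γ := π / 2 - θ with hγ
  have hγ0 : 0 < γ := by rw [hγ]; linarith
  have hγ1 : γ ≤ π / 2 - 1 := by rw [hγ]; linarith
  have hsγ : Real.sin γ = Real.cos θ := by rw [hγ, Real.sin_pi_div_two_sub]
  set a := (b 1).arg / 2 with ha
  have hF := h.rot a
  have hF' : Sg (Fr F a) (fun n => b n * exp (-(((n : ℂ) + 1) * a * I))) q := hF
  set ε := 1 - ‖b 1‖ with hε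
  have hb1 : ‖b 1‖ ≤ 1 := h.b1.le
  have he0 : 0 ≤ ε := by rw [hε]; linarith
  have he1 : ε ≤ 1 := by rw [hε]; linarith [norm_nonneg (b 1)]
  have hb : (fun n : ℕ => b n * exp (-(((n : ℂ) + 1) * a * I))) 1 = ((1 - ε : ℝ) : ℂ) := by
    beta_reduce
    have e1 : -((((1 : ℕ) : ℂ) + 1) * (a : ℂ) * I) = -((b 1).arg * I) := by
      rw [ha]
      push_cast
      ring
    rw [e1]
    have e2 := Complex.norm_mul_exp_arg_mul_I (b 1)
    have e3 : b 1 * exp (-((b 1).arg * I)) = ‖b 1‖ := by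
      calc b 1 * exp (-((b 1).arg * I)) =
          (‖b 1‖ * exp ((b 1).arg * I)) * exp (-((b 1).arg * I)) := by rw [e2]
        _ = ‖b 1‖ := by
          rw [mul_assoc, ← Complex.exp_add, add_neg_cancel, Complex.exp_zero, mul_one]
    rw [e3, hε]
    push_cast
    ring
  set AD := (∫ θ in (-π)..π, yy J t θ) - (∫ θ in (-π)..π, yy F t θ) with hAD
  have i0 : ∫ θ in (-π)..π, yy (Fr F a) t θ = ∫ θ in (-π)..π, yy F t θ := int_Fr F a t fun y => y
  have i1 : ∫ θ in (-π)..π, max (x - yy (Fr F a) t θ) 0 = ∫ θ in (-π)..π, max (x - yy F t θ) 0 :=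
    int_Fr F a t fun y => max (x - y) 0
  have hm : π * (ε * (2 - ε) * Qe t * (2 - Qe t)) ≤ AD := by
    have h3 := hF'.mass hb ht
    rw [i0] at h3
    rw [hAD]
    linarith
  have had1 := h.ad1 c
  have had2 := h.ad2 c
  have had4 := hF'.ad4 he0 he1 hb ht
  have harc' : ∀ s ∈ Ioo (p - a) (p - a + π), x < yy (Fr F a) t s := by
    intro s hs'
    rw [yy_Fr]
    exact harc _ ⟨by linarith [hs'.1], by linarith [hs'.2]⟩
  have hA := hF'.arcA (x := x) (p := p - a) ht hx0 (by rw [i0, i1]; exact had1) harc'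
  rw [i0] at hA
  have hint1 := int1 (t := t) (θ := θ) (by linarith) h2.le
  rw [← hx, ← hγ] at hint1
  rw [hint1] at hA
  have hQ0 : 0 < Qe t := Real.exp_pos _
  have hQ1 : Qe t < 1 := by
    unfold Qe
    rw [Real.exp_lt_one_iff]
    linarith
  have hR1 : 1 < Rr t ε := by
    unfold Rr
    have : 0 < (2 * ε / (2 - ε) + Qe t) / (2 - Qe t) := by
      have a1 : 0 < 2 - ε := by linarith
      have a2 : 0 < 2 - Qe t := by linarith
      positivity
    linarith
  have hr : ∫ θ in (-π)..π, ‖G (Fr F a) t θ - G J t θ‖ ^ 2 ≤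
      (Rr t ε - 1) * ((∫ θ in (-π)..π, yy J t θ) - ∫ θ in (-π)..π, yy (Fr F a) t θ) := by
    rw [i0, ← hAD]
    refine had4.trans ?_
    have e1 : π * (2 * ε ^ 2 * Qe t + ε * (2 - ε) * Qe t ^ 2) =
        (Rr t ε - 1) * (π * (ε * (2 - ε) * Qe t * (2 - Qe t))) := by
      unfold Rr
      have a1 : 2 - ε ≠ 0 := by linarith
      have a2 : 2 - Qe t ≠ 0 := by linarith
      field_simp
      ring
    rw [e1]
    exact mul_le_mul_of_nonneg_left hm (by linarith)
  set W := Rr t ε * Real.sin γ ^ 2 + (Rr t ε - 1) * Real.sinh t ^ 2 with hW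
  have hW0 : 0 ≤ W := by
    have : 0 < Rr t ε - 1 := by linarith
    have : 0 < Rr t ε := by linarith
    rw [hW]
    positivity
  set v := Real.arcsin (√W) with hv
  have hv0 : 0 ≤ v := Real.arcsin_nonneg.2 (Real.sqrt_nonneg _)
  have hv1 : v ≤ π / 2 := Real.arcsin_le_pi_div_two _
  have hvs : W ≤ 1 → Real.sin v ^ 2 = W := by
    intro k1
    rw [hv, Real.sin_arcsin (by linarith [Real.sqrt_nonneg W]) (Real.sqrt_le_one.2 k1),
      Real.sq_sqrt hW0]
  rcases le_or_gt t (1 / 5) with h5 | h5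
  · obtain ⟨k1, k2⟩ := lgn3 ht h5 hγ0 hγ1 hk he0 he1 (by
      refine hm.trans (hA.trans (le_of_eq ?_))
      rw [hx, Xl, hsγ]
      ring)
    have k3 := k2 v hv0 hv1 (hvs k1)
    have hJ := hF'.arcJ2 (x := x) (R := Rr t ε) (p := p - a) ht hx0 hR1
      (by rw [i0, i1]; exact had1) hr harc'
    have hint2 := int2 (t := t) (θ := θ) (R := Rr t ε) (v0 := v) (by linarith) hv0 hv1 (by
      rw [hvs k1, hW, hsγ])
    have hint5 := int5 (t := t) (θ := θ) ht (by linarith) h2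
    rw [← hx] at hint2 hint5
    rw [hint1, hint2] at hJ
    rw [hsγ] at k3
    set c5 := 16 / 15 * Real.cos θ ^ 5 / (Real.sinh t ^ 2 + Real.cos θ ^ 2) +
      16 / 35 * Real.cos θ ^ 7 / (Real.sinh t ^ 2 + Real.cos θ ^ 2) ^ 2 +
      16 / 63 * Real.cos θ ^ 9 / (Real.sinh t ^ 2 + Real.cos θ ^ 2) ^ 3 with hc5
    have k4 : c5 / (Rr t ε - 1) ≤
        (∫ θ in (-π)..π, Pm x (max (x - yy J t θ) 0)) / (2 * (Rr t ε - 1)) := by
      have a1 : 0 < Rr t ε - 1 := by linarith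
      rw [div_le_div_iff₀ a1 (by linarith)]
      nlinarith [mul_le_mul_of_nonneg_right hint5 a1.le]
    linarith
  · obtain ⟨k1, k2⟩ := lgn2 h5.le ht1 hγ0 hγ1 (by
      have : 0 < Real.tanh t := by
        rw [Real.tanh_eq_sinh_div_cosh]
        exact div_pos (Real.sinh_pos_iff.2 ht) (Real.cosh_pos t)
      linarith) he0 he1 (by
      refine hm.trans (had2.trans ?_)
      have := int3 (t := t) (θ := θ) ht (by linarith) h2
      rw [← hx, ← hγ, ← hsγ] at this
      exact this)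
    have k3 := k2 v hv0 hv1 (hvs k1)
    have hJ := hF'.arcJ (x := x) (R := Rr t ε) (p := p - a) ht hR1 (by rw [i0, i1]; exact had1) hr
      harc'
    have hint2 := int2 (t := t) (θ := θ) (R := Rr t ε) (v0 := v) (by linarith) hv0 hv1 (by
      rw [hvs k1, hW, hsγ])
    rw [← hx] at hint2
    rw [hint1, hint2] at hJ
    have k4 : 2 / Rr t ε * rh v ≤ 2 / Rr t ε * (2 * Rr t ε * rh γ) := by
      have : 0 < 2 / Rr t ε := by positivity
      gcongr
    have k5 : 2 / Rr t ε * (2 * Rr t ε * rh γ) = 4 * rh γ := by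
      have : Rr t ε ≠ 0 := by linarith
      field_simp
      ring
    linarith

/-- `x > 2 Dg t (gk t)` means `tan γ > 5/4 tanh t` -/
private theorem lgf_tan {t θ : ℝ} (ht : 0 < t) (h0 : 0 < θ) (h1 : θ < π / 2)
    (hx : 2 * Dg t (gk t) < Xl t θ) : 5 / 4 * Real.tanh t < Real.tan (π / 2 - θ) := by
  have hpi := Real.pi_pos
  by_contra h6
  have h8 := not_lt.1 h6
  have h9 : π / 2 - θ ≤ gk t := by
    unfold gk
    rw [← Real.arctan_tan (x := π / 2 - θ) (by linarith) (by linarith)]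
    exact Real.arctan_strictMono.monotone h8
  have h10 : gk t < π / 2 := Real.arctan_lt_pi_div_two _
  have h11 : Real.cos (2 * gk t) ≤ Real.cos (2 * (π / 2 - θ)) :=
    Real.cos_le_cos_of_nonneg_of_le_pi (by linarith) (by linarith) (by linarith)
  have h12 : Real.cos (2 * (π / 2 - θ)) = 1 - 2 * Real.cos θ ^ 2 := by
    have : 2 * (π / 2 - θ) = π - 2 * θ := by ring
    rw [this, Real.cos_pi_sub, Real.cos_two_mul]
    ring
  have h13 : Real.cosh (2 * t) = 1 + 2 * Real.sinh t ^ 2 := by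
    rw [Real.cosh_two_mul]
    have := Real.cosh_sq t
    linarith
  rw [Xl, Dg, h13] at hx
  linarith

/-- at a contact point `tanh t * tan θ < 4/5`, and all lobes are short for `t <= 3/5` -/
theorem Sg.short (h : Sg F b q) {t x : ℝ} (c : Ct F t x) (ht1 : t ≤ 3 / 2) :
    ∃ (θ : ℝ) (L : List Lb), 0 < θ ∧ θ < π / 2 ∧ Xl t θ = x ∧
      Real.tanh t * Real.tan θ < 4 / 5 ∧ Cl t θ L ∧ (t ≤ 3 / 5 → ∀ l ∈ L, l.b < π / 2) := by
  obtain ⟨θ, L, h0, h1, h2, h3, h4⟩ := h.cl' c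
  have ht : 0 < t := c.t0
  have hpi := Real.pi_pos
  have hx0 : 0 < x := lt_of_le_of_lt (by positivity) c.lo
  have hxd : 2 * Dg t (gk t) < x := by
    by_contra hh
    have := h.lowk ht ht1 hx0.le (not_lt.1 hh)
    linarith [c.pos]
  have htan := lgf_tan ht h0 h1 (by rw [h2]; exact hxd)
  refine ⟨θ, L, h0, h1, h2, ?_, h3, fun ht3 => ?_⟩
  · have h7 : 0 < Real.tan θ := Real.tan_pos_of_pos_of_lt_pi_div_two h0 h1
    rw [Real.tan_pi_div_two_sub] at htan
    have h8 := mul_lt_mul_of_pos_right htan h7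
    rw [inv_mul_cancel₀ h7.ne'] at h8
    linarith
  rcases le_or_gt θ 1 with h5 | h5
  · exact h3.long1 ht ht3 h0 h5
  · intro l hl
    by_contra hb
    have hb := not_lt.1 hb
    obtain ⟨p, hp⟩ := h4 l hl
    have c' : Ct F t (Xl t θ) := by rw [h2]; exact c
    refine h.noarc c' ht3 h5.le h1 htan.le p fun s hs' => ?_
    rw [h2]
    exact hp s ⟨hs'.1, by linarith [hs'.2]⟩

end Pool.Agent.H36.SZ
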