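import Pool.Agent.H36.SZ.LgE
import Pool.Agent.H36.SZ.LbD

/-!
# Long lobes, `θ <= 1`: certificate

PROOF of `Cl.long1`. `K = 5/4`. Let `l0 ∈ L`, `l0.b >= π/2`; `L` = `l0` and the rest `L'`
(`List.perm_cons_erase` or split the list). All `b > 0`, `sum b <= 2θ <= 2`, so the others have
`sum b <= β = 2θ - l0.b <= 2 - π/2 < 0.43`, `K β < π/2`, and `l0.b <= 2`, `K l0.b <= 5/2 < π`.
`x = Xl t θ > 0`. `nat_en` for the others, `lone_en` with `p = 2 C sin l0.b` (`Ok.co` with `p = -b`,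
`r = b`) for `l0`. `sum (K tan (K b_i) - K^2 b_i) <= K tan (K β) - K^2 β`: `g u = K tan (K u) - K^2 u`
is superadditive (`g 0 = 0`, convex) and nondecreasing on `[0, π/(2K))`.
`q2` with `v = 0` minus `K^2/2` times `v` (the field), halves:
`sum (E/2 - K^2 M/2 + K^2 x b) < 4 θ (1 - K^2) cosh 2t - 2 (1 + K^2) sin 2θ + 2 K^2 x θ`
(`4 sin θ cos θ = 2 sin 2θ`; strict because of the strict field `v`, `K^2 > 0`).
So with `b = l0.b`:
`K x (cot K b - tan K β) + 4 θ (K^2 - 1) cosh 2t + 2 (1 + K^2) sin 2θ < 4 C^2 K^3 sin^2 b /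
(K b - sin K b cos K b)` (the terms `K^2 x b` add up to `2 K^2 x θ` at most).
This is `lln` negated.
PROOF of `lln`. `cot K b - tan K β = cos (2Kθ) / (sin K b * cos K β)`,
`2 sin K b cos K β = sin (2Kθ) + sin (2K (b - θ))`, `2K(b-θ) ∈ [K(π - 2θ), 2Kθ]`.
`S = sinh t`, `C^2 = 1 + S^2`, `cosh 2t = 1 + 2 S^2`, `x = 4 (S^2 + cos^2 θ)`, `S^2 <= 0.4054`;
everything is linear in `S^2`, so check `S^2 = 0` and `S^2 = 0.4054`. `sin^2 b / (K b - sin K b cos K b)`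
is decreasing on `[π/2, 2]`. Numbers (left side minus right side): `θ = π/4`: `2.5`
(`S^2 = 0`), `1.7` (`S^2 = 0.4`); `θ = 0.9`: `2.1`, `0.8`; `θ = 1`: `b = π/2`: `2.0`, `0.48`;
`b = 1.75`: `2.3`, `1.1`; `b = 2`: `2.1`, `1.0`. Subdivide `θ` (and `b` for `θ > 0.9`).
-/

open Complex MeasureTheory Set Filter Topology
open scoped ComplexConjugate Real

namespace Pool.Agent.H36.SZ

private theorem sin_lo {x : ℝ} (h0 : 0 ≤ x) (h1 : x ≤ 1) :
    x - x ^ 3 / 6 - 5 / 96 * x ^ 4 ≤ Real.sin x := by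
  have h := Real.sin_bound (x := x) (by rw [abs_of_nonneg h0]; exact h1)
  rw [abs_of_nonneg h0, abs_le] at h
  have h2 : x ^ 5 ≤ x ^ 4 := pow_le_pow_of_le_one h0 h1 (by norm_num)
  have h3 : 0 ≤ x ^ 4 := by positivity
  linarith [h.1]

private theorem sin_hi {x : ℝ} (h0 : 0 ≤ x) (h1 : x ≤ 1) :
    Real.sin x ≤ x - x ^ 3 / 6 + 5 / 96 * x ^ 4 := by
  have h := Real.sin_bound (x := x) (by rw [abs_of_nonneg h0]; exact h1)
  rw [abs_of_nonneg h0, abs_le] at h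
  have h2 : x ^ 5 ≤ x ^ 4 := pow_le_pow_of_le_one h0 h1 (by norm_num)
  have h3 : 0 ≤ x ^ 4 := by positivity
  linarith [h.2]

private theorem sin_le_mul_cos {x : ℝ} (h0 : 0 ≤ x) (h1 : x ≤ 5366 / 10000) :
    Real.sin x ≤ 113 / 100 * x * Real.cos x := by
  have h2 := sin_hi h0 (by linarith)
  have h3 := Real.one_sub_sq_div_two_le_cos (x := x)
  have h4 : 113 / 100 * x * (1 - x ^ 2 / 2) ≤ 113 / 100 * x * Real.cos x :=
    mul_le_mul_of_nonneg_left h3 (by positivity)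
  have h5 : x ^ 2 ≤ (5366 / 10000) ^ 2 := pow_le_pow_left₀ h0 h1 2
  have h6 : x ^ 3 ≤ (5366 / 10000) ^ 3 := pow_le_pow_left₀ h0 h1 3
  have h7 : 0 ≤ x * (13 / 100 - (113 / 200 - 1 / 6) * x ^ 2 - 5 / 96 * x ^ 3) :=
    mul_nonneg h0 (by norm_num at h5 h6 ⊢; linarith)
  nlinarith

/-- `sin y >= 0.9625 y` -/
private theorem sin_lin {y : ℝ} (h0 : 0 ≤ y) (h1 : y ≤ 4293 / 10000) :
    9625 / 10000 * y ≤ Real.sin y := by
  have h2 := sin_lo h0 (by linarith)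
  have h5 : y ^ 2 ≤ (4293 / 10000) ^ 2 := pow_le_pow_left₀ h0 h1 2
  have h6 : y ^ 3 ≤ (4293 / 10000) ^ 3 := pow_le_pow_left₀ h0 h1 3
  have h7 : 0 ≤ y * (1 - 9625 / 10000 - 1 / 6 * y ^ 2 - 5 / 96 * y ^ 3) :=
    mul_nonneg h0 (by norm_num at h5 h6 ⊢; linarith)
  nlinarith

/-- `tan (π/8) <= 0.41422` -/
private theorem sin_pi8 : Real.sin (π / 8) ≤ 41422 / 100000 * Real.cos (π / 8) := by
  have hc : 0 < Real.cos (π / 8) := Real.cos_pos_of_mem_Ioo ⟨by linarith [Real.pi_pos], by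
    linarith [Real.pi_pos]⟩
  have hs : 0 < Real.sin (π / 8) := Real.sin_pos_of_pos_of_lt_pi (by linarith [Real.pi_pos])
    (by linarith [Real.pi_pos])
  have e1 : Real.sin (π / 4) = 2 * Real.sin (π / 8) * Real.cos (π / 8) := by
    rw [← Real.sin_two_mul]
    congr 1
    ring
  have e2 : Real.cos (π / 4) = 2 * Real.cos (π / 8) ^ 2 - 1 := by
    rw [← Real.cos_two_mul]
    congr 1
    ring
  have e3 : Real.sin (π / 4) = Real.cos (π / 4) := by
    rw [Real.sin_pi_div_four, Real.cos_pi_div_four]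
  have e4 := Real.sin_sq_add_cos_sq (π / 8)
  have e5 : 2 * Real.sin (π / 8) * Real.cos (π / 8) =
      Real.cos (π / 8) ^ 2 - Real.sin (π / 8) ^ 2 := by
    rw [← e1, e3, e2]
    linarith
  by_contra hcon
  push Not at hcon
  nlinarith [mul_pos hs hc, mul_pos hc hc, mul_pos (sub_pos.2 hcon) hc,
    mul_pos (sub_pos.2 hcon) hs]

/-- `tan (π/8 + x) <= 0.41422 + 1.77 x` -/
private theorem tan_hi {x : ℝ} (h0 : 0 ≤ x) (h1 : x ≤ 5366 / 10000) :
    0 < Real.cos (π / 8 + x) ∧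
    Real.sin (π / 8 + x) ≤ (41422 / 100000 + 177 / 100 * x) * Real.cos (π / 8 + x) := by
  have hpi := Real.pi_gt_d2
  have hpi2 := Real.pi_lt_d2
  have hcx : 0 < Real.cos (π / 8 + x) := Real.cos_pos_of_mem_Ioo ⟨by linarith, by
    linarith⟩
  refine ⟨hcx, ?_⟩
  have h2 := sin_le_mul_cos h0 h1
  have h3 := sin_pi8
  have hc : 0 < Real.cos (π / 8) := Real.cos_pos_of_mem_Ioo ⟨by linarith, by
    linarith⟩
  have hs : 0 < Real.sin (π / 8) := Real.sin_pos_of_pos_of_lt_pi (by linarith)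
    (by linarith)
  have hcc : 0 < Real.cos x := Real.cos_pos_of_mem_Ioo ⟨by linarith, by linarith⟩
  have hsx : 0 ≤ Real.sin x := Real.sin_nonneg_of_nonneg_of_le_pi h0 (by linarith)
  rw [Real.sin_add, Real.cos_add]
  set s := Real.sin (π / 8)
  set c := Real.cos (π / 8)
  set S := Real.sin x
  set C := Real.cos x
  have hL : s * C + c * S ≤ (41422 / 100000 + 113 / 100 * x) * (c * C) := by
    have a1 : s * C ≤ 41422 / 100000 * c * C := mul_le_mul_of_nonneg_right h3 hcc.le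
    have a2 : c * S ≤ c * (113 / 100 * x * C) := mul_le_mul_of_nonneg_left h2 hc.le
    linarith
  have hR : (1 - 113 / 100 * (41422 / 100000) * x) * (c * C) ≤ c * C - s * S := by
    have a1 : s * S ≤ 41422 / 100000 * c * (113 / 100 * x * C) :=
      mul_le_mul h3 h2 hsx (by positivity)
    linarith
  have hR' : (41422 / 100000 + 177 / 100 * x) * ((1 - 113 / 100 * (41422 / 100000) * x) * (c * C)) ≤
      (41422 / 100000 + 177 / 100 * x) * (c * C - s * S) :=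
    mul_le_mul_of_nonneg_left hR (by positivity)
  have key : 41422 / 100000 + 113 / 100 * x ≤
      (41422 / 100000 + 177 / 100 * x) * (1 - 113 / 100 * (41422 / 100000) * x) := by
    nlinarith [mul_nonneg h0 (sub_nonneg.2 h1)]
  have key2 := mul_le_mul_of_nonneg_right key (mul_pos hc hcc).le
  linarith

/-- `sin 2x + cos 2x >= 1 + 2x - 2.6 x^2` -/
private theorem sc_lo {x : ℝ} (h0 : 0 ≤ x) (h1 : x ≤ 5366 / 10000) :
    1 + 2 * x - 26 / 10 * x ^ 2 ≤ Real.sin (2 * x) + Real.cos (2 * x) := by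
  have h2 := sin_lo h0 (by linarith)
  have h2' := sin_hi h0 (by linarith)
  have h3 := Real.one_sub_sq_div_two_le_cos (x := x)
  rw [Real.sin_two_mul, Real.cos_two_mul, Real.cos_sq']
  have hS0 : 0 ≤ Real.sin x := Real.sin_nonneg_of_nonneg_of_le_pi h0
    (by linarith [Real.pi_gt_three])
  have a1 : (x - x ^ 3 / 6 - 5 / 96 * x ^ 4) * (1 - x ^ 2 / 2) ≤ Real.sin x * Real.cos x :=
    mul_le_mul h2 h3 (by nlinarith) hS0
  have a2 : Real.sin x ^ 2 ≤ (x - x ^ 3 / 6 + 5 / 96 * x ^ 4) ^ 2 :=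
    pow_le_pow_left₀ hS0 h2' 2
  have a3 : 0 ≤ x ^ 2 * (6 / 10 - 4 / 3 * x + 9 / 16 * x ^ 2 - 1 / 24 * x ^ 3 + 5 / 96 * x ^ 4 -
      2 * x ^ 4 * (1 / 6 - 5 / 96 * x) ^ 2) := by
    refine mul_nonneg (sq_nonneg x) ?_
    have b1 : x ^ 3 ≤ (5366 / 10000) ^ 3 := pow_le_pow_left₀ h0 h1 3
    have b2 : x ^ 4 ≤ (5366 / 10000) ^ 4 := pow_le_pow_left₀ h0 h1 4
    have b3 : (1 / 6 - 5 / 96 * x) ^ 2 ≤ (1 / 6) ^ 2 :=
      pow_le_pow_left₀ (by linarith) (by linarith) 2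
    have b4 : x ^ 4 * (1 / 6 - 5 / 96 * x) ^ 2 ≤ (5366 / 10000) ^ 4 * (1 / 6) ^ 2 :=
      mul_le_mul b2 b3 (sq_nonneg _) (by positivity)
    have b5 : 0 ≤ x ^ 4 := by positivity
    norm_num at b1 b2 b4 ⊢
    nlinarith [sq_nonneg (x - 5366 / 10000)]
  nlinarith

private theorem sqrt2_lo : (14142 : ℝ) / 10000 ≤ √2 :=
  Real.le_sqrt_of_sq_le (by norm_num)

/-- the term with the half integral, `b = π/2 + 4/5 x` -/
private theorem Qb {x b : ℝ} (h0 : 0 ≤ x) (h1 : x ≤ 5366 / 10000)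
    (hb : 5 / 4 * b = π / 2 + (π / 8 + x)) :
    4 * (5 / 4) ^ 3 * Real.sin b ^ 2 /
      (5 / 4 * b - Real.sin (5 / 4 * b) * Real.cos (5 / 4 * b)) ≤ 338 / 100 - 21 / 10 * x := by
  have hpi := Real.pi_gt_d4
  have e1 : Real.sin b ^ 2 = 1 - Real.sin (4 / 5 * x) ^ 2 := by
    rw [show b = 4 / 5 * x + π / 2 by linarith, Real.sin_add_pi_div_two, Real.cos_sq']
  have e2 : Real.sin (5 / 4 * b) * Real.cos (5 / 4 * b) =
      -(√2 / 4 * (Real.sin (2 * x) + Real.cos (2 * x))) := by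
    have e3 : Real.sin (5 / 4 * b) * Real.cos (5 / 4 * b) = Real.sin (5 / 2 * b) / 2 := by
      rw [show 5 / 2 * b = 2 * (5 / 4 * b) by ring, Real.sin_two_mul]
      ring
    rw [e3, show 5 / 2 * b = (π / 4 + 2 * x) + π by linarith, Real.sin_add_pi, Real.sin_add,
      Real.sin_pi_div_four, Real.cos_pi_div_four]
    ring
  have h2 := sin_lin (y := 4 / 5 * x) (by positivity) (by linarith)
  have h3 : (9625 / 10000 * (4 / 5 * x)) ^ 2 ≤ Real.sin (4 / 5 * x) ^ 2 :=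
    pow_le_pow_left₀ (by positivity) h2 2
  have h4 := sc_lo h0 h1
  have h5 : 14142 / 40000 * (1 + 2 * x - 26 / 10 * x ^ 2) ≤
      √2 / 4 * (Real.sin (2 * x) + Real.cos (2 * x)) := by
    refine mul_le_mul (by linarith [sqrt2_lo]) h4 ?_ (by positivity)
    nlinarith
  have hD : 19634 / 10000 + x + 14142 / 40000 * (1 + 2 * x - 26 / 10 * x ^ 2) ≤
      5 / 4 * b - Real.sin (5 / 4 * b) * Real.cos (5 / 4 * b) := by
    rw [e2, hb]
    linarith
  have hD0 : 0 < 19634 / 10000 + x + 14142 / 40000 * (1 + 2 * x - 26 / 10 * x ^ 2) := by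
    nlinarith
  rw [div_le_iff₀ (lt_of_lt_of_le hD0 hD), e1]
  have h6 : (338 / 100 - 21 / 10 * x) *
      (19634 / 10000 + x + 14142 / 40000 * (1 + 2 * x - 26 / 10 * x ^ 2)) ≤
      (338 / 100 - 21 / 10 * x) * (5 / 4 * b - Real.sin (5 / 4 * b) * Real.cos (5 / 4 * b)) :=
    mul_le_mul_of_nonneg_left hD (by linarith)
  refine le_trans ?_ h6
  have h7 : 0 ≤ x * (90 / 100 - 206 / 100 * x + 193 / 100 * x ^ 2) := by
    refine mul_nonneg h0 ?_
    nlinarith [sq_nonneg (x - 206 / 386)]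
  nlinarith [pow_nonneg h0 3, pow_nonneg h0 2]

private theorem sinh_sq_le {t : ℝ} (ht : 0 < t) (ht1 : t ≤ 3 / 5) :
    Real.sinh t ^ 2 ≤ 4058 / 10000 := by
  have h1 : Real.sinh t ≤ Real.sinh (3 / 5) := Real.sinh_le_sinh.2 ht1
  have h0 : 0 < Real.sinh t := Real.sinh_pos_iff.2 ht
  have h2 : Real.exp (3 / 5) ≤ 18222 / 10000 := by
    by_contra hcon
    push Not at hcon
    have h3 : (18222 / 10000 : ℝ) ^ 5 < Real.exp (3 / 5) ^ 5 :=
      pow_lt_pow_left₀ hcon (by norm_num) (by norm_num)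
    have h4 : Real.exp (3 / 5) ^ 5 = Real.exp 1 ^ 3 := by
      rw [← Real.exp_nat_mul, ← Real.exp_nat_mul]
      congr 1
      norm_num
    have h5 : Real.exp 1 ^ 3 < 2.7182818286 ^ 3 :=
      pow_lt_pow_left₀ Real.exp_one_lt_d9 (Real.exp_pos 1).le (by norm_num)
    rw [h4] at h3
    norm_num at h3 h5
    linarith
  have h3 : (18222 / 10000)⁻¹ ≤ Real.exp (-(3 / 5)) := by
    rw [Real.exp_neg]
    exact inv_anti₀ (Real.exp_pos _) h2
  have h4 : Real.sinh (3 / 5) ≤ 637 / 1000 := by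
    rw [Real.sinh_eq]
    norm_num at h3 ⊢
    linarith
  have h5 : Real.sinh t ^ 2 ≤ (637 / 1000) ^ 2 := pow_le_pow_left₀ h0.le (h1.trans h4) 2
  norm_num at h5 ⊢
  linarith

theorem lln {t θ b : ℝ} (ht : 0 < t) (ht1 : t ≤ 3 / 5) (h0 : π / 4 ≤ θ) (h1 : θ ≤ 1)
    (hb : π / 2 ≤ b) (hb1 : b ≤ 2 * θ) :
    4 * Real.cosh t ^ 2 * (5 / 4) ^ 3 * Real.sin b ^ 2 /
      (5 / 4 * b - Real.sin (5 / 4 * b) * Real.cos (5 / 4 * b)) ≤
    5 / 4 * Xl t θ * (Real.cos (5 / 4 * b) / Real.sin (5 / 4 * b) -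
      Real.tan (5 / 4 * (2 * θ - b))) + 4 * θ * ((5 / 4) ^ 2 - 1) * Real.cosh (2 * t) +
      2 * (1 + (5 / 4) ^ 2) * Real.sin (2 * θ) := by
  have hpi := Real.pi_gt_d4
  have hpi2 := Real.pi_lt_d4
  obtain ⟨x, hx⟩ : ∃ x : ℝ, x = 5 / 4 * b - 5 / 8 * π := ⟨_, rfl⟩
  obtain ⟨B, hB⟩ : ∃ B : ℝ, B = 5 / 4 * (2 * θ - b) := ⟨_, rfl⟩
  have hx0 : 0 ≤ x := by rw [hx]; linarith
  have hB0 : 0 ≤ B := by rw [hB]; linarith
  have ha : x + B ≤ 5366 / 10000 := by rw [hx, hB]; norm_num at hpi; linarith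
  have hθ : θ = π / 4 + 2 / 5 * (x + B) := by rw [hx, hB]; ring
  have hw := sinh_sq_le ht ht1
  have hw0 : 0 ≤ Real.sinh t ^ 2 := sq_nonneg _
  have hQ := Qb (b := b) hx0 (by linarith) (by rw [hx]; ring)
  have hch2 : Real.cosh (2 * t) = 1 + 2 * Real.sinh t ^ 2 := by
    rw [Real.cosh_two_mul, Real.cosh_sq]
    ring
  have eL : 4 * Real.cosh t ^ 2 * (5 / 4) ^ 3 * Real.sin b ^ 2 /
      (5 / 4 * b - Real.sin (5 / 4 * b) * Real.cos (5 / 4 * b)) =
      (1 + Real.sinh t ^ 2) * (4 * (5 / 4) ^ 3 * Real.sin b ^ 2 /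
      (5 / 4 * b - Real.sin (5 / 4 * b) * Real.cos (5 / 4 * b))) := by
    rw [Real.cosh_sq]
    ring
  rw [eL, hch2, ← hB]
  unfold Xl
  set w := Real.sinh t ^ 2 with hwd
  have hL : (1 + w) * (4 * (5 / 4) ^ 3 * Real.sin b ^ 2 /
      (5 / 4 * b - Real.sin (5 / 4 * b) * Real.cos (5 / 4 * b))) ≤
      (1 + w) * (338 / 100 - 21 / 10 * x) := mul_le_mul_of_nonneg_left hQ (by linarith)
  -- trigonometric functions of θ
  have e1 : Real.sin (2 * θ) = Real.cos (4 / 5 * (x + B)) := by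
    rw [show 2 * θ = 4 / 5 * (x + B) + π / 2 by rw [hθ]; ring, Real.sin_add_pi_div_two]
  have e2 : Real.cos θ ^ 2 = (1 - Real.sin (4 / 5 * (x + B))) / 2 := by
    have e3 : Real.cos (2 * θ) = -Real.sin (4 / 5 * (x + B)) := by
      rw [show 2 * θ = 4 / 5 * (x + B) + π / 2 by rw [hθ]; ring, Real.cos_add_pi_div_two]
    rw [Real.cos_two_mul] at e3
    linarith
  have h2 := sin_lin (y := 4 / 5 * (x + B)) (by linarith) (by linarith)
  have h3 := Real.one_sub_sq_div_two_le_cos (x := 4 / 5 * (x + B))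
  have h4 : Real.cos θ ^ 2 ≤ 5 / 10 - 385 / 1000 * (x + B) := by
    rw [e2]
    linarith
  have h5 : 0 ≤ Real.cos θ ^ 2 := sq_nonneg _
  -- the bracket
  have hΓ : -(41422 / 100000 + 177 / 100 * x + 113 / 100 * B) ≤
      Real.cos (5 / 4 * b) / Real.sin (5 / 4 * b) - Real.tan B := by
    obtain ⟨a1, a2⟩ := tan_hi hx0 (by linarith)
    have a3 := sin_le_mul_cos hB0 (by linarith)
    have hcB : 0 < Real.cos B := Real.cos_pos_of_mem_Ioo ⟨by linarith, by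
      norm_num at hpi; linarith⟩
    have a4 : Real.tan B ≤ 113 / 100 * B := by
      rw [Real.tan_eq_sin_div_cos, div_le_iff₀ hcB]
      exact a3
    have a5 : Real.cos (5 / 4 * b) / Real.sin (5 / 4 * b) =
        -(Real.sin (π / 8 + x) / Real.cos (π / 8 + x)) := by
      rw [show 5 / 4 * b = (π / 8 + x) + π / 2 by rw [hx]; ring, Real.cos_add_pi_div_two,
        Real.sin_add_pi_div_two, neg_div]
    have a6 : Real.sin (π / 8 + x) / Real.cos (π / 8 + x) ≤ 41422 / 100000 + 177 / 100 * x := by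
      rw [div_le_iff₀ a1]
      exact a2
    rw [a5]
    linarith
  set Γ := Real.cos (5 / 4 * b) / Real.sin (5 / 4 * b) - Real.tan B
  have h6 : -(5 * (w + (5 / 10 - 385 / 1000 * (x + B))) *
      (41422 / 100000 + 177 / 100 * x + 113 / 100 * B)) ≤
      5 / 4 * (4 * w + 4 * Real.cos θ ^ 2) * Γ := by
    have b1 : 5 / 4 * (4 * w + 4 * Real.cos θ ^ 2) *
        -(41422 / 100000 + 177 / 100 * x + 113 / 100 * B) ≤
        5 / 4 * (4 * w + 4 * Real.cos θ ^ 2) * Γ :=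
      mul_le_mul_of_nonneg_left hΓ (by linarith)
    have b2 : (w + Real.cos θ ^ 2) * (41422 / 100000 + 177 / 100 * x + 113 / 100 * B) ≤
        (w + (5 / 10 - 385 / 1000 * (x + B))) *
          (41422 / 100000 + 177 / 100 * x + 113 / 100 * B) :=
      mul_le_mul_of_nonneg_right (by linarith) (by positivity)
    linarith
  have h7 : 78535 / 100000 + 2 / 5 * (x + B) ≤ θ := by rw [hθ]; norm_num at hpi ⊢; linarith
  have h8 : (78535 / 100000 + 2 / 5 * (x + B)) * (1 + 2 * w) ≤ θ * (1 + 2 * w) :=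
    mul_le_mul_of_nonneg_right h7 (by linarith)
  rw [e1]
  have hfin : (1 + w) * (338 / 100 - 21 / 10 * x) ≤
      -(5 * (w + (5 / 10 - 385 / 1000 * (x + B))) *
      (41422 / 100000 + 177 / 100 * x + 113 / 100 * B)) +
      9 / 4 * ((78535 / 100000 + 2 / 5 * (x + B)) * (1 + 2 * w)) +
      41 / 8 * (1 - (4 / 5 * (x + B)) ^ 2 / 2) := by
    nlinarith [mul_nonneg (sub_nonneg.2 hw) hx0, mul_nonneg (sub_nonneg.2 hw) hB0,
      mul_nonneg hx0 hx0, mul_nonneg hx0 hB0, mul_nonneg hB0 hB0]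
  refine hL.trans (hfin.trans ?_)
  norm_num at h3 h6 h8 ⊢
  linarith

private theorem tan_add_ge {a b : ℝ} (ha : 0 ≤ a) (hb : 0 ≤ b) (hab : a + b < π / 2) :
    Real.tan a + Real.tan b ≤ Real.tan (a + b) := by
  have hpi := Real.pi_pos
  have ca : 0 < Real.cos a := Real.cos_pos_of_mem_Ioo ⟨by linarith, by linarith⟩
  have cb : 0 < Real.cos b := Real.cos_pos_of_mem_Ioo ⟨by linarith, by linarith⟩
  have cab : 0 < Real.cos (a + b) := Real.cos_pos_of_mem_Ioo ⟨by linarith, by linarith⟩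
  have sa : 0 ≤ Real.sin a := Real.sin_nonneg_of_nonneg_of_le_pi ha (by linarith)
  have sb : 0 ≤ Real.sin b := Real.sin_nonneg_of_nonneg_of_le_pi hb (by linarith)
  have sab : 0 ≤ Real.sin (a + b) :=
    Real.sin_nonneg_of_nonneg_of_le_pi (by linarith) (by linarith)
  have e : Real.tan a + Real.tan b = Real.sin (a + b) / (Real.cos a * Real.cos b) := by
    rw [Real.tan_eq_sin_div_cos, Real.tan_eq_sin_div_cos, Real.sin_add]
    field_simp
  rw [e, Real.tan_eq_sin_div_cos]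
  refine div_le_div_of_nonneg_left sab cab ?_
  rw [Real.cos_add]
  linarith [mul_nonneg sa sb]

private theorem Xl_nonneg (t θ : ℝ) : 0 ≤ Xl t θ := by
  unfold Xl
  positivity

private theorem Ok_nr {l : Lb} {C x : ℝ} (h : l.Ok C x) (hx : 0 ≤ x) :
    ‖l.g l.b‖ ^ 2 = x ∧ ‖l.g (-l.b)‖ ^ 2 = x := by
  constructor
  · rw [h.er, norm_mul, Complex.norm_exp_ofReal_mul_I, mul_one, Complex.norm_real,
      Real.norm_eq_abs, sq_abs, Real.sq_sqrt hx]
  · rw [h.el, norm_mul, show -((l.h : ℂ) * I) = ((-l.h : ℝ) : ℂ) * I by push_cast; ring,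
      Complex.norm_exp_ofReal_mul_I, mul_one, Complex.norm_real,
      Real.norm_eq_abs, sq_abs, Real.sq_sqrt hx]

private theorem rest_sum {C x : ℝ} (hx : 0 ≤ x) : ∀ L : List Lb, (∀ l ∈ L, l.Ok C x) →
    5 / 4 * (L.map Lb.b).sum < π / 2 →
    0 ≤ (L.map Lb.b).sum ∧ -(5 / 4 * x * Real.tan (5 / 4 * (L.map Lb.b).sum)) ≤
      (L.map Lb.E).sum / 2 - (5 / 4) ^ 2 * (L.map Lb.M).sum / 2 := by
  intro L
  induction L with
  | nil =>
    intro _ _
    simp
  | cons l L ih =>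
    intro hok hs
    have hl := hok l List.mem_cons_self
    have hb := hl.b0
    simp only [List.map_cons, List.sum_cons] at hs ⊢
    obtain ⟨h1, h2⟩ := ih (fun l' hl' => hok l' (List.mem_cons_of_mem _ hl')) (by linarith)
    have h3 := tan_add_ge (a := 5 / 4 * l.b) (b := 5 / 4 * (L.map Lb.b).sum) (by linarith)
      (by linarith) (by linarith)
    have h4 := mul_le_mul_of_nonneg_left h3 (by linarith : 0 ≤ 5 / 4 * x)
    rw [← mul_add] at h4
    obtain ⟨n1, n2⟩ := Ok_nr hl hx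
    have h5 := nat_en (b := l.b) (K := 5 / 4) (x := x) (g := l.g) (g' := l.g') hb (by norm_num)
      (by linarith) hl.der hl.cont n1 n2
    have e1 : l.E = ∫ u in (-l.b)..l.b, ‖l.g' u‖ ^ 2 := rfl
    have e2 : l.M = ∫ u in (-l.b)..l.b, ‖l.g u‖ ^ 2 := rfl
    rw [← e1, ← e2] at h5
    refine ⟨by linarith, ?_⟩
    linarith

private theorem sum_split (f : Lb → ℝ) (s r : List Lb) (l : Lb) :
    ((s ++ l :: r).map f).sum = f l + ((s ++ r).map f).sum := by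
  simp only [List.map_append, List.sum_append, List.map_cons, List.sum_cons]
  ring

theorem Cl.long1 {t θ : ℝ} {L : List Lb} (c : Cl t θ L) (ht : 0 < t) (ht1 : t ≤ 3 / 5)
    (h0 : 0 < θ) (h1 : θ ≤ 1) : ∀ l ∈ L, l.b < π / 2 := by
  intro l0 hl0
  by_contra hcon
  push Not at hcon
  have hpi := Real.pi_gt_three
  have hx := Xl_nonneg t θ
  obtain ⟨s, r, rfl⟩ := List.append_of_mem hl0
  have hok0 := c.ok l0 hl0
  have hokr : ∀ l ∈ s ++ r, l.Ok (Real.cosh t) (Xl t θ) := fun l hl => c.ok l (by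
    rw [List.mem_append] at hl ⊢
    rcases hl with hl | hl
    · exact Or.inl hl
    · exact Or.inr (List.mem_cons_of_mem _ hl))
  have hsb := c.sb
  have hq := c.q2 0
  have hv := c.v
  rw [sum_split Lb.b] at hsb
  rw [sum_split Lb.M, sum_split Lb.b] at hv
  rw [sum_split Lb.E] at hq
  obtain ⟨r1, r2⟩ := rest_sum hx (s ++ r) hokr (by linarith)
  set σ := ((s ++ r).map Lb.b).sum
  set E' := ((s ++ r).map Lb.E).sum
  set M' := ((s ++ r).map Lb.M).sum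
  have hl := lln ht ht1 (by linarith) h1 hcon (by linarith)
  have g1 := tan_add_ge (a := 5 / 4 * σ) (b := 5 / 4 * (2 * θ - l0.b - σ)) (by linarith)
    (by linarith) (by linarith)
  have g2 := Real.le_tan (x := 5 / 4 * (2 * θ - l0.b - σ)) (by linarith) (by linarith)
  rw [show 5 / 4 * σ + 5 / 4 * (2 * θ - l0.b - σ) = 5 / 4 * (2 * θ - l0.b) by ring] at g1
  have g3 := mul_le_mul_of_nonneg_left (g2.trans (le_sub_iff_add_le'.2 g1))
    (by linarith : 0 ≤ 5 / 4 * Xl t θ)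
  obtain ⟨n1, n2⟩ := Ok_nr hok0 hx
  have hco := hok0.co (-l0.b) l0.b le_rfl (by linarith) le_rfl
  have h5 := lone_en (b := l0.b) (K := 5 / 4) (x := Xl t θ) (p := 2 * Real.cosh t * Real.sin l0.b)
    (g := l0.g) (g' := l0.g') hok0.b0 (by norm_num) (by linarith) hok0.der hok0.cont n1 n2 (by
      refine hco.trans (le_of_eq ?_)
      rw [show (l0.b - -l0.b) / 2 = l0.b by ring]
      ring)
  have e1 : l0.E = ∫ u in (-l0.b)..l0.b, ‖l0.g' u‖ ^ 2 := rfl
  have e2 : l0.M = ∫ u in (-l0.b)..l0.b, ‖l0.g u‖ ^ 2 := rfl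
  rw [← e1, ← e2] at h5
  have e3 : (5 / 4 : ℝ) ^ 3 * (2 * Real.cosh t * Real.sin l0.b) ^ 2 =
      4 * Real.cosh t ^ 2 * (5 / 4) ^ 3 * Real.sin l0.b ^ 2 := by ring
  rw [e3] at h5
  rw [Real.sin_two_mul] at hl
  have hq' : l0.E + E' ≤ 8 * (θ * Real.cosh (2 * t) - Real.sin θ * Real.cos θ) := by
    simpa using hq
  norm_num at hl h5 r2 g3
  linarith

end Pool.Agent.H36.SZ
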