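import Pool.Agent.H36.SZ.Defs

/-!
# Low levels: definitions

`xd t = 2 (cosh 2t - 1 / cosh 2t)`: Theorem LOW says `Zf F t x <= Zf J t x` for `x <= xd t`.
`Iw t`, `Gw t`: closed forms of the integrals of `w = x / |J|^2 - 1` and of `(x - |J|^2) w` over one
dip `{|J|^2 < x}` at the level `x = xd t`.
`Qe t = exp (-2 t)`, `La t` an upper bound for `sum_(n >= 2) Qe^n / n`.
`hb b β = sin β - sum Re b_n sin (n β) / n`.
-/

open Complex MeasureTheory Set Filter Topology
open scoped ComplexConjugate Real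

namespace Pool.Agent.H36.SZ

noncomputable def xd (t : ℝ) : ℝ := 2 * (Real.cosh (2 * t) - 1 / Real.cosh (2 * t))

noncomputable def Qe (t : ℝ) : ℝ := Real.exp (-(2 * t))

noncomputable def La (t : ℝ) : ℝ := Qe t ^ 2 / 2 + Qe t ^ 3 / (3 * (1 - Qe t))

noncomputable def Iw (t : ℝ) : ℝ := π / 2 * Real.tanh (2 * t) - 2 * Real.arctan (Real.tanh t)

noncomputable def Gw (t : ℝ) : ℝ :=
  2 * (π * Real.sinh (2 * t) ^ 3 / (2 * Real.cosh (2 * t) ^ 2) -
    2 * Real.arctan (Real.tanh t) * (Real.cosh (2 * t) - 2 / Real.cosh (2 * t)) -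
    Real.sinh (2 * t) / Real.cosh (2 * t))

noncomputable def hb (b : ℕ → ℂ) (β : ℝ) : ℝ :=
  Real.sin β - ∑' n : ℕ, (b n).re * Real.sin (n * β) / n

end Pool.Agent.H36.SZ
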