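import Pool.Agent.H36.SZ.LgN
import Pool.Agent.H36.SZ.LoD

/-!
# Long lobes: the two numerical statements used in `LgF`

`lgr1`: bound of `R - 1` for `t <= 1/5`, area defect bounded by `4π (S^2 + s^2) - 4 rh γ`.
`lgn2`: `1/5 <= t <= 3/5`, `tan γ >= tanh t`, area defect bounded by `3.72 γ s^3/S`.
-/

open Real

namespace Pool.Agent.H36.SZ

private theorem e5_lo : (12214 / 10000 : ℝ) ≤ Real.exp (1 / 5) := by
  have h1 : Real.exp (1 / 5) ^ 5 = Real.exp 1 := by rw [← Real.exp_nat_mul]; norm_num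
  have h2 := Real.exp_one_gt_d9
  by_contra h
  have h := not_le.1 h
  have h3 : Real.exp (1 / 5) ^ 5 < (12214 / 10000) ^ 5 :=
    pow_lt_pow_left₀ h (Real.exp_pos _).le (by norm_num)
  rw [h1] at h3
  norm_num at h3 h2
  linarith

private theorem e5_up : Real.exp (1 / 5) ≤ (122141 / 100000 : ℝ) := by
  have h1 : Real.exp (1 / 5) ^ 5 = Real.exp 1 := by rw [← Real.exp_nat_mul]; norm_num
  have h2 := Real.exp_one_lt_d9
  by_contra h
  have h := not_le.1 h
  have h3 : (122141 / 100000 : ℝ) ^ 5 < Real.exp (1 / 5) ^ 5 :=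
    pow_lt_pow_left₀ h (by norm_num) (by norm_num)
  rw [h1] at h3
  norm_num at h3 h2
  linarith

private theorem sh_le {t a : ℝ} {E : ℝ} (h : t ≤ a) (hE : Real.exp a ≤ E) :
    Real.sinh t ≤ (E - 1 / E) / 2 := by
  have h0 : 0 < Real.exp a := Real.exp_pos _
  have h1 : Real.sinh t ≤ Real.sinh a := Real.sinh_le_sinh.2 h
  refine h1.trans ?_
  rw [Real.sinh_eq, Real.exp_neg]
  have : 1 / E ≤ (Real.exp a)⁻¹ := by
    rw [one_div]
    exact inv_anti₀ h0 hE
  linarith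

private theorem sh_ge {t a : ℝ} {E : ℝ} (h : a ≤ t) (hE0 : 0 < E) (hE : E ≤ Real.exp a) :
    (E - 1 / E) / 2 ≤ Real.sinh t := by
  have h1 : Real.sinh a ≤ Real.sinh t := Real.sinh_le_sinh.2 h
  refine le_trans ?_ h1
  rw [Real.sinh_eq, Real.exp_neg]
  have : (Real.exp a)⁻¹ ≤ 1 / E := by
    rw [one_div]
    exact inv_anti₀ hE0 hE
  linarith

private theorem Q_le {t a E : ℝ} (h : a ≤ t) (hE0 : 0 < E) (hE : E ≤ Real.exp a) :
    Qe t ≤ 1 / E ^ 2 := by
  have h0 : 0 < Real.exp a := Real.exp_pos _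
  unfold Qe
  have h1 : Real.exp (-(2 * t)) = (Real.exp t ^ 2)⁻¹ := by
    rw [Real.exp_neg, ← Real.exp_nat_mul]
    norm_num
  rw [h1, one_div]
  apply inv_anti₀ (by positivity)
  have : Real.exp a ≤ Real.exp t := Real.exp_le_exp.2 h
  have : E ≤ Real.exp t := hE.trans this
  gcongr

private theorem Q_ge {t a E : ℝ} (h : t ≤ a) (hE : Real.exp a ≤ E) :
    1 / E ^ 2 ≤ Qe t := by
  have h0 : 0 < Real.exp t := Real.exp_pos _
  unfold Qe
  have h1 : Real.exp (-(2 * t)) = (Real.exp t ^ 2)⁻¹ := by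
    rw [Real.exp_neg, ← Real.exp_nat_mul]
    norm_num
  rw [h1, one_div]
  apply inv_anti₀ (by positivity)
  have : Real.exp t ≤ Real.exp a := Real.exp_le_exp.2 h
  have : Real.exp t ≤ E := this.trans hE
  gcongr

/-- `S^2 = δ^2 / (4 (1 - δ))`, `δ = 1 - Q` -/
private theorem S_sq (t : ℝ) : Real.sinh t ^ 2 * (4 * Qe t) = (1 - Qe t) ^ 2 := by
  have h0 : Real.exp t ≠ 0 := (Real.exp_pos t).ne'
  unfold Qe
  have h1 : Real.exp (-(2 * t)) = (Real.exp t ^ 2)⁻¹ := by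
    rw [Real.exp_neg, ← Real.exp_nat_mul]
    norm_num
  rw [h1, Real.sinh_eq, Real.exp_neg]
  field_simp
  ring

/-- `Q / (2 - Q) <= 1 / (1 + 2 S)^2` -/
private theorem Q_div {t : ℝ} (ht : 0 ≤ t) :
    Qe t / (2 - Qe t) ≤ 1 / (1 + 2 * Real.sinh t) ^ 2 := by
  have h0 : 1 ≤ Real.exp t := Real.one_le_exp ht
  set e := Real.exp t with he
  have he0 : 0 < e := by linarith
  have h1 : Qe t = 1 / e ^ 2 := by
    unfold Qe
    rw [Real.exp_neg, he, one_div, ← Real.exp_nat_mul]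
    norm_num
  have h2 : Real.sinh t = (e - 1 / e) / 2 := by
    rw [Real.sinh_eq, Real.exp_neg, he, one_div]
  have hS : 0 ≤ Real.sinh t := Real.sinh_nonneg_iff.2 ht
  rw [h1] at *
  have h3 : 0 < 2 - 1 / e ^ 2 := by
    have : 1 / e ^ 2 ≤ 1 := by
      rw [div_le_one (by positivity)]
      nlinarith
    linarith
  rw [div_le_div_iff₀ h3 (by positivity), h2]
  rw [div_mul_eq_mul_div, one_mul, div_le_iff₀ (by positivity)]
  have h4 : 1 * (2 - 1 / e ^ 2) * e ^ 2 - (1 + 2 * ((e - 1 / e) / 2)) ^ 2 =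
      (e ^ 2 - 1) * (e - 1) ^ 2 / e ^ 2 := by
    field_simp
    ring
  have h5 : 0 ≤ (e ^ 2 - 1) * (e - 1) ^ 2 / e ^ 2 := by
    have : 0 ≤ e ^ 2 - 1 := by nlinarith
    positivity
  linarith

/-- box lemma for the bound of `ε` -/
private theorem bB {δ s X : ℝ} (d0 d1 s0 s1 X1 A1 g : ℝ) (u0 : d0 ≤ δ) (u1 : δ ≤ d1)
    (t0 : s0 ≤ s) (t1 : s ≤ s1) (h0 : 0 ≤ d0) (h0' : 0 ≤ s0)
    (hX : X * (4 * (1 - δ)) = δ ^ 2) (hX0 : 0 ≤ X) (hd : d1 ≤ 1 / 3)
    (hX1 : d1 ^ 2 ≤ X1 * (4 * (1 - d1))) (hA1 : s1 ^ 2 + X1 ≤ A1) (hg0 : 0 ≤ g)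
    (hg : g * (s0 ^ 2 + X1) ≤ s0 ^ 3 + s0 ^ 5 / 10) (hg1 : g ≤ s0 + s0 ^ 3 / 10)
    (hg2 : 339 / 100 * g ≤ 4)
    (hn : (2 + 12 / 5 * A1 * (1 + d1)) ^ 2 * (4 - 339 / 100 * g) ≤
      8 * (12 / 5) * (1 + d0) ^ 2 * (1 - d0)) :
    (2 + 12 / 5 * (X + s ^ 2) * (1 + δ)) ^ 2 * (4 * (X + s ^ 2) - 339 / 100 * (s ^ 3 + s ^ 5 / 10)) ≤
      8 * (12 / 5) * (1 + δ) ^ 2 * (1 - δ) * (X + s ^ 2) := by
  have hδ : 0 ≤ δ := h0.trans u0
  have hXX : X ≤ X1 := by
    have a1 : 0 < 4 * (1 - δ) := by linarith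
    have a2 : δ ^ 2 ≤ d1 ^ 2 := by gcongr
    have a3 : 0 ≤ X1 := by
      by_contra h
      have h := not_le.1 h
      nlinarith [mul_neg_of_neg_of_pos h (by linarith : 0 < 4 * (1 - d1)), sq_nonneg d1]
    have a4 : X1 * (4 * (1 - d1)) ≤ X1 * (4 * (1 - δ)) := by gcongr
    have a5 : X * (4 * (1 - δ)) ≤ X1 * (4 * (1 - δ)) := by linarith
    exact le_of_mul_le_mul_right a5 a1
  have hs0 : 0 ≤ s := h0'.trans t0
  have hs2 : s ^ 2 ≤ s1 ^ 2 := by gcongr
  have hA : X + s ^ 2 ≤ A1 := by linarith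
  have hA0 : 0 ≤ X + s ^ 2 := by positivity
  have hg3 : g * (X + s ^ 2) ≤ s ^ 3 + s ^ 5 / 10 := by
    have b1 : s0 ^ 2 ≤ s ^ 2 := by gcongr
    have b2 : 0 ≤ s0 * (1 + s0 ^ 2 / 10) - g := by
      have : s0 * (1 + s0 ^ 2 / 10) = s0 + s0 ^ 3 / 10 := by ring
      linarith
    have b3 : s0 * (1 + s0 ^ 2 / 10) ≤ s * (1 + s ^ 2 / 10) := by gcongr
    have b4 : s0 ^ 2 * (s0 * (1 + s0 ^ 2 / 10) - g) ≤ s ^ 2 * (s * (1 + s ^ 2 / 10) - g) :=
      mul_le_mul b1 (by linarith) b2 (sq_nonneg s)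
    have b5 : g * X ≤ g * X1 := by gcongr
    nlinarith
  have c1 : 4 * (X + s ^ 2) - 339 / 100 * (s ^ 3 + s ^ 5 / 10) ≤
      (4 - 339 / 100 * g) * (X + s ^ 2) := by nlinarith
  have hA10 : 0 ≤ A1 := hA0.trans hA
  have c2 : (2 + 12 / 5 * (X + s ^ 2) * (1 + δ)) ^ 2 ≤ (2 + 12 / 5 * A1 * (1 + d1)) ^ 2 := by
    gcongr
  have c3 : (1 + d0) ^ 2 * (1 - d0) ≤ (1 + δ) ^ 2 * (1 - δ) := by
    have e : (1 + δ) ^ 2 * (1 - δ) - (1 + d0) ^ 2 * (1 - d0) =
        (δ - d0) * (1 - δ - d0 - δ ^ 2 - δ * d0 - d0 ^ 2) := by ring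
    have : 0 ≤ 1 - δ - d0 - δ ^ 2 - δ * d0 - d0 ^ 2 := by
      have f1 : δ ≤ 1 / 3 := u1.trans hd
      have f2 : d0 ≤ 1 / 3 := u0.trans f1
      nlinarith [mul_nonneg hδ h0]
    nlinarith [mul_nonneg (sub_nonneg.2 u0) this]
  calc (2 + 12 / 5 * (X + s ^ 2) * (1 + δ)) ^ 2 *
        (4 * (X + s ^ 2) - 339 / 100 * (s ^ 3 + s ^ 5 / 10))
      ≤ (2 + 12 / 5 * (X + s ^ 2) * (1 + δ)) ^ 2 * ((4 - 339 / 100 * g) * (X + s ^ 2)) :=
        mul_le_mul_of_nonneg_left c1 (sq_nonneg _)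
    _ ≤ (2 + 12 / 5 * A1 * (1 + d1)) ^ 2 * ((4 - 339 / 100 * g) * (X + s ^ 2)) := by
        apply mul_le_mul_of_nonneg_right c2
        exact mul_nonneg (by linarith) hA0
    _ = ((2 + 12 / 5 * A1 * (1 + d1)) ^ 2 * (4 - 339 / 100 * g)) * (X + s ^ 2) := by ring
    _ ≤ (8 * (12 / 5) * (1 + d0) ^ 2 * (1 - d0)) * (X + s ^ 2) :=
        mul_le_mul_of_nonneg_right hn hA0
    _ ≤ 8 * (12 / 5) * (1 + δ) ^ 2 * (1 - δ) * (X + s ^ 2) := by
        apply mul_le_mul_of_nonneg_right _ hA0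
        linarith

private theorem regB {δ s X : ℝ} (hd0 : 0 ≤ δ) (hd1 : δ ≤ 3297 / 10000) (hs : 0 < s)
    (hs1 : s ≤ 541 / 1000) (hX : X * (4 * (1 - δ)) = δ ^ 2) (hX0 : 0 ≤ X) :
    (2 + 12 / 5 * (X + s ^ 2) * (1 + δ)) ^ 2 * (4 * (X + s ^ 2) - 339 / 100 * (s ^ 3 + s ^ 5 / 10)) ≤
      8 * (12 / 5) * (1 + δ) ^ 2 * (1 - δ) * (X + s ^ 2) := by
  have t1 : s ≤ 541 / 1000 := hs1
  rcases le_or_gt (521 / 1000) s with t0 | t0
  · have u1 : δ ≤ 3297 / 10000 := hd1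
    rcases le_or_gt (309 / 1000) δ with u0 | u0
    · exact bB (309 / 1000) (3297 / 10000) (521 / 1000) (541 / 1000) (203 / 5000) (3333 / 10000) (931 / 2000) u0 u1 t0 t1 (by norm_num) (by norm_num)
          hX hX0 (by norm_num) (by norm_num) (by norm_num) (by norm_num) (by norm_num) (by norm_num)
          (by norm_num) (by norm_num)
    replace u1 := u0.le
    rcases le_or_gt (181 / 1000) δ with u0 | u0
    · exact bB (181 / 1000) (309 / 1000) (521 / 1000) (541 / 1000) (173 / 5000) (3273 / 10000) (2373 / 5000) u0 u1 t0 t1 (by norm_num) (by norm_num)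
          hX hX0 (by norm_num) (by norm_num) (by norm_num) (by norm_num) (by norm_num) (by norm_num)
          (by norm_num) (by norm_num)
    replace u1 := u0.le
    have u0 : 0 ≤ δ := hd0
    exact bB (0) (181 / 1000) (521 / 1000) (541 / 1000) (101 / 10000) (757 / 2500) (5159 / 10000) u0 u1 t0 t1 (by norm_num) (by norm_num)
          hX hX0 (by norm_num) (by norm_num) (by norm_num) (by norm_num) (by norm_num) (by norm_num)
          (by norm_num) (by norm_num)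
  replace t1 := t0.le
  rcases le_or_gt (62 / 125) s with t0 | t0
  · have u1 : δ ≤ 3297 / 10000 := hd1
    rcases le_or_gt (69 / 250) δ with u0 | u0
    · exact bB (69 / 250) (3297 / 10000) (62 / 125) (521 / 1000) (203 / 5000) (3121 / 10000) (2181 / 5000) u0 u1 t0 t1 (by norm_num) (by norm_num)
          hX hX0 (by norm_num) (by norm_num) (by norm_num) (by norm_num) (by norm_num) (by norm_num)
          (by norm_num) (by norm_num)
    replace u1 := u0.le
    rcases le_or_gt (89 / 1000) δ with u0 | u0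
    · exact bB (89 / 1000) (69 / 250) (62 / 125) (521 / 1000) (33 / 1250) (2979 / 10000) (4589 / 10000) u0 u1 t0 t1 (by norm_num) (by norm_num)
          hX hX0 (by norm_num) (by norm_num) (by norm_num) (by norm_num) (by norm_num) (by norm_num)
          (by norm_num) (by norm_num)
    replace u1 := u0.le
    have u0 : 0 ≤ δ := hd0
    exact bB (0) (89 / 1000) (62 / 125) (521 / 1000) (11 / 5000) (2737 / 10000) (1259 / 2500) u0 u1 t0 t1 (by norm_num) (by norm_num)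
          hX hX0 (by norm_num) (by norm_num) (by norm_num) (by norm_num) (by norm_num) (by norm_num)
          (by norm_num) (by norm_num)
  replace t1 := t0.le
  rcases le_or_gt (471 / 1000) s with t0 | t0
  · have u1 : δ ≤ 3297 / 10000 := hd1
    rcases le_or_gt (109 / 500) δ with u0 | u0
    · exact bB (109 / 500) (3297 / 10000) (471 / 1000) (62 / 125) (203 / 5000) (2867 / 10000) (4069 / 10000) u0 u1 t0 t1 (by norm_num) (by norm_num)
          hX hX0 (by norm_num) (by norm_num) (by norm_num) (by norm_num) (by norm_num) (by norm_num)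
          (by norm_num) (by norm_num)
    replace u1 := u0.le
    have u0 : 0 ≤ δ := hd0
    exact bB (0) (109 / 500) (471 / 1000) (62 / 125) (19 / 1250) (2613 / 10000) (901 / 2000) u0 u1 t0 t1 (by norm_num) (by norm_num)
          hX hX0 (by norm_num) (by norm_num) (by norm_num) (by norm_num) (by norm_num) (by norm_num)
          (by norm_num) (by norm_num)
  replace t1 := t0.le
  rcases le_or_gt (109 / 250) s with t0 | t0
  · have u1 : δ ≤ 3297 / 10000 := hd1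
    rcases le_or_gt (53 / 250) δ with u0 | u0
    · exact bB (53 / 250) (3297 / 10000) (109 / 250) (471 / 1000) (203 / 5000) (21 / 80) (183 / 500) u0 u1 t0 t1 (by norm_num) (by norm_num)
          hX hX0 (by norm_num) (by norm_num) (by norm_num) (by norm_num) (by norm_num) (by norm_num)
          (by norm_num) (by norm_num)
    replace u1 := u0.le
    have u0 : 0 ≤ δ := hd0
    exact bB (0) (53 / 250) (109 / 250) (471 / 1000) (143 / 10000) (1181 / 5000) (1033 / 2500) u0 u1 t0 t1 (by norm_num) (by norm_num)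
          hX hX0 (by norm_num) (by norm_num) (by norm_num) (by norm_num) (by norm_num) (by norm_num)
          (by norm_num) (by norm_num)
  replace t1 := t0.le
  rcases le_or_gt (381 / 1000) s with t0 | t0
  · have u1 : δ ≤ 3297 / 10000 := hd1
    rcases le_or_gt (11 / 50) δ with u0 | u0
    · exact bB (11 / 50) (3297 / 10000) (381 / 1000) (109 / 250) (203 / 5000) (2307 / 10000) (151 / 500) u0 u1 t0 t1 (by norm_num) (by norm_num)
          hX hX0 (by norm_num) (by norm_num) (by norm_num) (by norm_num) (by norm_num) (by norm_num)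
          (by norm_num) (by norm_num)
    replace u1 := u0.le
    have u0 : 0 ≤ δ := hd0
    exact bB (0) (11 / 50) (381 / 1000) (109 / 250) (39 / 2500) (2057 / 10000) (349 / 1000) u0 u1 t0 t1 (by norm_num) (by norm_num)
          hX hX0 (by norm_num) (by norm_num) (by norm_num) (by norm_num) (by norm_num) (by norm_num)
          (by norm_num) (by norm_num)
  replace t1 := t0.le
  rcases le_or_gt (37 / 125) s with t0 | t0
  · have u1 : δ ≤ 3297 / 10000 := hd1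
    rcases le_or_gt (43 / 200) δ with u0 | u0
    · exact bB (43 / 200) (3297 / 10000) (37 / 125) (381 / 1000) (203 / 5000) (929 / 5000) (51 / 250) u0 u1 t0 t1 (by norm_num) (by norm_num)
          hX hX0 (by norm_num) (by norm_num) (by norm_num) (by norm_num) (by norm_num) (by norm_num)
          (by norm_num) (by norm_num)
    replace u1 := u0.le
    have u0 : 0 ≤ δ := hd0
    exact bB (0) (43 / 200) (37 / 125) (381 / 1000) (37 / 2500) (4 / 25) (1277 / 5000) u0 u1 t0 t1 (by norm_num) (by norm_num)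
          hX hX0 (by norm_num) (by norm_num) (by norm_num) (by norm_num) (by norm_num) (by norm_num)
          (by norm_num) (by norm_num)
  replace t1 := t0.le
  rcases le_or_gt (39 / 250) s with t0 | t0
  · have u1 : δ ≤ 3297 / 10000 := hd1
    rcases le_or_gt (39 / 200) δ with u0 | u0
    · exact bB (39 / 200) (3297 / 10000) (39 / 250) (37 / 125) (203 / 5000) (1283 / 10000) (293 / 5000) u0 u1 t0 t1 (by norm_num) (by norm_num)
          hX hX0 (by norm_num) (by norm_num) (by norm_num) (by norm_num) (by norm_num) (by norm_num)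
          (by norm_num) (by norm_num)
    replace u1 := u0.le
    have u0 : 0 ≤ δ := hd0
    exact bB (0) (39 / 200) (39 / 250) (37 / 125) (119 / 10000) (249 / 2500) (21 / 200) u0 u1 t0 t1 (by norm_num) (by norm_num)
          hX hX0 (by norm_num) (by norm_num) (by norm_num) (by norm_num) (by norm_num) (by norm_num)
          (by norm_num) (by norm_num)
  replace t1 := t0.le
  have t0 : 0 ≤ s := hs.le
  have u1 : δ ≤ 3297 / 10000 := hd1
  rcases le_or_gt (2 / 125) δ with u0 | u0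
  · exact bB (2 / 125) (3297 / 10000) (0) (39 / 250) (203 / 5000) (13 / 200) (0) u0 u1 t0 t1 (by norm_num) (by norm_num)
        hX hX0 (by norm_num) (by norm_num) (by norm_num) (by norm_num) (by norm_num) (by norm_num)
        (by norm_num) (by norm_num)
  replace u1 := u0.le
  have u0 : 0 ≤ δ := hd0
  exact bB (0) (2 / 125) (0) (39 / 250) (1 / 10000) (49 / 2000) (0) u0 u1 t0 t1 (by norm_num) (by norm_num)
        hX hX0 (by norm_num) (by norm_num) (by norm_num) (by norm_num) (by norm_num) (by norm_num)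
        (by norm_num) (by norm_num)

/-- `E = 2ε/(2-ε)`: if `ε (2 - ε) U <= D` and `D (2 + e)^2 <= 8 e U` then `E <= e` -/
private theorem E_le {ε U D e : ℝ} (he0 : 0 ≤ ε) (he1 : ε ≤ 1) (hU : 0 < U) (he : 0 < e)
    (h1 : ε * (2 - ε) * U ≤ D) (h2 : (2 + e) ^ 2 * D ≤ 8 * e * U) :
    2 * ε / (2 - ε) ≤ e := by
  have a0 : 0 < 2 - ε := by linarith
  rw [div_le_iff₀ a0]
  by_contra h
  have h := not_le.1 h
  -- `ε (2 + e) > 2 e`
  have h3 : 2 * e < ε * (2 + e) := by linarith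
  have h4 : (2 + e) ^ 2 * (ε * (2 - ε)) * U ≤ 8 * e * U := by
    have := mul_le_mul_of_nonneg_left h1 (sq_nonneg (2 + e))
    nlinarith
  have h5 : (2 + e) ^ 2 * (ε * (2 - ε)) ≤ 8 * e := le_of_mul_le_mul_right h4 hU
  -- with `y = ε (2 + e)`: `y (2 (2 + e) - y) <= 8 e`, i.e. `(y - 2 e) (y - 4) >= 0`
  have h6 : 0 ≤ (ε * (2 + e) - 2 * e) * (ε * (2 + e) - 4) := by nlinarith
  have h7 : 4 ≤ ε * (2 + e) := by
    by_contra h8
    have h8 := not_le.1 h8
    nlinarith [mul_pos (sub_pos.2 h3) (sub_pos.2 h8)]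
  -- then `2 + e >= 4`, `e >= 2`, and `2 ε >= e (2 - ε) ...`
  have h9 : 2 ≤ e := by nlinarith
  nlinarith

private theorem s_le {γ : ℝ} (hg0 : 0 < γ) (hg : γ ≤ π / 2 - 1) : Real.sin γ ≤ 541 / 1000 := by
  have h1 : Real.sin γ ≤ Real.sin (π / 2 - 1) :=
    Real.sin_le_sin_of_le_of_le_pi_div_two (by linarith [Real.pi_pos]) (by linarith) hg
  rw [Real.sin_pi_div_two_sub] at h1
  have h2 : Real.cos 1 = 2 * Real.cos (1 / 2) ^ 2 - 1 := by
    rw [← Real.cos_two_mul]; norm_num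
  have h3 : Real.cos (1 / 2) = 2 * Real.cos (1 / 4) ^ 2 - 1 := by
    rw [← Real.cos_two_mul]; norm_num
  have h4 := Real.cos_bound (x := 1 / 4) (by rw [abs_of_pos] <;> norm_num)
  rw [abs_le] at h4
  have h5 : |(1 / 4 : ℝ)| = 1 / 4 := abs_of_pos (by norm_num)
  rw [h5] at h4
  have h6 := h4.2
  norm_num at h6
  have h7 : 0 ≤ Real.cos (1 / 4) := Real.cos_nonneg_of_mem_Icc
    ⟨by linarith [Real.pi_gt_three], by linarith [Real.pi_gt_three]⟩
  have h8 : 0 ≤ Real.cos (1 / 2) := Real.cos_nonneg_of_mem_Icc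
    ⟨by linarith [Real.pi_gt_three], by linarith [Real.pi_gt_three]⟩
  have h9 : Real.cos (1 / 4) ≤ 9689535 / 10000000 := by linarith
  have h10 : Real.cos (1 / 2) ≤ 8777418 / 10000000 := by
    rw [h3]
    nlinarith
  have h11 : Real.cos 1 ≤ 541 / 1000 := by
    rw [h2]
    nlinarith
  linarith

private theorem concl {S s r γ : ℝ} (hγ0 : 0 < γ) (hγ1 : γ ≤ π / 2) (hs : s = Real.sin γ)
    (hs0 : 0 < s) (hr : 0 ≤ r)
    (h : ((1 + r) * s ^ 2 + r * S ^ 2 ≤ 7921 / 10000) ∧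
    ((1 + r) * s ^ 2 + r * S ^ 2) ^ 3 * (1 + ((1 + r) * s ^ 2 + r * S ^ 2) / 10 +
      11 / 100 * ((1 + r) * s ^ 2 + r * S ^ 2) ^ 2) ^ 2 ≤
      4 * (1 + r) ^ 2 * s ^ 6 * (1 + s ^ 2 / 10) ^ 2) :
    (1 + r) * s ^ 2 + r * S ^ 2 ≤ 1 ∧ ∀ v, 0 ≤ v → v ≤ π / 2 →
      Real.sin v ^ 2 = (1 + r) * s ^ 2 + r * S ^ 2 → rh v ≤ 2 * (1 + r) * rh γ := by
  obtain ⟨h1, h2⟩ := h
  refine ⟨by linarith, fun v hv0 hv1 hv => ?_⟩
  rw [← hv] at h1 h2
  have ha : 0 ≤ Real.sin v := Real.sin_nonneg_of_nonneg_of_le_pi hv0 (by linarith [Real.pi_pos])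
  set a := Real.sin v with haa
  have ha1 : a ≤ 89 / 100 := by
    by_contra hh
    have hh := not_le.1 hh
    nlinarith
  have e1 := rh_up hv0 hv1 ha1
  have e2 := rh_lo hγ0.le hγ1
  rw [← haa] at e1
  rw [← hs] at e2
  have e3 : a ^ 3 * (1 + a ^ 2 / 10 + 11 / 100 * (a ^ 2) ^ 2) ≤
      2 * (1 + r) * s ^ 3 * (1 + s ^ 2 / 10) := by
    apply le_of_sq_le_sq _ (by positivity)
    calc (a ^ 3 * (1 + a ^ 2 / 10 + 11 / 100 * (a ^ 2) ^ 2)) ^ 2 =
        (a ^ 2) ^ 3 * (1 + a ^ 2 / 10 + 11 / 100 * (a ^ 2) ^ 2) ^ 2 := by ring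
      _ ≤ 4 * (1 + r) ^ 2 * s ^ 6 * (1 + s ^ 2 / 10) ^ 2 := h2
      _ = (2 * (1 + r) * s ^ 3 * (1 + s ^ 2 / 10)) ^ 2 := by ring
  calc rh v ≤ 8 / 3 * (a ^ 3 + a ^ 5 / 10 + 11 / 100 * a ^ 7) := e1
    _ = 8 / 3 * (a ^ 3 * (1 + a ^ 2 / 10 + 11 / 100 * (a ^ 2) ^ 2)) := by ring
    _ ≤ 8 / 3 * (2 * (1 + r) * s ^ 3 * (1 + s ^ 2 / 10)) := by gcongr
    _ = 2 * (1 + r) * (8 / 3 * (s ^ 3 + s ^ 5 / 10)) := by ring
    _ ≤ 2 * (1 + r) * rh γ := by gcongr

/-- the constant `R` -/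
noncomputable def Rr (t ε : ℝ) : ℝ := 1 + (2 * ε / (2 - ε) + Qe t) / (2 - Qe t)

/-- the bound of `r = R - 1` for `t <= 1/5` -/
theorem lgr1 {t γ ε : ℝ} (ht0 : 0 < t) (ht : t ≤ 1 / 5) (hg0 : 0 < γ) (hg : γ ≤ π / 2 - 1)
    (he0 : 0 ≤ ε) (he1 : ε ≤ 1)
    (hA : π * (ε * (2 - ε) * Qe t * (2 - Qe t)) ≤
      4 * π * (Real.sinh t ^ 2 + Real.sin γ ^ 2) - 4 * rh γ) :
    0 < Real.sinh t ∧ Real.sinh t ≤ 1007 / 5000 ∧
    Rr t ε - 1 ≤ 1 / (1 + 2 * Real.sinh t) ^ 2 + 12 / 5 * (Real.sinh t ^ 2 + Real.sin γ ^ 2) := by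
  have hpi := Real.pi_pos
  have hS : 0 < Real.sinh t := Real.sinh_pos_iff.2 ht0
  have hS1 : Real.sinh t ≤ 1007 / 5000 := by
    refine (sh_le ht e5_up).trans ?_
    norm_num
  refine ⟨hS, hS1, ?_⟩
  have hsp : 0 < Real.sin γ := Real.sin_pos_of_pos_of_lt_pi hg0 (by linarith)
  have hs1 := s_le hg0 hg
  have hQ0 : 0 < Qe t := Real.exp_pos _
  have hQ1 : Qe t < 1 := by
    unfold Qe
    rw [Real.exp_lt_one_iff]
    linarith
  have hQ2 : 6703 / 10000 ≤ Qe t := by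
    refine le_trans ?_ (Q_ge ht e5_up)
    norm_num
  set S := Real.sinh t with hSS
  set s := Real.sin γ with hss
  have hγ2 : γ < π / 2 := by linarith
  set r := (2 * ε / (2 - ε) + Qe t) / (2 - Qe t) with hrr
  have hRr : Rr t ε = 1 + r := rfl
  have a0 : 0 < 2 - Qe t := by linarith
  have a1 : 0 < 2 - ε := by linarith
  rw [hRr, add_sub_cancel_left]
  have hsplit : r = Qe t / (2 - Qe t) + 2 * ε / (2 - ε) / (2 - Qe t) := by
    rw [hrr, add_div, add_comm]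
  rw [hsplit]
  apply add_le_add (Q_div ht0.le)
  rw [div_le_iff₀ a0]
  have hS2 := S_sq t
  rw [← hSS] at hS2
  have hB := regB (δ := 1 - Qe t) (s := s) (X := S ^ 2) (by linarith) (by linarith) hsp hs1
    (by rw [sub_sub_cancel]; exact hS2) (sq_nonneg _)
  have hlo := rh_lo hg0.le hγ2.le
  rw [← hss] at hlo
  have hA0 : 0 < S ^ 2 + s ^ 2 := by positivity
  have hD : ε * (2 - ε) * (Qe t * (2 - Qe t)) ≤
      4 * (S ^ 2 + s ^ 2) - 339 / 100 * (s ^ 3 + s ^ 5 / 10) := by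
    have b1 : π * (ε * (2 - ε) * (Qe t * (2 - Qe t))) ≤
        π * (4 * (S ^ 2 + s ^ 2) - 339 / 100 * (s ^ 3 + s ^ 5 / 10)) := by
      have b2 : 0 ≤ s ^ 3 + s ^ 5 / 10 := by positivity
      have b3 : π * (339 / 100) ≤ 32 / 3 := by
        have := Real.pi_lt_d4
        linarith
      have b4 := mul_le_mul_of_nonneg_right b3 b2
      have b5 : ε * (2 - ε) * Qe t * (2 - Qe t) = ε * (2 - ε) * (Qe t * (2 - Qe t)) := by ring
      rw [b5] at hA
      nlinarith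
    exact le_of_mul_le_mul_left b1 hpi
  refine E_le he0 he1 (mul_pos hQ0 a0) (by positivity) hD ?_
  have e1 : 1 + (1 - Qe t) = 2 - Qe t := by ring
  have e2 : 1 - (1 - Qe t) = Qe t := by ring
  rw [e1, e2] at hB
  nlinarith

theorem lgn2 {t γ ε : ℝ} (ht0 : 1 / 5 ≤ t) (ht : t ≤ 3 / 5) (hg0 : 0 < γ) (hg : γ ≤ π / 2 - 1)
    (hk : Real.tanh t ≤ Real.tan γ) (he0 : 0 ≤ ε) (he1 : ε ≤ 1)
    (hA : π * (ε * (2 - ε) * Qe t * (2 - Qe t)) ≤
      93 / 25 * γ * Real.sin γ ^ 3 / Real.sinh t) :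
    Rr t ε * Real.sin γ ^ 2 + (Rr t ε - 1) * Real.sinh t ^ 2 ≤ 1 ∧ ∀ v, 0 ≤ v → v ≤ π / 2 →
      Real.sin v ^ 2 = Rr t ε * Real.sin γ ^ 2 + (Rr t ε - 1) * Real.sinh t ^ 2 →
      rh v ≤ 2 * Rr t ε * rh γ := by
  have hpi := Real.pi_pos
  have ht0' : 0 < t := by linarith
  have hS : 0 < Real.sinh t := Real.sinh_pos_iff.2 ht0'
  have hE3 : Real.exp (3 / 5) ≤ (122141 / 100000) ^ 3 := by
    have h1 : Real.exp (3 / 5) = Real.exp (1 / 5) ^ 3 := by rw [← Real.exp_nat_mul]; norm_num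
    rw [h1]
    have := e5_up
    gcongr
  have hS1 : Real.sinh t ≤ 6367 / 10000 := by
    refine (sh_le ht hE3).trans ?_
    norm_num
  have hS0 : 2013 / 10000 ≤ Real.sinh t := by
    refine le_trans ?_ (sh_ge ht0 (by norm_num) e5_lo)
    norm_num
  have hsp : 0 < Real.sin γ := Real.sin_pos_of_pos_of_lt_pi hg0 (by linarith)
  have hs1 := s_le hg0 hg
  have hQ0 : 0 < Qe t := Real.exp_pos _
  have hQ1 : Qe t < 1 := by
    unfold Qe
    rw [Real.exp_lt_one_iff]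
    linarith
  have hQ2 : 3011 / 10000 ≤ Qe t := by
    refine le_trans ?_ (Q_ge ht hE3)
    norm_num
  have hQ3 : Qe t ≤ 6704 / 10000 := by
    refine (Q_le ht0 (by norm_num) e5_lo).trans ?_
    norm_num
  set S := Real.sinh t with hSS
  set s := Real.sin γ with hss
  have hγ2 : γ < π / 2 := by linarith
  have hcos : 0 < Real.cos γ := Real.cos_pos_of_mem_Ioo ⟨by linarith, hγ2⟩
  have hC : 0 < Real.cosh t := Real.cosh_pos t
  have hk2 : S ^ 2 * (1 - 2 * s ^ 2) ≤ s ^ 2 := by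
    rw [Real.tanh_eq_sinh_div_cosh, Real.tan_eq_sin_div_cos, ← hSS, ← hss] at hk
    have k1 : S * Real.cos γ ≤ s * Real.cosh t := by
      rw [div_le_div_iff₀ hC hcos] at hk
      linarith
    have k2 : (S * Real.cos γ) ^ 2 ≤ (s * Real.cosh t) ^ 2 := by gcongr
    have k3 : Real.cos γ ^ 2 = 1 - s ^ 2 := by
      have := Real.sin_sq_add_cos_sq γ
      rw [← hss] at this
      linarith
    have k4 : Real.cosh t ^ 2 = 1 + S ^ 2 := by
      have := Real.cosh_sq t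
      rw [← hSS] at this
      linarith
    rw [mul_pow, mul_pow, k3, k4] at k2
    linarith
  set r := (2 * ε / (2 - ε) + Qe t) / (2 - Qe t) with hrr
  have hRr : Rr t ε = 1 + r := rfl
  have a0 : 0 < 2 - Qe t := by linarith
  have a1 : 0 < 2 - ε := by linarith
  have hr0 : 0 ≤ r := by rw [hrr]; positivity
  rw [hRr, add_sub_cancel_left]
  apply concl hg0 hγ2.le hss hsp hr0
  apply reg2 hS0 hS1 hsp hs1 hk2 hr0
  have hsplit : r = Qe t / (2 - Qe t) + 2 * ε / (2 - ε) / (2 - Qe t) := by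
    rw [hrr, add_div, add_comm]
  rw [hsplit]
  apply add_le_add (Q_div ht0'.le)
  rw [div_le_iff₀ a0]
  have hS2 := S_sq t
  rw [← hSS] at hS2
  have hγs : γ ≤ 1071 / 1000 * s := by
    have h1 := asin_up hg0.le hγ2.le (by linarith : Real.sin γ ≤ 89 / 100)
    rw [← hss] at h1
    have b1 : s ^ 2 ≤ (541 / 1000) ^ 2 := by gcongr
    have b2 : s ^ 3 / 6 ≤ (541 / 1000) ^ 2 / 6 * s := by nlinarith
    have b3 : s ^ 5 ≤ (541 / 1000) ^ 4 * s := by
      have : s ^ 4 ≤ (541 / 1000) ^ 4 := by gcongr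
      nlinarith
    norm_num at b2 b3
    linarith
  set P := 2 - Qe t with hP
  set w := s ^ 4 / S with hw
  have hw0 : 0 < w := by rw [hw]; positivity
  have hD : ε * (2 - ε) * (Qe t * P) ≤ 1269 / 1000 * w := by
    have b1 : 93 / 25 * γ * s ^ 3 / S ≤ π * (1269 / 1000 * w) := by
      have b2 : 93 / 25 * γ * s ^ 3 / S ≤ 93 / 25 * (1071 / 1000 * s) * s ^ 3 / S := by gcongr
      have b3 : 93 / 25 * (1071 / 1000 * s) * s ^ 3 / S = 93 / 25 * (1071 / 1000) * w := by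
        rw [hw]; ring
      have b4 : 93 / 25 * (1071 / 1000) ≤ π * (1269 / 1000) := by
        have := Real.pi_gt_d2
        linarith
      nlinarith [mul_le_mul_of_nonneg_right b4 hw0.le]
    have b5 : π * (ε * (2 - ε) * (Qe t * P)) ≤ π * (1269 / 1000 * w) := by
      have : π * (ε * (2 - ε) * (Qe t * P)) = π * (ε * (2 - ε) * Qe t * P) := by ring
      rw [this]
      exact hA.trans b1
    exact le_of_mul_le_mul_left b5 hpi
  have he : 0 < 11 / 10 * w * P := by positivity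
  have hww : 11 / 10 * s ^ 4 / S * P = 11 / 10 * w * P := by rw [hw]; ring
  rw [hww]
  refine E_le he0 he1 (mul_pos hQ0 a0) he hD ?_
  have key : 1269 / 1000 * (2 + 11 / 10 * w * P) ^ 2 ≤ 88 / 10 * (P ^ 2 * Qe t) := by
    have hw1 : w * S ≤ 8567 / 100000 := by
      have : w * S = s ^ 4 := by rw [hw]; field_simp
      rw [this]
      have : s ^ 4 ≤ (541 / 1000) ^ 4 := by gcongr
      norm_num at this
      linarith
    have hmono : ∀ d : ℝ, 1 / 2 ≤ d → 1 - Qe t ≤ d → (1 + d) ^ 2 * (1 - d) ≤ P ^ 2 * Qe t := by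
      intro d hd hd2
      have f1 : 1 / 3 - 1 / 100 ≤ 1 - Qe t := by linarith
      have e : P ^ 2 * Qe t - (1 + d) ^ 2 * (1 - d) =
          (d - (1 - Qe t)) * ((1 - Qe t) + d + (1 - Qe t) ^ 2 + (1 - Qe t) * d + d ^ 2 - 1) := by
        rw [hP]; ring
      have g1 : 0 ≤ d - (1 - Qe t) := by linarith
      have g2 : 0 ≤ (1 - Qe t) + d + (1 - Qe t) ^ 2 + (1 - Qe t) * d + d ^ 2 - 1 := by
        nlinarith [mul_nonneg (sub_nonneg.2 f1) (sub_nonneg.2 hd)]
      nlinarith [mul_nonneg g1 g2]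
    rcases le_or_gt (1 / 2) (Qe t) with h3 | h3
    · have c1 := hmono (1 / 2) (by norm_num) (by linarith)
      have c2 : P ≤ 3 / 2 := by rw [hP]; linarith
      have c3 : w ≤ 8567 / 100000 / (2013 / 10000) := by
        rw [le_div_iff₀ (by norm_num)]
        nlinarith
      have c4 : w * P ≤ 8567 / 100000 / (2013 / 10000) * (3 / 2) := by gcongr
      have c5 : (2 + 11 / 10 * w * P) ^ 2 ≤
          (2 + 11 / 10 * (8567 / 100000 / (2013 / 10000) * (3 / 2))) ^ 2 := by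
        have : 11 / 10 * w * P ≤ 11 / 10 * (8567 / 100000 / (2013 / 10000) * (3 / 2)) := by
          linarith
        gcongr
      norm_num at c1 c5
      linarith
    · have c1 := hmono (6989 / 10000) (by norm_num) (by linarith)
      have c2 : P ≤ 16989 / 10000 := by rw [hP]; linarith
      have c6 : 3535 / 10000 ≤ S := by
        have : 1 / 8 ≤ S ^ 2 := by
          have : (1 - Qe t) ^ 2 ≥ 1 / 4 := by nlinarith
          nlinarith
        by_contra hh
        have hh := not_le.1 hh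
        nlinarith
      have c3 : w ≤ 8567 / 100000 / (3535 / 10000) := by
        rw [le_div_iff₀ (by norm_num)]
        nlinarith
      have c4 : w * P ≤ 8567 / 100000 / (3535 / 10000) * (16989 / 10000) := by gcongr
      have c5 : (2 + 11 / 10 * w * P) ^ 2 ≤
          (2 + 11 / 10 * (8567 / 100000 / (3535 / 10000) * (16989 / 10000))) ^ 2 := by
        have : 11 / 10 * w * P ≤
            11 / 10 * (8567 / 100000 / (3535 / 10000) * (16989 / 10000)) := by
          linarith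
        gcongr
      norm_num at c1 c5
      linarith
  have hfin := mul_le_mul_of_nonneg_right key hw0.le
  calc (2 + 11 / 10 * w * P) ^ 2 * (1269 / 1000 * w) =
      1269 / 1000 * (2 + 11 / 10 * w * P) ^ 2 * w := by ring
    _ ≤ 88 / 10 * (P ^ 2 * Qe t) * w := hfin
    _ = 8 * (11 / 10 * w * P) * (Qe t * P) := by ring

end Pool.Agent.H36.SZ
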