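import Pool.Agent.H36.SZ.IkW

/-!
# Levels up to `tan γ = k tanh t`: monotonicity and integrals

PROOFS. `Nn_deriv`: `Bg' = Sh / D`, `D' = 2 sin 2γ`, `K - D = cos 2γ`:
`Nn' = 2 K Sh / D - 2 Sh - Sh (2 cos 2γ D - 2 sin^2 2γ) / D^2 = 2 Sh sin^2 2γ / D^2 >= 0`.
`Bg_gk`: tangent addition, `arctan (kT) + arctan (k(1-T)/(1+k^2 T)) = arctan k`.
`Dg_gk`: `cos (2 arctan v) = (1 - v^2)/(1 + v^2)`, `K = (1 + T^2)/(1 - T^2)`, `T = tanh t`.
`int_W3`: the integrand increases with `x`; `x = 2 Dg t γ`: `int_Iw2`.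
`int_WX3`: the integrand increases with `x`; for `x = 2 Dg t γ` it is by `int_dips`
(`f φ = max 0 (x - yy J t φ)`) `2 int_(-γ)^γ (x/(2D) - 1)(x - 2D) ds
 = 2 int_(-γ)^γ (x^2/(2D) - 2x + 2D) ds = 2 (x^2 Bg γ / Sh - 4 γ x + 4 γ K - 2 sin 2γ) = 2 Gg`.
`ex_lev`: `Dg t` is continuous and increasing on `[0, π/2]`, `2 Dg t 0 = 4 sinh^2 t`.
-/

open Complex MeasureTheory Set Filter Topology
open scoped ComplexConjugate Real

namespace Pool.Agent.H36.SZ

noncomputable def Gg (t γ : ℝ) : ℝ :=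
  4 * Dg t γ ^ 2 * Bg t γ / Real.sinh (2 * t) - 8 * γ * Dg t γ +
    4 * γ * Real.cosh (2 * t) - 2 * Real.sin (2 * γ)

theorem LkM_lin (s : ℝ) : HasDerivAt (fun s : ℝ => 2 * s) 2 s := by
  simpa using (hasDerivAt_id s).const_mul 2

theorem LkM_sin (s : ℝ) : HasDerivAt (fun s : ℝ => Real.sin (2 * s)) (Real.cos (2 * s) * 2) s :=
  (Real.hasDerivAt_sin (2 * s)).comp s (LkM_lin s)

theorem LkM_Dg (t s : ℝ) : HasDerivAt (Dg t) (2 * Real.sin (2 * s)) s := by
  have h := ((Real.hasDerivAt_cos (2 * s)).comp s (LkM_lin s)).const_sub (Real.cosh (2 * t))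
  refine h.congr_deriv ?_
  ring

theorem LkM_Dgc (t : ℝ) : Continuous (Dg t) := by
  unfold Dg
  fun_prop

theorem Nn_deriv {t : ℝ} (ht : 0 < t) (γ : ℝ) :
    HasDerivAt (Nn t) (2 * Real.sinh (2 * t) * Real.sin (2 * γ) ^ 2 / Dg t γ ^ 2) γ := by
  have hD := Dg_pos ht γ
  have h1 := (Bg_deriv ht γ).const_mul (2 * Real.cosh (2 * t))
  have h2 : HasDerivAt (fun s : ℝ => 2 * s * Real.sinh (2 * t)) (2 * Real.sinh (2 * t)) γ :=
    (LkM_lin γ).mul_const _
  have h3 := ((LkM_sin γ).const_mul (Real.sinh (2 * t))).div (LkM_Dg t γ) hD.ne'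
  refine ((h1.sub h2).sub h3).congr_deriv ?_
  have hK : Real.cosh (2 * t) = Dg t γ + Real.cos (2 * γ) := by
    unfold Dg
    ring
  rw [hK]
  field_simp
  ring

theorem Nn_mono {t γ γ' : ℝ} (ht : 0 < t) (h : γ' ≤ γ) : Nn t γ' ≤ Nn t γ := by
  have hSh : 0 < Real.sinh (2 * t) := Real.sinh_pos_iff.2 (by linarith)
  have hm : Monotone (Nn t) := by
    refine monotone_of_deriv_nonneg (fun x => (Nn_deriv ht x).differentiableAt) fun x => ?_
    rw [(Nn_deriv ht x).deriv]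
    positivity
  exact hm h

theorem LkM_T {t : ℝ} (ht : 0 < t) : 0 < Real.tanh t ∧ Real.tanh t < 1 ∧
    Qe t = (1 - Real.tanh t) / (1 + Real.tanh t) ∧
    Real.cosh (2 * t) = (1 + Real.tanh t ^ 2) / (1 - Real.tanh t ^ 2) := by
  have hs : 0 < Real.sinh t := Real.sinh_pos_iff.2 ht
  have hc : 0 < Real.cosh t := Real.cosh_pos t
  have hcs := Real.cosh_sq t
  have hsc : Real.sinh t < Real.cosh t := Real.sinh_lt_cosh t
  have hT : Real.tanh t = Real.sinh t / Real.cosh t := Real.tanh_eq_sinh_div_cosh t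
  have hT0 : 0 < Real.tanh t := by
    rw [hT]
    positivity
  have hT1 : Real.tanh t < 1 := by
    rw [hT, div_lt_one hc]
    exact hsc
  refine ⟨hT0, hT1, ?_, ?_⟩
  · have h1 : Qe t * (Real.cosh t + Real.sinh t) = Real.cosh t - Real.sinh t := by
      rw [Real.cosh_add_sinh, Real.cosh_sub_sinh, Qe, ← Real.exp_add]
      congr 1
      ring
    rw [eq_div_iff (by positivity), hT]
    field_simp
    linarith
  · have h2 : 0 < 1 - Real.tanh t ^ 2 := by nlinarith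
    rw [eq_div_iff h2.ne', hT, Real.cosh_two_mul]
    field_simp
    rw [hcs]
    ring

theorem Bg_gk {t k : ℝ} (ht : 0 < t) (hk : 0 ≤ k) :
    Bg t (Real.arctan (k * Real.tanh t)) = Real.arctan k := by
  obtain ⟨hT0, hT1, hQ, _⟩ := LkM_T ht
  set T := Real.tanh t with hT
  have hc := Real.cos_arctan_pos (k * T)
  have hc2 := Real.cos_sq_arctan (k * T)
  have htan : Real.sin (Real.arctan (k * T)) = k * T * Real.cos (Real.arctan (k * T)) := by
    have := Real.tan_arctan (k * T)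
    rw [Real.tan_eq_sin_div_cos, div_eq_iff hc.ne'] at this
    exact this
  have hkT : 0 ≤ k * T := by positivity
  have hs2 : Real.sin (2 * Real.arctan (k * T)) = 2 * (k * T) / (1 + (k * T) ^ 2) := by
    rw [Real.sin_two_mul, htan]
    have : 2 * (k * T * Real.cos (Real.arctan (k * T))) * Real.cos (Real.arctan (k * T)) =
        2 * (k * T) * Real.cos (Real.arctan (k * T)) ^ 2 := by ring
    rw [this, hc2]
    ring
  have hcos2 : Real.cos (2 * Real.arctan (k * T)) = (1 - (k * T) ^ 2) / (1 + (k * T) ^ 2) := by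
    rw [Real.cos_two_mul, hc2]
    have : (1 + (k * T) ^ 2) ≠ 0 := by positivity
    field_simp
    ring
  have hy : Qe t * Real.sin (2 * Real.arctan (k * T)) /
      (1 - Qe t * Real.cos (2 * Real.arctan (k * T))) = k * (1 - T) / (1 + k ^ 2 * T) := by
    rw [hs2, hcos2, hQ]
    have h1 : (1 + (k * T) ^ 2) ≠ 0 := by positivity
    have h2 : (1 + T) ≠ 0 := by positivity
    have h3 : (1 + k ^ 2 * T) ≠ 0 := by positivity
    have h4 : 1 - (1 - T) / (1 + T) * ((1 - (k * T) ^ 2) / (1 + (k * T) ^ 2)) =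
        2 * T * (1 + k ^ 2 * T) / ((1 + T) * (1 + (k * T) ^ 2)) := by
      field_simp
      ring
    rw [h4]
    field_simp
  unfold Bg
  rw [hy, Real.arctan_add]
  · congr 1
    have h3 : (1 + k ^ 2 * T) ≠ 0 := by positivity
    have h5 : 1 - k * T * (k * (1 - T) / (1 + k ^ 2 * T)) =
        (1 + k ^ 2 * T ^ 2) / (1 + k ^ 2 * T) := by
      field_simp
      ring
    have h6 : k * T + k * (1 - T) / (1 + k ^ 2 * T) =
        k * (1 + k ^ 2 * T ^ 2) / (1 + k ^ 2 * T) := by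
      field_simp
      ring
    have h7 : (1 + k ^ 2 * T ^ 2) ≠ 0 := by positivity
    rw [h5, h6]
    field_simp
  · have h3 : 0 < 1 + k ^ 2 * T := by positivity
    rw [← mul_div_assoc, div_lt_one h3]
    nlinarith [mul_nonneg (sq_nonneg k) (sq_nonneg T)]

theorem Dg_gk {t k : ℝ} (ht : 0 < t) (hk : 0 ≤ k) :
    Dg t (Real.arctan (k * Real.tanh t)) =
      2 * Real.tanh t ^ 2 * (1 + k ^ 2) /
        ((1 - Real.tanh t ^ 2) * (1 + k ^ 2 * Real.tanh t ^ 2)) := by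
  obtain ⟨hT0, hT1, _, hK⟩ := LkM_T ht
  have hc2 := Real.cos_sq_arctan (k * Real.tanh t)
  unfold Dg
  rw [Real.cos_two_mul, hc2, hK]
  have h1 : (1 + (k * Real.tanh t) ^ 2) ≠ 0 := by positivity
  have h2 : (1 - Real.tanh t ^ 2) ≠ 0 := by nlinarith
  have h3 : (1 + k ^ 2 * Real.tanh t ^ 2) ≠ 0 := by positivity
  field_simp
  ring

theorem LkM_yy {t : ℝ} (ht : 0 < t) (φ : ℝ) : 0 < yy J t φ := by
  have h := yy_J_Dg t (φ - π / 2)
  rw [show π / 2 + (φ - π / 2) = φ by ring] at h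
  rw [h]
  linarith [Dg_pos ht (φ - π / 2)]

theorem LkM_yyc (t : ℝ) : Continuous (yy J t) := by
  have h : yy J t = fun φ => 2 * Real.cosh (2 * t) + 2 * Real.cos (2 * φ) := funext (yy_J' t)
  rw [h]
  fun_prop

theorem LkM_Wc {t : ℝ} (ht : 0 < t) (x : ℝ) :
    Continuous fun θ => max 0 (x / yy J t θ - 1) :=
  continuous_const.max ((continuous_const.div (LkM_yyc t) fun θ => (LkM_yy ht θ).ne').sub
    continuous_const)

theorem LkM_Wm {t : ℝ} (ht : 0 < t) {x x' : ℝ} (h : x ≤ x') (θ : ℝ) :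
    max 0 (x / yy J t θ - 1) ≤ max 0 (x' / yy J t θ - 1) :=
  max_le_max le_rfl (sub_le_sub_right (div_le_div_of_nonneg_right h (LkM_yy ht θ).le) _)

theorem int_W3 {t γ x : ℝ} (ht : 0 < t) (h0 : 0 ≤ γ) (h1 : γ ≤ π / 2) (hx : x ≤ 2 * Dg t γ) :
    ∫ θ in (-π)..π, max 0 (x / yy J t θ - 1) ≤ Iw2 t γ := by
  rw [← int_Iw2 ht h0 h1]
  exact intervalIntegral.integral_mono_on (by linarith [Real.pi_pos])
    ((LkM_Wc ht _).intervalIntegrable _ _) ((LkM_Wc ht _).intervalIntegrable _ _)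
    fun θ _ => LkM_Wm ht hx θ

theorem LkM_Dgm {t γ s : ℝ} (h1 : γ ≤ π / 2) (hs : s ∈ Icc (-γ) γ) :
    Dg t s ≤ Dg t γ := by
  have h : Real.cos (2 * γ) ≤ Real.cos (2 * |s|) := by
    have h3 : |s| ≤ γ := abs_le.2 hs
    exact Real.cos_le_cos_of_nonneg_of_le_pi (by positivity) (by linarith) (by linarith)
  have h2 : Real.cos (2 * |s|) = Real.cos (2 * s) := by
    rw [← Real.cos_abs (2 * s), abs_mul, abs_two]
  unfold Dg
  linarith

theorem int_WX3 {t γ x : ℝ} (ht : 0 < t) (h0 : 0 ≤ γ) (h1 : γ ≤ π / 2) (hx : x ≤ 2 * Dg t γ) :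
    ∫ θ in (-π)..π, max 0 (x - yy J t θ) * max 0 (x / yy J t θ - 1) ≤ 2 * Gg t γ := by
  have hSh : 0 < Real.sinh (2 * t) := Real.sinh_pos_iff.2 (by linarith)
  have cf : ∀ x : ℝ, Continuous fun φ => max 0 (x - yy J t φ) := fun x =>
    continuous_const.max (continuous_const.sub (LkM_yyc t))
  have hper : ∀ φ, max 0 (2 * Dg t γ - yy J t (φ + π)) = max 0 (2 * Dg t γ - yy J t φ) := by
    intro φ
    rw [yy_J', yy_J', show 2 * (φ + π) = 2 * φ + 2 * π by ring, Real.cos_add_two_pi]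
  have step1 : ∫ θ in (-π)..π, max 0 (x - yy J t θ) * max 0 (x / yy J t θ - 1) ≤
      ∫ θ in (-π)..π, max 0 (2 * Dg t γ / yy J t θ - 1) * max 0 (2 * Dg t γ - yy J t θ) := by
    refine intervalIntegral.integral_mono_on (by linarith [Real.pi_pos])
      (((cf x).mul (LkM_Wc ht x)).intervalIntegrable _ _)
      (((LkM_Wc ht _).mul (cf _)).intervalIntegrable _ _) fun θ _ => ?_
    rw [mul_comm]
    exact mul_le_mul (LkM_Wm ht hx θ) (max_le_max le_rfl (by linarith)) (le_max_left _ _)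
      (le_max_left _ _)
  refine step1.trans (le_of_eq ?_)
  rw [int_dips ht h0 h1 (cf (2 * Dg t γ)) hper]
  have hcongr : ∫ s in (-γ)..γ, (2 * Dg t γ / (2 * Dg t s) - 1) *
      max 0 (2 * Dg t γ - yy J t (π / 2 + s)) =
      ∫ s in (-γ)..γ, (2 * Dg t γ ^ 2 / Real.sinh (2 * t) * (Real.sinh (2 * t) / Dg t s) -
        4 * Dg t γ + 2 * Real.cosh (2 * t) - 2 * Real.cos (2 * s)) := by
    refine intervalIntegral.integral_congr fun s hs => ?_
    rw [uIcc_of_le (by linarith)] at hs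
    have hD := Dg_pos ht s
    have hle := LkM_Dgm (t := t) h1 hs
    rw [yy_J_Dg, max_eq_right (by linarith)]
    have hcos : 2 * Real.cos (2 * s) = 2 * Real.cosh (2 * t) - 2 * Dg t s := by
      unfold Dg
      ring
    rw [hcos]
    field_simp
    ring
  rw [hcongr]
  have hprim : ∀ s ∈ uIcc (-γ) γ, HasDerivAt (fun s => 2 * Dg t γ ^ 2 / Real.sinh (2 * t) * Bg t s -
      4 * Dg t γ * s + 2 * Real.cosh (2 * t) * s - Real.sin (2 * s))
      (2 * Dg t γ ^ 2 / Real.sinh (2 * t) * (Real.sinh (2 * t) / Dg t s) -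
        4 * Dg t γ + 2 * Real.cosh (2 * t) - 2 * Real.cos (2 * s)) s := by
    intro s _
    have e1 := (Bg_deriv ht s).const_mul (2 * Dg t γ ^ 2 / Real.sinh (2 * t))
    have e2 := (hasDerivAt_id s).const_mul (4 * Dg t γ)
    have e3 := (hasDerivAt_id s).const_mul (2 * Real.cosh (2 * t))
    refine (((e1.sub e2).add e3).sub (LkM_sin s)).congr_deriv ?_
    ring
  have hcont : Continuous fun s => (2 * Dg t γ ^ 2 / Real.sinh (2 * t) *
      (Real.sinh (2 * t) / Dg t s) - 4 * Dg t γ + 2 * Real.cosh (2 * t) -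
        2 * Real.cos (2 * s)) := by
    have h := (continuous_const (y := Real.sinh (2 * t))).div (LkM_Dgc t)
      fun s => (Dg_pos ht s).ne'
    exact (((continuous_const.mul h).sub continuous_const).add continuous_const).sub
      (by fun_prop)
  rw [intervalIntegral.integral_eq_sub_of_hasDerivAt hprim (hcont.intervalIntegrable _ _),
    Bg_neg, show 2 * -γ = -(2 * γ) by ring, Real.sin_neg]
  unfold Gg
  field_simp
  ring

theorem ex_lev {t γ x : ℝ} (ht : 0 < t) (h0 : 0 ≤ γ) (h1 : γ ≤ π / 2)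
    (hx0 : 4 * Real.sinh t ^ 2 ≤ x) (hx : x ≤ 2 * Dg t γ) :
    ∃ γ' : ℝ, 0 ≤ γ' ∧ γ' ≤ γ ∧ x = 2 * Dg t γ' := by
  have hz : 2 * Dg t 0 = 4 * Real.sinh t ^ 2 := by
    unfold Dg
    rw [mul_zero, Real.cos_zero, Real.cosh_two_mul, Real.cosh_sq]
    ring
  have hc : ContinuousOn (fun s => 2 * Dg t s) (Icc 0 γ) :=
    (continuous_const.mul (LkM_Dgc t)).continuousOn
  obtain ⟨s, hs, hsx⟩ := intermediate_value_Icc h0 hc ⟨by rw [hz]; exact hx0, hx⟩
  exact ⟨s, hs.1, hs.2, hsx.symm⟩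

end Pool.Agent.H36.SZ
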