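import Pool.Agent.H36.SZ.LkM

/-!
# The level `tan γ = (5/4) tanh t`: numerical inequality

`T = tanh t ∈ (0, 0.9052)`, `q = Qe t = (1-T)/(1+T)`, `K = (1+T^2)/(1-T^2)`, `Sh = 2T/(1-T^2)`,
`γ = arctan (5T/4)`, `B = Bg t γ = arctan (5/4)` (`Bg_gk`), by `Dg_gk`
`N = Nn t γ = 2 K B - 2 γ Sh - 40/41`, `I = Iw2 t γ = 41 B T / (4 (1 + 25 T^2/16)) - 4 γ`,
`G = Gg t γ`, all explicit functions of `T` and `γ`. The first expression in the claim is, for
fixed `t`, concave... it is of the form `ε (a0 - a1 ε)` with `a1` of any sign, so it is enough to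
check `A(ε) = 2π (2-ε) q (1-q/2) - 4 N - I (4 ε q + (4/3)(2-ε) La) >= 0` at `ε = 0` and `ε = ε1`
(affine in `ε`), and the second at `ε1` (its right side increases in `ε`).
NUMERICS (largest `ε` for `A`, smallest `ε` for the second): t = .001: .52/.0005, .1: .388/.002,
.2: .352/.013, .3: .3475/.0385, .4: .3585/.0785, .5: .3775/.1275, .6: .402/.1805, .7: .429/.2335,
.8: .4575/.2835, .9: .4855/.329, 1: .5135/.369, 1.1: .5395/.404, 1.2: .564/.434, 1.3: .586/.4595,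
1.4: .606/.4815, 1.5: .6235/.4995. So `ε1 = 3/10` for `t <= 4/5`, `ε1 = 9/20` (`.4525`) for
`4/5 <= t <= 6/5`, `ε1 = 53/100` for `t >= 6/5` (or any other choice).
`A(0) = 4π q (1 - q/2) - 4N - (8/3) I La`: 1.16 (t -> 0), 1.41 (.1), 1.50 (.2), 1.49 (.3),
1.40 (.4), 1.27 (.5), 1.12 (.6), .82 (.8), .577 (1), .397 (1.2), .222 (1.5).
-/

open Complex MeasureTheory Set Filter Topology
open scoped ComplexConjugate Real

namespace Pool.Agent.H36.SZ

noncomputable def gk (t : ℝ) : ℝ := Real.arctan (5 / 4 * Real.tanh t)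

private noncomputable def FA (p B g T e : ℝ) : ℝ :=
  p * (2 - e) * ((1 - T) * (1 + 3 * T) / (1 + T) ^ 2) -
    8 * B * ((1 + T ^ 2) / ((1 - T) * (1 + T))) +
    16 * g * (T / ((1 - T) * (1 + T))) + 160 / 41 -
    (164 * B * (T / (16 + 25 * T ^ 2)) - 4 * g) *
      (4 * e * ((1 - T) / (1 + T)) +
        2 / 9 * (2 - e) * ((1 - T) ^ 2 * (1 + 2 * T) / (T * (1 + T) ^ 2)))

private noncomputable def FG (p B g T e : ℝ) : ℝ :=
  p * e * (2 - e) * ((1 - T) * (1 + 3 * T) / (1 + T) ^ 2) -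
    (13448 * B * (T ^ 3 / ((1 - T) * (1 + T) * (16 + 25 * T ^ 2) ^ 2)) +
      g * (4 * (16 - 123 * T ^ 2 + 25 * T ^ 4) / ((1 - T) * (1 + T) * (16 + 25 * T ^ 2))) -
      80 * (T / (16 + 25 * T ^ 2)))

private theorem pA0 {T : ℝ} (h0 : 0 < T) (h1 : T ≤ 2 / 5) :
    0 ≤ FA (6283 / 2000) (44803 / 50000) (T * (5 / 4 - 125 / 192 * T ^ 2)) T (1 / 5) := by
  have hT : 0 < T := by linarith
  have h3 : 0 < 1 - T := by linarith
  have h5 : 0 ≤ 2 / 5 - T := by linarith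
  have h6 : FA (6283 / 2000) (44803 / 50000) (T * (5 / 4 - 125 / 192 * T ^ 2)) T (1 / 5) = (
      73268335 / 10496 * (2 / 5 - T) ^ 7 + 542185679 / 10496 * T ^ 1 * (2 / 5 - T) ^ 6 +
      9779171959 / 62976 * T ^ 2 * (2 / 5 - T) ^ 5 +
      137799245271 / 524800 * T ^ 3 * (2 / 5 - T) ^ 4 +
      107489697263 / 393600 * T ^ 4 * (2 / 5 - T) ^ 3 +
      5637872751 / 32800 * T ^ 5 * (2 / 5 - T) ^ 2 +
      31025574889 / 524800 * T ^ 6 * (2 / 5 - T) ^ 1 + 12628583233 / 1574400 * T ^ 7) /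
      ((1 - T) * (1 + T) ^ 2 * (16 + 25 * T ^ 2)) := by
    have n1 : (1 : ℝ) - T ≠ 0 := h3.ne'
    unfold FA
    field_simp
    ring
  rw [h6]
  positivity

private theorem pZ0 {T : ℝ} (h0 : 0 < T) (h1 : T ≤ 2 / 5) :
    0 ≤ FA (6283 / 2000) (44803 / 50000) (T * (5 / 4 - 125 / 192 * T ^ 2)) T (0) := by
  have hT : 0 < T := by linarith
  have h3 : 0 < 1 - T := by linarith
  have h5 : 0 ≤ 2 / 5 - T := by linarith
  have h6 : FA (6283 / 2000) (44803 / 50000) (T * (5 / 4 - 125 / 192 * T ^ 2)) T (0) = (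
      2668631375 / 94464 * (2 / 5 - T) ^ 8 + 12923943925 / 47232 * T ^ 1 * (2 / 5 - T) ^ 7 +
      615412170085 / 566784 * T ^ 2 * (2 / 5 - T) ^ 6 +
      337697239163 / 141696 * T ^ 3 * (2 / 5 - T) ^ 5 +
      9060372866881 / 2833920 * T ^ 4 * (2 / 5 - T) ^ 4 +
      211642519349 / 78720 * T ^ 5 * (2 / 5 - T) ^ 3 +
      435202439459 / 314880 * T ^ 6 * (2 / 5 - T) ^ 2 +
      31109154329 / 78720 * T ^ 7 * (2 / 5 - T) ^ 1 + 14921228609 / 314880 * T ^ 8) /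
      ((1 - T) * (1 + T) ^ 2 * (16 + 25 * T ^ 2)) := by
    have n1 : (1 : ℝ) - T ≠ 0 := h3.ne'
    unfold FA
    field_simp
    ring
  rw [h6]
  positivity

private theorem pG0 {T : ℝ} (h0 : 0 < T) (h1 : T ≤ 2 / 5) :
    0 ≤ FG (6283 / 2000) (44803 / 50000) (T * (5 / 4 - 125 / 192 * T ^ 2)) T (1 / 5) := by
  have hT : 0 < T := by linarith
  have h3 : 0 < 1 - T := by linarith
  have h5 : 0 ≤ 2 / 5 - T := by linarith
  have h6 : FG (6283 / 2000) (44803 / 50000) (T * (5 / 4 - 125 / 192 * T ^ 2)) T (1 / 5) = (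
      176709375 / 64 * (2 / 5 - T) ^ 10 + 459444375 / 16 * T ^ 1 * (2 / 5 - T) ^ 9 +
      17070125625 / 128 * T ^ 2 * (2 / 5 - T) ^ 8 +
      279415352675 / 768 * T ^ 3 * (2 / 5 - T) ^ 7 +
      1976213481865 / 3072 * T ^ 4 * (2 / 5 - T) ^ 6 +
      588613053635 / 768 * T ^ 5 * (2 / 5 - T) ^ 5 +
      1903495886725 / 3072 * T ^ 6 * (2 / 5 - T) ^ 4 +
      256343758475 / 768 * T ^ 7 * (2 / 5 - T) ^ 3 +
      350028423475 / 3072 * T ^ 8 * (2 / 5 - T) ^ 2 +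
      16920618935 / 768 * T ^ 9 * (2 / 5 - T) ^ 1 + 5486597815 / 3072 * T ^ 10) /
      ((1 - T) * (1 + T) ^ 2 * (16 + 25 * T ^ 2) ^ 2) := by
    have n1 : (1 : ℝ) - T ≠ 0 := h3.ne'
    unfold FG
    field_simp
    ring
  rw [h6]
  positivity

private theorem pH0 {T : ℝ} (h0 : 0 < T) (h1 : T ≤ 2 / 5) :
    0 ≤ FG (6283 / 2000) (44803 / 50000) (5 / 4 * T) T (1 / 5) := by
  have hT : 0 < T := by linarith
  have h3 : 0 < 1 - T := by linarith
  have h5 : 0 ≤ 2 / 5 - T := by linarith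
  have h6 : FG (6283 / 2000) (44803 / 50000) (5 / 4 * T) T (1 / 5) = (
      7068375 / 16 * (2 / 5 - T) ^ 8 + 29687175 / 8 * T ^ 1 * (2 / 5 - T) ^ 7 +
      431170875 / 32 * T ^ 2 * (2 / 5 - T) ^ 6 + 1759190469 / 64 * T ^ 3 * (2 / 5 - T) ^ 5 +
      43516445031 / 1280 * T ^ 4 * (2 / 5 - T) ^ 4 +
      16439224097 / 640 * T ^ 5 * (2 / 5 - T) ^ 3 + 57229366 / 5 * T ^ 6 * (2 / 5 - T) ^ 2 +
      1782371837 / 640 * T ^ 7 * (2 / 5 - T) ^ 1 + 393481521 / 1280 * T ^ 8) /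
      ((1 - T) * (1 + T) ^ 2 * (16 + 25 * T ^ 2) ^ 2) := by
    have n1 : (1 : ℝ) - T ≠ 0 := h3.ne'
    unfold FG
    field_simp
    ring
  rw [h6]
  positivity

private theorem pA1 {T : ℝ} (h0 : 2 / 5 ≤ T) (h1 : T ≤ 3 / 5) :
    0 ≤ FA (6283 / 2000) (44803 / 50000) (7853 / 10000 - (4 - 5 * T) / (4 + 5 * T)) T (7 / 25) := by
  have hT : 0 < T := by linarith
  have h3 : 0 < 1 - T := by linarith
  have h4 : 0 ≤ T - 2 / 5 := by linarith
  have h5 : 0 ≤ 3 / 5 - T := by linarith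
  have h6 : FA (6283 / 2000) (44803 / 50000) (7853 / 10000 - (4 - 5 * T) / (4 + 5 * T)) T (7 / 25) = (
      4188580139 / 5125 * (3 / 5 - T) ^ 7 +
      193522499007 / 25625 * (T - 2 / 5) ^ 1 * (3 / 5 - T) ^ 6 +
      1464052791181 / 51250 * (T - 2 / 5) ^ 2 * (3 / 5 - T) ^ 5 +
      5938161123543 / 102500 * (T - 2 / 5) ^ 3 * (3 / 5 - T) ^ 4 +
      252099978007783 / 3690000 * (T - 2 / 5) ^ 4 * (3 / 5 - T) ^ 3 +
      28849862927303 / 615000 * (T - 2 / 5) ^ 5 * (3 / 5 - T) ^ 2 +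
      3203618054309 / 184500 * (T - 2 / 5) ^ 6 * (3 / 5 - T) ^ 1 +
      1232905189147 / 461250 * (T - 2 / 5) ^ 7) /
      (T * (1 - T) * (1 + T) ^ 2 * (16 + 25 * T ^ 2) * (4 + 5 * T)) := by
    have n1 : (1 : ℝ) - T ≠ 0 := h3.ne'
    unfold FA
    field_simp
    ring
  rw [h6]
  positivity

private theorem pZ1 {T : ℝ} (h0 : 2 / 5 ≤ T) (h1 : T ≤ 3 / 5) :
    0 ≤ FA (6283 / 2000) (44803 / 50000) (7853 / 10000 - (4 - 5 * T) / (4 + 5 * T)) T (0) := by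
  have hT : 0 < T := by linarith
  have h3 : 0 < 1 - T := by linarith
  have h4 : 0 ≤ T - 2 / 5 := by linarith
  have h5 : 0 ≤ 3 / 5 - T := by linarith
  have h6 : FA (6283 / 2000) (44803 / 50000) (7853 / 10000 - (4 - 5 * T) / (4 + 5 * T)) T (0) = (
      28534680218 / 5125 * (3 / 5 - T) ^ 7 +
      220135208994 / 5125 * (T - 2 / 5) ^ 1 * (3 / 5 - T) ^ 6 +
      718062858791 / 5125 * (T - 2 / 5) ^ 2 * (3 / 5 - T) ^ 5 +
      513267820581 / 2050 * (T - 2 / 5) ^ 3 * (3 / 5 - T) ^ 4 +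
      19517647369993 / 73800 * (T - 2 / 5) ^ 4 * (3 / 5 - T) ^ 3 +
      10142594383849 / 61500 * (T - 2 / 5) ^ 5 * (3 / 5 - T) ^ 2 +
      5179427259983 / 92250 * (T - 2 / 5) ^ 6 * (3 / 5 - T) ^ 1 +
      370940702261 / 46125 * (T - 2 / 5) ^ 7) /
      (T * (1 - T) * (1 + T) ^ 2 * (16 + 25 * T ^ 2) * (4 + 5 * T)) := by
    have n1 : (1 : ℝ) - T ≠ 0 := h3.ne'
    unfold FA
    field_simp
    ring
  rw [h6]
  positivity

private theorem pG1 {T : ℝ} (h0 : 2 / 5 ≤ T) (h1 : T ≤ 3 / 5) :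
    0 ≤ FG (6283 / 2000) (44803 / 50000) (7853 / 10000 - (4 - 5 * T) / (4 + 5 * T)) T (7 / 25) := by
  have hT : 0 < T := by linarith
  have h3 : 0 < 1 - T := by linarith
  have h4 : 0 ≤ T - 2 / 5 := by linarith
  have h5 : 0 ≤ 3 / 5 - T := by linarith
  have h6 : FG (6283 / 2000) (44803 / 50000) (7853 / 10000 - (4 - 5 * T) / (4 + 5 * T)) T (7 / 25) = (
      3587434886 / 5 * (3 / 5 - T) ^ 8 + 5343751519 * (T - 2 / 5) ^ 1 * (3 / 5 - T) ^ 7 +
      427908027897 / 25 * (T - 2 / 5) ^ 2 * (3 / 5 - T) ^ 6 +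
      1533392053051 / 50 * (T - 2 / 5) ^ 3 * (3 / 5 - T) ^ 5 +
      6687344359067 / 200 * (T - 2 / 5) ^ 4 * (3 / 5 - T) ^ 4 +
      1803862788967 / 80 * (T - 2 / 5) ^ 5 * (3 / 5 - T) ^ 3 +
      1817094372493 / 200 * (T - 2 / 5) ^ 6 * (3 / 5 - T) ^ 2 +
      39299809341 / 20 * (T - 2 / 5) ^ 7 * (3 / 5 - T) ^ 1 + 1688580259 / 10 * (T - 2 / 5) ^ 8) /
      ((1 - T) * (1 + T) ^ 2 * (16 + 25 * T ^ 2) ^ 2 * (4 + 5 * T)) := by
    have n1 : (1 : ℝ) - T ≠ 0 := h3.ne'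
    unfold FG
    field_simp
    ring
  rw [h6]
  positivity

private theorem pA2 {T : ℝ} (h0 : 3 / 5 ≤ T) (h1 : T ≤ 7 / 10) :
    0 ≤ FA (6283 / 2000) (44803 / 50000) (7853 / 10000 - (4 - 5 * T) / (4 + 5 * T)) T (37 / 100) := by
  have hT : 0 < T := by linarith
  have h3 : 0 < 1 - T := by linarith
  have h4 : 0 ≤ T - 3 / 5 := by linarith
  have h5 : 0 ≤ 7 / 10 - T := by linarith
  have h6 : FA (6283 / 2000) (44803 / 50000) (7853 / 10000 - (4 - 5 * T) / (4 + 5 * T)) T (37 / 100) = (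
      27960751531312 / 230625 * (7 / 10 - T) ^ 7 +
      221290241565236 / 230625 * (T - 3 / 5) ^ 1 * (7 / 10 - T) ^ 6 +
      245576235758087 / 76875 * (T - 3 / 5) ^ 2 * (7 / 10 - T) ^ 5 +
      5361311152638587 / 922500 * (T - 3 / 5) ^ 3 * (7 / 10 - T) ^ 4 +
      960752543171051 / 153750 * (T - 3 / 5) ^ 4 * (7 / 10 - T) ^ 3 +
      814762931258417 / 205000 * (T - 3 / 5) ^ 5 * (7 / 10 - T) ^ 2 +
      568041933963177 / 410000 * (T - 3 / 5) ^ 6 * (7 / 10 - T) ^ 1 +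
      67009156653571 / 328000 * (T - 3 / 5) ^ 7) /
      (T * (1 - T) * (1 + T) ^ 2 * (16 + 25 * T ^ 2) * (4 + 5 * T)) := by
    have n1 : (1 : ℝ) - T ≠ 0 := h3.ne'
    unfold FA
    field_simp
    ring
  rw [h6]
  positivity

private theorem pZ2 {T : ℝ} (h0 : 3 / 5 ≤ T) (h1 : T ≤ 7 / 10) :
    0 ≤ FA (6283 / 2000) (44803 / 50000) (7853 / 10000 - (4 - 5 * T) / (4 + 5 * T)) T (0) := by
  have hT : 0 < T := by linarith
  have h3 : 0 < 1 - T := by linarith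
  have h4 : 0 ≤ T - 3 / 5 := by linarith
  have h5 : 0 ≤ 7 / 10 - T := by linarith
  have h6 : FA (6283 / 2000) (44803 / 50000) (7853 / 10000 - (4 - 5 * T) / (4 + 5 * T)) T (0) = (
      47480409889408 / 46125 * (7 / 10 - T) ^ 7 +
      332802631519328 / 46125 * (T - 3 / 5) ^ 1 * (7 / 10 - T) ^ 6 +
      13269287754824 / 615 * (T - 3 / 5) ^ 2 * (7 / 10 - T) ^ 5 +
      329066498559514 / 9225 * (T - 3 / 5) ^ 3 * (7 / 10 - T) ^ 4 +
      108246838566644 / 3075 * (T - 3 / 5) ^ 4 * (7 / 10 - T) ^ 3 +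
      106238788946179 / 5125 * (T - 3 / 5) ^ 5 * (7 / 10 - T) ^ 2 +
      69109244995143 / 10250 * (T - 3 / 5) ^ 6 * (7 / 10 - T) ^ 1 +
      7659903269929 / 8200 * (T - 3 / 5) ^ 7) /
      (T * (1 - T) * (1 + T) ^ 2 * (16 + 25 * T ^ 2) * (4 + 5 * T)) := by
    have n1 : (1 : ℝ) - T ≠ 0 := h3.ne'
    unfold FA
    field_simp
    ring
  rw [h6]
  positivity

private theorem pG2 {T : ℝ} (h0 : 3 / 5 ≤ T) (h1 : T ≤ 7 / 10) :
    0 ≤ FG (6283 / 2000) (44803 / 50000) (7853 / 10000 - (4 - 5 * T) / (4 + 5 * T)) T (37 / 100) := by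
  have hT : 0 < T := by linarith
  have h3 : 0 < 1 - T := by linarith
  have h4 : 0 ≤ T - 3 / 5 := by linarith
  have h5 : 0 ≤ 7 / 10 - T := by linarith
  have h6 : FG (6283 / 2000) (44803 / 50000) (7853 / 10000 - (4 - 5 * T) / (4 + 5 * T)) T (37 / 100) = (
      590196678152 / 5 * (7 / 10 - T) ^ 8 +
      4298073577362 / 5 * (T - 3 / 5) ^ 1 * (7 / 10 - T) ^ 7 +
      135566032604833 / 50 * (T - 3 / 5) ^ 2 * (7 / 10 - T) ^ 6 +
      966152131539643 / 200 * (T - 3 / 5) ^ 3 * (7 / 10 - T) ^ 5 +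
      2123274954852589 / 400 * (T - 3 / 5) ^ 4 * (7 / 10 - T) ^ 4 +
      294012922634437 / 80 * (T - 3 / 5) ^ 5 * (7 / 10 - T) ^ 3 +
      624379774086999 / 400 * (T - 3 / 5) ^ 6 * (7 / 10 - T) ^ 2 +
      1184945429664911 / 3200 * (T - 3 / 5) ^ 7 * (7 / 10 - T) ^ 1 +
      47789488948889 / 1280 * (T - 3 / 5) ^ 8) /
      ((1 - T) * (1 + T) ^ 2 * (16 + 25 * T ^ 2) ^ 2 * (4 + 5 * T)) := by
    have n1 : (1 : ℝ) - T ≠ 0 := h3.ne'
    unfold FG
    field_simp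
    ring
  rw [h6]
  positivity

private theorem pA3 {T : ℝ} (h0 : 7 / 10 ≤ T) (h1 : T ≤ 4 / 5) :
    0 ≤ FA (6283 / 2000) (44803 / 50000) (7853 / 10000 - (4 - 5 * T) / (4 + 5 * T)) T (11 / 25) := by
  have hT : 0 < T := by linarith
  have h3 : 0 < 1 - T := by linarith
  have h4 : 0 ≤ T - 7 / 10 := by linarith
  have h5 : 0 ≤ 4 / 5 - T := by linarith
  have h6 : FA (6283 / 2000) (44803 / 50000) (7853 / 10000 - (4 - 5 * T) / (4 + 5 * T)) T (11 / 25) = (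
      5429932278223 / 82000 * (4 / 5 - T) ^ 7 +
      113787406822403 / 205000 * (T - 7 / 10) ^ 1 * (4 / 5 - T) ^ 6 +
      7802023187997 / 4100 * (T - 7 / 10) ^ 2 * (4 / 5 - T) ^ 5 +
      179159959256201 / 51250 * (T - 7 / 10) ^ 3 * (4 / 5 - T) ^ 4 +
      287434654805204 / 76875 * (T - 7 / 10) ^ 4 * (4 / 5 - T) ^ 3 +
      59879672704688 / 25625 * (T - 7 / 10) ^ 5 * (4 / 5 - T) ^ 2 +
      60886099074176 / 76875 * (T - 7 / 10) ^ 6 * (4 / 5 - T) ^ 1 +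
      8650123700224 / 76875 * (T - 7 / 10) ^ 7) /
      (T * (1 - T) * (1 + T) ^ 2 * (16 + 25 * T ^ 2) * (4 + 5 * T)) := by
    have n1 : (1 : ℝ) - T ≠ 0 := h3.ne'
    unfold FA
    field_simp
    ring
  rw [h6]
  positivity

private theorem pZ3 {T : ℝ} (h0 : 7 / 10 ≤ T) (h1 : T ≤ 4 / 5) :
    0 ≤ FA (6283 / 2000) (44803 / 50000) (7853 / 10000 - (4 - 5 * T) / (4 + 5 * T)) T (0) := by
  have hT : 0 < T := by linarith
  have h3 : 0 < 1 - T := by linarith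
  have h4 : 0 ≤ T - 7 / 10 := by linarith
  have h5 : 0 ≤ 4 / 5 - T := by linarith
  have h6 : FA (6283 / 2000) (44803 / 50000) (7853 / 10000 - (4 - 5 * T) / (4 + 5 * T)) T (0) = (
      7659903269929 / 8200 * (4 / 5 - T) ^ 7 +
      129878124457229 / 20500 * (T - 7 / 10) ^ 1 * (4 / 5 - T) ^ 6 +
      187456481293187 / 10250 * (T - 7 / 10) ^ 2 * (4 / 5 - T) ^ 5 +
      89509328540401 / 3075 * (T - 7 / 10) ^ 3 * (4 / 5 - T) ^ 4 +
      254342957839624 / 9225 * (T - 7 / 10) ^ 4 * (4 / 5 - T) ^ 3 +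
      47754286533856 / 3075 * (T - 7 / 10) ^ 5 * (4 / 5 - T) ^ 2 +
      222020312320256 / 46125 * (T - 7 / 10) ^ 6 * (4 / 5 - T) ^ 1 +
      29196225335296 / 46125 * (T - 7 / 10) ^ 7) /
      (T * (1 - T) * (1 + T) ^ 2 * (16 + 25 * T ^ 2) * (4 + 5 * T)) := by
    have n1 : (1 : ℝ) - T ≠ 0 := h3.ne'
    unfold FA
    field_simp
    ring
  rw [h6]
  positivity

private theorem pG3 {T : ℝ} (h0 : 7 / 10 ≤ T) (h1 : T ≤ 4 / 5) :
    0 ≤ FG (6283 / 2000) (44803 / 50000) (7853 / 10000 - (4 - 5 * T) / (4 + 5 * T)) T (11 / 25) := by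
  have hT : 0 < T := by linarith
  have h3 : 0 < 1 - T := by linarith
  have h4 : 0 ≤ T - 7 / 10 := by linarith
  have h5 : 0 ≤ 4 / 5 - T := by linarith
  have h6 : FG (6283 / 2000) (44803 / 50000) (7853 / 10000 - (4 - 5 * T) / (4 + 5 * T)) T (11 / 25) = (
      6482867204591 / 80 * (4 / 5 - T) ^ 8 +
      113102570673231 / 200 * (T - 7 / 10) ^ 1 * (4 / 5 - T) ^ 7 +
      170023386222641 / 100 * (T - 7 / 10) ^ 2 * (4 / 5 - T) ^ 6 +
      5737657942061 / 2 * (T - 7 / 10) ^ 3 * (4 / 5 - T) ^ 5 +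
      74024882428336 / 25 * (T - 7 / 10) ^ 4 * (4 / 5 - T) ^ 4 +
      47631613718464 / 25 * (T - 7 / 10) ^ 5 * (4 / 5 - T) ^ 3 +
      741352321536 * (T - 7 / 10) ^ 6 * (4 / 5 - T) ^ 2 +
      3946166398976 / 25 * (T - 7 / 10) ^ 7 * (4 / 5 - T) ^ 1 +
      345892651008 / 25 * (T - 7 / 10) ^ 8) /
      ((1 - T) * (1 + T) ^ 2 * (16 + 25 * T ^ 2) ^ 2 * (4 + 5 * T)) := by
    have n1 : (1 : ℝ) - T ≠ 0 := h3.ne'
    unfold FG
    field_simp
    ring
  rw [h6]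
  positivity

private theorem pA4 {T : ℝ} (h0 : 4 / 5 ≤ T) (h1 : T ≤ 43 / 50) :
    0 ≤ FA (6283 / 2000) (44803 / 50000) (7853 / 10000 - (4 - 5 * T) / (4 + 5 * T)) T (1 / 2) := by
  have hT : 0 < T := by linarith
  have h3 : 0 < 1 - T := by linarith
  have h4 : 0 ≤ T - 4 / 5 := by linarith
  have h5 : 0 ≤ 43 / 50 - T := by linarith
  have h6 : FA (6283 / 2000) (44803 / 50000) (7853 / 10000 - (4 - 5 * T) / (4 + 5 * T)) T (1 / 2) = (
      399272533120000 / 269001 * (43 / 50 - T) ^ 7 +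
      3067133341672000 / 269001 * (T - 4 / 5) ^ 1 * (43 / 50 - T) ^ 6 +
      3279911056303000 / 89667 * (T - 4 / 5) ^ 2 * (43 / 50 - T) ^ 5 +
      17164341949524650 / 269001 * (T - 4 / 5) ^ 3 * (43 / 50 - T) ^ 4 +
      70538192050453355 / 1076004 * (T - 4 / 5) ^ 4 * (43 / 50 - T) ^ 3 +
      142578651922956817 / 3586680 * (T - 4 / 5) ^ 5 * (43 / 50 - T) ^ 2 +
      1419911704241822881 / 107600400 * (T - 4 / 5) ^ 6 * (43 / 50 - T) ^ 1 +
      398767370465939729 / 215200800 * (T - 4 / 5) ^ 7) /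
      (T * (1 - T) * (1 + T) ^ 2 * (16 + 25 * T ^ 2) * (4 + 5 * T)) := by
    have n1 : (1 : ℝ) - T ≠ 0 := h3.ne'
    unfold FA
    field_simp
    ring
  rw [h6]
  positivity

private theorem pZ4 {T : ℝ} (h0 : 4 / 5 ≤ T) (h1 : T ≤ 43 / 50) :
    0 ≤ FA (6283 / 2000) (44803 / 50000) (7853 / 10000 - (4 - 5 * T) / (4 + 5 * T)) T (0) := by
  have hT : 0 < T := by linarith
  have h3 : 0 < 1 - T := by linarith
  have h4 : 0 ≤ T - 4 / 5 := by linarith
  have h5 : 0 ≤ 43 / 50 - T := by linarith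
  have h6 : FA (6283 / 2000) (44803 / 50000) (7853 / 10000 - (4 - 5 * T) / (4 + 5 * T)) T (0) = (
      18247640834560000 / 807003 * (43 / 50 - T) ^ 7 +
      121115960226976000 / 807003 * (T - 4 / 5) ^ 1 * (43 / 50 - T) ^ 6 +
      114296921321596000 / 269001 * (T - 4 / 5) ^ 2 * (43 / 50 - T) ^ 5 +
      536573532503201000 / 807003 * (T - 4 / 5) ^ 3 * (43 / 50 - T) ^ 4 +
      501069482424340175 / 807003 * (T - 4 / 5) ^ 4 * (43 / 50 - T) ^ 3 +
      930458970930754789 / 2690010 * (T - 4 / 5) ^ 5 * (43 / 50 - T) ^ 2 +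
      8586955800936432397 / 80700300 * (T - 4 / 5) ^ 6 * (43 / 50 - T) ^ 1 +
      2250052273587183413 / 161400600 * (T - 4 / 5) ^ 7) /
      (T * (1 - T) * (1 + T) ^ 2 * (16 + 25 * T ^ 2) * (4 + 5 * T)) := by
    have n1 : (1 : ℝ) - T ≠ 0 := h3.ne'
    unfold FA
    field_simp
    ring
  rw [h6]
  positivity

private theorem pG4 {T : ℝ} (h0 : 4 / 5 ≤ T) (h1 : T ≤ 43 / 50) :
    0 ≤ FG (6283 / 2000) (44803 / 50000) (7853 / 10000 - (4 - 5 * T) / (4 + 5 * T)) T (1 / 2) := by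
  have hT : 0 < T := by linarith
  have h3 : 0 < 1 - T := by linarith
  have h4 : 0 ≤ T - 4 / 5 := by linarith
  have h5 : 0 ≤ 43 / 50 - T := by linarith
  have h6 : FG (6283 / 2000) (44803 / 50000) (7853 / 10000 - (4 - 5 * T) / (4 + 5 * T)) T (1 / 2) = (
      4699947520000000 / 2187 * (43 / 50 - T) ^ 8 +
      32872972768000000 / 2187 * (T - 4 / 5) ^ 1 * (43 / 50 - T) ^ 7 +
      33183166332800000 / 729 * (T - 4 / 5) ^ 2 * (43 / 50 - T) ^ 6 +
      170263468414520000 / 2187 * (T - 4 / 5) ^ 3 * (43 / 50 - T) ^ 5 +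
      179616898553662250 / 2187 * (T - 4 / 5) ^ 4 * (43 / 50 - T) ^ 4 +
      11798854848975725 / 216 * (T - 4 / 5) ^ 5 * (43 / 50 - T) ^ 3 +
      781036853830339225 / 34992 * (T - 4 / 5) ^ 6 * (43 / 50 - T) ^ 2 +
      357612984226048775 / 69984 * (T - 4 / 5) ^ 7 * (43 / 50 - T) ^ 1 +
      23340882101484265 / 46656 * (T - 4 / 5) ^ 8) /
      ((1 - T) * (1 + T) ^ 2 * (16 + 25 * T ^ 2) ^ 2 * (4 + 5 * T)) := by
    have n1 : (1 : ℝ) - T ≠ 0 := h3.ne'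
    unfold FG
    field_simp
    ring
  rw [h6]
  positivity

private theorem pA5 {T : ℝ} (h0 : 43 / 50 ≤ T) (h1 : T ≤ 453 / 500) :
    0 ≤ FA (6283 / 2000) (44803 / 50000) (7853 / 10000 - (4 - 5 * T) / (4 + 5 * T)) T (27 / 50) := by
  have hT : 0 < T := by linarith
  have h3 : 0 < 1 - T := by linarith
  have h4 : 0 ≤ T - 43 / 50 := by linarith
  have h5 : 0 ≤ 453 / 500 - T := by linarith
  have h6 : FA (6283 / 2000) (44803 / 50000) (7853 / 10000 - (4 - 5 * T) / (4 + 5 * T)) T (27 / 50) = (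
      7149869409521825372500 / 1256380589943 * (453 / 500 - T) ^ 7 +
      17636732370026497188250 / 418793529981 * (T - 43 / 50) ^ 1 * (453 / 500 - T) ^ 6 +
      54870052803670394135875 / 418793529981 * (T - 43 / 50) ^ 2 * (453 / 500 - T) ^ 5 +
      559974632689878275498275 / 2512761179886 * (T - 43 / 50) ^ 3 * (453 / 500 - T) ^ 4 +
      1127655776729862032959535 / 5025522359772 * (T - 43 / 50) ^ 4 * (453 / 500 - T) ^ 3 +
      2245620513586819825934323 / 16751741199240 * (T - 43 / 50) ^ 5 * (453 / 500 - T) ^ 2 +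
      7388271127090191766710313 / 167517411992400 * (T - 43 / 50) ^ 6 * (453 / 500 - T) ^ 1 +
      6213564479316609432449609 / 1005104471954400 * (T - 43 / 50) ^ 7) /
      (T * (1 - T) * (1 + T) ^ 2 * (16 + 25 * T ^ 2) * (4 + 5 * T)) := by
    have n1 : (1 : ℝ) - T ≠ 0 := h3.ne'
    unfold FA
    field_simp
    ring
  rw [h6]
  positivity

private theorem pZ5 {T : ℝ} (h0 : 43 / 50 ≤ T) (h1 : T ≤ 453 / 500) :
    0 ≤ FA (6283 / 2000) (44803 / 50000) (7853 / 10000 - (4 - 5 * T) / (4 + 5 * T)) T (0) := by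
  have hT : 0 < T := by linarith
  have h3 : 0 < 1 - T := by linarith
  have h4 : 0 ≤ T - 43 / 50 := by linarith
  have h5 : 0 ≤ 453 / 500 - T := by linarith
  have h6 : FA (6283 / 2000) (44803 / 50000) (7853 / 10000 - (4 - 5 * T) / (4 + 5 * T)) T (0) = (
      112502613679359170650000 / 1256380589943 * (453 / 500 - T) ^ 7 +
      244316348143205086645000 / 418793529981 * (T - 43 / 50) ^ 1 * (453 / 500 - T) ^ 6 +
      678724293479229374981500 / 418793529981 * (T - 43 / 50) ^ 2 * (453 / 500 - T) ^ 5 +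
      3125728704908607892454750 / 1256380589943 * (T - 43 / 50) ^ 3 * (453 / 500 - T) ^ 4 +
      2862715356933743759838875 / 1256380589943 * (T - 43 / 50) ^ 4 * (453 / 500 - T) ^ 3 +
      1042551390325709079593171 / 837587059962 * (T - 43 / 50) ^ 5 * (453 / 500 - T) ^ 2 +
      3144897104403994827676889 / 8375870599620 * (T - 43 / 50) ^ 6 * (453 / 500 - T) ^ 1 +
      12124116421847226926751149 / 251276117988600 * (T - 43 / 50) ^ 7) /
      (T * (1 - T) * (1 + T) ^ 2 * (16 + 25 * T ^ 2) * (4 + 5 * T)) := by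
    have n1 : (1 : ℝ) - T ≠ 0 := h3.ne'
    unfold FA
    field_simp
    ring
  rw [h6]
  positivity

private theorem pG5 {T : ℝ} (h0 : 43 / 50 ≤ T) (h1 : T ≤ 453 / 500) :
    0 ≤ FG (6283 / 2000) (44803 / 50000) (7853 / 10000 - (4 - 5 * T) / (4 + 5 * T)) T (27 / 50) := by
  have hT : 0 < T := by linarith
  have h3 : 0 < 1 - T := by linarith
  have h4 : 0 ≤ T - 43 / 50 := by linarith
  have h5 : 0 ≤ 453 / 500 - T := by linarith
  have h6 : FG (6283 / 2000) (44803 / 50000) (7853 / 10000 - (4 - 5 * T) / (4 + 5 * T)) T (27 / 50) = (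
      654692602280100990562500 / 78310985281 * (453 / 500 - T) ^ 8 +
      4524892656662610211637500 / 78310985281 * (T - 43 / 50) ^ 1 * (453 / 500 - T) ^ 7 +
      13559640446889641868413750 / 78310985281 * (T - 43 / 50) ^ 2 * (453 / 500 - T) ^ 6 +
      23002855070442511173450875 / 78310985281 * (T - 43 / 50) ^ 3 * (453 / 500 - T) ^ 5 +
      24159701053638286873749250 / 78310985281 * (T - 43 / 50) ^ 4 * (453 / 500 - T) ^ 4 +
      64377472987512909047097485 / 313243941124 * (T - 43 / 50) ^ 5 * (453 / 500 - T) ^ 3 +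
      53201504176902572546847621 / 626487882248 * (T - 43 / 50) ^ 6 * (453 / 500 - T) ^ 2 +
      125034799506668836403811741 / 6264878822480 * (T - 43 / 50) ^ 7 * (453 / 500 - T) ^ 1 +
      257326148746561534920771119 / 125297576449600 * (T - 43 / 50) ^ 8) /
      ((1 - T) * (1 + T) ^ 2 * (16 + 25 * T ^ 2) ^ 2 * (4 + 5 * T)) := by
    have n1 : (1 : ℝ) - T ≠ 0 := h3.ne'
    unfold FG
    field_simp
    ring
  rw [h6]
  positivity

private theorem FA_mono {p B g g' T e : ℝ} (h0 : 0 < T) (h1 : T < 1) (he0 : 0 ≤ e)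
    (he1 : e ≤ 1) (hp : 6283 / 2000 ≤ p) (hB : B ≤ 44803 / 50000) (hg : g' ≤ g)
    (h : 0 ≤ FA (6283 / 2000) (44803 / 50000) g' T e) : 0 ≤ FA p B g T e := by
  have h3 : 0 < 1 - T := by linarith
  have h2e : 0 ≤ 2 - e := by linarith
  have ha : 0 ≤ (1 - T) * (1 + 3 * T) / (1 + T) ^ 2 := by positivity
  have hb : 0 ≤ (1 + T ^ 2) / ((1 - T) * (1 + T)) := by positivity
  have hc : 0 ≤ T / ((1 - T) * (1 + T)) := by positivity
  have hd : 0 ≤ T / (16 + 25 * T ^ 2) := by positivity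
  have hf : 0 ≤ 4 * e * ((1 - T) / (1 + T)) +
      2 / 9 * (2 - e) * ((1 - T) ^ 2 * (1 + 2 * T) / (T * (1 + T) ^ 2)) := by positivity
  unfold FA at h ⊢
  set a := (1 - T) * (1 + 3 * T) / (1 + T) ^ 2
  set b := (1 + T ^ 2) / ((1 - T) * (1 + T))
  set c := T / ((1 - T) * (1 + T))
  set d := T / (16 + 25 * T ^ 2)
  set f := 4 * e * ((1 - T) / (1 + T)) +
      2 / 9 * (2 - e) * ((1 - T) ^ 2 * (1 + 2 * T) / (T * (1 + T) ^ 2))
  have k1 := mul_nonneg (mul_nonneg (sub_nonneg.2 hp) h2e) ha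
  have k2 := mul_nonneg (sub_nonneg.2 hB) hb
  have k3 := mul_nonneg (sub_nonneg.2 hg) hc
  have k4 := mul_nonneg (mul_nonneg (sub_nonneg.2 hB) hd) hf
  have k5 := mul_nonneg (sub_nonneg.2 hg) hf
  have k6 : p * (2 - e) * a - 8 * B * b + 16 * g * c + 160 / 41 - (164 * B * d - 4 * g) * f =
      (6283 / 2000 * (2 - e) * a - 8 * (44803 / 50000) * b + 16 * g' * c + 160 / 41 -
        (164 * (44803 / 50000) * d - 4 * g') * f) + (p - 6283 / 2000) * (2 - e) * a +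
      8 * ((44803 / 50000 - B) * b) + 16 * ((g - g') * c) +
      164 * ((44803 / 50000 - B) * d * f) + 4 * ((g - g') * f) := by ring
  rw [k6]
  linarith

private theorem FA_affine {p B g T e e1 : ℝ} (h0 : 0 ≤ e) (h1 : e ≤ e1) (h2 : 0 < e1)
    (hz : 0 ≤ FA p B g T 0) (h : 0 ≤ FA p B g T e1) : 0 ≤ FA p B g T e := by
  have k : FA p B g T e = ((e1 - e) * FA p B g T 0 + e * FA p B g T e1) / e1 := by
    unfold FA
    field_simp
    ring
  rw [k]
  have : 0 ≤ e1 - e := by linarith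
  positivity

private theorem FG_lo {p B g g' T e : ℝ} (h0 : 0 < T) (h1 : T < 1) (he0 : 0 ≤ e)
    (he1 : e ≤ 1) (hp : 6283 / 2000 ≤ p) (hB : B ≤ 44803 / 50000) (hg : g' ≤ g)
    (hs : 16 - 123 * T ^ 2 + 25 * T ^ 4 ≤ 0)
    (h : 0 ≤ FG (6283 / 2000) (44803 / 50000) g' T e) : 0 ≤ FG p B g T e := by
  have h3 : 0 < 1 - T := by linarith
  have h2e : 0 ≤ 2 - e := by linarith
  have ha : 0 ≤ (1 - T) * (1 + 3 * T) / (1 + T) ^ 2 := by positivity
  have hb : 0 ≤ T ^ 3 / ((1 - T) * (1 + T) * (16 + 25 * T ^ 2) ^ 2) := by positivity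
  have hc : 4 * (16 - 123 * T ^ 2 + 25 * T ^ 4) / ((1 - T) * (1 + T) * (16 + 25 * T ^ 2)) ≤ 0 := by
    apply div_nonpos_of_nonpos_of_nonneg
    · linarith
    · positivity
  unfold FG at h ⊢
  set a := (1 - T) * (1 + 3 * T) / (1 + T) ^ 2
  set b := T ^ 3 / ((1 - T) * (1 + T) * (16 + 25 * T ^ 2) ^ 2)
  set c := 4 * (16 - 123 * T ^ 2 + 25 * T ^ 4) / ((1 - T) * (1 + T) * (16 + 25 * T ^ 2))
  have k1 := mul_nonneg (mul_nonneg (mul_nonneg (sub_nonneg.2 hp) he0) h2e) ha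
  have k2 := mul_nonneg (sub_nonneg.2 hB) hb
  have k3 := mul_nonneg (sub_nonneg.2 hg) (neg_nonneg.2 hc)
  nlinarith [k1, k2, k3]

private theorem FG_hi {p B g g' T e : ℝ} (h0 : 0 < T) (h1 : T < 1) (he0 : 0 ≤ e)
    (he1 : e ≤ 1) (hp : 6283 / 2000 ≤ p) (hB : B ≤ 44803 / 50000) (hg : g ≤ g')
    (hs : 0 ≤ 16 - 123 * T ^ 2 + 25 * T ^ 4)
    (h : 0 ≤ FG (6283 / 2000) (44803 / 50000) g' T e) : 0 ≤ FG p B g T e := by
  have h3 : 0 < 1 - T := by linarith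
  have h2e : 0 ≤ 2 - e := by linarith
  have ha : 0 ≤ (1 - T) * (1 + 3 * T) / (1 + T) ^ 2 := by positivity
  have hb : 0 ≤ T ^ 3 / ((1 - T) * (1 + T) * (16 + 25 * T ^ 2) ^ 2) := by positivity
  have hc : 0 ≤ 4 * (16 - 123 * T ^ 2 + 25 * T ^ 4) /
      ((1 - T) * (1 + T) * (16 + 25 * T ^ 2)) := by positivity
  unfold FG at h ⊢
  set a := (1 - T) * (1 + 3 * T) / (1 + T) ^ 2
  set b := T ^ 3 / ((1 - T) * (1 + T) * (16 + 25 * T ^ 2) ^ 2)
  set c := 4 * (16 - 123 * T ^ 2 + 25 * T ^ 4) / ((1 - T) * (1 + T) * (16 + 25 * T ^ 2))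
  have k1 := mul_nonneg (mul_nonneg (mul_nonneg (sub_nonneg.2 hp) he0) h2e) ha
  have k2 := mul_nonneg (sub_nonneg.2 hB) hb
  have k3 := mul_nonneg (sub_nonneg.2 hg) hc
  nlinarith [k1, k2, k3]

private theorem FG_inc {p B g T e e1 : ℝ} (h0 : 0 < T) (h1 : T < 1) (hp : 0 ≤ p)
    (he : e1 ≤ e) (he1 : e ≤ 1) (h : 0 ≤ FG p B g T e1) : 0 ≤ FG p B g T e := by
  have h3 : 0 < 1 - T := by linarith
  have ha : 0 ≤ (1 - T) * (1 + 3 * T) / (1 + T) ^ 2 := by positivity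
  have k : FG p B g T e = FG p B g T e1 +
      (e - e1) * (2 - e - e1) * (p * ((1 - T) * (1 + 3 * T) / (1 + T) ^ 2)) := by
    unfold FG
    ring
  rw [k]
  have k1 : 0 ≤ e - e1 := by linarith
  have k2 : 0 ≤ 2 - e - e1 := by linarith
  positivity

private theorem atan_lo {x : ℝ} (hx : 0 ≤ x) : x - x ^ 3 / 3 ≤ Real.arctan x := by
  have hd : ∀ y : ℝ, HasDerivAt (fun y : ℝ => Real.arctan y - (y - y ^ 3 / 3))
      (1 / (1 + y ^ 2) - (1 - 3 * y ^ 2 / 3)) y := by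
    intro y
    have h3 : HasDerivAt (fun y : ℝ => y ^ 3) (3 * y ^ 2) y := by
      simpa using hasDerivAt_pow 3 y
    exact (Real.hasDerivAt_arctan y).sub ((hasDerivAt_id' y).sub (h3.div_const 3))
  have hm : MonotoneOn (fun y : ℝ => Real.arctan y - (y - y ^ 3 / 3)) (Ici 0) := by
    refine monotoneOn_of_deriv_nonneg (convex_Ici 0)
      (fun y _ => (hd y).continuousAt.continuousWithinAt)
      (fun y _ => (hd y).differentiableAt.differentiableWithinAt) ?_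
    intro y hy
    rw [(hd y).deriv]
    have e : 1 / (1 + y ^ 2) - (1 - 3 * y ^ 2 / 3) = y ^ 4 / (1 + y ^ 2) := by
      field_simp
      ring
    rw [e]
    positivity
  have := hm (mem_Ici.2 le_rfl) (show x ∈ Ici (0 : ℝ) from hx) hx
  simp only [Real.arctan_zero] at this
  linarith

private theorem atan_hi {x : ℝ} (hx : 0 ≤ x) :
    Real.arctan x ≤ x - x ^ 3 / 3 + x ^ 5 / 5 := by
  have hd : ∀ y : ℝ, HasDerivAt (fun y : ℝ => (y - y ^ 3 / 3 + y ^ 5 / 5) - Real.arctan y)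
      ((1 - 3 * y ^ 2 / 3 + 5 * y ^ 4 / 5) - 1 / (1 + y ^ 2)) y := by
    intro y
    have h3 : HasDerivAt (fun y : ℝ => y ^ 3) (3 * y ^ 2) y := by
      simpa using hasDerivAt_pow 3 y
    have h5 : HasDerivAt (fun y : ℝ => y ^ 5) (5 * y ^ 4) y := by
      simpa using hasDerivAt_pow 5 y
    exact (((hasDerivAt_id' y).sub (h3.div_const 3)).add (h5.div_const 5)).sub
      (Real.hasDerivAt_arctan y)
  have hm : MonotoneOn (fun y : ℝ => (y - y ^ 3 / 3 + y ^ 5 / 5) - Real.arctan y) (Ici 0) := by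
    refine monotoneOn_of_deriv_nonneg (convex_Ici 0)
      (fun y _ => (hd y).continuousAt.continuousWithinAt)
      (fun y _ => (hd y).differentiableAt.differentiableWithinAt) ?_
    intro y hy
    rw [(hd y).deriv]
    have e : (1 - 3 * y ^ 2 / 3 + 5 * y ^ 4 / 5) - 1 / (1 + y ^ 2) = y ^ 6 / (1 + y ^ 2) := by
      field_simp
      ring
    rw [e]
    positivity
  have := hm (mem_Ici.2 le_rfl) (show x ∈ Ici (0 : ℝ) from hx) hx
  simp only [Real.arctan_zero] at this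
  linarith

private theorem atan_le {x : ℝ} (hx : 0 ≤ x) : Real.arctan x ≤ x := by
  rcases le_total x 1 with h | h
  · have h1 := atan_hi hx
    have h2 : x ^ 5 ≤ x ^ 3 := pow_le_pow_of_le_one hx h (by norm_num)
    have h3 : 0 ≤ x ^ 3 := by positivity
    linarith
  · have h1 : Real.arctan x < π / 2 := Real.arctan_lt_pi_div_two x
    rcases le_total x 2 with h2 | h2
    · by_contra hc
      push Not at hc
      have h5 : 0 < Real.arctan x := by linarith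
      have h6 := Real.lt_tan (x := x) (by linarith) (by linarith)
      have h7 : Real.tan x < Real.tan (Real.arctan x) :=
        Real.tan_lt_tan_of_nonneg_of_lt_pi_div_two (by linarith) h1 hc
      rw [Real.tan_arctan] at h7
      linarith
    · have := Real.pi_lt_d2
      linarith

private theorem B_le : Real.arctan (5 / 4) ≤ 44803 / 50000 := by
  have h1 : Real.arctan 1 + Real.arctan (1 / 9) = Real.arctan (5 / 4) := by
    rw [Real.arctan_add (by norm_num)]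
    norm_num
  rw [Real.arctan_one] at h1
  have h2 := atan_hi (x := 1 / 9) (by norm_num)
  have h3 := Real.pi_lt_d4
  norm_num at h2 h3 ⊢
  linarith

private theorem gam_hi {T : ℝ} (h0 : 0 < T) : Real.arctan (5 / 4 * T) ≤ 5 / 4 * T :=
  atan_le (by positivity)

private theorem gam_lo0 {T : ℝ} (h0 : 0 < T) :
    T * (5 / 4 - 125 / 192 * T ^ 2) ≤ Real.arctan (5 / 4 * T) := by
  have h := atan_lo (x := 5 / 4 * T) (by positivity)
  have e : T * (5 / 4 - 125 / 192 * T ^ 2) = 5 / 4 * T - (5 / 4 * T) ^ 3 / 3 := by ring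
  rw [e]
  exact h

private theorem gam_lo1 {T : ℝ} (h0 : 0 < T) (h1 : T ≤ 453 / 500) :
    7853 / 10000 - (4 - 5 * T) / (4 + 5 * T) ≤ Real.arctan (5 / 4 * T) := by
  have hp := Real.pi_gt_d6
  set w := (4 - 5 * T) / (4 + 5 * T) with hw
  have h4 : (0 : ℝ) < 4 + 5 * T := by linarith
  have e1 : 5 / 4 * T * w < 1 := by
    rw [hw, mul_div_assoc', div_lt_one h4]
    nlinarith
  have e2 : Real.arctan (5 / 4 * T) + Real.arctan w = π / 4 := by
    rw [Real.arctan_add e1, ← Real.arctan_one]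
    congr 1
    have e3 : 1 - 5 / 4 * T * w ≠ 0 := by linarith
    rw [div_eq_one_iff_eq e3, hw]
    field_simp
    ring
  have e4 : Real.arctan w ≤ w + 97 / 1000000 := by
    rcases le_total 0 w with h | h
    · have := atan_le h
      linarith
    · have h5 := atan_lo (x := -w) (by linarith)
      rw [Real.arctan_neg] at h5
      have h6 : -w ≤ 63 / 1000 := by
        rw [hw, ← neg_div, div_le_iff₀ h4]
        linarith
      have h7 : (-w) ^ 3 ≤ (63 / 1000 : ℝ) ^ 3 := pow_le_pow_left₀ (by linarith) h6 3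
      norm_num at h7
      linarith
  norm_num at hp
  linarith

private theorem cneg {T : ℝ} (h0 : 2 / 5 ≤ T) (h1 : T < 1) :
    16 - 123 * T ^ 2 + 25 * T ^ 4 ≤ 0 := by
  have h2 : 4 / 25 ≤ T ^ 2 := by nlinarith
  have h3 : T ^ 2 ≤ 1 := by nlinarith
  nlinarith

private theorem comb {p B g T e e1 : ℝ} (h0 : 0 < T) (h1 : T < 1) (hp : 0 ≤ p)
    (he0 : 0 ≤ e) (he1 : e ≤ 1) (hp1 : 0 < e1)
    (hz : 0 ≤ FA p B g T 0) (ha : 0 ≤ FA p B g T e1) (hg : 0 ≤ FG p B g T e1) :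
    0 ≤ FA p B g T e ∨ 0 ≤ FG p B g T e := by
  rcases le_total e e1 with h | h
  · exact Or.inl (FA_affine he0 h hp1 hz ha)
  · exact Or.inr (FG_inc h0 h1 hp h he1 hg)

private theorem main_num {T e : ℝ} (h0 : 0 < T) (h1 : T ≤ 453 / 500) (he0 : 0 ≤ e)
    (he1 : e ≤ 1) :
    0 ≤ FA π (Real.arctan (5 / 4)) (Real.arctan (5 / 4 * T)) T e ∨
      0 ≤ FG π (Real.arctan (5 / 4)) (Real.arctan (5 / 4 * T)) T e := by
  have hB := B_le
  have hp : (6283 / 2000 : ℝ) ≤ π := by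
    have := Real.pi_gt_d4
    norm_num at this
    linarith
  have hp0 := Real.pi_pos.le
  have hT1 : T < 1 := by linarith
  have hg1 := gam_lo1 h0 h1
  rcases le_total T (2 / 5) with a0 | a0
  · have hg0 := gam_lo0 h0
    refine comb h0 hT1 hp0 he0 he1 (e1 := 1 / 5) (by norm_num) ?_ ?_ ?_
    · exact FA_mono h0 hT1 le_rfl (by norm_num) hp hB hg0 (pZ0 h0 a0)
    · exact FA_mono h0 hT1 (by norm_num) (by norm_num) hp hB hg0 (pA0 h0 a0)
    · rcases le_total 0 (16 - 123 * T ^ 2 + 25 * T ^ 4) with hs | hs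
      · exact FG_hi h0 hT1 (by norm_num) (by norm_num) hp hB (gam_hi h0) hs (pH0 h0 a0)
      · exact FG_lo h0 hT1 (by norm_num) (by norm_num) hp hB hg0 hs (pG0 h0 a0)
  have hs := cneg a0 hT1
  rcases le_total T (3 / 5) with a1 | a1
  · refine comb h0 hT1 hp0 he0 he1 (e1 := 7 / 25) (by norm_num) ?_ ?_ ?_
    · exact FA_mono h0 hT1 le_rfl (by norm_num) hp hB hg1 (pZ1 a0 a1)
    · exact FA_mono h0 hT1 (by norm_num) (by norm_num) hp hB hg1 (pA1 a0 a1)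
    · exact FG_lo h0 hT1 (by norm_num) (by norm_num) hp hB hg1 hs (pG1 a0 a1)
  rcases le_total T (7 / 10) with a2 | a2
  · refine comb h0 hT1 hp0 he0 he1 (e1 := 37 / 100) (by norm_num) ?_ ?_ ?_
    · exact FA_mono h0 hT1 le_rfl (by norm_num) hp hB hg1 (pZ2 a1 a2)
    · exact FA_mono h0 hT1 (by norm_num) (by norm_num) hp hB hg1 (pA2 a1 a2)
    · exact FG_lo h0 hT1 (by norm_num) (by norm_num) hp hB hg1 hs (pG2 a1 a2)
  rcases le_total T (4 / 5) with a3 | a3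
  · refine comb h0 hT1 hp0 he0 he1 (e1 := 11 / 25) (by norm_num) ?_ ?_ ?_
    · exact FA_mono h0 hT1 le_rfl (by norm_num) hp hB hg1 (pZ3 a2 a3)
    · exact FA_mono h0 hT1 (by norm_num) (by norm_num) hp hB hg1 (pA3 a2 a3)
    · exact FG_lo h0 hT1 (by norm_num) (by norm_num) hp hB hg1 hs (pG3 a2 a3)
  rcases le_total T (43 / 50) with a4 | a4
  · refine comb h0 hT1 hp0 he0 he1 (e1 := 1 / 2) (by norm_num) ?_ ?_ ?_
    · exact FA_mono h0 hT1 le_rfl (by norm_num) hp hB hg1 (pZ4 a3 a4)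
    · exact FA_mono h0 hT1 (by norm_num) (by norm_num) hp hB hg1 (pA4 a3 a4)
    · exact FG_lo h0 hT1 (by norm_num) (by norm_num) hp hB hg1 hs (pG4 a3 a4)
  · refine comb h0 hT1 hp0 he0 he1 (e1 := 27 / 50) (by norm_num) ?_ ?_ ?_
    · exact FA_mono h0 hT1 le_rfl (by norm_num) hp hB hg1 (pZ5 a4 h1)
    · exact FA_mono h0 hT1 (by norm_num) (by norm_num) hp hB hg1 (pA5 a4 h1)
    · exact FG_lo h0 hT1 (by norm_num) (by norm_num) hp hB hg1 hs (pG5 a4 h1)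

private theorem Qe_T {t : ℝ} (ht : 0 < t) :
    0 < Real.tanh t ∧ Real.tanh t < 1 ∧ Qe t = (1 - Real.tanh t) / (1 + Real.tanh t) ∧
      Real.tanh t = (1 - Qe t) / (1 + Qe t) := by
  have h0 : 0 < Qe t := Real.exp_pos _
  have h1 : Qe t < 1 := by
    unfold Qe
    rw [Real.exp_lt_one_iff]
    linarith
  have h3 : Real.exp (-t) = Real.exp t * Qe t := by
    unfold Qe
    rw [← Real.exp_add]
    congr 1
    ring
  have h4 := Real.exp_pos t
  have h5 : Real.tanh t = (1 - Qe t) / (1 + Qe t) := by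
    rw [Real.tanh_eq_sinh_div_cosh, Real.cosh_eq, Real.sinh_eq, h3]
    field_simp
  refine ⟨by rw [h5]; apply div_pos <;> linarith,
    by rw [h5, div_lt_one (by linarith)]; linarith, ?_, h5⟩
  rw [h5]
  have h2 : (1 : ℝ) + Qe t ≠ 0 := by linarith
  field_simp
  ring

private theorem T_le {t : ℝ} (ht : 0 < t) (ht1 : t ≤ 3 / 2) : Real.tanh t ≤ 453 / 500 := by
  obtain ⟨-, -, -, h5⟩ := Qe_T ht
  have h0 : 0 < Qe t := Real.exp_pos _
  have h1 : Real.exp (-3) ≤ Qe t := by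
    unfold Qe
    exact Real.exp_le_exp.2 (by linarith)
  have h2 : Real.exp (-3) = Real.exp (-1) ^ 3 := by
    rw [← Real.exp_nat_mul]
    norm_num
  have h3 : (3678 / 10000 : ℝ) ≤ Real.exp (-1) := by
    have := Real.exp_neg_one_gt_d9
    linarith
  have h4 : (3678 / 10000 : ℝ) ^ 3 ≤ Real.exp (-1) ^ 3 := pow_le_pow_left₀ (by norm_num) h3 3
  have h6 : (496 / 10000 : ℝ) ≤ (3678 / 10000 : ℝ) ^ 3 := by norm_num
  rw [h5, div_le_iff₀ (by linarith)]
  linarith [h2]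

private theorem cosh_T {t : ℝ} :
    Real.cosh (2 * t) = (1 + Real.tanh t ^ 2) / (1 - Real.tanh t ^ 2) := by
  have hc := Real.cosh_pos t
  have h1 : Real.cosh t ^ 2 - Real.sinh t ^ 2 = 1 := Real.cosh_sq_sub_sinh_sq t
  rw [Real.tanh_eq_sinh_div_cosh, Real.cosh_two_mul]
  have h2 : 1 - (Real.sinh t / Real.cosh t) ^ 2 = 1 / Real.cosh t ^ 2 := by
    field_simp
    linarith
  rw [h2]
  field_simp

private theorem sinh_T {t : ℝ} :
    Real.sinh (2 * t) = 2 * Real.tanh t / (1 - Real.tanh t ^ 2) := by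
  have hc := Real.cosh_pos t
  have h1 : Real.cosh t ^ 2 - Real.sinh t ^ 2 = 1 := Real.cosh_sq_sub_sinh_sq t
  rw [Real.tanh_eq_sinh_div_cosh, Real.sinh_two_mul]
  have h2 : 1 - (Real.sinh t / Real.cosh t) ^ 2 = 1 / Real.cosh t ^ 2 := by
    field_simp
    linarith
  rw [h2]
  field_simp

private theorem sin_T {v : ℝ} : Real.sin (2 * Real.arctan v) = 2 * v / (1 + v ^ 2) := by
  rw [Real.sin_two_mul, Real.sin_arctan, Real.cos_arctan]
  have h4 : √(1 + v ^ 2) * √(1 + v ^ 2) = 1 + v ^ 2 :=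
    Real.mul_self_sqrt (by positivity)
  rw [show 2 * (v / √(1 + v ^ 2)) * (1 / √(1 + v ^ 2)) =
    2 * v / (√(1 + v ^ 2) * √(1 + v ^ 2)) by ring, h4]

theorem numk {t ε : ℝ} (ht : 0 < t) (ht1 : t ≤ 3 / 2) (h0 : 0 ≤ ε) (h1 : ε ≤ 1) :
    0 ≤ 2 * π * (ε * (2 - ε) * Qe t * (1 - Qe t / 2)) - 4 * ε * Nn t (gk t) -
        Iw2 t (gk t) * (4 * ε ^ 2 * Qe t + 4 / 3 * (ε * (2 - ε)) * La t) ∨
      Gg t (gk t) ≤ 2 * π * (ε * (2 - ε) * Qe t * (1 - Qe t / 2)) := by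
  obtain ⟨hT0, hT1, hQ, -⟩ := Qe_T ht
  have hTm := T_le ht ht1
  have hBg : Bg t (gk t) = Real.arctan (5 / 4) := Bg_gk ht (by norm_num)
  have hDg : Dg t (gk t) = 82 * Real.tanh t ^ 2 /
      ((1 - Real.tanh t) * (1 + Real.tanh t) * (16 + 25 * Real.tanh t ^ 2)) := by
    unfold gk
    rw [Dg_gk ht (by norm_num)]
    have e1 : (0 : ℝ) < 1 - Real.tanh t := by linarith
    have e2 : (0 : ℝ) < 1 - Real.tanh t ^ 2 := by nlinarith
    have e3 : (1 : ℝ) - Real.tanh t ≠ 0 := e1.ne'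
    have e4 : (1 : ℝ) - Real.tanh t ^ 2 ≠ 0 := e2.ne'
    have e5 : (1 : ℝ) + (5 / 4) ^ 2 * Real.tanh t ^ 2 ≠ 0 := by positivity
    have e6 : (16 : ℝ) + 25 * Real.tanh t ^ 2 ≠ 0 := by positivity
    have e7 : (1 : ℝ) + Real.tanh t ≠ 0 := by positivity
    rw [div_eq_div_iff (by positivity) (by positivity)]
    ring
  have hsin : Real.sin (2 * gk t) = 40 * Real.tanh t / (16 + 25 * Real.tanh t ^ 2) := by
    unfold gk
    rw [sin_T]
    have e5 : (1 : ℝ) + (5 / 4 * Real.tanh t) ^ 2 ≠ 0 := by positivity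
    have e6 : (16 : ℝ) + 25 * Real.tanh t ^ 2 ≠ 0 := by positivity
    rw [div_eq_div_iff e5 e6]
    ring
  have hmain := main_num (e := ε) hT0 hTm h0 h1
  have hgk : Real.arctan (5 / 4 * Real.tanh t) = gk t := rfl
  rw [hgk] at hmain
  have hch := cosh_T (t := t)
  have hsh := sinh_T (t := t)
  set T := Real.tanh t with hT
  set g := gk t with hg
  set B := Real.arctan (5 / 4) with hBdef
  have n1 : (0 : ℝ) < 1 - T := by linarith
  have n2 : (1 : ℝ) - T ≠ 0 := n1.ne'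
  have n3 : (1 : ℝ) + T ≠ 0 := by positivity
  have n4 : (16 : ℝ) + 25 * T ^ 2 ≠ 0 := by positivity
  have n5 : (1 : ℝ) - T ^ 2 = (1 - T) * (1 + T) := by ring
  have hLa : La t = 1 / 6 * ((1 - T) ^ 2 * (1 + 2 * T) / (T * (1 + T) ^ 2)) := by
    unfold La
    rw [hQ]
    have e : 1 - (1 - T) / (1 + T) = 2 * T / (1 + T) := by
      field_simp
      ring
    rw [e]
    field_simp
    ring
  have hN : Nn t g = 2 * ((1 + T ^ 2) / ((1 - T) * (1 + T))) * B -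
      2 * g * (2 * (T / ((1 - T) * (1 + T)))) - 40 / 41 := by
    unfold Nn
    rw [hBg, hDg, hsin, hch, hsh, n5]
    field_simp
    ring
  have hI : Iw2 t g = 164 * B * (T / (16 + 25 * T ^ 2)) - 4 * g := by
    unfold Iw2
    rw [hBg, hDg, hsh, n5]
    field_simp
    ring
  have hG : Gg t g = 13448 * B * (T ^ 3 / ((1 - T) * (1 + T) * (16 + 25 * T ^ 2) ^ 2)) +
      g * (4 * (16 - 123 * T ^ 2 + 25 * T ^ 4) / ((1 - T) * (1 + T) * (16 + 25 * T ^ 2))) -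
      80 * (T / (16 + 25 * T ^ 2)) := by
    unfold Gg
    rw [hBg, hDg, hsin, hch, hsh, n5]
    field_simp
    ring
  have hR : 2 * π * (ε * (2 - ε) * Qe t * (1 - Qe t / 2)) =
      π * ε * (2 - ε) * ((1 - T) * (1 + 3 * T) / (1 + T) ^ 2) := by
    rw [hQ]
    field_simp
    ring
  rcases hmain with h | h
  · left
    have k : 2 * π * (ε * (2 - ε) * Qe t * (1 - Qe t / 2)) - 4 * ε * Nn t g -
        Iw2 t g * (4 * ε ^ 2 * Qe t + 4 / 3 * (ε * (2 - ε)) * La t) = ε * FA π B g T ε := by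
      rw [hR, hN, hI, hLa, hQ]
      unfold FA
      ring
    rw [k]
    exact mul_nonneg h0 h
  · right
    unfold FG at h
    rw [hR, hG]
    linarith

end Pool.Agent.H36.SZ
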