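import Pool.Agent.H36.SZ.LmN
import Pool.Agent.H36.SZ.IkL
import Pool.Agent.H36.SZ.Hi

/-!
# Levels up to `tan γ = (3/2) tanh t`, `0 < t <= 1/5`

PROOF of `lowm_real`: as `Sg.low_real` (`Lo.lean`). `x = 2 Dg t γ'`, `γ' <= gm t`. By `numm` one of
two cases. Second case: `Zf_sq`, `mass`, `int_WX3`. First case: `Zf_lin`, `mass`, `lin_ik` at `γ'`,
`Nn_mono`, `sup2`, `int_W3`: the sum is
`-2π ε (2-ε) Q (1 - Q/2) + 4 ε Nn + Iw2 (4 ε^2 Q + (4/3) ε (2-ε) La) <= 0`.
PROOF of `lowm`: `x <= 4 sinh^2 t`: `Sg.lo`; otherwise `ex_lev`, `Sg.of_real` with `ε = 1 - ‖b 1‖`.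
-/

open Complex MeasureTheory Set Filter Topology
open scoped ComplexConjugate Real

namespace Pool.Agent.H36.SZ

variable {F : ℂ → ℂ} {b : ℕ → ℂ} {q : ℝ}

private theorem lm_gm0 {t : ℝ} (ht : 0 < t) : 0 ≤ gm t := by
  unfold gm
  have h1 : 0 < Real.tanh t := by
    rw [Real.tanh_eq_sinh_div_cosh]
    exact div_pos (Real.sinh_pos_iff.2 ht) (Real.cosh_pos t)
  have h2 := Real.arctan_strictMono.monotone (show (0 : ℝ) ≤ 3 / 2 * Real.tanh t by positivity)
  rwa [Real.arctan_zero] at h2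

private theorem lm_gm1 (t : ℝ) : gm t ≤ π / 2 := (Real.arctan_lt_pi_div_two _).le

private theorem lm_Dg {t γ γ' : ℝ} (h0 : 0 ≤ γ') (h1 : γ' ≤ γ) (h2 : γ ≤ π / 2) :
    Dg t γ' ≤ Dg t γ := by
  unfold Dg
  have h3 := Real.cos_le_cos_of_nonneg_of_le_pi (show 0 ≤ 2 * γ' by linarith)
    (show 2 * γ ≤ π by linarith) (show 2 * γ' ≤ 2 * γ by linarith)
  linarith

private theorem lm_cJ (t : ℝ) : Continuous (yy J t) := by
  have e : yy J t = fun θ => 4 * Real.sinh t ^ 2 + 4 * Real.cos θ ^ 2 := funext (yy_J t)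
  rw [e]
  fun_prop

private theorem lm_J0 {t : ℝ} (ht : 0 < t) (θ : ℝ) : 0 < yy J t θ := by
  have h1 := le_yy_J t θ
  have h2 : 0 < Real.sinh t := Real.sinh_pos_iff.2 ht
  have h3 : 0 < 4 * Real.sinh t ^ 2 := by positivity
  linarith

private theorem lm_cW {t : ℝ} (ht : 0 < t) (x : ℝ) :
    Continuous fun θ => max 0 (x / yy J t θ - 1) :=
  continuous_const.max
    ((continuous_const.div (lm_cJ t) fun θ => (lm_J0 ht θ).ne').sub continuous_const)

private theorem lm_GJ (t : ℝ) : Continuous (G J t) := by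
  have e : G J t = fun θ : ℝ => (2 * Real.cosh t * Real.cos θ + 2 * Real.sinh t * Real.sin θ * I :
    ℂ) := funext (G_J t)
  rw [e]
  fun_prop

theorem Sg.lowm_real (h : Sg F b q) {ε : ℝ} (h0 : 0 ≤ ε) (h1 : ε ≤ 1)
    (hb : b 1 = ((1 - ε : ℝ) : ℂ)) {t γ' : ℝ} (ht : 0 < t) (ht1 : t ≤ 1 / 5) (hg : 0 ≤ γ')
    (hg1 : γ' ≤ gm t) :
    Zf F t (2 * Dg t γ') ≤ Zf J t (2 * Dg t γ') := by
  have hpi : (-π : ℝ) ≤ π := by linarith [Real.pi_pos]
  have hm := h.mass hb ht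
  have hx : 0 < 2 * Dg t γ' := by
    have := Dg_pos ht γ'
    linarith
  have hle : 2 * Dg t γ' ≤ 2 * Dg t (gm t) := by
    have := lm_Dg (t := t) hg hg1 (lm_gm1 t)
    linarith
  have hγ2 : γ' ≤ π / 2 := hg1.trans (lm_gm1 t)
  rcases numm ht ht1 h0 h1 with hn | hn
  · have hqt : q < Real.exp t := lt_of_lt_of_le h.q1 (Real.one_le_exp ht.le)
    have cF : Continuous (G F t) := h.an.cGt hqt
    have cJ := lm_GJ t
    have cW := lm_cW ht (2 * Dg t γ')
    have hl := h.Zf_lin ht hx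
    have h2 := h.lin_ik ht hg hγ2
    have h3 : ∀ θ, yy F t θ - yy J t θ = 2 * (conj (G J t θ) * (G F t θ - G J t θ)).re +
        ‖G F t θ - G J t θ‖ ^ 2 := by
      intro θ
      unfold yy
      rw [← Complex.normSq_eq_norm_sq, ← Complex.normSq_eq_norm_sq, ← Complex.normSq_eq_norm_sq,
        Complex.normSq_apply, Complex.normSq_apply, Complex.normSq_apply]
      simp only [Complex.mul_re, Complex.conj_re, Complex.conj_im, Complex.sub_re, Complex.sub_im]
      ring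
    have c1 : Continuous fun θ => (conj (G J t θ) * (G F t θ - G J t θ)).re :=
      Complex.continuous_re.comp ((Complex.continuous_conj.comp cJ).mul (cF.sub cJ))
    have c2 : Continuous fun θ => ‖G F t θ - G J t θ‖ ^ 2 := (cF.sub cJ).norm.pow 2
    have h4 : ∫ θ in (-π)..π, max 0 (2 * Dg t γ' / yy J t θ - 1) * (yy F t θ - yy J t θ) =
        (∫ θ in (-π)..π, max 0 (2 * Dg t γ' / yy J t θ - 1) *
          (2 * (conj (G J t θ) * (G F t θ - G J t θ)).re)) +
        ∫ θ in (-π)..π, max 0 (2 * Dg t γ' / yy J t θ - 1) * ‖G F t θ - G J t θ‖ ^ 2 := by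
      have a1 : IntervalIntegrable (fun θ => max 0 (2 * Dg t γ' / yy J t θ - 1) *
          (2 * (conj (G J t θ) * (G F t θ - G J t θ)).re)) volume (-π) π :=
        (cW.mul (continuous_const.mul c1)).intervalIntegrable _ _
      have a2 : IntervalIntegrable (fun θ => max 0 (2 * Dg t γ' / yy J t θ - 1) *
          ‖G F t θ - G J t θ‖ ^ 2) volume (-π) π := (cW.mul c2).intervalIntegrable _ _
      rw [← intervalIntegral.integral_add a1 a2]
      refine intervalIntegral.integral_congr fun θ _ => ?_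
      rw [h3, mul_add]
    set K : ℝ := 4 * ε ^ 2 * Qe t + 4 / 3 * (ε * (2 - ε)) * Lb t with hK
    have hK0 : 0 ≤ K := le_trans (sq_nonneg _) (h.sup2 h0 h1 hb ht 0)
    have h5 : ∫ θ in (-π)..π, max 0 (2 * Dg t γ' / yy J t θ - 1) * ‖G F t θ - G J t θ‖ ^ 2 ≤
        Iw2 t (gm t) * K := by
      have h6 : ∫ θ in (-π)..π, max 0 (2 * Dg t γ' / yy J t θ - 1) * ‖G F t θ - G J t θ‖ ^ 2 ≤
          ∫ θ in (-π)..π, max 0 (2 * Dg t γ' / yy J t θ - 1) * K := by
        refine intervalIntegral.integral_mono_on hpi ((cW.mul c2).intervalIntegrable _ _)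
          ((cW.mul continuous_const).intervalIntegrable _ _) fun θ _ => ?_
        exact mul_le_mul_of_nonneg_left (h.sup2 h0 h1 hb ht θ) (le_max_left _ _)
      rw [intervalIntegral.integral_mul_const] at h6
      exact h6.trans (mul_le_mul_of_nonneg_right (int_W3 ht (lm_gm0 ht) (lm_gm1 t) hle) hK0)
    have h7 : (b 1).re = 1 - ε := by rw [hb, Complex.ofReal_re]
    rw [h7] at h2
    rw [h4] at hl
    have h8 : 4 * (1 - (1 - ε)) * Nn t γ' ≤ 4 * ε * Nn t (gm t) := by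
      have h9 : 4 * (1 - (1 - ε)) = 4 * ε := by ring
      rw [h9]
      exact mul_le_mul_of_nonneg_left (Nn_mono ht hg1) (by linarith)
    linarith
  · have h2 := h.Zf_sq ht hx
    have h3 := int_WX3 ht (lm_gm0 ht) (lm_gm1 t) hle
    linarith

/-- **LOW(3/2) for small t** -/
theorem Sg.lowm (h : Sg F b q) {t x : ℝ} (ht : 0 < t) (ht1 : t ≤ 1 / 5) (hx : 0 ≤ x)
    (hd : x ≤ 2 * Dg t (gm t)) :
    Zf F t x ≤ Zf J t x := by
  rcases le_or_gt x (4 * Real.sinh t ^ 2) with h1 | h1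
  · exact h.lo ht.le hx h1
  · obtain ⟨γ', hg, hg1, rfl⟩ := ex_lev ht (lm_gm0 ht) (lm_gm1 t) h1.le hd
    refine h.of_real fun F' b' h' hb' => ?_
    refine h'.lowm_real (ε := 1 - ‖b 1‖) (by linarith [h.b1]) (by linarith [norm_nonneg (b 1)])
      ?_ ht ht1 hg hg1
    rw [hb']
    congr 1
    ring

end Pool.Agent.H36.SZ
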