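import Pool.Agent.H36.SZ.LoA

/-!
# The bound of `|G F - G J|^2` with a better constant (for small `t`)

As `Sg.sup` (`LoA.lean`) with `sum_(n>=2) q^n / n <= q^2/2 + q^3/3 + q^4/4 + q^5/5 + q^6/(6(1-q))`.
-/

open Complex MeasureTheory Set Filter Topology
open scoped ComplexConjugate Real

namespace Pool.Agent.H36.SZ

variable {F : ℂ → ℂ} {b : ℕ → ℂ} {q : ℝ}

noncomputable def Lb (t : ℝ) : ℝ :=
  Qe t ^ 2 / 2 + Qe t ^ 3 / 3 + Qe t ^ 4 / 4 + Qe t ^ 5 / 5 + Qe t ^ 6 / (6 * (1 - Qe t))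

private theorem Qe_pos (t : ℝ) : 0 < Qe t := Real.exp_pos _

private theorem Qe_lt {t : ℝ} (ht : 0 < t) : Qe t < 1 := by
  unfold Qe
  rw [Real.exp_lt_one_iff]
  linarith

private theorem Qe_sq (t : ℝ) : Real.exp (-t) ^ 2 = Qe t := by
  unfold Qe
  rw [← Real.exp_nat_mul]
  congr 1
  push_cast
  ring

private theorem lma_sum_le {t : ℝ} (ht : 0 < t) (M : ℕ) :
    ∑ n ∈ Finset.range M, Qe t ^ (n + 2) / ((n : ℝ) + 2) ≤ Lb t := by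
  have hQ0 := Qe_pos t
  have hQ1 := Qe_lt ht
  have h1Q : 0 < 1 - Qe t := by linarith
  have hmono : ∑ n ∈ Finset.range M, Qe t ^ (n + 2) / ((n : ℝ) + 2) ≤
      ∑ n ∈ Finset.range (M + 4), Qe t ^ (n + 2) / ((n : ℝ) + 2) := by
    apply Finset.sum_le_sum_of_subset_of_nonneg
    · intro a ha
      simp only [Finset.mem_range] at ha ⊢
      omega
    · intro a _ _
      positivity
  refine hmono.trans ?_
  rw [show M + 4 = (((M + 1) + 1) + 1) + 1 from rfl, Finset.sum_range_succ',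
    Finset.sum_range_succ', Finset.sum_range_succ', Finset.sum_range_succ']
  have e1 : ∑ n ∈ Finset.range M, Qe t ^ (n + 1 + 1 + 1 + 1 + 2) /
      (((n + 1 + 1 + 1 + 1 : ℕ) : ℝ) + 2) ≤
      ∑ n ∈ Finset.range M, Qe t ^ 6 / 6 * Qe t ^ n := by
    refine Finset.sum_le_sum fun n _ => ?_
    have f1 : Qe t ^ (n + 1 + 1 + 1 + 1 + 2) = Qe t ^ 6 * Qe t ^ n := by ring
    rw [f1, div_mul_eq_mul_div]
    apply div_le_div_of_nonneg_left (by positivity) (by norm_num)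
    push_cast
    have : (0:ℝ) ≤ (n : ℝ) := Nat.cast_nonneg n
    linarith
  have e2 : ∑ n ∈ Finset.range M, Qe t ^ n ≤ 1 / (1 - Qe t) := by
    rw [le_div_iff₀ h1Q]
    have := geom_sum_mul (Qe t) M
    have f2 : 0 < Qe t ^ M := by positivity
    linarith
  rw [← Finset.mul_sum] at e1
  have e3 := mul_le_mul_of_nonneg_left e2 (by positivity : (0:ℝ) ≤ Qe t ^ 6 / 6)
  have e4 : Qe t ^ 6 / 6 * (1 / (1 - Qe t)) = Qe t ^ 6 / (6 * (1 - Qe t)) := by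
    field_simp
  unfold Lb
  have e5 : Qe t ^ (0 + 2) / (((0 : ℕ) : ℝ) + 2) = Qe t ^ 2 / 2 := by norm_num
  have e6 : Qe t ^ (0 + 1 + 2) / (((0 + 1 : ℕ) : ℝ) + 2) = Qe t ^ 3 / 3 := by norm_num
  have e7 : Qe t ^ (0 + 1 + 1 + 2) / (((0 + 1 + 1 : ℕ) : ℝ) + 2) = Qe t ^ 4 / 4 := by norm_num
  have e8 : Qe t ^ (0 + 1 + 1 + 1 + 2) / (((0 + 1 + 1 + 1 : ℕ) : ℝ) + 2) = Qe t ^ 5 / 5 := by
    norm_num
  rw [e5, e6, e7, e8]
  linarith

theorem Sg.sup2 (h : Sg F b q) {ε : ℝ} (h0 : 0 ≤ ε) (h1 : ε ≤ 1) (hb : b 1 = ((1 - ε : ℝ) : ℂ))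
    {t : ℝ} (ht : 0 < t) (θ : ℝ) :
    ‖G F t θ - G J t θ‖ ^ 2 ≤ 4 * ε ^ 2 * Qe t + 4 / 3 * (ε * (2 - ε)) * Lb t := by
  have hQ0 := Qe_pos t
  have hQ1 := Qe_lt ht
  set z : ℂ := exp (t + θ * I) with hz
  have hnz : ‖z‖ = Real.exp t := by
    rw [hz, Complex.norm_exp]; simp
  have hq : q < ‖z‖ := by
    rw [hnz]
    have := Real.add_one_le_exp t
    have := h.q1
    linarith
  have hnz' : ‖z⁻¹‖ = Real.exp (-t) := by rw [norm_inv, hnz, Real.exp_neg]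
  have hs := (h.hasSum z hq).tendsto_sum_nat
  have hG : G F t θ - G J t θ = (F z - z) - z⁻¹ := by
    unfold G J
    rw [← hz]
    ring
  rw [hG]
  have hs2 : Tendsto (fun N => ‖∑ n ∈ Finset.range N, b n * z⁻¹ ^ n - z⁻¹‖ ^ 2) atTop
      (𝓝 (‖(F z - z) - z⁻¹‖ ^ 2)) := ((hs.sub_const _).norm).pow 2
  refine le_of_tendsto hs2 ?_
  filter_upwards [eventually_ge_atTop 2] with N hN
  obtain ⟨M, rfl⟩ : ∃ M, N = M + 2 := ⟨N - 2, by omega⟩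
  rw [Finset.sum_range_succ', Finset.sum_range_succ', h.b0]
  set S : ℂ := ∑ n ∈ Finset.range M, b (n + 1 + 1) * z⁻¹ ^ (n + 1 + 1) with hS
  have e1 : S + b (0 + 1) * z⁻¹ ^ (0 + 1) + 0 * z⁻¹ ^ 0 - z⁻¹ = S + (((-ε : ℝ) : ℂ)) * z⁻¹ := by
    rw [show (0 + 1 : ℕ) = 1 from rfl, hb]
    push_cast
    ring
  rw [e1]
  have e2 : ‖(((-ε : ℝ) : ℂ)) * z⁻¹‖ = ε * Real.exp (-t) := by
    rw [norm_mul, hnz', norm_real, Real.norm_eq_abs, abs_neg, abs_of_nonneg h0]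
  have e3 : ‖S‖ ≤ ∑ n ∈ Finset.range M, ‖b (n + 2)‖ * Real.exp (-t) ^ (n + 2) := by
    rw [hS]
    refine (norm_sum_le _ _).trans (le_of_eq ?_)
    refine Finset.sum_congr rfl fun n _ => ?_
    rw [norm_mul, norm_pow, hnz']
  have e4 : (∑ n ∈ Finset.range M, ‖b (n + 2)‖ * Real.exp (-t) ^ (n + 2)) ^ 2 ≤
      (∑ n ∈ Finset.range M, ((n : ℝ) + 2) * ‖b (n + 2)‖ ^ 2) *
        (∑ n ∈ Finset.range M, Qe t ^ (n + 2) / ((n : ℝ) + 2)) := by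
    apply Finset.sum_sq_le_sum_mul_sum_of_sq_eq_mul
    · intro n _; positivity
    · intro n _; positivity
    · intro n _
      have f1 : ((n : ℝ) + 2) ≠ 0 := by positivity
      rw [mul_pow, ← pow_mul, mul_comm (n + 2) 2, pow_mul, Qe_sq]
      field_simp
  have hA := h.area2 hb M
  have hL := lma_sum_le ht M
  have hL0 : 0 ≤ Lb t := by
    have := lma_sum_le ht 0
    rwa [Finset.sum_range_zero] at this
  have hee : 0 ≤ ε * (2 - ε) := mul_nonneg h0 (by linarith)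
  have e5 : ‖S‖ ^ 2 ≤ ε * (2 - ε) * Lb t := by
    refine (pow_le_pow_left₀ (norm_nonneg _) e3 2).trans (e4.trans ?_)
    exact mul_le_mul hA hL (Finset.sum_nonneg fun n _ => by positivity) hee
  have e6 : ‖S + (((-ε : ℝ) : ℂ)) * z⁻¹‖ ≤ ‖S‖ + ε * Real.exp (-t) := by
    refine (norm_add_le _ _).trans ?_
    rw [e2]
  have e7 : ‖S + (((-ε : ℝ) : ℂ)) * z⁻¹‖ ^ 2 ≤ (‖S‖ + ε * Real.exp (-t)) ^ 2 :=
    pow_le_pow_left₀ (norm_nonneg _) e6 2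
  have e8 : (ε * Real.exp (-t)) ^ 2 = ε ^ 2 * Qe t := by rw [mul_pow, Qe_sq]
  have e9 : (‖S‖ + ε * Real.exp (-t)) ^ 2 ≤
      4 * (ε * Real.exp (-t)) ^ 2 + 4 / 3 * ‖S‖ ^ 2 := by
    nlinarith [sq_nonneg (‖S‖ - 3 * (ε * Real.exp (-t)))]
  rw [e8] at e9
  linarith

end Pool.Agent.H36.SZ
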