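import Pool.Agent.H36.SZ.LkM
import Pool.Agent.H36.SZ.LmA

/-!
# The level `tan γ = (3/2) tanh t`, `t <= 1/5`: numerical inequality

`T = tanh t ∈ (0, 0.1974)`, `q = Qe t = (1-T)/(1+T)`, `K = (1+T^2)/(1-T^2)`, `Sh = 2T/(1-T^2)`,
`γ = arctan (3T/2)`, `B = Bg t γ = arctan (3/2)` (`Bg_gk`), by `Dg_gk`
`N = Nn t γ = 2 K B - 2 γ Sh - 12/13`, `I = Iw2 t γ = 4 D B / Sh - 4 γ`, `D = Dg t γ`
`= 13 T^2 / (2 (1-T^2) (1 + 9 T^2/4))`, `G = Gg t γ`, all explicit functions of `T` and `γ`.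
As in `LkN.lean`; only `La` is replaced by the sharper `Lb` and `5/4` by `3/2`. It is enough to check
`A(ε) = 2π (2-ε) q (1-q/2) - 4 N - I (4 ε q + (4/3)(2-ε) Lb) >= 0` at `ε = 0` and `ε = 7/200`
(affine in `ε`), and the second at `ε = 7/200` (its right side increases in `ε`).
NUMERICS: `A(0)`: .491 (t = .02), .344 (.06), .283 (.1), .281 (.14), .317 (.18), .343 (.2);
minimum `.2758` at `t = .12`; `A(7/200)`: .391, .215, .131, .113, .137, .16 (same `t`), minimum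
`.112` at `.13`; the second holds for `ε` from `.0289` on at `t = .2`, from `.0216` at `.18`, from
`.004` at `.1`.
-/

open Complex MeasureTheory Set Filter Topology
open scoped ComplexConjugate Real

namespace Pool.Agent.H36.SZ

noncomputable def gm (t : ℝ) : ℝ := Real.arctan (3 / 2 * Real.tanh t)

private noncomputable def FM (p B g T e : ℝ) : ℝ :=
  p * (2 - e) * ((1 - T) * (1 + 3 * T) / (1 + T) ^ 2) -
    8 * B * ((1 + T ^ 2) / ((1 - T) * (1 + T))) +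
    16 * g * (T / ((1 - T) * (1 + T))) + 48 / 13 -
    (52 * B * (T / (4 + 9 * T ^ 2)) - 4 * g) *
      (4 * e * ((1 - T) / (1 + T)) +
        1 / 45 * (2 - e) * ((30 * T * (1 - T) ^ 2 * (1 + T) ^ 3 + 20 * T * (1 - T) ^ 3 * (1 + T) ^ 2 +
          15 * T * (1 - T) ^ 4 * (1 + T) + 12 * T * (1 - T) ^ 5 + 5 * (1 - T) ^ 6) /
          (T * (1 + T) ^ 5)))

private noncomputable def FN (p B g T e : ℝ) : ℝ :=
  p * e * (2 - e) * ((1 - T) * (1 + 3 * T) / (1 + T) ^ 2) -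
    (1352 * B * (T ^ 3 / ((1 - T) * (1 + T) * (4 + 9 * T ^ 2) ^ 2)) +
      g * (4 * (4 - 39 * T ^ 2 + 9 * T ^ 4) / ((1 - T) * (1 + T) * (4 + 9 * T ^ 2))) -
      24 * (T / (4 + 9 * T ^ 2)))

private theorem pZ {T : ℝ} (h0 : 0 < T) (h1 : T ≤ 1 / 5) :
    0 ≤ FM (6283 / 2000) (2457 / 2500) (T * (3 / 2 - 9 / 8 * T ^ 2)) T (0) := by
  have h3 : 0 < 1 - T := by linarith
  have h5 : 0 ≤ 1 / 5 - T := by linarith
  have h6 : FM (6283 / 2000) (2457 / 2500) (T * (3 / 2 - 9 / 8 * T ^ 2)) T (0) = (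
      9247890625 / 78 * (1 / 5 - T) ^ 11 + 88937084375 / 78 * T ^ 1 * (1 / 5 - T) ^ 10 +
      1573258398125 / 312 * T ^ 2 * (1 / 5 - T) ^ 9 +
      1422585396875 / 104 * T ^ 3 * (1 / 5 - T) ^ 8 +
      2661578270375 / 104 * T ^ 4 * (1 / 5 - T) ^ 7 +
      10930916902675 / 312 * T ^ 5 * (1 / 5 - T) ^ 6 +
      5614192452331 / 156 * T ^ 6 * (1 / 5 - T) ^ 5 +
      829958124389 / 30 * T ^ 7 * (1 / 5 - T) ^ 4 + 602728833323 / 39 * T ^ 8 * (1 / 5 - T) ^ 3 +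
      383669804408 / 65 * T ^ 9 * (1 / 5 - T) ^ 2 + 89110257584 / 65 * T ^ 10 * (1 / 5 - T) ^ 1 +
      5666075488 / 39 * T ^ 11) /
      ((1 - T) * (1 + T) ^ 5 * (4 + 9 * T ^ 2)) := by
    have n1 : (1 : ℝ) - T ≠ 0 := h3.ne'
    unfold FM
    field_simp
    ring
  rw [h6]
  positivity

private theorem pA {T : ℝ} (h0 : 0 < T) (h1 : T ≤ 1 / 5) :
    0 ≤ FM (6283 / 2000) (2457 / 2500) (T * (3 / 2 - 9 / 8 * T ^ 2)) T (7 / 200) := by
  have h3 : 0 < 1 - T := by linarith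
  have h5 : 0 ≤ 1 / 5 - T := by linarith
  have h6 : FM (6283 / 2000) (2457 / 2500) (T * (3 / 2 - 9 / 8 * T ^ 2)) T (7 / 200) = (
      42529596875 / 416 * (1 / 5 - T) ^ 11 + 380647682125 / 416 * T ^ 1 * (1 / 5 - T) ^ 10 +
      6103363872175 / 1664 * T ^ 2 * (1 / 5 - T) ^ 9 +
      14559496476075 / 1664 * T ^ 3 * (1 / 5 - T) ^ 8 +
      23316586306215 / 1664 * T ^ 4 * (1 / 5 - T) ^ 7 +
      27074365657745 / 1664 * T ^ 5 * (1 / 5 - T) ^ 6 +
      302550690135881 / 20800 * T ^ 6 * (1 / 5 - T) ^ 5 +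
      41440705480219 / 4000 * T ^ 7 * (1 / 5 - T) ^ 4 +
      150218776233509 / 26000 * T ^ 8 * (1 / 5 - T) ^ 3 +
      7567339045317 / 3250 * T ^ 9 * (1 / 5 - T) ^ 2 +
      951561135489 / 1625 * T ^ 10 * (1 / 5 - T) ^ 1 + 109629070984 / 1625 * T ^ 11) /
      ((1 - T) * (1 + T) ^ 5 * (4 + 9 * T ^ 2)) := by
    have n1 : (1 : ℝ) - T ≠ 0 := h3.ne'
    unfold FM
    field_simp
    ring
  rw [h6]
  positivity

private theorem pG {T : ℝ} (h0 : 0 < T) (h1 : T ≤ 1 / 5) :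
    0 ≤ FN (6283 / 2000) (2457 / 2500) (T * (3 / 2 - 9 / 8 * T ^ 2 + 243 / 160 * T ^ 4)) T (7 / 200) := by
  have h3 : 0 < 1 - T := by linarith
  have h5 : 0 ≤ 1 / 5 - T := by linarith
  have h6 : FN (6283 / 2000) (2457 / 2500) (T * (3 / 2 - 9 / 8 * T ^ 2 + 243 / 160 * T ^ 4)) T (7 / 200) = (
      54014165625 / 64 * (1 / 5 - T) ^ 12 + 658972820625 / 64 * T ^ 1 * (1 / 5 - T) ^ 11 +
      7365371624625 / 128 * T ^ 2 * (1 / 5 - T) ^ 10 +
      24835234152375 / 128 * T ^ 3 * (1 / 5 - T) ^ 9 +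
      448308318642465 / 1024 * T ^ 4 * (1 / 5 - T) ^ 8 +
      709854964302021 / 1024 * T ^ 5 * (1 / 5 - T) ^ 7 +
      402200851681977 / 512 * T ^ 6 * (1 / 5 - T) ^ 6 +
      8159147622687297 / 12800 * T ^ 7 * (1 / 5 - T) ^ 5 +
      1863250949538969 / 5120 * T ^ 8 * (1 / 5 - T) ^ 4 +
      717900697808613 / 5120 * T ^ 9 * (1 / 5 - T) ^ 3 +
      5363123104899 / 160 * T ^ 10 * (1 / 5 - T) ^ 2 +
      1320518335209 / 320 * T ^ 11 * (1 / 5 - T) ^ 1 + 28634914833 / 200 * T ^ 12) /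
      ((1 - T) * (1 + T) ^ 2 * (4 + 9 * T ^ 2) ^ 2) := by
    have n1 : (1 : ℝ) - T ≠ 0 := h3.ne'
    unfold FN
    field_simp
    ring
  rw [h6]
  positivity

private theorem FM_mono {p B g g' T e : ℝ} (h0 : 0 < T) (h1 : T < 1) (he0 : 0 ≤ e)
    (he1 : e ≤ 1) (hp : 6283 / 2000 ≤ p) (hB : B ≤ 2457 / 2500) (hg : g' ≤ g)
    (h : 0 ≤ FM (6283 / 2000) (2457 / 2500) g' T e) : 0 ≤ FM p B g T e := by
  have h3 : 0 < 1 - T := by linarith
  have h2e : 0 ≤ 2 - e := by linarith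
  have ha : 0 ≤ (1 - T) * (1 + 3 * T) / (1 + T) ^ 2 := by positivity
  have hb : 0 ≤ (1 + T ^ 2) / ((1 - T) * (1 + T)) := by positivity
  have hc : 0 ≤ T / ((1 - T) * (1 + T)) := by positivity
  have hd : 0 ≤ T / (4 + 9 * T ^ 2) := by positivity
  have hf : 0 ≤ 4 * e * ((1 - T) / (1 + T)) +
        1 / 45 * (2 - e) * ((30 * T * (1 - T) ^ 2 * (1 + T) ^ 3 + 20 * T * (1 - T) ^ 3 * (1 + T) ^ 2 +
          15 * T * (1 - T) ^ 4 * (1 + T) + 12 * T * (1 - T) ^ 5 + 5 * (1 - T) ^ 6) /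
          (T * (1 + T) ^ 5)) := by positivity
  unfold FM at h ⊢
  set a := (1 - T) * (1 + 3 * T) / (1 + T) ^ 2
  set b := (1 + T ^ 2) / ((1 - T) * (1 + T))
  set c := T / ((1 - T) * (1 + T))
  set d := T / (4 + 9 * T ^ 2)
  set f := 4 * e * ((1 - T) / (1 + T)) +
        1 / 45 * (2 - e) * ((30 * T * (1 - T) ^ 2 * (1 + T) ^ 3 + 20 * T * (1 - T) ^ 3 * (1 + T) ^ 2 +
          15 * T * (1 - T) ^ 4 * (1 + T) + 12 * T * (1 - T) ^ 5 + 5 * (1 - T) ^ 6) /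
          (T * (1 + T) ^ 5))
  have k1 := mul_nonneg (mul_nonneg (sub_nonneg.2 hp) h2e) ha
  have k2 := mul_nonneg (sub_nonneg.2 hB) hb
  have k3 := mul_nonneg (sub_nonneg.2 hg) hc
  have k4 := mul_nonneg (mul_nonneg (sub_nonneg.2 hB) hd) hf
  have k5 := mul_nonneg (sub_nonneg.2 hg) hf
  have k6 : p * (2 - e) * a - 8 * B * b + 16 * g * c + 48 / 13 - (52 * B * d - 4 * g) * f =
      (6283 / 2000 * (2 - e) * a - 8 * (2457 / 2500) * b + 16 * g' * c + 48 / 13 -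
        (52 * (2457 / 2500) * d - 4 * g') * f) + (p - 6283 / 2000) * (2 - e) * a +
      8 * ((2457 / 2500 - B) * b) + 16 * ((g - g') * c) +
      52 * ((2457 / 2500 - B) * d * f) + 4 * ((g - g') * f) := by ring
  rw [k6]
  linarith

private theorem FM_affine {p B g T e e1 : ℝ} (h0 : 0 ≤ e) (h1 : e ≤ e1) (h2 : 0 < e1)
    (hz : 0 ≤ FM p B g T 0) (h : 0 ≤ FM p B g T e1) : 0 ≤ FM p B g T e := by
  have k : FM p B g T e = ((e1 - e) * FM p B g T 0 + e * FM p B g T e1) / e1 := by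
    unfold FM
    field_simp
    ring
  rw [k]
  have : 0 ≤ e1 - e := by linarith
  positivity

private theorem FN_hi {p B g g' T e : ℝ} (h0 : 0 < T) (h1 : T < 1) (he0 : 0 ≤ e)
    (he1 : e ≤ 1) (hp : 6283 / 2000 ≤ p) (hB : B ≤ 2457 / 2500) (hg : g ≤ g')
    (hs : 0 ≤ 4 - 39 * T ^ 2 + 9 * T ^ 4)
    (h : 0 ≤ FN (6283 / 2000) (2457 / 2500) g' T e) : 0 ≤ FN p B g T e := by
  have h3 : 0 < 1 - T := by linarith
  have h2e : 0 ≤ 2 - e := by linarith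
  have ha : 0 ≤ (1 - T) * (1 + 3 * T) / (1 + T) ^ 2 := by positivity
  have hb : 0 ≤ T ^ 3 / ((1 - T) * (1 + T) * (4 + 9 * T ^ 2) ^ 2) := by positivity
  have hc : 0 ≤ 4 * (4 - 39 * T ^ 2 + 9 * T ^ 4) /
      ((1 - T) * (1 + T) * (4 + 9 * T ^ 2)) := by positivity
  unfold FN at h ⊢
  set a := (1 - T) * (1 + 3 * T) / (1 + T) ^ 2
  set b := T ^ 3 / ((1 - T) * (1 + T) * (4 + 9 * T ^ 2) ^ 2)
  set c := 4 * (4 - 39 * T ^ 2 + 9 * T ^ 4) / ((1 - T) * (1 + T) * (4 + 9 * T ^ 2))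
  have k1 := mul_nonneg (mul_nonneg (mul_nonneg (sub_nonneg.2 hp) he0) h2e) ha
  have k2 := mul_nonneg (sub_nonneg.2 hB) hb
  have k3 := mul_nonneg (sub_nonneg.2 hg) hc
  nlinarith [k1, k2, k3]

private theorem FN_inc {p B g T e e1 : ℝ} (h0 : 0 < T) (h1 : T < 1) (hp : 0 ≤ p)
    (he : e1 ≤ e) (he1 : e ≤ 1) (h : 0 ≤ FN p B g T e1) : 0 ≤ FN p B g T e := by
  have h3 : 0 < 1 - T := by linarith
  have ha : 0 ≤ (1 - T) * (1 + 3 * T) / (1 + T) ^ 2 := by positivity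
  have k : FN p B g T e = FN p B g T e1 +
      (e - e1) * (2 - e - e1) * (p * ((1 - T) * (1 + 3 * T) / (1 + T) ^ 2)) := by
    unfold FN
    ring
  rw [k]
  have k1 : 0 ≤ e - e1 := by linarith
  have k2 : 0 ≤ 2 - e - e1 := by linarith
  positivity

private theorem atan_lo {x : ℝ} (hx : 0 ≤ x) : x - x ^ 3 / 3 ≤ Real.arctan x := by
  have hd : ∀ y : ℝ, HasDerivAt (fun y : ℝ => Real.arctan y - (y - y ^ 3 / 3))
      (1 / (1 + y ^ 2) - (1 - 3 * y ^ 2 / 3)) y := by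
    intro y
    have h3 : HasDerivAt (fun y : ℝ => y ^ 3) (3 * y ^ 2) y := by
      simpa using hasDerivAt_pow 3 y
    exact (Real.hasDerivAt_arctan y).sub ((hasDerivAt_id' y).sub (h3.div_const 3))
  have hm : MonotoneOn (fun y : ℝ => Real.arctan y - (y - y ^ 3 / 3)) (Ici 0) := by
    refine monotoneOn_of_deriv_nonneg (convex_Ici 0)
      (fun y _ => (hd y).continuousAt.continuousWithinAt)
      (fun y _ => (hd y).differentiableAt.differentiableWithinAt) ?_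
    intro y hy
    rw [(hd y).deriv]
    have e : 1 / (1 + y ^ 2) - (1 - 3 * y ^ 2 / 3) = y ^ 4 / (1 + y ^ 2) := by
      field_simp
      ring
    rw [e]
    positivity
  have := hm (mem_Ici.2 le_rfl) (show x ∈ Ici (0 : ℝ) from hx) hx
  simp only [Real.arctan_zero] at this
  linarith

private theorem atan_hi {x : ℝ} (hx : 0 ≤ x) :
    Real.arctan x ≤ x - x ^ 3 / 3 + x ^ 5 / 5 := by
  have hd : ∀ y : ℝ, HasDerivAt (fun y : ℝ => (y - y ^ 3 / 3 + y ^ 5 / 5) - Real.arctan y)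
      ((1 - 3 * y ^ 2 / 3 + 5 * y ^ 4 / 5) - 1 / (1 + y ^ 2)) y := by
    intro y
    have h3 : HasDerivAt (fun y : ℝ => y ^ 3) (3 * y ^ 2) y := by
      simpa using hasDerivAt_pow 3 y
    have h5 : HasDerivAt (fun y : ℝ => y ^ 5) (5 * y ^ 4) y := by
      simpa using hasDerivAt_pow 5 y
    exact (((hasDerivAt_id' y).sub (h3.div_const 3)).add (h5.div_const 5)).sub
      (Real.hasDerivAt_arctan y)
  have hm : MonotoneOn (fun y : ℝ => (y - y ^ 3 / 3 + y ^ 5 / 5) - Real.arctan y) (Ici 0) := by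
    refine monotoneOn_of_deriv_nonneg (convex_Ici 0)
      (fun y _ => (hd y).continuousAt.continuousWithinAt)
      (fun y _ => (hd y).differentiableAt.differentiableWithinAt) ?_
    intro y hy
    rw [(hd y).deriv]
    have e : (1 - 3 * y ^ 2 / 3 + 5 * y ^ 4 / 5) - 1 / (1 + y ^ 2) = y ^ 6 / (1 + y ^ 2) := by
      field_simp
      ring
    rw [e]
    positivity
  have := hm (mem_Ici.2 le_rfl) (show x ∈ Ici (0 : ℝ) from hx) hx
  simp only [Real.arctan_zero] at this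
  linarith

private theorem B_le : Real.arctan (3 / 2) ≤ 2457 / 2500 := by
  have h1 : Real.arctan 1 + Real.arctan (1 / 5) = Real.arctan (3 / 2) := by
    rw [Real.arctan_add (by norm_num)]
    norm_num
  rw [Real.arctan_one] at h1
  have h2 := atan_hi (x := 1 / 5) (by norm_num)
  have h3 := Real.pi_lt_d4
  norm_num at h2 h3 ⊢
  linarith

private theorem gam_hi {T : ℝ} (h0 : 0 < T) :
    Real.arctan (3 / 2 * T) ≤ T * (3 / 2 - 9 / 8 * T ^ 2 + 243 / 160 * T ^ 4) := by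
  have h := atan_hi (x := 3 / 2 * T) (by positivity)
  have e : T * (3 / 2 - 9 / 8 * T ^ 2 + 243 / 160 * T ^ 4) =
      3 / 2 * T - (3 / 2 * T) ^ 3 / 3 + (3 / 2 * T) ^ 5 / 5 := by ring
  rw [e]
  exact h

private theorem gam_lo {T : ℝ} (h0 : 0 < T) :
    T * (3 / 2 - 9 / 8 * T ^ 2) ≤ Real.arctan (3 / 2 * T) := by
  have h := atan_lo (x := 3 / 2 * T) (by positivity)
  have e : T * (3 / 2 - 9 / 8 * T ^ 2) = 3 / 2 * T - (3 / 2 * T) ^ 3 / 3 := by ring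
  rw [e]
  exact h

private theorem main_num {T e : ℝ} (h0 : 0 < T) (h1 : T ≤ 1 / 5) (he0 : 0 ≤ e)
    (he1 : e ≤ 1) :
    0 ≤ FM π (Real.arctan (3 / 2)) (Real.arctan (3 / 2 * T)) T e ∨
      0 ≤ FN π (Real.arctan (3 / 2)) (Real.arctan (3 / 2 * T)) T e := by
  have hB := B_le
  have hp : (6283 / 2000 : ℝ) ≤ π := by
    have := Real.pi_gt_d4
    norm_num at this
    linarith
  have hp0 := Real.pi_pos.le
  have hT1 : T < 1 := by linarith
  have hg0 := gam_lo h0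
  have hs : 0 ≤ 4 - 39 * T ^ 2 + 9 * T ^ 4 := by
    have h2 : T ^ 2 ≤ 1 / 25 := by nlinarith
    have h3 : 0 ≤ T ^ 4 := by positivity
    linarith
  rcases le_total e (7 / 200) with h | h
  · left
    apply FM_affine he0 h (by norm_num)
    · exact FM_mono h0 hT1 le_rfl (by norm_num) hp hB hg0 (pZ h0 h1)
    · exact FM_mono h0 hT1 (by norm_num) (by norm_num) hp hB hg0 (pA h0 h1)
  · right
    apply FN_inc h0 hT1 hp0 h he1
    exact FN_hi h0 hT1 (by norm_num) (by norm_num) hp hB (gam_hi h0) hs (pG h0 h1)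

private theorem Qe_T {t : ℝ} (ht : 0 < t) :
    0 < Real.tanh t ∧ Real.tanh t < 1 ∧ Qe t = (1 - Real.tanh t) / (1 + Real.tanh t) ∧
      Real.tanh t = (1 - Qe t) / (1 + Qe t) := by
  have h0 : 0 < Qe t := Real.exp_pos _
  have h1 : Qe t < 1 := by
    unfold Qe
    rw [Real.exp_lt_one_iff]
    linarith
  have h3 : Real.exp (-t) = Real.exp t * Qe t := by
    unfold Qe
    rw [← Real.exp_add]
    congr 1
    ring
  have h4 := Real.exp_pos t
  have h5 : Real.tanh t = (1 - Qe t) / (1 + Qe t) := by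
    rw [Real.tanh_eq_sinh_div_cosh, Real.cosh_eq, Real.sinh_eq, h3]
    field_simp
  refine ⟨by rw [h5]; apply div_pos <;> linarith,
    by rw [h5, div_lt_one (by linarith)]; linarith, ?_, h5⟩
  rw [h5]
  have h2 : (1 : ℝ) + Qe t ≠ 0 := by linarith
  field_simp
  ring

private theorem T_le {t : ℝ} (ht : 0 < t) (ht1 : t ≤ 1 / 5) : Real.tanh t ≤ 1 / 5 := by
  obtain ⟨-, -, -, h5⟩ := Qe_T ht
  have h0 : 0 < Qe t := Real.exp_pos _
  have h1 : Real.exp (-(2 / 5)) ≤ Qe t := by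
    unfold Qe
    exact Real.exp_le_exp.2 (by linarith)
  have h2 : Real.exp (-(2 / 5)) ^ 5 = Real.exp (-1) ^ 2 := by
    rw [← Real.exp_nat_mul, ← Real.exp_nat_mul]
    norm_num
  have h3 : (3678 / 10000 : ℝ) ≤ Real.exp (-1) := by
    have := Real.exp_neg_one_gt_d9
    linarith
  have h4 : (3678 / 10000 : ℝ) ^ 2 ≤ Real.exp (-1) ^ 2 := pow_le_pow_left₀ (by norm_num) h3 2
  have h6 : (2 / 3 : ℝ) ≤ Real.exp (-(2 / 5)) := by
    by_contra hc
    push Not at hc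
    have h7 : Real.exp (-(2 / 5)) ^ 5 ≤ (2 / 3 : ℝ) ^ 5 :=
      pow_le_pow_left₀ (Real.exp_pos _).le hc.le 5
    norm_num at h4 h7
    linarith
  rw [h5, div_le_iff₀ (by linarith)]
  linarith

private theorem cosh_T {t : ℝ} :
    Real.cosh (2 * t) = (1 + Real.tanh t ^ 2) / (1 - Real.tanh t ^ 2) := by
  have hc := Real.cosh_pos t
  have h1 : Real.cosh t ^ 2 - Real.sinh t ^ 2 = 1 := Real.cosh_sq_sub_sinh_sq t
  rw [Real.tanh_eq_sinh_div_cosh, Real.cosh_two_mul]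
  have h2 : 1 - (Real.sinh t / Real.cosh t) ^ 2 = 1 / Real.cosh t ^ 2 := by
    field_simp
    linarith
  rw [h2]
  field_simp

private theorem sinh_T {t : ℝ} :
    Real.sinh (2 * t) = 2 * Real.tanh t / (1 - Real.tanh t ^ 2) := by
  have hc := Real.cosh_pos t
  have h1 : Real.cosh t ^ 2 - Real.sinh t ^ 2 = 1 := Real.cosh_sq_sub_sinh_sq t
  rw [Real.tanh_eq_sinh_div_cosh, Real.sinh_two_mul]
  have h2 : 1 - (Real.sinh t / Real.cosh t) ^ 2 = 1 / Real.cosh t ^ 2 := by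
    field_simp
    linarith
  rw [h2]
  field_simp

private theorem sin_T {v : ℝ} : Real.sin (2 * Real.arctan v) = 2 * v / (1 + v ^ 2) := by
  rw [Real.sin_two_mul, Real.sin_arctan, Real.cos_arctan]
  have h4 : √(1 + v ^ 2) * √(1 + v ^ 2) = 1 + v ^ 2 :=
    Real.mul_self_sqrt (by positivity)
  rw [show 2 * (v / √(1 + v ^ 2)) * (1 / √(1 + v ^ 2)) =
    2 * v / (√(1 + v ^ 2) * √(1 + v ^ 2)) by ring, h4]

theorem numm {t ε : ℝ} (ht : 0 < t) (ht1 : t ≤ 1 / 5) (h0 : 0 ≤ ε) (h1 : ε ≤ 1) :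
    0 ≤ 2 * π * (ε * (2 - ε) * Qe t * (1 - Qe t / 2)) - 4 * ε * Nn t (gm t) -
        Iw2 t (gm t) * (4 * ε ^ 2 * Qe t + 4 / 3 * (ε * (2 - ε)) * Lb t) ∨
      Gg t (gm t) ≤ 2 * π * (ε * (2 - ε) * Qe t * (1 - Qe t / 2)) := by
  obtain ⟨hT0, hT1, hQ, -⟩ := Qe_T ht
  have hTm := T_le ht ht1
  have hBg : Bg t (gm t) = Real.arctan (3 / 2) := Bg_gk ht (by norm_num)
  have hDg : Dg t (gm t) = 26 * Real.tanh t ^ 2 /
      ((1 - Real.tanh t) * (1 + Real.tanh t) * (4 + 9 * Real.tanh t ^ 2)) := by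
    unfold gm
    rw [Dg_gk ht (by norm_num)]
    have e1 : (0 : ℝ) < 1 - Real.tanh t := by linarith
    have e2 : (0 : ℝ) < 1 - Real.tanh t ^ 2 := by nlinarith
    have e3 : (1 : ℝ) - Real.tanh t ≠ 0 := e1.ne'
    have e4 : (1 : ℝ) - Real.tanh t ^ 2 ≠ 0 := e2.ne'
    have e5 : (1 : ℝ) + (3 / 2) ^ 2 * Real.tanh t ^ 2 ≠ 0 := by positivity
    have e6 : (4 : ℝ) + 9 * Real.tanh t ^ 2 ≠ 0 := by positivity
    have e7 : (1 : ℝ) + Real.tanh t ≠ 0 := by positivity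
    rw [div_eq_div_iff (by positivity) (by positivity)]
    ring
  have hsin : Real.sin (2 * gm t) = 12 * Real.tanh t / (4 + 9 * Real.tanh t ^ 2) := by
    unfold gm
    rw [sin_T]
    have e5 : (1 : ℝ) + (3 / 2 * Real.tanh t) ^ 2 ≠ 0 := by positivity
    have e6 : (4 : ℝ) + 9 * Real.tanh t ^ 2 ≠ 0 := by positivity
    rw [div_eq_div_iff e5 e6]
    ring
  have hmain := main_num (e := ε) hT0 hTm h0 h1
  have hgm : Real.arctan (3 / 2 * Real.tanh t) = gm t := rfl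
  rw [hgm] at hmain
  have hch := cosh_T (t := t)
  have hsh := sinh_T (t := t)
  set T := Real.tanh t with hT
  set g := gm t with hg
  set B := Real.arctan (3 / 2) with hBdef
  have n1 : (0 : ℝ) < 1 - T := by linarith
  have n2 : (1 : ℝ) - T ≠ 0 := n1.ne'
  have n3 : (1 : ℝ) + T ≠ 0 := by positivity
  have n4 : (4 : ℝ) + 9 * T ^ 2 ≠ 0 := by positivity
  have n5 : (1 : ℝ) - T ^ 2 = (1 - T) * (1 + T) := by ring
  have hLb : Lb t = 1 / 60 * ((30 * T * (1 - T) ^ 2 * (1 + T) ^ 3 +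
      20 * T * (1 - T) ^ 3 * (1 + T) ^ 2 + 15 * T * (1 - T) ^ 4 * (1 + T) +
      12 * T * (1 - T) ^ 5 + 5 * (1 - T) ^ 6) / (T * (1 + T) ^ 5)) := by
    unfold Lb
    rw [hQ]
    have e : 1 - (1 - T) / (1 + T) = 2 * T / (1 + T) := by
      field_simp
      ring
    rw [e]
    field_simp
    ring
  have hN : Nn t g = 2 * ((1 + T ^ 2) / ((1 - T) * (1 + T))) * B -
      2 * g * (2 * (T / ((1 - T) * (1 + T)))) - 12 / 13 := by
    unfold Nn
    rw [hBg, hDg, hsin, hch, hsh, n5]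
    field_simp
    ring
  have hI : Iw2 t g = 52 * B * (T / (4 + 9 * T ^ 2)) - 4 * g := by
    unfold Iw2
    rw [hBg, hDg, hsh, n5]
    field_simp
    ring
  have hG : Gg t g = 1352 * B * (T ^ 3 / ((1 - T) * (1 + T) * (4 + 9 * T ^ 2) ^ 2)) +
      g * (4 * (4 - 39 * T ^ 2 + 9 * T ^ 4) / ((1 - T) * (1 + T) * (4 + 9 * T ^ 2))) -
      24 * (T / (4 + 9 * T ^ 2)) := by
    unfold Gg
    rw [hBg, hDg, hsin, hch, hsh, n5]
    field_simp
    ring
  have hR : 2 * π * (ε * (2 - ε) * Qe t * (1 - Qe t / 2)) =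
      π * ε * (2 - ε) * ((1 - T) * (1 + 3 * T) / (1 + T) ^ 2) := by
    rw [hQ]
    field_simp
    ring
  rcases hmain with h | h
  · left
    have k : 2 * π * (ε * (2 - ε) * Qe t * (1 - Qe t / 2)) - 4 * ε * Nn t g -
        Iw2 t g * (4 * ε ^ 2 * Qe t + 4 / 3 * (ε * (2 - ε)) * Lb t) = ε * FM π B g T ε := by
      rw [hR, hN, hI, hLb, hQ]
      unfold FM
      ring
    rw [k]
    exact mul_nonneg h0 h
  · right
    unfold FN at h
    rw [hR, hG]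
    linarith

end Pool.Agent.H36.SZ
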