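import Pool.Agent.H36.SZ.LoD
import Pool.Agent.H36.SZ.Co

/-!
# Low levels: the positive function `hb`

PROOFS. `Sg.sumb`: the series converges at `z = 1` (`q < 1`), `Summable.norm`.
`hb_cont`: Weierstrass (`continuous_tsum`), terms bounded by `‖b n‖`.
`hb_nonneg`: `Sg.co` with `t = 0`, `B = Ioc (-β) β`, `volume.real B / 2 = β`:
`Re int_(-β)^β G F 0 θ dθ <= 4 sin β`; `G F 0 θ = e^(iθ) + sum b_n e^(-inθ)` (`hasSum` at
`z = exp (θ I)`), integrate termwise (`hasSum_integral_of_summable_norm` or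
`intervalIntegral.hasSum_integral_of_summable_norm`), `int_(-β)^β e^(-inθ) = 2 sin (n β) / n`
(`n >= 1`; `b 0 = 0`).
`hb_sin`: termwise integration and `int_0^π sin (nβ) sin (mβ) = 0` for `n ≠ m`, `= π / 2` for
`n = m >= 1`.
-/

open Complex MeasureTheory Set Filter Topology
open scoped ComplexConjugate Real

namespace Pool.Agent.H36.SZ

variable {F : ℂ → ℂ} {b : ℕ → ℂ} {q : ℝ}

private theorem lh_term (b : ℕ → ℂ) (n : ℕ) (β : ℝ) :
    |(b n).re * Real.sin (n * β) / n| ≤ ‖b n‖ := by
  rcases Nat.eq_zero_or_pos n with rfl | hn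
  · simp
  · have hn1 : (1 : ℝ) ≤ n := by exact_mod_cast hn
    rw [abs_div, abs_mul, abs_of_nonneg (by linarith : (0 : ℝ) ≤ n)]
    have h1 : |(b n).re| ≤ ‖b n‖ := Complex.abs_re_le_norm _
    have h2 : |Real.sin (n * β)| ≤ 1 := Real.abs_sin_le_one _
    calc |(b n).re| * |Real.sin (n * β)| / n ≤ |(b n).re| * |Real.sin (n * β)| :=
          div_le_self (by positivity) hn1
      _ ≤ ‖b n‖ * 1 := mul_le_mul h1 h2 (abs_nonneg _) (norm_nonneg _)
      _ = ‖b n‖ := mul_one _

private theorem lh_exp {n : ℤ} (hn : n ≠ 0) (β : ℝ) :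
    ∫ θ in (-β)..β, exp (((n : ℂ) * I) * θ) = ((2 * Real.sin (n * β) / n : ℝ) : ℂ) := by
  have hn' : (n : ℂ) ≠ 0 := by exact_mod_cast hn
  have hc : ((n : ℂ) * I) ≠ 0 := mul_ne_zero hn' I_ne_zero
  rw [integral_exp_mul_complex hc]
  have e1 : ((n : ℂ) * I) * (β : ℝ) = ((n * β : ℝ) : ℂ) * I := by push_cast; ring
  have e2 : ((n : ℂ) * I) * ((-β : ℝ) : ℂ) = ((-(n * β) : ℝ) : ℂ) * I := by push_cast; ring
  rw [e1, e2, exp_mul_I, exp_mul_I, ← ofReal_cos, ← ofReal_sin, ← ofReal_cos, ← ofReal_sin,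
    Real.cos_neg, Real.sin_neg]
  rw [div_eq_iff hc]
  push_cast
  field_simp
  ring

theorem Sg.sumb (h : Sg F b q) : Summable (fun n => ‖b n‖) := by
  have h1 := (h.hasSum 1 (by rw [norm_one]; exact h.q1)).summable
  simpa using h1.norm

theorem Sg.hb_cont (h : Sg F b q) : Continuous (hb b) := by
  have h1 : Continuous fun β : ℝ => ∑' n : ℕ, (b n).re * Real.sin (n * β) / n := by
    refine continuous_tsum (fun n => by fun_prop) h.sumb (fun n β => ?_)
    rw [Real.norm_eq_abs]
    exact lh_term b n β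
  exact Real.continuous_sin.sub h1

theorem Sg.hb_nonneg (h : Sg F b q) {β : ℝ} (h0 : 0 ≤ β) (h1 : β ≤ π) : 0 ≤ hb b β := by
  have hq : q < Real.exp 0 := by rw [Real.exp_zero]; exact h.q1
  have hc : Continuous (G F 0) := h.an.cGt hq
  have hB : Ioc (-β) β ⊆ Ioc (-π) π := Ioc_subset_Ioc (by linarith) h1
  have h2 := h.co (le_refl (0 : ℝ)) measurableSet_Ioc hB
  have hv : volume.real (Ioc (-β) β) / 2 = β := by
    rw [Real.volume_real_Ioc_of_le (by linarith)]; ring
  rw [hv, Real.cosh_zero, mul_one] at h2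
  have h3 : ∫ θ in Ioc (-β) β, G F 0 θ = ∫ θ in (-β)..β, G F 0 θ :=
    (intervalIntegral.integral_of_le (by linarith)).symm
  rw [h3] at h2
  have hz : ∀ θ : ℝ, ‖exp (((0 : ℝ) : ℂ) + θ * I)‖ = 1 := by
    intro θ
    rw [ofReal_zero, zero_add, norm_exp_ofReal_mul_I]
  have hce : Continuous fun θ : ℝ => exp (((0 : ℝ) : ℂ) + θ * I) := by fun_prop
  have h4 : HasSum (fun n : ℕ => ∫ θ in (-β)..β, b n * (exp (((0 : ℝ) : ℂ) + θ * I))⁻¹ ^ n)
      (∫ θ in (-β)..β, (G F 0 θ - exp (((0 : ℝ) : ℂ) + θ * I))) := by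
    refine intervalIntegral.hasSum_integral_of_dominated_convergence (fun n _ => ‖b n‖)
      ?_ ?_ ?_ ?_ ?_
    · intro n
      have h5 : Continuous fun θ : ℝ => b n * (exp (((0 : ℝ) : ℂ) + θ * I))⁻¹ ^ n :=
        continuous_const.mul ((hce.inv₀ fun θ => exp_ne_zero _).pow n)
      exact h5.aestronglyMeasurable
    · intro n
      refine Eventually.of_forall fun θ _ => ?_
      rw [norm_mul, norm_pow, norm_inv, hz, inv_one, one_pow, mul_one]
    · exact Eventually.of_forall fun _ _ => h.sumb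
    · exact intervalIntegrable_const
    · refine Eventually.of_forall fun θ _ => ?_
      exact h.hasSum _ (by rw [hz]; exact h.q1)
  have h6 : ∫ θ in (-β)..β, (G F 0 θ - exp (((0 : ℝ) : ℂ) + θ * I)) =
      (∫ θ in (-β)..β, G F 0 θ) - ((2 * Real.sin β : ℝ) : ℂ) := by
    rw [intervalIntegral.integral_sub (hc.intervalIntegrable _ _) (hce.intervalIntegrable _ _)]
    congr 1
    have h7 := lh_exp (n := 1) one_ne_zero β
    rw [Int.cast_one, Int.cast_one, one_mul, one_mul, div_one] at h7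
    rw [← h7]
    refine intervalIntegral.integral_congr fun θ _ => ?_
    congr 1
    rw [ofReal_zero]
    ring
  have h8 : ∀ n : ℕ, (∫ θ in (-β)..β, b n * (exp (((0 : ℝ) : ℂ) + θ * I))⁻¹ ^ n).re =
      2 * ((b n).re * Real.sin (n * β) / n) := by
    intro n
    rcases Nat.eq_zero_or_pos n with rfl | hn
    · simp [h.b0]
    · have hn1 : (-(n : ℤ)) ≠ 0 := by omega
      have h9 := lh_exp hn1 β
      have h10 : ∫ θ in (-β)..β, b n * (exp (((0 : ℝ) : ℂ) + θ * I))⁻¹ ^ n =
          b n * ((2 * Real.sin (n * β) / n : ℝ) : ℂ) := by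
        rw [intervalIntegral.integral_const_mul]
        congr 1
        have h11 : (2 * Real.sin (n * β) / n : ℝ) =
            2 * Real.sin (((-(n : ℤ) : ℤ) : ℝ) * β) / ((-(n : ℤ) : ℤ) : ℝ) := by
          push_cast
          rw [neg_mul, Real.sin_neg, mul_neg, neg_div_neg_eq]
        rw [h11, ← h9]
        refine intervalIntegral.integral_congr fun θ _ => ?_
        rw [← exp_neg, ← exp_nat_mul]
        congr 1
        push_cast
        ring
      rw [h10, re_mul_ofReal]
      ring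
  have h12 := Complex.hasSum_re h4
  simp only [h8] at h12
  rw [h6, sub_re, ofReal_re] at h12
  have h13 : HasSum (fun n : ℕ => 2 * ((b n).re * Real.sin (n * β) / n))
      (2 * ∑' n : ℕ, (b n).re * Real.sin (n * β) / n) := by
    refine HasSum.mul_left 2 (Summable.hasSum ?_)
    refine Summable.of_norm_bounded h.sumb fun n => ?_
    rw [Real.norm_eq_abs]
    exact lh_term b n β
  have h14 := h12.unique h13
  have h15 : (∫ θ in (-β)..β, G F 0 θ).re ≤ 4 * Real.sin β := (re_le_norm _).trans h2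
  unfold hb
  linarith

theorem int_sin_sin {n m : ℕ} (hm : 1 ≤ m) :
    ∫ β in (0 : ℝ)..π, Real.sin (n * β) * Real.sin (m * β) = if n = m then π / 2 else 0 := by
  have hcos : ∀ k : ℤ, k ≠ 0 → ∫ β in (0 : ℝ)..π, Real.cos (k * β) = 0 := by
    intro k hk
    have hk' : (k : ℝ) ≠ 0 := by exact_mod_cast hk
    rw [intervalIntegral.integral_comp_mul_left (fun x => Real.cos x) hk', integral_cos,
      Real.sin_int_mul_pi]
    simp
  have h1 : ∀ β : ℝ, Real.sin (n * β) * Real.sin (m * β) =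
      (1 / 2) * Real.cos (((n : ℤ) - (m : ℤ) : ℤ) * β) -
        (1 / 2) * Real.cos (((n : ℤ) + (m : ℤ) : ℤ) * β) := by
    intro β
    push_cast
    rw [sub_mul, add_mul, Real.cos_sub, Real.cos_add]
    ring
  have h2 : ∫ β in (0 : ℝ)..π, Real.sin (n * β) * Real.sin (m * β) =
      (1 / 2) * (∫ β in (0 : ℝ)..π, Real.cos (((n : ℤ) - (m : ℤ) : ℤ) * β)) -
        (1 / 2) * (∫ β in (0 : ℝ)..π, Real.cos (((n : ℤ) + (m : ℤ) : ℤ) * β)) := by
    rw [← intervalIntegral.integral_const_mul, ← intervalIntegral.integral_const_mul,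
      ← intervalIntegral.integral_sub]
    · exact intervalIntegral.integral_congr fun β _ => h1 β
    · exact Continuous.intervalIntegrable (by fun_prop) _ _
    · exact Continuous.intervalIntegrable (by fun_prop) _ _
  rw [h2, hcos _ (by omega : ((n : ℤ) + (m : ℤ)) ≠ 0)]
  split_ifs with h
  · subst h
    rw [sub_self]
    simp
    ring
  · rw [hcos _ (by omega : ((n : ℤ) - (m : ℤ)) ≠ 0)]
    ring

theorem Sg.hb_sin (h : Sg F b q) {m : ℕ} (hm : 1 ≤ m) :
    ∫ β in (0 : ℝ)..π, hb b β * Real.sin (m * β) =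
      π / 2 * ((if m = 1 then 1 else 0) - (b m).re / m) := by
  have hs : ∀ β : ℝ, Summable fun n : ℕ => (b n).re * Real.sin (n * β) / n := by
    intro β
    refine Summable.of_norm_bounded h.sumb fun n => ?_
    rw [Real.norm_eq_abs]
    exact lh_term b n β
  have hc : Continuous fun β : ℝ => ∑' n : ℕ, (b n).re * Real.sin (n * β) / n := by
    refine continuous_tsum (fun n => by fun_prop) h.sumb (fun n β => ?_)
    rw [Real.norm_eq_abs]
    exact lh_term b n β
  have h1 : HasSum (fun n : ℕ => ∫ β in (0 : ℝ)..π,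
      ((b n).re * Real.sin (n * β) / n) * Real.sin (m * β))
      (∫ β in (0 : ℝ)..π, (∑' n : ℕ, (b n).re * Real.sin (n * β) / n) * Real.sin (m * β)) := by
    refine intervalIntegral.hasSum_integral_of_dominated_convergence (fun n _ => ‖b n‖)
      ?_ ?_ ?_ ?_ ?_
    · intro n
      have h5 : Continuous fun β : ℝ =>
          ((b n).re * Real.sin (n * β) / n) * Real.sin (m * β) := by fun_prop
      exact h5.aestronglyMeasurable
    · intro n
      refine Eventually.of_forall fun β _ => ?_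
      rw [norm_mul, Real.norm_eq_abs, Real.norm_eq_abs]
      calc |(b n).re * Real.sin (n * β) / n| * |Real.sin (m * β)| ≤ ‖b n‖ * 1 :=
            mul_le_mul (lh_term b n β) (Real.abs_sin_le_one _) (abs_nonneg _) (norm_nonneg _)
        _ = ‖b n‖ := mul_one _
    · exact Eventually.of_forall fun _ _ => h.sumb
    · exact intervalIntegrable_const
    · exact Eventually.of_forall fun β _ => (hs β).hasSum.mul_right _
  have h2 : ∀ n : ℕ, ∫ β in (0 : ℝ)..π, ((b n).re * Real.sin (n * β) / n) * Real.sin (m * β) =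
      if n = m then π / 2 * ((b m).re / m) else 0 := by
    intro n
    have h3 : ∀ β : ℝ, ((b n).re * Real.sin (n * β) / n) * Real.sin (m * β) =
        ((b n).re / n) * (Real.sin (n * β) * Real.sin (m * β)) := fun β => by ring
    simp only [h3]
    rw [intervalIntegral.integral_const_mul, int_sin_sin hm]
    split_ifs with h4
    · subst h4; ring
    · ring
  simp only [h2] at h1
  have h5 := h1.unique (hasSum_ite_eq m (π / 2 * ((b m).re / m)))
  have h6 : ∫ β in (0 : ℝ)..π, hb b β * Real.sin (m * β) =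
      (∫ β in (0 : ℝ)..π, Real.sin ((1 : ℕ) * β) * Real.sin (m * β)) -
      ∫ β in (0 : ℝ)..π, (∑' n : ℕ, (b n).re * Real.sin (n * β) / n) * Real.sin (m * β) := by
    rw [← intervalIntegral.integral_sub]
    · refine intervalIntegral.integral_congr fun β _ => ?_
      simp only [hb, Nat.cast_one, one_mul, sub_mul]
    · exact Continuous.intervalIntegrable (by fun_prop) _ _
    · exact (hc.mul (by fun_prop)).intervalIntegrable _ _
  rw [h6, h5, int_sin_sin hm]
  by_cases h7 : m = 1
  · rw [if_pos h7, if_pos h7.symm]; ring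
  · rw [if_neg h7, if_neg (fun h8 => h7 h8.symm)]; ring

end Pool.Agent.H36.SZ
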