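import Pool.Agent.H36.SZ.LoD
import Pool.Agent.H36.SZ.JF

/-!
# Low levels: the kernel inequality

PROOF of `kpoly`. If `c = 1 / (1 + a)`, `K = 1 + a + e`, `X = V - 1`, `V + U = 2` with
`a, e, V, U >= 0` (`a = (1 - c) / c`, `e = K - 1 / c`), then `16 (1 + a)^4` times the expression is
a polynomial in `a, e, V, U` (homogeneous of degree 4 in `V, U`) equal to
`2 a^2 (3 a U - 2 V)^2 U^2 + ... ` plus a polynomial with nonnegative coefficients.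
PROOF of `kpos`. `t > 0`, `z = exp (t + iφ)`, `K = cosh 2t`, `c = - cos 2φ`, `X = cos 2β`. By `G_J`,
`G1_J`: `conj J * G1 J = 2 (sinh 2t + i sin 2φ)`, `J^2 = 2 + 2 (cosh 2t cos 2φ + i sinh 2t sin 2φ)`,
`|J|^2 = 2 (K - c)`; `|J|^2 <= xd t` says `K c >= 1`. The sum of the two quotients is
`Re (conj J G1J (2 J^2 + 8 cos^2 β) / (J^2 - 4 cos^2 β)^2)`, and
`tanh t` times (it plus `2 / tanh t`) times `(|J^2 - 4 cos^2 β|^2 / 4)^2` is twice the polynomial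
of `kpoly` (numerically checked).
`J ∓ 2 cos β ≠ 0`: imaginary part `2 sinh t sin φ` and real part `2 cosh t cos φ ∓ 2 cos β` cannot
both vanish.
-/

open Complex MeasureTheory Set Filter Topology
open scoped ComplexConjugate Real

namespace Pool.Agent.H36.SZ

private theorem kp_aux (a e V U : ℝ) (ha : 0 ≤ a) (he : 0 ≤ e) (hV : 0 ≤ V) (hU : 0 ≤ U) :
    0 ≤ 2 * a ^ 2 * U ^ 2 * (3 * a * U - 2 * V) ^ 2 + e ^ 2 * U ^ 2 * (a * U - V) ^ 2 +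
      12 * a * e * U ^ 2 * (a * U - V) ^ 2 + 4 * a * e * V * U * (a * U - V) ^ 2 +
      18 * a ^ 2 * V * U * (a * U - V) ^ 2 + 8 * a ^ 3 * V * U * (a * U - V) ^ 2 +
      U ^ 4 * (5 * a * e ^ 3 + 25 * a ^ 2 * e ^ 2 + 32 * a ^ 3 * e + 6 * a ^ 4 + a * e ^ 4 +
        20 * a ^ 2 * e ^ 3 + 75 * a ^ 3 * e ^ 2 + 100 * a ^ 4 * e + 44 * a ^ 5 +
        3 * a ^ 2 * e ^ 4 + 29 * a ^ 3 * e ^ 3 + 79 * a ^ 4 * e ^ 2 + 83 * a ^ 5 * e +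
        30 * a ^ 6 + 3 * a ^ 3 * e ^ 4 + 18 * a ^ 4 * e ^ 3 + 36 * a ^ 5 * e ^ 2 +
        30 * a ^ 6 * e + 9 * a ^ 7 + a ^ 4 * e ^ 4 + 4 * a ^ 5 * e ^ 3 + 6 * a ^ 6 * e ^ 2 +
        4 * a ^ 7 * e + a ^ 8) +
      V * U ^ 3 * (6 * e ^ 3 + 28 * a * e ^ 3 + 72 * a ^ 2 * e ^ 2 + 68 * a ^ 3 * e + 6 * a ^ 4 +
        4 * a * e ^ 4 + 72 * a ^ 2 * e ^ 3 + 220 * a ^ 3 * e ^ 2 + 250 * a ^ 4 * e + 90 * a ^ 5 +
        12 * a ^ 2 * e ^ 4 + 100 * a ^ 3 * e ^ 3 + 248 * a ^ 4 * e ^ 2 + 244 * a ^ 5 * e +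
        84 * a ^ 6 + 12 * a ^ 3 * e ^ 4 + 66 * a ^ 4 * e ^ 3 + 126 * a ^ 5 * e ^ 2 +
        102 * a ^ 6 * e + 30 * a ^ 7 + 4 * a ^ 4 * e ^ 4 + 16 * a ^ 5 * e ^ 3 +
        24 * a ^ 6 * e ^ 2 + 16 * a ^ 7 * e + 4 * a ^ 8) +
      V ^ 2 * U ^ 2 * (27 * e ^ 2 + 18 * e ^ 3 + 70 * a * e ^ 2 + 54 * a * e ^ 3 +
        136 * a ^ 2 * e ^ 2 + 60 * a ^ 3 * e + 6 * a * e ^ 4 + 96 * a ^ 2 * e ^ 3 +
        246 * a ^ 3 * e ^ 2 + 222 * a ^ 4 * e + 66 * a ^ 5 + 18 * a ^ 2 * e ^ 4 +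
        126 * a ^ 3 * e ^ 3 + 278 * a ^ 4 * e ^ 2 + 250 * a ^ 5 * e + 80 * a ^ 6 +
        18 * a ^ 3 * e ^ 4 + 90 * a ^ 4 * e ^ 3 + 162 * a ^ 5 * e ^ 2 + 126 * a ^ 6 * e +
        36 * a ^ 7 + 6 * a ^ 4 * e ^ 4 + 24 * a ^ 5 * e ^ 3 + 36 * a ^ 6 * e ^ 2 +
        24 * a ^ 7 * e + 6 * a ^ 8) +
      V ^ 3 * U * (40 * e + 8 * a + 56 * e ^ 2 + 148 * a * e + 30 * a ^ 2 + 18 * e ^ 3 +
        146 * a * e ^ 2 + 200 * a ^ 2 * e + 40 * a ^ 3 + 44 * a * e ^ 3 + 160 * a ^ 2 * e ^ 2 +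
        144 * a ^ 3 * e + 24 * a ^ 4 + 4 * a * e ^ 4 + 56 * a ^ 2 * e ^ 3 + 132 * a ^ 3 * e ^ 2 +
        102 * a ^ 4 * e + 22 * a ^ 5 + 12 * a ^ 2 * e ^ 4 + 68 * a ^ 3 * e ^ 3 +
        128 * a ^ 4 * e ^ 2 + 100 * a ^ 5 * e + 28 * a ^ 6 + 12 * a ^ 3 * e ^ 4 +
        54 * a ^ 4 * e ^ 3 + 90 * a ^ 5 * e ^ 2 + 66 * a ^ 6 * e + 18 * a ^ 7 +
        4 * a ^ 4 * e ^ 4 + 16 * a ^ 5 * e ^ 3 + 24 * a ^ 6 * e ^ 2 + 16 * a ^ 7 * e + 4 * a ^ 8) +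
      V ^ 4 * (16 + 40 * e + 72 * a + 28 * e ^ 2 + 140 * a * e + 136 * a ^ 2 + 6 * e ^ 3 +
        74 * a * e ^ 2 + 184 * a ^ 2 * e + 124 * a ^ 3 + 13 * a * e ^ 3 + 70 * a ^ 2 * e ^ 2 +
        112 * a ^ 3 * e + 56 * a ^ 4 + a * e ^ 4 + 12 * a ^ 2 * e ^ 3 + 31 * a ^ 3 * e ^ 2 +
        30 * a ^ 4 * e + 10 * a ^ 5 + 3 * a ^ 2 * e ^ 4 + 13 * a ^ 3 * e ^ 3 +
        19 * a ^ 4 * e ^ 2 + 11 * a ^ 5 * e + 2 * a ^ 6 + 3 * a ^ 3 * e ^ 4 +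
        12 * a ^ 4 * e ^ 3 + 18 * a ^ 5 * e ^ 2 + 12 * a ^ 6 * e + 3 * a ^ 7 + a ^ 4 * e ^ 4 +
        4 * a ^ 5 * e ^ 3 + 6 * a ^ 6 * e ^ 2 + 4 * a ^ 7 * e + a ^ 8) := by
  positivity

private theorem kp_id (a e V U : ℝ) (hVU : U = 2 - V) :
    2 * a ^ 2 * U ^ 2 * (3 * a * U - 2 * V) ^ 2 + e ^ 2 * U ^ 2 * (a * U - V) ^ 2 +
      12 * a * e * U ^ 2 * (a * U - V) ^ 2 + 4 * a * e * V * U * (a * U - V) ^ 2 +
      18 * a ^ 2 * V * U * (a * U - V) ^ 2 + 8 * a ^ 3 * V * U * (a * U - V) ^ 2 +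
      U ^ 4 * (5 * a * e ^ 3 + 25 * a ^ 2 * e ^ 2 + 32 * a ^ 3 * e + 6 * a ^ 4 + a * e ^ 4 +
        20 * a ^ 2 * e ^ 3 + 75 * a ^ 3 * e ^ 2 + 100 * a ^ 4 * e + 44 * a ^ 5 +
        3 * a ^ 2 * e ^ 4 + 29 * a ^ 3 * e ^ 3 + 79 * a ^ 4 * e ^ 2 + 83 * a ^ 5 * e +
        30 * a ^ 6 + 3 * a ^ 3 * e ^ 4 + 18 * a ^ 4 * e ^ 3 + 36 * a ^ 5 * e ^ 2 +
        30 * a ^ 6 * e + 9 * a ^ 7 + a ^ 4 * e ^ 4 + 4 * a ^ 5 * e ^ 3 + 6 * a ^ 6 * e ^ 2 +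
        4 * a ^ 7 * e + a ^ 8) +
      V * U ^ 3 * (6 * e ^ 3 + 28 * a * e ^ 3 + 72 * a ^ 2 * e ^ 2 + 68 * a ^ 3 * e + 6 * a ^ 4 +
        4 * a * e ^ 4 + 72 * a ^ 2 * e ^ 3 + 220 * a ^ 3 * e ^ 2 + 250 * a ^ 4 * e + 90 * a ^ 5 +
        12 * a ^ 2 * e ^ 4 + 100 * a ^ 3 * e ^ 3 + 248 * a ^ 4 * e ^ 2 + 244 * a ^ 5 * e +
        84 * a ^ 6 + 12 * a ^ 3 * e ^ 4 + 66 * a ^ 4 * e ^ 3 + 126 * a ^ 5 * e ^ 2 +
        102 * a ^ 6 * e + 30 * a ^ 7 + 4 * a ^ 4 * e ^ 4 + 16 * a ^ 5 * e ^ 3 +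
        24 * a ^ 6 * e ^ 2 + 16 * a ^ 7 * e + 4 * a ^ 8) +
      V ^ 2 * U ^ 2 * (27 * e ^ 2 + 18 * e ^ 3 + 70 * a * e ^ 2 + 54 * a * e ^ 3 +
        136 * a ^ 2 * e ^ 2 + 60 * a ^ 3 * e + 6 * a * e ^ 4 + 96 * a ^ 2 * e ^ 3 +
        246 * a ^ 3 * e ^ 2 + 222 * a ^ 4 * e + 66 * a ^ 5 + 18 * a ^ 2 * e ^ 4 +
        126 * a ^ 3 * e ^ 3 + 278 * a ^ 4 * e ^ 2 + 250 * a ^ 5 * e + 80 * a ^ 6 +
        18 * a ^ 3 * e ^ 4 + 90 * a ^ 4 * e ^ 3 + 162 * a ^ 5 * e ^ 2 + 126 * a ^ 6 * e +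
        36 * a ^ 7 + 6 * a ^ 4 * e ^ 4 + 24 * a ^ 5 * e ^ 3 + 36 * a ^ 6 * e ^ 2 +
        24 * a ^ 7 * e + 6 * a ^ 8) +
      V ^ 3 * U * (40 * e + 8 * a + 56 * e ^ 2 + 148 * a * e + 30 * a ^ 2 + 18 * e ^ 3 +
        146 * a * e ^ 2 + 200 * a ^ 2 * e + 40 * a ^ 3 + 44 * a * e ^ 3 + 160 * a ^ 2 * e ^ 2 +
        144 * a ^ 3 * e + 24 * a ^ 4 + 4 * a * e ^ 4 + 56 * a ^ 2 * e ^ 3 + 132 * a ^ 3 * e ^ 2 +
        102 * a ^ 4 * e + 22 * a ^ 5 + 12 * a ^ 2 * e ^ 4 + 68 * a ^ 3 * e ^ 3 +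
        128 * a ^ 4 * e ^ 2 + 100 * a ^ 5 * e + 28 * a ^ 6 + 12 * a ^ 3 * e ^ 4 +
        54 * a ^ 4 * e ^ 3 + 90 * a ^ 5 * e ^ 2 + 66 * a ^ 6 * e + 18 * a ^ 7 +
        4 * a ^ 4 * e ^ 4 + 16 * a ^ 5 * e ^ 3 + 24 * a ^ 6 * e ^ 2 + 16 * a ^ 7 * e + 4 * a ^ 8) +
      V ^ 4 * (16 + 40 * e + 72 * a + 28 * e ^ 2 + 140 * a * e + 136 * a ^ 2 + 6 * e ^ 3 +
        74 * a * e ^ 2 + 184 * a ^ 2 * e + 124 * a ^ 3 + 13 * a * e ^ 3 + 70 * a ^ 2 * e ^ 2 +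
        112 * a ^ 3 * e + 56 * a ^ 4 + a * e ^ 4 + 12 * a ^ 2 * e ^ 3 + 31 * a ^ 3 * e ^ 2 +
        30 * a ^ 4 * e + 10 * a ^ 5 + 3 * a ^ 2 * e ^ 4 + 13 * a ^ 3 * e ^ 3 +
        19 * a ^ 4 * e ^ 2 + 11 * a ^ 5 * e + 2 * a ^ 6 + 3 * a ^ 3 * e ^ 4 +
        12 * a ^ 4 * e ^ 3 + 18 * a ^ 5 * e ^ 2 + 12 * a ^ 6 * e + 3 * a ^ 7 + a ^ 4 * e ^ 4 +
        4 * a ^ 5 * e ^ 3 + 6 * a ^ 6 * e ^ 2 + 4 * a ^ 7 * e + a ^ 8) =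
    16 * ((((1 + a + e) ^ 2 - 1) * (1 + a) ^ 2 + 1 + (V - 1) ^ 2 * (1 + a) ^ 2 +
        2 * (V - 1) * (1 + a + e) * (1 + a)) ^ 2 +
      (a + e) * (((1 + a) ^ 2 - (1 + a + e) * (1 + a) + 1 + (V - 1) * (1 + a) ^ 2) *
          (((V - 1) * (1 + a) + (1 + a + e)) ^ 2 -
            ((1 + a + e) ^ 2 - 1) * ((1 + a) ^ 2 - 1)) -
        2 * ((V - 1) * (1 + a) + (1 + a + e)) * ((1 + a) ^ 2 - 1) *
          (((1 + a + e) ^ 2 + 1) * (1 + a) + (V - 1) * (1 + a) - (1 + a + e)))) := by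
  subst hVU
  ring

theorem kpoly {K c X : ℝ} (hc : 0 < c) (hc1 : c ≤ 1) (hKc : 1 ≤ K * c)
    (hX : -1 ≤ X) (hX1 : X ≤ 1) :
    0 ≤ (K ^ 2 - 1 + c ^ 2 + X ^ 2 + 2 * X * K * c) ^ 2 +
      (K - 1) * ((1 + X - K * c + c ^ 2) * ((X + K * c) ^ 2 - (K ^ 2 - 1) * (1 - c ^ 2)) -
        2 * (X + K * c) * (1 - c ^ 2) * (K ^ 2 + 1 + X - K * c)) := by
  obtain ⟨a, ha, hca⟩ : ∃ a : ℝ, 0 ≤ a ∧ c * (1 + a) = 1 := by
    refine ⟨1 / c - 1, ?_, ?_⟩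
    · rw [sub_nonneg, le_div_iff₀ hc]; linarith
    · field_simp; ring
  have hA : 0 < 1 + a := by linarith
  obtain ⟨e, he, hK⟩ : ∃ e : ℝ, 0 ≤ e ∧ K = 1 + a + e := by
    refine ⟨K - (1 + a), ?_, by ring⟩
    have h1 : (K - (1 + a)) * c = K * c - 1 := by linear_combination -hca
    have h2 : 0 ≤ (K - (1 + a)) * c := by rw [h1]; linarith
    exact nonneg_of_mul_nonneg_left h2 hc
  have hpos := kp_aux a e (X + 1) (1 - X) ha he (by linarith) (by linarith)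
  rw [kp_id a e (X + 1) (1 - X) (by ring)] at hpos
  have hc' : c = 1 / (1 + a) := by field_simp; linarith
  have key : 16 * (1 + a) ^ 4 * ((K ^ 2 - 1 + c ^ 2 + X ^ 2 + 2 * X * K * c) ^ 2 +
      (K - 1) * ((1 + X - K * c + c ^ 2) * ((X + K * c) ^ 2 - (K ^ 2 - 1) * (1 - c ^ 2)) -
        2 * (X + K * c) * (1 - c ^ 2) * (K ^ 2 + 1 + X - K * c))) =
    16 * ((((1 + a + e) ^ 2 - 1) * (1 + a) ^ 2 + 1 + (X + 1 - 1) ^ 2 * (1 + a) ^ 2 +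
        2 * (X + 1 - 1) * (1 + a + e) * (1 + a)) ^ 2 +
      (a + e) * (((1 + a) ^ 2 - (1 + a + e) * (1 + a) + 1 + (X + 1 - 1) * (1 + a) ^ 2) *
          (((X + 1 - 1) * (1 + a) + (1 + a + e)) ^ 2 -
            ((1 + a + e) ^ 2 - 1) * ((1 + a) ^ 2 - 1)) -
        2 * ((X + 1 - 1) * (1 + a) + (1 + a + e)) * ((1 + a) ^ 2 - 1) *
          (((1 + a + e) ^ 2 + 1) * (1 + a) + (X + 1 - 1) * (1 + a) - (1 + a + e)))) := by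
    rw [hK, hc']
    field_simp
    ring
  rw [← key] at hpos
  exact nonneg_of_mul_nonneg_right hpos (by positivity)

theorem GJ_ne {t : ℝ} (ht : 0 < t) (φ β : ℝ) : G J t φ - 2 * Real.cos β ≠ 0 := by
  intro h
  have hS : 0 < Real.sinh t := Real.sinh_pos_iff.2 ht
  have hC : 1 < Real.cosh t := Real.one_lt_cosh.2 ht.ne'
  rw [G_J] at h
  have hre := congrArg Complex.re h
  have him := congrArg Complex.im h
  simp [-Complex.ofReal_cosh, -Complex.ofReal_sinh, -Complex.ofReal_cos, -Complex.ofReal_sin]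
    at hre him
  rcases him with him | him
  · exact ht.ne' him
  · have h1 := Real.sin_sq_add_cos_sq φ
    rw [him] at h1
    have h2 : Real.cosh t * Real.cos φ = Real.cos β := by linarith
    have h3 : Real.cos β ^ 2 = Real.cosh t ^ 2 := by
      rw [← h2, mul_pow]
      have : Real.cos φ ^ 2 = 1 := by linarith
      rw [this, mul_one]
    have h4 := Real.cos_sq_le_one β
    nlinarith

private theorem GJ_ne' {t : ℝ} (ht : 0 < t) (φ β : ℝ) : G J t φ + 2 * Real.cos β ≠ 0 := by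
  have h := GJ_ne ht φ (π - β)
  rw [Real.cos_pi_sub] at h
  push_cast at h ⊢
  intro h1
  apply h
  linear_combination h1

private theorem w_eq (t φ : ℝ) : conj (G J t φ) * G1 J t φ =
    ((2 * Real.sinh (2 * t) : ℝ) : ℂ) + ((2 * Real.sin (2 * φ) : ℝ) : ℂ) * I := by
  rw [G_J, G1_J]
  apply Complex.ext
  · simp [-Complex.ofReal_cosh, -Complex.ofReal_sinh, -Complex.ofReal_cos, -Complex.ofReal_sin,
      Real.sinh_two_mul]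
    have h1 := Real.sin_sq_add_cos_sq φ
    linear_combination (4 * Real.sinh t * Real.cosh t) * h1
  · simp [-Complex.ofReal_cosh, -Complex.ofReal_sinh, -Complex.ofReal_cos, -Complex.ofReal_sin,
      Real.sin_two_mul]
    have h1 := Real.cosh_sq t
    linear_combination (4 * Real.sin φ * Real.cos φ) * h1

private theorem J2_eq (t φ : ℝ) : G J t φ ^ 2 =
    ((2 + 2 * Real.cosh (2 * t) * Real.cos (2 * φ) : ℝ) : ℂ) +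
      ((2 * Real.sinh (2 * t) * Real.sin (2 * φ) : ℝ) : ℂ) * I := by
  rw [G_J]
  apply Complex.ext
  · simp [-Complex.ofReal_cosh, -Complex.ofReal_sinh, -Complex.ofReal_cos, -Complex.ofReal_sin,
      pow_two, Real.cosh_two_mul, Real.cos_two_mul]
    have h1 := Real.sin_sq_add_cos_sq φ
    have h2 := Real.cosh_sq t
    have h3 : Real.sin φ ^ 2 = 1 - Real.cos φ ^ 2 := by linarith
    have h4 : Real.cosh t ^ 2 = Real.sinh t ^ 2 + 1 := h2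
    nlinarith [h3, h4]
  · simp [-Complex.ofReal_cosh, -Complex.ofReal_sinh, -Complex.ofReal_cos, -Complex.ofReal_sin,
      pow_two, Real.sinh_two_mul, Real.sin_two_mul]
    ring

private theorem re_quot (Sh s2 K c X : ℝ) :
    ((((2 * Sh : ℝ) : ℂ) + ((2 * s2 : ℝ) : ℂ) * I) *
      (((4 * (2 + X - K * c) : ℝ) : ℂ) + ((4 * (Sh * s2) : ℝ) : ℂ) * I) /
      (((-2 * (K * c + X) : ℝ) : ℂ) + ((2 * (Sh * s2) : ℝ) : ℂ) * I) ^ 2).re =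
    2 * (Sh * (2 + X - K * c - s2 ^ 2) * ((K * c + X) ^ 2 - (Sh * s2) ^ 2) -
      s2 * (2 + X - K * c + Sh ^ 2) * (2 * (K * c + X) * (Sh * s2))) /
      ((K * c + X) ^ 2 + (Sh * s2) ^ 2) ^ 2 := by
  have e1 : (((2 * Sh : ℝ) : ℂ) + ((2 * s2 : ℝ) : ℂ) * I) *
      (((4 * (2 + X - K * c) : ℝ) : ℂ) + ((4 * (Sh * s2) : ℝ) : ℂ) * I) =
      ((8 * (Sh * (2 + X - K * c) - s2 * (Sh * s2)) : ℝ) : ℂ) +
      ((8 * (s2 * (2 + X - K * c) + Sh * (Sh * s2)) : ℝ) : ℂ) * I := by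
    apply Complex.ext
    · simp; ring
    · simp; ring
  have e2 : (((-2 * (K * c + X) : ℝ) : ℂ) + ((2 * (Sh * s2) : ℝ) : ℂ) * I) ^ 2 =
      ((4 * ((K * c + X) ^ 2 - (Sh * s2) ^ 2) : ℝ) : ℂ) +
      ((-8 * ((K * c + X) * (Sh * s2)) : ℝ) : ℂ) * I := by
    push_cast
    linear_combination (4 * ((Sh : ℂ) * s2) ^ 2) * Complex.I_sq
  rw [e1, e2, Complex.div_re]
  have e3 : Complex.normSq (((4 * ((K * c + X) ^ 2 - (Sh * s2) ^ 2) : ℝ) : ℂ) +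
      ((-8 * ((K * c + X) * (Sh * s2)) : ℝ) : ℂ) * I) =
      16 * ((K * c + X) ^ 2 + (Sh * s2) ^ 2) ^ 2 := by
    rw [Complex.normSq_add_mul_I]; ring
  rw [e3]
  have r1 : ∀ x y : ℝ, ((x : ℂ) + (y : ℂ) * I).re = x := by intro x y; simp
  have r2 : ∀ x y : ℝ, ((x : ℂ) + (y : ℂ) * I).im = y := by intro x y; simp
  rw [r1, r1, r2, r2]
  field_simp
  ring

theorem kpos {t φ : ℝ} (ht : 0 < t) (hφ : yy J t φ ≤ xd t) (β : ℝ) :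
    -(2 / Real.tanh t) ≤
      (conj (G J t φ) * G1 J t φ / (G J t φ - 2 * Real.cos β) ^ 2).re +
        (conj (G J t φ) * G1 J t φ / (G J t φ + 2 * Real.cos β) ^ 2).re := by
  have hd1 := GJ_ne ht φ β
  have hd2 := GJ_ne' ht φ β
  have hsum : conj (G J t φ) * G1 J t φ / (G J t φ - 2 * Real.cos β) ^ 2 +
      conj (G J t φ) * G1 J t φ / (G J t φ + 2 * Real.cos β) ^ 2 =
      (conj (G J t φ) * G1 J t φ) * (2 * (G J t φ ^ 2 + (2 * Real.cos β) ^ 2)) /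
        (G J t φ ^ 2 - (2 * Real.cos β) ^ 2) ^ 2 := by
    have h3 : (G J t φ ^ 2 - (2 * (Real.cos β : ℂ)) ^ 2) =
        (G J t φ - 2 * Real.cos β) * (G J t φ + 2 * Real.cos β) := by ring
    rw [h3]
    field_simp
    ring
  rw [← Complex.add_re, hsum]
  set Sh := Real.sinh (2 * t) with hSh
  set s2 := Real.sin (2 * φ) with hs2
  set K := Real.cosh (2 * t) with hK
  set c := -Real.cos (2 * φ) with hc
  set X := Real.cos (2 * β) with hX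
  have hJ2 : G J t φ ^ 2 = ((2 - 2 * K * c : ℝ) : ℂ) + ((2 * Sh * s2 : ℝ) : ℂ) * I := by
    have h1 := J2_eq t φ
    have h2 : Real.cos (2 * φ) = -c := by rw [hc]; ring
    rw [← hSh, ← hs2, ← hK, h2] at h1
    rw [h1]
    push_cast
    ring
  have hXe : X = 2 * Real.cos β ^ 2 - 1 := Real.cos_two_mul β
  have hM : G J t φ ^ 2 - (2 * (Real.cos β : ℂ)) ^ 2 =
      ((-2 * (K * c + X) : ℝ) : ℂ) + ((2 * (Sh * s2) : ℝ) : ℂ) * I := by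
    rw [hJ2, hXe]
    push_cast
    ring
  have hN : 2 * (G J t φ ^ 2 + (2 * (Real.cos β : ℂ)) ^ 2) =
      ((4 * (2 + X - K * c) : ℝ) : ℂ) + ((4 * (Sh * s2) : ℝ) : ℂ) * I := by
    rw [hJ2, hXe]
    push_cast
    ring
  have hne : (K * c + X) ^ 2 + (Sh * s2) ^ 2 ≠ 0 := by
    intro h0
    have h1 : K * c + X = 0 := by nlinarith [sq_nonneg (K * c + X), sq_nonneg (Sh * s2)]
    have h2 : Sh * s2 = 0 := by nlinarith [sq_nonneg (K * c + X), sq_nonneg (Sh * s2)]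
    have h4 : G J t φ ^ 2 - (2 * (Real.cos β : ℂ)) ^ 2 = 0 := by
      rw [hM, h1, h2]; simp
    have h5 : (G J t φ - 2 * Real.cos β) * (G J t φ + 2 * Real.cos β) = 0 := by
      rw [← h4]; ring
    rcases mul_eq_zero.1 h5 with h6 | h6
    · exact hd1 h6
    · exact hd2 h6
  rw [w_eq, hN, hM, re_quot Sh s2 K c X]
  have hKs : Sh ^ 2 = K ^ 2 - 1 := by
    rw [hSh, hK]; have := Real.cosh_sq (2 * t); linarith
  have hcs : s2 ^ 2 = 1 - c ^ 2 := by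
    rw [hs2, hc]; have := Real.sin_sq_add_cos_sq (2 * φ); nlinarith
  have hSh0 : 0 < Sh := Real.sinh_pos_iff.2 (by linarith)
  have hK1 : 1 < K := Real.one_lt_cosh.2 (by positivity)
  have hc1 : c ≤ 1 := by nlinarith [sq_nonneg s2]
  have hX1 : X ≤ 1 := Real.cos_le_one _
  have hX2 : -1 ≤ X := Real.neg_one_le_cos _
  have hyJ : yy J t φ = 2 * (K - c) := by
    rw [yy_J, hK, hc, Real.cosh_two_mul, Real.cos_two_mul]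
    have := Real.cosh_sq t
    linear_combination (-2) * this
  have hKc : 1 ≤ K * c := by
    rw [hyJ, xd, ← hK] at hφ
    have h1 : 1 / K ≤ c := by linarith
    rw [div_le_iff₀ (by linarith)] at h1
    linarith
  have hc0 : 0 < c := by
    by_contra h0
    nlinarith
  have hpoly := kpoly hc0 hc1 hKc hX2 hX1
  have hTe : Real.tanh t * Sh = K - 1 := by
    rw [Real.tanh_eq_sinh_div_cosh, hSh, hK, Real.sinh_two_mul, Real.cosh_two_mul]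
    have := Real.cosh_sq t
    have hC : Real.cosh t ≠ 0 := (Real.cosh_pos t).ne'
    field_simp
    linear_combination (-1) * this
  have hT : 0 < Real.tanh t := by
    rw [Real.tanh_eq_sinh_div_cosh]
    exact div_pos (Real.sinh_pos_iff.2 ht) (Real.cosh_pos t)
  have hP : (K * c + X) ^ 2 + (Sh * s2) ^ 2 = K ^ 2 - 1 + c ^ 2 + X ^ 2 + 2 * X * K * c := by
    rw [mul_pow, hKs, hcs]; ring
  have hP0 : 0 < (K * c + X) ^ 2 + (Sh * s2) ^ 2 := by positivity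
  rw [neg_le_iff_add_nonneg, ← sub_neg_eq_add, sub_nonneg, neg_le_iff_add_nonneg,
    div_add_div _ _ (by positivity) hT.ne']
  apply div_nonneg _ (by positivity)
  have e5 : 2 * (Sh * (2 + X - K * c - s2 ^ 2) * ((K * c + X) ^ 2 - (Sh * s2) ^ 2) -
      s2 * (2 + X - K * c + Sh ^ 2) * (2 * (K * c + X) * (Sh * s2))) * Real.tanh t +
      ((K * c + X) ^ 2 + (Sh * s2) ^ 2) ^ 2 * 2 = 
      2 * ((K ^ 2 - 1 + c ^ 2 + X ^ 2 + 2 * X * K * c) ^ 2 +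
      (K - 1) * ((1 + X - K * c + c ^ 2) * ((X + K * c) ^ 2 - (K ^ 2 - 1) * (1 - c ^ 2)) -
        2 * (X + K * c) * (1 - c ^ 2) * (K ^ 2 + 1 + X - K * c))) := by
    rw [hP]
    have e6 : 2 * (Sh * (2 + X - K * c - s2 ^ 2) * ((K * c + X) ^ 2 - (Sh * s2) ^ 2) -
      s2 * (2 + X - K * c + Sh ^ 2) * (2 * (K * c + X) * (Sh * s2))) * Real.tanh t =
      2 * (Real.tanh t * Sh) * ((2 + X - K * c - s2 ^ 2) * ((K * c + X) ^ 2 - Sh ^ 2 * s2 ^ 2) -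
      (2 + X - K * c + Sh ^ 2) * (2 * (K * c + X) * s2 ^ 2)) := by ring
    rw [e6, hTe, hKs, hcs]
    ring
  rw [e5]
  positivity

end Pool.Agent.H36.SZ
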