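import Pool.Agent.H36.SZ.LoK
import Pool.Agent.H36.SZ.LoH

/-!
# Low levels: the linear part

PROOFS. `ksum`: with `w1 = exp (iβ - t - iφ)`, `w2 = exp (-iβ - t - iφ)`, `|w_j| < 1`,
`sum n w^n = w / (1 - w)^2` (`hasSum_coe_mul_geometric_of_norm_lt_one`), `sin (nβ) exp (-n (t+iφ))
= (w1^n - w2^n) / (2i)`, and `w1/(1-w1)^2 - w2/(1-w2)^2 = 2i sin β (z - 1/z) / (z + 1/z - 2 cos β)^2`
because `(1-w1)(1-w2) z = z + 1/z - 2 cos β`.
`GR_eq`: `GR = sum (Re b_n - [n=1]) z^(-n)`; by `hb_sin` its `n`-th coefficient is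
`-(2/π) n int_0^π hb sin (nβ) dβ` (`n >= 1`), so by `ksum` and termwise integration
(`norm <= C n e^(-nt)`) `GR = -(2/π) int_0^π hb (β) sin β G1J / (J - 2 cos β)^2 dβ`.
`lin`: `G F t φ - G J t φ = sum g_n z^(-n)`, `g_1 = b_1 - 1`, `g_n = b_n`. `J`, `G1 J` are
conjugated by `φ -> -φ` and `z^(-n)` too, so `Re (conj J(φ) g_n z^-n) + Re (conj J(-φ) g_n zbar^-n)
= 2 Re g_n Re (conj J(φ) z^-n)`: the first two terms of the left side are
`2 Re (conj J(φ) GR(φ))`, the other two `2 Re (conj J(φ+π) GR(φ+π))`. By `GR_eq` the left side is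
`-(4/π) int_0^π hb sin β [Re (conj J G1J / (J - 2 cos β)^2) + Re (conj J G1J / (J + 2 cos β)^2)]`
(`G J t (φ+π) = - G J t φ`, same for `G1 J`), and by `kpos`, `hb_nonneg`, `hb_sin` (`m = 1`)
it is `<= (4/π) (2 / tanh t) (π/2) (1 - Re b_1) = 4 (1 - Re b_1) / tanh t`.
-/

open Complex MeasureTheory Set Filter Topology
open scoped ComplexConjugate Real

namespace Pool.Agent.H36.SZ

variable {F : ℂ → ℂ} {b : ℕ → ℂ} {q : ℝ}

private theorem G1_J' (t φ : ℝ) : G1 J t φ = exp (t + φ * I) - (exp (t + φ * I))⁻¹ := by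
  rw [G1_J, ← exp_neg, show -((t : ℂ) + φ * I) = (-t : ℂ) + ((-φ : ℝ) : ℂ) * I by push_cast; ring,
    exp_add, exp_add, exp_mul_I, exp_mul_I]
  push_cast
  rw [Complex.cos_neg, Complex.sin_neg, Complex.sinh, Complex.cosh]
  ring

theorem ksum {t : ℝ} (ht : 0 < t) (φ β : ℝ) :
    HasSum (fun n : ℕ => (n : ℂ) * Real.sin (n * β) * exp (-((n : ℂ) * (t + φ * I))))
      (Real.sin β * G1 J t φ / (G J t φ - 2 * Real.cos β) ^ 2) := by
  have hJ : G J t φ = exp (t + φ * I) + (exp (t + φ * I))⁻¹ := rfl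
  have hne := GJ_ne ht φ β
  have hG1 := G1_J' t φ
  have e1 : ∀ n : ℕ, exp (-((n : ℂ) * (t + φ * I))) = (exp (t + φ * I))⁻¹ ^ n := by
    intro n
    rw [← exp_neg, ← exp_nat_mul]
    congr 1
    ring
  have hnz : ‖exp ((t : ℂ) + φ * I)‖ = Real.exp t := by rw [norm_exp]; simp
  have hz1 : 1 < ‖exp ((t : ℂ) + φ * I)‖ := by rw [hnz]; exact Real.one_lt_exp_iff.2 ht
  have hz0 : exp ((t : ℂ) + φ * I) ≠ 0 := exp_ne_zero _
  have hu0 : exp ((β : ℂ) * I) ≠ 0 := exp_ne_zero _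
  have hnu : ‖exp ((β : ℂ) * I)‖ = 1 := norm_exp_ofReal_mul_I β
  have e2 : ∀ n : ℕ, ((Real.sin (n * β) : ℝ) : ℂ) =
      ((exp ((β : ℂ) * I))⁻¹ ^ n - exp ((β : ℂ) * I) ^ n) * I / 2 := by
    intro n
    rw [ofReal_sin, Complex.sin, ← exp_neg, ← exp_nat_mul, ← exp_nat_mul]
    have a1 : -(((n : ℝ) * β : ℝ) : ℂ) * I = (n : ℂ) * -((β : ℂ) * I) := by push_cast; ring
    have a2 : (((n : ℝ) * β : ℝ) : ℂ) * I = (n : ℂ) * ((β : ℂ) * I) := by push_cast; ring
    rw [a1, a2]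
  have e3 : ((Real.sin β : ℝ) : ℂ) = ((exp ((β : ℂ) * I))⁻¹ - exp ((β : ℂ) * I)) * I / 2 := by
    have := e2 1
    simpa using this
  have e4 : (2 : ℂ) * ((Real.cos β : ℝ) : ℂ) = exp ((β : ℂ) * I) + (exp ((β : ℂ) * I))⁻¹ := by
    rw [ofReal_cos, Complex.cos, ← exp_neg, neg_mul]
    ring
  rw [hJ, hG1, e3, e4]
  rw [hJ, e4] at hne
  simp only [e1, e2]
  generalize exp ((t : ℂ) + φ * I) = z at *
  generalize exp ((β : ℂ) * I) = u at *
  have h1 : ‖u * z⁻¹‖ < 1 := by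
    rw [norm_mul, norm_inv, hnu, one_mul]; exact inv_lt_one_of_one_lt₀ hz1
  have h2 : ‖u⁻¹ * z⁻¹‖ < 1 := by
    rw [norm_mul, norm_inv, norm_inv, hnu, inv_one, one_mul]; exact inv_lt_one_of_one_lt₀ hz1
  have hA : 1 - u * z⁻¹ ≠ 0 := by
    intro h0
    have : u * z⁻¹ = 1 := by linear_combination -h0
    rw [this, norm_one] at h1
    exact lt_irrefl _ h1
  have hB : 1 - u⁻¹ * z⁻¹ ≠ 0 := by
    intro h0
    have : u⁻¹ * z⁻¹ = 1 := by linear_combination -h0
    rw [this, norm_one] at h2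
    exact lt_irrefl _ h2
  have s1 := hasSum_coe_mul_geometric_of_norm_lt_one h1
  have s2 := hasSum_coe_mul_geometric_of_norm_lt_one h2
  have s := (s2.sub s1).mul_left (I / 2)
  have hval : I / 2 * (u⁻¹ * z⁻¹ / (1 - u⁻¹ * z⁻¹) ^ 2 - u * z⁻¹ / (1 - u * z⁻¹) ^ 2) =
      (u⁻¹ - u) * I / 2 * (z - z⁻¹) / (z + z⁻¹ - (u + u⁻¹)) ^ 2 := by
    have hD : z + z⁻¹ - (u + u⁻¹) = (1 - u * z⁻¹) * (1 - u⁻¹ * z⁻¹) * z := by
      field_simp
      ring
    rw [hD, div_sub_div _ _ (pow_ne_zero 2 hB) (pow_ne_zero 2 hA)]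
    have hn : u⁻¹ * z⁻¹ * (1 - u * z⁻¹) ^ 2 - (1 - u⁻¹ * z⁻¹) ^ 2 * (u * z⁻¹) =
        (u⁻¹ - u) * (z - z⁻¹) * z⁻¹ ^ 2 := by
      field_simp
      ring
    rw [hn]
    generalize 1 - u * z⁻¹ = A at *
    generalize 1 - u⁻¹ * z⁻¹ = B at *
    field_simp
  rw [hval] at s
  have hf : (fun n : ℕ => (n : ℂ) * ((u⁻¹ ^ n - u ^ n) * I / 2) * z⁻¹ ^ n) =
      fun n : ℕ => I / 2 * ((n : ℂ) * (u⁻¹ * z⁻¹) ^ n - (n : ℂ) * (u * z⁻¹) ^ n) := by
    funext n
    rw [mul_pow, mul_pow]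
    ring
  rw [hf]
  exact s

/-- the real part of the coefficients -/
noncomputable def GR (b : ℕ → ℂ) (t φ : ℝ) : ℂ :=
  ∑' n : ℕ, (((b n).re - (if n = 1 then 1 else 0) : ℝ) : ℂ) * exp (-((n : ℂ) * (t + φ * I)))

theorem Sg.GR_eq (h : Sg F b q) {t : ℝ} (ht : 0 < t) (φ : ℝ) :
    GR b t φ = -(2 / π : ℝ) * ∫ β in (0 : ℝ)..π,
      (hb b β : ℂ) * (Real.sin β * G1 J t φ / (G J t φ - 2 * Real.cos β) ^ 2) := by
  obtain ⟨C, hC⟩ := (isCompact_Icc (a := (0 : ℝ)) (b := π)).exists_bound_of_continuousOn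
    h.hb_cont.continuousOn
  have hcont := h.hb_cont
  have hr : ‖Real.exp (-t)‖ < 1 := by
    rw [Real.norm_eq_abs, abs_of_pos (Real.exp_pos _), Real.exp_lt_one_iff]; linarith
  have key : HasSum (fun n : ℕ => ∫ β in (0 : ℝ)..π,
      (hb b β : ℂ) * ((n : ℂ) * Real.sin (n * β) * exp (-((n : ℂ) * (t + φ * I)))))
      (∫ β in (0 : ℝ)..π,
        (hb b β : ℂ) * (Real.sin β * G1 J t φ / (G J t φ - 2 * Real.cos β) ^ 2)) := by
    refine intervalIntegral.hasSum_integral_of_dominated_convergence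
      (fun n _ => C * ((n : ℝ) * Real.exp (-t) ^ n)) ?_ ?_ ?_ ?_ ?_
    · intro n
      exact Continuous.aestronglyMeasurable (by fun_prop)
    · intro n
      refine ae_of_all _ fun β hβ => ?_
      rw [uIoc_of_le Real.pi_pos.le] at hβ
      rw [norm_mul, norm_real]
      refine mul_le_mul (hC β ⟨hβ.1.le, hβ.2⟩) ?_ (norm_nonneg _)
        ((norm_nonneg _).trans (hC β ⟨hβ.1.le, hβ.2⟩))
      rw [norm_mul, norm_mul, norm_exp, norm_real, norm_natCast, Real.norm_eq_abs]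
      have e1 : (-((n : ℂ) * (t + φ * I))).re = n * -t := by simp
      rw [e1, Real.exp_nat_mul]
      refine mul_le_mul_of_nonneg_right ?_ (by positivity)
      calc (n : ℝ) * |Real.sin (n * β)| ≤ n * 1 :=
            mul_le_mul_of_nonneg_left (Real.abs_sin_le_one _) (Nat.cast_nonneg n)
        _ = n := mul_one _
    · exact ae_of_all _ fun β _ =>
        (hasSum_coe_mul_geometric_of_norm_lt_one hr).summable.mul_left C
    · exact intervalIntegrable_const
    · exact ae_of_all _ fun β _ => (ksum ht φ β).mul_left _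
  have hterm : ∀ n : ℕ, (((b n).re - (if n = 1 then 1 else 0) : ℝ) : ℂ) *
      exp (-((n : ℂ) * (t + φ * I))) = -(2 / π : ℝ) * ∫ β in (0 : ℝ)..π,
        (hb b β : ℂ) * ((n : ℂ) * Real.sin (n * β) * exp (-((n : ℂ) * (t + φ * I)))) := by
    intro n
    have e1 : (∫ β in (0 : ℝ)..π,
        (hb b β : ℂ) * ((n : ℂ) * Real.sin (n * β) * exp (-((n : ℂ) * (t + φ * I))))) =
        ((n : ℂ) * exp (-((n : ℂ) * (t + φ * I)))) *
          ((∫ β in (0 : ℝ)..π, hb b β * Real.sin (n * β) : ℝ) : ℂ) := by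
      rw [← intervalIntegral.integral_ofReal, ← intervalIntegral.integral_const_mul]
      congr 1
      funext β
      push_cast
      ring
    rw [e1]
    rcases Nat.eq_zero_or_pos n with hn | hn
    · subst hn
      simp [h.b0]
    · rw [h.hb_sin hn]
      have hn0 : (n : ℂ) ≠ 0 := by exact_mod_cast hn.ne'
      have hpi : ((π : ℝ) : ℂ) ≠ 0 := by exact_mod_cast Real.pi_ne_zero
      by_cases h1 : n = 1
      · subst h1
        simp only [if_true]
        push_cast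
        field_simp
        ring
      · simp only [h1, if_false]
        push_cast
        field_simp
        ring
  unfold GR
  rw [tsum_congr hterm, tsum_mul_left, key.tsum_eq]

private theorem G_J_neg (t φ : ℝ) : G J t (-φ) = conj (G J t φ) := by
  rw [G_J, G_J]
  apply Complex.ext
  · simp [-Complex.ofReal_cosh, -Complex.ofReal_sinh, -Complex.ofReal_cos, -Complex.ofReal_sin]
  · simp [-Complex.ofReal_cosh, -Complex.ofReal_sinh, -Complex.ofReal_cos, -Complex.ofReal_sin]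

theorem Sg.GR_sym (h : Sg F b q) {t : ℝ} (ht : 0 < t) (φ : ℝ) :
    (conj (G J t φ) * (G F t φ - G J t φ)).re + (conj (G J t (-φ)) * (G F t (-φ) - G J t (-φ))).re =
      2 * (conj (G J t φ) * GR b t φ).re := by
  have e1 : ∀ (ψ : ℝ) (n : ℕ), (exp ((t : ℂ) + ψ * I))⁻¹ ^ n =
      exp (-((n : ℂ) * (t + ψ * I))) := by
    intro ψ n
    rw [← exp_neg, ← exp_nat_mul]
    congr 1
    ring
  have hs : ∀ ψ : ℝ, HasSum (fun n : ℕ => (b n - (if n = 1 then 1 else 0)) *
      exp (-((n : ℂ) * (t + ψ * I)))) (G F t ψ - G J t ψ) := by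
    intro ψ
    have hz : q < ‖exp ((t : ℂ) + ψ * I)‖ := by
      rw [norm_exp]
      simpa using lt_trans h.q1 (Real.one_lt_exp_iff.2 ht)
    have h1 := h.hasSum _ hz
    have h2 : HasSum (fun n : ℕ => if n = 1 then (exp ((t : ℂ) + ψ * I))⁻¹ else 0)
        (exp ((t : ℂ) + ψ * I))⁻¹ := hasSum_ite_eq 1 _
    have h3 := h1.sub h2
    have hv : G F t ψ - G J t ψ =
        F (exp ((t : ℂ) + ψ * I)) - exp ((t : ℂ) + ψ * I) - (exp ((t : ℂ) + ψ * I))⁻¹ := by
      unfold G J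
      ring
    rw [hv]
    have hf : (fun n : ℕ => (b n - (if n = 1 then 1 else 0)) *
        exp (-((n : ℂ) * (t + ψ * I)))) = fun n : ℕ => b n * (exp ((t : ℂ) + ψ * I))⁻¹ ^ n -
          (if n = 1 then (exp ((t : ℂ) + ψ * I))⁻¹ else 0) := by
      funext n
      rw [← e1]
      by_cases hn : n = 1
      · subst hn
        simp only [if_true, pow_one]
        ring
      · simp only [hn, if_false]
        ring
    rw [hf]
    exact h3
  have s1 := hs φ
  have s2 := (hs (-φ)).map (starRingEnd ℂ) continuous_conj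
  have s3 := s1.add s2
  have hsum : (G F t φ - G J t φ) + conj (G F t (-φ) - G J t (-φ)) = 2 * GR b t φ := by
    rw [← s3.tsum_eq, GR, ← tsum_mul_left]
    refine tsum_congr fun n => ?_
    have e2 : conj (exp (-((n : ℂ) * (t + ((-φ : ℝ) : ℂ) * I)))) =
        exp (-((n : ℂ) * (t + φ * I))) := by
      rw [← exp_conj]
      congr 1
      simp
    have e3 : conj (b n - (if n = 1 then 1 else 0)) = conj (b n) - (if n = 1 then 1 else 0) := by
      split_ifs <;> simp
    simp only [Function.comp_apply, map_mul]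
    rw [e2, e3]
    have e4 : conj (b n) = 2 * ((b n).re : ℂ) - b n := by
      apply Complex.ext
      · simp; ring
      · simp
    rw [e4]
    split_ifs <;> push_cast <;> ring
  have e5 : (conj (G J t (-φ)) * (G F t (-φ) - G J t (-φ))).re =
      (conj (G J t φ) * conj (G F t (-φ) - G J t (-φ))).re := by
    rw [← map_mul, conj_re, G_J_neg, conj_conj]
  rw [e5, ← add_re, ← mul_add, hsum]
  have e6 : conj (G J t φ) * (2 * GR b t φ) = ((2 : ℝ) : ℂ) * (conj (G J t φ) * GR b t φ) := by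
    push_cast
    ring
  rw [e6, re_ofReal_mul]

private theorem G_J_pi (t φ : ℝ) : G J t (φ + π) = -G J t φ := by
  rw [G_J, G_J, Real.cos_add_pi, Real.sin_add_pi]
  push_cast
  ring

private theorem G1_J_pi (t φ : ℝ) : G1 J t (φ + π) = -G1 J t φ := by
  rw [G1_J, G1_J, Real.cos_add_pi, Real.sin_add_pi]
  push_cast
  ring

theorem Sg.lin (h : Sg F b q) {t φ : ℝ} (ht : 0 < t) (hφ : yy J t φ ≤ xd t) :
    (conj (G J t φ) * (G F t φ - G J t φ)).re + (conj (G J t (-φ)) * (G F t (-φ) - G J t (-φ))).re +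
      (conj (G J t (φ + π)) * (G F t (φ + π) - G J t (φ + π))).re +
      (conj (G J t (-(φ + π))) * (G F t (-(φ + π)) - G J t (-(φ + π)))).re ≤
      4 * (1 - (b 1).re) / Real.tanh t := by
  have hcont := h.hb_cont
  have hT : 0 < Real.tanh t := by
    rw [Real.tanh_eq_sinh_div_cosh]
    exact div_pos (Real.sinh_pos_iff.2 ht) (Real.cosh_pos t)
  have a1 := h.GR_sym ht φ
  have a2 := h.GR_sym ht (φ + π)
  have hne1 : ∀ β : ℝ, G J t φ - 2 * Real.cos β ≠ 0 := fun β => GJ_ne ht φ β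
  have hne2 : ∀ β : ℝ, G J t φ + 2 * Real.cos β ≠ 0 := by
    intro β h0
    have := GJ_ne ht (φ + π) β
    rw [G_J_pi] at this
    apply this
    linear_combination -h0
  have hne1' : ∀ β : ℝ, (G J t φ - 2 * Real.cos β) ^ 2 ≠ 0 := fun β => pow_ne_zero 2 (hne1 β)
  have hne2' : ∀ β : ℝ, (G J t φ + 2 * Real.cos β) ^ 2 ≠ 0 := fun β => pow_ne_zero 2 (hne2 β)
  -- the two real functions
  set k1 : ℝ → ℝ := fun β =>
    (conj (G J t φ) * G1 J t φ / (G J t φ - 2 * Real.cos β) ^ 2).re with hk1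
  set k2 : ℝ → ℝ := fun β =>
    (conj (G J t φ) * G1 J t φ / (G J t φ + 2 * Real.cos β) ^ 2).re with hk2
  have ck1 : Continuous k1 := by
    refine continuous_re.comp (Continuous.div (by fun_prop) (by fun_prop) hne1')
  have ck2 : Continuous k2 := by
    refine continuous_re.comp (Continuous.div (by fun_prop) (by fun_prop) hne2')
  have b1 : (conj (G J t φ) * GR b t φ).re =
      -(2 / π) * ∫ β in (0 : ℝ)..π, hb b β * Real.sin β * k1 β := by
    rw [h.GR_eq ht φ]
    have hi : IntervalIntegrable (fun β : ℝ => conj (G J t φ) * ((hb b β : ℂ) *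
        (Real.sin β * G1 J t φ / (G J t φ - 2 * Real.cos β) ^ 2))) volume 0 π := by
      refine Continuous.intervalIntegrable ?_ _ _
      refine Continuous.mul (by fun_prop) (Continuous.mul (by fun_prop) ?_)
      exact Continuous.div (by fun_prop) (by fun_prop) hne1'
    have e1 : conj (G J t φ) * (-(2 / π : ℝ) * ∫ β in (0 : ℝ)..π,
        (hb b β : ℂ) * (Real.sin β * G1 J t φ / (G J t φ - 2 * Real.cos β) ^ 2)) =
        ((-(2 / π) : ℝ) : ℂ) * ∫ β in (0 : ℝ)..π, conj (G J t φ) * ((hb b β : ℂ) *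
        (Real.sin β * G1 J t φ / (G J t φ - 2 * Real.cos β) ^ 2)) := by
      rw [intervalIntegral.integral_const_mul]
      push_cast
      ring
    rw [e1, re_ofReal_mul]
    congr 1
    have e2 := Complex.reCLM.intervalIntegral_comp_comm hi
    rw [Complex.reCLM_apply] at e2
    rw [← e2]
    congr 1
    funext β
    rw [Complex.reCLM_apply, hk1]
    have e3 : conj (G J t φ) * ((hb b β : ℂ) *
        (Real.sin β * G1 J t φ / (G J t φ - 2 * Real.cos β) ^ 2)) =
        ((hb b β * Real.sin β : ℝ) : ℂ) *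
          (conj (G J t φ) * G1 J t φ / (G J t φ - 2 * Real.cos β) ^ 2) := by
      push_cast
      ring
    rw [e3, re_ofReal_mul]
  have b2 : (conj (G J t (φ + π)) * GR b t (φ + π)).re =
      -(2 / π) * ∫ β in (0 : ℝ)..π, hb b β * Real.sin β * k2 β := by
    rw [h.GR_eq ht (φ + π)]
    have hi : IntervalIntegrable (fun β : ℝ => conj (G J t φ) * ((hb b β : ℂ) *
        (Real.sin β * G1 J t φ / (G J t φ + 2 * Real.cos β) ^ 2))) volume 0 π := by
      refine Continuous.intervalIntegrable ?_ _ _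
      refine Continuous.mul (by fun_prop) (Continuous.mul (by fun_prop) ?_)
      exact Continuous.div (by fun_prop) (by fun_prop) hne2'
    have e0 : ∀ β : ℝ, (hb b β : ℂ) * (Real.sin β * G1 J t (φ + π) /
        (G J t (φ + π) - 2 * Real.cos β) ^ 2) = -((hb b β : ℂ) *
        (Real.sin β * G1 J t φ / (G J t φ + 2 * Real.cos β) ^ 2)) := by
      intro β
      rw [G_J_pi, G1_J_pi, show (-G J t φ - 2 * (Real.cos β : ℂ)) ^ 2 =
        (G J t φ + 2 * Real.cos β) ^ 2 by ring]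
      ring
    have e1 : conj (G J t (φ + π)) * (-(2 / π : ℝ) * ∫ β in (0 : ℝ)..π,
        (hb b β : ℂ) * (Real.sin β * G1 J t (φ + π) / (G J t (φ + π) - 2 * Real.cos β) ^ 2)) =
        ((-(2 / π) : ℝ) : ℂ) * ∫ β in (0 : ℝ)..π, conj (G J t φ) * ((hb b β : ℂ) *
        (Real.sin β * G1 J t φ / (G J t φ + 2 * Real.cos β) ^ 2)) := by
      simp only [e0]
      rw [intervalIntegral.integral_const_mul, intervalIntegral.integral_neg, G_J_pi, map_neg]
      push_cast
      ring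
    rw [e1, re_ofReal_mul]
    congr 1
    have e2 := Complex.reCLM.intervalIntegral_comp_comm hi
    rw [Complex.reCLM_apply] at e2
    rw [← e2]
    congr 1
    funext β
    rw [Complex.reCLM_apply, hk2]
    have e3 : conj (G J t φ) * ((hb b β : ℂ) *
        (Real.sin β * G1 J t φ / (G J t φ + 2 * Real.cos β) ^ 2)) =
        ((hb b β * Real.sin β : ℝ) : ℂ) *
          (conj (G J t φ) * G1 J t φ / (G J t φ + 2 * Real.cos β) ^ 2) := by
      push_cast
      ring
    rw [e3, re_ofReal_mul]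
  have i1 : IntervalIntegrable (fun β => hb b β * Real.sin β * k1 β) volume 0 π :=
    Continuous.intervalIntegrable (by fun_prop) _ _
  have i2 : IntervalIntegrable (fun β => hb b β * Real.sin β * k2 β) volume 0 π :=
    Continuous.intervalIntegrable (by fun_prop) _ _
  have hmono : ∫ β in (0 : ℝ)..π, hb b β * Real.sin β * (-(2 / Real.tanh t)) ≤
      ∫ β in (0 : ℝ)..π, (hb b β * Real.sin β * k1 β + hb b β * Real.sin β * k2 β) := by
    refine intervalIntegral.integral_mono_on Real.pi_pos.le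
      (Continuous.intervalIntegrable (by fun_prop) _ _) (i1.add i2) fun β hβ => ?_
    rw [← mul_add]
    refine mul_le_mul_of_nonneg_left (kpos ht hφ β) ?_
    exact mul_nonneg (h.hb_nonneg hβ.1 hβ.2) (Real.sin_nonneg_of_mem_Icc hβ)
  rw [intervalIntegral.integral_add i1 i2, intervalIntegral.integral_mul_const] at hmono
  have hs := h.hb_sin (m := 1) le_rfl
  simp only [Nat.cast_one, one_mul, if_true, div_one] at hs
  rw [hs] at hmono
  rw [add_assoc, a2, a1, b1, b2]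
  have hpi := Real.pi_pos
  have e9 : 2 * (-(2 / π) * ∫ β in (0 : ℝ)..π, hb b β * Real.sin β * k1 β) +
      2 * (-(2 / π) * ∫ β in (0 : ℝ)..π, hb b β * Real.sin β * k2 β) =
      -(4 / π) * ((∫ β in (0 : ℝ)..π, hb b β * Real.sin β * k1 β) +
        ∫ β in (0 : ℝ)..π, hb b β * Real.sin β * k2 β) := by ring
  rw [e9]
  have e10 : 4 * (1 - (b 1).re) / Real.tanh t =
      -(4 / π) * (π / 2 * (1 - (b 1).re) * (-(2 / Real.tanh t))) := by
    field_simp
  rw [e10]
  refine mul_le_mul_of_nonpos_left hmono ?_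
  rw [neg_nonpos]
  positivity

end Pool.Agent.H36.SZ
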