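import Pool.Agent.H36.SZ.LpI

/-!
# Levels `x <= 2 cosh 2t`, `t >= 3/2`: the numerical inequality

PROOF. `Q = e^(-2t) <= e^(-3) < 0.0498`, `2K = 1/Q + Q`, `tanh t = (1-Q)/(1+Q)`,
`1/K <= 2Q`, `1/(K(K-1)) <= 4Q^2 / (1-2Q)` (`K - 1 >= (1-2Q)/(2Q)`). So
`Iu <= 2Q + π Q^2/(1-2Q)`, `Gu <= π Q + 16 Q^2 / (3(1-2Q))`.
The first expression decreases with `ε`, the right side of the second increases, so it is enough
that both hold at `ε1 = 9/25`. At `ε1` both, divided by `Q`, are monotone in `Q`, at `Q = 0.0498`: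
first: `1.64 (π (1 - Q/2) - (4/3) (Iu/Q) La) - 2 (Iu/Q)(1+Q)/(1-Q) - 4 (Iu/Q) ε1 Q = 0.058 > 0`
(`Iu/Q = 2.1738`, `La = 0.00129`); second: `2π ε1 (2 - ε1)(1 - Q/2) = 3.617 >= π + 0.295 = 3.437`.
-/

open Complex MeasureTheory Set Filter Topology
open scoped ComplexConjugate Real

namespace Pool.Agent.H36.SZ

theorem Iu_nonneg {t : ℝ} (ht : 0 < t) : 0 ≤ Iu t := by
  have h1 : 1 < Real.cosh (2 * t) := Real.one_lt_cosh.2 (by positivity)
  have h2 : 0 < Real.cosh (2 * t) - 1 := by linarith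
  have h3 : 0 < Real.cosh (2 * t) := by linarith
  have hp := Real.pi_pos
  unfold Iu
  positivity

/-- `Q <= 0.0498` for `t >= 3/2`. -/
theorem Qe_le {t : ℝ} (ht : 3 / 2 ≤ t) : Qe t ≤ 249 / 5000 := by
  have h1 : Qe t ≤ Real.exp (-3) := by
    unfold Qe
    exact Real.exp_le_exp.2 (by linarith)
  have h2 : Real.exp (-3) = Real.exp (-1) ^ 3 := by
    rw [← Real.exp_nat_mul]
    norm_num
  have h3 : Real.exp (-1) ≤ 3679 / 10000 := by
    have := Real.exp_neg_one_lt_d9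
    linarith
  have h4 : Real.exp (-1) ^ 3 ≤ (3679 / 10000 : ℝ) ^ 3 :=
    pow_le_pow_left₀ (Real.exp_pos _).le h3 3
  have h5 : (3679 / 10000 : ℝ) ^ 3 ≤ 249 / 5000 := by norm_num
  linarith [h2]

theorem cosh_Qe (t : ℝ) : Real.cosh (2 * t) = (1 + Qe t ^ 2) / (2 * Qe t) := by
  have h0 : 0 < Qe t := Real.exp_pos _
  have h1 : Real.exp (2 * t) = 1 / Qe t := by
    unfold Qe
    rw [Real.exp_neg]
    simp
  have h2 : Real.exp (-(2 * t)) = Qe t := rfl
  rw [Real.cosh_eq, h1, h2]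
  field_simp

theorem tanh_Qe (t : ℝ) : Real.tanh t = (1 - Qe t) / (1 + Qe t) := by
  have h0 : 0 < Qe t := Real.exp_pos _
  have he : 0 < Real.exp t := Real.exp_pos _
  have h1 : Real.exp (-t) = Real.exp t * Qe t := by
    unfold Qe
    rw [← Real.exp_add]
    congr 1
    ring
  rw [Real.tanh_eq_sinh_div_cosh, Real.sinh_eq, Real.cosh_eq, h1]
  have h2 : Real.exp t + Real.exp t * Qe t ≠ 0 := by positivity
  have h3 : (1 + Qe t) ≠ 0 := by positivity
  field_simp

theorem num2 {t ε : ℝ} (ht : 3 / 2 ≤ t) (h0 : 0 ≤ ε) (h1 : ε ≤ 1) :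
    0 ≤ (2 - ε) * (π * Qe t * (1 - Qe t / 2) - 4 / 3 * Iu t * La t) - 2 * Iu t / Real.tanh t -
        4 * Iu t * ε * Qe t ∨
      Gu t ≤ 2 * π * (ε * (2 - ε) * Qe t * (1 - Qe t / 2)) := by
  have hQ0 : 0 < Qe t := Real.exp_pos _
  have hQ1 := Qe_le ht
  have hI0 : 0 ≤ Iu t := Iu_nonneg (by linarith)
  have hp1 : (3.1415 : ℝ) < π := Real.pi_gt_d4
  have hp2 : π < (3.1416 : ℝ) := Real.pi_lt_d4
  have hc := cosh_Qe t
  have hth := tanh_Qe t
  set Q := Qe t with hQ
  have hK : 1 / Real.cosh (2 * t) ≤ 2 * Q := by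
    rw [hc, one_div_div, div_le_iff₀ (by positivity)]
    nlinarith [mul_pos hQ0 (mul_pos hQ0 hQ0)]
  have hK1 : Real.cosh (2 * t) - 1 = (1 - Q) ^ 2 / (2 * Q) := by
    rw [hc]
    field_simp
    ring
  have hKK : 1 / (Real.cosh (2 * t) * (Real.cosh (2 * t) - 1)) ≤ 111 / 25 * Q ^ 2 := by
    rw [hK1, hc]
    have h9 : 0 < (1 - Q) ^ 2 := by
      have : 0 < 1 - Q := by linarith
      positivity
    have h8 : 1 / ((1 + Q ^ 2) / (2 * Q) * ((1 - Q) ^ 2 / (2 * Q))) =
        4 * Q ^ 2 / ((1 + Q ^ 2) * (1 - Q) ^ 2) := by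
      field_simp
      ring
    rw [h8, div_le_iff₀ (by positivity)]
    have h7 : (0.9 : ℝ) + 1 / 1000 ≤ (1 - Q) ^ 2 := by nlinarith
    have h6 : (1 - Q) ^ 2 ≤ (1 + Q ^ 2) * (1 - Q) ^ 2 := by nlinarith [sq_nonneg Q]
    have h5 : 4 * Q ^ 2 ≤ 111 / 25 * Q ^ 2 * (0.9 + 1 / 1000) := by nlinarith [sq_nonneg Q]
    have h4 : 111 / 25 * Q ^ 2 * (0.9 + 1 / 1000) ≤ 111 / 25 * Q ^ 2 * ((1 + Q ^ 2) * (1 - Q) ^ 2) :=
      mul_le_mul_of_nonneg_left (by linarith) (by positivity)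
    linarith
  have hKK0 : 0 < 1 / (Real.cosh (2 * t) * (Real.cosh (2 * t) - 1)) := by
    rw [hK1, hc]
    have : 0 < 1 - Q := by linarith
    positivity
  -- `Iu <= 2.1738 Q`
  have hI : Iu t ≤ 10869 / 5000 * Q := by
    have e1 : Iu t = 1 / Real.cosh (2 * t) +
        π / 4 * (1 / (Real.cosh (2 * t) * (Real.cosh (2 * t) - 1))) := by
      unfold Iu
      have : Real.cosh (2 * t) * (Real.cosh (2 * t) - 1) ≠ 0 := by
        intro h
        rw [h] at hKK0
        simp at hKK0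
      field_simp
    have e2 : π / 4 * (1 / (Real.cosh (2 * t) * (Real.cosh (2 * t) - 1))) ≤
        3.1416 / 4 * (111 / 25 * Q ^ 2) := by
      apply mul_le_mul (by linarith) hKK hKK0.le (by norm_num)
    have e3 : 3.1416 / 4 * (111 / 25 * Q ^ 2) ≤ 869 / 5000 * Q := by nlinarith
    linarith
  -- `Gu <= 3.438 Q`
  have hG : Gu t ≤ 3438 / 1000 * Q := by
    have e1 : Gu t = π / 2 * (1 / Real.cosh (2 * t)) +
        4 / 3 * (1 / (Real.cosh (2 * t) * (Real.cosh (2 * t) - 1))) := by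
      unfold Gu
      have : Real.cosh (2 * t) * (Real.cosh (2 * t) - 1) ≠ 0 := by
        intro h
        rw [h] at hKK0
        simp at hKK0
      have h3 : Real.cosh (2 * t) ≠ 0 := (Real.cosh_pos _).ne'
      field_simp
    have e2 : π / 2 * (1 / Real.cosh (2 * t)) ≤ 3.1416 / 2 * (2 * Q) := by
      apply mul_le_mul (by linarith) hK (by positivity) (by norm_num)
    have e3 : 4 / 3 * (111 / 25 * Q ^ 2) ≤ 37 / 125 * Q := by nlinarith
    have e4 : 4 / 3 * (1 / (Real.cosh (2 * t) * (Real.cosh (2 * t) - 1))) ≤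
      4 / 3 * (111 / 25 * Q ^ 2) := by linarith
    have e5 : (3.1416 : ℝ) / 2 * (2 * Q) = 3.1416 * Q := by ring
    linarith
  have hLa : La t ≤ 129 / 100000 := by
    unfold La
    rw [← hQ]
    have e1 : Q ^ 2 / 2 ≤ 12401 / 10000000 := by nlinarith
    have e2 : Q ^ 3 / (3 * (1 - Q)) ≤ 44 / 1000000 := by
      rw [div_le_iff₀ (by linarith)]
      have : Q ^ 3 ≤ (249 / 5000 : ℝ) ^ 3 := pow_le_pow_left₀ hQ0.le hQ1 3
      norm_num at this
      linarith
    linarith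
  have hLa0 : 0 ≤ La t := by
    unfold La
    rw [← hQ]
    have : 0 < 1 - Q := by linarith
    positivity
  rcases le_total ε (9 / 25) with he | he
  · left
    have a1 : 4 / 3 * Iu t * La t ≤ 4 / 3 * (10869 / 5000 * Q) * (129 / 100000) := by
      apply mul_le_mul (by linarith) hLa hLa0 (by positivity)
    have a2 : 3.1415 * Q * (1 - 249 / 10000) ≤ π * Q * (1 - Q / 2) := by
      apply mul_le_mul _ (by linarith) (by norm_num) (by positivity)
      exact mul_le_mul_of_nonneg_right hp1.le hQ0.le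
    have a3 : 3.059 * Q ≤ π * Q * (1 - Q / 2) - 4 / 3 * Iu t * La t := by nlinarith
    have a4 : 1.64 * (3.059 * Q) ≤
        (2 - ε) * (π * Q * (1 - Q / 2) - 4 / 3 * Iu t * La t) := by
      apply mul_le_mul (by linarith) a3 (by positivity) (by linarith)
    have a5 : 2 * Iu t / Real.tanh t ≤ 4.807 * Q := by
      rw [hth]
      have : 0 < 1 - Q := by linarith
      rw [div_div_eq_mul_div, div_le_iff₀ this]
      have b1 : 2 * Iu t * (1 + Q) ≤ 2 * (10869 / 5000 * Q) * (1 + 249 / 5000) := by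
        apply mul_le_mul (by linarith) (by linarith) (by linarith) (by positivity)
      have b2 : 4.807 * Q * (1 - 249 / 5000) ≤ 4.807 * Q * (1 - Q) :=
        mul_le_mul_of_nonneg_left (by linarith) (by positivity)
      nlinarith
    have a6 : 4 * Iu t * ε * Q ≤ 4 * (10869 / 5000 * Q) * (9 / 25) * (249 / 5000) := by
      apply mul_le_mul _ hQ1 hQ0.le (by positivity)
      apply mul_le_mul (by linarith) he h0 (by positivity)
    nlinarith
  · right
    have a1 : (369 / 625 : ℝ) ≤ ε * (2 - ε) := by nlinarith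
    have a2 : 369 / 625 * Q * (1 - 249 / 10000) ≤ ε * (2 - ε) * Q * (1 - Q / 2) := by
      apply mul_le_mul _ (by linarith) (by norm_num) (by positivity)
      exact mul_le_mul_of_nonneg_right a1 hQ0.le
    have a3 : 2 * 3.1415 * (369 / 625 * Q * (1 - 249 / 10000)) ≤
        2 * π * (ε * (2 - ε) * Q * (1 - Q / 2)) := by
      apply mul_le_mul (by linarith) a2 _ (by positivity)
      have : 0 ≤ 369 / 625 * Q * (1 - 249 / 10000) := by
        have : 0 < Q := hQ0
        nlinarith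
      exact this
    nlinarith

end Pool.Agent.H36.SZ
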