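import Pool.Agent.H36.SZ.LpL
import Pool.Agent.H36.SZ.LpN

/-!
# Levels `x <= 2 cosh 2t`, `t >= 3/2`

As `Lo.lean`, with `lin2`, `int_W2`, `int_WX2`, `num2`.
-/

open Complex MeasureTheory Set Filter Topology
open scoped ComplexConjugate Real

namespace Pool.Agent.H36.SZ

variable {F : ℂ → ℂ} {b : ℕ → ℂ} {q : ℝ}

theorem cosh_ge {t : ℝ} (ht : 3 / 2 ≤ t) : 5 / 2 ≤ Real.cosh (2 * t) := by
  have h1 : (3 : ℝ) + 1 ≤ Real.exp 3 := Real.add_one_le_exp 3
  have h0 : Real.exp 1 ≥ 2 := by
    have := Real.add_one_le_exp (1 : ℝ)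
    linarith
  have h2 : Real.exp 3 ≤ Real.exp (2 * t) := Real.exp_le_exp.2 (by linarith)
  have h3 : Real.exp 3 = Real.exp 1 ^ 3 := by
    rw [← Real.exp_nat_mul]
    norm_num
  have h4 : (8 : ℝ) ≤ Real.exp 3 := by
    rw [h3]
    have : (2 : ℝ) ^ 3 ≤ Real.exp 1 ^ 3 := pow_le_pow_left₀ (by norm_num) h0 3
    linarith
  rw [Real.cosh_eq]
  have h5 := Real.exp_pos (-(2 * t))
  linarith

private theorem lo_cJ (t : ℝ) : Continuous (yy J t) := by
  have e : yy J t = fun θ => 4 * Real.sinh t ^ 2 + 4 * Real.cos θ ^ 2 := funext (yy_J t)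
  rw [e]
  fun_prop

private theorem lo_J0 {t : ℝ} (ht : 0 < t) (θ : ℝ) : 0 < yy J t θ := by
  have h1 := le_yy_J t θ
  have h2 : 0 < Real.sinh t := Real.sinh_pos_iff.2 ht
  have h3 : 0 < 4 * Real.sinh t ^ 2 := by positivity
  linarith

private theorem lo_cW {t : ℝ} (ht : 0 < t) (x : ℝ) :
    Continuous fun θ => max 0 (x / yy J t θ - 1) :=
  continuous_const.max
    ((continuous_const.div (lo_cJ t) fun θ => (lo_J0 ht θ).ne').sub continuous_const)

private theorem lo_GJ (t : ℝ) : Continuous (G J t) := by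
  have e : G J t = fun θ : ℝ => (2 * Real.cosh t * Real.cos θ + 2 * Real.sinh t * Real.sin θ * I :
    ℂ) := funext (G_J t)
  rw [e]
  fun_prop

private theorem lo_per (F : ℂ → ℂ) (t θ : ℝ) : G F t (θ + 2 * π) = G F t θ := by
  unfold G
  have e : (t : ℂ) + ((θ + 2 * π : ℝ) : ℂ) * I = (t + θ * I) + 2 * π * I := by
    push_cast
    ring
  rw [e, Complex.exp_periodic]

theorem Sg.lin_int2 (h : Sg F b q) {t x : ℝ} (ht : 0 < t) (hK : 5 / 2 ≤ Real.cosh (2 * t))
    (hx : x ≤ 2 * Real.cosh (2 * t)) :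
    ∫ θ in (-π)..π, max 0 (x / yy J t θ - 1) * (2 * (conj (G J t θ) * (G F t θ - G J t θ)).re) ≤
      4 * (1 - (b 1).re) * Iu t / Real.tanh t := by
  have hpi : (-π : ℝ) ≤ π := by linarith [Real.pi_pos]
  have hqt : q < Real.exp t := lt_of_lt_of_le h.q1 (Real.one_le_exp ht.le)
  have cF : Continuous (G F t) := h.an.cGt hqt
  have cJ := lo_GJ t
  have cW := lo_cW ht x
  set W : ℝ → ℝ := fun θ => max 0 (x / yy J t θ - 1) with hW
  set L : ℝ → ℝ := fun θ => (conj (G J t θ) * (G F t θ - G J t θ)).re with hL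
  have cL : Continuous L :=
    Complex.continuous_re.comp ((Complex.continuous_conj.comp cJ).mul (cF.sub cJ))
  have W0 : ∀ θ, 0 ≤ W θ := fun θ => le_max_left _ _
  have Wneg : ∀ θ, W (-θ) = W θ := by
    intro θ
    rw [hW]
    beta_reduce
    rw [yy_J, yy_J, Real.cos_neg]
  have Wpi : ∀ θ, W (θ + π) = W θ := by
    intro θ
    rw [hW]
    beta_reduce
    rw [yy_J, yy_J, Real.cos_add_pi, neg_sq]
  have Lper : ∀ θ, L (θ + 2 * π) = L θ := by
    intro θ
    rw [hL]
    beta_reduce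
    rw [lo_per, lo_per]
  have Wper : ∀ θ, W (θ + 2 * π) = W θ := by
    intro θ
    have e : θ + 2 * π = θ + π + π := by ring
    rw [e, Wpi, Wpi]
  have WLp : Function.Periodic (fun θ => W θ * L θ) (2 * π) := by
    intro θ
    beta_reduce
    rw [Wper, Lper]
  have sh : ∀ f : ℝ → ℝ, Function.Periodic f (2 * π) →
      ∫ θ in (-π)..π, f (θ + π) = ∫ θ in (-π)..π, f θ := by
    intro f hf
    rw [intervalIntegral.integral_comp_add_right f π]
    have h2 := hf.intervalIntegral_add_eq (-π + π) (-π)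
    have e1 : -π + π + 2 * π = π + π := by ring
    have e2 : -π + 2 * π = π := by ring
    rw [e1, e2] at h2
    exact h2
  have ng : ∀ f : ℝ → ℝ, ∫ θ in (-π)..π, f (-θ) = ∫ θ in (-π)..π, f θ := by
    intro f
    rw [intervalIntegral.integral_comp_neg, neg_neg]
  have i1 : ∫ θ in (-π)..π, W θ * L (-θ) = ∫ θ in (-π)..π, W θ * L θ := by
    have := ng fun θ => W θ * L θ
    simp_rw [Wneg] at this
    exact this
  have i2 : ∫ θ in (-π)..π, W θ * L (θ + π) = ∫ θ in (-π)..π, W θ * L θ := by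
    have := sh _ WLp
    simp_rw [Wpi] at this
    exact this
  have i3 : ∫ θ in (-π)..π, W θ * L (-(θ + π)) = ∫ θ in (-π)..π, W θ * L θ := by
    have hp : Function.Periodic (fun θ => W θ * L (-θ)) (2 * π) := by
      intro θ
      beta_reduce
      have e : -(θ + 2 * π) + 2 * π = -θ := by ring
      have := Lper (-(θ + 2 * π))
      rw [e] at this
      rw [Wper, ← this]
    have := sh _ hp
    simp_rw [Wpi] at this
    rw [this, i1]
  have j0 : IntervalIntegrable (fun θ => W θ * L θ) volume (-π) π :=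
    (cW.mul cL).intervalIntegrable _ _
  have j1 : IntervalIntegrable (fun θ => W θ * L (-θ)) volume (-π) π :=
    (cW.mul (cL.comp continuous_neg)).intervalIntegrable _ _
  have j2 : IntervalIntegrable (fun θ => W θ * L (θ + π)) volume (-π) π :=
    (cW.mul (cL.comp (continuous_id.add continuous_const))).intervalIntegrable _ _
  have j3 : IntervalIntegrable (fun θ => W θ * L (-(θ + π))) volume (-π) π :=
    (cW.mul (cL.comp (continuous_id.add continuous_const).neg)).intervalIntegrable _ _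
  have e4 : 4 * ∫ θ in (-π)..π, W θ * L θ =
      ∫ θ in (-π)..π, (W θ * L θ + W θ * L (-θ) + W θ * L (θ + π) + W θ * L (-(θ + π))) := by
    rw [intervalIntegral.integral_add ((j0.add j1).add j2) j3,
      intervalIntegral.integral_add (j0.add j1) j2, intervalIntegral.integral_add j0 j1,
      i1, i2, i3]
    ring
  have hb1 : 0 ≤ 1 - (b 1).re := by
    have h1 := (Complex.abs_re_le_norm (b 1)).trans h.b1.le
    linarith [le_abs_self (b 1).re]
  have hth : 0 < Real.tanh t := by
    rw [Real.tanh_eq_sinh_div_cosh]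
    exact div_pos (Real.sinh_pos_iff.2 ht) (Real.cosh_pos t)
  have h5 : ∫ θ in (-π)..π, (W θ * L θ + W θ * L (-θ) + W θ * L (θ + π) + W θ * L (-(θ + π))) ≤
      ∫ θ in (-π)..π, W θ * (4 * (1 - (b 1).re) / Real.tanh t) := by
    refine intervalIntegral.integral_mono_on hpi (((j0.add j1).add j2).add j3)
      ((cW.mul continuous_const).intervalIntegrable _ _) fun θ _ => ?_
    rcases (W0 θ).eq_or_lt with h6 | h6
    · rw [← h6]
      simp
    · have h7 : yy J t θ ≤ 2 * Real.cosh (2 * t) := by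
        by_contra h8
        rw [not_le] at h8
        have h9 : x / yy J t θ ≤ 1 := (div_le_one (lo_J0 ht θ)).2 (by linarith)
        have h10 : W θ = 0 := by
          rw [hW]
          beta_reduce
          exact max_eq_left (by linarith)
        exact h6.ne' h10
      have h8 := mul_le_mul_of_nonneg_left (h.lin2 ht hK h7) (W0 θ)
      refine le_trans (le_of_eq ?_) h8
      rw [hL]
      ring
  rw [intervalIntegral.integral_mul_const, ← e4] at h5
  have h6 : (∫ θ in (-π)..π, W θ) * (4 * (1 - (b 1).re) / Real.tanh t) ≤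
      2 * Iu t * (4 * (1 - (b 1).re) / Real.tanh t) :=
    mul_le_mul_of_nonneg_right (int_W2 ht hx) (by positivity)
  have e7 : ∫ θ in (-π)..π, W θ * (2 * L θ) = 2 * ∫ θ in (-π)..π, W θ * L θ := by
    rw [← intervalIntegral.integral_const_mul]
    refine intervalIntegral.integral_congr fun θ _ => ?_
    ring
  have e8 : 4 * (1 - (b 1).re) * Iu t / Real.tanh t =
      2 * Iu t * (4 * (1 - (b 1).re) / Real.tanh t) / 2 := by ring
  rw [e8]
  change ∫ θ in (-π)..π, W θ * (2 * L θ) ≤ _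
  rw [e7]
  linarith

theorem Sg.low2_real (h : Sg F b q) {ε : ℝ} (h0 : 0 ≤ ε) (h1 : ε ≤ 1)
    (hb : b 1 = ((1 - ε : ℝ) : ℂ)) {t x : ℝ} (ht2 : 3 / 2 ≤ t) (hx : 0 < x)
    (hd : x ≤ 2 * Real.cosh (2 * t)) :
    Zf F t x ≤ Zf J t x := by
  have hpi : (-π : ℝ) ≤ π := by linarith [Real.pi_pos]
  have ht : 0 < t := by linarith
  have hK : 5 / 2 ≤ Real.cosh (2 * t) := cosh_ge ht2
  have hm := h.mass hb ht
  rcases num2 ht2 h0 h1 with hn | hn
  · have hqt : q < Real.exp t := lt_of_lt_of_le h.q1 (Real.one_le_exp ht.le)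
    have cF : Continuous (G F t) := h.an.cGt hqt
    have cJ := lo_GJ t
    have cW := lo_cW ht x
    have hl := h.Zf_lin ht hx
    have h2 := h.lin_int2 ht hK hd
    have h3 : ∀ θ, yy F t θ - yy J t θ = 2 * (conj (G J t θ) * (G F t θ - G J t θ)).re +
        ‖G F t θ - G J t θ‖ ^ 2 := by
      intro θ
      unfold yy
      rw [← Complex.normSq_eq_norm_sq, ← Complex.normSq_eq_norm_sq, ← Complex.normSq_eq_norm_sq,
        Complex.normSq_apply, Complex.normSq_apply, Complex.normSq_apply]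
      simp only [Complex.mul_re, Complex.conj_re, Complex.conj_im, Complex.sub_re, Complex.sub_im]
      ring
    have c1 : Continuous fun θ => (conj (G J t θ) * (G F t θ - G J t θ)).re :=
      Complex.continuous_re.comp ((Complex.continuous_conj.comp cJ).mul (cF.sub cJ))
    have c2 : Continuous fun θ => ‖G F t θ - G J t θ‖ ^ 2 := (cF.sub cJ).norm.pow 2
    have h4 : ∫ θ in (-π)..π, max 0 (x / yy J t θ - 1) * (yy F t θ - yy J t θ) =
        (∫ θ in (-π)..π, max 0 (x / yy J t θ - 1) *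
          (2 * (conj (G J t θ) * (G F t θ - G J t θ)).re)) +
        ∫ θ in (-π)..π, max 0 (x / yy J t θ - 1) * ‖G F t θ - G J t θ‖ ^ 2 := by
      have a1 : IntervalIntegrable (fun θ => max 0 (x / yy J t θ - 1) *
          (2 * (conj (G J t θ) * (G F t θ - G J t θ)).re)) volume (-π) π :=
        (cW.mul (continuous_const.mul c1)).intervalIntegrable _ _
      have a2 : IntervalIntegrable (fun θ => max 0 (x / yy J t θ - 1) *
          ‖G F t θ - G J t θ‖ ^ 2) volume (-π) π := (cW.mul c2).intervalIntegrable _ _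
      rw [← intervalIntegral.integral_add a1 a2]
      refine intervalIntegral.integral_congr fun θ _ => ?_
      rw [h3, mul_add]
    set K : ℝ := 4 * ε ^ 2 * Qe t + 4 / 3 * (ε * (2 - ε)) * La t with hKd
    have hK0 : 0 ≤ K := le_trans (sq_nonneg _) (h.sup h0 h1 hb ht 0)
    have h5 : ∫ θ in (-π)..π, max 0 (x / yy J t θ - 1) * ‖G F t θ - G J t θ‖ ^ 2 ≤
        2 * Iu t * K := by
      have h6 : ∫ θ in (-π)..π, max 0 (x / yy J t θ - 1) * ‖G F t θ - G J t θ‖ ^ 2 ≤
          ∫ θ in (-π)..π, max 0 (x / yy J t θ - 1) * K := by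
        refine intervalIntegral.integral_mono_on hpi ((cW.mul c2).intervalIntegrable _ _)
          ((cW.mul continuous_const).intervalIntegrable _ _) fun θ _ => ?_
        exact mul_le_mul_of_nonneg_left (h.sup h0 h1 hb ht θ) (le_max_left _ _)
      rw [intervalIntegral.integral_mul_const] at h6
      exact h6.trans (mul_le_mul_of_nonneg_right (int_W2 ht hd) hK0)
    have h7 : (b 1).re = 1 - ε := by rw [hb, Complex.ofReal_re]
    rw [h7] at h2
    rw [h4] at hl
    have h8 := mul_nonneg h0 hn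
    have h9 : ε * ((2 - ε) * (π * Qe t * (1 - Qe t / 2) - 4 / 3 * Iu t * La t) -
        2 * Iu t / Real.tanh t - 4 * Iu t * ε * Qe t) =
        π * (ε * (2 - ε) * Qe t * (1 - Qe t / 2)) -
        (4 * (1 - (1 - ε)) * Iu t / Real.tanh t) / 2 - Iu t * K := by
      rw [hKd]
      ring
    rw [h9] at h8
    linarith
  · have h2 := h.Zf_sq ht hx
    have h3 := int_WX2 ht hd
    linarith

/-- levels `x <= 2 cosh 2t` -/
theorem Sg.low2 (h : Sg F b q) {t x : ℝ} (ht : 3 / 2 ≤ t) (hx : 0 ≤ x)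
    (hd : x ≤ 2 * Real.cosh (2 * t)) :
    Zf F t x ≤ Zf J t x := by
  rcases le_or_gt x (4 * Real.sinh t ^ 2) with h1 | h1
  · exact h.lo (by linarith) hx h1
  · have hx0 : 0 < x := lt_of_le_of_lt (by positivity) h1
    have h2 := h.rot ((b 1).arg / 2)
    have h3 : (fun n : ℕ => b n * exp (-(((n : ℂ) + 1) * (((b 1).arg / 2 : ℝ) : ℂ) * I))) 1 =
        (((1 - (1 - ‖b 1‖) : ℝ)) : ℂ) := by
      beta_reduce
      have e1 : -((((1 : ℕ) : ℂ) + 1) * (((b 1).arg / 2 : ℝ) : ℂ) * I) = -((b 1).arg * I) := by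
        push_cast
        ring
      rw [e1]
      have e2 := Complex.norm_mul_exp_arg_mul_I (b 1)
      have e3 : b 1 * exp (-((b 1).arg * I)) = ‖b 1‖ := by
        calc b 1 * exp (-((b 1).arg * I)) =
            (‖b 1‖ * exp ((b 1).arg * I)) * exp (-((b 1).arg * I)) := by rw [e2]
          _ = ‖b 1‖ := by
            rw [mul_assoc, ← Complex.exp_add, add_neg_cancel, Complex.exp_zero, mul_one]
      rw [e3]
      push_cast
      ring
    have h4 := h2.low2_real (ε := 1 - ‖b 1‖) (by linarith [h.b1]) (by linarith [norm_nonneg (b 1)])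
      h3 ht hx0 hd
    rw [Zf_rot] at h4
    exact h4

end Pool.Agent.H36.SZ
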