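import Pool.Agent.H36.SZ.HiD

/-!
# Levels `x <= 2 cosh 2t`: two integrals

`K = cosh 2t`, `yy J t θ = 2 (K + cos 2θ)` (`yy_J'`). Both integrands increase with `x`, so let
`x = 2K`; with `c = - cos 2θ` they are `c_+ / (K - c)` and `2 c_+^2 / (K - c)`.
PROOFS. For `0 <= c <= 1`: `c/(K-c) = c/K + c^2/(K(K-c)) <= c/K + c^2/(K(K-1))` and
`2c^2/(K-c) <= 2c^2/K + 2c^3/(K(K-1))`. The integrals over `(-π, π)` of `c_+`, `c_+^2`, `c_+^3` are
`2`, `π/2`, `4/3`, so the two integrals are at most `2/K + π/(2K(K-1)) = 2 Iu` and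
`π/K + 8/(3K(K-1)) = 2 Gu`. (`c_+ = (c + |c|)/2`; or: period `π`, `int_(-π)^π f(-cos 2θ) dθ
= int_(-π)^π f(cos u) du = 2 int_(-π/2)^(π/2) f(cos u) du` for `f` vanishing on `(-∞, 0]`.)
-/

open Complex MeasureTheory Set Filter Topology
open scoped ComplexConjugate Real

namespace Pool.Agent.H36.SZ

noncomputable def Iu (t : ℝ) : ℝ :=
  1 / Real.cosh (2 * t) + π / (4 * (Real.cosh (2 * t) * (Real.cosh (2 * t) - 1)))

noncomputable def Gu (t : ℝ) : ℝ :=
  π / (2 * Real.cosh (2 * t)) + 4 / (3 * (Real.cosh (2 * t) * (Real.cosh (2 * t) - 1)))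

private theorem lp_cut (n : ℕ) (hn : n ≠ 0) :
    ∫ θ in (-π)..π, max 0 (-Real.cos (2 * θ)) ^ n = ∫ u in (-(π / 2))..(π / 2), Real.cos u ^ n := by
  have hpi := Real.pi_pos
  set F : ℝ → ℝ := fun u => max 0 (-Real.cos u) ^ n with hF
  have hFc : Continuous F := by
    rw [hF]
    fun_prop
  have hFi := fun a b : ℝ => hFc.intervalIntegrable (μ := volume) a b
  have hFp : Function.Periodic F (2 * π) := by
    intro u
    rw [hF]
    change max 0 (-Real.cos (u + 2 * π)) ^ n = max 0 (-Real.cos u) ^ n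
    rw [Real.cos_add_two_pi]
  have h1 : ∫ θ in (-π)..π, max 0 (-Real.cos (2 * θ)) ^ n =
      (2 : ℝ)⁻¹ * ∫ u in (2 * (-π))..(2 * π), F u := by
    have := intervalIntegral.integral_comp_mul_left (a := -π) (b := π) F (c := 2) two_ne_zero
    rw [smul_eq_mul] at this
    exact this
  have h2 : ∫ u in (2 * (-π))..(2 * π), F u = 2 * ∫ u in (0 : ℝ)..(2 * π), F u := by
    have e1 := hFp.intervalIntegral_add_eq (2 * (-π)) 0
    rw [show 2 * (-π) + 2 * π = 0 by ring, zero_add] at e1
    rw [← intervalIntegral.integral_add_adjacent_intervals (hFi (2 * (-π)) 0) (hFi 0 (2 * π)), e1]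
    ring
  have h3 : ∫ u in (0 : ℝ)..(2 * π), F u = ∫ v in (-π)..π, max 0 (Real.cos v) ^ n := by
    have e1 := intervalIntegral.integral_comp_add_right (a := -π) (b := π) F π
    rw [show -π + π = 0 by ring, show π + π = 2 * π by ring] at e1
    rw [← e1]
    refine intervalIntegral.integral_congr fun v _ => ?_
    change max 0 (-Real.cos (v + π)) ^ n = max 0 (Real.cos v) ^ n
    rw [Real.cos_add_pi, neg_neg]
  rw [h1, h2, h3, ← mul_assoc, inv_mul_cancel₀ two_ne_zero, one_mul]
  have hc : Continuous fun v : ℝ => max 0 (Real.cos v) ^ n := by fun_prop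
  have hi := fun a b : ℝ => hc.intervalIntegrable (μ := volume) a b
  rw [← intervalIntegral.integral_add_adjacent_intervals (hi (-π) (-(π / 2))) (hi (-(π / 2)) π),
    ← intervalIntegral.integral_add_adjacent_intervals (hi (-(π / 2)) (π / 2)) (hi (π / 2) π)]
  have e1 : ∫ v in (-π)..(-(π / 2)), max 0 (Real.cos v) ^ n = 0 := by
    rw [intervalIntegral.integral_congr (g := fun _ => (0 : ℝ))]
    · simp
    · intro v hv
      rw [uIcc_of_le (by linarith)] at hv
      have h4 : Real.cos (-v) ≤ 0 :=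
        Real.cos_nonpos_of_pi_div_two_le_of_le (by linarith [hv.2]) (by linarith [hv.1])
      rw [Real.cos_neg] at h4
      change max 0 (Real.cos v) ^ n = 0
      rw [max_eq_left h4, zero_pow hn]
  have e2 : ∫ v in (π / 2)..π, max 0 (Real.cos v) ^ n = 0 := by
    rw [intervalIntegral.integral_congr (g := fun _ => (0 : ℝ))]
    · simp
    · intro v hv
      rw [uIcc_of_le (by linarith)] at hv
      have h4 : Real.cos v ≤ 0 :=
        Real.cos_nonpos_of_pi_div_two_le_of_le hv.1 (by linarith [hv.2])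
      change max 0 (Real.cos v) ^ n = 0
      rw [max_eq_left h4, zero_pow hn]
  rw [e1, e2, zero_add, add_zero]
  refine intervalIntegral.integral_congr fun v hv => ?_
  rw [uIcc_of_le (by linarith)] at hv
  rw [max_eq_right (Real.cos_nonneg_of_mem_Icc ⟨hv.1, hv.2⟩)]

private theorem lp_one : ∫ θ in (-π)..π, max 0 (-Real.cos (2 * θ)) = 2 := by
  have h := lp_cut 1 one_ne_zero
  simp only [pow_one] at h
  rw [h, integral_cos, Real.sin_neg, Real.sin_pi_div_two]
  norm_num

private theorem lp_two : ∫ θ in (-π)..π, max 0 (-Real.cos (2 * θ)) ^ 2 = π / 2 := by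
  rw [lp_cut 2 two_ne_zero, integral_cos_sq, Real.cos_neg, Real.cos_pi_div_two]
  ring

private theorem lp_three : ∫ θ in (-π)..π, max 0 (-Real.cos (2 * θ)) ^ 3 = 4 / 3 := by
  rw [lp_cut 3 three_ne_zero, integral_cos_pow_three, Real.sin_neg, Real.sin_pi_div_two]
  norm_num

private theorem lp_K {t : ℝ} (ht : 0 < t) : 1 < Real.cosh (2 * t) :=
  Real.one_lt_cosh.2 (by positivity)

/-- the pointwise inequality -/
private theorem lp_pt {t x : ℝ} (ht : 0 < t) (hx : x ≤ 2 * Real.cosh (2 * t)) (θ : ℝ) :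
    max 0 (x / yy J t θ - 1) ≤ max 0 (-Real.cos (2 * θ)) / Real.cosh (2 * t) +
      max 0 (-Real.cos (2 * θ)) ^ 2 / (Real.cosh (2 * t) * (Real.cosh (2 * t) - 1)) := by
  have hK := lp_K ht
  set K := Real.cosh (2 * t) with hKd
  set c := -Real.cos (2 * θ) with hc
  have hc1 : c ≤ 1 := by
    have := Real.neg_one_le_cos (2 * θ)
    rw [hc]
    linarith
  have hy : yy J t θ = 2 * (K - c) := by
    rw [yy_J', hc]
    ring
  have hK0 : 0 < K := by linarith
  have hK1 : 0 < K - 1 := by linarith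
  have hKc : 0 < K - c := by linarith
  have hrhs : 0 ≤ max 0 c / K + max 0 c ^ 2 / (K * (K - 1)) := by positivity
  refine max_le hrhs ?_
  rw [hy]
  have h1 : x / (2 * (K - c)) - 1 ≤ c / (K - c) := by
    have h2 : x / (2 * (K - c)) ≤ 2 * K / (2 * (K - c)) := by gcongr
    have h3 : 2 * K / (2 * (K - c)) - 1 = c / (K - c) := by
      field_simp
      ring
    linarith
  refine h1.trans ?_
  rcases le_total c 0 with h | h
  · exact (div_nonpos_of_nonpos_of_nonneg h hKc.le).trans hrhs
  · rw [max_eq_right h]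
    have h4 : c / (K - c) = c / K + c ^ 2 / (K * (K - c)) := by
      field_simp
      ring
    have h5 : c ^ 2 / (K * (K - c)) ≤ c ^ 2 / (K * (K - 1)) := by gcongr
    linarith

private theorem lp_yy {t : ℝ} (ht : 0 < t) (θ : ℝ) : 0 < yy J t θ := by
  have h1 := lp_K ht
  have h2 := Real.neg_one_le_cos (2 * θ)
  rw [yy_J']
  linarith

private theorem lp_yc (t : ℝ) : Continuous (yy J t) := by
  have h : yy J t = fun θ => 2 * Real.cosh (2 * t) + 2 * Real.cos (2 * θ) := by
    funext θ
    exact yy_J' t θ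
  rw [h]
  fun_prop

private theorem lp_wc {t : ℝ} (ht : 0 < t) (x : ℝ) :
    Continuous fun θ => max 0 (x / yy J t θ - 1) :=
  continuous_const.max
    ((continuous_const.div (lp_yc t) fun θ => (lp_yy ht θ).ne').sub continuous_const)

theorem int_W2 {t x : ℝ} (ht : 0 < t) (hx : x ≤ 2 * Real.cosh (2 * t)) :
    ∫ θ in (-π)..π, max 0 (x / yy J t θ - 1) ≤ 2 * Iu t := by
  have hpi := Real.pi_pos
  have hK := lp_K ht
  have c1 : Continuous fun θ : ℝ => max 0 (-Real.cos (2 * θ)) / Real.cosh (2 * t) := by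
    fun_prop (disch := positivity)
  have c2 : Continuous fun θ : ℝ => max 0 (-Real.cos (2 * θ)) ^ 2 /
      (Real.cosh (2 * t) * (Real.cosh (2 * t) - 1)) := by
    refine Continuous.div_const ?_ _
    fun_prop
  refine (intervalIntegral.integral_mono_on (by linarith)
    ((lp_wc ht x).intervalIntegrable _ _) ((c1.add c2).intervalIntegrable _ _)
    fun θ _ => lp_pt ht hx θ).trans ?_
  have e := intervalIntegral.integral_add (c1.intervalIntegrable (μ := volume) (-π) π)
    (c2.intervalIntegrable (μ := volume) (-π) π)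
  refine e.le.trans ?_
  rw [intervalIntegral.integral_div, intervalIntegral.integral_div, lp_one, lp_two]
  unfold Iu
  have h1 : 0 < Real.cosh (2 * t) - 1 := by linarith
  have h2 : 0 < Real.cosh (2 * t) := by linarith
  refine le_of_eq ?_
  field_simp
  ring

theorem int_WX2 {t x : ℝ} (ht : 0 < t) (hx : x ≤ 2 * Real.cosh (2 * t)) :
    ∫ θ in (-π)..π, max 0 (x - yy J t θ) * max 0 (x / yy J t θ - 1) ≤ 2 * Gu t := by
  have hpi := Real.pi_pos
  have hK := lp_K ht
  have c1 : Continuous fun θ : ℝ =>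
      2 * max 0 (-Real.cos (2 * θ)) ^ 2 / Real.cosh (2 * t) := by
    refine Continuous.div_const ?_ _
    fun_prop
  have c2 : Continuous fun θ : ℝ => 2 * max 0 (-Real.cos (2 * θ)) ^ 3 /
      (Real.cosh (2 * t) * (Real.cosh (2 * t) - 1)) := by
    refine Continuous.div_const ?_ _
    fun_prop
  have c0 : Continuous fun θ => max 0 (x - yy J t θ) * max 0 (x / yy J t θ - 1) :=
    (continuous_const.max (continuous_const.sub (lp_yc t))).mul (lp_wc ht x)
  have hpt : ∀ θ, max 0 (x - yy J t θ) * max 0 (x / yy J t θ - 1) ≤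
      2 * max 0 (-Real.cos (2 * θ)) ^ 2 / Real.cosh (2 * t) +
        2 * max 0 (-Real.cos (2 * θ)) ^ 3 /
          (Real.cosh (2 * t) * (Real.cosh (2 * t) - 1)) := by
    intro θ
    have h1 := lp_pt ht hx θ
    have h2 : max 0 (x - yy J t θ) ≤ 2 * max 0 (-Real.cos (2 * θ)) := by
      refine max_le (by positivity) ?_
      rw [yy_J']
      have := le_max_right 0 (-Real.cos (2 * θ))
      linarith
    have h3 : 0 ≤ max 0 (x / yy J t θ - 1) := le_max_left _ _
    have h4 : 0 ≤ 2 * max 0 (-Real.cos (2 * θ)) := by positivity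
    refine (mul_le_mul h2 h1 h3 h4).trans (le_of_eq ?_)
    ring
  refine (intervalIntegral.integral_mono_on (by linarith)
    (c0.intervalIntegrable _ _) ((c1.add c2).intervalIntegrable _ _) fun θ _ => hpt θ).trans ?_
  have e := intervalIntegral.integral_add (c1.intervalIntegrable (μ := volume) (-π) π)
    (c2.intervalIntegrable (μ := volume) (-π) π)
  refine e.le.trans ?_
  rw [intervalIntegral.integral_div, intervalIntegral.integral_div,
    intervalIntegral.integral_const_mul, intervalIntegral.integral_const_mul, lp_two, lp_three]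
  unfold Gu
  have h1 : 0 < Real.cosh (2 * t) - 1 := by linarith
  have h2 : 0 < Real.cosh (2 * t) := by linarith
  refine le_of_eq ?_
  field_simp

end Pool.Agent.H36.SZ
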