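import Pool.Agent.H36.SZ.LoK

/-!
# Levels `x <= 2 cosh 2t`, `cosh 2t >= 5/2`: the kernel inequality

As `LoK.lean`, with `c >= 0` instead of `K c >= 1`. In `k = K - 5/2`, `c`, `d = 1 - c`, `V = 1 + X`,
`U = 1 - X` the polynomial (made homogeneous by `c + d = 1`, `V + U = 2`) has nonnegative
coefficients.
-/

open Complex MeasureTheory Set Filter Topology
open scoped ComplexConjugate Real

namespace Pool.Agent.H36.SZ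

private theorem kq_aux (k c d V U : ℝ) (hk : 0 ≤ k) (hc : 0 ≤ c) (hd : 0 ≤ d) (hV : 0 ≤ V)
    (hU : 0 ≤ U) : 0 ≤
    V ^ 0 * U ^ 4 * (925 / 256 * d ^ 4 + 2085 / 256 * c * d ^ 3 + 1503 / 256 * c ^ 2 * d ^ 2
      + 351 / 256 * c ^ 3 * d + 45 / 8 * k * d ^ 4 + 901 / 64 * k * c * d ^ 3 + 363 / 32 * k
      * c ^ 2 * d ^ 2 + 189 / 64 * k * c ^ 3 * d + 101 / 32 * k ^ 2 * d ^ 4 + 69 / 8 * k ^ 2
      * c * d ^ 3 + 247 / 32 * k ^ 2 * c ^ 2 * d ^ 2 + 9 / 4 * k ^ 2 * c ^ 3 * d + 3 / 4 * k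
      ^ 3 * d ^ 4 + 35 / 16 * k ^ 3 * c * d ^ 3 + 17 / 8 * k ^ 3 * c ^ 2 * d ^ 2 + 11 / 16 *
      k ^ 3 * c ^ 3 * d + 1 / 16 * k ^ 4 * d ^ 4 + 3 / 16 * k ^ 4 * c * d ^ 3 + 3 / 16 * k ^
      4 * c ^ 2 * d ^ 2 + 1 / 16 * k ^ 4 * c ^ 3 * d) + V ^ 1 * U ^ 3 * (137 / 16 * d ^ 4 +
      1237 / 64 * c * d ^ 3 + 879 / 64 * c ^ 2 * d ^ 2 + 279 / 64 * c ^ 3 * d + 81 / 64 * c
      ^ 4 + 491 / 32 * k * d ^ 4 + 609 / 16 * k * c * d ^ 3 + 251 / 8 * k * c ^ 2 * d ^ 2 +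
      183 / 16 * k * c ^ 3 * d + 81 / 32 * k * c ^ 4 + 155 / 16 * k ^ 2 * d ^ 4 + 53 / 2 * k
      ^ 2 * c * d ^ 3 + 201 / 8 * k ^ 2 * c ^ 2 * d ^ 2 + 10 * k ^ 2 * c ^ 3 * d + 27 / 16 *
      k ^ 2 * c ^ 4 + 21 / 8 * k ^ 3 * d ^ 4 + 31 / 4 * k ^ 3 * c * d ^ 3 + 8 * k ^ 3 * c ^
      2 * d ^ 2 + 13 / 4 * k ^ 3 * c ^ 3 * d + 3 / 8 * k ^ 3 * c ^ 4 + 1 / 4 * k ^ 4 * d ^ 4
      + 3 / 4 * k ^ 4 * c * d ^ 3 + 3 / 4 * k ^ 4 * c ^ 2 * d ^ 2 + 1 / 4 * k ^ 4 * c ^ 3 *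
      d) + V ^ 2 * U ^ 2 * (849 / 128 * d ^ 4 + 1671 / 128 * c * d ^ 3 + 1269 / 128 * c ^ 2
      * d ^ 2 + 1461 / 128 * c ^ 3 * d + 495 / 64 * c ^ 4 + 441 / 32 * k * d ^ 4 + 1079 / 32
      * k * c * d ^ 3 + 557 / 16 * k * c ^ 2 * d ^ 2 + 899 / 32 * k * c ^ 3 * d + 411 / 32 *
      k * c ^ 4 + 85 / 8 * k ^ 2 * d ^ 4 + 30 * k ^ 2 * c * d ^ 3 + 541 / 16 * k ^ 2 * c ^ 2
      * d ^ 2 + 85 / 4 * k ^ 2 * c ^ 3 * d + 109 / 16 * k ^ 2 * c ^ 4 + 27 / 8 * k ^ 3 * d ^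
      4 + 81 / 8 * k ^ 3 * c * d ^ 3 + 45 / 4 * k ^ 3 * c ^ 2 * d ^ 2 + 45 / 8 * k ^ 3 * c ^
      3 * d + 9 / 8 * k ^ 3 * c ^ 4 + 3 / 8 * k ^ 4 * d ^ 4 + 9 / 8 * k ^ 4 * c * d ^ 3 + 9
      / 8 * k ^ 4 * c ^ 2 * d ^ 2 + 3 / 8 * k ^ 4 * c ^ 3 * d) + V ^ 3 * U ^ 1 * (25 / 32 *
      d ^ 4 + 45 / 64 * c * d ^ 3 + 615 / 64 * c ^ 2 * d ^ 2 + 1615 / 64 * c ^ 3 * d + 987 /
      64 * c ^ 4 + 145 / 32 * k * d ^ 4 + 217 / 16 * k * c * d ^ 3 + 239 / 8 * k * c ^ 2 * d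
      ^ 2 + 667 / 16 * k * c ^ 3 * d + 659 / 32 * k * c ^ 4 + 77 / 16 * k ^ 2 * d ^ 4 + 15 *
      k ^ 2 * c * d ^ 3 + 185 / 8 * k ^ 2 * c ^ 2 * d ^ 2 + 43 / 2 * k ^ 2 * c ^ 3 * d + 137
      / 16 * k ^ 2 * c ^ 4 + 15 / 8 * k ^ 3 * d ^ 4 + 23 / 4 * k ^ 3 * c * d ^ 3 + 7 * k ^ 3
      * c ^ 2 * d ^ 2 + 17 / 4 * k ^ 3 * c ^ 3 * d + 9 / 8 * k ^ 3 * c ^ 4 + 1 / 4 * k ^ 4 *
      d ^ 4 + 3 / 4 * k ^ 4 * c * d ^ 3 + 3 / 4 * k ^ 4 * c ^ 2 * d ^ 2 + 1 / 4 * k ^ 4 * c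
      ^ 3 * d) + V ^ 4 * U ^ 0 * (25 / 256 * d ^ 4 + 725 / 256 * c * d ^ 3 + 3471 / 256 * c
      ^ 2 * d ^ 2 + 5327 / 256 * c ^ 3 * d + 637 / 64 * c ^ 4 + 15 / 32 * k * d ^ 4 + 245 /
      64 * k * c * d ^ 3 + 483 / 32 * k * c ^ 2 * d ^ 2 + 1413 / 64 * k * c ^ 3 * d + 329 /
      32 * k * c ^ 4 + 23 / 32 * k ^ 2 * d ^ 4 + 23 / 8 * k ^ 2 * c * d ^ 3 + 215 / 32 * k ^
      2 * c ^ 2 * d ^ 2 + 8 * k ^ 2 * c ^ 3 * d + 55 / 16 * k ^ 2 * c ^ 4 + 3 / 8 * k ^ 3 *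
      d ^ 4 + 19 / 16 * k ^ 3 * c * d ^ 3 + 13 / 8 * k ^ 3 * c ^ 2 * d ^ 2 + 19 / 16 * k ^ 3
      * c ^ 3 * d + 3 / 8 * k ^ 3 * c ^ 4 + 1 / 16 * k ^ 4 * d ^ 4 + 3 / 16 * k ^ 4 * c * d
      ^ 3 + 3 / 16 * k ^ 4 * c ^ 2 * d ^ 2 + 1 / 16 * k ^ 4 * c ^ 3 * d) := by
  positivity

private theorem kq_id (k c X : ℝ) :
    (1 + X) ^ 0 * (1 - X) ^ 4 * (925 / 256 * (1 - c) ^ 4 + 2085 / 256 * c * (1 - c) ^ 3 + 1503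
      / 256 * c ^ 2 * (1 - c) ^ 2 + 351 / 256 * c ^ 3 * (1 - c) + 45 / 8 * k * (1 - c) ^ 4 +
      901 / 64 * k * c * (1 - c) ^ 3 + 363 / 32 * k * c ^ 2 * (1 - c) ^ 2 + 189 / 64 * k * c ^
      3 * (1 - c) + 101 / 32 * k ^ 2 * (1 - c) ^ 4 + 69 / 8 * k ^ 2 * c * (1 - c) ^ 3 + 247 /
      32 * k ^ 2 * c ^ 2 * (1 - c) ^ 2 + 9 / 4 * k ^ 2 * c ^ 3 * (1 - c) + 3 / 4 * k ^ 3 * (1
      - c) ^ 4 + 35 / 16 * k ^ 3 * c * (1 - c) ^ 3 + 17 / 8 * k ^ 3 * c ^ 2 * (1 - c) ^ 2 + 11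
      / 16 * k ^ 3 * c ^ 3 * (1 - c) + 1 / 16 * k ^ 4 * (1 - c) ^ 4 + 3 / 16 * k ^ 4 * c * (1
      - c) ^ 3 + 3 / 16 * k ^ 4 * c ^ 2 * (1 - c) ^ 2 + 1 / 16 * k ^ 4 * c ^ 3 * (1 - c)) + (1
      + X) ^ 1 * (1 - X) ^ 3 * (137 / 16 * (1 - c) ^ 4 + 1237 / 64 * c * (1 - c) ^ 3 + 879 /
      64 * c ^ 2 * (1 - c) ^ 2 + 279 / 64 * c ^ 3 * (1 - c) + 81 / 64 * c ^ 4 + 491 / 32 * k *
      (1 - c) ^ 4 + 609 / 16 * k * c * (1 - c) ^ 3 + 251 / 8 * k * c ^ 2 * (1 - c) ^ 2 + 183 /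
      16 * k * c ^ 3 * (1 - c) + 81 / 32 * k * c ^ 4 + 155 / 16 * k ^ 2 * (1 - c) ^ 4 + 53 / 2
      * k ^ 2 * c * (1 - c) ^ 3 + 201 / 8 * k ^ 2 * c ^ 2 * (1 - c) ^ 2 + 10 * k ^ 2 * c ^ 3 *
      (1 - c) + 27 / 16 * k ^ 2 * c ^ 4 + 21 / 8 * k ^ 3 * (1 - c) ^ 4 + 31 / 4 * k ^ 3 * c *
      (1 - c) ^ 3 + 8 * k ^ 3 * c ^ 2 * (1 - c) ^ 2 + 13 / 4 * k ^ 3 * c ^ 3 * (1 - c) + 3 / 8
      * k ^ 3 * c ^ 4 + 1 / 4 * k ^ 4 * (1 - c) ^ 4 + 3 / 4 * k ^ 4 * c * (1 - c) ^ 3 + 3 / 4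
      * k ^ 4 * c ^ 2 * (1 - c) ^ 2 + 1 / 4 * k ^ 4 * c ^ 3 * (1 - c)) + (1 + X) ^ 2 * (1 - X)
      ^ 2 * (849 / 128 * (1 - c) ^ 4 + 1671 / 128 * c * (1 - c) ^ 3 + 1269 / 128 * c ^ 2 * (1
      - c) ^ 2 + 1461 / 128 * c ^ 3 * (1 - c) + 495 / 64 * c ^ 4 + 441 / 32 * k * (1 - c) ^ 4
      + 1079 / 32 * k * c * (1 - c) ^ 3 + 557 / 16 * k * c ^ 2 * (1 - c) ^ 2 + 899 / 32 * k *
      c ^ 3 * (1 - c) + 411 / 32 * k * c ^ 4 + 85 / 8 * k ^ 2 * (1 - c) ^ 4 + 30 * k ^ 2 * c *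
      (1 - c) ^ 3 + 541 / 16 * k ^ 2 * c ^ 2 * (1 - c) ^ 2 + 85 / 4 * k ^ 2 * c ^ 3 * (1 - c)
      + 109 / 16 * k ^ 2 * c ^ 4 + 27 / 8 * k ^ 3 * (1 - c) ^ 4 + 81 / 8 * k ^ 3 * c * (1 - c)
      ^ 3 + 45 / 4 * k ^ 3 * c ^ 2 * (1 - c) ^ 2 + 45 / 8 * k ^ 3 * c ^ 3 * (1 - c) + 9 / 8 *
      k ^ 3 * c ^ 4 + 3 / 8 * k ^ 4 * (1 - c) ^ 4 + 9 / 8 * k ^ 4 * c * (1 - c) ^ 3 + 9 / 8 *
      k ^ 4 * c ^ 2 * (1 - c) ^ 2 + 3 / 8 * k ^ 4 * c ^ 3 * (1 - c)) + (1 + X) ^ 3 * (1 - X) ^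
      1 * (25 / 32 * (1 - c) ^ 4 + 45 / 64 * c * (1 - c) ^ 3 + 615 / 64 * c ^ 2 * (1 - c) ^ 2
      + 1615 / 64 * c ^ 3 * (1 - c) + 987 / 64 * c ^ 4 + 145 / 32 * k * (1 - c) ^ 4 + 217 / 16
      * k * c * (1 - c) ^ 3 + 239 / 8 * k * c ^ 2 * (1 - c) ^ 2 + 667 / 16 * k * c ^ 3 * (1 -
      c) + 659 / 32 * k * c ^ 4 + 77 / 16 * k ^ 2 * (1 - c) ^ 4 + 15 * k ^ 2 * c * (1 - c) ^ 3
      + 185 / 8 * k ^ 2 * c ^ 2 * (1 - c) ^ 2 + 43 / 2 * k ^ 2 * c ^ 3 * (1 - c) + 137 / 16 *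
      k ^ 2 * c ^ 4 + 15 / 8 * k ^ 3 * (1 - c) ^ 4 + 23 / 4 * k ^ 3 * c * (1 - c) ^ 3 + 7 * k
      ^ 3 * c ^ 2 * (1 - c) ^ 2 + 17 / 4 * k ^ 3 * c ^ 3 * (1 - c) + 9 / 8 * k ^ 3 * c ^ 4 + 1
      / 4 * k ^ 4 * (1 - c) ^ 4 + 3 / 4 * k ^ 4 * c * (1 - c) ^ 3 + 3 / 4 * k ^ 4 * c ^ 2 * (1
      - c) ^ 2 + 1 / 4 * k ^ 4 * c ^ 3 * (1 - c)) + (1 + X) ^ 4 * (1 - X) ^ 0 * (25 / 256 * (1
      - c) ^ 4 + 725 / 256 * c * (1 - c) ^ 3 + 3471 / 256 * c ^ 2 * (1 - c) ^ 2 + 5327 / 256 *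
      c ^ 3 * (1 - c) + 637 / 64 * c ^ 4 + 15 / 32 * k * (1 - c) ^ 4 + 245 / 64 * k * c * (1 -
      c) ^ 3 + 483 / 32 * k * c ^ 2 * (1 - c) ^ 2 + 1413 / 64 * k * c ^ 3 * (1 - c) + 329 / 32
      * k * c ^ 4 + 23 / 32 * k ^ 2 * (1 - c) ^ 4 + 23 / 8 * k ^ 2 * c * (1 - c) ^ 3 + 215 /
      32 * k ^ 2 * c ^ 2 * (1 - c) ^ 2 + 8 * k ^ 2 * c ^ 3 * (1 - c) + 55 / 16 * k ^ 2 * c ^ 4
      + 3 / 8 * k ^ 3 * (1 - c) ^ 4 + 19 / 16 * k ^ 3 * c * (1 - c) ^ 3 + 13 / 8 * k ^ 3 * c ^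
      2 * (1 - c) ^ 2 + 19 / 16 * k ^ 3 * c ^ 3 * (1 - c) + 3 / 8 * k ^ 3 * c ^ 4 + 1 / 16 * k
      ^ 4 * (1 - c) ^ 4 + 3 / 16 * k ^ 4 * c * (1 - c) ^ 3 + 3 / 16 * k ^ 4 * c ^ 2 * (1 - c)
      ^ 2 + 1 / 16 * k ^ 4 * c ^ 3 * (1 - c)) =
    ((k + 5 / 2) ^ 2 - 1 + c ^ 2 + X ^ 2 + 2 * X * (k + 5 / 2) * c) ^ 2 +
      ((k + 5 / 2) - 1) * ((1 + X - (k + 5 / 2) * c + c ^ 2) *
        ((X + (k + 5 / 2) * c) ^ 2 - ((k + 5 / 2) ^ 2 - 1) * (1 - c ^ 2)) -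
        2 * (X + (k + 5 / 2) * c) * (1 - c ^ 2) * ((k + 5 / 2) ^ 2 + 1 + X - (k + 5 / 2) * c)) := by
  ring

theorem kpoly2 {K c X : ℝ} (hK : 5 / 2 ≤ K) (hc : 0 ≤ c) (hc1 : c ≤ 1)
    (hX : -1 ≤ X) (hX1 : X ≤ 1) :
    0 ≤ (K ^ 2 - 1 + c ^ 2 + X ^ 2 + 2 * X * K * c) ^ 2 +
      (K - 1) * ((1 + X - K * c + c ^ 2) * ((X + K * c) ^ 2 - (K ^ 2 - 1) * (1 - c ^ 2)) -
        2 * (X + K * c) * (1 - c ^ 2) * (K ^ 2 + 1 + X - K * c)) := by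
  have h1 := kq_aux (K - 5 / 2) c (1 - c) (1 + X) (1 - X) (by linarith) hc (by linarith)
    (by linarith) (by linarith)
  rw [kq_id (K - 5 / 2) c X] at h1
  have e : K - 5 / 2 + 5 / 2 = K := by ring
  rw [e] at h1
  exact h1

private theorem GJ_ne' {t : ℝ} (ht : 0 < t) (φ β : ℝ) : G J t φ + 2 * Real.cos β ≠ 0 := by
  have h := GJ_ne ht φ (π - β)
  rw [Real.cos_pi_sub] at h
  push_cast at h ⊢
  intro h1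
  apply h
  linear_combination h1

private theorem w_eq (t φ : ℝ) : conj (G J t φ) * G1 J t φ =
    ((2 * Real.sinh (2 * t) : ℝ) : ℂ) + ((2 * Real.sin (2 * φ) : ℝ) : ℂ) * I := by
  rw [G_J, G1_J]
  apply Complex.ext
  · simp [-Complex.ofReal_cosh, -Complex.ofReal_sinh, -Complex.ofReal_cos, -Complex.ofReal_sin,
      Real.sinh_two_mul]
    have h1 := Real.sin_sq_add_cos_sq φ
    linear_combination (4 * Real.sinh t * Real.cosh t) * h1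
  · simp [-Complex.ofReal_cosh, -Complex.ofReal_sinh, -Complex.ofReal_cos, -Complex.ofReal_sin,
      Real.sin_two_mul]
    have h1 := Real.cosh_sq t
    linear_combination (4 * Real.sin φ * Real.cos φ) * h1

private theorem J2_eq (t φ : ℝ) : G J t φ ^ 2 =
    ((2 + 2 * Real.cosh (2 * t) * Real.cos (2 * φ) : ℝ) : ℂ) +
      ((2 * Real.sinh (2 * t) * Real.sin (2 * φ) : ℝ) : ℂ) * I := by
  rw [G_J]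
  apply Complex.ext
  · simp [-Complex.ofReal_cosh, -Complex.ofReal_sinh, -Complex.ofReal_cos, -Complex.ofReal_sin,
      pow_two, Real.cosh_two_mul, Real.cos_two_mul]
    have h1 := Real.sin_sq_add_cos_sq φ
    have h2 := Real.cosh_sq t
    have h3 : Real.sin φ ^ 2 = 1 - Real.cos φ ^ 2 := by linarith
    have h4 : Real.cosh t ^ 2 = Real.sinh t ^ 2 + 1 := h2
    nlinarith [h3, h4]
  · simp [-Complex.ofReal_cosh, -Complex.ofReal_sinh, -Complex.ofReal_cos, -Complex.ofReal_sin,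
      pow_two, Real.sinh_two_mul, Real.sin_two_mul]
    ring

private theorem re_quot (Sh s2 K c X : ℝ) :
    ((((2 * Sh : ℝ) : ℂ) + ((2 * s2 : ℝ) : ℂ) * I) *
      (((4 * (2 + X - K * c) : ℝ) : ℂ) + ((4 * (Sh * s2) : ℝ) : ℂ) * I) /
      (((-2 * (K * c + X) : ℝ) : ℂ) + ((2 * (Sh * s2) : ℝ) : ℂ) * I) ^ 2).re =
    2 * (Sh * (2 + X - K * c - s2 ^ 2) * ((K * c + X) ^ 2 - (Sh * s2) ^ 2) -
      s2 * (2 + X - K * c + Sh ^ 2) * (2 * (K * c + X) * (Sh * s2))) /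
      ((K * c + X) ^ 2 + (Sh * s2) ^ 2) ^ 2 := by
  have e1 : (((2 * Sh : ℝ) : ℂ) + ((2 * s2 : ℝ) : ℂ) * I) *
      (((4 * (2 + X - K * c) : ℝ) : ℂ) + ((4 * (Sh * s2) : ℝ) : ℂ) * I) =
      ((8 * (Sh * (2 + X - K * c) - s2 * (Sh * s2)) : ℝ) : ℂ) +
      ((8 * (s2 * (2 + X - K * c) + Sh * (Sh * s2)) : ℝ) : ℂ) * I := by
    apply Complex.ext
    · simp; ring
    · simp; ring
  have e2 : (((-2 * (K * c + X) : ℝ) : ℂ) + ((2 * (Sh * s2) : ℝ) : ℂ) * I) ^ 2 =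
      ((4 * ((K * c + X) ^ 2 - (Sh * s2) ^ 2) : ℝ) : ℂ) +
      ((-8 * ((K * c + X) * (Sh * s2)) : ℝ) : ℂ) * I := by
    push_cast
    linear_combination (4 * ((Sh : ℂ) * s2) ^ 2) * Complex.I_sq
  rw [e1, e2, Complex.div_re]
  have e3 : Complex.normSq (((4 * ((K * c + X) ^ 2 - (Sh * s2) ^ 2) : ℝ) : ℂ) +
      ((-8 * ((K * c + X) * (Sh * s2)) : ℝ) : ℂ) * I) =
      16 * ((K * c + X) ^ 2 + (Sh * s2) ^ 2) ^ 2 := by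
    rw [Complex.normSq_add_mul_I]; ring
  rw [e3]
  have r1 : ∀ x y : ℝ, ((x : ℂ) + (y : ℂ) * I).re = x := by intro x y; simp
  have r2 : ∀ x y : ℝ, ((x : ℂ) + (y : ℂ) * I).im = y := by intro x y; simp
  rw [r1, r1, r2, r2]
  field_simp
  ring

theorem kpos2 {t φ : ℝ} (ht : 0 < t) (hK2 : 5 / 2 ≤ Real.cosh (2 * t))
    (hφ : yy J t φ ≤ 2 * Real.cosh (2 * t)) (β : ℝ) :
    -(2 / Real.tanh t) ≤
      (conj (G J t φ) * G1 J t φ / (G J t φ - 2 * Real.cos β) ^ 2).re +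
        (conj (G J t φ) * G1 J t φ / (G J t φ + 2 * Real.cos β) ^ 2).re := by
  have hd1 := GJ_ne ht φ β
  have hd2 := GJ_ne' ht φ β
  have hsum : conj (G J t φ) * G1 J t φ / (G J t φ - 2 * Real.cos β) ^ 2 +
      conj (G J t φ) * G1 J t φ / (G J t φ + 2 * Real.cos β) ^ 2 =
      (conj (G J t φ) * G1 J t φ) * (2 * (G J t φ ^ 2 + (2 * Real.cos β) ^ 2)) /
        (G J t φ ^ 2 - (2 * Real.cos β) ^ 2) ^ 2 := by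
    have h3 : (G J t φ ^ 2 - (2 * (Real.cos β : ℂ)) ^ 2) =
        (G J t φ - 2 * Real.cos β) * (G J t φ + 2 * Real.cos β) := by ring
    rw [h3]
    field_simp
    ring
  rw [← Complex.add_re, hsum]
  set Sh := Real.sinh (2 * t) with hSh
  set s2 := Real.sin (2 * φ) with hs2
  set K := Real.cosh (2 * t) with hK
  set c := -Real.cos (2 * φ) with hc
  set X := Real.cos (2 * β) with hX
  have hJ2 : G J t φ ^ 2 = ((2 - 2 * K * c : ℝ) : ℂ) + ((2 * Sh * s2 : ℝ) : ℂ) * I := by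
    have h1 := J2_eq t φ
    have h2 : Real.cos (2 * φ) = -c := by rw [hc]; ring
    rw [← hSh, ← hs2, ← hK, h2] at h1
    rw [h1]
    push_cast
    ring
  have hXe : X = 2 * Real.cos β ^ 2 - 1 := Real.cos_two_mul β
  have hM : G J t φ ^ 2 - (2 * (Real.cos β : ℂ)) ^ 2 =
      ((-2 * (K * c + X) : ℝ) : ℂ) + ((2 * (Sh * s2) : ℝ) : ℂ) * I := by
    rw [hJ2, hXe]
    push_cast
    ring
  have hN : 2 * (G J t φ ^ 2 + (2 * (Real.cos β : ℂ)) ^ 2) =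
      ((4 * (2 + X - K * c) : ℝ) : ℂ) + ((4 * (Sh * s2) : ℝ) : ℂ) * I := by
    rw [hJ2, hXe]
    push_cast
    ring
  have hne : (K * c + X) ^ 2 + (Sh * s2) ^ 2 ≠ 0 := by
    intro h0
    have h1 : K * c + X = 0 := by nlinarith [sq_nonneg (K * c + X), sq_nonneg (Sh * s2)]
    have h2 : Sh * s2 = 0 := by nlinarith [sq_nonneg (K * c + X), sq_nonneg (Sh * s2)]
    have h4 : G J t φ ^ 2 - (2 * (Real.cos β : ℂ)) ^ 2 = 0 := by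
      rw [hM, h1, h2]; simp
    have h5 : (G J t φ - 2 * Real.cos β) * (G J t φ + 2 * Real.cos β) = 0 := by
      rw [← h4]; ring
    rcases mul_eq_zero.1 h5 with h6 | h6
    · exact hd1 h6
    · exact hd2 h6
  rw [w_eq, hN, hM, re_quot Sh s2 K c X]
  have hKs : Sh ^ 2 = K ^ 2 - 1 := by
    rw [hSh, hK]; have := Real.cosh_sq (2 * t); linarith
  have hcs : s2 ^ 2 = 1 - c ^ 2 := by
    rw [hs2, hc]; have := Real.sin_sq_add_cos_sq (2 * φ); nlinarith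
  have hSh0 : 0 < Sh := Real.sinh_pos_iff.2 (by linarith)
  have hK1 : 1 < K := Real.one_lt_cosh.2 (by positivity)
  have hc1 : c ≤ 1 := by nlinarith [sq_nonneg s2]
  have hX1 : X ≤ 1 := Real.cos_le_one _
  have hX2 : -1 ≤ X := Real.neg_one_le_cos _
  have hyJ : yy J t φ = 2 * (K - c) := by
    rw [yy_J, hK, hc, Real.cosh_two_mul, Real.cos_two_mul]
    have := Real.cosh_sq t
    linear_combination (-2) * this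
  have hc0 : 0 ≤ c := by
    rw [hyJ] at hφ
    linarith
  have hpoly := kpoly2 hK2 hc0 hc1 hX2 hX1
  have hTe : Real.tanh t * Sh = K - 1 := by
    rw [Real.tanh_eq_sinh_div_cosh, hSh, hK, Real.sinh_two_mul, Real.cosh_two_mul]
    have := Real.cosh_sq t
    have hC : Real.cosh t ≠ 0 := (Real.cosh_pos t).ne'
    field_simp
    linear_combination (-1) * this
  have hT : 0 < Real.tanh t := by
    rw [Real.tanh_eq_sinh_div_cosh]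
    exact div_pos (Real.sinh_pos_iff.2 ht) (Real.cosh_pos t)
  have hP : (K * c + X) ^ 2 + (Sh * s2) ^ 2 = K ^ 2 - 1 + c ^ 2 + X ^ 2 + 2 * X * K * c := by
    rw [mul_pow, hKs, hcs]; ring
  have hP0 : 0 < (K * c + X) ^ 2 + (Sh * s2) ^ 2 := by positivity
  rw [neg_le_iff_add_nonneg, ← sub_neg_eq_add, sub_nonneg, neg_le_iff_add_nonneg,
    div_add_div _ _ (by positivity) hT.ne']
  apply div_nonneg _ (by positivity)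
  have e5 : 2 * (Sh * (2 + X - K * c - s2 ^ 2) * ((K * c + X) ^ 2 - (Sh * s2) ^ 2) -
      s2 * (2 + X - K * c + Sh ^ 2) * (2 * (K * c + X) * (Sh * s2))) * Real.tanh t +
      ((K * c + X) ^ 2 + (Sh * s2) ^ 2) ^ 2 * 2 = 
      2 * ((K ^ 2 - 1 + c ^ 2 + X ^ 2 + 2 * X * K * c) ^ 2 +
      (K - 1) * ((1 + X - K * c + c ^ 2) * ((X + K * c) ^ 2 - (K ^ 2 - 1) * (1 - c ^ 2)) -
        2 * (X + K * c) * (1 - c ^ 2) * (K ^ 2 + 1 + X - K * c))) := by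
    rw [hP]
    have e6 : 2 * (Sh * (2 + X - K * c - s2 ^ 2) * ((K * c + X) ^ 2 - (Sh * s2) ^ 2) -
      s2 * (2 + X - K * c + Sh ^ 2) * (2 * (K * c + X) * (Sh * s2))) * Real.tanh t =
      2 * (Real.tanh t * Sh) * ((2 + X - K * c - s2 ^ 2) * ((K * c + X) ^ 2 - Sh ^ 2 * s2 ^ 2) -
      (2 + X - K * c + Sh ^ 2) * (2 * (K * c + X) * s2 ^ 2)) := by ring
    rw [e6, hTe, hKs, hcs]
    ring
  rw [e5]
  positivity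

end Pool.Agent.H36.SZ
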