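import Pool.Agent.H36.SZ.HiD
import Pool.Agent.H36.SZ.LpK

/-!
# The linear part for a general partner `A`

`lin_eq`: the exact formula for `Re (A g(φ)) + Re (conj A g(-φ))`, `g = G F - G J`.
`lin_one`, `lin_two`: the resulting bounds; `lin2`: `Sg.lin` for all levels `x <= 2 cosh 2t`
when `cosh 2t >= 5/2`.
-/

open Complex MeasureTheory Set Filter Topology
open scoped ComplexConjugate Real

namespace Pool.Agent.H36.SZ

variable {F : ℂ → ℂ} {b : ℕ → ℂ} {q : ℝ}

theorem Sg.GR_symA (h : Sg F b q) {t : ℝ} (ht : 0 < t) (φ : ℝ) (A : ℂ) :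
    (A * (G F t φ - G J t φ)).re + (conj A * (G F t (-φ) - G J t (-φ))).re =
      2 * (A * GR b t φ).re := by
  have e1 : ∀ (ψ : ℝ) (n : ℕ), (exp ((t : ℂ) + ψ * I))⁻¹ ^ n =
      exp (-((n : ℂ) * (t + ψ * I))) := by
    intro ψ n
    rw [← exp_neg, ← exp_nat_mul]
    congr 1
    ring
  have hs : ∀ ψ : ℝ, HasSum (fun n : ℕ => (b n - (if n = 1 then 1 else 0)) *
      exp (-((n : ℂ) * (t + ψ * I)))) (G F t ψ - G J t ψ) := by
    intro ψ
    have hz : q < ‖exp ((t : ℂ) + ψ * I)‖ := by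
      rw [norm_exp]
      simpa using lt_trans h.q1 (Real.one_lt_exp_iff.2 ht)
    have h1 := h.hasSum _ hz
    have h2 : HasSum (fun n : ℕ => if n = 1 then (exp ((t : ℂ) + ψ * I))⁻¹ else 0)
        (exp ((t : ℂ) + ψ * I))⁻¹ := hasSum_ite_eq 1 _
    have h3 := h1.sub h2
    have hv : G F t ψ - G J t ψ =
        F (exp ((t : ℂ) + ψ * I)) - exp ((t : ℂ) + ψ * I) - (exp ((t : ℂ) + ψ * I))⁻¹ := by
      unfold G J
      ring
    rw [hv]
    have hf : (fun n : ℕ => (b n - (if n = 1 then 1 else 0)) *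
        exp (-((n : ℂ) * (t + ψ * I)))) = fun n : ℕ => b n * (exp ((t : ℂ) + ψ * I))⁻¹ ^ n -
          (if n = 1 then (exp ((t : ℂ) + ψ * I))⁻¹ else 0) := by
      funext n
      rw [← e1]
      by_cases hn : n = 1
      · subst hn
        simp only [if_true, pow_one]
        ring
      · simp only [hn, if_false]
        ring
    rw [hf]
    exact h3
  have s1 := hs φ
  have s2 := (hs (-φ)).map (starRingEnd ℂ) continuous_conj
  have s3 := s1.add s2
  have hsum : (G F t φ - G J t φ) + conj (G F t (-φ) - G J t (-φ)) = 2 * GR b t φ := by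
    rw [← s3.tsum_eq, GR, ← tsum_mul_left]
    refine tsum_congr fun n => ?_
    have e2 : conj (exp (-((n : ℂ) * (t + ((-φ : ℝ) : ℂ) * I)))) =
        exp (-((n : ℂ) * (t + φ * I))) := by
      rw [← exp_conj]
      congr 1
      simp
    have e3 : conj (b n - (if n = 1 then 1 else 0)) = conj (b n) - (if n = 1 then 1 else 0) := by
      split_ifs <;> simp
    simp only [Function.comp_apply, map_mul]
    rw [e2, e3]
    have e4 : conj (b n) = 2 * ((b n).re : ℂ) - b n := by
      apply Complex.ext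
      · simp; ring
      · simp
    rw [e4]
    split_ifs <;> push_cast <;> ring
  have e5 : (conj A * (G F t (-φ) - G J t (-φ))).re =
      (A * conj (G F t (-φ) - G J t (-φ))).re := by
    rw [← conj_re, map_mul, conj_conj]
  rw [e5, ← add_re, ← mul_add, hsum]
  have e6 : A * (2 * GR b t φ) = ((2 : ℝ) : ℂ) * (A * GR b t φ) := by
    push_cast
    ring
  rw [e6, re_ofReal_mul]

private theorem G_J_pi (t φ : ℝ) : G J t (φ + π) = -G J t φ := by
  rw [G_J, G_J, Real.cos_add_pi, Real.sin_add_pi]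
  push_cast
  ring

private theorem G1_J_pi (t φ : ℝ) : G1 J t (φ + π) = -G1 J t φ := by
  rw [G1_J, G1_J, Real.cos_add_pi, Real.sin_add_pi]
  push_cast
  ring

private theorem G_J_neg' (t φ : ℝ) : G J t (-φ) = conj (G J t φ) := by
  rw [G_J, G_J]
  apply Complex.ext
  · simp [-Complex.ofReal_cosh, -Complex.ofReal_sinh, -Complex.ofReal_cos, -Complex.ofReal_sin]
  · simp [-Complex.ofReal_cosh, -Complex.ofReal_sinh, -Complex.ofReal_cos, -Complex.ofReal_sin]

private theorem ker_cont {t : ℝ} (ht : 0 < t) (φ : ℝ) (A : ℂ) :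
    Continuous fun β : ℝ => (A * G1 J t φ / (G J t φ - 2 * Real.cos β) ^ 2).re := by
  refine continuous_re.comp (Continuous.div (by fun_prop) (by fun_prop) fun β => ?_)
  exact pow_ne_zero 2 (GJ_ne ht φ β)

theorem Sg.lin_eq (h : Sg F b q) {t : ℝ} (ht : 0 < t) (φ : ℝ) (A : ℂ) :
    (A * (G F t φ - G J t φ)).re + (conj A * (G F t (-φ) - G J t (-φ))).re =
      -(4 / π) * ∫ β in (0 : ℝ)..π, hb b β * Real.sin β *
        (A * G1 J t φ / (G J t φ - 2 * Real.cos β) ^ 2).re := by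
  have hcont := h.hb_cont
  have hne1' : ∀ β : ℝ, (G J t φ - 2 * Real.cos β) ^ 2 ≠ 0 := fun β =>
    pow_ne_zero 2 (GJ_ne ht φ β)
  rw [h.GR_symA ht φ A, h.GR_eq ht φ]
  have hi : IntervalIntegrable (fun β : ℝ => A * ((hb b β : ℂ) *
      (Real.sin β * G1 J t φ / (G J t φ - 2 * Real.cos β) ^ 2))) volume 0 π := by
    refine Continuous.intervalIntegrable ?_ _ _
    refine Continuous.mul (by fun_prop) (Continuous.mul (by fun_prop) ?_)
    exact Continuous.div (by fun_prop) (by fun_prop) hne1'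
  have e1 : A * (-(2 / π : ℝ) * ∫ β in (0 : ℝ)..π,
      (hb b β : ℂ) * (Real.sin β * G1 J t φ / (G J t φ - 2 * Real.cos β) ^ 2)) =
      ((-(2 / π) : ℝ) : ℂ) * ∫ β in (0 : ℝ)..π, A * ((hb b β : ℂ) *
      (Real.sin β * G1 J t φ / (G J t φ - 2 * Real.cos β) ^ 2)) := by
    rw [intervalIntegral.integral_const_mul]
    push_cast
    ring
  rw [e1, re_ofReal_mul]
  have e2 := Complex.reCLM.intervalIntegral_comp_comm hi
  rw [Complex.reCLM_apply] at e2
  rw [← e2]
  have e4 : (∫ β in (0 : ℝ)..π, Complex.reCLM (A * ((hb b β : ℂ) *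
      (Real.sin β * G1 J t φ / (G J t φ - 2 * Real.cos β) ^ 2)))) =
      ∫ β in (0 : ℝ)..π, hb b β * Real.sin β *
        (A * G1 J t φ / (G J t φ - 2 * Real.cos β) ^ 2).re := by
    refine intervalIntegral.integral_congr fun β _ => ?_
    beta_reduce
    rw [Complex.reCLM_apply]
    have e3 : A * ((hb b β : ℂ) *
        (Real.sin β * G1 J t φ / (G J t φ - 2 * Real.cos β) ^ 2)) =
        ((hb b β * Real.sin β : ℝ) : ℂ) *
          (A * G1 J t φ / (G J t φ - 2 * Real.cos β) ^ 2) := by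
      push_cast
      ring
    rw [e3, re_ofReal_mul]
  rw [e4]
  ring

theorem Sg.lin_one (h : Sg F b q) {t : ℝ} (ht : 0 < t) (φ : ℝ) (A : ℂ) {m : ℝ}
    (hk : ∀ β : ℝ, m ≤ (A * G1 J t φ / (G J t φ - 2 * Real.cos β) ^ 2).re) :
    (A * (G F t φ - G J t φ)).re + (conj A * (G F t (-φ) - G J t (-φ))).re ≤
      -(2 * m * (1 - (b 1).re)) := by
  have hcont := h.hb_cont
  have hcont2 := ker_cont ht φ A
  rw [h.lin_eq ht φ A]
  have hmono : ∫ β in (0 : ℝ)..π, hb b β * Real.sin β * m ≤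
      ∫ β in (0 : ℝ)..π, hb b β * Real.sin β *
        (A * G1 J t φ / (G J t φ - 2 * Real.cos β) ^ 2).re := by
    refine intervalIntegral.integral_mono_on Real.pi_pos.le
      (Continuous.intervalIntegrable (by fun_prop) _ _)
      (Continuous.intervalIntegrable (by fun_prop) _ _) fun β hβ => ?_
    refine mul_le_mul_of_nonneg_left (hk β) ?_
    exact mul_nonneg (h.hb_nonneg hβ.1 hβ.2) (Real.sin_nonneg_of_mem_Icc hβ)
  rw [intervalIntegral.integral_mul_const] at hmono
  have hs := h.hb_sin (m := 1) le_rfl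
  simp only [Nat.cast_one, one_mul, if_true, div_one] at hs
  rw [hs] at hmono
  have hpi := Real.pi_pos
  have e10 : -(2 * m * (1 - (b 1).re)) = -(4 / π) * (π / 2 * (1 - (b 1).re) * m) := by
    field_simp
    ring
  rw [e10]
  refine mul_le_mul_of_nonpos_left hmono ?_
  rw [neg_nonpos]
  positivity

theorem Sg.lin_two (h : Sg F b q) {t : ℝ} (ht : 0 < t) (φ : ℝ) (A : ℂ) {m : ℝ}
    (hk : ∀ β : ℝ, m ≤ (A * G1 J t φ / (G J t φ - 2 * Real.cos β) ^ 2).re +
      (A * G1 J t φ / (G J t φ + 2 * Real.cos β) ^ 2).re) :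
    (A * (G F t φ - G J t φ)).re + (conj A * (G F t (-φ) - G J t (-φ))).re -
      (A * (G F t (φ + π) - G J t (φ + π))).re -
      (conj A * (G F t (-(φ + π)) - G J t (-(φ + π)))).re ≤
      -(2 * m * (1 - (b 1).re)) := by
  have hcont := h.hb_cont
  have hc1 := ker_cont ht φ A
  have hc2 := ker_cont ht (φ + π) (-A)
  have k2 : ∀ β : ℝ, (-A * G1 J t (φ + π) / (G J t (φ + π) - 2 * Real.cos β) ^ 2).re =
      (A * G1 J t φ / (G J t φ + 2 * Real.cos β) ^ 2).re := by
    intro β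
    rw [G_J_pi, G1_J_pi, show (-G J t φ - 2 * (Real.cos β : ℂ)) ^ 2 =
      (G J t φ + 2 * Real.cos β) ^ 2 by ring]
    congr 2
    ring
  have a1 := h.lin_eq ht φ A
  have a2 := h.lin_eq ht (φ + π) (-A)
  simp only [k2] at a2 hc2
  have a3 : (-A * (G F t (φ + π) - G J t (φ + π))).re +
      (conj (-A) * (G F t (-(φ + π)) - G J t (-(φ + π)))).re =
      -(A * (G F t (φ + π) - G J t (φ + π))).re -
      (conj A * (G F t (-(φ + π)) - G J t (-(φ + π)))).re := by
    rw [map_neg, neg_mul, neg_mul, neg_re, neg_re]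
    ring
  rw [a3] at a2
  have i1 : IntervalIntegrable (fun β => hb b β * Real.sin β *
      (A * G1 J t φ / (G J t φ - 2 * Real.cos β) ^ 2).re) volume 0 π :=
    Continuous.intervalIntegrable (by fun_prop) _ _
  have i2 : IntervalIntegrable (fun β => hb b β * Real.sin β *
      (A * G1 J t φ / (G J t φ + 2 * Real.cos β) ^ 2).re) volume 0 π :=
    Continuous.intervalIntegrable (by fun_prop) _ _
  have hmono : ∫ β in (0 : ℝ)..π, hb b β * Real.sin β * m ≤
      ∫ β in (0 : ℝ)..π, (hb b β * Real.sin β *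
        (A * G1 J t φ / (G J t φ - 2 * Real.cos β) ^ 2).re + hb b β * Real.sin β *
        (A * G1 J t φ / (G J t φ + 2 * Real.cos β) ^ 2).re) := by
    refine intervalIntegral.integral_mono_on Real.pi_pos.le
      (Continuous.intervalIntegrable (by fun_prop) _ _) (i1.add i2) fun β hβ => ?_
    rw [← mul_add]
    refine mul_le_mul_of_nonneg_left (hk β) ?_
    exact mul_nonneg (h.hb_nonneg hβ.1 hβ.2) (Real.sin_nonneg_of_mem_Icc hβ)
  rw [intervalIntegral.integral_add i1 i2, intervalIntegral.integral_mul_const] at hmono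
  have hs := h.hb_sin (m := 1) le_rfl
  simp only [Nat.cast_one, one_mul, if_true, div_one] at hs
  rw [hs] at hmono
  have hpi := Real.pi_pos
  have e10 : -(2 * m * (1 - (b 1).re)) = -(4 / π) * (π / 2 * (1 - (b 1).re) * m) := by
    field_simp
    ring
  have e11 : -(4 / π) * ((∫ β in (0 : ℝ)..π, hb b β * Real.sin β *
      (A * G1 J t φ / (G J t φ - 2 * Real.cos β) ^ 2).re) + ∫ β in (0 : ℝ)..π,
      hb b β * Real.sin β * (A * G1 J t φ / (G J t φ + 2 * Real.cos β) ^ 2).re) ≤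
      -(2 * m * (1 - (b 1).re)) := by
    rw [e10]
    refine mul_le_mul_of_nonpos_left hmono ?_
    rw [neg_nonpos]
    positivity
  rw [mul_add, ← a1, ← a2] at e11
  linarith

theorem Sg.lin2 (h : Sg F b q) {t φ : ℝ} (ht : 0 < t) (hK : 5 / 2 ≤ Real.cosh (2 * t))
    (hφ : yy J t φ ≤ 2 * Real.cosh (2 * t)) :
    (conj (G J t φ) * (G F t φ - G J t φ)).re + (conj (G J t (-φ)) * (G F t (-φ) - G J t (-φ))).re +
      (conj (G J t (φ + π)) * (G F t (φ + π) - G J t (φ + π))).re +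
      (conj (G J t (-(φ + π))) * (G F t (-(φ + π)) - G J t (-(φ + π)))).re ≤
      4 * (1 - (b 1).re) / Real.tanh t := by
  have h1 := h.lin_two ht φ (conj (G J t φ)) (kpos2 ht hK hφ)
  have e1 : G J t (-(φ + π)) = -conj (G J t φ) := by
    rw [G_J_neg', G_J_pi, map_neg]
  have e2 : conj (G J t (-(φ + π))) = -G J t φ := by rw [e1, map_neg, conj_conj]
  have e3 : conj (G J t (φ + π)) = -conj (G J t φ) := by rw [G_J_pi, map_neg]
  rw [e2, e3, G_J_neg', neg_mul, neg_mul, neg_re, neg_re]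
  rw [conj_conj] at h1
  rw [conj_conj]
  have e4 : -(2 * -(2 / Real.tanh t) * (1 - (b 1).re)) = 4 * (1 - (b 1).re) / Real.tanh t := by
    ring
  rw [e4] at h1
  have e5 : G J t (-(φ + π)) = G J t (-(φ + π)) := rfl
  rw [G_J_neg'] at h1
  linarith

end Pool.Agent.H36.SZ
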