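import Pool.Agent.H36.SZ.Fz
import Pool.Agent.H97.SIM.Fin

/-!
# All powers from the kernels `Ph x`

PROOF. `y^p` is a mixture of `Ph x y`: with `kp p = int_(w>0) w^(p-2) Ph w 1 dw` (finite and
positive for `p > 1`: `0 <= Ph w 1 <= 1`, zero for `w >= 1`) and the homogeneity
`Ph (y w) y = y Ph w 1`: `int_(x>0) x^(p-2) Ph x y dx = kp p * y^p`.
Tonelli: `int_(x>0) x^(p-2) (int_θ Ph x (g θ)) dx = kp p * int_θ (g θ)^p`.
`fin_all`: `lam = 2`: `H97/SIM/Fin.lean`; `lam > 2`: compare the mixtures. Strict if `|b_1| < 1`: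
`Zf J t x - Zf F t x >= 0` is continuous in `x >= 0` and positive at `x = 0`
(`Ph 0 y = y` and the case `lam = 2`), so its integral is positive.
-/

open Complex MeasureTheory Set Filter Topology
open scoped ComplexConjugate Real

namespace Pool.Agent.H36.SZ

open Pool.Agent.H15.Sig

/-- the normalising constant -/
noncomputable def kp (p : ℝ) : ℝ := ∫ w in Ioi (0:ℝ), w ^ (p - 2) * Ph w 1

private theorem Ph_contOn {f g : ℝ × ℝ → ℝ} {s : Set (ℝ × ℝ)} (hf : ContinuousOn f s)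
    (hg : ContinuousOn g s) (hf0 : ∀ z ∈ s, 0 ≤ f z) (hg0 : ∀ z ∈ s, 0 ≤ g z) :
    ContinuousOn (fun z => Ph (f z) (g z)) s := by
  have h1 : ContinuousOn (fun z => Ph |f z| |g z|) s :=
    Ph_cont.comp_continuousOn (hf.prodMk hg)
  refine h1.congr fun z hz => ?_
  simp only
  rw [abs_of_nonneg (hf0 z hz), abs_of_nonneg (hg0 z hz)]

theorem kp_contOn (p : ℝ) : ContinuousOn (fun w : ℝ => w ^ (p - 2) * Ph w 1) (Ioi 0) := by
  apply ContinuousOn.mul
  · intro w hw
    exact (Real.continuousAt_rpow_const w (p - 2) (Or.inl (ne_of_gt hw))).continuousWithinAt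
  · have h1 : ContinuousOn (fun w : ℝ => Ph |w| |(1:ℝ)|) (Ioi 0) :=
      (Ph_cont.comp (by fun_prop : Continuous fun w : ℝ => ((w, 1) : ℝ × ℝ))).continuousOn
    refine h1.congr fun w hw => ?_
    simp only
    rw [abs_of_pos (show (0:ℝ) < w from hw), abs_one]

theorem kp_integrable {p : ℝ} (h1 : 1 < p) :
    IntegrableOn (fun w : ℝ => w ^ (p - 2) * Ph w 1) (Ioi 0) := by
  have hc := kp_contOn p
  rw [← Ioc_union_Ioi_eq_Ioi (zero_le_one' ℝ)]
  apply IntegrableOn.union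
  · have hb : IntegrableOn (fun w : ℝ => w ^ (p - 2)) (Ioc 0 1) :=
      (intervalIntegral.intervalIntegrable_rpow' (a := 0) (b := 1) (r := p - 2) (by linarith)).1
    refine Integrable.mono' hb ?_ ?_
    · exact (hc.mono Ioc_subset_Ioi_self).aestronglyMeasurable measurableSet_Ioc
    · refine (ae_restrict_mem measurableSet_Ioc).mono fun w hw => ?_
      have hw0 : 0 < w := hw.1
      rw [Real.norm_of_nonneg (mul_nonneg (Real.rpow_nonneg hw0.le _) (Ph_nonneg hw0.le _))]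
      exact mul_le_of_le_one_right (Real.rpow_nonneg hw0.le _) (Ph_le_self hw0.le zero_le_one)
  · have hz : EqOn (fun w : ℝ => w ^ (p - 2) * Ph w 1) (fun _ => 0) (Ioi 1) := by
      intro w hw
      have hw1 : (1:ℝ) < w := hw
      simp only
      rw [Ph_of_le hw1.le, mul_zero]
    exact (integrableOn_congr_fun hz measurableSet_Ioi).2 integrableOn_zero

theorem kp_pos {p : ℝ} (h1 : 1 < p) : 0 < kp p := by
  have hnn : ∀ w ∈ Ioi (0:ℝ), 0 ≤ w ^ (p - 2) * Ph w 1 := by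
    intro w hw
    have hw0 : (0:ℝ) < w := hw
    exact mul_nonneg (Real.rpow_nonneg hw0.le _) (Ph_nonneg hw0.le _)
  rw [kp, setIntegral_pos_iff_support_of_nonneg_ae
    ((ae_restrict_mem measurableSet_Ioi).mono fun w hw => hnn w hw) (kp_integrable h1)]
  have hsub : Ioo (0:ℝ) 1 ⊆ Function.support (fun w : ℝ => w ^ (p - 2) * Ph w 1) ∩ Ioi 0 := by
    intro w hw
    refine ⟨?_, hw.1⟩
    have hw0 : (0:ℝ) < w := hw.1
    have hlog : Real.log (1 / w) < 1 / w - 1 :=
      Real.log_lt_sub_one_of_pos (by positivity) (by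
        intro h
        have := hw.2
        rw [div_eq_iff hw0.ne'] at h
        linarith)
    have hP : 0 < Ph w 1 := by
      rw [Ph_of_ge hw.2.le]
      have h2 := mul_lt_mul_of_pos_left hlog hw0
      have h3 : w * (1 / w - 1) = 1 - w := by field_simp
      linarith
    exact (mul_pos (Real.rpow_pos_of_pos hw0 _) hP).ne'
  refine lt_of_lt_of_le ?_ (measure_mono hsub)
  rw [Real.volume_Ioo]
  norm_num

theorem kp_scale {p y : ℝ} (hy : 0 < y) (w : ℝ) (hw : w ∈ Ioi (0:ℝ)) :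
    (y * w) ^ (p - 2) * Ph (y * w) y = y ^ (p - 1) * (w ^ (p - 2) * Ph w 1) := by
  have h1 : Ph (y * w) y = y * Ph w 1 := by
    have := Ph_scale hy w 1
    rwa [mul_one] at this
  rw [h1, Real.mul_rpow hy.le (le_of_lt hw), show p - 1 = (p - 2) + 1 by ring,
    Real.rpow_add_one hy.ne']
  ring

private theorem Ph_x0 {x : ℝ} (hx : 0 < x) : Ph x 0 = 0 := Ph_of_le hx.le

theorem kp_mix_integrable {p : ℝ} (h1 : 1 < p) {y : ℝ} (hy : 0 ≤ y) :
    IntegrableOn (fun x : ℝ => x ^ (p - 2) * Ph x y) (Ioi 0) := by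
  rcases hy.eq_or_lt with h | h
  · subst h
    have hz : EqOn (fun x : ℝ => x ^ (p - 2) * Ph x 0) (fun _ => 0) (Ioi 0) := by
      intro x hx
      simp only
      rw [Ph_x0 hx, mul_zero]
    exact (integrableOn_congr_fun hz measurableSet_Ioi).2 integrableOn_zero
  · have hk := integrableOn_Ioi_comp_mul_left_iff (fun x : ℝ => x ^ (p - 2) * Ph x y) 0 h
    rw [mul_zero] at hk
    rw [← hk]
    refine ((kp_integrable h1).const_mul (y ^ (p - 1))).congr ?_
    refine (ae_restrict_mem measurableSet_Ioi).mono fun w hw => ?_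
    exact (kp_scale h w hw).symm

theorem kp_mix {p : ℝ} (h1 : 1 < p) {y : ℝ} (hy : 0 ≤ y) :
    ∫ x in Ioi (0:ℝ), x ^ (p - 2) * Ph x y = kp p * y ^ p := by
  rcases hy.eq_or_lt with h | h
  · subst h
    rw [Real.zero_rpow (by linarith), mul_zero]
    have hz : EqOn (fun x : ℝ => x ^ (p - 2) * Ph x 0) (fun _ => 0) (Ioi 0) := by
      intro x hx
      simp only
      rw [Ph_x0 hx, mul_zero]
    rw [setIntegral_congr_fun measurableSet_Ioi hz]
    simp
  · have hk := integral_comp_mul_left_Ioi (fun x : ℝ => x ^ (p - 2) * Ph x y) 0 h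
    rw [mul_zero, smul_eq_mul] at hk
    have he : ∫ w in Ioi (0:ℝ), (y * w) ^ (p - 2) * Ph (y * w) y = y ^ (p - 1) * kp p := by
      rw [kp, ← integral_const_mul]
      exact setIntegral_congr_fun measurableSet_Ioi fun w hw => kp_scale h w hw
    have hk2 : y ^ (p - 1) * kp p = y⁻¹ * ∫ x in Ioi (0:ℝ), x ^ (p - 2) * Ph x y := by
      rw [← he]; exact hk
    have hyp : y ^ p = y ^ (p - 1) * y := by
      rw [← Real.rpow_add_one h.ne']; congr 1; ring
    have hyi : y * y⁻¹ = 1 := mul_inv_cancel₀ h.ne'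
    calc ∫ x in Ioi (0:ℝ), x ^ (p - 2) * Ph x y
        = y * (y⁻¹ * ∫ x in Ioi (0:ℝ), x ^ (p - 2) * Ph x y) := by
          rw [← mul_assoc, hyi, one_mul]
      _ = kp p * y ^ p := by rw [← hk2, hyp]; ring

/-- the integrand on the product -/
private theorem int_prod {p : ℝ} (h1 : 1 < p) {g : ℝ → ℝ} (hg : Continuous g)
    (hg0 : ∀ θ, 0 ≤ g θ) :
    Integrable (fun z : ℝ × ℝ => z.1 ^ (p - 2) * Ph z.1 (g z.2))
      ((volume.restrict (Ioi (0:ℝ))).prod (volume.restrict (Ioc (-π) π))) := by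
  obtain ⟨M, hM0, hM⟩ : ∃ M : ℝ, 0 ≤ M ∧ ∀ t ∈ Ioc (-π) π, g t ≤ M := by
    obtain ⟨M, hM⟩ := (isCompact_Icc (a := -π) (b := π)).bddAbove_image
      (f := g) hg.continuousOn
    refine ⟨max M 0, le_max_right _ _, fun t ht => ?_⟩
    exact (hM (mem_image_of_mem _ (Ioc_subset_Icc_self ht))).trans (le_max_left _ _)
  have hfin : IsFiniteMeasure (volume.restrict (Ioc (-π) π)) := inferInstance
  have hdom : Integrable (fun z : ℝ × ℝ => (z.1 ^ (p - 2) * Ph z.1 M) * 1)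
      ((volume.restrict (Ioi (0:ℝ))).prod (volume.restrict (Ioc (-π) π))) :=
    Integrable.mul_prod (kp_mix_integrable h1 hM0) (integrable_const (1:ℝ))
  have hae : ∀ᵐ z ∂((volume.restrict (Ioi (0:ℝ))).prod (volume.restrict (Ioc (-π) π))),
      z ∈ Ioi (0:ℝ) ×ˢ Ioc (-π) π := by
    rw [Measure.prod_restrict]
    exact ae_restrict_mem (measurableSet_Ioi.prod measurableSet_Ioc)
  refine hdom.mono' ?_ ?_
  · rw [Measure.prod_restrict]
    refine ContinuousOn.aestronglyMeasurable ?_ (measurableSet_Ioi.prod measurableSet_Ioc)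
    apply ContinuousOn.mul
    · intro z hz
      have hz0 : (0:ℝ) < z.1 := hz.1
      exact ((Real.continuousAt_rpow_const z.1 (p - 2) (Or.inl hz0.ne')).comp
        continuousAt_fst).continuousWithinAt
    · refine Ph_contOn continuous_fst.continuousOn (hg.comp continuous_snd).continuousOn ?_ ?_
      · intro z hz
        exact le_of_lt hz.1
      · intro z _
        exact hg0 _
  · refine hae.mono fun z hz => ?_
    have hz0 : (0:ℝ) < z.1 := hz.1
    rw [Real.norm_of_nonneg (mul_nonneg (Real.rpow_nonneg hz0.le _) (Ph_nonneg hz0.le _)), mul_one]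
    exact mul_le_mul_of_nonneg_left (Ph_mono hz0.le (hM z.2 hz.2)) (Real.rpow_nonneg hz0.le _)

theorem kp_tonelli {p : ℝ} (h1 : 1 < p) {g : ℝ → ℝ} (hg : Continuous g) (hg0 : ∀ θ, 0 ≤ g θ) :
    IntegrableOn (fun x : ℝ => x ^ (p - 2) * ∫ θ in (-π)..π, Ph x (g θ)) (Ioi 0) ∧
    ∫ x in Ioi (0:ℝ), x ^ (p - 2) * (∫ θ in (-π)..π, Ph x (g θ)) =
      kp p * ∫ θ in (-π)..π, g θ ^ p := by
  have hi := int_prod h1 hg hg0
  have hle : -π ≤ π := by linarith [Real.pi_pos]
  have e1 : ∀ x : ℝ, x ^ (p - 2) * (∫ θ in (-π)..π, Ph x (g θ)) =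
      ∫ θ in Ioc (-π) π, x ^ (p - 2) * Ph x (g θ) := by
    intro x
    rw [intervalIntegral.integral_of_le hle, integral_const_mul]
  have hi1 : Integrable (fun x : ℝ => ∫ θ in Ioc (-π) π, x ^ (p - 2) * Ph x (g θ))
      (volume.restrict (Ioi (0:ℝ))) := hi.integral_prod_left
  constructor
  · refine hi1.congr (Eventually.of_forall fun x => ?_)
    exact (e1 x).symm
  · simp_rw [e1]
    have hsw := integral_integral_swap (μ := volume.restrict (Ioi (0:ℝ)))
      (ν := volume.restrict (Ioc (-π) π))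
      (f := fun x θ => x ^ (p - 2) * Ph x (g θ)) hi
    rw [hsw]
    have e2 : ∀ θ : ℝ, ∫ x in Ioi (0:ℝ), x ^ (p - 2) * Ph x (g θ) =
        kp p * g θ ^ p := fun θ => kp_mix h1 (hg0 θ)
    simp_rw [e2]
    rw [integral_const_mul, intervalIntegral.integral_of_le hle]

variable {F : ℂ → ℂ} {b : ℕ → ℂ}

private theorem exp_pt {r : ℝ} (hr : 1 < r) (θ : ℝ) :
    Complex.exp ((Real.log r : ℝ) + θ * I) = (r : ℂ) * Complex.exp (θ * I) := by
  rw [Complex.exp_add, ← Complex.ofReal_exp, Real.exp_log (by linarith)]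

private theorem sig_cont (h : IsSig F b) {r : ℝ} (hr : 1 < r) :
    Continuous (fun θ : ℝ => yy F (Real.log r) θ) := by
  unfold yy G
  refine Continuous.pow (Continuous.norm ?_) 2
  rw [continuous_iff_continuousAt]
  intro θ
  have h1 : ContinuousAt F (Complex.exp ((Real.log r : ℝ) + θ * I)) := by
    refine (h.differentiableAt ?_).continuousAt
    rw [exp_pt hr]
    exact norm_circle_pt hr θ
  exact ContinuousAt.comp (f := fun θ : ℝ => Complex.exp ((Real.log r : ℝ) + θ * I)) h1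
    (by fun_prop)

private theorem mean_eq {lam r : ℝ} (hr : 1 < r) (F : ℂ → ℂ) :
    integralMean lam r F = ((2 * π)⁻¹ * ∫ θ in (-π)..π, yy F (Real.log r) θ ^ (lam / 2)) ^
      (1 / lam) := by
  rw [integralMean_eq]
  congr 2
  apply intervalIntegral.integral_congr
  intro θ _
  simp only
  unfold yy G
  rw [exp_pt hr, ← Real.rpow_natCast, ← Real.rpow_mul (norm_nonneg _)]
  congr 1
  push_cast
  ring

private theorem yy_nonneg (F : ℂ → ℂ) (t θ : ℝ) : 0 ≤ yy F t θ := by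
  unfold yy
  positivity

theorem all_lt (H : ∀ (F : ℂ → ℂ) (b : ℕ → ℂ) (q : ℝ), Sg F b q → ∀ t x : ℝ, 0 < t → 0 ≤ x →
    Zf F t x ≤ Zf J t x) (h : IsSig F b) (hb : ‖b 1‖ < 1) {lam r : ℝ} (h2 : 2 ≤ lam)
    (hr : 1 < r) : integralMean lam r F < integralMean lam r (fun z => z + z⁻¹) := by
  rcases h2.eq_or_lt with h2' | h2'
  · subst h2'
    exact Pool.Agent.H97.SIM.fin_lt h hb le_rfl (by norm_num) hr
  have ht : 0 < Real.log r := Real.log_pos hr
  have hp : 1 < lam / 2 := by linarith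
  have hJ : IsSig (fun z : ℂ => z + z⁻¹) jb := isSig_J
  have cF := sig_cont h hr
  have cJ : Continuous (fun θ : ℝ => yy J (Real.log r) θ) := sig_cont hJ hr
  have tF := kp_tonelli hp cF (yy_nonneg F _)
  have tJ := kp_tonelli hp cJ (yy_nonneg J _)
  have hle : ∀ x ∈ Ioi (0:ℝ), 0 ≤ x ^ (lam / 2 - 2) * (∫ θ in (-π)..π, Ph x (yy J (Real.log r) θ)) -
      x ^ (lam / 2 - 2) * (∫ θ in (-π)..π, Ph x (yy F (Real.log r) θ)) := by
    intro x hx
    have hx0 : (0:ℝ) < x := hx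
    have h3 : (∫ θ in (-π)..π, Ph x (yy F (Real.log r) θ)) ≤
        ∫ θ in (-π)..π, Ph x (yy J (Real.log r) θ) := fz H h ht hx0.le
    have h4 := mul_le_mul_of_nonneg_left h3 (Real.rpow_nonneg hx0.le (lam / 2 - 2))
    linarith
  -- positivity near zero
  have hc : ∀ g : ℝ → ℝ, Continuous g → (∀ θ, 0 ≤ g θ) →
      Continuous (fun x : ℝ => ∫ θ in (-π)..π, Ph |x| (g θ)) := by
    intro g hg hg0
    apply intervalIntegral.continuous_parametric_intervalIntegral_of_continuous'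
    have h5 : Continuous (fun z : ℝ × ℝ => Ph |z.1| |g z.2|) :=
      Ph_cont.comp (by fun_prop : Continuous fun z : ℝ × ℝ => ((z.1, g z.2) : ℝ × ℝ))
    refine h5.congr fun z => ?_
    simp only [Function.uncurry]
    rw [abs_of_nonneg (hg0 z.2)]
  have h0 : (∫ θ in (-π)..π, Ph |(0:ℝ)| (yy F (Real.log r) θ)) <
      ∫ θ in (-π)..π, Ph |(0:ℝ)| (yy J (Real.log r) θ) := by
    rw [abs_zero]
    have e1 : ∀ g : ℂ → ℂ, (∫ θ in (-π)..π, Ph 0 (yy g (Real.log r) θ)) =
        ∫ θ in (-π)..π, yy g (Real.log r) θ := by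
      intro g
      apply intervalIntegral.integral_congr
      intro θ _
      exact Ph_zero (yy_nonneg g _ θ)
    rw [e1, e1]
    have h6 := Pool.Agent.H97.SIM.fin_lt h hb (lam := 2) le_rfl (by norm_num) hr
    rw [mean_eq hr, mean_eq hr] at h6
    have hnn : ∀ g : ℂ → ℂ,
        0 ≤ (2 * π)⁻¹ * ∫ θ in (-π)..π, yy g (Real.log r) θ ^ ((2:ℝ) / 2) := fun g =>
      mul_nonneg (by positivity) (intervalIntegral.integral_nonneg (by
        linarith [Real.pi_pos]) fun θ _ => Real.rpow_nonneg (yy_nonneg _ _ _) _)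
    have h7 := (Real.rpow_lt_rpow_iff (hnn F) (hnn _) (by norm_num : (0:ℝ) < 1 / 2)).1 h6
    have h8 := lt_of_mul_lt_mul_left h7 (by positivity)
    have e2 : ∀ g : ℂ → ℂ, (∫ θ in (-π)..π, yy g (Real.log r) θ ^ ((2:ℝ) / 2)) =
        ∫ θ in (-π)..π, yy g (Real.log r) θ := by
      intro g
      apply intervalIntegral.integral_congr
      intro θ _
      simp only
      rw [show (2:ℝ) / 2 = 1 by norm_num, Real.rpow_one]
    rw [e2, e2] at h8
    exact h8
  obtain ⟨δ, hδ, hδp⟩ : ∃ δ > (0:ℝ), ∀ x ∈ Ioo (0:ℝ) δ,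
      (∫ θ in (-π)..π, Ph x (yy F (Real.log r) θ)) <
        ∫ θ in (-π)..π, Ph x (yy J (Real.log r) θ) := by
    have h6 := ((hc _ cF (yy_nonneg F _)).tendsto 0).eventually_lt
      ((hc _ cJ (yy_nonneg J _)).tendsto 0) h0
    obtain ⟨δ, hδ, h7⟩ := Metric.eventually_nhds_iff.1 h6
    refine ⟨δ, hδ, fun x hx => ?_⟩
    have h8 := h7 (y := x) (by rw [Real.dist_0_eq_abs, abs_of_pos hx.1]; exact hx.2)
    rwa [abs_of_pos hx.1] at h8
  have hint : IntegrableOn (fun x : ℝ =>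
      x ^ (lam / 2 - 2) * (∫ θ in (-π)..π, Ph x (yy J (Real.log r) θ)) -
      x ^ (lam / 2 - 2) * (∫ θ in (-π)..π, Ph x (yy F (Real.log r) θ))) (Ioi 0) := tJ.1.sub tF.1
  have h6 : 0 < ∫ x in Ioi (0:ℝ),
      (x ^ (lam / 2 - 2) * (∫ θ in (-π)..π, Ph x (yy J (Real.log r) θ)) -
      x ^ (lam / 2 - 2) * (∫ θ in (-π)..π, Ph x (yy F (Real.log r) θ))) := by
    rw [setIntegral_pos_iff_support_of_nonneg_ae _ hint]
    · have h7 : Ioo (0:ℝ) δ ⊆ (Function.support (fun x : ℝ =>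
          x ^ (lam / 2 - 2) * (∫ θ in (-π)..π, Ph x (yy J (Real.log r) θ)) -
          x ^ (lam / 2 - 2) * (∫ θ in (-π)..π, Ph x (yy F (Real.log r) θ)))) ∩ Ioi 0 := by
        intro x hx
        refine ⟨?_, hx.1⟩
        have h8 := mul_lt_mul_of_pos_left (hδp x hx) (Real.rpow_pos_of_pos hx.1 (lam / 2 - 2))
        have h9 : 0 < x ^ (lam / 2 - 2) * (∫ θ in (-π)..π, Ph x (yy J (Real.log r) θ)) -
            x ^ (lam / 2 - 2) * (∫ θ in (-π)..π, Ph x (yy F (Real.log r) θ)) := by linarith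
        exact h9.ne'
      refine lt_of_lt_of_le ?_ (measure_mono h7)
      rw [Real.volume_Ioo, ENNReal.ofReal_pos]
      linarith
    · rw [Filter.EventuallyLE, ae_restrict_iff' measurableSet_Ioi]
      exact Filter.Eventually.of_forall (fun x hx => hle x hx)
  rw [integral_sub tJ.1 tF.1, tF.2, tJ.2] at h6
  have h7 : (∫ θ in (-π)..π, yy F (Real.log r) θ ^ (lam / 2)) <
      ∫ θ in (-π)..π, yy J (Real.log r) θ ^ (lam / 2) :=
    lt_of_mul_lt_mul_left (by linarith) (kp_pos hp).le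
  rw [mean_eq hr, mean_eq hr]
  apply Real.rpow_lt_rpow _ _ (by positivity)
  · exact mul_nonneg (by positivity) (intervalIntegral.integral_nonneg (by
      linarith [Real.pi_pos]) fun θ _ => Real.rpow_nonneg (yy_nonneg _ _ _) _)
  · exact mul_lt_mul_of_pos_left h7 (by positivity)

/-- the final theorem, given the comparison of the kernels for the functions univalent in a larger
domain -/
theorem fin_all (H : ∀ (F : ℂ → ℂ) (b : ℕ → ℂ) (q : ℝ), Sg F b q → ∀ t x : ℝ, 0 < t → 0 ≤ x →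
    Zf F t x ≤ Zf J t x) {lam r : ℝ} (h2 : 2 ≤ lam) (hr : 1 < r) :
    IsGreatest {x : ℝ | ∃ F : ℂ → ℂ, ClassSigma F ∧ x = integralMean lam r F}
      (integralMean lam r (fun z => z + z⁻¹)) ∧
    ∀ F : ℂ → ℂ, ClassSigma F →
      (integralMean lam r F = integralMean lam r (fun z => z + z⁻¹) ↔
        ∃ c : ℂ, ‖c‖ = 1 ∧ ∀ z : ℂ, 1 < ‖z‖ → F z = z + c / z) := by
  have hiff : ∀ F : ℂ → ℂ, ClassSigma F →
      (integralMean lam r F = integralMean lam r (fun z => z + z⁻¹) ↔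
        ∃ c : ℂ, ‖c‖ = 1 ∧ ∀ z : ℂ, 1 < ‖z‖ → F z = z + c / z) := by
    intro F hF
    obtain ⟨b, hb⟩ := hF.isSig
    constructor
    · intro he
      by_cases h1 : ‖b 1‖ < 1
      · exact absurd he (all_lt H hb h1 h2 hr).ne
      · exact ⟨b 1, hb.eq_of_norm_one h1⟩
    · rintro ⟨c, hc, hFc⟩
      exact integralMean_rotJ hc hFc hr
  refine ⟨⟨⟨_, classSigma_J, rfl⟩, ?_⟩, hiff⟩
  rintro x ⟨F, hF, rfl⟩
  obtain ⟨b, hb⟩ := hF.isSig
  by_cases h1 : ‖b 1‖ < 1
  · exact (all_lt H hb h1 h2 hr).le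
  · exact ((hiff F hF).2 ⟨b 1, hb.eq_of_norm_one h1⟩).le

end Pool.Agent.H36.SZ
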