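import Pool.Agent.H36.SZ.LgF
import Pool.Agent.H36.SZ.St
import Pool.Agent.H36.SZ.Pw
import Pool.Agent.H36.SZ.Red

/-!
# No contact point, all orders `lambda >= 2`

`Dyn`: the dynamic theorem, the conditions `Cl` at a contact point cannot hold for
`tanh t * tan θ < 4/5` (all lobes short if `t <= 3/5`). With `Sg.static` (`t >= 3/2`) and
`Sg.short` (which contains `Sg.lowk`) there is no contact point.
-/

open Complex MeasureTheory Set Filter Topology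
open scoped ComplexConjugate Real
open Pool.Agent.H15.Sig

namespace Pool.Agent.H36.SZ

/-- the dynamic theorem -/
def Dyn : Prop := ∀ (t θ : ℝ) (L : List Lb), 0 < t → 0 < θ → θ < π / 2 →
  Real.tanh t * Real.tan θ < 4 / 5 → Cl t θ L → (t ≤ 3 / 5 → ∀ l ∈ L, l.b < π / 2) → False

theorem Sg.noct {F : ℂ → ℂ} {b : ℕ → ℂ} {q : ℝ} (hd : Dyn) (h : Sg F b q) (t x : ℝ) :
    ¬ Ct F t x := by
  intro c
  have ht : 0 < t := c.t0
  have hx : 0 < x := lt_of_le_of_lt (by positivity) c.lo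
  rcases le_or_gt (3 / 2) t with h1 | h1
  · exact absurd c.pos (not_lt.2 (h.static h1 hx.le))
  obtain ⟨θ, L, h2, h3, _, h4, h5, h6⟩ := h.short c h1.le
  exact hd t θ L ht h2 h3 h4 h5 h6

theorem zf_all (hd : Dyn) {F : ℂ → ℂ} {b : ℕ → ℂ} {q : ℝ} (h : Sg F b q) {t x : ℝ} (ht : 0 ≤ t)
    (hx : 0 ≤ x) : Zf F t x ≤ Zf J t x :=
  h.le_of_no (h.noct hd) ht hx

theorem fin2 (hd : Dyn) {lam r : ℝ} (h2 : 2 ≤ lam) (hr : 1 < r) :
    IsGreatest {x : ℝ | ∃ F : ℂ → ℂ, ClassSigma F ∧ x = integralMean lam r F}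
      (integralMean lam r (fun z => z + z⁻¹)) ∧
    ∀ F : ℂ → ℂ, ClassSigma F →
      (integralMean lam r F = integralMean lam r (fun z => z + z⁻¹) ↔
        ∃ c : ℂ, ‖c‖ = 1 ∧ ∀ z : ℂ, 1 < ‖z‖ → F z = z + c / z) :=
  fin_all (fun _ _ _ h _ _ ht hx => zf_all hd h ht.le hx) h2 hr

end Pool.Agent.H36.SZ
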