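import Pool.Agent.H36.SZ.TiK
import Pool.Agent.H36.SZ.HiA

/-!
# Tip levels, `t >= 3/2`: the even part, and small facts

`μ = 1 - p`, `Q = Qe t <= e^(-3) < 0.0498`.
PROOF of `base_le`. With `z = exp (t + iφ)`, `g = G F - G J`: `Jb = J - μ / z`, `Hf = g + μ / z`,
`conj Jb * Hf = conj J * g + μ conj J / z - μ conj (1/z) Hf`. The sum over `φ` and `-φ` of the real
parts of the first terms is `<= -(2 * (39/100) μ)` (`lin_one` with `A = conj (G J t φ)`, `kone`,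
`G J t (-φ) = conj (G J t φ)`). `yb + 2 μ Re (conj J / z) = |J|^2 + μ^2 Q` (same value at `-φ`).
The last terms are `<= 2 μ e^(-t) sqrt La <= 0.01604 μ` (`H_sup`, `e^(-t) = sqrt Q <= 0.2232`,
`sqrt La <= 0.0359`). Sum: `|J|^2 + μ (-0.78 + 0.0498 + 0.01604) <= |J|^2 - 0.71 μ`.
PROOF of `H_small`: `H_sup`, `1 - p^2 <= 2 (1-p)`, `2 La <= 0.00257`
(`La = Q^2/2 + Q^3/(3(1-Q))`, increasing in `Q`).
PROOF of `out_le`: `yy F <= yb + 2 Jm |Hf| + |Hf|^2` (`yy_split`, `Af_le`, `Jb_le`), and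
`yb - x = 2 (p cos 2φ - c) - Q (1-p^2) <= 2 (p cos 0.9 - 0.65)` with `cos 0.9 <= 0.6217`,
`Jm^2 La = (1+Q)^2 (Q/2 + Q^2/(3(1-Q))) <= 0.1686^2`, so with `s = sqrt (1-p)`,
`|Hf| <= sqrt 2 s sqrt La`: the sum is `<= -0.0566 - 1.2408 s^2 + 0.477 s < 0`.
-/

open Complex MeasureTheory Set Filter Topology
open scoped ComplexConjugate Real

namespace Pool.Agent.H36.SZ

variable {F : ℂ → ℂ} {b : ℕ → ℂ} {q : ℝ}

theorem Qe_small {t : ℝ} (ht : 3 / 2 ≤ t) : 0 < Qe t ∧ Qe t ≤ 498 / 10000 := by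
  refine ⟨Real.exp_pos _, ?_⟩
  have h1 : Qe t ≤ Real.exp (-3) := by
    unfold Qe
    exact Real.exp_le_exp.2 (by linarith)
  have h2 : Real.exp 3 = Real.exp 1 ^ 3 := by
    rw [← Real.exp_nat_mul]; norm_num
  have h3 := Real.exp_one_gt_d9
  have h4 : (2.7182818283 : ℝ) ^ 3 ≤ Real.exp 1 ^ 3 :=
    pow_le_pow_left₀ (by norm_num) h3.le 3
  have h5 : (10000 / 498 : ℝ) ≤ Real.exp 3 := by
    rw [h2]
    refine le_trans ?_ h4
    norm_num
  have h6 : Real.exp (-3) ≤ 498 / 10000 := by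
    rw [Real.exp_neg]
    rw [inv_le_comm₀ (Real.exp_pos _) (by norm_num)]
    refine le_trans (le_of_eq ?_) h5
    norm_num
  exact h1.trans h6

private theorem TiB_frac {Q : ℝ} (h0 : 0 < Q) (h1 : Q ≤ 498 / 10000) :
    Q ^ 2 / (3 * (1 - Q)) ≤ 871 / 1000000 := by
  have h2 : 0 < 3 * (1 - Q) := by linarith
  rw [div_le_iff₀ h2]
  nlinarith

theorem La_small {t : ℝ} (ht : 3 / 2 ≤ t) : 0 ≤ La t ∧ La t ≤ 1285 / 1000000 := by
  obtain ⟨h0, h1⟩ := Qe_small ht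
  have h2 : 0 < 3 * (1 - Qe t) := by linarith
  have h3 := TiB_frac h0 h1
  have e : Qe t ^ 3 / (3 * (1 - Qe t)) = Qe t * (Qe t ^ 2 / (3 * (1 - Qe t))) := by
    ring
  have h4 : 0 ≤ Qe t ^ 2 / (3 * (1 - Qe t)) := by positivity
  unfold La
  rw [e]
  refine ⟨by positivity, ?_⟩
  nlinarith

private theorem TiB_JmLa {t : ℝ} (ht : 3 / 2 ≤ t) : Jm t ^ 2 * La t ≤ 2842 / 100000 := by
  obtain ⟨h0, h1⟩ := Qe_small ht
  have h2 : 0 < 3 * (1 - Qe t) := by linarith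
  have h3 := TiB_frac h0 h1
  have h4 : 0 ≤ Qe t ^ 2 / (3 * (1 - Qe t)) := by positivity
  have e1 : Real.exp t ^ 2 * Qe t = 1 := by
    rw [Qe_eq', ← mul_pow, exp_t_mul, one_pow]
  have e2 : Jm t ^ 2 * La t =
      (1 + Qe t) ^ 2 * (Qe t / 2 + Qe t ^ 2 / (3 * (1 - Qe t))) * (Real.exp t ^ 2 * Qe t) := by
    unfold Jm La
    ring
  rw [e2, e1, mul_one]
  have h5 : (1 + Qe t) ^ 2 ≤ 110209 / 100000 := by nlinarith
  have h6 : Qe t / 2 + Qe t ^ 2 / (3 * (1 - Qe t)) ≤ 25771 / 1000000 := by linarith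
  calc (1 + Qe t) ^ 2 * (Qe t / 2 + Qe t ^ 2 / (3 * (1 - Qe t)))
      ≤ 110209 / 100000 * (25771 / 1000000) := mul_le_mul h5 h6 (by positivity) (by norm_num)
    _ ≤ 2842 / 100000 := by norm_num

private theorem TiB_cos : Real.cos (9 / 10) ≤ 6233 / 10000 := by
  have h1 : |(9 / 20 : ℝ)| ≤ 1 := by rw [abs_of_pos (by norm_num)]; norm_num
  have h2 := abs_le.1 (Real.cos_bound h1)
  have h3 : Real.cos (9 / 20) ≤ 9009 / 10000 := by
    have := h2.2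
    rw [abs_of_pos (by norm_num : (0:ℝ) < 9 / 20)] at this
    norm_num at this ⊢
    linarith
  have h4 : 0 ≤ Real.cos (9 / 20) := by
    apply Real.cos_nonneg_of_neg_pi_div_two_le_of_le
    · linarith [Real.pi_gt_three]
    · linarith [Real.pi_gt_three]
  rw [show (9 / 10 : ℝ) = 2 * (9 / 20) by norm_num, Real.cos_two_mul]
  nlinarith

private theorem TiB_cos2 {φ : ℝ} (h : 9 / 20 ≤ |φ|) (h1 : |φ| ≤ π / 2) :
    Real.cos (2 * φ) ≤ 6233 / 10000 := by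
  have e : Real.cos (2 * φ) = Real.cos (2 * |φ|) := by
    rw [← Real.cos_abs (2 * φ), abs_mul, abs_two]
  rw [e]
  refine le_trans ?_ TiB_cos
  apply Real.cos_le_cos_of_nonneg_of_le_pi (by norm_num) (by linarith) (by linarith)

private theorem TiB_nexp (t φ : ℝ) : ‖exp (-((t : ℂ) + φ * I))‖ ^ 2 = Qe t := by
  rw [Complex.norm_exp, Qe_eq']
  congr 2
  simp

private theorem TiB_Jb (p t φ : ℝ) :
    Jb p t φ = G J t φ - ((1 - p : ℝ) : ℂ) * exp (-((t : ℂ) + φ * I)) := by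
  rw [← Jb_one]
  unfold Jb
  push_cast
  ring

theorem Sg.base_le (h : Sg F b q) {p : ℝ} (hp : 0 ≤ p) (hp1 : p ≤ 1) (hb : b 1 = (p : ℂ)) {t φ : ℝ}
    (ht : 3 / 2 ≤ t) (hφ : |φ| ≤ 9 / 20) :
    yb p t φ + Af F p t φ + Af F p t (-φ) ≤ yy J t φ - 71 / 100 * (1 - p) := by
  have ht0 : 0 < t := by linarith
  obtain ⟨hQ0, hQ1⟩ := Qe_small ht
  obtain ⟨hL0, hL1⟩ := La_small ht
  set μ : ℝ := 1 - p with hμ
  have hμ0 : 0 ≤ μ := by rw [hμ]; linarith
  have hμ1 : μ ≤ 1 := by rw [hμ]; linarith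
  set w : ℂ := exp (-((t : ℂ) + φ * I)) with hw
  have hwn : ‖w‖ ^ 2 = Qe t := TiB_nexp t φ
  have hw' : exp (-((t : ℂ) + ((-φ : ℝ) : ℂ) * I)) = conj w := by
    rw [hw, ← Complex.exp_conj]
    congr 1
    simp
  have hJneg : G J t (-φ) = conj (G J t φ) := by
    rw [← Jb_one, ← Jb_one, Jb_neg]
  -- the linear part
  have hlin := h.lin_one ht0 φ (conj (G J t φ)) (m := 39 / 100) (fun β => kone ht hφ β)
  rw [hb, Complex.ofReal_re, conj_conj] at hlin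
  -- the remainders
  have hrem : ∀ ψ : ℝ, ‖Hf F p t ψ‖ ^ 2 ≤ La t := by
    intro ψ
    refine (h.H_sup hb ht0 ψ).trans ?_
    nlinarith [sq_nonneg p]
  have hrem2 : ∀ ψ : ℝ, ‖w‖ * ‖Hf F p t ψ‖ ≤ 801 / 100000 := by
    intro ψ
    have h1 := hrem ψ
    have h2 : (‖w‖ * ‖Hf F p t ψ‖) ^ 2 ≤ (801 / 100000) ^ 2 := by
      rw [mul_pow, hwn]
      calc Qe t * ‖Hf F p t ψ‖ ^ 2 ≤ 498 / 10000 * (1285 / 1000000) :=
            mul_le_mul hQ1 (h1.trans hL1) (by positivity) (by norm_num)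
        _ ≤ (801 / 100000) ^ 2 := by norm_num
    exact (abs_le_of_sq_le_sq' h2 (by norm_num)).2
  have hr1 : -(conj w * Hf F p t φ).re ≤ 801 / 100000 := by
    refine (neg_le_abs _).trans ((Complex.abs_re_le_norm _).trans ?_)
    rw [norm_mul, RCLike.norm_conj]
    exact hrem2 φ
  have hr2 : -(w * Hf F p t (-φ)).re ≤ 801 / 100000 := by
    refine (neg_le_abs _).trans ((Complex.abs_re_le_norm _).trans ?_)
    rw [norm_mul]
    exact hrem2 (-φ)
  -- algebra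
  have hJb : Jb p t φ = G J t φ - (μ : ℂ) * w := TiB_Jb p t φ
  have hJb' : Jb p t (-φ) = conj (G J t φ) - (μ : ℂ) * conj w := by
    rw [Jb_neg, hJb, map_sub, map_mul, Complex.conj_ofReal]
  have hA1 : Af F p t φ = (conj (G J t φ) * (G F t φ - G J t φ)).re +
      μ * (conj (G J t φ) * w).re - μ * (conj w * Hf F p t φ).re := by
    have e1 : Hf F p t φ = (G F t φ - G J t φ) + (μ : ℂ) * w := by
      unfold Hf
      rw [hJb]
      ring
    have e2 : conj (Jb p t φ) * Hf F p t φ = conj (G J t φ) * (G F t φ - G J t φ) +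
        (μ : ℂ) * (conj (G J t φ) * w) - (μ : ℂ) * (conj w * Hf F p t φ) := by
      rw [hJb, map_sub, map_mul, Complex.conj_ofReal, sub_mul]
      conv_lhs => rw [e1]
      rw [e1]
      ring
    unfold Af
    rw [e2, Complex.sub_re, Complex.add_re, Complex.re_ofReal_mul, Complex.re_ofReal_mul]
  have hA2 : Af F p t (-φ) = (G J t φ * (G F t (-φ) - G J t (-φ))).re +
      μ * (G J t φ * conj w).re - μ * (w * Hf F p t (-φ)).re := by
    have e1 : Hf F p t (-φ) = (G F t (-φ) - G J t (-φ)) + (μ : ℂ) * conj w := by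
      unfold Hf
      rw [hJb', hJneg]
      ring
    have e2 : conj (Jb p t (-φ)) * Hf F p t (-φ) = G J t φ * (G F t (-φ) - G J t (-φ)) +
        (μ : ℂ) * (G J t φ * conj w) - (μ : ℂ) * (w * Hf F p t (-φ)) := by
      rw [hJb', map_sub, map_mul, Complex.conj_ofReal, conj_conj, conj_conj, sub_mul]
      conv_lhs => rw [e1]
      rw [e1]
      ring
    unfold Af
    rw [e2, Complex.sub_re, Complex.add_re, Complex.re_ofReal_mul, Complex.re_ofReal_mul]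
  have hyb : yb p t φ + 2 * (μ * (conj (G J t φ) * w).re) = yy J t φ + μ ^ 2 * Qe t := by
    rw [← norm_Jb, hJb, yy, ← hwn, ← Complex.normSq_eq_norm_sq, ← Complex.normSq_eq_norm_sq,
      ← Complex.normSq_eq_norm_sq, Complex.normSq_apply, Complex.normSq_apply,
      Complex.normSq_apply]
    simp only [Complex.mul_re, Complex.conj_re, Complex.conj_im, Complex.sub_re, Complex.sub_im,
      Complex.mul_im, Complex.ofReal_re, Complex.ofReal_im]
    ring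
  have hsym : (G J t φ * conj w).re = (conj (G J t φ) * w).re := by
    simp only [Complex.mul_re, Complex.conj_re, Complex.conj_im]
    ring
  rw [hsym] at hA2
  have hm1 : μ * (-(conj w * Hf F p t φ).re) ≤ μ * (801 / 100000) :=
    mul_le_mul_of_nonneg_left hr1 hμ0
  have hm2 : μ * (-(w * Hf F p t (-φ)).re) ≤ μ * (801 / 100000) :=
    mul_le_mul_of_nonneg_left hr2 hμ0
  have hm3 : μ ^ 2 * Qe t ≤ μ * (498 / 10000) := by
    have : μ ^ 2 ≤ μ := by nlinarith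
    exact mul_le_mul this hQ1 hQ0.le hμ0
  rw [hA1, hA2]
  nlinarith [hlin, hm1, hm2, hm3, hyb]

theorem Sg.H_small (h : Sg F b q) {p : ℝ} (hp : 0 ≤ p) (hp1 : p ≤ 1) (hb : b 1 = (p : ℂ)) {t : ℝ}
    (ht : 3 / 2 ≤ t) (φ : ℝ) : ‖Hf F p t φ‖ ^ 2 ≤ 257 / 100000 * (1 - p) := by
  obtain ⟨hL0, hL1⟩ := La_small ht
  refine (h.H_sup hb (by linarith) φ).trans ?_
  have h1 : 1 - p ^ 2 ≤ 2 * (1 - p) := by nlinarith [sq_nonneg (1 - p)]
  calc (1 - p ^ 2) * La t ≤ 2 * (1 - p) * (1285 / 1000000) :=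
        mul_le_mul h1 hL1 hL0 (by linarith)
    _ = 257 / 100000 * (1 - p) := by ring

theorem Sg.out_le (h : Sg F b q) {p : ℝ} (hp : 0 ≤ p) (hp1 : p ≤ 1) (hb : b 1 = (p : ℂ))
    {t c φ : ℝ} (ht : 3 / 2 ≤ t) (hc : 13 / 20 ≤ c) (hφ : 9 / 20 ≤ |φ|) (hφ1 : |φ| ≤ π / 2) :
    yy F t φ ≤ 2 * Real.cosh (2 * t) + 2 * c := by
  have ht0 : 0 < t := by linarith
  obtain ⟨hQ0, hQ1⟩ := Qe_small ht
  obtain ⟨hL0, hL1⟩ := La_small ht
  have hcos := TiB_cos2 hφ hφ1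
  have hH := h.H_small hp hp1 hb ht φ
  have hS := h.H_sup hb ht0 φ
  have hJm0 : 0 ≤ Jm t := (norm_nonneg _).trans (Jb_le hp hp1 t 0)
  have hAf : Af F p t φ ≤ Jm t * ‖Hf F p t φ‖ :=
    (le_abs_self _).trans ((Af_le F p t φ).trans
      (mul_le_mul_of_nonneg_right (Jb_le hp hp1 t φ) (norm_nonneg _)))
  set s : ℝ := Real.sqrt (1 - p) with hs
  have hs0 : 0 ≤ s := Real.sqrt_nonneg _
  have hs2 : s ^ 2 = 1 - p := Real.sq_sqrt (by linarith)
  have hX : Jm t * ‖Hf F p t φ‖ ≤ 2385 / 10000 * s := by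
    have h2 : (Jm t * ‖Hf F p t φ‖) ^ 2 ≤ (2385 / 10000 * s) ^ 2 := by
      rw [mul_pow, mul_pow, hs2]
      have h3 := TiB_JmLa ht
      have h4 : 1 - p ^ 2 ≤ 2 * (1 - p) := by nlinarith [sq_nonneg (1 - p)]
      calc Jm t ^ 2 * ‖Hf F p t φ‖ ^ 2 ≤ Jm t ^ 2 * ((1 - p ^ 2) * La t) :=
            mul_le_mul_of_nonneg_left hS (by positivity)
        _ = (1 - p ^ 2) * (Jm t ^ 2 * La t) := by ring
        _ ≤ 2 * (1 - p) * (2842 / 100000) :=
            mul_le_mul h4 h3 (by positivity) (by linarith)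
        _ ≤ (2385 / 10000) ^ 2 * (1 - p) := by nlinarith
    exact (abs_le_of_sq_le_sq' h2 (by positivity)).2
  have hcosh : 2 * Real.cosh (2 * t) = Real.exp (2 * t) + Qe t := by
    rw [Real.cosh_eq]
    unfold Qe
    ring
  rw [yy_split F p t φ, hcosh, yb]
  have hp2 : p ^ 2 * Qe t ≤ Qe t := by
    have h1 : p ^ 2 ≤ 1 := by nlinarith
    nlinarith
  have hpc : p * Real.cos (2 * φ) ≤ p * (6233 / 10000) := mul_le_mul_of_nonneg_left hcos hp
  have hps : p = 1 - s ^ 2 := by linarith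
  have hfin : 2 * (p * (6233 / 10000)) + 2 * (2385 / 10000 * s) + 257 / 100000 * (1 - p) ≤
      2 * c := by
    rw [hps]
    nlinarith [sq_nonneg (s - 19 / 100), hc]
  nlinarith [hAf, hX, hp2, hpc, hfin, hH]

end Pool.Agent.H36.SZ
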