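import Pool.Agent.H36.SZ.LpL

/-!
# Tip levels, `t >= 3/2`: the one-sided kernel

PROOF. `C = cosh t >= 2.352` (`t >= 3/2`), `S = sinh t`, `c = cos φ ∈ [0.9004, 1]`, `s = sin φ`,
`w = cos β`, `A = C c - w > 0`, `B = S s`. By `G_J`, `G1_J`:
`conj J * G1 J = 4 (S C + i s c)`, `J - 2 w = 2 (A + i B)`, so the real part is
`(S C (A^2 - B^2) + 2 s c A B) / (A^2 + B^2)^2`, and `2 s c A B = 2 c S s^2 A >= 0`. It remains
`S C (a - B^2) >= (39/100) (a + B^2)^2` for `a = A^2 ∈ [(C c - 1)^2, (C c + 1)^2]`; the difference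
is concave in `a`, so only the two end points matter, where
`a + B^2 = (C ∓ c)^2`, `a - B^2 = (C ∓ c)^2 - 2 (C^2 - 1)(1 - c^2)`. With
`S C >= C^2 - 0.526` (`(C^2 - 1/2)^2 - S^2 C^2 = 1/4`, `C >= 2.35`) these are polynomial inequalities
in `C >= 2.35`, `0.9004 <= c <= 1` (`+`: at `C = 2.352`, `c = 0.9004`: `44.39 >= 43.7`; `-`: much
room).
-/

open Complex MeasureTheory Set Filter Topology
open scoped ComplexConjugate Real

namespace Pool.Agent.H36.SZ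

theorem kone_poly {C c : ℝ} (hC : 2352 / 1000 ≤ C) (hc : 9004 / 10000 ≤ c) (hc1 : c ≤ 1) :
    39 / 100 * (C + c) ^ 4 ≤
        (C ^ 2 - 526 / 1000) * ((C + c) ^ 2 - 2 * (C ^ 2 - 1) * (1 - c ^ 2)) ∧
      39 / 100 * (C - c) ^ 4 ≤
        (C ^ 2 - 526 / 1000) * ((C - c) ^ 2 - 2 * (C ^ 2 - 1) * (1 - c ^ 2)) := by
  obtain ⟨x, rfl⟩ : ∃ x, C = 2352 / 1000 + x := ⟨C - 2352 / 1000, by ring⟩
  obtain ⟨y, rfl⟩ : ∃ y, c = 9004 / 10000 + y := ⟨c - 9004 / 10000, by ring⟩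
  have hx : 0 ≤ x := by linarith
  have hy : 0 ≤ y := by linarith
  have hy1 : y ≤ 1 / 10 := by linarith
  have m01 : 0 ≤ y := hy
  have m02 : 0 ≤ y ^ 2 := by positivity
  have m11 : 0 ≤ x * y := by positivity
  have m12 : 0 ≤ x * y ^ 2 := by positivity
  have m13 : 0 ≤ x * y ^ 3 := by positivity
  have m20 : 0 ≤ x ^ 2 := by positivity
  have m21 : 0 ≤ x ^ 2 * y := by positivity
  have m22 : 0 ≤ x ^ 2 * y ^ 2 := by positivity
  have m30 : 0 ≤ x ^ 3 := by positivity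
  have m31 : 0 ≤ x ^ 3 * y := by positivity
  have m32 : 0 ≤ x ^ 3 * y ^ 2 := by positivity
  have m40 : 0 ≤ x ^ 4 := by positivity
  have m41 : 0 ≤ x ^ 4 * y := by positivity
  have m42 : 0 ≤ x ^ 4 * y ^ 2 := by positivity
  have h10 : 0 ≤ 1 / 10 - y := by linarith
  have n1 : 0 ≤ y ^ 2 * (1 / 10 - y) := by positivity
  have n2 : 0 ≤ x * y ^ 2 * (1 / 10 - y) := by positivity
  have n3 : 0 ≤ y ^ 3 * (1 / 10 - y) := by positivity
  have n4 : 0 ≤ y ^ 3 := by positivity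
  constructor
  · linarith
  · linarith

private theorem tik_cosh {t : ℝ} (ht : 3 / 2 ≤ t) : 2352 / 1000 ≤ Real.cosh t := by
  have h1 : Real.cosh (3 / 2) ≤ Real.cosh t := by
    rw [Real.cosh_le_cosh, abs_of_pos (by norm_num), abs_of_pos (by linarith)]
    exact ht
  refine le_trans ?_ h1
  have e1 : Real.exp (3 / 2) ^ 2 = Real.exp 1 ^ 3 := by
    rw [← Real.exp_nat_mul, ← Real.exp_nat_mul]
    norm_num
  have g1 := Real.exp_one_gt_d9
  have g2 := Real.exp_one_lt_d9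
  have h3 : (2.7182818283 : ℝ) ^ 3 < Real.exp 1 ^ 3 := pow_lt_pow_left₀ g1 (by norm_num) (by norm_num)
  have h4 : Real.exp 1 ^ 3 < (2.7182818286 : ℝ) ^ 3 :=
    pow_lt_pow_left₀ g2 (Real.exp_pos 1).le (by norm_num)
  rw [← e1] at h3 h4
  have h3' : (200855 / 10000 : ℝ) < Real.exp (3 / 2) ^ 2 := lt_trans (by norm_num) h3
  have h4' : Real.exp (3 / 2) ^ 2 < (200856 / 10000 : ℝ) := lt_trans h4 (by norm_num)
  have hp := Real.exp_pos (3 / 2)
  have h5 : 448168 / 100000 ≤ Real.exp (3 / 2) := by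
    by_contra h
    push Not at h
    have := mul_self_lt_mul_self hp.le h
    nlinarith
  have h6 : Real.exp (3 / 2) ≤ 44817 / 10000 := by
    by_contra h
    push Not at h
    have := mul_self_lt_mul_self (by norm_num : (0:ℝ) ≤ 44817 / 10000) h
    nlinarith
  have h7 : 22312 / 100000 ≤ Real.exp (-(3 / 2)) := by
    rw [Real.exp_neg, ← one_div, le_div_iff₀ hp]
    nlinarith
  rw [Real.cosh_eq]
  linarith

private theorem tik_cos {φ : ℝ} (hφ : |φ| ≤ 9 / 20) : 9004 / 10000 ≤ Real.cos φ := by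
  have h1 : Real.cos (9 / 20) ≤ Real.cos φ := by
    rw [← Real.cos_abs φ]
    exact Real.cos_le_cos_of_nonneg_of_le_pi (abs_nonneg _) (by linarith [Real.pi_gt_three]) hφ
  refine le_trans ?_ h1
  have a0 := Real.one_sub_sq_div_two_le_cos (x := 9 / 160)
  have a1 : Real.cos (9 / 80) = 2 * Real.cos (9 / 160) ^ 2 - 1 := by
    rw [← Real.cos_two_mul]; norm_num
  have a2 : Real.cos (9 / 40) = 2 * Real.cos (9 / 80) ^ 2 - 1 := by
    rw [← Real.cos_two_mul]; norm_num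
  have a3 : Real.cos (9 / 20) = 2 * Real.cos (9 / 40) ^ 2 - 1 := by
    rw [← Real.cos_two_mul]; norm_num
  norm_num at a0
  have b1 : 99367687 / 100000000 ≤ Real.cos (9 / 80) := by
    rw [a1]; nlinarith
  have b2 : 97478744 / 100000000 ≤ Real.cos (9 / 40) := by
    rw [a2]; nlinarith
  rw [a3]
  nlinarith

private theorem tik_real {C c S s w : ℝ} (hC : 2352 / 1000 ≤ C) (hS : 0 ≤ S) (hCS : C ^ 2 - S ^ 2 = 1)
    (hc : 9004 / 10000 ≤ c) (hcs : c ^ 2 + s ^ 2 = 1) (hw : -1 ≤ w) (hw1 : w ≤ 1) :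
    39 / 100 * ((C * c - w) ^ 2 + (S * s) ^ 2) ^ 2 ≤
      S * C * ((C * c - w) ^ 2 - (S * s) ^ 2) + 2 * (c * s) * (C * c - w) * (S * s) := by
  have hc1 : c ≤ 1 := by nlinarith [sq_nonneg s]
  obtain ⟨k1, k2⟩ := kone_poly hC hc hc1
  have hCc : 1 < C * c := by nlinarith
  have hm : 0 < C ^ 2 - 526 / 1000 := by nlinarith
  have hSC : C ^ 2 - 526 / 1000 ≤ S * C := by
    by_contra h
    push Not at h
    have h1 := mul_self_lt_mul_self (mul_nonneg hS (by linarith)) h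
    have h2 : S ^ 2 = C ^ 2 - 1 := by linarith
    have h3 : S * C * (S * C) = (C ^ 2 - 1) * C ^ 2 := by rw [← h2]; ring
    rw [h3] at h1
    nlinarith
  set B2 : ℝ := (S * s) ^ 2 with hB2
  have hB : B2 = (C ^ 2 - 1) * (1 - c ^ 2) := by
    rw [hB2, mul_pow]
    have h2 : S ^ 2 = C ^ 2 - 1 := by linarith
    have h3 : s ^ 2 = 1 - c ^ 2 := by linarith
    rw [h2, h3]
  have hB0 : 0 ≤ B2 := sq_nonneg _
  -- the two end points
  have e1 : 39 / 100 * ((C * c - 1) ^ 2 + B2) ^ 2 ≤ S * C * ((C * c - 1) ^ 2 - B2) := by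
    have f1 : (C * c - 1) ^ 2 + B2 = (C - c) ^ 2 := by rw [hB]; ring
    have f2 : (C * c - 1) ^ 2 - B2 = (C - c) ^ 2 - 2 * (C ^ 2 - 1) * (1 - c ^ 2) := by rw [hB]; ring
    rw [f1, f2]
    have f3 : 0 ≤ (C - c) ^ 2 - 2 * (C ^ 2 - 1) * (1 - c ^ 2) := by
      by_contra h
      push Not at h
      have := mul_neg_of_pos_of_neg hm h
      have : 0 ≤ 39 / 100 * (C - c) ^ 4 := by positivity
      linarith
    have f4 := mul_le_mul_of_nonneg_right hSC f3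
    have f5 : ((C - c) ^ 2) ^ 2 = (C - c) ^ 4 := by ring
    rw [f5]
    linarith
  have e2 : 39 / 100 * ((C * c + 1) ^ 2 + B2) ^ 2 ≤ S * C * ((C * c + 1) ^ 2 - B2) := by
    have f1 : (C * c + 1) ^ 2 + B2 = (C + c) ^ 2 := by rw [hB]; ring
    have f2 : (C * c + 1) ^ 2 - B2 = (C + c) ^ 2 - 2 * (C ^ 2 - 1) * (1 - c ^ 2) := by rw [hB]; ring
    rw [f1, f2]
    have f3 : 0 ≤ (C + c) ^ 2 - 2 * (C ^ 2 - 1) * (1 - c ^ 2) := by
      by_contra h
      push Not at h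
      have := mul_neg_of_pos_of_neg hm h
      have : 0 ≤ 39 / 100 * (C + c) ^ 4 := by positivity
      linarith
    have f4 := mul_le_mul_of_nonneg_right hSC f3
    have f5 : ((C + c) ^ 2) ^ 2 = (C + c) ^ 4 := by ring
    rw [f5]
    linarith
  set a : ℝ := (C * c - w) ^ 2 with ha
  have ha1 : (C * c - 1) ^ 2 ≤ a := by
    rw [ha]
    exact pow_le_pow_left₀ (by linarith) (by linarith) 2
  have ha2 : a ≤ (C * c + 1) ^ 2 := by
    rw [ha]
    exact pow_le_pow_left₀ (by linarith) (by linarith) 2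
  have key : 0 ≤ (S * C * (a - B2) - 39 / 100 * (a + B2) ^ 2) * ((C * c + 1) ^ 2 - (C * c - 1) ^ 2) := by
    have f1 : (S * C * (a - B2) - 39 / 100 * (a + B2) ^ 2) * ((C * c + 1) ^ 2 - (C * c - 1) ^ 2) =
        ((C * c + 1) ^ 2 - a) * (S * C * ((C * c - 1) ^ 2 - B2) - 39 / 100 * ((C * c - 1) ^ 2 + B2) ^ 2) +
        (a - (C * c - 1) ^ 2) * (S * C * ((C * c + 1) ^ 2 - B2) - 39 / 100 * ((C * c + 1) ^ 2 + B2) ^ 2) +
        39 / 100 * ((a - (C * c - 1) ^ 2) * ((C * c + 1) ^ 2 - a)) *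
          ((C * c + 1) ^ 2 - (C * c - 1) ^ 2) := by
      ring
    rw [f1]
    have g1 := sub_nonneg.2 ha1
    have g2 := sub_nonneg.2 ha2
    have g3 := sub_nonneg.2 e1
    have g4 := sub_nonneg.2 e2
    have g5 : 0 ≤ (C * c + 1) ^ 2 - (C * c - 1) ^ 2 := by nlinarith
    positivity
  have hpos : 0 < (C * c + 1) ^ 2 - (C * c - 1) ^ 2 := by nlinarith
  have hK : 0 ≤ S * C * (a - B2) - 39 / 100 * (a + B2) ^ 2 := nonneg_of_mul_nonneg_left key hpos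
  have hlast : 0 ≤ 2 * (c * s) * (C * c - w) * (S * s) := by
    have : 2 * (c * s) * (C * c - w) * (S * s) = 2 * c * (C * c - w) * (S * s ^ 2) := by ring
    rw [this]
    have h1 : 0 ≤ C * c - w := by linarith
    have h2 : 0 ≤ c := by linarith
    positivity
  linarith

theorem kone {t φ : ℝ} (ht : 3 / 2 ≤ t) (hφ : |φ| ≤ 9 / 20) (β : ℝ) :
    39 / 100 ≤ (conj (G J t φ) * G1 J t φ / (G J t φ - 2 * Real.cos β) ^ 2).re := by
  set C : ℝ := Real.cosh t with hC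
  set S : ℝ := Real.sinh t with hS
  set c : ℝ := Real.cos φ with hc
  set s : ℝ := Real.sin φ with hs
  set w : ℝ := Real.cos β with hw
  have hC1 : 2352 / 1000 ≤ C := tik_cosh ht
  have hS0 : 0 ≤ S := Real.sinh_nonneg_iff.2 (by linarith)
  have hCS : C ^ 2 - S ^ 2 = 1 := Real.cosh_sq_sub_sinh_sq t
  have hc1 : 9004 / 10000 ≤ c := tik_cos hφ
  have hcs : c ^ 2 + s ^ 2 = 1 := Real.cos_sq_add_sin_sq φ
  have hr := tik_real hC1 hS0 hCS hc1 hcs (Real.neg_one_le_cos β) (Real.cos_le_one β)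
  rw [← hw] at hr
  set A : ℝ := C * c - w with hA
  set B : ℝ := S * s with hB
  have hApos : 0 < A := by
    have := Real.cos_le_one β
    rw [← hw] at this
    nlinarith
  have hn : 0 < A ^ 2 + B ^ 2 := by positivity
  have e1 : conj (G J t φ) * G1 J t φ = 4 * (((S * C : ℝ) : ℂ) + ((c * s : ℝ) : ℂ) * I) := by
    rw [G_J, G1_J, ← hC, ← hS, ← hc, ← hs]
    simp only [map_add, map_mul, conj_ofReal, conj_I, map_ofNat]
    push_cast
    have h1 : (C : ℂ) ^ 2 - (S : ℂ) ^ 2 = 1 := by exact_mod_cast hCS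
    have h2 : (c : ℂ) ^ 2 + (s : ℂ) ^ 2 = 1 := by exact_mod_cast hcs
    linear_combination (4 * (S : ℂ) * C) * h2 + (4 * (c : ℂ) * s * I) * h1 +
      (-(4 * (S : ℂ) * C * s ^ 2)) * Complex.I_sq
  have e2 : G J t φ - 2 * (w : ℂ) = 2 * ((A : ℂ) + (B : ℂ) * I) := by
    rw [G_J, ← hC, ← hS, ← hc, ← hs, hA, hB]
    push_cast
    ring
  have hZ : ((A : ℂ) + (B : ℂ) * I) * ((A : ℂ) - (B : ℂ) * I) = ((A ^ 2 + B ^ 2 : ℝ) : ℂ) := by
    push_cast
    linear_combination (-(B : ℂ) ^ 2) * Complex.I_sq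
  have hZ0 : (A : ℂ) + (B : ℂ) * I ≠ 0 := by
    intro h0
    rw [h0, zero_mul] at hZ
    have h1 : (0 : ℝ) = A ^ 2 + B ^ 2 := by exact_mod_cast hZ
    linarith
  have hn0 : ((A ^ 2 + B ^ 2 : ℝ) : ℂ) ≠ 0 := by exact_mod_cast hn.ne'
  have e3 : conj (G J t φ) * G1 J t φ / (G J t φ - 2 * (w : ℂ)) ^ 2 =
      ((1 / (A ^ 2 + B ^ 2) ^ 2 : ℝ) : ℂ) *
        (((S * C * (A ^ 2 - B ^ 2) + 2 * (c * s) * A * B : ℝ) : ℂ) +
          ((c * s * (A ^ 2 - B ^ 2) - 2 * (S * C) * A * B : ℝ) : ℂ) * I) := by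
    rw [e1, e2]
    have e4 : (((S * C * (A ^ 2 - B ^ 2) + 2 * (c * s) * A * B : ℝ) : ℂ) +
          ((c * s * (A ^ 2 - B ^ 2) - 2 * (S * C) * A * B : ℝ) : ℂ) * I) =
        (((S * C : ℝ) : ℂ) + ((c * s : ℝ) : ℂ) * I) * ((A : ℂ) - (B : ℂ) * I) ^ 2 := by
      push_cast
      linear_combination (-((S : ℂ) * C * B ^ 2 - 2 * (c * s) * A * B + c * s * B ^ 2 * I)) *
        Complex.I_sq
    rw [e4, div_eq_iff (pow_ne_zero 2 (mul_ne_zero two_ne_zero hZ0))]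
    have e5 : ((1 / (A ^ 2 + B ^ 2) ^ 2 : ℝ) : ℂ) * (((A ^ 2 + B ^ 2 : ℝ) : ℂ)) ^ 2 = 1 := by
      rw [← ofReal_pow, ← ofReal_mul, one_div, inv_mul_cancel₀ (pow_ne_zero 2 hn.ne'), ofReal_one]
    rw [← hZ] at e5
    linear_combination (-(4 * (((S * C : ℝ) : ℂ) + ((c * s : ℝ) : ℂ) * I))) * e5
  rw [e3, Complex.re_ofReal_mul]
  have e6 : ((((S * C * (A ^ 2 - B ^ 2) + 2 * (c * s) * A * B : ℝ) : ℂ) +
          ((c * s * (A ^ 2 - B ^ 2) - 2 * (S * C) * A * B : ℝ) : ℂ) * I)).re =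
      S * C * (A ^ 2 - B ^ 2) + 2 * (c * s) * A * B := by
    rw [Complex.add_re, Complex.ofReal_re, Complex.re_ofReal_mul, Complex.I_re, mul_zero, add_zero]
  rw [e6, one_div, inv_mul_eq_div, le_div_iff₀ (by positivity)]
  exact hr

end Pool.Agent.H36.SZ
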