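import Pool.Agent.H36.SZ.HiA

/-!
# Tip levels, `t >= 3/2`: the odd part

PROOF. `Hf = sum_(n>=2) b_n z^(-n)` (`H_sum`), and on `|z| = r = e^t`
`conj (Jb) z^(-n) = r^(1-n) e^(-i(n+1)φ) + p r^(-1-n) e^(-i(n-1)φ)`, so
`Af φ - Af (-φ) = sum_(n>=2) 2 Im b_n (r^(1-n) sin (n+1)φ + p r^(-1-n) sin (n-1)φ)` and
`|Af φ - Af (-φ)| <= 2 |φ| sum |b_n| r^(1-n) (n + 1 + Q (n - 1))` (`|sin x| <= |x|`, `0 <= p <= 1`,
`Q = r^(-2)`). Cauchy-Schwarz with `sum_(n>=2) n |b_n|^2 <= 1 - p^2 <= 2 (1-p)` (`Sg.area_sum`) and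
`sum_(n>=2) Q^(n-1) (n+1+Q(n-1))^2 / n <= 0.2464` for `Q <= 0.0498` (first terms
`0.23160 + 0.01390 + 0.00082`, rest `<= 0.00006`): `4 * 0.2464 * 2 <= 1.98`.
(It suffices: `Q <= 1/20` and `sum <= 0.2475`.)
-/

open Complex MeasureTheory Set Filter Topology
open scoped ComplexConjugate Real

namespace Pool.Agent.H36.SZ

variable {F : ℂ → ℂ} {b : ℕ → ℂ} {q : ℝ}

private theorem tio_pow (m : ℕ) : ((m : ℝ) + 4) ^ 2 ≤ 2 ^ (m + 4) := by
  induction m with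
  | zero => norm_num
  | succ m ih =>
    have h1 : (2 : ℝ) ^ (m + 1 + 4) = 2 * 2 ^ (m + 4) := by ring
    rw [h1]
    push_cast
    have h2 : (0 : ℝ) ≤ m := Nat.cast_nonneg m
    nlinarith [ih, mul_nonneg h2 h2]

private noncomputable def tio_c (n : ℕ) : ℝ :=
  (1 / 20) ^ (n + 1) * (((n : ℝ) + 3) + 1 / 20 * ((n : ℝ) + 1)) ^ 2 / ((n : ℝ) + 2)

private theorem tio_c_nonneg (n : ℕ) : 0 ≤ tio_c n := by
  unfold tio_c
  positivity

private theorem tio_c_le (m : ℕ) : tio_c (m + 4) ≤ 3 / 100 * (1 / 10) ^ (m + 4) := by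
  have h1 := tio_pow m
  have h2 : (0 : ℝ) ≤ m := Nat.cast_nonneg m
  unfold tio_c
  push_cast
  have h3 : (0 : ℝ) < (m : ℝ) + 4 + 2 := by positivity
  rw [div_le_iff₀ h3]
  have e1 : (1 / 10 : ℝ) ^ (m + 4) = (1 / 20) ^ (m + 4 + 1) * (20 * 2 ^ (m + 4)) := by
    rw [pow_succ, show (1 / 10 : ℝ) = 1 / 20 * 2 by norm_num, mul_pow]
    ring
  rw [e1]
  have h4 : (0 : ℝ) < (1 / 20) ^ (m + 4 + 1) := by positivity
  have h5 : ((m : ℝ) + 4 + 3 + 1 / 20 * ((m : ℝ) + 4 + 1)) ^ 2 ≤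
      3 / 100 * (20 * 2 ^ (m + 4)) * ((m : ℝ) + 4 + 2) := by
    have h6 : 3 / 100 * (20 * ((m : ℝ) + 4) ^ 2) * ((m : ℝ) + 4 + 2) ≤
        3 / 100 * (20 * 2 ^ (m + 4)) * ((m : ℝ) + 4 + 2) := by
      refine mul_le_mul_of_nonneg_right ?_ h3.le
      linarith
    refine le_trans ?_ h6
    nlinarith [mul_nonneg h2 h2, mul_nonneg (mul_nonneg h2 h2) h2]
  have h7 := mul_le_mul_of_nonneg_left h5 h4.le
  calc (1 / 20 : ℝ) ^ (m + 4 + 1) * ((m : ℝ) + 4 + 3 + 1 / 20 * ((m : ℝ) + 4 + 1)) ^ 2 ≤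
      (1 / 20) ^ (m + 4 + 1) * (3 / 100 * (20 * 2 ^ (m + 4)) * ((m : ℝ) + 4 + 2)) := h7
    _ = 3 / 100 * ((1 / 20) ^ (m + 4 + 1) * (20 * 2 ^ (m + 4))) * ((m : ℝ) + 4 + 2) := by ring

private theorem tio_sum4 (m : ℕ) :
    ∑ n ∈ Finset.range (m + 4), tio_c n ≤ 99 / 400 - 1 / 30 * (1 / 10) ^ (m + 4) := by
  induction m with
  | zero =>
    simp only [Finset.sum_range_succ, Finset.sum_range_zero, tio_c]
    norm_num
  | succ m ih =>
    rw [show m + 1 + 4 = m + 4 + 1 by ring, Finset.sum_range_succ]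
    have h1 := tio_c_le m
    have h2 : (1 / 10 : ℝ) ^ (m + 4 + 1) = 1 / 10 * (1 / 10) ^ (m + 4) := by ring
    rw [h2]
    linarith

private theorem tio_sum (M : ℕ) : ∑ n ∈ Finset.range M, tio_c n ≤ 99 / 400 := by
  have h1 := tio_sum4 M
  have h2 : ∑ n ∈ Finset.range M, tio_c n ≤ ∑ n ∈ Finset.range (M + 4), tio_c n :=
    Finset.sum_le_sum_of_subset_of_nonneg (Finset.range_mono (by omega))
      fun n _ _ => tio_c_nonneg n
  have h3 : (0 : ℝ) ≤ 1 / 30 * (1 / 10) ^ (M + 4) := by positivity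
  linarith

private theorem tio_Q {t : ℝ} (ht : 3 / 2 ≤ t) : Qe t ≤ 1 / 20 := by
  have h1 : Qe t ≤ Real.exp (-3) := by
    unfold Qe
    exact Real.exp_le_exp.2 (by linarith)
  have h2 : (20 : ℝ) ≤ Real.exp 3 := by
    have h3 := Real.exp_one_gt_d9
    have h4 : Real.exp 3 = Real.exp 1 ^ 3 := by
      rw [← Real.exp_nat_mul]
      norm_num
    rw [h4]
    have h5 : (2.7182818283 : ℝ) ^ 3 ≤ Real.exp 1 ^ 3 :=
      pow_le_pow_left₀ (by norm_num) h3.le 3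
    refine le_trans ?_ h5
    norm_num
  have h6 : Real.exp (-3) ≤ 1 / 20 := by
    rw [Real.exp_neg, ← one_div]
    exact one_div_le_one_div_of_le (by norm_num) h2
  linarith

/-- one term of the odd part -/
private theorem tio_term (c : ℂ) (p t φ : ℝ) (n : ℕ) :
    (conj (Jb p t φ) * (c * exp (-(((n : ℂ) + 2) * (t + φ * I))))).re =
      c.re * (Real.exp (-t) ^ (n + 1) * Real.cos (((n : ℝ) + 3) * φ) +
        p * Real.exp (-t) ^ (n + 3) * Real.cos (((n : ℝ) + 1) * φ)) +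
      c.im * (Real.exp (-t) ^ (n + 1) * Real.sin (((n : ℝ) + 3) * φ) +
        p * Real.exp (-t) ^ (n + 3) * Real.sin (((n : ℝ) + 1) * φ)) := by
  have e0 : conj (Jb p t φ) = exp ((t : ℂ) - φ * I) + p * exp (-((t : ℂ) - φ * I)) := by
    unfold Jb
    rw [map_add, map_mul, Complex.conj_ofReal, ← Complex.exp_conj, ← Complex.exp_conj]
    simp only [map_add, map_neg, map_mul, Complex.conj_ofReal, Complex.conj_I]
    ring_nf
  have e1 : exp ((t : ℂ) - φ * I) * exp (-(((n : ℂ) + 2) * (t + φ * I))) =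
      ((Real.exp (-t) ^ (n + 1) : ℝ) : ℂ) * exp (-((((n : ℝ) + 3) * φ : ℝ) : ℂ) * I) := by
    rw [← Real.exp_nat_mul, Complex.ofReal_exp, ← Complex.exp_add, ← Complex.exp_add]
    congr 1
    push_cast
    ring
  have e2 : exp (-((t : ℂ) - φ * I)) * exp (-(((n : ℂ) + 2) * (t + φ * I))) =
      ((Real.exp (-t) ^ (n + 3) : ℝ) : ℂ) * exp (-((((n : ℝ) + 1) * φ : ℝ) : ℂ) * I) := by
    rw [← Real.exp_nat_mul, Complex.ofReal_exp, ← Complex.exp_add, ← Complex.exp_add]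
    congr 1
    push_cast
    ring
  have e3 : ∀ x : ℝ, exp (-(x : ℂ) * I) = (Real.cos x : ℂ) - (Real.sin x : ℂ) * I := by
    intro x
    have h1 := Complex.exp_mul_I ((-x : ℝ) : ℂ)
    rw [← Complex.ofReal_cos, ← Complex.ofReal_sin, Real.cos_neg, Real.sin_neg] at h1
    rw [Complex.ofReal_neg, Complex.ofReal_neg] at h1
    rw [h1]
    ring
  have e4 : conj (Jb p t φ) * (c * exp (-(((n : ℂ) + 2) * (t + φ * I)))) =
      c * (((Real.exp (-t) ^ (n + 1) : ℝ) : ℂ) * ((Real.cos (((n : ℝ) + 3) * φ) : ℂ) -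
        (Real.sin (((n : ℝ) + 3) * φ) : ℂ) * I) +
        p * (((Real.exp (-t) ^ (n + 3) : ℝ) : ℂ) * ((Real.cos (((n : ℝ) + 1) * φ) : ℂ) -
        (Real.sin (((n : ℝ) + 1) * φ) : ℂ) * I))) := by
    rw [← e3, ← e3, ← e1, ← e2, e0]
    ring
  rw [e4]
  generalize Real.cos (((n : ℝ) + 3) * φ) = c1
  generalize Real.sin (((n : ℝ) + 3) * φ) = s1
  generalize Real.cos (((n : ℝ) + 1) * φ) = c2
  generalize Real.sin (((n : ℝ) + 1) * φ) = s2
  generalize Real.exp (-t) ^ (n + 1) = A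
  generalize Real.exp (-t) ^ (n + 3) = B
  simp only [Complex.mul_re, Complex.mul_im, Complex.add_re, Complex.add_im, Complex.sub_re,
    Complex.sub_im, Complex.ofReal_re, Complex.ofReal_im, Complex.I_re, Complex.I_im]
  ring

theorem Sg.odd_le (h : Sg F b q) {p : ℝ} (hp : 0 ≤ p) (hp1 : p ≤ 1) (hb : b 1 = (p : ℂ)) {t : ℝ}
    (ht : 3 / 2 ≤ t) (φ : ℝ) :
    (Af F p t φ - Af F p t (-φ)) ^ 2 ≤ 198 / 100 * (1 - p) * φ ^ 2 := by
  have ht0 : 0 < t := by linarith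
  have hb' : b 1 = ((1 - (1 - p) : ℝ) : ℂ) := by
    rw [hb]; norm_num
  have hQ := tio_Q ht
  have hQ0 : 0 < Qe t := by
    unfold Qe
    exact Real.exp_pos _
  have hE0 : 0 < Real.exp (-t) := Real.exp_pos _
  have hEQ : Real.exp (-t) ^ 2 = Qe t := by
    unfold Qe
    rw [← Real.exp_nat_mul]
    congr 1
    push_cast
    ring
  set E : ℝ := Real.exp (-t) with hE
  have hs1 := Complex.hasSum_re ((h.H_sum hb ht0 φ).mul_left (conj (Jb p t φ)))
  have hs2 := Complex.hasSum_re ((h.H_sum hb ht0 (-φ)).mul_left (conj (Jb p t (-φ))))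
  have hs := hs1.sub hs2
  have hD : (conj (Jb p t φ) * Hf F p t φ).re - (conj (Jb p t (-φ)) * Hf F p t (-φ)).re =
      Af F p t φ - Af F p t (-φ) := rfl
  rw [hD] at hs
  have hterm : ∀ n : ℕ, |(conj (Jb p t φ) * (b (n + 2) *
      exp (-(((n : ℂ) + 2) * (t + φ * I))))).re - (conj (Jb p t (-φ)) * (b (n + 2) *
      exp (-(((n : ℂ) + 2) * (t + ((-φ : ℝ) : ℂ) * I))))).re| ≤
      2 * |φ| * (‖b (n + 2)‖ * (E ^ (n + 1) * (((n : ℝ) + 3) + Qe t * ((n : ℝ) + 1)))) := by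
    intro n
    rw [tio_term, tio_term]
    have f1 : ((n : ℝ) + 3) * -φ = -(((n : ℝ) + 3) * φ) := by ring
    have f2 : ((n : ℝ) + 1) * -φ = -(((n : ℝ) + 1) * φ) := by ring
    rw [f1, f2, Real.cos_neg, Real.cos_neg, Real.sin_neg, Real.sin_neg, ← hE]
    set s1 : ℝ := Real.sin (((n : ℝ) + 3) * φ) with hs1'
    set s2 : ℝ := Real.sin (((n : ℝ) + 1) * φ) with hs2'
    have g1 : |s1| ≤ ((n : ℝ) + 3) * |φ| := by
      refine (Real.abs_sin_le_abs).trans (le_of_eq ?_)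
      rw [abs_mul, abs_of_nonneg (by positivity : (0 : ℝ) ≤ (n : ℝ) + 3)]
    have g2 : |s2| ≤ ((n : ℝ) + 1) * |φ| := by
      refine (Real.abs_sin_le_abs).trans (le_of_eq ?_)
      rw [abs_mul, abs_of_nonneg (by positivity : (0 : ℝ) ≤ (n : ℝ) + 1)]
    have g3 : |(b (n + 2)).im| ≤ ‖b (n + 2)‖ := Complex.abs_im_le_norm _
    have e5 : ∀ C1 C2 : ℝ, (b (n + 2)).re * (E ^ (n + 1) * C1 + p * E ^ (n + 3) * C2) +
        (b (n + 2)).im * (E ^ (n + 1) * s1 + p * E ^ (n + 3) * s2) -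
        ((b (n + 2)).re * (E ^ (n + 1) * C1 + p * E ^ (n + 3) * C2) +
        (b (n + 2)).im * (E ^ (n + 1) * -s1 + p * E ^ (n + 3) * -s2)) =
        2 * (b (n + 2)).im * (E ^ (n + 1) * (s1 + p * Qe t * s2)) := by
      intro C1 C2
      rw [← hEQ]
      ring
    rw [e5, abs_mul, abs_mul, abs_mul, abs_of_pos (pow_pos hE0 _),
      abs_of_pos (by norm_num : (0 : ℝ) < 2)]
    have g4 : |s1 + p * Qe t * s2| ≤ |φ| * (((n : ℝ) + 3) + Qe t * ((n : ℝ) + 1)) := by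
      refine (abs_add_le _ _).trans ?_
      rw [abs_mul, abs_of_nonneg (mul_nonneg hp hQ0.le)]
      have g5 : p * Qe t ≤ Qe t := by nlinarith
      have g6 : p * Qe t * |s2| ≤ Qe t * (((n : ℝ) + 1) * |φ|) :=
        mul_le_mul g5 g2 (abs_nonneg _) hQ0.le
      linarith
    have hEp : 0 < E ^ (n + 1) := pow_pos hE0 _
    calc 2 * |(b (n + 2)).im| * (E ^ (n + 1) * |s1 + p * Qe t * s2|)
        ≤ 2 * ‖b (n + 2)‖ * (E ^ (n + 1) * (|φ| * (((n : ℝ) + 3) + Qe t * ((n : ℝ) + 1)))) := by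
          refine mul_le_mul (by linarith) (mul_le_mul_of_nonneg_left g4 hEp.le) (by positivity)
            (by positivity)
      _ = 2 * |φ| * (‖b (n + 2)‖ * (E ^ (n + 1) * (((n : ℝ) + 3) + Qe t * ((n : ℝ) + 1)))) := by
          ring
  have hs3 := (hs.tendsto_sum_nat).pow 2
  refine le_of_tendsto hs3 (Eventually.of_forall fun M => ?_)
  rw [← sq_abs]
  have k1 := Finset.abs_sum_le_sum_abs (fun n : ℕ => (conj (Jb p t φ) * (b (n + 2) *
      exp (-(((n : ℂ) + 2) * (t + φ * I))))).re - (conj (Jb p t (-φ)) * (b (n + 2) *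
      exp (-(((n : ℂ) + 2) * (t + ((-φ : ℝ) : ℂ) * I))))).re) (Finset.range M)
  have k2 := k1.trans (Finset.sum_le_sum fun n _ => hterm n)
  rw [← Finset.mul_sum] at k2
  have k3 := pow_le_pow_left₀ (abs_nonneg _) k2 2
  refine k3.trans ?_
  rw [mul_pow, mul_pow, sq_abs]
  have k4 : (∑ n ∈ Finset.range M, ‖b (n + 2)‖ *
      (E ^ (n + 1) * (((n : ℝ) + 3) + Qe t * ((n : ℝ) + 1)))) ^ 2 ≤
      (∑ n ∈ Finset.range M, ((n : ℝ) + 2) * ‖b (n + 2)‖ ^ 2) *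
        (∑ n ∈ Finset.range M, Qe t ^ (n + 1) *
          (((n : ℝ) + 3) + Qe t * ((n : ℝ) + 1)) ^ 2 / ((n : ℝ) + 2)) := by
    apply Finset.sum_sq_le_sum_mul_sum_of_sq_le_mul
    · intro n _; positivity
    · intro n _; positivity
    · intro n _
      have f1 : ((n : ℝ) + 2) ≠ 0 := by positivity
      rw [mul_pow, mul_pow, ← pow_mul, mul_comm (n + 1) 2, pow_mul, hEQ]
      refine le_of_eq ?_
      field_simp
  have k5 := h.area2 hb' M
  have k6 : ∑ n ∈ Finset.range M, Qe t ^ (n + 1) *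
      (((n : ℝ) + 3) + Qe t * ((n : ℝ) + 1)) ^ 2 / ((n : ℝ) + 2) ≤ 99 / 400 := by
    refine le_trans (Finset.sum_le_sum fun n _ => ?_) (tio_sum M)
    unfold tio_c
    refine div_le_div_of_nonneg_right ?_ (by positivity)
    refine mul_le_mul (pow_le_pow_left₀ hQ0.le hQ _) ?_ (by positivity) (by positivity)
    refine pow_le_pow_left₀ (by positivity) ?_ 2
    have : (0 : ℝ) ≤ (n : ℝ) + 1 := by positivity
    have := mul_le_mul_of_nonneg_right hQ this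
    linarith
  have hee : 0 ≤ (1 - p) * (2 - (1 - p)) := by
    have := h.area2 hb' 0
    rwa [Finset.sum_range_zero] at this
  have k7 := k4.trans (mul_le_mul k5 k6 (Finset.sum_nonneg fun n _ => by positivity) hee)
  have k8 : (1 - p) * (2 - (1 - p)) * (99 / 400) ≤ (1 - p) * (99 / 200) := by
    nlinarith [mul_nonneg (by linarith : 0 ≤ 1 - p) (by linarith : 0 ≤ 1 - p)]
  have k9 := mul_le_mul_of_nonneg_left (k7.trans k8) (by positivity : 0 ≤ 2 ^ 2 * φ ^ 2)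
  refine k9.trans (le_of_eq ?_)
  ring

end Pool.Agent.H36.SZ
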