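import Pool.Agent.H36.SZ.TiB
import Pool.Agent.H36.SZ.TiO
import Pool.Agent.H36.SZ.HiP

/-!
# Tip levels, `t >= 3/2`: pointwise estimates

`μ = 1 - p`, `e = 1 - c ∈ (0, 7/20]`, `x = 2 cosh 2t + 2c`, `X = max 0 (cos 2φ - c)`,
`M = 2 cosh 2t + 2`, `yy J - x = 2 (cos 2φ - c)`.
`yy F φ = u + o + h` with `u = yb + Af φ + Af (-φ)` (even), `o = Af φ - Af (-φ)` (odd),
`h = |Hf φ|^2 <= 0.00257 μ`; for `|φ| <= 9/20`: `u <= yy J - 0.71 μ`, `o^2 <= 1.98 μ φ^2`, and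
`cos 2φ <= 1 - 2φ^2 + (2/3)φ^4 <= 1 - 1.865 φ^2` (`Real.cos_le_one_sub_...`/`Real.cos_bound`, or
`cos 2φ = 1 - 2 sin^2 φ`, `sin φ >= φ - φ^3/6`).
PROOF of `in_le`: `yy F - x <= 2e - 3.73 φ^2 - 0.70743 μ + sqrt (1.98 μ) |φ|`
`<= 2e - (3.73 - 1.98/(4 * 0.70743)) φ^2 <= 2e - 3.03 φ^2` and `2/3.03 <= 0.6601 < 2/3`.
PROOF of `in_le2`: the same expression is `<= 2e - (0.70743 - 1.98/(4 * 3.73)) μ <= 2e - 0.5747 μ`.
PROOF of `pt_far`: `yy F (±φ) <= x` and `Ph_gain` with `u := x`, `M`, `κ <= 1` (`Ph x x = 0`; if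
`yy J <= x` then `X = 0`).
PROOF of `pt_near`: `Ph_pair` (`m = 0.00257 μ`), `Ph x u <= Ph x (yy J - 0.71 μ)` (`Ph_mono'`),
`max 0 (u - x) <= 2 X`, `Ph_gain`: `Ph x (yy J) - Ph x (yy J - 0.71 μ) >=
(4 X^2 - max 0 (2X' - 0.71 μ)^2)/(2M)`, `X' = cos 2φ - c`, and `4X^2 - max 0 (2X' - 0.71μ)^2
>= 4 κ X^2` for `κ <= 1`, `κ <= 0.355 μ/e`: trivial if `2X' <= 0.71 μ` (or `X = 0`), else it is
`0.71μ (4X - 0.71μ) >= 0.71 μ 2X >= 4 X^2 (0.355 μ/e)` (`X <= e`).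
-/

open Complex MeasureTheory Set Filter Topology
open scoped ComplexConjugate Real

namespace Pool.Agent.H36.SZ

variable {F : ℂ → ℂ} {b : ℕ → ℂ} {q : ℝ}

theorem cos2_le {φ : ℝ} (hφ : |φ| ≤ 9 / 20) : Real.cos (2 * φ) ≤ 1 - 1865 / 1000 * φ ^ 2 := by
  have h0 : 0 ≤ |φ| := abs_nonneg φ
  have h1 : |φ| - |φ| ^ 3 / 6 ≤ Real.sin |φ| := Real.sin_ge_sub_cube h0
  have h2 : Real.cos (2 * φ) = 1 - 2 * Real.sin |φ| ^ 2 := by
    have e1 : Real.cos (2 * φ) = Real.cos (2 * |φ|) := by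
      rw [← Real.cos_abs (2 * φ), abs_mul]
      norm_num
    rw [e1, Real.cos_two_mul]
    have := Real.sin_sq_add_cos_sq |φ|
    linarith
  have h3 : φ ^ 2 = |φ| ^ 2 := (sq_abs φ).symm
  rw [h2, h3]
  set a := |φ| with ha
  have h4 : 0 ≤ a - a ^ 3 / 6 := by nlinarith [mul_nonneg h0 h0, sq_nonneg a]
  have h5 : (a - a ^ 3 / 6) ^ 2 ≤ Real.sin a ^ 2 := pow_le_pow_left₀ h4 h1 2
  have h6 : a ^ 2 ≤ 81 / 400 := by nlinarith
  have h7 : 1865 / 1000 * a ^ 2 ≤ 2 * (a - a ^ 3 / 6) ^ 2 := by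
    have e2 : (a - a ^ 3 / 6) ^ 2 = a ^ 2 * (1 - a ^ 2 / 6) ^ 2 := by ring
    rw [e2]
    have h8 : 1865 / 2000 ≤ (1 - a ^ 2 / 6) ^ 2 := by nlinarith
    nlinarith [sq_nonneg a]
  linarith

/-- the splitting of `|F|^2` in the even and the odd part -/
private theorem tir_split (F : ℂ → ℂ) (p t φ : ℝ) :
    yy F t φ = (yb p t φ + Af F p t φ + Af F p t (-φ)) + (Af F p t φ - Af F p t (-φ)) +
      ‖Hf F p t φ‖ ^ 2 := by
  rw [yy_split F p t φ]
  ring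

private theorem tir_split' (F : ℂ → ℂ) (p t φ : ℝ) :
    yy F t (-φ) = (yb p t φ + Af F p t φ + Af F p t (-φ)) - (Af F p t φ - Af F p t (-φ)) +
      ‖Hf F p t (-φ)‖ ^ 2 := by
  have e : yb p t (-φ) = yb p t φ := by
    unfold yb
    rw [mul_neg, Real.cos_neg]
  rw [yy_split F p t (-φ), e]
  ring

private theorem tir_up (h : Sg F b q) {p : ℝ} (hp : 0 ≤ p) (hp1 : p ≤ 1) (hb : b 1 = (p : ℂ))
    {t c φ : ℝ} (ht : 3 / 2 ≤ t) (hφ : |φ| ≤ 9 / 20) :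
    yy F t φ ≤ 2 * Real.cosh (2 * t) + 2 * c + (2 * (1 - c) - 373 / 100 * φ ^ 2 -
      70743 / 100000 * (1 - p) + |Af F p t φ - Af F p t (-φ)|) := by
  have h1 := h.base_le hp hp1 hb ht hφ
  have h2 := h.H_small hp hp1 hb ht φ
  have h3 := cos2_le hφ
  have h4 := yy_J' t φ
  have h5 := le_abs_self (Af F p t φ - Af F p t (-φ))
  rw [tir_split F p t φ]
  linarith

theorem Sg.in_le (h : Sg F b q) {p : ℝ} (hp : 0 ≤ p) (hp1 : p ≤ 1) (hb : b 1 = (p : ℂ))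
    {t c φ : ℝ} (ht : 3 / 2 ≤ t) (hφ : |φ| ≤ 9 / 20) (hφ1 : 2 / 3 * (1 - c) ≤ φ ^ 2) :
    yy F t φ ≤ 2 * Real.cosh (2 * t) + 2 * c := by
  have h1 := tir_up h hp hp1 hb (c := c) ht hφ
  have h2 := h.odd_le hp hp1 hb ht φ
  have hμ : 0 ≤ 1 - p := by linarith
  have h3 : |Af F p t φ - Af F p t (-φ)| ≤ 73 / 100 * φ ^ 2 + 70743 / 100000 * (1 - p) := by
    refine abs_le_of_sq_le_sq (h2.trans ?_) (by positivity)
    nlinarith [sq_nonneg (73 / 100 * φ ^ 2 - 70743 / 100000 * (1 - p)),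
      mul_nonneg hμ (sq_nonneg φ)]
  linarith

theorem Sg.in_le2 (h : Sg F b q) {p : ℝ} (hp : 0 ≤ p) (hp1 : p ≤ 1) (hb : b 1 = (p : ℂ))
    {t c φ : ℝ} (ht : 3 / 2 ≤ t) (hφ : |φ| ≤ 9 / 20) (hμ : 348 / 100 * (1 - c) ≤ 1 - p) :
    yy F t φ ≤ 2 * Real.cosh (2 * t) + 2 * c := by
  have h1 := tir_up h hp hp1 hb (c := c) ht hφ
  have h2 := h.odd_le hp hp1 hb ht φ
  have hμ0 : 0 ≤ 1 - p := by linarith
  have h3 : |Af F p t φ - Af F p t (-φ)| ≤ 373 / 100 * φ ^ 2 + 13271 / 100000 * (1 - p) := by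
    refine abs_le_of_sq_le_sq (h2.trans ?_) (by positivity)
    nlinarith [sq_nonneg (373 / 100 * φ ^ 2 - 13271 / 100000 * (1 - p)),
      mul_nonneg hμ0 (sq_nonneg φ)]
  linarith

theorem pt_far {t c κ y y' φ : ℝ} (hc : 0 ≤ c) (hc1 : c < 1) (hκ : κ ≤ 1)
    (h1 : y ≤ 2 * Real.cosh (2 * t) + 2 * c) (h2 : y' ≤ 2 * Real.cosh (2 * t) + 2 * c) :
    4 / (2 * Real.cosh (2 * t) + 2) * κ * max 0 (Real.cos (2 * φ) - c) ^ 2 ≤
      2 * Ph (2 * Real.cosh (2 * t) + 2 * c) (yy J t φ) -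
        (Ph (2 * Real.cosh (2 * t) + 2 * c) y + Ph (2 * Real.cosh (2 * t) + 2 * c) y') := by
  have hK : 1 ≤ Real.cosh (2 * t) := Real.one_le_cosh _
  have hx : 0 < 2 * Real.cosh (2 * t) + 2 * c := by linarith
  have hM : 0 < 2 * Real.cosh (2 * t) + 2 := by linarith
  rw [Ph_of_le h1, Ph_of_le h2]
  have hJ := yy_J' t φ
  have hcos := Real.cos_le_one (2 * φ)
  have e0 : max 0 (Real.cos (2 * φ) - c) ^ 2 = max 0 (Real.cos (2 * φ) - c) ^ 2 := rfl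
  rcases le_total (Real.cos (2 * φ)) c with h3 | h3
  · have h4 : max 0 (Real.cos (2 * φ) - c) = 0 := max_eq_left (by linarith)
    rw [h4]
    have h5 := Ph_nonneg hx.le (yy J t φ)
    simp only [ne_eq, OfNat.ofNat_ne_zero, not_false_eq_true, zero_pow, mul_zero, add_zero,
      sub_zero]
    linarith
  · have h4 : max 0 (Real.cos (2 * φ) - c) = Real.cos (2 * φ) - c := max_eq_right (by linarith)
    have h5 := Ph_gain hx (u := 2 * Real.cosh (2 * t) + 2 * c) (y := yy J t φ)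
      (M := 2 * Real.cosh (2 * t) + 2) (by rw [hJ]; linarith) (by rw [hJ]; linarith)
      (by linarith)
    have e1 : yy J t φ - (2 * Real.cosh (2 * t) + 2 * c) = 2 * (Real.cos (2 * φ) - c) := by
      rw [hJ]
      ring
    rw [e1, sub_self, max_self, max_eq_right (by linarith), Ph_of_le le_rfl] at h5
    rw [h4]
    have h6 : 4 / (2 * Real.cosh (2 * t) + 2) * κ * (Real.cos (2 * φ) - c) ^ 2 ≤
        4 / (2 * Real.cosh (2 * t) + 2) * (Real.cos (2 * φ) - c) ^ 2 := by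
      have h7 : 0 ≤ 4 / (2 * Real.cosh (2 * t) + 2) * (Real.cos (2 * φ) - c) ^ 2 := by positivity
      nlinarith
    have e2 : ((2 * (Real.cos (2 * φ) - c)) ^ 2 - 0 ^ 2) / (2 * (2 * Real.cosh (2 * t) + 2)) =
        1 / 2 * (4 / (2 * Real.cosh (2 * t) + 2) * (Real.cos (2 * φ) - c) ^ 2) := by
      field_simp
      ring
    rw [e2] at h5
    linarith

theorem Sg.pt_near (h : Sg F b q) {p : ℝ} (hp : 0 ≤ p) (hp1 : p ≤ 1) (hb : b 1 = (p : ℂ))
    {t c κ φ : ℝ} (ht : 3 / 2 ≤ t) (hc : 0 ≤ c) (hc1 : c < 1) (hκ : κ ≤ 1)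
    (hκ1 : κ * (1 - c) ≤ 355 / 1000 * (1 - p)) (hφ : |φ| ≤ 9 / 20) :
    4 / (2 * Real.cosh (2 * t) + 2) * κ * max 0 (Real.cos (2 * φ) - c) ^ 2 -
        (4 * (257 / 100000 * (1 - p)) * (1 - c) + 198 / 100 * (1 - p) * φ ^ 2 +
          2 * (257 / 100000 * (1 - p)) * (Real.sqrt (198 / 100 * (1 - p)) * |φ|) +
          (257 / 100000 * (1 - p)) ^ 2) / (2 * Real.cosh (2 * t) + 2 * c) ≤
      2 * Ph (2 * Real.cosh (2 * t) + 2 * c) (yy J t φ) -
        (Ph (2 * Real.cosh (2 * t) + 2 * c) (yy F t φ) +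
          Ph (2 * Real.cosh (2 * t) + 2 * c) (yy F t (-φ))) := by
  have hK : 1 ≤ Real.cosh (2 * t) := Real.one_le_cosh _
  have hμ : 0 ≤ 1 - p := by linarith
  have hJ := yy_J' t φ
  have hcos := Real.cos_le_one (2 * φ)
  have hbase := h.base_le hp hp1 hb ht hφ
  have hodd := h.odd_le hp hp1 hb ht φ
  have hH1 := h.H_small hp hp1 hb ht φ
  have hH2 := h.H_small hp hp1 hb ht (-φ)
  set x : ℝ := 2 * Real.cosh (2 * t) + 2 * c with hxdef
  set M : ℝ := 2 * Real.cosh (2 * t) + 2 with hMdef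
  have hx : 0 < x := by rw [hxdef]; linarith
  have hM : 0 < M := by rw [hMdef]; linarith
  set m : ℝ := 257 / 100000 * (1 - p) with hmdef
  have hm : 0 ≤ m := by rw [hmdef]; positivity
  set u : ℝ := yb p t φ + Af F p t φ + Af F p t (-φ) with hudef
  set o : ℝ := Af F p t φ - Af F p t (-φ) with hodef
  have hpair := Ph_pair hx (u := u) (o := o) (sq_nonneg ‖Hf F p t φ‖) hH1
    (sq_nonneg ‖Hf F p t (-φ)‖) hH2
  have e1 : u + o + ‖Hf F p t φ‖ ^ 2 = yy F t φ := (tir_split F p t φ).symm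
  have e2 : u - o + ‖Hf F p t (-φ)‖ ^ 2 = yy F t (-φ) := (tir_split' F p t φ).symm
  rw [e1, e2] at hpair
  -- the loss
  set X : ℝ := max 0 (Real.cos (2 * φ) - c) with hXdef
  have hX0 : 0 ≤ X := le_max_left _ _
  have hX1 : X ≤ 1 - c := max_le (by linarith) (by linarith)
  have hu : u ≤ yy J t φ - 71 / 100 * (1 - p) := hbase
  have e3 : yy J t φ - x = 2 * (Real.cos (2 * φ) - c) := by
    rw [hJ, hxdef]
    ring
  have hl1 : max 0 (u - x) ≤ 2 * (1 - c) := by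
    refine max_le (by linarith) ?_
    have h1 : u - x ≤ 2 * (Real.cos (2 * φ) - c) := by
      have : (0 : ℝ) ≤ 71 / 100 * (1 - p) := by positivity
      linarith
    linarith
  have ho : |o| ≤ Real.sqrt (198 / 100 * (1 - p)) * |φ| := by
    refine abs_le_of_sq_le_sq ?_ (by positivity)
    rw [mul_pow, Real.sq_sqrt (by positivity), sq_abs]
    exact hodd
  have hloss : (2 * m * max 0 (u - x) + o ^ 2 + 2 * |o| * m + m ^ 2) / x ≤
      (4 * m * (1 - c) + 198 / 100 * (1 - p) * φ ^ 2 +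
        2 * m * (Real.sqrt (198 / 100 * (1 - p)) * |φ|) + m ^ 2) / x := by
    apply div_le_div_of_nonneg_right _ hx.le
    have h1 : 2 * m * max 0 (u - x) ≤ 2 * m * (2 * (1 - c)) :=
      mul_le_mul_of_nonneg_left hl1 (by positivity)
    have h2 : 2 * |o| * m ≤ 2 * m * (Real.sqrt (198 / 100 * (1 - p)) * |φ|) := by
      have := mul_le_mul_of_nonneg_left ho (show 0 ≤ 2 * m by positivity)
      linarith
    linarith
  -- the gain
  have hmono : Ph x u ≤ Ph x (yy J t φ - 71 / 100 * (1 - p)) := Ph_mono' hx hu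
  have hgain := Ph_gain hx (u := yy J t φ - 71 / 100 * (1 - p)) (y := yy J t φ) (M := M)
    (by
      have : (0 : ℝ) ≤ 71 / 100 * (1 - p) := by positivity
      linarith)
    (by rw [hJ, hMdef]; linarith) (by rw [hxdef, hMdef]; linarith)
  have e4 : max 0 (yy J t φ - x) = 2 * X := by
    rw [e3, hXdef]
    rcases le_total (Real.cos (2 * φ) - c) 0 with h1 | h1
    · rw [max_eq_left h1, max_eq_left (by linarith), mul_zero]
    · rw [max_eq_right h1, max_eq_right (by linarith)]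
  have e5 : yy J t φ - 71 / 100 * (1 - p) - x = 2 * (Real.cos (2 * φ) - c) - 71 / 100 * (1 - p) := by
    linarith
  rw [e4, e5] at hgain
  have hkey : 4 * κ * X ^ 2 ≤
      (2 * X) ^ 2 - max 0 (2 * (Real.cos (2 * φ) - c) - 71 / 100 * (1 - p)) ^ 2 := by
    rcases le_total (2 * (Real.cos (2 * φ) - c) - 71 / 100 * (1 - p)) 0 with h1 | h1
    · rw [max_eq_left h1]
      nlinarith [sq_nonneg X]
    · rw [max_eq_right h1]
      have hc0 : 0 ≤ Real.cos (2 * φ) - c := by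
        have : (0 : ℝ) ≤ 71 / 100 * (1 - p) := by positivity
        linarith
      have hXe : X = Real.cos (2 * φ) - c := by rw [hXdef, max_eq_right hc0]
      rw [← hXe] at h1 ⊢
      have h2 : 4 * κ * X ^ 2 ≤ 2 * X * (71 / 100 * (1 - p)) := by
        rcases le_total κ 0 with h3 | h3
        · have h4 : 4 * κ * X ^ 2 ≤ 0 := by nlinarith [sq_nonneg X]
          have h5 : 0 ≤ 2 * X * (71 / 100 * (1 - p)) := by positivity
          linarith
        · have h4 : κ * X ≤ κ * (1 - c) := mul_le_mul_of_nonneg_left hX1 h3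
          have h5 : 4 * X * (κ * X) ≤ 4 * X * (355 / 1000 * (1 - p)) :=
            mul_le_mul_of_nonneg_left (h4.trans hκ1) (by positivity)
          nlinarith
      have h6 : 0 ≤ (71 / 100 * (1 - p)) * (2 * X - 71 / 100 * (1 - p)) :=
        mul_nonneg (by positivity) h1
      nlinarith
  have hkey2 : 4 / M * κ * X ^ 2 ≤
      2 * (((2 * X) ^ 2 - max 0 (2 * (Real.cos (2 * φ) - c) - 71 / 100 * (1 - p)) ^ 2) /
        (2 * M)) := by
    have e6 : 4 / M * κ * X ^ 2 = (4 * κ * X ^ 2) / M := by ring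
    have e7 : 2 * (((2 * X) ^ 2 - max 0 (2 * (Real.cos (2 * φ) - c) - 71 / 100 * (1 - p)) ^ 2) /
        (2 * M)) =
        ((2 * X) ^ 2 - max 0 (2 * (Real.cos (2 * φ) - c) - 71 / 100 * (1 - p)) ^ 2) / M := by
      field_simp
    rw [e6, e7]
    exact div_le_div_of_nonneg_right hkey hM.le
  linarith

end Pool.Agent.H36.SZ
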