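import Pool.Agent.H36.SZ.GAr
import Pool.Agent.H36.SZ.Rel

/-!
# Weighted area principle for the kernel `(|F|^2 - x)_+`

PROOF. For `ε > 0` let `r = max (y - x) 0`, `c y = r^3 / ((ε + r^2) y)` (`= 0` for `y <= x`).
`k = y c y = r^3 / (ε + r^2)` is `C^1` with `k' = (3 ε r^2 + r^4) / (ε + r^2)^2 >= 0`
(`r^3` has derivative `3 r^2`, `r^2` has derivative `2 r`), and `c` is `C^1` with
`c' y = (k' y - k) / y^2` (at `y < x`: `0`; `x > 0`), `c + y c' = k' >= 0`. By `garea_rad`
`0 <= int c_ε (yy) jr`. As `ε -> 0`, `c_ε (y) -> (1 - x/y)_+` pointwise and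
`0 <= c_ε y <= r / y <= 1`; dominated convergence gives `0 <= int (1 - x / max x y) jr = ZA`
(`An.ZA_eq`).
To have `c` of class `C^1` on all of `ℝ` (also `y <= 0`) note that it is `0` for `y <= x`,
`x > 0`.
-/

open Complex MeasureTheory Set Filter Topology
open scoped ComplexConjugate Real

namespace Pool.Agent.H36.SZ

variable {F : ℂ → ℂ} {b : ℕ → ℂ} {q : ℝ}

private theorem wr_pow (x : ℝ) (n : ℕ) (y : ℝ) :
    HasDerivAt (fun z : ℝ => (max (z - x) 0) ^ (n + 2))
      (((n : ℝ) + 2) * (max (y - x) 0) ^ (n + 1)) y := by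
  have hp : ∀ z : ℝ, HasDerivAt (fun z : ℝ => (z - x) ^ (n + 2))
      (((n : ℝ) + 2) * (z - x) ^ (n + 1)) z := by
    intro z
    have h1 := ((hasDerivAt_id z).sub_const x).pow (n + 2)
    have e : n + 2 - 1 = n + 1 := rfl
    rw [e] at h1
    have h2 : (((n + 2 : ℕ) : ℝ)) * (id z - x) ^ (n + 1) * 1 =
        ((n : ℝ) + 2) * (z - x) ^ (n + 1) := by
      push_cast
      simp
    rw [h2] at h1
    exact h1
  rcases lt_trichotomy y x with h | h | h
  · have h0 : max (y - x) 0 = 0 := max_eq_right (by linarith)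
    rw [h0, zero_pow (by omega), mul_zero]
    refine (hasDerivAt_const y (0 : ℝ)).congr_of_eventuallyEq ?_
    filter_upwards [Iio_mem_nhds h] with z hz
    have : max (z - x) 0 = 0 := max_eq_right (by linarith [mem_Iio.mp hz])
    rw [this, zero_pow (by omega)]
  · subst h
    have e0 : max (y - y) 0 = (0 : ℝ) := by simp
    rw [e0, zero_pow (by omega), mul_zero]
    have h1 : HasDerivWithinAt (fun z : ℝ => (max (z - y) 0) ^ (n + 2)) 0 (Iic y) y := by
      refine (hasDerivWithinAt_const y (Iic y) (0 : ℝ)).congr ?_ ?_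
      · intro z hz
        have : max (z - y) 0 = 0 := max_eq_right (by linarith [mem_Iic.mp hz])
        rw [this, zero_pow (by omega)]
      · rw [e0, zero_pow (by omega)]
    have h2 : HasDerivWithinAt (fun z : ℝ => (max (z - y) 0) ^ (n + 2)) 0 (Ici y) y := by
      have h3 := (hp y).hasDerivWithinAt (s := Ici y)
      rw [sub_self, zero_pow (by omega), mul_zero] at h3
      refine h3.congr ?_ ?_
      · intro z hz
        have : max (z - y) 0 = z - y := max_eq_left (by linarith [mem_Ici.mp hz])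
        rw [this]
      · simp
    have h3 := h1.union h2
    rw [Iic_union_Ici, hasDerivWithinAt_univ] at h3
    exact h3
  · have h0 : max (y - x) 0 = y - x := max_eq_left (by linarith)
    rw [h0]
    refine (hp y).congr_of_eventuallyEq ?_
    filter_upwards [Ioi_mem_nhds h] with z hz
    have : max (z - x) 0 = z - x := max_eq_left (by linarith [mem_Ioi.mp hz])
    rw [this]

private noncomputable def wrk (x ε y : ℝ) : ℝ :=
  (max (y - x) 0) ^ 3 / (ε + (max (y - x) 0) ^ 2)

private noncomputable def wrk' (x ε y : ℝ) : ℝ :=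
  (3 * (max (y - x) 0) ^ 2 * (ε + (max (y - x) 0) ^ 2) -
    (max (y - x) 0) ^ 3 * (2 * max (y - x) 0)) / (ε + (max (y - x) 0) ^ 2) ^ 2

private theorem wrk_deriv (x : ℝ) {ε : ℝ} (hε : 0 < ε) (y : ℝ) :
    HasDerivAt (wrk x ε) (wrk' x ε y) y := by
  have h3 := wr_pow x 1 y
  have h2 := wr_pow x 0 y
  norm_num at h3 h2
  have hd : ε + (max (y - x) 0) ^ 2 ≠ 0 := by positivity
  have h4 := h3.div (h2.const_add ε) hd
  exact h4

private theorem wrk'_nonneg (x : ℝ) {ε : ℝ} (hε : 0 < ε) (y : ℝ) : 0 ≤ wrk' x ε y := by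
  unfold wrk'
  have hr : 0 ≤ max (y - x) 0 := le_max_right _ _
  refine div_nonneg ?_ (by positivity)
  have : 3 * (max (y - x) 0) ^ 2 * (ε + (max (y - x) 0) ^ 2) -
    (max (y - x) 0) ^ 3 * (2 * max (y - x) 0) =
      3 * ε * (max (y - x) 0) ^ 2 + (max (y - x) 0) ^ 4 := by ring
  rw [this]
  positivity

private theorem wrk_cont (x : ℝ) {ε : ℝ} (hε : 0 < ε) : Continuous (wrk x ε) :=
  continuous_iff_continuousAt.mpr fun y => (wrk_deriv x hε y).continuousAt

private theorem wrk'_cont (x : ℝ) {ε : ℝ} (hε : 0 < ε) : Continuous (wrk' x ε) := by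
  unfold wrk'
  refine Continuous.div ?_ ?_ ?_
  · fun_prop
  · fun_prop
  · intro y
    positivity

private theorem wrk_zero {x ε y : ℝ} (h : y ≤ x) : wrk x ε y = 0 := by
  have h0 : max (y - x) 0 = 0 := max_eq_right (by linarith)
  simp [wrk, h0]

private theorem wrk'_zero {x ε y : ℝ} (h : y ≤ x) : wrk' x ε y = 0 := by
  have h0 : max (y - x) 0 = 0 := max_eq_right (by linarith)
  simp [wrk', h0]

private noncomputable def wrc (x ε y : ℝ) : ℝ := wrk x ε y / y

private noncomputable def wrc' (x ε y : ℝ) : ℝ := (wrk' x ε y * y - wrk x ε y * 1) / y ^ 2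

private theorem wrc_deriv {x : ℝ} (hx : 0 < x) {ε : ℝ} (hε : 0 < ε) (y : ℝ) :
    HasDerivAt (wrc x ε) (wrc' x ε y) y := by
  by_cases hy : y < x
  · have e : wrc' x ε y = 0 := by
      simp [wrc', wrk_zero hy.le, wrk'_zero hy.le]
    rw [e]
    refine (hasDerivAt_const y (0 : ℝ)).congr_of_eventuallyEq ?_
    filter_upwards [Iio_mem_nhds hy] with z hz
    simp [wrc, wrk_zero (mem_Iio.mp hz).le]
  · have hy0 : y ≠ 0 := by
      rintro rfl
      exact hy hx
    exact (wrk_deriv x hε y).div (hasDerivAt_id y) hy0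

private theorem wrc'_cont {x : ℝ} (hx : 0 < x) {ε : ℝ} (hε : 0 < ε) : Continuous (wrc' x ε) := by
  refine continuous_iff_continuousAt.mpr fun y => ?_
  by_cases hy : y < x
  · refine (continuousAt_const (y := (0 : ℝ))).congr ?_
    filter_upwards [Iio_mem_nhds hy] with z hz
    simp [wrc', wrk_zero (mem_Iio.mp hz).le, wrk'_zero (mem_Iio.mp hz).le]
  · have hy0 : y ≠ 0 := by
      rintro rfl
      exact hy hx
    have h1 := (wrk_cont x hε).continuousAt (x := y)
    have h2 := (wrk'_cont x hε).continuousAt (x := y)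
    unfold wrc'
    refine ContinuousAt.div ?_ ?_ (pow_ne_zero 2 hy0)
    · exact (h2.mul continuousAt_id).sub (h1.mul continuousAt_const)
    · exact continuousAt_id.pow 2

private theorem wrc_h0 (x : ℝ) {ε : ℝ} (hε : 0 < ε) (y : ℝ) (hy : 0 ≤ y) :
    0 ≤ wrc x ε y + y * wrc' x ε y := by
  rcases hy.eq_or_lt with h | h
  · rw [← h]
    simp [wrc]
  · have e : wrc x ε y + y * wrc' x ε y = wrk' x ε y := by
      unfold wrc wrc'
      field_simp
      ring
    rw [e]
    exact wrk'_nonneg x hε y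

private theorem wrc_bound {x : ℝ} (hx : 0 < x) {ε : ℝ} (hε : 0 < ε) (y : ℝ) (hy : 0 ≤ y) :
    |wrc x ε y| ≤ 1 := by
  by_cases h : y ≤ x
  · simp [wrc, wrk_zero h]
  · push Not at h
    have hr : 0 < max (y - x) 0 := lt_max_of_lt_left (by linarith)
    have hry : max (y - x) 0 ≤ y := max_le (by linarith) hy
    have hy0 : 0 < y := by linarith
    have h1 : wrk x ε y ≤ max (y - x) 0 := by
      unfold wrk
      rw [div_le_iff₀ (by positivity)]
      nlinarith [mul_pos hε hr]
    have h2 : 0 ≤ wrk x ε y := by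
      unfold wrk
      positivity
    unfold wrc
    rw [abs_of_nonneg (div_nonneg h2 hy), div_le_one hy0]
    linarith

private theorem wrc_lim {x : ℝ} (hx : 0 < x) (y : ℝ) :
    Tendsto (fun n : ℕ => wrc x (1 / ((n : ℝ) + 1)) y) atTop (𝓝 (1 - x / max x y)) := by
  by_cases h : y ≤ x
  · have e : 1 - x / max x y = 0 := by
      rw [max_eq_left h, div_self hx.ne', sub_self]
    rw [e]
    refine tendsto_const_nhds.congr fun n => ?_
    simp [wrc, wrk_zero h]
  · push Not at h
    have hr : 0 < y - x := by linarith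
    have hy0 : 0 < y := by linarith
    have hm : max (y - x) 0 = y - x := max_eq_left hr.le
    have e : 1 - x / max x y = ((y - x) ^ 3 / (0 + (y - x) ^ 2)) / y := by
      rw [max_eq_right h.le]
      field_simp
      ring
    rw [e]
    unfold wrc wrk
    rw [hm]
    have h1 : Tendsto (fun n : ℕ => 1 / ((n : ℝ) + 1)) atTop (𝓝 0) :=
      tendsto_one_div_add_atTop_nhds_zero_nat
    refine Tendsto.div_const ?_ y
    refine Tendsto.div tendsto_const_nhds (h1.add tendsto_const_nhds) ?_
    positivity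

theorem Sg.wr (h : Sg F b q) {t x : ℝ} (ht : q < Real.exp t) (hx : 0 < x) : 0 ≤ ZA F t x := by
  rw [← h.an.ZA_eq ht hx]
  have cG := h.an.cGt ht
  have cG1 := h.an.cG1t ht
  have cy : Continuous (yy F t) := by
    unfold yy
    exact (cG.norm).pow 2
  have cj : Continuous (jr F t) := by
    unfold jr
    exact Complex.continuous_re.comp ((Complex.continuous_conj.comp cG).mul cG1)
  have hlim : Tendsto (fun n : ℕ => ∫ θ in (-π)..π, wrc x (1 / ((n : ℝ) + 1)) (yy F t θ) * jr F t θ)
      atTop (𝓝 (∫ θ in (-π)..π, (1 - x / max x (yy F t θ)) * jr F t θ)) := by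
    refine intervalIntegral.tendsto_integral_filter_of_dominated_convergence
      (fun θ => |jr F t θ|) ?_ ?_ ?_ ?_
    · refine Eventually.of_forall fun n => ?_
      have hε : (0 : ℝ) < 1 / ((n : ℝ) + 1) := by positivity
      have hc : Continuous (wrc x (1 / ((n : ℝ) + 1))) :=
        continuous_iff_continuousAt.mpr fun y => (wrc_deriv hx hε y).continuousAt
      exact ((hc.comp cy).mul cj).aestronglyMeasurable
    · refine Eventually.of_forall fun n => ?_
      refine Eventually.of_forall fun θ _ => ?_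
      have hε : (0 : ℝ) < 1 / ((n : ℝ) + 1) := by positivity
      rw [Real.norm_eq_abs, abs_mul]
      have h1 := wrc_bound hx hε (yy F t θ) (by unfold yy; positivity)
      nlinarith [abs_nonneg (jr F t θ)]
    · exact (cj.abs).intervalIntegrable _ _
    · refine Eventually.of_forall fun θ _ => ?_
      exact (wrc_lim hx (yy F t θ)).mul_const _
  refine ge_of_tendsto' hlim fun n => ?_
  have hε : (0 : ℝ) < 1 / ((n : ℝ) + 1) := by positivity
  exact garea_rad h (wrc_deriv hx hε) (wrc'_cont hx hε) (wrc_h0 x hε) ht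

end Pool.Agent.H36.SZ
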